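import Pool.Agent.TRP.Defs
import Pool.Agent.FHP.RelL

/-!
# NHT: twisted diagrams, definitions of the night version (captain: helper38)

`S` contains one crossing of every twist class, `Cyc J` says that the classes of the crossings in `J`
contain a cycle of the graph of the diagram, `p i` is the label of the class of `i` (for instance the
number of its block), `a i` is its twist number.
-/

set_option autoImplicit false

open Submodule LaurentPolynomial

namespace Pool.Agent.NHT

open Pool.Agent.SPT Pool.Agent.EQT Pool.Agent.FHP Pool.Agent.TRA Pool.Agent.TRP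

/-- the number of the nonzero coefficients -/
noncomputable def terms (f : ℤ[T;T⁻¹]) : ℕ := f.coeff.support.card

open Classical in
/-- The twist number of the class of `i` with the sign of the cut: minus the sum of the signs of the
crossings of the class, if `i` is interlaced with a crossing of its class, and the sum itself, if not. -/
noncomputable def cutTwist {n : ℕ} (I : Fin n → Fin n → Prop) (e : Fin n → Bool) (i : Fin n) : ℤ :=
  if ∃ j, Twins I i j ∧ I i j then -twistNumber I e i else twistNumber I e i

variable {ι V : Type}

/-- `i` lies in a cycle of classes in `P` -/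
def InCycle [DecidableEq ι] (Cyc : Finset ι → Prop) (P : Finset ι) (i : ι) : Prop :=
  ∃ C ⊆ P, i ∈ C ∧ Cyc C ∧ ¬ Cyc (C.erase i)

/-- There are at most `9` classes with the label `q`, or they have cycle rank at most `5`, or contain no
forest of more than `3` classes, or they are series-parallel; and those with a twist number less than `T`
in absolute value contain no cycle. -/
def SmallBlock [DecidableEq V] [AddCommGroup V] [Module (ZMod 2) V]
    (S : Finset ι) (Cyc : Finset ι → Prop) (w : ι → V) (a : ι → ℤ) (p : ι → ℕ) (T q : ℕ) : Prop :=
  SmallPart S Cyc w p 9 5 3 q ∧ ¬ Cyc (S.filter fun i => p i = q ∧ |a i| < T)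

open Classical in
/-- There are a set `J` of classes and integers `w i` such that `∑ w i * d i = 0` and `∑ i ∈ J, d i` is
even for all short relations `d` between the twist numbers of the classes with the label `q`, moreover
`w i ≥ 0` for the classes which are not in `J`, and those of them with `w i = 0` contain no cycle. -/
def WeightBlock (S : Finset ι) (Cyc : Finset ι → Prop) (a : ι → ℤ) (p : ι → ℕ) (T q : ℕ) : Prop :=
  ∃ (J : Finset ι) (w : ι → ℤ),
    (∀ d, Short (S.filter fun i => p i = q) a T d →
      ∑ i ∈ S.filter (fun i => p i = q), w i * d i = 0 ∧ Even (∑ i ∈ J, d i)) ∧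
    (∀ i ∈ S, p i = q → i ∉ J → 0 ≤ w i) ∧
    ¬ Cyc (S.filter fun i => p i = q ∧ i ∉ J ∧ w i = 0)

/-- Among the classes with the label `q` there is a set `L` of classes with large twist numbers, at least
`T + ∑ |a j|` in absolute value, where the sum is over the classes which are not in `L`; these contain no
cycle; and each class of `L` with a negative twist number lies in a cycle which contains no class of `L`
with a positive twist number, or the same with the signs exchanged. -/
def AdequateBlock [DecidableEq ι] (S : Finset ι) (Cyc : Finset ι → Prop) (a : ι → ℤ) (p : ι → ℕ)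
    (T q : ℕ) : Prop :=
  ∃ L ⊆ S.filter fun i => p i = q,
    (∀ i ∈ L, (T : ℤ) + ∑ j ∈ (S.filter fun i => p i = q) \ L, |a j| ≤ |a i|) ∧
    ¬ Cyc ((S.filter fun i => p i = q) \ L) ∧
    ((∀ i ∈ L, a i < 0 →
        InCycle Cyc ((S.filter fun i => p i = q) \ L.filter fun j => 0 < a j) i) ∨
      ∀ i ∈ L, 0 < a i →
        InCycle Cyc ((S.filter fun i => p i = q) \ L.filter fun j => a j < 0) i)

/-- one of the three alternatives -/
def GoodBlock [DecidableEq ι] [DecidableEq V] [AddCommGroup V] [Module (ZMod 2) V]
    (S : Finset ι) (Cyc : Finset ι → Prop) (w : ι → V) (a : ι → ℤ) (p : ι → ℕ) (T q : ℕ) : Prop :=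
  SmallBlock S Cyc w a p T q ∨ WeightBlock S Cyc a p T q ∨ AdequateBlock S Cyc a p T q

/-- `φ` maps the classes of the first diagram bijectively to the classes of the second diagram and
preserves the entries of the cut matrix. -/
def SameShape {n n' : ℕ} (I : Fin n → Fin n → Prop) (S : Finset (Fin n))
    (I' : Fin n' → Fin n' → Prop) (S' : Finset (Fin n')) (φ : Fin n → Fin n') : Prop :=
  Set.BijOn φ (S : Set (Fin n)) (S' : Set (Fin n')) ∧
    ∀ i ∈ S, ∀ j ∈ S, cutEntry I i j = cutEntry I' (φ i) (φ j)

end Pool.Agent.NHT
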