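import Pool.Agent.TRA.Sum
import Pool.Agent.NHT.Defs

/-!
# NHT, module St: one block (helper38)

`Q` are the classes of a block, `r i` is the row of the class `i`.
-/

set_option autoImplicit false

open Submodule

namespace Pool.Agent.NHT

open Pool.Agent.SPT Pool.Agent.TRA Pool.Agent.TRP Pool.Agent.SPT.Rel

/-- The rows of the classes in `Q` are different and not zero, and a set of classes contains no cycle
if and only if the other rows span the same space. -/
structure Block {ι V : Type} [DecidableEq V] [AddCommGroup V] [Module (ZMod 2) V] (Q : Finset ι)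
    (Cyc : Finset ι → Prop) (r : ι → V) : Prop where
  /-- different rows -/
  inj : Set.InjOn r (Q : Set ι)
  /-- no zero row -/
  ne : ∀ i ∈ Q, r i ≠ 0
  /-- no cycle -/
  co : ∀ J ⊆ Q, ¬ Cyc J ↔ Co (Q.image r) (J.image r)

open Classical in
/-- **Module W**: alternative (b) -/
def St_Weight : Prop :=
  ∀ (ι V : Type) [DecidableEq ι] [DecidableEq V] [AddCommGroup V] [Module (ZMod 2) V]
    (Q : Finset ι) (Cyc : Finset ι → Prop) (r : ι → V), Block Q Cyc r →
    ∀ (a u : V → ℤ) (C T : ℕ), Follows (Q.image r) a u C T →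
    ∀ (J : Finset ι) (w : ι → ℤ),
      (∀ d, Short Q (fun i => a (r i)) T d → ∑ i ∈ Q, w i * d i = 0 ∧ Even (∑ i ∈ J, d i)) →
      (∀ i ∈ Q, i ∉ J → 0 ≤ w i) → ¬ Cyc (Q.filter fun i => i ∉ J ∧ w i = 0) →
      NZu (Q.image r) u

/-- **Module A**: alternative (c) -/
def St_Adequate : Prop :=
  ∀ (ι V : Type) [DecidableEq ι] [DecidableEq V] [AddCommGroup V] [Module (ZMod 2) V]
    (Q : Finset ι) (Cyc : Finset ι → Prop) (r : ι → V), Block Q Cyc r →
    ∀ (a u : V → ℤ) (C T : ℕ), Follows (Q.image r) a u C T → 1 ≤ T →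
    ∀ L ⊆ Q, (∀ i ∈ L, (T : ℤ) + ∑ j ∈ Q \ L, |a (r j)| ≤ |a (r i)|) → ¬ Cyc (Q \ L) →
      ((∀ i ∈ L, a (r i) < 0 → InCycle Cyc (Q \ L.filter fun j => 0 < a (r j)) i) ∨
        ∀ i ∈ L, 0 < a (r i) → InCycle Cyc (Q \ L.filter fun j => a (r j) < 0) i) →
      NZu (Q.image r) u

end Pool.Agent.NHT
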