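import Mathlib
import Pool.Agent.NHT.St
import Pool.Agent.TRJ.Large

/-!
# NHT, module Adequate (helper36): the large part of a block is adequate on one side, the other classes
contain no cycle
-/

set_option autoImplicit false
set_option linter.unusedSectionVars false

open Submodule

namespace Pool.Agent.NHT

open Pool.Agent.SPT Pool.Agent.TRA Pool.Agent.TRP Pool.Agent.SPT.Rel

variable {ι V : Type} [DecidableEq ι] [DecidableEq V] [AddCommGroup V] [Module (ZMod 2) V]

/-- the rows outside of a set of classes -/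
theorem Block.image_sdiff {Q : Finset ι} {Cyc : Finset ι → Prop} {r : ι → V} (h : Block Q Cyc r)
    {J : Finset ι} (hJ : J ⊆ Q) : Q.image r \ J.image r = (Q \ J).image r := by
  ext v
  rw [Finset.mem_sdiff, Finset.mem_image, Finset.mem_image, Finset.mem_image]
  constructor
  · rintro ⟨⟨i, hi, rfl⟩, h1⟩
    exact ⟨i, Finset.mem_sdiff.2 ⟨hi, fun h2 => h1 ⟨i, h2, rfl⟩⟩, rfl⟩
  · rintro ⟨i, hi, rfl⟩
    rw [Finset.mem_sdiff] at hi
    refine ⟨⟨i, hi.1, rfl⟩, ?_⟩
    rintro ⟨j, hj, hji⟩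
    exact hi.2 (h.inj (Finset.mem_coe.2 (hJ hj)) (Finset.mem_coe.2 hi.1) hji ▸ hj)

/-- the row of a class of a cycle is not in the span of the rows outside of the cycle -/
theorem Block.notMem {Q : Finset ι} {Cyc : Finset ι → Prop} {r : ι → V} (h : Block Q Cyc r)
    {P : Finset ι} {i : ι} (hi : InCycle Cyc (Q \ P) i) (hP : P ⊆ Q) :
    r i ∉ span (ZMod 2) ((P.image r : Finset V) : Set V) := by
  obtain ⟨C, hC, hiC, hc, hc'⟩ := hi
  have hCQ : C ⊆ Q := hC.trans Finset.sdiff_subset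
  intro h1
  have h2 : P ⊆ Q \ C := by
    intro j hj
    exact Finset.mem_sdiff.2 ⟨hP hj, fun h3 => (Finset.mem_sdiff.1 (hC h3)).2 hj⟩
  have h3 : r i ∈ span (ZMod 2) (((Q \ C).image r : Finset V) : Set V) :=
    span_mono (Finset.coe_subset.2 (Finset.image_mono r h2)) h1
  have h4 := (h.co (C.erase i) ((Finset.erase_subset i C).trans hCQ)).1 hc'
  refine (h.co C hCQ).2 ?_ hc
  unfold Co at h4 ⊢
  rw [h.image_sdiff ((Finset.erase_subset i C).trans hCQ)] at h4
  rw [h.image_sdiff hCQ]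
  refine le_antisymm (span_mono (Finset.coe_subset.2 (Finset.image_mono r Finset.sdiff_subset))) ?_
  rw [← h4, span_le]
  intro v hv
  obtain ⟨j, hj, rfl⟩ := Finset.mem_image.1 (Finset.mem_coe.1 hv)
  rw [Finset.mem_sdiff, Finset.mem_erase, not_and_or, not_not] at hj
  rcases hj with ⟨hjQ, rfl | hj⟩
  · exact h3
  · exact subset_span (Finset.mem_coe.2 (Finset.mem_image_of_mem r (Finset.mem_sdiff.2 ⟨hjQ, hj⟩)))

/-- **Module A** -/
theorem thm_Adequate : St_Adequate := by
  classical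
  intro ι V _ _ _ _ Q Cyc r hB a u C T hF hT L hL hbig hcyc hcase
  by_contra hnz
  have h0 : (0 : V) ∉ Q.image r := by
    intro h
    obtain ⟨i, hi, h1⟩ := Finset.mem_image.1 h
    exact hB.ne i hi h1
  have hLX : L.image r ⊆ Q.image r := Finset.image_mono r hL
  have hsd : Q \ (Q \ L) = L := Finset.sdiff_sdiff_eq_self hL
  have hs : span (ZMod 2) ((L.image r : Finset V) : Set V) =
      span (ZMod 2) ((Q.image r : Finset V) : Set V) := by
    have h1 := (hB.co (Q \ L) Finset.sdiff_subset).1 hcyc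
    unfold Co at h1
    rw [hB.image_sdiff Finset.sdiff_subset, hsd] at h1
    exact h1
  have hlong : ∀ i ∈ L, (T : ℤ) ≤ |a (r i)| := by
    intro i hi
    have h1 := hbig i hi
    have h2 : 0 ≤ ∑ j ∈ Q \ L, |a (r j)| := Finset.sum_nonneg fun _ _ => abs_nonneg _
    omega
  have hbig' : ∀ v ∈ L.image r, (T : ℤ) + ∑ x ∈ Q.image r \ L.image r, |a x| ≤ |a v| := by
    intro v hv
    obtain ⟨i, hi, rfl⟩ := Finset.mem_image.1 hv
    rw [hB.image_sdiff hL, Finset.sum_image]
    · exact hbig i hi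
    · intro x hx y hy h
      exact hB.inj (Finset.mem_coe.2 (Finset.sdiff_subset (Finset.mem_coe.1 hx)))
        (Finset.mem_coe.2 (Finset.sdiff_subset (Finset.mem_coe.1 hy))) h
  refine TRJ.adequate_false (Q.image r) h0 a u C T hF hnz (L.image r) hLX hbig' hs ?_
  rcases hcase with hcase | hcase
  · refine ⟨1, Or.inl rfl, fun v hv hv0 => ?_⟩
    obtain ⟨i, hi, rfl⟩ := Finset.mem_image.1 hv
    rw [one_mul] at hv0
    intro h1
    refine hB.notMem (hcase i hi hv0) ((Finset.filter_subset _ _).trans hL) (span_mono ?_ h1)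
    rintro x ⟨hx, hx0⟩
    obtain ⟨j, hj, rfl⟩ := Finset.mem_image.1 hx
    rw [one_mul] at hx0
    refine Finset.mem_coe.2 (Finset.mem_image_of_mem r (Finset.mem_filter.2 ⟨hj, ?_⟩))
    have h2 := hlong j hj
    rw [abs_of_nonneg hx0] at h2
    omega
  · refine ⟨-1, Or.inr rfl, fun v hv hv0 => ?_⟩
    obtain ⟨i, hi, rfl⟩ := Finset.mem_image.1 hv
    have hv1 : 0 < a (r i) := by omega
    intro h1
    refine hB.notMem (hcase i hi hv1) ((Finset.filter_subset _ _).trans hL) (span_mono ?_ h1)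
    rintro x ⟨hx, hx0⟩
    obtain ⟨j, hj, rfl⟩ := Finset.mem_image.1 hx
    refine Finset.mem_coe.2 (Finset.mem_image_of_mem r (Finset.mem_filter.2 ⟨hj, ?_⟩))
    have h2 := hlong j hj
    have h3 : a (r j) ≤ 0 := by omega
    rw [abs_of_nonpos h3] at h2
    omega

end Pool.Agent.NHT
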