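import Pool.Agent.NHT.Defs3

/-!
# NHT, version 4: the definitions of the final statement (captain: helper38)

`S` contains one crossing of every twist class, `a i` is the twist number of the class of `i`, `J` is a
set of classes, `Cyc C` says that the classes in `C` contain a cycle of the graph of `J`, and `p i` is the
label of the class of `i` (for instance the number of its block).
-/

set_option autoImplicit false

namespace Pool.Agent.NHT

open Pool.Agent.SPT Pool.Agent.EQT Pool.Agent.FHP Pool.Agent.TRA Pool.Agent.TRP

variable {ι V : Type}

/-- Every short vector `d` has an even number of entries different from zero in `J`. -/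
def MeetsEvenly (S : Finset ι) (a : ι → ℤ) (N : ℕ) (J : Finset ι) : Prop :=
  ∀ d, Short S a N d → Even (∑ i ∈ J, d i)

/-- There are no six linearly independent short vectors for the classes with the label `q`. -/
def FewRelations (J : Finset ι) (a : ι → ℤ) (p : ι → ℕ) (T q : ℕ) : Prop :=
  ¬ ∃ d : Fin 6 → ι → ℤ, (∀ j, Short (J.filter fun i => p i = q) a T (d j)) ∧
    LinearIndependent ℤ d

/-- One of the alternatives (a), (b), (c) for the classes with the label `q`:

(a) the classes with a twist number less than `T` in absolute value contain no cycle, and there are at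
most `9` classes, or they have cycle rank at most `5`, or contain no forest of more than `3` classes, or
they are series-parallel, or there are no six independent short vectors;

(b) there are weights (`Weighted`) for the short vectors of these classes;

(c) for some integer `s` the sum of the twist numbers is `s` for an odd number of the unions of disjoint
cycles, and differs from `s` by at least `T` for the others. -/
def GoodBlock4 [DecidableEq ι] [DecidableEq V] [AddCommGroup V] [Module (ZMod 2) V]
    (J : Finset ι) (Cyc : Finset ι → Prop) (w : ι → V) (a : ι → ℤ) (p : ι → ℕ) (T q : ℕ) : Prop :=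
  (¬ Cyc (J.filter fun i => p i = q ∧ |a i| < T) ∧
      (SmallPart J Cyc w p 9 5 3 q ∨ FewRelations J a p T q)) ∨
    Weighted Cyc (J.filter fun i => p i = q) (Short (J.filter fun i => p i = q) a T) ∨
    OddBlock J Cyc a p T q

theorem GoodBlock4.good [DecidableEq ι] [DecidableEq V] [AddCommGroup V] [Module (ZMod 2) V]
    {J : Finset ι} {Cyc : Finset ι → Prop} {w : ι → V} {a : ι → ℤ} {p : ι → ℕ} {T q : ℕ}
    (h : GoodBlock4 J Cyc w a p T q) : GoodBlock3 J Cyc w a p T q := by
  rcases h with ⟨h1, h2 | h2⟩ | h | h
  · exact Or.inr (Or.inl ⟨h2, h1⟩)
  · exact Or.inr (Or.inr (Or.inl ⟨h2, h1⟩))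
  · exact Or.inr (Or.inr (Or.inr (Or.inl h)))
  · exact Or.inl h

end Pool.Agent.NHT
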