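import Pool.Agent.NHT.Defs10
import Pool.Agent.OCY.Block

/-!
# NHT, module BlockF: the alternatives for a block, for close cycle sets (helper19)

The coefficient of a set of rows which is not closed is zero.  So in the alternatives for a block the
short vectors can be replaced by the differences of cycle sets whose total twist numbers differ by less
than `T`.
-/

set_option autoImplicit false
set_option linter.unusedSectionVars false

open Submodule Module

namespace Pool.Agent.NHT

open Pool.Agent.SPT Pool.Agent.SPT.Rel Pool.Agent.SPT.Odd Pool.Agent.TRL Pool.Agent.TRA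
open Pool.Agent.TRP Pool.Agent.TRJ Pool.Agent.OCY

variable {ι V : Type} [DecidableEq ι] [DecidableEq V] [AddCommGroup V] [Module (ZMod 2) V]

/-- **Sums over the coefficients**: only the closed sets matter -/
theorem psi_flat (X : Finset V) (u : V → ℤ) (h : ¬ NZu X u) (ψ : Finset V → ℂ)
    (hψ : ∀ S S', Flat X S → Flat X S' → su u S = su u S' → ψ S = ψ S') :
    ∑ S ∈ X.powerset, (cc X S : ℂ) * ψ S = 0 := by
  classical
  obtain ⟨χ, hχ⟩ : ∃ χ : Finset V → ℂ, χ = fun S =>
      if h : ∃ K, Flat X K ∧ su u K = su u S then ψ h.choose else 0 := ⟨_, rfl⟩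
  have h1 : ∀ S, Flat X S → χ S = ψ S := by
    intro S hS
    have h : ∃ K, Flat X K ∧ su u K = su u S := ⟨S, hS, rfl⟩
    rw [hχ]
    show (if h : ∃ K, Flat X K ∧ su u K = su u S then ψ h.choose else 0) = ψ S
    rw [dif_pos h]
    exact hψ _ _ h.choose_spec.1 hS h.choose_spec.2
  have h2 : ∑ S ∈ X.powerset, (cc X S : ℂ) * χ S = 0 := by
    refine psi_zero X u h χ fun S _ S' _ hsu => ?_
    rw [hχ]
    show (if h : ∃ K, Flat X K ∧ su u K = su u S then ψ h.choose else 0) =
      (if h : ∃ K, Flat X K ∧ su u K = su u S' then ψ h.choose else 0)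
    rw [hsu]
  rw [← h2]
  refine Finset.sum_congr rfl fun S hS => ?_
  by_cases hF : Flat X S
  · rw [h1 S hF]
  · rw [cc_nonflat X S (Finset.mem_powerset.1 hS) hF, Int.cast_zero, zero_mul, zero_mul]

/-- the classes whose rows are not in `S` -/
def outC (Q : Finset ι) (r : ι → V) (S : Finset V) : Finset ι :=
  Q.filter fun i => r i ∉ S

theorem outC_sub (Q : Finset ι) (r : ι → V) (S : Finset V) : outC Q r S ⊆ Q :=
  Finset.filter_subset _ _

/-- **closed sets of rows are the complements of cycle sets** -/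
theorem flat_cycleSetB {Q : Finset ι} {Cyc : Finset ι → Prop} {r : ι → V} (hB : Block Q Cyc r)
    {S : Finset V} (hS : Flat (Q.image r) S) : CycleSet Cyc (outC Q r S) := by
  classical
  intro i hi
  unfold outC at hi
  rw [Finset.mem_filter] at hi
  obtain ⟨hiQ, hiS⟩ := hi
  have hisp : r i ∉ span (ZMod 2) (S : Set V) := fun h =>
    hiS (hS.2 (r i) (Finset.mem_image_of_mem r hiQ) h)
  -- a largest set of rows which contains `S` and whose span does not contain `r i`
  obtain ⟨F, hF, hmax⟩ := Finset.exists_max_image ((Q.image r).powerset.filter fun F =>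
    S ⊆ F ∧ r i ∉ span (ZMod 2) (F : Set V)) Finset.card
    ⟨S, Finset.mem_filter.2 ⟨Finset.mem_powerset.2 hS.1, Finset.Subset.refl S, hisp⟩⟩
  rw [Finset.mem_filter, Finset.mem_powerset] at hF
  obtain ⟨hFX, hSF, hiF⟩ := hF
  have hall : ∀ v ∈ Q.image r, v ∈ span (ZMod 2) ((insert (r i) F : Finset V) : Set V) := by
    intro v hv
    by_cases hvF : v ∈ F
    · exact subset_span (Finset.mem_coe.2 (Finset.mem_insert_of_mem hvF))
    · have h1 : r i ∈ span (ZMod 2) ((insert v F : Finset V) : Set V) := by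
        by_contra h2
        have h3 := hmax (insert v F) (Finset.mem_filter.2 ⟨Finset.mem_powerset.2
          (Finset.insert_subset hv hFX), hSF.trans (Finset.subset_insert v F), h2⟩)
        rw [Finset.card_insert_of_notMem hvF] at h3
        omega
      rw [Finset.coe_insert, mem_span_insert] at h1
      obtain ⟨c, z, hz, h2⟩ := h1
      rw [Finset.coe_insert, mem_span_insert]
      rcases z2 c with rfl | rfl
      · rw [zero_smul, zero_add] at h2
        exact absurd (h2 ▸ hz) hiF
      · rw [one_smul] at h2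
        refine ⟨1, -z, neg_mem hz, ?_⟩
        rw [one_smul, h2]
        abel
  obtain ⟨C, hC⟩ : ∃ C : Finset ι, C = outC Q r F := ⟨_, rfl⟩
  have hCQ : C ⊆ Q := by
    rw [hC]
    exact outC_sub Q r F
  have hiC : i ∈ C := by
    rw [hC]
    exact Finset.mem_filter.2 ⟨hiQ, fun h => hiF (subset_span (Finset.mem_coe.2 h))⟩
  have himg : Q.image r \ C.image r = F := by
    ext v
    rw [Finset.mem_sdiff]
    constructor
    · rintro ⟨h1, h2⟩
      obtain ⟨j, hj, rfl⟩ := Finset.mem_image.1 h1
      by_contra h3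
      refine h2 (Finset.mem_image_of_mem r ?_)
      rw [hC]
      exact Finset.mem_filter.2 ⟨hj, h3⟩
    · intro hv
      refine ⟨hFX hv, fun h => ?_⟩
      obtain ⟨j, hj, rfl⟩ := Finset.mem_image.1 h
      rw [hC] at hj
      exact (Finset.mem_filter.1 hj).2 hv
  refine ⟨C, ?_, hiC, ?_, ?_⟩
  · intro j hj
    rw [hC] at hj
    unfold outC at hj ⊢
    rw [Finset.mem_filter] at hj ⊢
    exact ⟨hj.1, fun h => hj.2 (hSF h)⟩
  · by_contra hno
    rw [hB.co C hCQ] at hno
    unfold Co at hno
    rw [himg] at hno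
    apply hiF
    rw [hno]
    exact subset_span (Finset.mem_coe.2 (Finset.mem_image_of_mem r hiQ))
  · rw [hB.co _ ((Finset.erase_subset i C).trans hCQ)]
    unfold Co
    refine le_antisymm (span_mono (Finset.coe_subset.2 Finset.sdiff_subset)) ?_
    refine span_le.2 fun v hv => ?_
    refine span_mono ?_ (hall v (Finset.mem_coe.1 hv))
    rw [Finset.coe_subset]
    refine Finset.insert_subset ?_ ?_
    · refine Finset.mem_sdiff.2 ⟨Finset.mem_image_of_mem r hiQ, fun h => ?_⟩
      obtain ⟨j, hj, hji⟩ := Finset.mem_image.1 h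
      rw [Finset.mem_erase] at hj
      exact hj.1 (hB.inj (hCQ hj.2) hiQ hji)
    · rw [← himg]
      exact Finset.sdiff_subset_sdiff (Finset.Subset.refl _)
        (Finset.image_subset_image (Finset.erase_subset i C))

/-- sums over the classes whose rows are not in `S` -/
theorem sum_outC {Q : Finset ι} {Cyc : Finset ι → Prop} {r : ι → V} (hB : Block Q Cyc r)
    {S : Finset V} (hS : S ⊆ Q.image r) (f : V → ℤ) :
    ∑ i ∈ outC Q r S, f (r i) + ∑ v ∈ S, f v = ∑ i ∈ Q, f (r i) := by
  classical
  have h1 : ∑ v ∈ S, f v = ∑ i ∈ Q.filter (fun i => r i ∈ S), f (r i) := by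
    rw [← Finset.sum_image (f := f) (g := r)
      (hB.inj.mono (Finset.coe_subset.2 (Finset.filter_subset _ _)))]
    refine Finset.sum_congr ?_ fun _ _ => rfl
    ext v
    rw [Finset.mem_image]
    constructor
    · intro hv
      obtain ⟨i, hi, rfl⟩ := Finset.mem_image.1 (hS hv)
      exact ⟨i, Finset.mem_filter.2 ⟨hi, hv⟩, rfl⟩
    · rintro ⟨i, hi, rfl⟩
      exact (Finset.mem_filter.1 hi).2
  rw [h1, add_comm]
  exact Finset.sum_filter_add_sum_filter_not Q (fun i => r i ∈ S) fun i => f (r i)

/-- **Close cycle sets**: closed sets with the same sum of `u` -/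
theorem close_of_su {Q : Finset ι} {Cyc : Finset ι → Prop} {r : ι → V} (hB : Block Q Cyc r)
    {a u : V → ℤ} {C T : ℕ} (hF : Follows (Q.image r) a u C T) {S S' : Finset V}
    (hS : Flat (Q.image r) S) (hS' : Flat (Q.image r) S') (h : su u S = su u S') :
    Close Q Cyc (fun i => a (r i)) T (outC Q r S) (outC Q r S') := by
  refine ⟨outC_sub Q r S, outC_sub Q r S', flat_cycleSetB hB hS, flat_cycleSetB hB hS', ?_⟩
  have h1 := sum_outC hB hS.1 a
  have h2 := sum_outC hB hS'.1 a
  by_contra h3
  refine (hF S hS.1 S' hS'.1).1 ?_ h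
  rw [not_lt] at h3
  have h4 : ∑ v ∈ S, a v - ∑ v ∈ S', a v =
      -(∑ i ∈ outC Q r S, a (r i) - ∑ i ∈ outC Q r S', a (r i)) := by
    omega
  rw [h4, abs_neg]
  exact h3

/-- differences of images -/
theorem himg2 {Q : Finset ι} {Cyc : Finset ι → Prop} {r : ι → V} (hB : Block Q Cyc r)
    {L F : Finset ι} (hL : L ⊆ Q) (hF : F ⊆ L) : (L \ F).image r = L.image r \ F.image r := by
  ext v
  rw [Finset.mem_image, Finset.mem_sdiff]
  constructor
  · rintro ⟨i, hi, rfl⟩
    rw [Finset.mem_sdiff] at hi
    refine ⟨Finset.mem_image_of_mem r hi.1, fun h => ?_⟩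
    obtain ⟨j, hj, hji⟩ := Finset.mem_image.1 h
    exact hi.2 (hB.inj (hL (hF hj)) (hL hi.1) hji ▸ hj)
  · rintro ⟨h1, h2⟩
    obtain ⟨i, hi, rfl⟩ := Finset.mem_image.1 h1
    exact ⟨i, Finset.mem_sdiff.2 ⟨hi, fun h => h2 (Finset.mem_image_of_mem r h)⟩, rfl⟩

/-- the inverse image of a sum over the coefficients -/
theorem cycleSum_eq {Q : Finset ι} {Cyc : Finset ι → Prop} {r : ι → V} (hB : Block Q Cyc r)
    (ψ : Finset ι → ℂ) :
    cycleSum Cyc Q ψ = ∑ S ∈ (Q.image r).powerset, (cc (Q.image r) S : ℂ) * ψ (outC Q r S) := by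
  classical
  have himg : ∀ F ⊆ Q, (Q \ F).image r = Q.image r \ F.image r :=
    fun F hF => (hB.image_sdiff hF).symm
  -- the sets `L`
  have hL : ∀ L ⊆ Q, outC Q r ((Q \ L).image r) = L := by
    intro L hL
    ext i
    unfold outC
    rw [Finset.mem_filter]
    constructor
    · rintro ⟨h1, h2⟩
      by_contra h3
      exact h2 (Finset.mem_image_of_mem r (Finset.mem_sdiff.2 ⟨h1, h3⟩))
    · intro hi
      refine ⟨hL hi, fun h => ?_⟩
      obtain ⟨j, hj, hji⟩ := Finset.mem_image.1 h
      rw [Finset.mem_sdiff] at hj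
      exact hj.2 (hB.inj hj.1 (hL hi) hji ▸ hi)
  have hinj : ∀ A ⊆ Q, ∀ A' ⊆ Q, A.image r ⊆ A'.image r → A ⊆ A' := by
    intro A hA A' hA' h i hi
    obtain ⟨j, hj, hji⟩ := Finset.mem_image.1 (h (Finset.mem_image_of_mem r hi))
    exact hB.inj (hA' hj) (hA hi) hji ▸ hj
  have hpre : ∀ W ⊆ Q.image r, ∃ Y ⊆ Q, W = Y.image r := by
    intro W hW
    refine ⟨Q.filter fun i => r i ∈ W, Finset.filter_subset _ _, ?_⟩
    ext v
    rw [Finset.mem_image]
    constructor
    · intro hv
      obtain ⟨i, hi, rfl⟩ := Finset.mem_image.1 (hW hv)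
      exact ⟨i, Finset.mem_filter.2 ⟨hi, hv⟩, rfl⟩
    · rintro ⟨i, hi, rfl⟩
      exact (Finset.mem_filter.1 hi).2
  have hiff : ∀ F ⊆ Q, (Spans ⊥ (Q.image r) ((Q \ F).image r) ↔ ¬ Cyc F) := by
    intro F hF
    unfold Spans
    rw [bot_sup_eq, bot_sup_eq, hB.co F hF, himg F hF]
    rfl
  have hcc : ∀ L ⊆ Q, (cc (Q.image r) ((Q \ L).image r) : ℂ) =
      ∑ F ∈ L.powerset.filter (fun F => ¬ Cyc F), (-1 : ℂ) ^ (L.card + F.card) := by
    intro L hLQ
    have h1 : cc (Q.image r) ((Q \ L).image r) =
        ∑ F ∈ L.powerset.filter (fun F => ¬ Cyc F), (-1 : ℤ) ^ (L.card + F.card) := by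
      unfold cc
      rw [← Finset.sum_filter]
      symm
      refine Finset.sum_nbij (fun F => (Q \ F).image r) ?_ ?_ ?_ ?_
      · intro F hF
        rw [Finset.mem_filter, Finset.mem_powerset] at hF ⊢
        exact ⟨Finset.image_subset_image Finset.sdiff_subset, (hiff F (hF.1.trans hLQ)).2 hF.2,
          Finset.image_subset_image (Finset.sdiff_subset_sdiff (Finset.Subset.refl Q) hF.1)⟩
      · intro F hF F' hF' h
        rw [Finset.mem_coe, Finset.mem_filter, Finset.mem_powerset] at hF hF'
        have h1 : Q \ F = Q \ F' :=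
          (Finset.image_injOn_powerset_of_injOn hB.inj)
            (Finset.mem_coe.2 (Finset.mem_powerset.2 Finset.sdiff_subset))
            (Finset.mem_coe.2 (Finset.mem_powerset.2 Finset.sdiff_subset)) h
        rw [← Finset.sdiff_sdiff_eq_self (hF.1.trans hLQ),
          ← Finset.sdiff_sdiff_eq_self (hF'.1.trans hLQ), h1]
      · intro W hW
        rw [Finset.mem_coe, Finset.mem_filter, Finset.mem_powerset] at hW
        obtain ⟨hW1, hW2, hW3⟩ := hW
        obtain ⟨Y, hY, rfl⟩ := hpre W hW1
        refine ⟨Q \ Y, ?_, ?_⟩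
        · rw [Finset.mem_coe, Finset.mem_filter, Finset.mem_powerset]
          refine ⟨?_, (hiff _ Finset.sdiff_subset).1 ?_⟩
          · have h2 := hinj _ Finset.sdiff_subset _ hY hW3
            intro i hi
            rw [Finset.mem_sdiff] at hi
            by_contra h3
            exact hi.2 (h2 (Finset.mem_sdiff.2 ⟨hi.1, h3⟩))
          · rw [Finset.sdiff_sdiff_eq_self hY]
            exact hW2
        · show (Q \ (Q \ Y)).image r = Y.image r
          rw [Finset.sdiff_sdiff_eq_self hY]
      · intro F hF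
        rw [Finset.mem_filter, Finset.mem_powerset] at hF
        have h2 : (Q \ F).image r \ (Q \ L).image r = (L \ F).image r := by
          rw [himg F (hF.1.trans hLQ), himg L hLQ, himg2 hB hLQ hF.1]
          ext v
          simp only [Finset.mem_sdiff, not_and, not_not]
          constructor
          · rintro ⟨⟨h3, h4⟩, h5⟩
            exact ⟨h5 h3, h4⟩
          · rintro ⟨h3, h4⟩
            exact ⟨⟨Finset.image_subset_image hLQ h3, h4⟩, fun _ => h3⟩
        rw [h2, Finset.card_image_of_injOn (hB.inj.mono (Finset.coe_subset.2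
          (Finset.sdiff_subset.trans hLQ))), Finset.card_sdiff_of_subset hF.1]
        have h3 := Finset.card_le_card hF.1
        have h4 : L.card + F.card = (L.card - F.card) + 2 * F.card := by omega
        rw [h4, pow_add, pow_mul]
        norm_num
    rw [h1, Int.cast_sum]
    refine Finset.sum_congr rfl fun F _ => ?_
    push_cast
    rfl
  unfold cycleSum
  refine Finset.sum_nbij (fun L => (Q \ L).image r) ?_ ?_ ?_ ?_
  · intro L _
    exact Finset.mem_powerset.2 (Finset.image_subset_image Finset.sdiff_subset)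
  · intro L hL1 L' hL2 h
    rw [Finset.mem_coe, Finset.mem_powerset] at hL1 hL2
    have h1 : outC Q r ((Q \ L).image r) = outC Q r ((Q \ L').image r) := congrArg _ h
    rw [hL L hL1, hL L' hL2] at h1
    exact h1
  · intro W hW
    rw [Finset.mem_coe, Finset.mem_powerset] at hW
    obtain ⟨Y, hY, rfl⟩ := hpre W hW
    refine ⟨Q \ Y, ?_, ?_⟩
    · rw [Finset.mem_coe, Finset.mem_powerset]
      exact Finset.sdiff_subset
    · show (Q \ (Q \ Y)).image r = Y.image r
      rw [Finset.sdiff_sdiff_eq_self hY]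
  · intro L hL1
    rw [Finset.mem_powerset] at hL1
    rw [hL L hL1, hcc L hL1, Finset.sum_mul]

/-- **The general alternative for a block** -/
theorem sep_use (Q : Finset ι) (Cyc : Finset ι → Prop) (r : ι → V) (hB : Block Q Cyc r)
    (a u : V → ℤ) (C T : ℕ) (hF : Follows (Q.image r) a u C T)
    (h : Separating Q Q Cyc Cyc (fun i => a (r i)) T) : NZu (Q.image r) u := by
  classical
  by_contra hno
  obtain ⟨ψ, h1, h2⟩ := h
  apply h2
  rw [cycleSum_eq hB]
  refine psi_flat _ u hno (fun S => ψ (outC Q r S)) fun S S' hS hS' hsu => ?_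
  have h3 := h1 _ _ (close_of_su hB hF hS hS' hsu)
  rw [Finset.inter_eq_left.2 (outC_sub Q r S), Finset.inter_eq_left.2 (outC_sub Q r S')] at h3
  exact h3

/-- products over the classes whose rows are not in `S` -/
theorem prod_outC {Q : Finset ι} {Cyc : Finset ι → Prop} {r : ι → V} (hB : Block Q Cyc r)
    {S : Finset V} (hS : S ⊆ Q.image r) (f : V → ℂ) :
    (∏ i ∈ outC Q r S, f (r i)) * ∏ v ∈ S, f v = ∏ i ∈ Q, f (r i) := by
  classical
  have h1 : ∏ v ∈ S, f v = ∏ i ∈ Q.filter (fun i => r i ∈ S), f (r i) := by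
    rw [← Finset.prod_image (f := f) (g := r)
      (hB.inj.mono (Finset.coe_subset.2 (Finset.filter_subset _ _)))]
    refine Finset.prod_congr ?_ fun _ _ => rfl
    ext v
    rw [Finset.mem_image]
    constructor
    · intro hv
      obtain ⟨i, hi, rfl⟩ := Finset.mem_image.1 (hS hv)
      exact ⟨i, Finset.mem_filter.2 ⟨hi, hv⟩, rfl⟩
    · rintro ⟨i, hi, rfl⟩
      exact (Finset.mem_filter.1 hi).2
  rw [h1, mul_comm]
  exact Finset.prod_filter_mul_prod_filter_not Q (fun i => r i ∈ S) fun i => f (r i)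

/-- **Weights for close cycle sets of a block** -/
theorem weighted_useF (Q : Finset ι) (Cyc : Finset ι → Prop) (r : ι → V) (hB : Block Q Cyc r)
    (a u : V → ℤ) (C T : ℕ) (hF : Follows (Q.image r) a u C T)
    (h : WeightedOn Q Q Cyc Cyc (fun i => a (r i)) T) : NZu (Q.image r) u := by
  classical
  by_contra hno
  obtain ⟨x, hx0, hxc, hx⟩ := h
  have h0 : (0 : V) ∉ Q.image r := by
    intro h
    obtain ⟨i, hi, h1⟩ := Finset.mem_image.1 h
    exact hB.ne i hi h1
  -- the weights of the rows
  obtain ⟨x', hx'⟩ : ∃ x' : V → ℂ, ∀ i ∈ Q, x' (r i) = x i := by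
    refine ⟨fun v => if h : ∃ i ∈ Q, r i = v then x h.choose else 0, fun i hi => ?_⟩
    have h : ∃ j ∈ Q, r j = r i := ⟨i, hi, rfl⟩
    show (if h : ∃ j ∈ Q, r j = r i then x h.choose else 0) = x i
    rw [dif_pos h]
    exact congrArg x (hB.inj h.choose_spec.1 hi h.choose_spec.2)
  -- the polynomial is zero
  have hPP : PP (Q.image r) ⊥ x' = 0 := by
    rw [PP_cc]
    refine psi_flat (Q.image r) u hno (fun S => ∏ v ∈ S, x' v) fun S S' hS hS' hsu => ?_
    have h1 := hxc _ _ (close_of_su hB hF hS hS' hsu)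
    rw [Finset.inter_eq_left.2 (outC_sub Q r S), Finset.inter_eq_left.2 (outC_sub Q r S')] at h1
    have h2 : ∀ W : Finset V, ∏ i ∈ outC Q r W, x i = ∏ i ∈ outC Q r W, x' (r i) := by
      intro W
      exact Finset.prod_congr rfl fun i hi => (hx' i (outC_sub Q r W hi)).symm
    rw [h2, h2] at h1
    have h3 := prod_outC hB hS.1 x'
    have h4 := prod_outC hB hS'.1 x'
    rw [← h3, h1] at h4
    have h5 : ∏ i ∈ outC Q r S', x' (r i) ≠ 0 := Finset.prod_ne_zero_iff.2 fun i hi => by
      rw [hx' i (outC_sub Q r S' hi)]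
      exact hx0 i (outC_sub Q r S' hi)
    exact (mul_left_cancel₀ h5 h4).symm
  rcases hx with hx | hx
  · rw [← thm_Forest ι V Q Cyc r hB x x' hx'] at hx
    exact hx hPP
  · -- real weights
    have h1 : ∀ v ∈ Q.image r, ∃ y : ℝ, x' v = y ∧ -1 ≤ y ∧ y < 1 := by
      intro v hv
      obtain ⟨i, hi, rfl⟩ := Finset.mem_image.1 hv
      rw [hx' i hi]
      exact hx i hi
    choose! y hy using h1
    exact thm_Box V (Q.image r) h0 y x' (fun v hv => (hy v hv).2) (fun v hv => (hy v hv).1) hPP

/-- For the classes with the label `q` there is a set `O` such that the cycle sets of these classes which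
are close (their total twist numbers differ by less than `T`) meet `O` in sets whose numbers of classes
have the same parity, the classes which are not in `O` contain at most one cycle, and this cycle contains
a class with a twist number of at least `T` in absolute value. -/
def OneCycleF (J : Finset ι) (Cyc : Finset ι → Prop) (a : ι → ℤ) (p : ι → ℕ) (T q : ℕ) : Prop :=
  ∃ O ⊆ J.filter (fun i => p i = q), EvenOn (J.filter fun i => p i = q) O Cyc a T ∧
    (∀ C C', C ⊆ (J.filter fun i => p i = q) \ O → C' ⊆ (J.filter fun i => p i = q) \ O →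
      MinCycle Cyc C → MinCycle Cyc C' → C = C') ∧
    ¬ Cyc (((J.filter fun i => p i = q) \ O).filter fun i => |a i| < T)

/-- parities -/
theorem even_split {Q O : Finset ι} {L : Finset ι} (hO : O ⊆ Q) (_hL : L ⊆ Q) :
    (L ∩ O).card + ((Q \ L) ∩ O).card = O.card := by
  rw [← Finset.card_union_of_disjoint]
  · congr 1
    ext i
    simp only [Finset.mem_union, Finset.mem_inter, Finset.mem_sdiff]
    constructor
    · rintro (h | h) <;> exact h.2
    · intro hi
      by_cases h : i ∈ L
      · exact Or.inl ⟨h, hi⟩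
      · exact Or.inr ⟨⟨hO hi, h⟩, hi⟩
  · rw [Finset.disjoint_left]
    intro i h1 h2
    simp only [Finset.mem_inter, Finset.mem_sdiff] at h1 h2
    exact h2.1.2 h1.1

/-- **At most one cycle outside of `O`** -/
theorem cycle_useF (hMAIN : St_MAIN) (Q : Finset ι) (Cyc : Finset ι → Prop) (r : ι → V)
    (hB : Block Q Cyc r) (hreg : Reg (Q.image r)) (a u : V → ℤ) (C T : ℕ)
    (hF : Follows (Q.image r) a u C T) (I : Finset ι)
    (hev : EvenOn Q I Cyc (fun i => a (r i)) T)
    (h : OneCyc Cyc Q I fun i => (T : ℤ) ≤ |a (r i)|) : NZu (Q.image r) u := by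
  classical
  by_contra hno
  have hI := h.1
  have hIX : I.image r ⊆ Q.image r := Finset.image_mono r hI
  -- equal sums of `u` mean an even number of elements of `I`
  have hcard : ∀ S ⊆ Q.image r, (outC Q r S ∩ I).card + (S ∩ I.image r).card = I.card := by
    intro S hS
    have h1 : S ∩ I.image r = ((Q \ outC Q r S) ∩ I).image r := by
      ext v
      rw [Finset.mem_inter, Finset.mem_image, Finset.mem_image]
      constructor
      · rintro ⟨h1, i, hi, rfl⟩
        refine ⟨i, Finset.mem_inter.2 ⟨Finset.mem_sdiff.2 ⟨hI hi, fun h2 => ?_⟩, hi⟩, rfl⟩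
        exact (Finset.mem_filter.1 h2).2 h1
      · rintro ⟨i, hi, rfl⟩
        rw [Finset.mem_inter, Finset.mem_sdiff] at hi
        refine ⟨?_, i, hi.2, rfl⟩
        by_contra h2
        exact hi.1.2 (Finset.mem_filter.2 ⟨hi.1.1, h2⟩)
    rw [h1, Finset.card_image_of_injOn (hB.inj.mono (Finset.coe_subset.2
      (Finset.inter_subset_left.trans Finset.sdiff_subset)))]
    exact even_split hI (outC_sub Q r S)
  have hpar : ∀ S S', Flat (Q.image r) S → Flat (Q.image r) S' → su u S = su u S' →
      Even ((S ∩ I.image r).card + (S' ∩ I.image r).card) := by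
    intro S S' hS hS' hsu
    have h1 := hev _ _ (close_of_su hB hF hS hS' hsu)
    have h2 := hcard S hS.1
    have h3 := hcard S' hS'.1
    have h4 : (S ∩ I.image r).card + (S' ∩ I.image r).card +
        ((outC Q r S ∩ I).card + (outC Q r S' ∩ I).card) = 2 * I.card := by omega
    have h5 : Even ((S ∩ I.image r).card + (S' ∩ I.image r).card +
        ((outC Q r S ∩ I).card + (outC Q r S' ∩ I).card)) := by
      rw [h4]
      exact even_two_mul _
    rw [Nat.even_add] at h5
    exact h5.2 h1
  have hzero : ∀ z : ℂ, z ≠ 0 → PP (Q.image r) ⊥ (wt (I.image r) u z) = 0 := by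
    intro z hz
    rw [PP_cc]
    refine psi_flat (Q.image r) u hno (fun S => ∏ v ∈ S, wt (I.image r) u z v)
      fun S S' hS hS' hsu => ?_
    have h1 := hpar S S' hS hS' hsu
    show ∏ v ∈ S, wt (I.image r) u z v = ∏ v ∈ S', wt (I.image r) u z v
    rw [prod_wt _ _ _ hz, prod_wt _ _ _ hz, hsu]
    congr 1
    rw [Nat.even_add] at h1
    by_cases h6 : Even (S ∩ I.image r).card
    · rw [h6.neg_one_pow, (h1.1 h6).neg_one_pow]
    · rw [(Nat.not_even_iff_odd.1 h6).neg_one_pow,
        (Nat.not_even_iff_odd.1 fun h7 => h6 (h1.2 h7)).neg_one_pow]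
  rcases one_cases hB h with h1 | ⟨h1, i, hi, hiw, hri⟩
  · have h2 := odd_main V (Q.image r) (wt (I.image r) u 1)
      (fun v _ => by
        unfold wt
        rw [one_zpow, mul_one]
        split_ifs
        · exact Or.inr rfl
        · exact Or.inl rfl) (by
        rw [← h1]
        congr 1
        ext v
        unfold wt
        rw [Set.mem_ofPred_eq, one_zpow, mul_one]
        constructor
        · rintro ⟨_, h3⟩
          by_contra h4
          rw [if_neg fun h5 => h4 (Finset.mem_coe.2 h5)] at h3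
          norm_num at h3
        · intro h3
          exact ⟨hIX (Finset.mem_coe.1 h3), if_pos (Finset.mem_coe.1 h3)⟩)
    rw [hzero 1 one_ne_zero, norm_zero] at h2
    norm_num at h2
  · have hui : u (r i) ≠ 0 := by
      have h2 := (hF {r i} (Finset.singleton_subset_iff.2 (Finset.mem_image_of_mem r hi)) ∅
        (Finset.empty_subset _)).1
      rw [Finset.sum_singleton, Finset.sum_empty, Finset.sum_singleton, Finset.sum_empty,
        sub_zero] at h2
      exact h2 hiw
    obtain ⟨t, ht, hne⟩ := hMAIN V (Q.image r) (I.image r) u (hyp_block hB hreg hI h1)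
      ⟨r i, mem_out.2 ⟨Finset.mem_image_of_mem r hi, hri⟩, hui⟩
    apply hne
    have h2 := hzero ((Real.exp t : ℝ) : ℂ) (by
      rw [Complex.ofReal_exp]
      exact Complex.exp_ne_zero _)
    rw [PP_real (Q.image r) ⊥ (sx (I.image r) u t) _ fun v _ => ?_, bot_sup_eq] at h2
    · exact Complex.ofReal_eq_zero.1 h2
    · unfold wt sx ex
      rw [Real.exp_mul, Real.rpow_intCast]
      push_cast
      congr 1
      split_ifs <;> simp

/-- **The alternative `OneCycleF`** -/
theorem onecycle_useF (hMAIN : St_MAIN) (J Q : Finset ι) (Cyc : Finset ι → Prop) (r : ι → V)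
    (p : ι → ℕ) (q : ℕ) (hQ : Q = (J.filter fun i => p i = q)) (hB : Block Q Cyc r)
    (hreg : ∀ Y ⊆ Q.image r, Reg Y) (a u : V → ℤ) (C T : ℕ)
    (hF : Follows (Q.image r) a u C T) (h : OneCycleF J Cyc (fun i => a (r i)) p T q) :
    NZu (Q.image r) u := by
  classical
  obtain ⟨O, hO, hev, hone, hlong⟩ := h
  rw [← hQ] at hO hev hone hlong
  by_cases hc : Cyc (Q \ O)
  · refine cycle_useF hMAIN Q Cyc r hB (hreg _ (Finset.Subset.refl _)) a u C T hF O hev
      ⟨hO, one_of_min hB _ Finset.sdiff_subset hone hc, fun h1 => hlong ?_⟩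
    have h2 : (Q \ O).filter (fun i => ¬ (T : ℤ) ≤ |a (r i)|) =
        (Q \ O).filter fun i => |a (r i)| < T := by
      refine Finset.filter_congr fun i _ => ?_
      rw [not_le]
    rw [← h2]
    exact h1
  · by_cases hne : Q.Nonempty
    · obtain ⟨i, _⟩ := hne
      exact cycle_useF hMAIN Q Cyc r hB (hreg _ (Finset.Subset.refl _)) a u C T hF O hev
        ⟨hO, ⟨i, cyc_mono hB (Finset.erase_subset i _) Finset.sdiff_subset hc⟩,
          cyc_mono hB (Finset.filter_subset _ _) Finset.sdiff_subset hc⟩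
    · rw [Finset.not_nonempty_iff_eq_empty] at hne
      subst hne
      refine ⟨1, norm_one, ?_⟩
      rw [Finset.image_empty]
      unfold PP
      rw [Finset.powerset_empty, Finset.sum_singleton, if_pos (by unfold Spans; rfl),
        Finset.prod_empty]
      exact one_ne_zero

end Pool.Agent.NHT
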