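import Pool.Agent.NHT.Defs10

/-!
# NHT, version 11: cycle sets with cycle ranks of the same parity (captain: helper38)
-/

set_option autoImplicit false

namespace Pool.Agent.NHT

variable {ι : Type} [DecidableEq ι]

open Classical in
/-- The cycle rank of `L`: the number of the classes in `L`, minus the number of classes in a largest
subset of `L` without cycles. -/
noncomputable def cycleRank (Cyc : Finset ι → Prop) (L : Finset ι) : ℕ :=
  L.card - (L.powerset.filter fun F => ¬ Cyc F).sup Finset.card

/-- There is a set `Λ` of subsets of `J` which contains a cycle set of the graph of `J`; it is closed: if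
`L` and `L'` are close cycle sets of the graph of all classes, and `L ∩ J` is in `Λ`, then `L' ∩ J` is in
`Λ`; and the cycle ranks of the cycle sets of the graph of `J` which are in `Λ` have the same parity.  For
instance `Λ` has only one element. -/
def SameParity (S J : Finset ι) (CycS Cyc : Finset ι → Prop) (a : ι → ℤ) (N : ℕ) : Prop :=
  ∃ Λ : Finset (Finset ι), (∀ L L', Close S CycS a N L L' → L ∩ J ∈ Λ → L' ∩ J ∈ Λ) ∧
    (∃ L ∈ Λ, L ⊆ J ∧ CycleSet Cyc L) ∧
    ∀ L ∈ Λ, ∀ L' ∈ Λ, L ⊆ J → L' ⊆ J → CycleSet Cyc L → CycleSet Cyc L' →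
      Even (cycleRank Cyc L + cycleRank Cyc L')

end Pool.Agent.NHT
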