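import Mathlib

/-!
# NHT, definition of a nondegenerate set of classes (helper68)
-/

set_option autoImplicit false

namespace Pool.Agent.NHT

open Classical in
/-- The symmetric matrix of the relation `R` on `J` is invertible over the field with two elements: for
every nonempty set `I` in `J` some `i` in `J` is related to an odd number of elements of `I`.  If `R` is
the relation of the cut matrix then this says that `D_J` has one component. -/
def NonDeg {n : ℕ} (R : Fin n → Fin n → Prop) (J : Finset (Fin n)) : Prop :=
  ∀ I ⊆ J, I.Nonempty → ∃ i ∈ J, Odd (I.filter fun j => R i j).card

end Pool.Agent.NHT
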