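import Pool.Agent.NHT.Defs6
import Pool.Agent.NHT.Defs11
import Pool.Agent.NHT.DefsN

/-!
# NHT, version 12: the criterion for close cycle sets and its cases (captain: helper38)

`S` contains one crossing of every twist class, `a i` is the signed twist number of the class of `i`
(`cutTwist`), `J` is a set of classes, `CycS C` says that the classes in `C` contain a cycle of the graph
of all classes, and `Cyc C` says this for the graph of `J`.
-/

set_option autoImplicit false

namespace Pool.Agent.NHT

variable {ι : Type} [DecidableEq ι]

/-- The twist numbers of the classes in `J` are at least `N + ∑ |a j|` in absolute value, with the sum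
over the classes which are not in `J`. -/
def Long (S J : Finset ι) (a : ι → ℤ) (N : ℕ) : Prop :=
  ∀ i ∈ J, (N : ℤ) + ∑ j ∈ S \ J, |a j| ≤ |a i|

/-- The absolute values of the twist numbers of the classes in `J` lie between `m` and `(1 + 1 / |J|) m`,
where `m` is at least `2 (N + ∑ |a j|)`, with the sum over the classes which are not in `J`. -/
def NearlyEqual (S J : Finset ι) (a : ι → ℤ) (N : ℕ) : Prop :=
  ∃ m : ℤ, 2 * ((N : ℤ) + ∑ j ∈ S \ J, |a j|) ≤ m ∧
    ∀ i ∈ J, m ≤ |a i| ∧ J.card * (|a i| - m) ≤ m

/-- The criterion for close cycle sets: there is a function `ψ` as in `Separating`.  The other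
alternatives are cases of it: `SameParity` (for instance one isolated cycle set of the graph of `J`),
`EvenOn` and `WeightedOn`. -/
def CloseCriterion (S J : Finset ι) (CycS Cyc : Finset ι → Prop) (a : ι → ℤ) (N : ℕ) : Prop :=
  SameParity S J CycS Cyc a N ∨ EvenOn S J CycS a N ∨ WeightedOn S J CycS Cyc a N ∨
    Separating S J CycS Cyc a N

end Pool.Agent.NHT
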