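import Mathlib
import Pool.Agent.NHT.Defs12

/-!
# NHT, version 12, module Cases: long classes (helper38)
-/

set_option autoImplicit false
set_option linter.unusedSectionVars false

namespace Pool.Agent.NHT

variable {ι : Type} [DecidableEq ι]

/-- the difference of two sums -/
theorem cases_split {S J L L' : Finset ι} (hJ : J ⊆ S) (hL : L ⊆ S) (hL' : L' ⊆ S) (a : ι → ℤ) :
    |∑ i ∈ J, ((if i ∈ L then 1 else 0) - (if i ∈ L' then 1 else 0)) * a i| ≤
      |∑ i ∈ L, a i - ∑ i ∈ L', a i| + ∑ j ∈ S \ J, |a j| := by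
  classical
  have h0 : ∀ L ⊆ S, ∑ i ∈ L, a i = ∑ i ∈ S, (if i ∈ L then 1 else 0) * a i := by
    intro L hL
    rw [← Finset.sum_filter_add_sum_filter_not S (fun i => i ∈ L), Finset.sum_eq_zero (s :=
      S.filter fun i => ¬ i ∈ L) fun i hi => by rw [if_neg (Finset.mem_filter.1 hi).2, zero_mul],
      add_zero]
    have h1 : S.filter (fun i => i ∈ L) = L := by
      ext i
      rw [Finset.mem_filter]
      exact ⟨fun h => h.2, fun h => ⟨hL h, h⟩⟩
    rw [h1]
    exact Finset.sum_congr rfl fun i hi => by rw [if_pos hi, one_mul]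
  have h1 : ∑ i ∈ L, a i - ∑ i ∈ L', a i =
      ∑ i ∈ S \ J, ((if i ∈ L then 1 else 0) - (if i ∈ L' then 1 else 0)) * a i +
        ∑ i ∈ J, ((if i ∈ L then 1 else 0) - (if i ∈ L' then 1 else 0)) * a i := by
    rw [Finset.sum_sdiff hJ, h0 L hL, h0 L' hL', ← Finset.sum_sub_distrib]
    exact Finset.sum_congr rfl fun i _ => by ring
  have h2 : |∑ i ∈ S \ J, ((if i ∈ L then (1 : ℤ) else 0) - (if i ∈ L' then 1 else 0)) * a i| ≤
      ∑ j ∈ S \ J, |a j| := by
    refine (Finset.abs_sum_le_sum_abs _ _).trans (Finset.sum_le_sum fun i _ => ?_)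
    rw [abs_mul]
    have h3 : |(if i ∈ L then (1 : ℤ) else 0) - (if i ∈ L' then 1 else 0)| ≤ 1 := by
      by_cases h4 : i ∈ L <;> by_cases h5 : i ∈ L' <;> simp [h4, h5]
    exact mul_le_of_le_one_left (abs_nonneg _) h3
  have h3 := abs_sub (∑ i ∈ L, a i - ∑ i ∈ L', a i)
    (∑ i ∈ S \ J, ((if i ∈ L then (1 : ℤ) else 0) - (if i ∈ L' then 1 else 0)) * a i)
  rw [h1, add_sub_cancel_left] at h3
  rw [h1]
  omega

/-- **long classes**: the set of the classes of `J` with a twist number of the sign `s` is isolated -/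
theorem long_isolated {S J : Finset ι} (hJ : J ⊆ S) {CycS Cyc : Finset ι → Prop} {a : ι → ℤ} {N : ℕ}
    (h : Long S J a N) (s : ℤ) (hs : s = 1 ∨ s = -1)
    (hc : CycleSet Cyc (J.filter fun i => 0 < s * a i)) : Isolated S J CycS Cyc a N := by
  classical
  refine ⟨J.filter fun i => 0 < s * a i, Finset.filter_subset _ _, hc, ?_⟩
  rintro L L' ⟨hL, hL', -, -, hlt⟩ hLJ
  by_contra hne
  have h1 := cases_split hJ hL hL' a
  have hiL : ∀ i ∈ J, (i ∈ L ↔ 0 < s * a i) := by
    intro i hi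
    have h2 : i ∈ L ∩ J ↔ i ∈ J.filter fun i => 0 < s * a i := by rw [hLJ]
    rw [Finset.mem_inter, Finset.mem_filter] at h2
    exact ⟨fun h3 => (h2.1 ⟨h3, hi⟩).2, fun h3 => (h2.2 ⟨hi, h3⟩).1⟩
  have h3 : ∀ i ∈ J, 0 ≤ s * (((if i ∈ L then 1 else 0) - (if i ∈ L' then 1 else 0)) * a i) := by
    intro i hi
    by_cases h4 : i ∈ L
    · have h5 := (hiL i hi).1 h4
      by_cases h6 : i ∈ L'
      · rw [if_pos h4, if_pos h6, sub_self, zero_mul, mul_zero]
      · rw [if_pos h4, if_neg h6, sub_zero, one_mul]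
        exact h5.le
    · have h5 : ¬ 0 < s * a i := fun h => h4 ((hiL i hi).2 h)
      by_cases h6 : i ∈ L'
      · rw [if_neg h4, if_pos h6, zero_sub, neg_one_mul, mul_neg]
        omega
      · rw [if_neg h4, if_neg h6, sub_self, zero_mul, mul_zero]
  obtain ⟨i₀, hi₀, hd⟩ : ∃ i ∈ J, ¬ (i ∈ L ↔ i ∈ L') := by
    by_contra hno
    push Not at hno
    refine hne ?_
    rw [← hLJ]
    ext i
    rw [Finset.mem_inter, Finset.mem_inter]
    exact ⟨fun h => ⟨(hno i h.2).2 h.1, h.2⟩, fun h => ⟨(hno i h.2).1 h.1, h.2⟩⟩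
  have habs : ∀ z : ℤ, |s * z| = |z| := by
    intro z
    rcases hs with rfl | rfl
    · rw [one_mul]
    · rw [neg_one_mul, abs_neg]
  have h4 : |a i₀| ≤ |∑ i ∈ J, ((if i ∈ L then 1 else 0) - (if i ∈ L' then 1 else 0)) * a i| := by
    have h5 : |a i₀| = s * (((if i₀ ∈ L then 1 else 0) - (if i₀ ∈ L' then 1 else 0)) * a i₀) := by
      rw [← abs_of_nonneg (h3 i₀ hi₀), habs, abs_mul]
      by_cases h6 : i₀ ∈ L
      · by_cases h7 : i₀ ∈ L'
        · exact absurd ⟨fun _ => h7, fun _ => h6⟩ hd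
        · rw [if_pos h6, if_neg h7, sub_zero, abs_one, one_mul]
      · by_cases h7 : i₀ ∈ L'
        · rw [if_neg h6, if_pos h7, zero_sub, abs_neg, abs_one, one_mul]
        · exact absurd ⟨fun h => absurd h h6, fun h => absurd h h7⟩ hd
    rw [h5, ← habs, Finset.mul_sum, abs_of_nonneg (Finset.sum_nonneg h3)]
    exact Finset.single_le_sum (f := fun i => s * (((if i ∈ L then 1 else 0) -
      (if i ∈ L' then 1 else 0)) * a i)) h3 hi₀
  have h5 := h i₀ hi₀
  omega

theorem cases_aux {J : Finset ι} (b δ : ι → ℤ) (hδ : ∀ i, δ i = -1 ∨ δ i = 0 ∨ δ i = 1) (m : ℤ)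
    (hm : 0 ≤ m) (hb : ∀ i ∈ J, m ≤ b i ∧ J.card * (b i - m) ≤ m) (hD : 1 ≤ ∑ i ∈ J, δ i) :
    m * (J.card + 1) ≤ 2 * J.card * ∑ i ∈ J, δ i * b i := by
  classical
  have h1 : ∑ i ∈ J, (δ i - 1) * m ≤ ∑ i ∈ J, 2 * (J.card * (δ i * (b i - m))) := by
    refine Finset.sum_le_sum fun i hi => ?_
    obtain ⟨h2, h3⟩ := hb i hi
    rcases hδ i with h | h | h
    · rw [h]
      linarith
    · rw [h]
      linarith
    · rw [h]
      have h4 : 0 ≤ (J.card : ℤ) * (b i - m) := mul_nonneg (by positivity) (by linarith)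
      linarith
  have h2 : ∑ i ∈ J, (δ i - 1) * m = m * ∑ i ∈ J, δ i - m * J.card := by
    rw [← Finset.sum_mul, Finset.sum_sub_distrib, Finset.sum_const, nsmul_eq_mul, mul_one]
    ring
  have h3 : ∑ i ∈ J, 2 * (J.card * (δ i * (b i - m))) =
      2 * J.card * ∑ i ∈ J, δ i * b i - 2 * J.card * (m * ∑ i ∈ J, δ i) := by
    rw [Finset.mul_sum, Finset.mul_sum, Finset.mul_sum, ← Finset.sum_sub_distrib]
    exact Finset.sum_congr rfl fun i _ => by ring
  rw [h2, h3] at h1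
  have h4 : 0 ≤ (m * (2 * J.card + 1)) * (∑ i ∈ J, δ i - 1) :=
    mul_nonneg (by positivity) (by linarith)
  linarith

/-- **nearly equal twist numbers**: close cycle sets meet `J` in sets of the same parity -/
theorem NearlyEqual.evenOn {S J : Finset ι} (hJ : J ⊆ S) {CycS : Finset ι → Prop} {a : ι → ℤ}
    {N : ℕ} (h : NearlyEqual S J a N) : EvenOn S J CycS a N := by
  classical
  obtain ⟨m, hm, hb⟩ := h
  rintro L L' ⟨hL, hL', -, -, hlt⟩
  by_contra hodd
  have hN : 1 ≤ N := by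
    by_contra h0
    have h1 : N = 0 := by omega
    rw [h1] at hlt
    have h2 := abs_nonneg (∑ i ∈ L, a i - ∑ i ∈ L', a i)
    push_cast at hlt
    omega
  have hs0 : 0 ≤ ∑ j ∈ S \ J, |a j| := Finset.sum_nonneg fun _ _ => abs_nonneg _
  have h1 := cases_split hJ hL hL' a
  obtain ⟨δ, hδ⟩ : ∃ δ : ι → ℤ, δ = fun i => ((if i ∈ L then 1 else 0) -
    (if i ∈ L' then 1 else 0)) * (if 0 < a i then 1 else -1) := ⟨_, rfl⟩
  have hδ1 : ∀ i, δ i = -1 ∨ δ i = 0 ∨ δ i = 1 := by
    intro i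
    rw [hδ]
    by_cases h2 : i ∈ L <;> by_cases h3 : i ∈ L' <;> by_cases h4 : 0 < a i <;> simp [h2, h3, h4]
  have hsum : ∑ i ∈ J, ((if i ∈ L then 1 else 0) - (if i ∈ L' then 1 else 0)) * a i =
      ∑ i ∈ J, δ i * |a i| := by
    refine Finset.sum_congr rfl fun i _ => ?_
    rw [hδ]
    by_cases h4 : 0 < a i
    · show _ = _ * (if 0 < a i then (1 : ℤ) else -1) * |a i|
      rw [if_pos h4, mul_one, abs_of_pos h4]
    · show _ = _ * (if 0 < a i then (1 : ℤ) else -1) * |a i|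
      rw [if_neg h4, abs_of_nonpos (not_lt.1 h4)]
      ring
  -- the parity
  have hpar : Odd (∑ i ∈ J, δ i) := by
    have h2 : ∀ L : Finset ι, ((L ∩ J).card : ℤ) = ∑ i ∈ J, (if i ∈ L then 1 else 0) := by
      intro L
      rw [← Finset.sum_filter, Finset.sum_const, nsmul_eq_mul, mul_one]
      congr 2
      ext i
      rw [Finset.mem_inter, Finset.mem_filter]
      exact ⟨fun h => ⟨h.2, h.1⟩, fun h => ⟨h.2, h.1⟩⟩
    have h3 : Odd (((L ∩ J).card : ℤ) + (L' ∩ J).card) := by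
      have h4 := Nat.not_even_iff_odd.1 hodd
      exact_mod_cast h4
    have h4 : Even (∑ i ∈ J, δ i - (((L ∩ J).card : ℤ) + (L' ∩ J).card)) := by
      rw [h2, h2, ← Finset.sum_add_distrib, ← Finset.sum_sub_distrib]
      refine Finset.even_sum _ fun i _ => ?_
      rw [hδ]
      by_cases h2 : i ∈ L <;> by_cases h3 : i ∈ L' <;> by_cases h4 : 0 < a i <;>
        simp [h2, h3, h4]
    have h5 : ∑ i ∈ J, δ i = (((L ∩ J).card : ℤ) + (L' ∩ J).card) +
        (∑ i ∈ J, δ i - (((L ∩ J).card : ℤ) + (L' ∩ J).card)) := by ring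
    rw [h5]
    exact h3.add_even h4
  have hm0 : 0 ≤ m := by omega
  obtain ⟨E, hE⟩ : ∃ E : ℤ, E = ∑ i ∈ J, δ i * |a i| := ⟨_, rfl⟩
  -- the lower bound
  have hkey : m * (J.card + 1) ≤ 2 * J.card * |E| := by
    rcases lt_or_ge 0 (∑ i ∈ J, δ i) with hD | hD
    · refine (cases_aux (fun i => |a i|) δ hδ1 m hm0 hb hD).trans ?_
      rw [← hE]
      exact mul_le_mul_of_nonneg_left (le_abs_self _) (by positivity)
    · have hD' : 1 ≤ ∑ i ∈ J, -δ i := by
        rw [Finset.sum_neg_distrib]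
        have h2 : ∑ i ∈ J, δ i ≠ 0 := by
          intro h0
          rw [h0] at hpar
          exact absurd hpar (by decide)
        omega
      refine (cases_aux (fun i => |a i|) (fun i => -δ i) (fun i => by
        rcases hδ1 i with h | h | h <;> omega) m hm0 hb hD').trans ?_
      refine mul_le_mul_of_nonneg_left ?_ (by positivity)
      have h2 : ∑ i ∈ J, -δ i * |a i| = -E := by
        rw [hE, ← Finset.sum_neg_distrib]
        exact Finset.sum_congr rfl fun i _ => neg_mul _ _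
      show ∑ i ∈ J, -δ i * |a i| ≤ _
      rw [h2]
      exact neg_le_abs _
  rw [hsum, ← hE] at h1
  have hJ0 : (0 : ℤ) < J.card := by
    have h2 : J.Nonempty := by
      rw [Finset.nonempty_iff_ne_empty]
      intro h0
      rw [h0, Finset.sum_empty] at hpar
      exact absurd hpar (by decide)
    exact_mod_cast h2.card_pos
  have h2 : m < 2 * |E| := by
    by_contra h3
    have h4 : (J.card : ℤ) * (2 * |E|) ≤ J.card * m :=
      mul_le_mul_of_nonneg_left (not_lt.1 h3) hJ0.le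
    have h5 : (0 : ℤ) < m := by omega
    linarith
  omega

end Pool.Agent.NHT
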