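import Pool.Agent.NHT.Small

/-!
# NHT, module Class: the class form (helper38)
-/

set_option autoImplicit false
set_option linter.unusedSectionVars false

open Submodule Module LaurentPolynomial

namespace Pool.Agent.NHT

open Pool.Agent.SPT Pool.Agent.SPT.Rel Pool.Agent.EQT Pool.Agent.FHP Pool.Agent.Helper16.Knotoid
open Pool.Agent.TRA Pool.Agent.TRP

variable {n : ℕ} {I : Fin n → Fin n → Prop} {e : Fin n → Bool}

/-- the twist number of a row -/
theorem twist_row (hi : ∀ i, ¬ I i i) (hs : ∀ i j, I i j → I j i) (i : Fin n) :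
    twist (Graph_R I e) (cutState I e) (row (Graph_R I e) i) = cutTwist I e i := by
  classical
  have h1 : twist (Graph_R I e) (cutState I e) (row (Graph_R I e) i) =
      ∑ c with Twins I i c, if cutState I e c then 1 else -1 := by
    unfold twist
    refine Finset.sum_congr ?_ fun _ _ => rfl
    ext c
    rw [Finset.mem_filter, Finset.mem_filter, eq_comm, Graph_row hi hs]
  have h2 : ∀ c, Twins I i c → (cutState I e c ≠ e c ↔ cutState I e i ≠ e i) := by
    intro c hc
    by_cases hci : c = i
    · rw [hci]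
    · rw [Graph_diag hi hs hc hci, Graph_diag hi hs (Graph_symm hc) (Ne.symm hci)]
      exact ⟨hs _ _, hs _ _⟩
  have h3 : cutState I e i ≠ e i ↔ ∃ j, Twins I i j ∧ I i j := by
    unfold cutState
    by_cases h : ∃ j, Twins I i j ∧ I i j
    · rw [if_pos h]
      refine ⟨fun _ => h, fun _ => ?_⟩
      cases e i <;> simp
    · rw [if_neg h]
      exact ⟨fun h4 => absurd rfl h4, fun h4 => absurd h4 h⟩
  rw [h1]
  unfold cutTwist twistNumber
  by_cases h4 : ∃ j, Twins I i j ∧ I i j
  · rw [if_pos h4, ← Finset.sum_neg_distrib]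
    refine Finset.sum_congr rfl fun c hc => ?_
    have h5 := (h2 c (Finset.mem_filter.1 hc).2).2 (h3.2 h4)
    revert h5
    cases cutState I e c <;> cases e c <;> simp
  · rw [if_neg h4]
    refine Finset.sum_congr rfl fun c hc => ?_
    have h5 := fun h => h4 (h3.1 ((h2 c (Finset.mem_filter.1 hc).2).1 h))
    revert h5
    cases cutState I e c <;> cases e c <;> simp

/-- **The class form** -/
theorem class_main (hi : ∀ i, ¬ I i i) (hs : ∀ i j, I i j → I j i) {S : Finset (Fin n)}
    (hS : Transversal I S) (Cyc : Finset (Fin n) → Prop)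
    (hC : ∀ J ⊆ S, (∀ i, row (Graph_R I e) i ∈ span (ZMod 2)
      (row (Graph_R I e) '' ((S \ J : Finset (Fin n)) : Set (Fin n)))) ↔ ¬ Cyc J)
    (C T : ℕ) (hT : 1 ≤ T) (u : (Fin n → ZMod 2) → ℤ)
    (hF : Follows ((rows (Graph_R I e)).erase 0) (twist (Graph_R I e) (cutState I e)) u C T)
    (hreg : ∀ Y ⊆ rows (Graph_R I e), TRL.Reg Y) (hK : CardReg 9) (hR : RankReg 5)
    (hD : CorankReg 3) (hW : St_Weight) (hA : St_Adequate) (p : Fin n → ℕ) (hp : Splits S Cyc p)
    (hsm : ∀ q, GoodBlock S Cyc (row (Graph_R I e)) (cutTwist I e) p T q) :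
    NZu ((rows (Graph_R I e)).erase 0) u := by
  classical
  obtain ⟨X, hX⟩ : ∃ X, X = (rows (Graph_R I e)).erase 0 := ⟨_, rfl⟩
  have hXS : X = S.image (row (Graph_R I e)) := by
    rw [hX, Graph_image hi hs hS]
  have hinj := Graph_inj (e := e) hi hs hS
  obtain ⟨a, ha⟩ : ∃ a, a = twist (Graph_R I e) (cutState I e) := ⟨_, rfl⟩
  have har : ∀ i, a (row (Graph_R I e) i) = cutTwist I e i := by
    intro i
    rw [ha]
    exact twist_row hi hs i
  rw [← hX, ← ha] at hF
  rw [← hX]
  -- full rank
  have hfull : ∀ J ⊆ S, ¬ Cyc J ↔ span (ZMod 2) (((S \ J).image (row (Graph_R I e)) :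
      Finset (Fin n → ZMod 2)) : Set (Fin n → ZMod 2)) = span (ZMod 2) (X : Set _) := by
    intro J hJ
    rw [← hC J hJ, Finset.coe_image]
    constructor
    · intro h
      refine le_antisymm (span_mono ?_) (span_le.2 ?_)
      · rw [hXS, Finset.coe_image]
        exact Set.image_mono (Finset.coe_subset.2 Finset.sdiff_subset)
      · intro v hv
        rw [Finset.mem_coe, hXS, Finset.mem_image] at hv
        obtain ⟨i, -, rfl⟩ := hv
        exact h i
    · intro h i
      rw [h]
      by_cases h0 : row (Graph_R I e) i = 0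
      · rw [h0]
        exact Submodule.zero_mem _
      · refine subset_span (Finset.mem_coe.2 ?_)
        rw [hX, Finset.mem_erase]
        refine ⟨h0, ?_⟩
        unfold rows
        exact Finset.mem_image_of_mem _ (Finset.mem_univ i)
  have himage : ∀ J ⊆ S, (S \ J).image (row (Graph_R I e)) = X \ J.image (row (Graph_R I e)) := by
    intro J hJ
    ext v
    rw [Finset.mem_image, Finset.mem_sdiff, Finset.mem_image, hXS, Finset.mem_image]
    constructor
    · rintro ⟨i, hiT, rfl⟩
      rw [Finset.mem_sdiff] at hiT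
      refine ⟨⟨i, hiT.1, rfl⟩, ?_⟩
      rintro ⟨j, hj, hji⟩
      exact hiT.2 (hinj (hJ hj) hiT.1 hji ▸ hj)
    · rintro ⟨⟨i, hiS, rfl⟩, h⟩
      exact ⟨i, Finset.mem_sdiff.2 ⟨hiS, fun h2 => h ⟨i, h2, rfl⟩⟩, rfl⟩
  have hco : ∀ J ⊆ S, ¬ Cyc J ↔ Co X (J.image (row (Graph_R I e))) := by
    intro J hJ
    rw [hfull J hJ, himage J hJ]
    rfl
  -- subsets of `X` are images
  have hpre : ∀ J ⊆ X, (S.filter fun i => row (Graph_R I e) i ∈ J).image
      (row (Graph_R I e)) = J := by
    intro J hJX
    ext v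
    rw [Finset.mem_image]
    constructor
    · rintro ⟨i, hiT, rfl⟩
      exact (Finset.mem_filter.1 hiT).2
    · intro hv
      have h2 := hJX hv
      rw [hXS, Finset.mem_image] at h2
      obtain ⟨i, hiS, rfl⟩ := h2
      exact ⟨i, Finset.mem_filter.2 ⟨hiS, hv⟩, rfl⟩
  -- the labels of the rows
  obtain ⟨P, hP⟩ : ∃ P : (Fin n → ZMod 2) → ℕ, ∀ i ∈ S, P (row (Graph_R I e) i) = p i := by
    refine ⟨fun v => if h : ∃ i ∈ S, row (Graph_R I e) i = v then p h.choose else 0,
      fun i hiS => ?_⟩
    have h : ∃ j ∈ S, row (Graph_R I e) j = row (Graph_R I e) i := ⟨i, hiS, rfl⟩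
    show (if h : ∃ j ∈ S, row (Graph_R I e) j = row (Graph_R I e) i then p h.choose else 0) = p i
    rw [dif_pos h]
    exact congrArg p (hinj h.choose_spec.1 hiS h.choose_spec.2)
  have hfil : ∀ J ⊆ S, ∀ q, (J.image (row (Graph_R I e))).filter (fun v => P v = q) =
      (J.filter fun i => p i = q).image (row (Graph_R I e)) := by
    intro J hJ q
    ext v
    rw [Finset.mem_filter, Finset.mem_image, Finset.mem_image]
    constructor
    · rintro ⟨⟨i, hiJ, rfl⟩, h⟩
      rw [hP i (hJ hiJ)] at h
      exact ⟨i, Finset.mem_filter.2 ⟨hiJ, h⟩, rfl⟩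
    · rintro ⟨i, hiJ, rfl⟩
      rw [Finset.mem_filter] at hiJ
      refine ⟨⟨i, hiJ.1, rfl⟩, ?_⟩
      rw [hP i (hJ hiJ.1)]
      exact hiJ.2
  have h0X : (0 : Fin n → ZMod 2) ∉ X := by
    rw [hX]
    exact Finset.notMem_erase _ _
  have hsp : ∀ J ⊆ X, (∀ q, Co X (J.filter fun v => P v = q)) → Co X J := by
    intro J hJ hq
    obtain ⟨T, hT⟩ : ∃ T : Finset (Fin n), T = S.filter fun i => row (Graph_R I e) i ∈ J :=
      ⟨_, rfl⟩
    have hTS : T ⊆ S := by
      rw [hT]
      exact Finset.filter_subset _ _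
    have hTJ : T.image (row (Graph_R I e)) = J := by
      rw [hT]
      exact hpre J hJ
    rw [← hTJ, ← hco T hTS]
    intro hc
    obtain ⟨q, hq1⟩ := hp T hTS hc
    have h1 := hq q
    rw [← hTJ, hfil T hTS q, ← hco _ ((Finset.filter_subset _ _).trans hTS)] at h1
    exact h1 hq1
  refine nzu_parts X P hsp u fun q => ?_
  obtain ⟨Q, hQ⟩ : ∃ Q : Finset (Fin n), Q = S.filter fun i => p i = q := ⟨_, rfl⟩
  have hQS : Q ⊆ S := by
    rw [hQ]
    exact Finset.filter_subset _ _
  have hXq : X.filter (fun v => P v = q) = Q.image (row (Graph_R I e)) := by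
    rw [hXS, hQ]
    exact hfil S (Finset.Subset.refl S) q
  have hPX : Q.image (row (Graph_R I e)) ⊆ X := by
    rw [← hXq]
    exact Finset.filter_subset _ _
  have hdq := parts_disjoint X P hsp q
  rw [hXq] at hdq
  rw [hXq]
  have hrg : ∀ Y ⊆ Q.image (row (Graph_R I e)), TRL.Reg Y :=
    fun Y hY => hreg Y (hY.trans (hPX.trans (by
      rw [hX]
      exact Finset.erase_subset _ _)))
  have hFq := follows_mono hF hPX
  -- the block
  have hB : Block Q Cyc (row (Graph_R I e)) := by
    refine ⟨hinj.mono (Finset.coe_subset.2 hQS), fun i hiQ h0 => ?_, fun J hJ => ?_⟩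
    · apply h0X
      rw [← h0]
      exact hPX (Finset.mem_image_of_mem _ hiQ)
    · rw [hco J (hJ.trans hQS)]
      constructor
      · intro h
        refine le_antisymm (span_mono (Finset.coe_subset.2 Finset.sdiff_subset)) ?_
        exact span_part hPX h hdq
      · intro h
        refine le_antisymm (span_mono (Finset.coe_subset.2 Finset.sdiff_subset))
          (span_le.2 fun v hv => ?_)
        by_cases hvQ : v ∈ Q.image (row (Graph_R I e))
        · have h1 : v ∈ span (ZMod 2) ((Q.image (row (Graph_R I e)) : Finset _) :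
              Set (Fin n → ZMod 2)) := subset_span (Finset.mem_coe.2 hvQ)
          unfold Co at h
          rw [← h] at h1
          exact span_mono (Finset.coe_subset.2 (Finset.sdiff_subset_sdiff hPX
            (Finset.Subset.refl _))) h1
        · refine subset_span (Finset.mem_coe.2 (Finset.mem_sdiff.2 ⟨hv, fun h2 => hvQ ?_⟩))
          exact Finset.image_subset_image hJ h2
  have hfe : ∀ (pr : Fin n → Prop) [DecidablePred pr],
      (S.filter fun i => p i = q ∧ pr i) = Q.filter fun i => pr i := by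
    intro pr _
    rw [hQ, Finset.filter_filter]
  rcases hsm q with ⟨hsm, hc⟩ | ⟨J, w, hd, hw, hc⟩ | ⟨L, hL, h1, h2, h3⟩
  · refine small_block hK hR hD Q Cyc _ hB hrg a u C T hFq ?_ ?_
    · unfold SmallPart at hsm
      rw [← hQ] at hsm
      rcases hsm with h | ⟨F, T, hF1, hF2, hF3, hF4⟩ | h | h
      · exact Or.inl h
      · refine Or.inr (Or.inl ⟨F, T, hF1, hF2, hF3, fun i hi => ?_⟩)
        rw [hQ, Finset.mem_filter] at hi
        exact hF4 i hi.1 hi.2
      · exact Or.inr (Or.inr (Or.inl h))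
      · exact Or.inr (Or.inr (Or.inr h))
    · have h4 : (Q.filter fun i => |a (row (Graph_R I e) i)| < T) =
          S.filter fun i => p i = q ∧ |cutTwist I e i| < T := by
        rw [hfe]
        refine Finset.filter_congr fun i _ => ?_
        rw [har]
      rw [h4]
      exact hc
  · rw [← hQ] at hd
    have hae : (fun i => a (row (Graph_R I e) i)) = cutTwist I e := funext har
    refine hW _ _ Q Cyc _ hB a u C T hFq J w ?_ (fun i hi hiJ => ?_) ?_
    · rw [hae]
      exact hd
    · rw [hQ, Finset.mem_filter] at hi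
      exact hw i hi.1 hi.2 hiJ
    · intro h
      apply hc
      refine Eq.mp (congrArg Cyc ?_) h
      ext i
      simp only [hQ, Finset.mem_filter, and_assoc]
  · rw [← hQ] at hL h1 h2 h3
    refine hA _ _ Q Cyc _ hB a u C T hFq hT L hL (fun i hi => ?_) h2 ?_
    · simp only [har]
      exact h1 i hi
    · simp only [har]
      exact h3

end Pool.Agent.NHT
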