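import Pool.Agent.NHT.Class3

/-!
# NHT, version 8, module Class5: the blocks, with one more alternative (helper38)
-/

set_option autoImplicit false
set_option linter.unusedSectionVars false

open Submodule Module LaurentPolynomial

namespace Pool.Agent.NHT

open Pool.Agent.SPT Pool.Agent.SPT.Rel Pool.Agent.TRA Pool.Agent.TRP

variable {ι V : Type} [DecidableEq ι] [DecidableEq V] [AddCommGroup V] [Module (ZMod 2) V]

/-- **The class form**: `Alt q` is one more alternative for the classes with the label `q` -/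
theorem class_main5 [Module.Finite (ZMod 2) V] (hK : CardReg 9) (hR : RankReg 5)
    (hD : CorankReg 3) (hE : St_OneExc) (hX : St_WeightedBlock)
    (J : Finset ι) (Cyc : Finset ι → Prop) (r : ι → V)
    (hB : Block J Cyc r) (hreg : ∀ Y ⊆ J.image r, TRL.Reg Y) (a u : V → ℤ) (C T : ℕ) (hT : 1 ≤ T)
    (hF : Follows (J.image r) a u C T)
    (hsg : ∀ v ∈ J.image r, (T : ℤ) ≤ |a v| → 0 < a v * u v) (p : ι → ℕ) (hp : Splits J Cyc p)
    (Alt : ℕ → Prop)
    (hAlt : ∀ (q : ℕ) (Q : Finset ι), Q = (J.filter fun i => p i = q) → Block Q Cyc r →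
      (∀ Y ⊆ Q.image r, TRL.Reg Y) → Follows (Q.image r) a u C T →
      (∀ v ∈ Q.image r, (T : ℤ) ≤ |a v| → 0 < a v * u v) → Alt q → NZu (Q.image r) u)
    (hsm : ∀ q, GoodBlock3 J Cyc r (fun i => a (r i)) p T q ∨ Alt q) : NZu (J.image r) u := by
  classical
  refine block_split J Cyc r hB p hp u ?_
  intro q Q hQ hBq
  have hQJ : Q ⊆ J := by
    rw [hQ]
    exact Finset.filter_subset _ _
  have hPX : Q.image r ⊆ J.image r := Finset.image_subset_image hQJ
  have hFq := follows_mono hF hPX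
  have hrg : ∀ Y ⊆ Q.image r, TRL.Reg Y := fun Y hY => hreg Y (hY.trans hPX)
  have hsgq : ∀ v ∈ Q.image r, (T : ℤ) ≤ |a v| → 0 < a v * u v := fun v hv => hsg v (hPX hv)
  have hfe : (Q.filter fun i => |a (r i)| < T) = J.filter fun i => p i = q ∧ |a (r i)| < T := by
    rw [hQ, Finset.filter_filter]
  rcases hsm q with (ho | ⟨hsm, hc⟩ | ⟨hd, hc⟩ | hw | ⟨L, hL, E, h0, h1, h2, h3⟩) | halt
  · exact PMT.odd_use J Q Cyc r p q hQ hBq a u C T hFq ho
  · refine small_block hK hR hD Q Cyc _ hBq hrg a u C T hFq ?_ ?_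
    · unfold SmallPart at hsm
      rw [← hQ] at hsm
      rcases hsm with h | ⟨F, T, hF1, hF2, hF3, hF4⟩ | h | h
      · exact Or.inl h
      · refine Or.inr (Or.inl ⟨F, T, hF1, hF2, hF3, fun i hi => ?_⟩)
        rw [hQ, Finset.mem_filter] at hi
        exact hF4 i hi.1 hi.2
      · exact Or.inr (Or.inr (Or.inl h))
      · exact Or.inr (Or.inr (Or.inr h))
    · rw [hfe]
      exact hc
  · refine TRX.six_block (m := 5) hK (by norm_num) Q Cyc r hBq hrg a u C T hFq ?_ ?_
    · rw [hQ]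
      exact hd
    · intro h
      apply hc
      refine Eq.mp (congrArg Cyc ?_) h
      ext i
      simp only [hQ, Finset.mem_filter, and_assoc]
  · rw [← hQ] at hw
    exact hX ι V Q Cyc r hBq a u C T hFq hw
  · rw [← hQ] at hL h0 h1 h2 h3
    exact adequate_block hE Q Cyc _ hBq a u C T hFq hT hsgq L hL E h0 h1 h2 h3
  · exact hAlt q Q hQ hBq hrg hFq hsgq halt

end Pool.Agent.NHT
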