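import Pool.Agent.NHT.Defs4

/-!
# NHT, version 9: twist numbers which are nearly odd multiples of a number (captain: helper38)
-/

set_option autoImplicit false

namespace Pool.Agent.NHT

variable {ι : Type}

/-- The twist numbers of the classes with the label `q` are nearly odd multiples `t i * m` of a number
`m` (for instance: nearly `m` or `-m`): the sum of the differences, plus `T` times the number of these
classes, is at most `m / 4`. -/
def NearOdd (J : Finset ι) (a : ι → ℤ) (p : ι → ℕ) (T q : ℕ) : Prop :=
  ∃ (m : ℕ) (t : ι → ℤ), (∀ i ∈ J.filter (fun i => p i = q), Odd (t i)) ∧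
    4 * ((((J.filter fun i => p i = q).card * T : ℕ) : ℤ) +
      ∑ i ∈ J.filter (fun i => p i = q), |a i - t i * m|) ≤ m

end Pool.Agent.NHT
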