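import Pool.Agent.NHT.Sep

/-!
# NHT, version 8, module Part: no short sum over a part of the classes (helper57)
-/

set_option autoImplicit false

namespace Pool.Agent.NHT

open Pool.Agent.SPT Pool.Agent.EQT Pool.Agent.FHP Pool.Agent.TRA Pool.Agent.TRP

variable {ι V : Type} [DecidableEq ι] [DecidableEq V] [AddCommGroup V] [Module (ZMod 2) V]

/-- There is a set `L` of classes in `J`, each of which lies in a cycle of such classes (for instance
`L = ∅`), such that a short vector whose entries are not negative on `J \ L` and not positive on `L` is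
zero on `J`.  For `L = ∅` and `J = S` this says that the sum of the twist numbers of each nonempty set of
classes is at least `N` in absolute value. -/
def NoPartialSum (S J : Finset ι) (Cyc : Finset ι → Prop) (a : ι → ℤ) (N : ℕ) : Prop :=
  ∃ L ⊆ J, (∀ i ∈ L, InCycle Cyc L i) ∧
    ∀ d, Short S a N d → (∀ i ∈ J \ L, 0 ≤ d i) → (∀ i ∈ L, d i ≤ 0) → ∀ i ∈ J, d i = 0

/-- **no small sum** -/
theorem NoPartialSum.separated {S J : Finset ι} {Cyc : Finset ι → Prop} {r : ι → V}
    (hB : Block J Cyc r) {a : ι → ℤ} {N : ℕ} (h : NoPartialSum S J Cyc a N) :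
    Separated S J Cyc a N := by
  classical
  obtain ⟨L, hL, hc, hd⟩ := h
  refine ⟨{J \ L}, ?_, pair_single J (J \ L) Finset.sdiff_subset Cyc r hB ?_⟩
  · intro d hsh K hK K' hK' hdiff hKF
    rw [Finset.mem_singleton] at hKF ⊢
    subst hKF
    have h0 := hd d hsh (fun i hi => by
      rw [hdiff i (Finset.mem_sdiff.1 hi).1, if_pos hi]
      split_ifs <;> norm_num) (fun i hi => by
      rw [hdiff i (hL hi), if_neg fun h1 => (Finset.mem_sdiff.1 h1).2 hi]
      split_ifs <;> norm_num)
    refine Finset.Subset.antisymm ?_ ?_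
    · intro i hi
      by_contra hiK
      have h1 := h0 i (hK' hi)
      rw [hdiff i (hK' hi), if_neg hiK, if_pos hi] at h1
      norm_num at h1
    · intro i hi
      by_contra hiK
      have h1 := h0 i (hK hi)
      rw [hdiff i (hK hi), if_pos hi, if_neg hiK] at h1
      norm_num at h1
  · intro i hi hiF
    have hiL : i ∈ L := by
      by_contra hiL
      exact hiF (Finset.mem_sdiff.2 ⟨hi, hiL⟩)
    rw [Finset.sdiff_sdiff_eq_self hL]
    exact hc i hiL

/-- a sum with one long term: the terms with indices in `J` have the same sign -/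
theorem NoPartialSum.aux {S J : Finset ι} (hJ : J ⊆ S) {a : ι → ℤ} {N : ℕ}
    (hbig : ∀ i ∈ J, (N : ℤ) + ∑ j ∈ S \ J, |a j| ≤ |a i|) {d : ι → ℤ} (hd : Short S a N d)
    (h : (∀ i ∈ J, 0 ≤ d i * a i) ∨ ∀ i ∈ J, d i * a i ≤ 0) : ∀ i ∈ J, d i = 0 := by
  classical
  intro i hi
  by_contra h0
  have h1 : |a i| ≤ |∑ j ∈ J, d j * a j| := by
    have h2 : |a i| = |d i * a i| := by
      rw [abs_mul]
      rcases hd.1 i with h3 | h3 | h3
      · rw [h3, abs_neg, abs_one, one_mul]
      · exact absurd h3 h0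
      · rw [h3, abs_one, one_mul]
    rw [h2]
    rcases h with h | h
    · rw [abs_of_nonneg (h i hi), abs_of_nonneg (Finset.sum_nonneg h)]
      exact Finset.single_le_sum (f := fun j => d j * a j) h hi
    · rw [abs_of_nonpos (h i hi), abs_of_nonpos (Finset.sum_nonpos h), ← Finset.sum_neg_distrib]
      exact Finset.single_le_sum (f := fun j => -(d j * a j))
        (fun j hj => neg_nonneg.2 (h j hj)) hi
  have h5 : |∑ j ∈ S \ J, d j * a j| ≤ ∑ j ∈ S \ J, |a j| := by
    refine (Finset.abs_sum_le_sum_abs _ _).trans (Finset.sum_le_sum fun j _ => ?_)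
    rw [abs_mul]
    have h6 : |d j| ≤ 1 := by
      rcases hd.1 j with h | h | h <;> rw [h] <;> norm_num
    exact mul_le_of_le_one_left (abs_nonneg _) h6
  have h6 := hd.2.2
  rw [← Finset.sum_sdiff hJ] at h6
  have h9 : |∑ j ∈ J, d j * a j| ≤ |∑ j ∈ S \ J, d j * a j + ∑ j ∈ J, d j * a j| +
      |∑ j ∈ S \ J, d j * a j| := by
    have h10 := abs_sub (∑ j ∈ S \ J, d j * a j + ∑ j ∈ J, d j * a j) (∑ j ∈ S \ J, d j * a j)
    rw [add_sub_cancel_left] at h10
    exact h10
  have h8 := hbig i hi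
  omega

/-- it contains the alternative of version 6 for long classes -/
theorem LongSigned.noPartialSum {S J : Finset ι} (hJ : J ⊆ S) {Cyc : Finset ι → Prop}
    {a : ι → ℤ} {N : ℕ} (hN : 1 ≤ N) (h : LongSigned S J Cyc a N) :
    NoPartialSum S J Cyc a N := by
  classical
  obtain ⟨hbig, hc⟩ := h
  have hne : ∀ i ∈ J, a i ≠ 0 := by
    intro i hi h0
    have h1 := hbig i hi
    have h2 : 0 ≤ ∑ j ∈ S \ J, |a j| := Finset.sum_nonneg fun _ _ => abs_nonneg _
    rw [h0, abs_zero] at h1
    omega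
  rcases hc with hc | hc
  · refine ⟨J.filter fun j => 0 < a j, Finset.filter_subset _ _, fun i hi =>
      hc i (Finset.mem_filter.1 hi).1 (Finset.mem_filter.1 hi).2, fun d hd h1 h2 =>
      NoPartialSum.aux hJ hbig hd (Or.inr fun i hi => ?_)⟩
    by_cases h3 : 0 < a i
    · exact mul_nonpos_of_nonpos_of_nonneg (h2 i (Finset.mem_filter.2 ⟨hi, h3⟩)) h3.le
    · exact mul_nonpos_of_nonneg_of_nonpos (h1 i (Finset.mem_sdiff.2
        ⟨hi, fun h4 => h3 (Finset.mem_filter.1 h4).2⟩)) (not_lt.1 h3)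
  · refine ⟨J.filter fun j => a j < 0, Finset.filter_subset _ _, fun i hi =>
      hc i (Finset.mem_filter.1 hi).1 (Finset.mem_filter.1 hi).2, fun d hd h1 h2 =>
      NoPartialSum.aux hJ hbig hd (Or.inl fun i hi => ?_)⟩
    by_cases h3 : a i < 0
    · exact mul_nonneg_of_nonpos_of_nonpos (h2 i (Finset.mem_filter.2 ⟨hi, h3⟩)) h3.le
    · exact mul_nonneg (h1 i (Finset.mem_sdiff.2
        ⟨hi, fun h4 => h3 (Finset.mem_filter.1 h4).2⟩)) (not_lt.1 h3)

/-- the case `L = ∅`, `J = S`: no nonempty set of classes has a small sum of twist numbers -/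
theorem noPartialSum_all {S : Finset ι} {Cyc : Finset ι → Prop} {a : ι → ℤ} {N : ℕ}
    (h : ∀ I ⊆ S, I.Nonempty → (N : ℤ) ≤ |∑ i ∈ I, a i|) : NoPartialSum S S Cyc a N := by
  classical
  refine ⟨∅, Finset.empty_subset _, fun i hi => absurd hi (Finset.notMem_empty i), ?_⟩
  intro d hd h1 _
  by_contra hno
  push Not at hno
  obtain ⟨i, hi, hdi⟩ := hno
  have h2 : ∀ j ∈ S, d j = if j ∈ S.filter (fun j => d j ≠ 0) then 1 else 0 := by
    intro j hj
    by_cases h3 : d j = 0
    · have h6 : j ∉ S.filter (fun j => d j ≠ 0) := fun h4 => (Finset.mem_filter.1 h4).2 h3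
      rw [if_neg h6, h3]
    · rw [if_pos (Finset.mem_filter.2 ⟨hj, h3⟩)]
      have h4 := h1 j (by rw [Finset.sdiff_empty]; exact hj)
      rcases hd.1 j with h5 | h5 | h5
      · omega
      · exact absurd h5 h3
      · exact h5
  have h3 := h (S.filter fun j => d j ≠ 0) (Finset.filter_subset _ _)
    ⟨i, Finset.mem_filter.2 ⟨hi, hdi⟩⟩
  have h4 : ∑ j ∈ S, d j * a j = ∑ j ∈ S.filter (fun j => d j ≠ 0), a j := by
    rw [Finset.sum_filter]
    refine Finset.sum_congr rfl fun j hj => ?_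
    have h5 := h2 j hj
    by_cases h6 : d j = 0
    · rw [if_neg (not_not.2 h6), h6, zero_mul]
    · rw [if_pos (Finset.mem_filter.2 ⟨hj, h6⟩)] at h5
      rw [if_pos h6, h5, one_mul]
  have h5 := hd.2.2
  rw [h4] at h5
  omega

end Pool.Agent.NHT
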