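import Pool.Agent.NHT.Defs6
import Pool.Agent.NHT.Defs8
import Pool.Agent.NHT.Part
import Pool.Agent.OCY.Defs

/-!
# NHT, version 9: the definitions of the final statement (captain: helper38)

`S` contains one crossing of every twist class, `a i` is the twist number of the class of `i`, `J` is a
set of classes, `Cyc C` says that the classes in `C` contain a cycle of the graph of `J`, and `p i` is the
label of the class of `i` (for instance the number of its block).
-/

set_option autoImplicit false

namespace Pool.Agent.NHT

open Pool.Agent.SPT Pool.Agent.EQT Pool.Agent.FHP Pool.Agent.TRA Pool.Agent.TRP

variable {ι V : Type} [DecidableEq ι] [DecidableEq V] [AddCommGroup V] [Module (ZMod 2) V]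

/-- One of the alternatives (a), (b), (c), (d), (e) for the classes with the label `q`:

(a) the classes with a twist number less than `T` in absolute value contain no cycle, and there are at
most `9` classes, or they have cycle rank at most `5`, or contain no forest of more than `3` classes, or
they are series-parallel, or there are no six independent short vectors;

(b) for some integer `s` the sum of the twist numbers is `s` for an odd number of the unions of disjoint
cycles, and differs from `s` by at least `T` for the others (for instance: for each nonempty union of
disjoint cycles the sum is at least `T` in absolute value);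

(c) the twist numbers are nearly odd multiples of a number `m` (`NearOdd`);

(d) there is a set `O` of these classes such that every short vector has an even number of entries
different from zero in `O`, and the others contain at most one cycle, and this cycle has a class with a
twist number which is at least `T` in absolute value (`OneCycle`);

(e) there are weights (`Weighted`) for the short vectors of these classes. -/
def GoodBlock5 (J : Finset ι) (Cyc : Finset ι → Prop) (w : ι → V) (a : ι → ℤ) (p : ι → ℕ)
    (T q : ℕ) : Prop :=
  (¬ Cyc (J.filter fun i => p i = q ∧ |a i| < T) ∧
      (SmallPart J Cyc w p 9 5 3 q ∨ FewRelations J a p T q)) ∨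
    OddBlock J Cyc a p T q ∨ NearOdd J a p T q ∨ OneCycle J Cyc a p T q ∨
    Weighted Cyc (J.filter fun i => p i = q) (Short (J.filter fun i => p i = q) a T)

/-- One of the following criteria for a set `J` of classes, where `n = 2 (B + 2) (k + 1)`, and a vector
`d` with the entries `-1`, `0`, `1` is short if `|∑ d_i a_i| < n`.

(1) `NoPartialSum`: for some set `L` of classes of `J` without isthmus (for instance `L = ∅`) there is no
short vector, different from zero on `J`, which is at least zero on `J \ L` and at most zero on `L`.

(2) `MeetsEvenly`: every short vector has an even number of entries different from zero in `J`.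

(3) There are weights (`Weighted`) or a closed set of subsets of `J` (`Separated`) for the short vectors.

(4) The classes in `J` are labelled without dividing the cycles of the graph of `J` (for instance by the
blocks), and for each label one of the alternatives of `GoodBlock5` holds, where
`T = (|J| + 1)! (n + ∑ |a_j|)`, with the sum over the classes which are not in `J`. -/
def Criterion (S J : Finset ι) (Cyc : Finset ι → Prop) (w : ι → V) (a : ι → ℤ) (B : ℕ) : Prop :=
  NoPartialSum S J Cyc a (2 * (B + 2) * (S.card + 1)) ∨
    MeetsEvenly S a (2 * (B + 2) * (S.card + 1)) J ∨
    Weighted Cyc J (Short S a (2 * (B + 2) * (S.card + 1))) ∨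
    Separated S J Cyc a (2 * (B + 2) * (S.card + 1)) ∨
    ∃ p : ι → ℕ, Splits J Cyc p ∧ ∀ q, GoodBlock5 J Cyc w a p
      ((J.card + 1).factorial * (2 * (B + 2) * (S.card + 1) + ∑ j ∈ S \ J, (a j).natAbs)) q

end Pool.Agent.NHT
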