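import Pool.Agent.NHT.Defs2
import Pool.Agent.FHP.Graph
import Pool.Agent.PMT.Defs

/-!
# NHT, version 3: definitions (captain: helper38)

`J` is a set of classes of a diagram `D`, and `D_J` is the diagram which is obtained when the classes in
`J` are cut.  The vertices of the graph of `J` are the components of `D_J`, its edges are the classes in
`J`: it is obtained from the graph of all classes by contracting the other edges.
-/

set_option autoImplicit false

open LaurentPolynomial

namespace Pool.Agent.NHT

open Pool.Agent.SPT Pool.Agent.EQT Pool.Agent.FHP Pool.Agent.TRA Pool.Agent.TRP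
open Pool.Agent.Helper16.Knotoid

variable {ι V : Type}

open Classical in
/-- The sum over the subsets `F` of `P` without cycles of the products of the numbers `x i - 1`, `i` in
`P` and not in `F`. -/
noncomputable def forestSum (Cyc : Finset ι → Prop) (P : Finset ι) (x : ι → ℂ) : ℂ :=
  ∑ F ∈ P.powerset.filter (fun F => ¬ Cyc F), ∏ i ∈ P \ F, (x i - 1)

/-- There are complex numbers `x i ≠ 0`, `i ∈ P`, such that `∏ x i ^ d i = 1` for all vectors `d` with
the property `Sh`, and either their sum over the sets without cycles is not zero, or they are real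
numbers with `-1 ≤ x i < 1`. -/
def Weighted (Cyc : Finset ι → Prop) (P : Finset ι) (Sh : (ι → ℤ) → Prop) : Prop :=
  ∃ x : ι → ℂ, (∀ i ∈ P, x i ≠ 0) ∧ (∀ d, Sh d → ∏ i ∈ P, x i ^ d i = 1) ∧
    (forestSum Cyc P x ≠ 0 ∨ ∀ i ∈ P, ∃ y : ℝ, x i = y ∧ -1 ≤ y ∧ y < 1)

/-- There are no six linearly independent short relations between the twist numbers of the classes with
the label `q`, and those of these classes which have a twist number less than `T` in absolute value
contain no cycle. -/
def RelBlock (J : Finset ι) (Cyc : Finset ι → Prop) (a : ι → ℤ) (p : ι → ℕ) (T q : ℕ) : Prop :=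
  (¬ ∃ d : Fin 6 → ι → ℤ, (∀ j, Short (J.filter fun i => p i = q) a T (d j)) ∧
    LinearIndependent ℤ d) ∧
    ¬ Cyc (J.filter fun i => p i = q ∧ |a i| < T)

/-- one of the five alternatives for the classes with the label `q` -/
def GoodBlock3 [DecidableEq ι] [DecidableEq V] [AddCommGroup V] [Module (ZMod 2) V]
    (J : Finset ι) (Cyc : Finset ι → Prop) (w : ι → V) (a : ι → ℤ) (p : ι → ℕ) (T q : ℕ) : Prop :=
  OddBlock J Cyc a p T q ∨ SmallBlock J Cyc w a p T q ∨ RelBlock J Cyc a p T q ∨
    Weighted Cyc (J.filter fun i => p i = q) (Short (J.filter fun i => p i = q) a T) ∨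
    AdequateBlock2 J Cyc a p T q

/-- the number `exp (π i / 4)` -/
noncomputable def zeta : ℂ := Complex.exp ((Real.pi / 4 : ℝ) * Complex.I)

variable {n : ℕ}

/-! ### knot diagrams -/

/-- `s` cuts the crossings in `J`: it is a state of `D_J` -/
def Cuts (g : GaussJones.Code n) (J : Finset (Fin n)) (s : Fin n → Bool) : Prop :=
  ∀ i ∈ J, s i = cutAll (GaussJones.Interlaced g) i

open Classical in
/-- The determinant of `D_J`: the sum of `exp (π i (α - β) / 4)` over the states of `D_J` with the least
number of closed curves, where `α` and `β` are the numbers of the smoothings of type `A` and `B`. -/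
noncomputable def cutDet (g : GaussJones.Code n) (e : Fin n → Bool) (J : Finset (Fin n)) : ℂ :=
  ∑ s : Fin n → Bool, if Cuts g J s ∧ ∀ s', Cuts g J s' → GaussJones.loops g s ≤ GaussJones.loops g s'
    then ∏ i, (if s i = e i then zeta else zeta⁻¹) else 0

open Classical in
/-- The graph of `J`, where `R` contains the other classes: the classes in `C` and in `R` contain a
cycle which has an edge in `C`.  So the classes in `C` contain a cycle when those in `R` are
contracted. -/
def HasCycleIn (g : GaussJones.Code n) (R C : Finset (Fin n)) : Prop :=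
  ∃ Z : Finset (Fin n), (∃ c ∈ Z, ∃ i ∈ C, Twins (GaussJones.Interlaced g) c i) ∧
    (∀ c ∈ Z, ∃ i ∈ C ∪ R, Twins (GaussJones.Interlaced g) c i) ∧
    ∀ q : Quot (GaussJones.Joined g (cutAll (GaussJones.Interlaced g))),
      Even ((Z.filter fun c => Quot.mk _ (GaussJones.inEdge g (c, true)) = q).card +
        (Z.filter fun c => Quot.mk _ (GaussJones.outEdge g (c, true)) = q).card)

/-! ### knotoid diagrams -/

/-- `s` cuts the crossings in `J`: it is a state of `D_J` -/
def CutsO (D : GaussDiagram n) (J : Finset (Fin n)) (s : Fin n → Bool) : Prop :=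
  ∀ i ∈ J, s i = cutState D.Interlaced D.sign i

open Classical in
/-- The determinant of `D_J`: the sum of `exp (π i (α - β) / 4)` over the states of `D_J` with the least
number of components, where `α` and `β` are the numbers of the smoothings of type `A` and `B`. -/
noncomputable def cutDetO (D : GaussDiagram n) (J : Finset (Fin n)) : ℂ :=
  ∑ s : Fin n → Bool, if CutsO D J s ∧ ∀ s', CutsO D J s' → D.comps s ≤ D.comps s'
    then zeta ^ GaussDiagram.stateSign s else 0

/-- The graph of `J`, where `R` contains the other classes: the classes in `C` and in `R` contain a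
cycle which has an edge in `C`. -/
def HasCycleInO (D : GaussDiagram n) (R C : Finset (Fin n)) : Prop :=
  ∃ Z : Finset (Fin n), (∃ c ∈ Z, ∃ i ∈ C, Twins D.Interlaced c i) ∧
    (∀ c ∈ Z, ∃ i ∈ C ∪ R, Twins D.Interlaced c i) ∧
    D.IsEven (cutState D.Interlaced D.sign) Z

end Pool.Agent.NHT
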