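import Pool.Agent.NHT.Defs2
import Pool.Agent.NHT.Adequate
import Pool.Agent.TRJ.Lead

/-!
# NHT, version 2, module Tree: alternative (b) for the classes of one block (helper38)
-/

set_option autoImplicit false
set_option linter.unusedSectionVars false

open Submodule Module

namespace Pool.Agent.NHT

open Pool.Agent.SPT Pool.Agent.TRA Pool.Agent.TRP Pool.Agent.SPT.Rel Pool.Agent.SPT.Odd

/-- a set which spans together with `J`, and of which no element can be removed -/
theorem card_of_min {V : Type} [AddCommGroup V] [Module (ZMod 2) V] [DecidableEq V]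
    (X J B : Finset V) (hs : span (ZMod 2) ((J ∪ B : Finset V) : Set V) = span (ZMod 2) (X : Set V))
    (hmin : ∀ c ∈ B, span (ZMod 2) ((J ∪ B.erase c : Finset V) : Set V) ≠
      span (ZMod 2) (X : Set V)) :
    B.card + finrank (ZMod 2) (span (ZMod 2) (J : Set V)) =
      finrank (ZMod 2) (span (ZMod 2) (X : Set V)) := by
  have key : ∀ C : Finset V, C ⊆ B → finrank (ZMod 2)
      (span (ZMod 2) ((J ∪ C : Finset V) : Set V)) =
        C.card + finrank (ZMod 2) (span (ZMod 2) (J : Set V)) := by
    intro C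
    induction C using Finset.induction_on with
    | empty =>
      intro _
      rw [Finset.union_empty, Finset.card_empty, zero_add]
    | insert c C hc ih =>
      intro hCB
      have hC : C ⊆ B := (Finset.subset_insert c C).trans hCB
      have hcB : c ∈ B := hCB (Finset.mem_insert_self c C)
      rw [Finset.union_insert, Finset.coe_insert, span_insert, sup_comm,
        finrank_sup_one _ c ?_, ih hC, Finset.card_insert_of_notMem hc]
      · omega
      · intro h1
        have h2 : c ∈ span (ZMod 2) ((J ∪ B.erase c : Finset V) : Set V) := by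
          refine span_mono (Finset.coe_subset.2 (Finset.union_subset_union
            (Finset.Subset.refl J) ?_)) h1
          intro x hx
          exact Finset.mem_erase.2 ⟨fun h => hc (h ▸ hx), hC hx⟩
        refine hmin c hcB ?_
        rw [← hs]
        refine le_antisymm (span_mono (Finset.coe_subset.2 (Finset.union_subset_union
          (Finset.Subset.refl J) (Finset.erase_subset c B)))) (span_le.2 ?_)
        intro x hx
        rw [Finset.mem_coe, Finset.mem_union] at hx
        by_cases hxc : x = c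
        · rw [hxc]
          exact h2
        · refine subset_span (Finset.mem_coe.2 (Finset.mem_union.2 ?_))
          rcases hx with hx | hx
          · exact Or.inl hx
          · exact Or.inr (Finset.mem_erase.2 ⟨hxc, hx⟩)
  rw [← key B (Finset.Subset.refl B), hs]

variable {ι V : Type} [DecidableEq ι] [DecidableEq V] [AddCommGroup V] [Module (ZMod 2) V]

/-- the tree sum in terms of the rows -/
theorem tau_eq {Q : Finset ι} {Cyc : Finset ι → Prop} {r : ι → V} (hB : Block Q Cyc r)
    (J : Finset ι) (w : ι → ℤ) (w' : V → ℤ) (hw' : ∀ i ∈ Q, w' (r i) = w i) :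
    TRJ.tau (Q.image r) ((Q ∩ J).image r) w' = treeSum Cyc (Q \ J) w := by
  classical
  obtain ⟨P, hP⟩ : ∃ P, P = Q \ J := ⟨_, rfl⟩
  have hPQ : P ⊆ Q := by
    rw [hP]
    exact Finset.sdiff_subset
  have hXJ : Q.image r \ (Q ∩ J).image r = P.image r := by
    rw [hB.image_sdiff Finset.inter_subset_left, hP]
    congr 1
    ext i
    rw [Finset.mem_sdiff, Finset.mem_inter, Finset.mem_sdiff]
    tauto
  have hinjP : Set.InjOn r (P : Set ι) := hB.inj.mono (Finset.coe_subset.2 hPQ)
  -- the rows of `J` and of the complement of `F` in `P`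
  have hun : ∀ F ⊆ P, (Q ∩ J).image r ∪ (P \ F).image r = (Q \ F).image r := by
    intro F hF
    rw [← Finset.image_union]
    congr 1
    ext i
    rw [Finset.mem_union, Finset.mem_inter, hP, Finset.mem_sdiff, Finset.mem_sdiff,
      Finset.mem_sdiff]
    have h1 : i ∈ F → i ∉ J := fun h => by
      have h2 := hF h
      rw [hP] at h2
      exact (Finset.mem_sdiff.1 h2).2
    tauto
  have hsp : ∀ F ⊆ P, (¬ Cyc F ↔ span (ZMod 2) (((Q ∩ J).image r ∪ (P \ F).image r : Finset V) :
      Set V) = span (ZMod 2) ((Q.image r : Finset V) : Set V)) := by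
    intro F hF
    rw [hun F hF, hB.co F (hF.trans hPQ), ← hB.image_sdiff (hF.trans hPQ)]
    rfl
  have hcg : ∀ G ⊆ P, (G.image r).card = G.card := fun G hG =>
    Finset.card_image_of_injOn (hinjP.mono (Finset.coe_subset.2 hG))
  have hlar : ∀ F ⊆ P, (Largest Cyc P F ↔
      span (ZMod 2) (((Q ∩ J).image r ∪ (P \ F).image r : Finset V) : Set V) =
        span (ZMod 2) ((Q.image r : Finset V) : Set V) ∧
      ((P \ F).image r).card + finrank (ZMod 2) (span (ZMod 2) (((Q ∩ J).image r : Finset V) :
        Set V)) = finrank (ZMod 2) (span (ZMod 2) ((Q.image r : Finset V) : Set V))) := by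
    intro F hF
    constructor
    · rintro ⟨h1, h2⟩
      have h3 := (hsp F hF).1 h1
      refine ⟨h3, card_of_min _ _ _ h3 ?_⟩
      intro c hc h4
      obtain ⟨i, hi, rfl⟩ := Finset.mem_image.1 hc
      rw [Finset.mem_sdiff] at hi
      have h5 : ((P \ F).image r).erase (r i) = (P \ insert i F).image r := by
        ext v
        rw [Finset.mem_erase, Finset.mem_image, Finset.mem_image]
        constructor
        · rintro ⟨hv, j, hj, rfl⟩
          rw [Finset.mem_sdiff] at hj
          refine ⟨j, Finset.mem_sdiff.2 ⟨hj.1, fun h => ?_⟩, rfl⟩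
          rcases Finset.mem_insert.1 h with h | h
          · exact hv (h ▸ rfl)
          · exact hj.2 h
        · rintro ⟨j, hj, rfl⟩
          rw [Finset.mem_sdiff, Finset.mem_insert, not_or] at hj
          refine ⟨fun h => hj.2.1 (hB.inj (Finset.mem_coe.2 (hPQ hj.1))
            (Finset.mem_coe.2 (hPQ hi.1)) h), j, Finset.mem_sdiff.2 ⟨hj.1, hj.2.2⟩, rfl⟩
      rw [h5] at h4
      have h6 := (hsp (insert i F) (Finset.insert_subset hi.1 hF)).2 h4
      have h7 := h2 _ (Finset.insert_subset hi.1 hF) h6
      rw [Finset.card_insert_of_notMem hi.2] at h7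
      omega
    · rintro ⟨h1, h2⟩
      refine ⟨(hsp F hF).2 h1, fun F' hF' hc => ?_⟩
      have h3 := TRJ.rank_le _ _ _ ((hsp F' hF').1 hc)
      rw [hcg _ Finset.sdiff_subset, Finset.card_sdiff_of_subset hF'] at h3
      rw [hcg _ Finset.sdiff_subset, Finset.card_sdiff_of_subset hF] at h2
      have h4 := Finset.card_le_card hF
      have h5 := Finset.card_le_card hF'
      omega
  unfold TRJ.tau treeSum
  rw [hXJ, ← hP, Finset.sum_filter]
  refine Finset.sum_bij' (fun B _ => P \ P.filter fun i => r i ∈ B) (fun F _ => (P \ F).image r)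
    ?_ ?_ ?_ ?_ ?_
  · intro B _
    exact Finset.mem_powerset.2 Finset.sdiff_subset
  · intro F _
    exact Finset.mem_powerset.2 (Finset.image_subset_image Finset.sdiff_subset)
  · intro B hBP
    show (P \ (P \ P.filter fun i => r i ∈ B)).image r = B
    rw [Finset.sdiff_sdiff_eq_self (Finset.filter_subset _ _)]
    ext v
    rw [Finset.mem_image]
    constructor
    · rintro ⟨i, hi, rfl⟩
      exact (Finset.mem_filter.1 hi).2
    · intro hv
      obtain ⟨i, hi, rfl⟩ := Finset.mem_image.1 (Finset.mem_powerset.1 hBP hv)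
      exact ⟨i, Finset.mem_filter.2 ⟨hi, hv⟩, rfl⟩
  · intro F hF
    have hF' := Finset.mem_powerset.1 hF
    show P \ (P.filter fun i => r i ∈ (P \ F).image r) = F
    have h1 : (P.filter fun i => r i ∈ (P \ F).image r) = P \ F := by
      ext i
      rw [Finset.mem_filter]
      constructor
      · rintro ⟨h1, h2⟩
        obtain ⟨j, hj, hji⟩ := Finset.mem_image.1 h2
        rw [← hinjP (Finset.mem_coe.2 (Finset.mem_sdiff.1 hj).1) (Finset.mem_coe.2 h1) hji]
        exact hj
      · intro h1
        exact ⟨(Finset.mem_sdiff.1 h1).1, Finset.mem_image_of_mem r h1⟩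
    rw [h1, Finset.sdiff_sdiff_eq_self hF']
  · intro B hBP
    obtain ⟨G, hG⟩ : ∃ G, G = P.filter fun i => r i ∈ B := ⟨_, rfl⟩
    have hGP : G ⊆ P := by
      rw [hG]
      exact Finset.filter_subset _ _
    have hGB : G.image r = B := by
      ext v
      rw [Finset.mem_image]
      constructor
      · rintro ⟨i, hi, rfl⟩
        rw [hG] at hi
        exact (Finset.mem_filter.1 hi).2
      · intro hv
        obtain ⟨i, hi, rfl⟩ := Finset.mem_image.1 (Finset.mem_powerset.1 hBP hv)
        exact ⟨i, by rw [hG]; exact Finset.mem_filter.2 ⟨hi, hv⟩, rfl⟩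
    have h1 := hlar (P \ G) Finset.sdiff_subset
    rw [Finset.sdiff_sdiff_eq_self hGP, hGB] at h1
    rw [← hG]
    by_cases h2 : Largest Cyc P (P \ G)
    · rw [if_pos (h1.1 h2), if_pos h2, Finset.sdiff_sdiff_eq_self hGP, ← hGB,
        Finset.prod_image (hinjP.mono (Finset.coe_subset.2 hGP))]
      exact Finset.prod_congr rfl fun i hi => hw' i (hPQ (hGP hi))
    · rw [if_neg fun h => h2 (h1.2 h), if_neg h2]

/-- **alternative (b)** -/
theorem tree_block (Q : Finset ι) (Cyc : Finset ι → Prop) (r : ι → V) (hB : Block Q Cyc r)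
    (a u : V → ℤ) (C T : ℕ) (hF : Follows (Q.image r) a u C T) (J : Finset ι) (w : ι → ℤ)
    (hd : ∀ d, Short Q (fun i => a (r i)) T d → ∑ i ∈ Q, w i * d i = 0 ∧ Even (∑ i ∈ J, d i))
    (ht : treeSum Cyc (Q \ J) w ≠ 0) : NZu (Q.image r) u := by
  classical
  by_contra hno
  obtain ⟨w', hw'⟩ : ∃ w' : V → ℤ, ∀ i ∈ Q, w' (r i) = w i := by
    refine ⟨fun v => if h : ∃ i ∈ Q, r i = v then w h.choose else 0, fun i hi => ?_⟩
    have h : ∃ j ∈ Q, r j = r i := ⟨i, hi, rfl⟩
    show (if h : ∃ j ∈ Q, r j = r i then w h.choose else 0) = w i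
    rw [dif_pos h]
    exact congrArg w (hB.inj h.choose_spec.1 hi h.choose_spec.2)
  rw [← tau_eq hB J w w' hw'] at ht
  obtain ⟨d, hd1, hd2⟩ := TRJ.follows_lead _ a u C T hF hno ((Q ∩ J).image r)
    (Finset.image_subset_image Finset.inter_subset_left) w' ht
  obtain ⟨d', hd'⟩ : ∃ d' : ι → ℤ, d' = fun i => if i ∈ Q then d (r i) else 0 := ⟨_, rfl⟩
  have hd'1 : ∀ i ∈ Q, d' i = d (r i) := by
    intro i h
    rw [hd']
    exact if_pos h
  have hsh : Short Q (fun i => a (r i)) T d' := by
    refine ⟨fun i => ?_, fun i h => ?_, ?_⟩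
    · by_cases h : i ∈ Q
      · rw [hd'1 i h]
        exact hd1.1 (r i)
      · rw [hd']
        exact Or.inr (Or.inl (if_neg h))
    · rw [hd']
      exact if_neg h
    · have h1 := hd1.2.2
      rw [Finset.sum_image hB.inj] at h1
      rw [Finset.sum_congr rfl fun i hi => by rw [hd'1 i hi]]
      exact h1
  obtain ⟨h1, h2⟩ := hd d' hsh
  rcases hd2 with h3 | h3
  · apply h3
    rw [Finset.sum_image hB.inj, ← h1]
    refine Finset.sum_congr rfl fun i hi => ?_
    rw [hw' i hi, hd'1 i hi, mul_comm]
  · rw [← Int.not_even_iff_odd] at h3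
    apply h3
    have h4 : ∑ v ∈ (Q ∩ J).image r, d v = ∑ i ∈ J, d' i := by
      rw [Finset.sum_image (hB.inj.mono (Finset.coe_subset.2 Finset.inter_subset_left))]
      have h5 : J.filter (fun i => i ∈ Q) = Q ∩ J := by
        ext i
        rw [Finset.mem_filter, Finset.mem_inter]
        exact and_comm
      rw [← Finset.sum_filter_add_sum_filter_not J (fun i => i ∈ Q) d', h5,
        Finset.sum_eq_zero (s := J.filter fun i => ¬ i ∈ Q) fun i hi => by
          rw [hd']
          exact if_neg (Finset.mem_filter.1 hi).2, add_zero]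
      refine Finset.sum_congr rfl fun i hi => ?_
      rw [hd'1 i (Finset.mem_inter.1 hi).1]
    rw [h4]
    exact h2

end Pool.Agent.NHT
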