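import Mathlib
import Pool.Agent.SRH.HV
import Pool.Agent.NHT.Tree

/-!
# NHT, version 3, module Ex: the exponents of sets of rows (helper38)
-/

set_option autoImplicit false
set_option linter.unusedSectionVars false

open Module Matrix Submodule Pool.Agent.UNI LaurentPolynomial Pool.Agent.SPT Pool.Agent.SPT.Rel
  Pool.Agent.SPT.Lin

namespace Pool.Agent.NHT

section

variable {E : Type} [Fintype E] [DecidableEq E]

open Classical in
theorem Ex_mem (M : Matrix E E (ZMod 2)) (U : Finset (E → ZMod 2))
    (hU : U ⊆ Finset.univ.image M) (a : E → ZMod 2) (y : Im M) (hy : M *ᵥ a = y) :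
    y ∈ ck (U.image (psi M)) ↔ ∀ v ∈ U, v ⬝ᵥ a = 0 := by
  constructor
  · intro h v hv
    obtain ⟨c, -, rfl⟩ := Finset.mem_image.1 (hU hv)
    have h1 := h _ (Finset.mem_image_of_mem _ hv)
    rw [psi_row, co_apply, ← hy] at h1
    exact h1
  · intro h u hu
    obtain ⟨v, hv, rfl⟩ := Finset.mem_image.1 hu
    obtain ⟨c, -, rfl⟩ := Finset.mem_image.1 (hU hv)
    rw [psi_row, co_apply, ← hy]
    exact h _ hv

theorem dot_span (U : Set (E → ZMod 2)) (a : E → ZMod 2) (h : ∀ v ∈ U, v ⬝ᵥ a = 0)
    (v : E → ZMod 2) (hv : v ∈ span (ZMod 2) U) : v ⬝ᵥ a = 0 := by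
  induction hv using Submodule.span_induction with
  | mem v hv => exact h v hv
  | zero => exact zero_dotProduct a
  | add v w _ _ hv hw => rw [add_dotProduct, hv, hw, add_zero]
  | smul r v _ hv => rw [smul_dotProduct, hv, smul_zero]

/-- the exponent depends only on the span -/
theorem ex_congr (M : Matrix E E (ZMod 2)) (U U' : Finset (E → ZMod 2))
    (hU : U ⊆ Finset.univ.image M) (hU' : U' ⊆ Finset.univ.image M)
    (h : span (ZMod 2) (U : Set (E → ZMod 2)) = span (ZMod 2) (U' : Set (E → ZMod 2))) :
    ex M U = ex M U' := by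
  classical
  have h1 : ck (U.image (psi M)) = ck (U'.image (psi M)) := by
    ext y
    obtain ⟨a, ha⟩ := y.2
    have ha' : M *ᵥ a = y := ha
    rw [Ex_mem M U hU a y ha', Ex_mem M U' hU' a y ha']
    constructor
    · intro h2 v hv
      refine dot_span _ a h2 v ?_
      have h3 : v ∈ span (ZMod 2) (U' : Set (E → ZMod 2)) := subset_span hv
      rw [← h] at h3
      exact h3
    · intro h2 v hv
      refine dot_span _ a h2 v ?_
      have h3 : v ∈ span (ZMod 2) (U : Set (E → ZMod 2)) := subset_span hv
      rw [h] at h3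
      exact h3
  unfold ex
  rw [h1]

/-- preimages -/
theorem exists_pre (M : Matrix E E (ZMod 2)) (B : Finset (E → ZMod 2))
    (hB : B ⊆ Finset.univ.image M) : ∃ W : Finset E, W.image M = B ∧ W.card = B.card := by
  classical
  rcases B.eq_empty_or_nonempty with hB0 | ⟨v₀, hv₀⟩
  · exact ⟨∅, by rw [hB0, Finset.image_empty], by rw [hB0, Finset.card_empty, Finset.card_empty]⟩
  obtain ⟨c₀, -, hc₀⟩ := Finset.mem_image.1 (hB hv₀)
  have h1 : ∀ v, ∃ c, v ∈ B → M c = v := by
    intro v
    by_cases hv : v ∈ B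
    · obtain ⟨c, -, hc⟩ := Finset.mem_image.1 (hB hv)
      exact ⟨c, fun _ => hc⟩
    · exact ⟨c₀, fun h => absurd h hv⟩
  choose ch hch using h1
  refine ⟨B.image ch, ?_, ?_⟩
  · rw [Finset.image_image]
    ext v
    rw [Finset.mem_image]
    constructor
    · rintro ⟨w, hw, rfl⟩
      rw [Function.comp_apply, hch w hw]
      exact hw
    · intro hv
      exact ⟨v, hv, hch v hv⟩
  · refine Finset.card_image_of_injOn ?_
    intro v hv w hw h
    have h2 := hch v hv
    have h3 := hch w hw
    rw [← h2, ← h3]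
    exact congrArg M h

/-- the exponent is at least the corank -/
theorem ex_ge (M : Matrix E E (ZMod 2)) (hM : ∀ i j, M i j = M j i) (U : Finset (E → ZMod 2))
    (hU : U ⊆ Finset.univ.image M) :
    M.rank ≤ ex M U + finrank (ZMod 2) (span (ZMod 2) (U : Set (E → ZMod 2))) := by
  classical
  obtain ⟨B, hB, hmin⟩ := Finset.exists_min_image
    (U.powerset.filter fun B : Finset (E → ZMod 2) =>
      span (ZMod 2) (B : Set (E → ZMod 2)) = span (ZMod 2) (U : Set (E → ZMod 2))) Finset.card
    ⟨U, Finset.mem_filter.2 ⟨Finset.mem_powerset_self U, rfl⟩⟩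
  rw [Finset.mem_filter, Finset.mem_powerset] at hB
  have h1 := card_of_min U ∅ B (by rw [Finset.empty_union]; exact hB.2) (by
    intro c hc h
    rw [Finset.empty_union] at h
    have h2 := hmin (B.erase c) (Finset.mem_filter.2 ⟨Finset.mem_powerset.2
      ((Finset.erase_subset c B).trans hB.1), h⟩)
    have h3 := Finset.card_erase_lt_of_mem hc
    omega)
  rw [Finset.coe_empty, span_empty, finrank_bot, add_zero] at h1
  obtain ⟨W, hW, hWc⟩ := exists_pre M B (hB.1.trans hU)
  have h2 := kap_ex M hM W
  rw [hW, ex_congr M B U (hB.1.trans hU) hU hB.2, hWc, h1] at h2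
  omega

theorem image_insert_rank (M : Matrix E E (ZMod 2)) (J W : Finset E) (hJW : J ⊆ W) :
    finrank (ZMod 2) (span (ZMod 2) ((W.image M : Finset (E → ZMod 2)) : Set (E → ZMod 2))) ≤
      finrank (ZMod 2) (span (ZMod 2) ((J.image M : Finset (E → ZMod 2)) : Set (E → ZMod 2))) +
        (W \ J).card := by
  classical
  have h1 : W.image M = J.image M ∪ (W \ J).image M := by
    rw [← Finset.image_union, Finset.union_sdiff_of_subset hJW]
  rw [h1, Finset.coe_union, span_union]
  refine (Submodule.finrank_add_le_finrank_add_finrank _ _).trans ?_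
  have h2 : finrank (ZMod 2) (span (ZMod 2) (((W \ J).image M : Finset (E → ZMod 2)) :
      Set (E → ZMod 2))) ≤ ((W \ J).image M).card := finrank_span_finset_le_card _
  have h3 := Finset.card_image_le (s := W \ J) (f := M)
  omega

/-- the corank of the sets which contain `J` -/
theorem kap_ge (M : Matrix E E (ZMod 2)) (hM : ∀ i j, M i j = M j i) (J W : Finset E)
    (hJW : J ⊆ W) : J.card ≤ kap M W +
      finrank (ZMod 2) (span (ZMod 2) ((J.image M : Finset (E → ZMod 2)) : Set (E → ZMod 2))) := by
  classical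
  have h1 := kap_ex M hM W
  have h2 := ex_ge M hM (W.image M) (Finset.image_subset_image (Finset.subset_univ W))
  have h3 := image_insert_rank M J W hJW
  have h4 := Finset.card_sdiff_add_card_eq_card hJW
  omega

/-- the least corank -/
theorem kap_min (M : Matrix E E (ZMod 2)) (hM : ∀ i j, M i j = M j i) (J : Finset E) :
    ∃ W, J ⊆ W ∧ J.card = kap M W +
      finrank (ZMod 2) (span (ZMod 2) ((J.image M : Finset (E → ZMod 2)) : Set (E → ZMod 2))) := by
  classical
  obtain ⟨X, hX⟩ : ∃ X, X = Finset.univ.image M := ⟨_, rfl⟩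
  have hJX : J.image M ⊆ X := by
    rw [hX]
    exact Finset.image_subset_image (Finset.subset_univ J)
  obtain ⟨B, hB, hmin⟩ := Finset.exists_min_image
    (X.powerset.filter fun B : Finset (E → ZMod 2) =>
      span (ZMod 2) ((J.image M ∪ B : Finset (E → ZMod 2)) : Set (E → ZMod 2)) =
        span (ZMod 2) (X : Set (E → ZMod 2))) Finset.card
    ⟨X, Finset.mem_filter.2 ⟨Finset.mem_powerset_self X, by
      rw [Finset.union_eq_right.2 hJX]⟩⟩
  rw [Finset.mem_filter, Finset.mem_powerset] at hB
  have hmin' : ∀ c ∈ B, span (ZMod 2) ((J.image M ∪ B.erase c : Finset (E → ZMod 2)) :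
      Set (E → ZMod 2)) ≠ span (ZMod 2) (X : Set (E → ZMod 2)) := by
    intro c hc h
    have h2 := hmin (B.erase c) (Finset.mem_filter.2 ⟨Finset.mem_powerset.2
      ((Finset.erase_subset c B).trans hB.1), h⟩)
    have h3 := Finset.card_erase_lt_of_mem hc
    omega
  have h1 := card_of_min X (J.image M) B hB.2 hmin'
  obtain ⟨W, hW, hWc⟩ := exists_pre M B (by rw [← hX]; exact hB.1)
  have hdis : Disjoint J W := by
    rw [Finset.disjoint_left]
    intro c hcJ hcW
    have h2 : M c ∈ B := by
      rw [← hW]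
      exact Finset.mem_image_of_mem M hcW
    apply hmin' _ h2
    rw [← hB.2]
    have h3 : J.image M ∪ B.erase (M c) = J.image M ∪ B := by
      ext v
      rw [Finset.mem_union, Finset.mem_union, Finset.mem_erase]
      constructor
      · rintro (h | h)
        · exact Or.inl h
        · exact Or.inr h.2
      · rintro (h | h)
        · exact Or.inl h
        · by_cases hv : v = M c
          · rw [hv]
            exact Or.inl (Finset.mem_image_of_mem M hcJ)
          · exact Or.inr ⟨hv, h⟩
    rw [h3]
  refine ⟨J ∪ W, Finset.subset_union_left, ?_⟩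
  have h2 := kap_ex M hM (J ∪ W)
  have h3 : (J ∪ W).image M = J.image M ∪ B := by
    rw [Finset.image_union, hW]
  have h4 : ex M (J.image M ∪ B) = 0 := by
    refine SRH.HV_span M _ ?_ ?_
    · rw [← hX]
      exact Finset.union_subset hJX hB.1
    · rw [hB.2, hX]
  have h5 : M.rank = finrank (ZMod 2) (span (ZMod 2) (X : Set (E → ZMod 2))) := by
    have h6 : Set.range M.row = (X : Set (E → ZMod 2)) := by
      rw [hX, Finset.coe_image, Finset.coe_univ, Set.image_univ]
      rfl
    rw [Matrix.rank_eq_finrank_span_row, h6]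
  rw [h3, h4, Finset.card_union_of_disjoint hdis, hWc] at h2
  omega

end

end Pool.Agent.NHT
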