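import Mathlib
import Pool.Agent.NHT.Ex

/-!
# NHT, version 3, module HVJ: the polynomial of a set of classes times the determinant of the diagram in
which these classes are cut (helper38)
-/

set_option autoImplicit false
set_option linter.unusedSectionVars false

open Module Matrix Submodule Pool.Agent.UNI LaurentPolynomial Pool.Agent.SPT Pool.Agent.SPT.Rel
  Pool.Agent.SPT.Lin Pool.Agent.SRH

namespace Pool.Agent.NHT

/-! ### expansion of the sets which contain `J` -/

section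

variable {R : Type} [CommRing R] {κ : Type} [DecidableEq κ]

theorem KK_union (X J : Finset κ) (hJ : J ⊆ X) (φ : Finset κ → R) (F : Finset κ)
    (hF : F ⊆ X \ J) : Lin.KK X φ (J ∪ F) = Lin.KK (X \ J) (fun U => φ (J ∪ U)) F := by
  classical
  unfold Lin.KK
  symm
  refine Finset.sum_nbij' (fun U => J ∪ U) (fun U => U \ J) ?_ ?_ ?_ ?_ ?_
  · intro U hU
    rw [Finset.mem_filter, Finset.mem_powerset] at hU ⊢
    exact ⟨Finset.union_subset hJ (hU.1.trans Finset.sdiff_subset),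
      Finset.union_subset_union (Finset.Subset.refl J) hU.2⟩
  · intro U hU
    rw [Finset.mem_filter, Finset.mem_powerset] at hU ⊢
    refine ⟨Finset.sdiff_subset_sdiff hU.1 (Finset.Subset.refl J), fun v hv => ?_⟩
    exact Finset.mem_sdiff.2 ⟨hU.2 (Finset.mem_union_right J hv), (Finset.mem_sdiff.1 (hF hv)).2⟩
  · intro U hU
    rw [Finset.mem_filter, Finset.mem_powerset] at hU
    ext v
    rw [Finset.mem_sdiff, Finset.mem_union]
    constructor
    · rintro ⟨h1 | h1, h2⟩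
      · exact absurd h1 h2
      · exact h1
    · intro h
      exact ⟨Or.inr h, (Finset.mem_sdiff.1 (hU.1 h)).2⟩
  · intro U hU
    rw [Finset.mem_filter, Finset.mem_powerset] at hU
    exact Finset.union_sdiff_of_subset (Finset.union_subset_left hU.2)
  · intro U hU
    rw [Finset.mem_filter, Finset.mem_powerset] at hU
    have h1 : (J ∪ U) \ (J ∪ F) = U \ F := by
      ext v
      rw [Finset.mem_sdiff, Finset.mem_union, Finset.mem_union, Finset.mem_sdiff]
      constructor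
      · rintro ⟨h1 | h1, h2⟩
        · exact absurd (Or.inl h1) h2
        · exact ⟨h1, fun h3 => h2 (Or.inr h3)⟩
      · rintro ⟨h1, h2⟩
        refine ⟨Or.inr h1, ?_⟩
        rintro (h3 | h3)
        · exact (Finset.mem_sdiff.1 (hU.1 h1)).2 h3
        · exact h2 h3
    rw [h1]

theorem expand_J (X J : Finset κ) (hJ : J ⊆ X) (x : κ → R) (φ : Finset κ → R) :
    ∑ F ∈ X.powerset.filter (fun F => J ⊆ F), (∏ k ∈ F, x k) * Lin.KK X φ F =
      (∏ k ∈ J, x k) * ∑ B ∈ (X \ J).powerset, (∏ k ∈ B, (x k - 1)) * φ (J ∪ B) := by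
  classical
  rw [Lin.expand (X \ J) x fun U => φ (J ∪ U), Finset.mul_sum]
  symm
  refine Finset.sum_nbij' (fun U => J ∪ U) (fun U => U \ J) ?_ ?_ ?_ ?_ ?_
  · intro U hU
    rw [Finset.mem_powerset] at hU
    rw [Finset.mem_filter, Finset.mem_powerset]
    exact ⟨Finset.union_subset hJ (hU.trans Finset.sdiff_subset), Finset.subset_union_left⟩
  · intro U hU
    rw [Finset.mem_filter, Finset.mem_powerset] at hU
    rw [Finset.mem_powerset]
    exact Finset.sdiff_subset_sdiff hU.1 (Finset.Subset.refl J)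
  · intro U hU
    rw [Finset.mem_powerset] at hU
    ext v
    rw [Finset.mem_sdiff, Finset.mem_union]
    constructor
    · rintro ⟨h1 | h1, h2⟩
      · exact absurd h1 h2
      · exact h1
    · intro h
      exact ⟨Or.inr h, (Finset.mem_sdiff.1 (hU h)).2⟩
  · intro U hU
    rw [Finset.mem_filter, Finset.mem_powerset] at hU
    exact Finset.union_sdiff_of_subset hU.2
  · intro U hU
    rw [Finset.mem_powerset] at hU
    have hdis : Disjoint J U := by
      rw [Finset.disjoint_left]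
      intro v h1 h2
      exact (Finset.mem_sdiff.1 (hU h2)).2 h1
    rw [Finset.prod_union hdis, KK_union X J hJ φ U hU]
    ring

end

section

variable {E : Type} [Fintype E] [DecidableEq E]

theorem dl_ne0 : dl ℂ ≠ 0 := by
  intro h
  have h1 := congrArg (fun f : ℂ[T;T⁻¹] => f.coeff 2) h
  unfold dl at h1
  have h2 : (-T 2 - T (-2) : ℂ[T;T⁻¹]).coeff 2 = -((T 2 : ℂ[T;T⁻¹]).coeff 2) - (T (-2) : ℂ[T;T⁻¹]).coeff 2 := rfl
  rw [h2] at h1
  have h3 : (T 2 : ℂ[T;T⁻¹]).coeff 2 = 1 := by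
    rw [T_apply]
    simp
  have h4 : (T (-2) : ℂ[T;T⁻¹]).coeff 2 = 0 := by
    rw [T_apply]
    norm_num
  rw [h3, h4] at h1
  have h5 : (0 : ℂ[T;T⁻¹]).coeff 2 = 0 := rfl
  rw [h5] at h1
  norm_num at h1

theorem dl_dvd_qu (b : Bool) : dl ℂ ∣ qu ℂ b - 1 := ⟨al ℂ b ^ 2, by rw [qu_sub, mul_comm]⟩

theorem dl_dvd_pw (M : Matrix E E (ZMod 2)) (σ : E → Bool) (s : Finset E) (v : E → ZMod 2) :
    dl ℂ ∣ pw M (fun c => qu ℂ (σ c)) s v - 1 := by
  classical
  have key : ∀ t : Finset E, dl ℂ ∣ (∏ c ∈ t, qu ℂ (σ c)) - 1 := by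
    intro t
    induction t using Finset.induction_on with
    | empty => rw [Finset.prod_empty, sub_self]; exact dvd_zero _
    | insert a t ha ih =>
      rw [Finset.prod_insert ha]
      have h1 : qu ℂ (σ a) * (∏ c ∈ t, qu ℂ (σ c)) - 1 =
          (qu ℂ (σ a) - 1) * (∏ c ∈ t, qu ℂ (σ c)) + ((∏ c ∈ t, qu ℂ (σ c)) - 1) := by ring
      rw [h1]
      exact dvd_add ((dl_dvd_qu _).mul_right _) ih
  unfold pw
  exact key _

theorem evA_pw (M : Matrix E E (ZMod 2)) (σ : E → Bool) (s : Finset E) (v : E → ZMod 2) :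
    evA (pw M (fun c => qu ℂ (σ c)) s v) = 1 := by
  unfold pw
  rw [map_prod]
  exact Finset.prod_eq_one fun c _ => evA_qu _

theorem rank_ge (M : Matrix E E (ZMod 2)) (J : Finset (E → ZMod 2))
    (hJ : J ⊆ Finset.univ.image M) :
    finrank (ZMod 2) (span (ZMod 2) (J : Set (E → ZMod 2))) ≤ M.rank := by
  classical
  rw [Matrix.rank_eq_finrank_span_row]
  refine Submodule.finrank_mono (span_mono ?_)
  intro v hv
  obtain ⟨c, -, rfl⟩ := Finset.mem_image.1 (hJ (Finset.mem_coe.1 hv))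
  exact ⟨c, rfl⟩

open Classical in
/-- the polynomial of the spanning sets of `J` with the weights of the classes -/
noncomputable def PJ (M : Matrix E E (ZMod 2)) (σ : E → Bool) (J : Finset (E → ZMod 2))
    (x : (E → ZMod 2) → ℂ) : ℂ[T;T⁻¹] :=
  ∑ A ∈ J.powerset, if Spans ⊥ J A then
    ∏ v ∈ A, (C (x v) * pw M (fun c => qu ℂ (σ c)) Finset.univ v - 1) else 0

theorem evA_PJ (M : Matrix E E (ZMod 2)) (σ : E → Bool) (J : Finset (E → ZMod 2))
    (x : (E → ZMod 2) → ℂ) : evA (PJ M σ J x) = PP J ⊥ x := by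
  classical
  unfold PJ PP
  rw [map_sum]
  refine Finset.sum_congr rfl fun A _ => ?_
  split_ifs
  · rw [map_prod]
    refine Finset.prod_congr rfl fun v _ => ?_
    rw [map_sub, map_mul, evA_C, evA_pw, mul_one, map_one]
  · exact map_zero _

/-- the sum over the sets outside of `J` -/
noncomputable def HJ (M : Matrix E E (ZMod 2)) (σ : E → Bool) (J : Finset (E → ZMod 2)) :
    ℂ[T;T⁻¹] :=
  ∑ B ∈ (Finset.univ.image M \ J).powerset,
    (∏ v ∈ B, (pw M (fun c => qu ℂ (σ c)) Finset.univ v - 1)) * ph ℂ M (J ∪ B)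

/-- **The first step**: modulo a power of the loop value the sum is the product of `PJ` and `HJ`. -/
theorem split_mod (M : Matrix E E (ZMod 2)) (hM : ∀ i j, M i j = M j i) (σ : E → Bool)
    (J : Finset (E → ZMod 2)) (hJ : J ⊆ Finset.univ.image M) (x : (E → ZMod 2) → ℂ)
    (hx : ∀ v, v ∉ J → x v = 1) :
    dl ℂ ^ (M.rank - finrank (ZMod 2) (span (ZMod 2) (J : Set (E → ZMod 2))) + 1) ∣
      ∑ F ∈ (Finset.univ.image M).powerset, C (∏ v ∈ F, x v) *
        Lin.GG M (fun c => qu ℂ (σ c)) Finset.univ (ph ℂ M) F - PJ M σ J x * HJ M σ J := by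
  classical
  obtain ⟨X, hX⟩ : ∃ X, X = Finset.univ.image M := ⟨_, rfl⟩
  obtain ⟨y, hy⟩ : ∃ y : (E → ZMod 2) → ℂ[T;T⁻¹], ∀ v, y v =
    pw M (fun c => qu ℂ (σ c)) Finset.univ v := ⟨_, fun _ => rfl⟩
  obtain ⟨ρ, hρ⟩ : ∃ ρ, ρ = finrank (ZMod 2) (span (ZMod 2) (J : Set (E → ZMod 2))) := ⟨_, rfl⟩
  rw [← hρ]
  have h1 : ∑ F ∈ X.powerset, C (∏ v ∈ F, x v) *
      Lin.GG M (fun c => qu ℂ (σ c)) Finset.univ (ph ℂ M) F =
      ∑ U ∈ X.powerset, (∏ v ∈ U, (C (x v) * y v - 1)) * ph ℂ M U := by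
    rw [Lin.expand]
    refine Finset.sum_congr rfl fun F _ => ?_
    unfold Lin.GG
    rw [← hX, map_prod, Finset.prod_mul_distrib, mul_assoc, Finset.prod_congr rfl fun k _ => (hy k).symm]
  rw [← hX, h1, TRJ.sum_split X J (by rw [hX]; exact hJ)]
  unfold PJ HJ
  rw [Finset.sum_mul, ← hX, ← Finset.sum_sub_distrib]
  refine Finset.dvd_sum fun A hA => ?_
  rw [Finset.mul_sum, ← Finset.sum_sub_distrib]
  refine Finset.dvd_sum fun B hB => ?_
  rw [Finset.mem_powerset] at hA hB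
  have hdis : Disjoint A B := by
    rw [Finset.disjoint_left]
    intro v h2 h3
    exact (Finset.mem_sdiff.1 (hB h3)).2 (hA h2)
  have hBX : B ⊆ X := hB.trans Finset.sdiff_subset
  have hAX : A ⊆ X := hA.trans (by rw [hX]; exact hJ)
  rw [Finset.prod_union hdis]
  have h2 : ∏ v ∈ B, (C (x v) * y v - 1) = ∏ v ∈ B, (y v - 1) := by
    refine Finset.prod_congr rfl fun v hv => ?_
    rw [hx v (Finset.mem_sdiff.1 (hB hv)).2, map_one, one_mul]
  have h3 : ∏ v ∈ B, (pw M (fun c => qu ℂ (σ c)) Finset.univ v - 1) = ∏ v ∈ B, (y v - 1) :=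
    Finset.prod_congr rfl fun v _ => by rw [hy]
  have h4 : ∏ v ∈ A, (C (x v) * pw M (fun c => qu ℂ (σ c)) Finset.univ v - 1) =
      ∏ v ∈ A, (C (x v) * y v - 1) := Finset.prod_congr rfl fun v _ => by rw [hy]
  rw [h2, h3, h4]
  by_cases hs : Spans ⊥ J A
  · rw [if_pos hs]
    have h5 : ph ℂ M (A ∪ B) = ph ℂ M (J ∪ B) := by
      unfold ph
      congr 1
      refine ex_congr M _ _ ?_ ?_ ?_
      · rw [← hX]
        exact Finset.union_subset hAX hBX
      · rw [← hX]
        exact Finset.union_subset (by rw [hX]; exact hJ) hBX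
      · unfold Spans at hs
        rw [bot_sup_eq, bot_sup_eq] at hs
        rw [Finset.coe_union, Finset.coe_union, span_union, span_union, hs]
    rw [h5]
    have h6 : (∏ v ∈ A, (C (x v) * y v - 1)) * (∏ v ∈ B, (y v - 1)) * ph ℂ M (J ∪ B) -
        (∏ v ∈ A, (C (x v) * y v - 1)) * ((∏ v ∈ B, (y v - 1)) * ph ℂ M (J ∪ B)) = 0 := by ring
    rw [h6]
    exact dvd_zero _
  · rw [if_neg hs, zero_mul, sub_zero, mul_assoc]
    refine Dvd.dvd.mul_left ?_ _
    have h5 : dl ℂ ^ B.card ∣ ∏ v ∈ B, (y v - 1) := by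
      rw [← Finset.prod_const]
      refine Finset.prod_dvd_prod_of_dvd _ _ fun v _ => ?_
      rw [hy]
      exact dl_dvd_pw M σ _ v
    unfold ph
    refine dvd_trans ?_ (mul_dvd_mul h5 (dvd_refl _))
    rw [← pow_add]
    refine pow_dvd_pow _ ?_
    have h6 := ex_ge M hM (A ∪ B) (by rw [← hX]; exact Finset.union_subset hAX hBX)
    have h7 : finrank (ZMod 2) (span (ZMod 2) ((A ∪ B : Finset (E → ZMod 2)) :
        Set (E → ZMod 2))) ≤ finrank (ZMod 2) (span (ZMod 2) (A : Set (E → ZMod 2))) + B.card := by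
      rw [Finset.coe_union, span_union]
      refine (Submodule.finrank_add_le_finrank_add_finrank _ _).trans ?_
      have h8 : finrank (ZMod 2) (span (ZMod 2) (B : Set (E → ZMod 2))) ≤ B.card :=
        finrank_span_finset_le_card B
      omega
    have h8 : finrank (ZMod 2) (span (ZMod 2) (A : Set (E → ZMod 2))) < ρ := by
      rw [hρ]
      refine Submodule.finrank_lt_finrank_of_lt (lt_of_le_of_ne
        (span_mono (Finset.coe_subset.2 hA)) fun h => hs ?_)
      unfold Spans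
      rw [bot_sup_eq, bot_sup_eq]
      exact h
    have h9 := rank_ge M J hJ
    rw [← hρ] at h9
    omega

/-- **The second step**: the sum outside of `J` and the states which contain `J`. -/
theorem HJ_eq (M : Matrix E E (ZMod 2)) (hM : ∀ i j, M i j = M j i) (σ : E → Bool)
    (J : Finset E) (hinj : Set.InjOn M (J : Set E)) :
    dl ℂ ^ J.card * ((∏ v ∈ J.image M, pw M (fun c => qu ℂ (σ c)) Finset.univ v) *
      HJ M σ (J.image M)) = dl ℂ ^ M.rank * gg ℂ M σ J := by
  classical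
  rw [← HH_eq M hM σ J, ← Lin.sum_HH M Finset.univ (ph ℂ M) J (Finset.subset_univ J) hinj]
  congr 1
  unfold Lin.GG HJ
  rw [expand_J]
  exact Finset.image_subset_image (Finset.subset_univ J)

open Classical in
/-- the sum over the states with the least number of components -/
noncomputable def detJ (M : Matrix E E (ZMod 2)) (σ : E → Bool) (J : Finset E) : ℂ :=
  ∑ W ∈ (Finset.univ : Finset E).powerset.filter (fun W => J ⊆ W),
    if ∀ W', J ⊆ W' → kap M W ≤ kap M W' then ∏ c ∈ W \ J, evA (al ℂ (σ c)) ^ 2 else 0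

/-- **The polynomial of `J` times the determinant of `D_J`** -/
theorem HVJ (M : Matrix E E (ZMod 2)) (hM : ∀ i j, M i j = M j i) (σ : E → Bool) (B N : ℕ)
    (hB : (SS ℂ M σ).coeff.support.card ≤ B) (hN : 2 * (B + 2) * (M.rank + 1) ≤ N)
    (J : Finset E) (hinj : Set.InjOn M (J : Set E)) (hJ0 : ∀ c ∈ J, M c ≠ 0) (hne : J.Nonempty)
    (x : (E → ZMod 2) → ℂ) (hx0 : ∀ v, x v ≠ 0) (hx1 : ∀ v, v ∉ J.image M → x v = 1)
    (hx : ∀ d, Small ((Finset.univ.image M).erase 0) (tw M σ) N d →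
      ∏ v ∈ (Finset.univ.image M).erase 0, x v ^ d v = 1) :
    PP (J.image M) ⊥ x * detJ M σ J = 0 := by
  classical
  obtain ⟨X, hX⟩ : ∃ X, X = Finset.univ.image M := ⟨_, rfl⟩
  -- the products over the sets
  have hψ : ∀ F ∈ II M, ∀ F' ∈ II M,
      |∑ v ∈ F, tw M σ v - ∑ v ∈ F', tw M σ v| < 2 * ((B : ℤ) + 2) * (M.rank + 1) →
      ∏ v ∈ F, x v = ∏ v ∈ F', x v := by
    intro F hF F' hF' h
    unfold II at hF hF'
    rw [Finset.mem_filter, Finset.mem_powerset, ← hX] at hF hF'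
    have hd0 : ∀ v, v ∉ X.erase 0 → di F F' v = 0 := by
      intro v hv
      rw [Finset.mem_erase, not_and_or, not_not] at hv
      unfold di
      rcases hv with rfl | hv
      · by_cases h0 : (0 : E → ZMod 2) ∈ X
        · rw [if_pos (hF.2.resolve_right (not_not.2 h0)),
            if_pos (hF'.2.resolve_right (not_not.2 h0)), sub_self]
        · rw [if_neg fun h1 => h0 (hF.1 h1), if_neg fun h1 => h0 (hF'.1 h1), sub_self]
      · rw [if_neg fun h1 => hv (hF.1 h1), if_neg fun h1 => hv (hF'.1 h1), sub_self]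
    have hsub : X.erase 0 ⊆ X := Finset.erase_subset _ _
    have hS : Small (X.erase 0) (tw M σ) N (di F F') := by
      refine ⟨fun v => ?_, hd0, ?_⟩
      · unfold di
        by_cases h1 : v ∈ F <;> by_cases h2 : v ∈ F' <;> simp [h1, h2]
      · have h1 := sum_di X F F' hF.1 hF'.1 (tw M σ)
        simp only [Int.cast_id] at h1
        have h2 : ∑ v ∈ X.erase 0, di F F' v * tw M σ v = ∑ v ∈ X, tw M σ v * di F F' v := by
          rw [← Finset.sum_subset hsub fun v _ hv => by rw [hd0 v hv, mul_zero]]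
          exact Finset.sum_congr rfl fun v _ => mul_comm _ _
        rw [h2, h1]
        refine h.trans_le ?_
        have h3 : ((2 * (B + 2) * (M.rank + 1) : ℕ) : ℤ) ≤ N := by exact_mod_cast hN
        push_cast at h3
        exact h3
    rw [← hX] at hx
    have h1 := hx _ hS
    have h2 : ∏ v ∈ X, x v ^ di F F' v = 1 := by
      rw [← h1, ← Finset.prod_subset hsub fun v _ hv => by rw [hd0 v hv, _root_.zpow_zero]]
    have h3 : ∀ F : Finset (E → ZMod 2), F ⊆ X →
        ∏ v ∈ F, x v = ∏ v ∈ X, x v ^ (if v ∈ F then (1 : ℤ) else 0) := by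
      intro F hF
      rw [← Finset.prod_subset hF]
      · refine Finset.prod_congr rfl fun v hv => ?_
        rw [if_pos hv, zpow_one]
      · intro v _ hv
        rw [if_neg hv, _root_.zpow_zero]
    have h4 : (∏ v ∈ X, x v ^ di F F' v) * ∏ v ∈ F', x v = ∏ v ∈ F, x v := by
      rw [h3 F hF.1, h3 F' hF'.1, ← Finset.prod_mul_distrib]
      refine Finset.prod_congr rfl fun v _ => ?_
      rw [← zpow_add₀ (hx0 v)]
      congr 1
      unfold di
      ring
    rw [← h4, h2, one_mul]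
  obtain ⟨t, ht⟩ := HV_cluster ℂ M hM σ B hB (fun F => ∏ v ∈ F, x v) hψ
  have hJX : J.image M ⊆ Finset.univ.image M := Finset.image_subset_image (Finset.subset_univ J)
  obtain ⟨s, hs⟩ := split_mod M hM σ (J.image M) hJX x hx1
  obtain ⟨ρ, hρ⟩ : ∃ ρ, ρ = finrank (ZMod 2) (span (ZMod 2) ((J.image M : Finset (E → ZMod 2)) :
    Set (E → ZMod 2))) := ⟨_, rfl⟩
  have hρr : ρ ≤ M.rank := by
    rw [hρ]
    exact rank_ge M _ hJX
  have hρJ : ρ ≤ J.card := by
    rw [hρ]
    exact (finrank_span_finset_le_card _).trans Finset.card_image_le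
  have hρ1 : 1 ≤ ρ := by
    rw [hρ, Nat.one_le_iff_ne_zero]
    intro h
    rw [Submodule.finrank_eq_zero, span_eq_bot] at h
    obtain ⟨c, hc⟩ := hne
    exact hJ0 c hc (h _ (Finset.mem_coe.2 (Finset.mem_image_of_mem M hc)))
  rw [ht, ← hρ] at hs
  -- the sum over the states
  obtain ⟨Γ, hΓ⟩ : ∃ Γ : ℂ[T;T⁻¹], Γ = ∑ W ∈ (Finset.univ : Finset E).powerset.filter
      (fun W => J ⊆ W), (∏ c ∈ J, qu ℂ (σ c)) * (∏ c ∈ W \ J, al ℂ (σ c) ^ 2) *
        dl ℂ ^ (kap M W - (J.card - ρ)) := ⟨_, rfl⟩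
  have hge : ∀ W, J ⊆ W → J.card - ρ ≤ kap M W := by
    intro W hW
    have h1 := kap_ge M hM J W hW
    rw [← hρ] at h1
    omega
  have hgg : gg ℂ M σ J = dl ℂ ^ (J.card - ρ) * Γ := by
    rw [hΓ, Finset.mul_sum]
    unfold gg
    refine Finset.sum_congr rfl fun W hW => ?_
    have h1 := hge W (Finset.mem_filter.1 hW).2
    have h2 : kap M W = (J.card - ρ) + (kap M W - (J.card - ρ)) := by omega
    conv_lhs => rw [h2, pow_add]
    ring
  have h1 := HJ_eq M hM σ J hinj
  rw [hgg] at h1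
  obtain ⟨Q, hQ⟩ : ∃ Q, Q = ∏ v ∈ J.image M, pw M (fun c => qu ℂ (σ c)) Finset.univ v :=
    ⟨_, rfl⟩
  rw [← hQ] at h1
  have hdl := dl_ne0
  have h2 : Q * HJ M σ (J.image M) = dl ℂ ^ (M.rank - ρ) * Γ := by
    have h3 : dl ℂ ^ J.card * (Q * HJ M σ (J.image M)) =
        dl ℂ ^ J.card * (dl ℂ ^ (M.rank - ρ) * Γ) := by
      rw [h1, ← mul_assoc, ← mul_assoc, ← pow_add, ← pow_add]
      congr 2
      omega
    exact mul_left_cancel₀ (pow_ne_zero _ hdl) h3
  have h3 : PJ M σ (J.image M) x * Γ = dl ℂ * (Q * (dl ℂ ^ (ρ - 1) * t) - Q * s) := by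
    have h4 : dl ℂ ^ (M.rank - ρ) * (PJ M σ (J.image M) x * Γ) =
        dl ℂ ^ (M.rank - ρ) * (dl ℂ * (Q * (dl ℂ ^ (ρ - 1) * t) - Q * s)) := by
      have h5 : dl ℂ ^ M.rank = dl ℂ ^ (M.rank - ρ) * (dl ℂ * dl ℂ ^ (ρ - 1)) := by
        rw [← pow_succ', ← pow_add]
        congr 1
        omega
      rw [h5, pow_succ] at hs
      linear_combination (PJ M σ (J.image M) x) * (-h2) + (-Q) * hs
    exact mul_left_cancel₀ (pow_ne_zero _ hdl) h4
  have h4 := congrArg evA h3
  rw [map_mul, map_mul, evA_dl, zero_mul, evA_PJ] at h4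
  rw [← h4]
  congr 1
  rw [hΓ, map_sum]
  unfold detJ
  refine Finset.sum_congr rfl fun W hW => ?_
  have hJW := (Finset.mem_filter.1 hW).2
  have h5 : (∀ W', J ⊆ W' → kap M W ≤ kap M W') ↔ kap M W = J.card - ρ := by
    constructor
    · intro h
      obtain ⟨W', hW', h6⟩ := kap_min M hM J
      rw [← hρ] at h6
      have h7 := h W' hW'
      have h8 := hge W hJW
      omega
    · intro h W' hW'
      rw [h]
      exact hge W' hW'
  rw [map_mul, map_mul, map_prod, map_prod, map_pow, evA_dl,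
    Finset.prod_eq_one fun c _ => evA_qu _, one_mul]
  by_cases h6 : kap M W = J.card - ρ
  · rw [if_pos (h5.2 h6), h6, Nat.sub_self, pow_zero, mul_one]
    refine Finset.prod_congr rfl fun c _ => ?_
    rw [map_pow]
  · rw [if_neg fun h => h6 (h5.1 h)]
    have h7 := hge W hJW
    rw [zero_pow (by omega), mul_zero]

end

end Pool.Agent.NHT
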