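import Mathlib
import Pool.Agent.NHT.HVJ
import Pool.Agent.NHT.Defs3
import Pool.Agent.SRH.FOL

/-!
# NHT, version 3, module KDet: the determinant of the diagram in which the classes of `J` are cut
(helper38)
-/

set_option autoImplicit false
set_option linter.unusedSectionVars false

open Module Submodule Pool.Agent.UNI LaurentPolynomial Pool.Agent.SPT Pool.Agent.SPT.Rel
  Pool.Agent.SPT.Lin Pool.Agent.SRH Pool.Agent.EQT Pool.Agent.FHP

namespace Pool.Agent.NHT

open Pool.Agent.Helper16.Knotoid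

theorem A0_val : (A0 : ℂ) = zeta := rfl

theorem evA_al (b : Bool) : evA (al ℂ b) = if b then zeta else zeta⁻¹ := by
  unfold al
  cases b
  · simp only [Bool.false_eq_true, if_false]
    rw [evA_T, A0_val, _root_.zpow_neg, zpow_one]
  · simp only [if_true]
    rw [evA_T, A0_val, zpow_one]

theorem zeta_ne : zeta ≠ 0 := Complex.exp_ne_zero _

theorem evA_al_ne (b : Bool) : evA (al ℂ b) ≠ 0 := by
  rw [evA_al]
  cases b
  · simpa using inv_ne_zero zeta_ne
  · simpa using zeta_ne

variable {n : ℕ}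

theorem prod_st (σ : Fin n → Bool) (W : Finset (Fin n)) :
    ∏ c, al ℂ (st σ W c) = PF ℂ σ * ∏ c ∈ W, al ℂ (σ c) ^ 2 := by
  have h6 : ∀ c, al ℂ (st σ W c) = al ℂ (!σ c) * (if c ∈ W then al ℂ (σ c) ^ 2 else 1) := by
    intro c
    unfold st
    by_cases hc : c ∈ W
    · rw [if_pos hc, if_pos hc]
      exact al_not (σ c)
    · rw [if_neg hc, if_neg hc, mul_one]
  unfold PF
  rw [Finset.prod_congr rfl fun c _ => h6 c, Finset.prod_mul_distrib,
    Finset.prod_ite_mem, Finset.univ_inter]

theorem zeta_stateSign (s : Fin n → Bool) :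
    zeta ^ GaussDiagram.stateSign s = ∏ c, evA (al ℂ (s c)) := by
  have h1 : ∏ c, evA (al ℂ (s c)) = evA (T (GaussDiagram.stateSign s)) := by
    unfold GaussDiagram.stateSign
    rw [T_sum', map_prod]
    refine Finset.prod_congr rfl fun c _ => ?_
    unfold al
    cases s c
    · simp only [Bool.false_eq_true, if_false]
    · simp only [if_true]
  rw [h1, evA_T, A0_val]

theorem comps_st (D : GaussDiagram n) (σ : Fin n → Bool) (W : Finset (Fin n)) :
    D.comps (st σ W) = kap (D.gmat σ) W + 1 := by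
  rw [D.comps_eq, gmat_SM D σ (st σ W), SM_st, add_comm]
  rfl

/-- the determinant in terms of the cut matrix -/
theorem cutDetO_eq (D : GaussDiagram n) (J : Finset (Fin n)) :
    ∃ u : ℂ, u ≠ 0 ∧ cutDetO D J = u * detJ (D.gmat (cutState D.Interlaced D.sign))
      (cutState D.Interlaced D.sign) J := by
  classical
  obtain ⟨σ, hσ⟩ : ∃ σ, σ = cutState D.Interlaced D.sign := ⟨_, rfl⟩
  rw [← hσ]
  refine ⟨evA (PF ℂ σ) * ∏ c ∈ J, evA (al ℂ (σ c)) ^ 2, ?_, ?_⟩
  · refine mul_ne_zero ?_ (Finset.prod_ne_zero_iff.2 fun c _ => pow_ne_zero _ (evA_al_ne _))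
    unfold PF
    rw [map_prod]
    exact Finset.prod_ne_zero_iff.2 fun c _ => evA_al_ne _
  have hcut : ∀ W : Finset (Fin n), CutsO D J (st σ W) ↔ J ⊆ W := by
    intro W
    unfold CutsO
    rw [← hσ]
    constructor
    · intro h c hc
      exact (st_iff σ W c).1 (h c hc)
    · intro h c hc
      exact (st_iff σ W c).2 (h hc)
  have hleast : ∀ W : Finset (Fin n), (∀ s', CutsO D J s' → D.comps (st σ W) ≤ D.comps s') ↔
      ∀ W', J ⊆ W' → kap (D.gmat σ) W ≤ kap (D.gmat σ) W' := by
    intro W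
    constructor
    · intro h W' hW'
      have h1 := h (st σ W') ((hcut W').2 hW')
      rw [comps_st, comps_st] at h1
      omega
    · intro h s' hs'
      have h1 := st_filter σ s'
      rw [← h1] at hs' ⊢
      have h2 := h _ ((hcut _).1 hs')
      rw [comps_st, comps_st]
      omega
  unfold cutDetO detJ
  rw [Lin.sum_st' σ, Finset.sum_filter, Finset.mul_sum]
  refine Finset.sum_congr rfl fun W _ => ?_
  by_cases hJW : J ⊆ W
  · rw [if_pos hJW]
    by_cases hl : ∀ W', J ⊆ W' → kap (D.gmat σ) W ≤ kap (D.gmat σ) W'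
    · rw [if_pos ⟨(hcut W).2 hJW, (hleast W).2 hl⟩, if_pos hl, zeta_stateSign]
      have h1 := congrArg evA (prod_st σ W)
      rw [map_prod, map_mul, map_prod] at h1
      rw [h1]
      have h2 : ∏ c ∈ W, evA (al ℂ (σ c) ^ 2) =
          (∏ c ∈ J, evA (al ℂ (σ c)) ^ 2) * ∏ c ∈ W \ J, evA (al ℂ (σ c)) ^ 2 := by
        rw [← Finset.prod_sdiff hJW, mul_comm]
        simp only [map_pow]
      rw [h2]
      ring
    · rw [if_neg fun h => hl ((hleast W).1 h.2), if_neg hl, mul_zero]
  · rw [if_neg fun h => hJW ((hcut W).1 h.1), if_neg hJW, mul_zero]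

/-- **The polynomial of `J` times the determinant of `D_J`, knotoid diagrams** -/
theorem knotoidHVJ (D : GaussDiagram n) (B N : ℕ)
    (hB : D.normalizedBracket.coeff.support.card ≤ B) (S : Finset (Fin n))
    (hS : Transversal D.Interlaced S) (hN : 2 * (B + 2) * (S.card + 1) ≤ N) (J : Finset (Fin n))
    (hJ : J ⊆ S) (hne : J.Nonempty) (x : (Fin n → ZMod 2) → ℂ) (hx0 : ∀ v, x v ≠ 0)
    (hx1 : ∀ v, v ∉ J.image (row (Graph_R D.Interlaced D.sign)) → x v = 1)
    (hx : ∀ d, Small (S.image (row (Graph_R D.Interlaced D.sign)))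
      (twist (Graph_R D.Interlaced D.sign) (cutState D.Interlaced D.sign)) N d →
      ∏ v ∈ S.image (row (Graph_R D.Interlaced D.sign)), x v ^ d v = 1) :
    PP (J.image (row (Graph_R D.Interlaced D.sign))) ⊥ x = 0 ∨ cutDetO D J = 0 := by
  classical
  obtain ⟨σ, hσ⟩ : ∃ σ, σ = cutState D.Interlaced D.sign := ⟨_, rfl⟩
  have hR : Graph_R D.Interlaced D.sign = D.Cut σ := by
    rw [hσ]
    rfl
  have hr : ∀ c, row (Graph_R D.Interlaced D.sign) c = D.gmat σ c := by
    intro c
    rw [hR]
    exact row_eq D σ c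
  have hr' : row (Graph_R D.Interlaced D.sign) = fun c => D.gmat σ c := funext hr
  have hrows : S.image (row (Graph_R D.Interlaced D.sign)) =
      (Finset.univ.image (D.gmat σ)).erase 0 := by
    rw [← Graph_image (Graph_irrefl D) (Graph_int_symm D) hS]
    unfold rows
    rw [hr']
  have htw : ∀ v, twist (Graph_R D.Interlaced D.sign) σ v = tw (D.gmat σ) σ v := by
    intro v
    unfold twist tw SPT.signedCount
    refine Finset.sum_congr ?_ fun _ _ => rfl
    ext c
    rw [Finset.mem_filter, Finset.mem_filter, hr]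
  have htw' : twist (Graph_R D.Interlaced D.sign) σ = tw (D.gmat σ) σ := funext htw
  rw [← hσ, htw', hrows] at hx
  have hinj : Set.InjOn (D.gmat σ) (J : Set (Fin n)) := by
    intro i hi j hj h
    exact Graph_inj (e := D.sign) (Graph_irrefl D) (Graph_int_symm D) hS (hJ hi) (hJ hj)
      (by rw [hr, hr]; exact h)
  have hJ0 : ∀ c ∈ J, D.gmat σ c ≠ 0 := by
    intro c hc
    rw [← hr]
    exact (Graph_ne c).2 (hS.1 c (hJ hc))
  have hrank : (D.gmat σ).rank ≤ S.card := by
    have h1 := SRH.rank_le D σ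
    rw [← hR, Graph_image (Graph_irrefl D) (Graph_int_symm D) hS] at h1
    exact h1.trans Finset.card_image_le
  have hN' : 2 * (B + 2) * ((D.gmat σ).rank + 1) ≤ N :=
    (Nat.mul_le_mul_left _ (by omega)).trans hN
  have hx1' : ∀ v, v ∉ J.image (D.gmat σ) → x v = 1 := by
    intro v hv
    refine hx1 v ?_
    rw [hr']
    exact hv
  have h1 := HVJ (D.gmat σ) (D.gmat_symm σ) σ B N (card_SSC D σ B hB) hN' J hinj hJ0 hne x hx0
    hx1' hx
  rcases mul_eq_zero.1 h1 with h2 | h2
  · left
    rw [hr']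
    exact h2
  · right
    obtain ⟨u, -, hu⟩ := cutDetO_eq D J
    rw [hu, ← hσ, h2, mul_zero]

/-! ### knot diagrams -/

theorem interlaced_fun (g : GaussJones.Code n) (e : Fin n → Bool) :
    (cutOpen g e).Interlaced = GaussJones.Interlaced g := by
  funext i j
  exact propext (interlaced_iff g e i j).symm

theorem cutDet_eq (hn : 0 < n) (g : GaussJones.Code n) (e : Fin n → Bool) (J : Finset (Fin n)) :
    cutDet g e J = cutDetO (cutOpen g e) J := by
  classical
  have hcuts : ∀ s, Cuts g J (swE e s) ↔ CutsO (cutOpen g e) J s := by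
    intro s
    unfold Cuts CutsO
    rw [interlaced_fun]
    refine forall₂_congr fun i _ => ?_
    show (s i == e i) = cutAll (GaussJones.Interlaced g) i ↔
      s i = cutState (GaussJones.Interlaced g) e i
    unfold cutAll cutState
    by_cases h : ∃ j, Twins (GaussJones.Interlaced g) i j ∧ GaussJones.Interlaced g i j
    · rw [if_pos h, if_pos h]
      cases s i <;> cases e i <;> decide
    · rw [if_neg h, if_neg h]
      cases s i <;> cases e i <;> decide
  have hloops : ∀ s, GaussJones.loops g (swE e s) = (cutOpen g e).comps s :=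
    fun s => loops_closed hn g e s
  unfold cutDet cutDetO
  rw [← (swE e).sum_comp]
  refine Finset.sum_congr rfl fun s _ => ?_
  have h1 : (Cuts g J (swE e s) ∧ ∀ s', Cuts g J s' →
      GaussJones.loops g (swE e s) ≤ GaussJones.loops g s') ↔
      (CutsO (cutOpen g e) J s ∧ ∀ s', CutsO (cutOpen g e) J s' →
        (cutOpen g e).comps s ≤ (cutOpen g e).comps s') := by
    refine and_congr (hcuts s) ⟨fun h s' hs' => ?_, fun h s' hs' => ?_⟩
    · have h2 := h (swE e s') ((hcuts s').2 hs')
      rw [hloops, hloops] at h2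
      exact h2
    · obtain ⟨t, rfl⟩ := (swE e).surjective s'
      have h2 := h t ((hcuts t).1 hs')
      rw [hloops, hloops]
      exact h2
  by_cases h2 : CutsO (cutOpen g e) J s ∧ ∀ s', CutsO (cutOpen g e) J s' →
      (cutOpen g e).comps s ≤ (cutOpen g e).comps s'
  · rw [if_pos (h1.2 h2), if_pos h2, zeta_stateSign]
    refine Finset.prod_congr rfl fun i _ => ?_
    rw [evA_al]
    show (if (s i == e i) = e i then _ else _) = _
    cases s i <;> cases e i <;> rfl
  · rw [if_neg fun h => h2 (h1.1 h), if_neg h2]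

/-- **The polynomial of `J` times the determinant of `D_J`, knot diagrams** -/
theorem knotHVJ (g : GaussJones.Code n) (e : Fin n → Bool) (B N : ℕ)
    (hB : (GaussJones.fPoly g e).coeff.support.card ≤ B) (S : Finset (Fin n))
    (hS : Transversal (GaussJones.Interlaced g) S) (hN : 2 * (B + 2) * (S.card + 1) ≤ N)
    (J : Finset (Fin n)) (hJ : J ⊆ S) (hne : J.Nonempty) (x : (Fin n → ZMod 2) → ℂ)
    (hx0 : ∀ v, x v ≠ 0)
    (hx1 : ∀ v, v ∉ J.image (row (Graph_R (GaussJones.Interlaced g) e)) → x v = 1)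
    (hx : ∀ d, Small (S.image (row (Graph_R (GaussJones.Interlaced g) e)))
      (twist (Graph_R (GaussJones.Interlaced g) e) (cutState (GaussJones.Interlaced g) e)) N d →
      ∏ v ∈ S.image (row (Graph_R (GaussJones.Interlaced g) e)), x v ^ d v = 1) :
    PP (J.image (row (Graph_R (GaussJones.Interlaced g) e))) ⊥ x = 0 ∨ cutDet g e J = 0 := by
  classical
  have hn : 0 < n := by
    obtain ⟨i, -⟩ := hne
    exact i.pos
  have h1 := interlaced_fun g e
  rw [f_closed hn] at hB
  rw [cutDet_eq hn]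
  rw [← h1] at hS hx1 hx ⊢
  exact knotoidHVJ (cutOpen g e) B N hB S hS hN J hJ hne x hx0 hx1 hx

end Pool.Agent.NHT
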