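import Mathlib
import Pool.Agent.NHT.FOLJ

/-!
# NHT, version 7, module FOLK: followers for a part of the classes, with a better threshold (helper38)

The threshold is `(|J| + 1)! * (n + s)`, where `n = 2 (B + 2) (k + 1)` and `s` is the sum of the absolute
values of the twist numbers of the classes which are not in `J`.
-/

set_option autoImplicit false
set_option linter.unusedSectionVars false

open Module Submodule Pool.Agent.UNI LaurentPolynomial Pool.Agent.SPT Pool.Agent.SPT.Rel
  Pool.Agent.SPT.Lin Pool.Agent.SRH Pool.Agent.EQT Pool.Agent.FHP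

namespace Pool.Agent.NHT

open Pool.Agent.Helper16.Knotoid

/-- the thresholds -/
theorem folK_le (m j N : ℕ) (hm : m ≤ j) (hN : 1 ≤ N) :
    m * m.factorial * (N - 1) < (j + 1).factorial * N := by
  have h1 : (j + 1).factorial = (j + 1) * j.factorial := Nat.factorial_succ j
  have h2 : 0 < j.factorial := Nat.factorial_pos j
  have h3 : m * m.factorial ≤ j * j.factorial := Nat.mul_le_mul hm (Nat.factorial_le hm)
  calc m * m.factorial * (N - 1) ≤ j * j.factorial * N := Nat.mul_le_mul h3 (Nat.sub_le N 1)
    _ < (j + 1) * j.factorial * N := by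
        refine Nat.mul_lt_mul_of_pos_right ?_ hN
        exact Nat.mul_lt_mul_of_pos_right (by omega) h2
    _ = (j + 1).factorial * N := by rw [h1]

variable {n : ℕ}

/-- **Followers for `J`, knotoid diagrams** -/
theorem knotoidFOLK (D : GaussDiagram n) (B : ℕ)
    (hB : D.normalizedBracket.coeff.support.card ≤ B) (S : Finset (Fin n))
    (hS : Transversal D.Interlaced S) (J : Finset (Fin n)) (hJ : J ⊆ S) (hne : J.Nonempty)
    (hdet : cutDetO D J ≠ 0) (T : ℕ)
    (hT : T = (J.card + 1).factorial * (2 * (B + 2) * (S.card + 1) +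
      ∑ j ∈ S \ J, (cutTwist D.Interlaced D.sign j).natAbs)) :
    ∃ u : (Fin n → ZMod 2) → ℤ,
      Follows (J.image (row (Graph_R D.Interlaced D.sign)))
        (twist (Graph_R D.Interlaced D.sign) (cutState D.Interlaced D.sign)) u
        (2 * (B + 2) * (S.card + 1) +
          ∑ j ∈ S \ J, (cutTwist D.Interlaced D.sign j).natAbs - 1) T ∧
      (∀ v ∈ J.image (row (Graph_R D.Interlaced D.sign)),
        (T : ℤ) ≤ |twist (Graph_R D.Interlaced D.sign) (cutState D.Interlaced D.sign) v| →
        0 < twist (Graph_R D.Interlaced D.sign) (cutState D.Interlaced D.sign) v * u v) ∧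
      ¬ NZu (J.image (row (Graph_R D.Interlaced D.sign))) u := by
  classical
  have hi := Graph_irrefl D
  have hs := Graph_int_symm D
  have hinj := Graph_inj (e := D.sign) hi hs hS
  have h0 : 0 < 2 * (B + 2) * (S.card + 1) := by positivity
  refine folJ_aux (S.image (row (Graph_R D.Interlaced D.sign)))
    (J.image (row (Graph_R D.Interlaced D.sign))) (Finset.image_subset_image hJ)
    (twist (Graph_R D.Interlaced D.sign) (cutState D.Interlaced D.sign))
    (2 * (B + 2) * (S.card + 1)) (∑ j ∈ S \ J, (cutTwist D.Interlaced D.sign j).natAbs) _ ?_ ?_ ?_ ?_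
  · omega
  · have h1 : S.image (row (Graph_R D.Interlaced D.sign)) \
        J.image (row (Graph_R D.Interlaced D.sign)) ⊆
        (S \ J).image (row (Graph_R D.Interlaced D.sign)) := by
      intro v hv
      obtain ⟨hv1, hv2⟩ := Finset.mem_sdiff.1 hv
      obtain ⟨i, hi', rfl⟩ := Finset.mem_image.1 hv1
      refine Finset.mem_image_of_mem _ (Finset.mem_sdiff.2 ⟨hi', fun h => ?_⟩)
      exact hv2 (Finset.mem_image_of_mem _ h)
    refine (Finset.sum_le_sum_of_subset_of_nonneg h1 fun _ _ _ => abs_nonneg _).trans ?_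
    rw [Finset.sum_image fun i hi' j hj h =>
      hinj (Finset.mem_sdiff.1 hi').1 (Finset.mem_sdiff.1 hj).1 h]
    push_cast
    refine Finset.sum_le_sum fun i _ => ?_
    rw [twist_row hi hs i]
  · rw [hT]
    exact folK_le _ _ _ Finset.card_image_le (by omega)
  · intro x hx0 hx1 hx
    rcases knotoidHVJ D B _ hB S hS le_rfl J hJ hne x hx0 hx1 hx with h | h
    · exact h
    · exact absurd h hdet

/-- **Followers for `J`, knot diagrams** -/
theorem knotFOLK (g : GaussJones.Code n) (e : Fin n → Bool) (B : ℕ)
    (hB : (GaussJones.fPoly g e).coeff.support.card ≤ B) (S : Finset (Fin n))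
    (hS : Transversal (GaussJones.Interlaced g) S) (J : Finset (Fin n)) (hJ : J ⊆ S)
    (hne : J.Nonempty) (hdet : cutDet g e J ≠ 0) (T : ℕ)
    (hT : T = (J.card + 1).factorial * (2 * (B + 2) * (S.card + 1) +
      ∑ j ∈ S \ J, (cutTwist (GaussJones.Interlaced g) e j).natAbs)) :
    ∃ u : (Fin n → ZMod 2) → ℤ,
      Follows (J.image (row (Graph_R (GaussJones.Interlaced g) e)))
        (twist (Graph_R (GaussJones.Interlaced g) e) (cutState (GaussJones.Interlaced g) e)) u
        (2 * (B + 2) * (S.card + 1) +
          ∑ j ∈ S \ J, (cutTwist (GaussJones.Interlaced g) e j).natAbs - 1) T ∧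
      (∀ v ∈ J.image (row (Graph_R (GaussJones.Interlaced g) e)),
        (T : ℤ) ≤
          |twist (Graph_R (GaussJones.Interlaced g) e) (cutState (GaussJones.Interlaced g) e) v| →
        0 < twist (Graph_R (GaussJones.Interlaced g) e) (cutState (GaussJones.Interlaced g) e) v *
          u v) ∧
      ¬ NZu (J.image (row (Graph_R (GaussJones.Interlaced g) e))) u := by
  classical
  have hn : 0 < n := by
    obtain ⟨i, -⟩ := hne
    exact i.pos
  have h1 := interlaced_fun g e
  rw [f_closed hn] at hB
  rw [cutDet_eq hn] at hdet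
  rw [← h1] at hS hT ⊢
  exact knotoidFOLK (cutOpen g e) B hB S hS J hJ hne hdet T hT

end Pool.Agent.NHT
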