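import Mathlib
import Pool.Agent.SRH.Signs

/-!
# NHT, module Near: followers with signs which are close to a multiple of the given vector

The proofs are those of helper36 (SRH/Signs), with one more conclusion.
-/

set_option autoImplicit false
set_option linter.unusedSectionVars false

open Module Matrix Submodule Pool.Agent.UNI LaurentPolynomial Pool.Agent.SPT Pool.Agent.SPT.Rel
  Pool.Agent.SPT.Lin Pool.Agent.SRH

namespace Pool.Agent.NHT

open Pool.Agent.Helper16.Knotoid

/-- **Signs**: an integral vector orthogonal to the given vectors, with the signs of the large entries -/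
theorem exists_signs_near {κ : Type} [Fintype κ] [DecidableEq κ] (R : Set (κ → ℤ))
    (hR : ∀ d ∈ R, ∀ i, |d i| ≤ 1) (a : κ → ℤ) (δ T : ℕ) (ha : ∀ d ∈ R, |∑ i, d i * a i| ≤ δ)
    (hT : Fintype.card κ * (Fintype.card κ).factorial * δ < T) :
    ∃ w : κ → ℤ, (∀ d ∈ R, ∑ i, d i * w i = 0) ∧ (∀ i, (T : ℤ) ≤ |a i| → 0 < a i * w i) ∧
      ∃ D : ℤ, 1 ≤ D ∧ ∀ i, |w i - D * a i| ≤
        D * ((Fintype.card κ * (Fintype.card κ).factorial * δ : ℕ) : ℤ) := by
  classical
  obtain ⟨b, hbR, hbs, hbi⟩ := exists_linearIndependent ℚ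
    ((fun (d : κ → ℤ) i => ((d i : ℤ) : ℚ)) '' R)
  have : Fintype b := hbi.setFinite.fintype
  choose g hg hgb using fun j : b => hbR j.2
  have hli : LinearIndependent ℚ fun (j : b) i => ((g j i : ℤ) : ℚ) := by
    have h1 : (fun (j : b) i => ((g j i : ℤ) : ℚ)) = ((↑) : b → κ → ℚ) := by
      funext j
      exact hgb j
    rw [h1]
    exact hbi
  have hcard : Fintype.card b ≤ Fintype.card κ := by
    have h1 := hbi.fintype_card_le_finrank
    rwa [Module.finrank_fintype_fun_eq_card] at h1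
  obtain ⟨f, hf⟩ := minor_ne (Matrix.of fun j i => ((g j i : ℤ) : ℚ)) hli
  obtain ⟨A, hA⟩ : ∃ A : Matrix b b ℤ, A = Matrix.of fun j i => g j (f i) := ⟨_, rfl⟩
  have hdet : A.det ≠ 0 := by
    intro h0
    apply hf
    have h1 : (Matrix.of fun j i => ((g j i : ℤ) : ℚ)).submatrix id f =
        A.map (Int.castRingHom ℚ) := by
      ext l i
      rw [hA]
      rfl
    rw [h1]
    have h2 := (Int.castRingHom ℚ).map_det A
    rw [h0, map_zero] at h2
    exact h2.symm
  have hfi : Function.Injective f := by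
    intro i j hij
    by_contra hne
    apply hdet
    refine Matrix.det_zero_of_column_eq hne fun k => ?_
    rw [hA]
    change g k (f i) = g k (f j)
    rw [hij]
  obtain ⟨β, hβ⟩ : ∃ β : b → ℤ, β = fun j => ∑ i, g j i * a i := ⟨_, rfl⟩
  have hβle : ∀ j, |β j| ≤ δ := by
    intro j
    rw [hβ]
    exact ha _ (hg j)
  obtain ⟨y, hy⟩ : ∃ y : b → ℤ, y = cramer A β := ⟨_, rfl⟩
  have h2 : ∀ j, ∑ i, g j (f i) * y i = A.det * β j := by
    intro j
    have h3 := congrFun (Matrix.mulVec_cramer A β) j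
    rw [← hy] at h3
    have h4 : (A *ᵥ y) j = ∑ i, g j (f i) * y i := by
      rw [hA]
      rfl
    rw [← h4, h3]
    rfl
  have hyb : ∀ i, |y i| ≤ ((Fintype.card κ * (Fintype.card κ).factorial * δ : ℕ) : ℤ) := by
    intro i
    have h3 : y i = ∑ j, β j * cramer A (Pi.single j 1) i := by
      rw [hy]
      have h4 : β = ∑ j, β j • (Pi.single j (1 : ℤ) : b → ℤ) := by
        funext l
        rw [Finset.sum_apply]
        simp [Pi.single_apply]
      conv_lhs => rw [h4]
      rw [map_sum, Finset.sum_apply]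
      refine Finset.sum_congr rfl fun j _ => ?_
      rw [map_smul, Pi.smul_apply, smul_eq_mul]
    rw [h3]
    refine (Finset.abs_sum_le_sum_abs _ _).trans ?_
    have h4 : ∀ j ∈ (Finset.univ : Finset b), |β j * cramer A (Pi.single j 1) i| ≤
        (Fintype.card κ).factorial * δ := by
      intro j _
      rw [abs_mul, mul_comm]
      refine mul_le_mul ?_ (hβle j) (abs_nonneg _) (by positivity)
      rw [cramer_apply]
      have h5 := Matrix.det_le (A := A.updateCol i (Pi.single j 1)) (abv := AbsoluteValue.abs)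
        (x := 1) (by
          intro p l
          change |A.updateCol i (Pi.single j 1) p l| ≤ 1
          rw [Matrix.updateCol_apply]
          split_ifs
          · rw [Pi.single_apply]
            split_ifs <;> simp
          · rw [hA]
            exact hR _ (hg p) _)
      rw [one_pow, nsmul_eq_mul, mul_one] at h5
      refine le_trans h5 ?_
      exact_mod_cast Nat.factorial_le hcard
    refine (Finset.sum_le_card_nsmul _ _ _ h4).trans ?_
    rw [nsmul_eq_mul, Finset.card_univ]
    push_cast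
    rw [mul_assoc]
    refine mul_le_mul_of_nonneg_right ?_ (by positivity)
    exact_mod_cast hcard
  obtain ⟨x, hx⟩ : ∃ x : κ → ℤ, x = fun v => ∑ i, if f i = v then y i else 0 := ⟨_, rfl⟩
  have hxs : ∀ j, ∑ v, g j v * x v = A.det * β j := by
    intro j
    rw [← h2 j, hx]
    simp only [Finset.mul_sum]
    rw [Finset.sum_comm]
    refine Finset.sum_congr rfl fun i _ => ?_
    rw [Finset.sum_eq_single (f i)]
    · rw [if_pos rfl]
    · intro v _ hv
      rw [if_neg fun h => hv h.symm, mul_zero]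
    · intro h
      exact absurd (Finset.mem_univ _) h
  have hxb : ∀ v, |x v| ≤ ((Fintype.card κ * (Fintype.card κ).factorial * δ : ℕ) : ℤ) := by
    intro v
    by_cases hv : ∃ i, f i = v
    · obtain ⟨i, hi⟩ := hv
      have h3 : x v = y i := by
        rw [hx]
        change (∑ l, if f l = v then y l else 0) = y i
        rw [Finset.sum_eq_single i]
        · rw [if_pos hi]
        · intro l _ hl
          rw [if_neg]
          intro h
          exact hl (hfi (h.trans hi.symm))
        · intro h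
          exact absurd (Finset.mem_univ _) h
      rw [h3]
      exact hyb i
    · have h3 : x v = 0 := by
        rw [hx]
        refine Finset.sum_eq_zero fun l _ => ?_
        rw [if_neg]
        intro h
        exact hv ⟨l, h⟩
      rw [h3, abs_zero]
      positivity
  obtain ⟨w, hw⟩ : ∃ w : κ → ℤ, w = fun v => A.det * (A.det * a v - x v) := ⟨_, rfl⟩
  have hwg : ∀ j, ∑ v, g j v * w v = 0 := by
    intro j
    have h3 : ∑ v, g j v * w v = A.det * (A.det * ∑ v, g j v * a v - ∑ v, g j v * x v) := by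
      rw [hw, mul_sub, Finset.mul_sum, Finset.mul_sum, Finset.mul_sum, ← Finset.sum_sub_distrib]
      exact Finset.sum_congr rfl fun v _ => by ring
    rw [h3, hxs j, hβ]
    ring
  refine ⟨w, ?_, ?_, A.det * A.det, ?_, ?_⟩
  · intro d hd
    obtain ⟨φ, hφ⟩ : ∃ φ : (κ → ℚ) →ₗ[ℚ] ℚ, ∀ v, φ v = ∑ i, v i * ((w i : ℤ) : ℚ) :=
      ⟨∑ i, ((w i : ℤ) : ℚ) • LinearMap.proj i, fun v => by
        rw [LinearMap.sum_apply]
        refine Finset.sum_congr rfl fun i _ => ?_
        rw [LinearMap.smul_apply, LinearMap.proj_apply, smul_eq_mul, mul_comm]⟩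
    have h3 : span ℚ b ≤ LinearMap.ker φ := by
      rw [span_le]
      intro v hv
      show v ∈ LinearMap.ker φ
      rw [LinearMap.mem_ker, hφ]
      have h4 := hgb ⟨v, hv⟩
      have h5 := hwg ⟨v, hv⟩
      have h6 : ∀ i, v i = ((g ⟨v, hv⟩ i : ℤ) : ℚ) := fun i => (congrFun h4 i).symm
      simp only [h6]
      exact_mod_cast h5
    have h4 : (fun i => ((d i : ℤ) : ℚ)) ∈ LinearMap.ker φ := by
      apply h3
      rw [hbs]
      exact subset_span ⟨d, hd, rfl⟩
    rw [LinearMap.mem_ker, hφ] at h4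
    exact_mod_cast h4
  · intro i hi
    have h3 := hxb i
    have h4 : ((Fintype.card κ * (Fintype.card κ).factorial * δ : ℕ) : ℤ) < (T : ℤ) := by
      exact_mod_cast hT
    have h5 : |x i| < |a i| := by omega
    have h6 : 1 ≤ |A.det| := Int.one_le_abs hdet
    obtain ⟨D, hD⟩ : ∃ D : ℤ, D = A.det := ⟨_, rfl⟩
    rw [← hD] at h6 hw
    rw [hw]
    change 0 < a i * (D * (D * a i - x i))
    have h7 : D * a i * x i ≤ |D| * |a i| * |x i| := by
      rw [← abs_mul, ← abs_mul]
      exact le_abs_self _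
    have h8 : |D| * |a i| * |x i| < |D| * |a i| * (|D| * |a i|) := by
      have h9 : 0 < |a i| := lt_of_le_of_lt (abs_nonneg _) h5
      have h10 : |x i| < |D| * |a i| := by
        refine h5.trans_le ?_
        exact le_mul_of_one_le_left h9.le h6
      exact mul_lt_mul_of_pos_left h10 (by positivity)
    have h9 : |D| * |a i| * (|D| * |a i|) = D * a i * (D * a i) := by
      rw [← abs_mul, abs_mul_abs_self]
    have h10 : a i * (D * (D * a i - x i)) = D * a i * (D * a i) - D * a i * x i := by ring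
    rw [h10]
    linarith
  · have h6 : 1 ≤ |A.det| := Int.one_le_abs hdet
    rw [← abs_mul_abs_self A.det]
    exact one_le_mul_of_one_le_of_one_le h6 h6
  · intro i
    have h6 : 1 ≤ |A.det| := Int.one_le_abs hdet
    have h7 : w i - A.det * A.det * a i = -(A.det * x i) := by
      rw [hw]
      ring
    rw [h7, abs_neg, abs_mul, ← abs_mul_abs_self A.det]
    refine mul_le_mul ?_ (hxb i) (abs_nonneg _) (by positivity)
    exact le_mul_of_one_le_left (abs_nonneg _) h6

/-- **Followers with signs**: an integral vector `u` orthogonal to all short vectors such that two sets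
with the same sum of `u` have sums of `a` which differ by less than `T`, with the sign of `a v` at
every `v` with `T ≤ |a v|`. -/
theorem exists_follows_near {V : Type} [DecidableEq V] (X : Finset V) (a : V → ℤ) (N T : ℕ)
    (hN : 1 ≤ N) (hT : X.card * X.card.factorial * (N - 1) < T) :
    ∃ u : V → ℤ, (∀ d, Small X a N d → ∑ v ∈ X, u v * d v = 0) ∧ Follows X a u (N - 1) T ∧
      (∀ v ∈ X, (T : ℤ) ≤ |a v| → 0 < a v * u v) ∧
      ∃ l : ℤ, 1 ≤ l ∧ ∀ v ∈ X, |u v - l * a v| ≤ l * T := by
  classical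
  obtain ⟨R, hR⟩ : ∃ R : Set (X → ℤ), R = {d | ∃ d' : V → ℤ, Small X a N d' ∧
    ∀ i : X, d i = d' i} := ⟨_, rfl⟩
  obtain ⟨Q, hQ⟩ : ∃ Q : Set (X → ℚ), Q = (fun (d : X → ℤ) i => ((d i : ℤ) : ℚ)) '' R := ⟨_, rfl⟩
  obtain ⟨F, hF⟩ : ∃ F : Finset (X → ℚ), F =
    (Fintype.piFinset fun _ => ({-1, 0, 1} : Finset ℚ)).filter fun w => w ∉ span ℚ Q := ⟨_, rfl⟩
  have hRb : ∀ d ∈ R, ∀ i, |d i| ≤ 1 := by
    intro d hd i
    rw [hR] at hd
    obtain ⟨d', hd', h⟩ := hd
    rw [h i]
    rcases hd'.1 i with h1 | h1 | h1 <;> rw [h1] <;> simp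
  have hRa : ∀ d ∈ R, |∑ i, d i * a i| ≤ ((N - 1 : ℕ) : ℤ) := by
    intro d hd
    rw [hR] at hd
    obtain ⟨d', hd', h⟩ := hd
    have h1 : ∑ i : X, d i * a i = ∑ v ∈ X, d' v * a v := by
      rw [← Finset.sum_coe_sort X fun v => d' v * a v]
      refine Finset.sum_congr rfl fun i _ => ?_
      rw [h i]
    rw [h1]
    have h2 := hd'.2.2
    omega
  obtain ⟨p, hp1, hp2⟩ := exists_u Q F fun w hw => by
    rw [hF, Finset.mem_filter] at hw
    exact hw.2
  obtain ⟨w, hw1, hw2, D, hD1, hD2⟩ := exists_signs_near R hRb (fun i : X => a i) (N - 1) T hRa (by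
    rw [Fintype.card_coe]
    exact hT)
  -- not orthogonal outside of the span
  have hp1' : ∀ d : X → ℤ, (∀ i, d i = -1 ∨ d i = 0 ∨ d i = 1) →
      (fun i => ((d i : ℤ) : ℚ)) ∉ span ℚ Q → ∑ i, d i * p i ≠ 0 := by
    intro d hd hd' h0
    refine hp1 (fun i => ((d i : ℤ) : ℚ)) ?_ ?_
    · rw [hF, Finset.mem_filter, Fintype.mem_piFinset]
      refine ⟨fun i => ?_, hd'⟩
      rcases hd i with h | h | h <;> simp [h]
    · exact_mod_cast h0
  obtain ⟨M, hM⟩ : ∃ M : ℤ, M = 1 + ∑ i : X, |a i * p i| + ∑ i : X, |p i| := ⟨_, rfl⟩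
  have hM1 : ∀ i : X, |a i * p i| < M := by
    intro i
    have h1 : |a i * p i| ≤ ∑ i : X, |a i * p i| :=
      Finset.single_le_sum (f := fun i : X => |a i * p i|) (fun _ _ => abs_nonneg _)
        (Finset.mem_univ i)
    have h2 : 0 ≤ ∑ i : X, |p i| := Finset.sum_nonneg fun _ _ => abs_nonneg _
    rw [hM]
    linarith
  have hM2 : ∑ i : X, |p i| < M := by
    have h2 : 0 ≤ ∑ i : X, |a i * p i| := Finset.sum_nonneg fun _ _ => abs_nonneg _
    rw [hM]
    linarith
  have hM0 : 0 < M := lt_of_le_of_lt (Finset.sum_nonneg fun _ _ => abs_nonneg _) hM2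
  obtain ⟨u, hu⟩ : ∃ u : X → ℤ, u = fun i => M * w i + p i := ⟨_, rfl⟩
  have hsplit : ∀ d : X → ℤ, ∑ i, d i * u i = M * ∑ i, d i * w i + ∑ i, d i * p i := by
    intro d
    rw [hu, Finset.mul_sum, ← Finset.sum_add_distrib]
    exact Finset.sum_congr rfl fun i _ => by ring
  have hu1 : ∀ d : X → ℤ, (∀ i, d i = -1 ∨ d i = 0 ∨ d i = 1) →
      (fun i => ((d i : ℤ) : ℚ)) ∉ span ℚ Q → ∑ i, d i * u i ≠ 0 := by
    intro d hd hd' h0
    rw [hsplit] at h0
    by_cases h1 : ∑ i, d i * w i = 0
    · rw [h1, mul_zero, zero_add] at h0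
      exact hp1' d hd hd' h0
    · have h2 : |∑ i, d i * p i| ≤ ∑ i : X, |p i| := by
        refine (Finset.abs_sum_le_sum_abs _ _).trans (Finset.sum_le_sum fun i _ => ?_)
        rw [abs_mul]
        rcases hd i with h | h | h <;> rw [h] <;> simp
      have h3 : 1 ≤ |∑ i, d i * w i| := Int.one_le_abs h1
      have h4 : M ≤ |M * ∑ i, d i * w i| := by
        rw [abs_mul, abs_of_pos hM0]
        exact le_mul_of_one_le_right hM0.le h3
      have h5 : |M * ∑ i, d i * w i| = |∑ i, d i * p i| := by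
        rw [eq_neg_of_add_eq_zero_left h0, abs_neg]
      rw [h5] at h4
      linarith
  have hu2 : ∀ d ∈ R, ∑ i, d i * u i = 0 := by
    intro d hd
    rw [hsplit, hw1 d hd, mul_zero, zero_add]
    have h1 := hp2 (fun i => ((d i : ℤ) : ℚ)) (subset_span (by
      rw [hQ]
      exact ⟨d, hd, rfl⟩))
    exact_mod_cast h1
  have hu4 : ∀ i : X, |u i - M * D * a i| ≤ M * D * T := by
    intro i
    have h1 := hD2 i
    rw [Fintype.card_coe] at h1
    have h2 : ((X.card * X.card.factorial * (N - 1) : ℕ) : ℤ) + 1 ≤ (T : ℤ) := by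
      exact_mod_cast hT
    have h3 : u i - M * D * a i = M * (w i - D * a i) + p i := by
      rw [hu]
      ring
    have h4 : |p i| ≤ M := by
      have h5 : |p i| ≤ ∑ i : X, |p i| :=
        Finset.single_le_sum (f := fun i : X => |p i|) (fun _ _ => abs_nonneg _)
          (Finset.mem_univ i)
      exact h5.trans hM2.le
    have h5 : |M * (w i - D * a i)| ≤
        M * (D * ((X.card * X.card.factorial * (N - 1) : ℕ) : ℤ)) := by
      rw [abs_mul, abs_of_pos hM0]
      exact mul_le_mul_of_nonneg_left h1 hM0.le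
    have h6 : M ≤ M * D := le_mul_of_one_le_right hM0.le hD1
    have h7 : M * D * (((X.card * X.card.factorial * (N - 1) : ℕ) : ℤ) + 1) ≤ M * D * T :=
      mul_le_mul_of_nonneg_left h2 (by positivity)
    rw [h3]
    refine (abs_add_le _ _).trans ?_
    have h8 : M * (D * ((X.card * X.card.factorial * (N - 1) : ℕ) : ℤ)) + M * D =
        M * D * (((X.card * X.card.factorial * (N - 1) : ℕ) : ℤ) + 1) := by ring
    linarith
  have hu3 : ∀ i : X, (T : ℤ) ≤ |a i| → 0 < a i * u i := by
    intro i hi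
    have h1 : 1 ≤ a i * w i := hw2 i hi
    have h2 : M * 1 ≤ M * (a i * w i) := mul_le_mul_of_nonneg_left h1 hM0.le
    have h3 := hM1 i
    have h4 : -|a i * p i| ≤ a i * p i := neg_abs_le _
    have h5 : a i * u i = M * (a i * w i) + a i * p i := by
      rw [hu]
      ring
    rw [h5]
    linarith
  obtain ⟨u', hu'⟩ : ∃ u' : V → ℤ, ∀ i : X, u' i = u i :=
    ⟨fun v => if h : v ∈ X then u ⟨v, h⟩ else 0, fun i => by
      show (if h : (i : V) ∈ X then u ⟨i, h⟩ else 0) = u i
      rw [dif_pos i.2]⟩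
  have hsum : ∀ d : V → ℤ, ∑ v ∈ X, u' v * d v = ∑ i : X, d i * u i := by
    intro d
    rw [← Finset.sum_coe_sort X fun v => u' v * d v]
    refine Finset.sum_congr rfl fun i _ => ?_
    rw [hu' i, mul_comm]
  have horth : ∀ d, Small X a N d → ∑ v ∈ X, u' v * d v = 0 := by
    intro d hd
    rw [hsum d]
    refine hu2 (fun i => d i) ?_
    rw [hR]
    exact ⟨d, hd, fun _ => rfl⟩
  refine ⟨u', horth, ?_, fun v hv h => by
    have h1 := hu3 ⟨v, hv⟩ h
    rw [← hu' ⟨v, hv⟩] at h1
    exact h1, M * D, one_le_mul_of_one_le_of_one_le (by omega) hD1, fun v hv => by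
    have h1 := hu4 ⟨v, hv⟩
    rw [← hu' ⟨v, hv⟩] at h1
    exact h1⟩
  intro S hS S' hS'
  have hdi : ∀ v, di S S' v = -1 ∨ di S S' v = 0 ∨ di S S' v = 1 := by
    intro v
    unfold di
    by_cases h1 : v ∈ S <;> by_cases h2 : v ∈ S' <;> simp [h1, h2]
  have hd0 : ∀ v, v ∉ X → di S S' v = 0 := by
    intro v hv
    unfold di
    rw [if_neg fun h => hv (hS h), if_neg fun h => hv (hS' h), sub_self]
  have ha : ∑ v ∈ X, di S S' v * a v = ∑ v ∈ S, a v - ∑ v ∈ S', a v := by
    have h1 := sum_di X S S' hS hS' a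
    simp only [Int.cast_id] at h1
    rw [← h1]
    exact Finset.sum_congr rfl fun v _ => mul_comm _ _
  have huu : ∑ v ∈ X, u' v * di S S' v = ∑ v ∈ S, u' v - ∑ v ∈ S', u' v := by
    have h1 := sum_di X S S' hS hS' u'
    simp only [Int.cast_id] at h1
    exact h1
  constructor
  · intro hlong heq
    have h1 : (fun i : X => ((di S S' i : ℤ) : ℚ)) ∈ span ℚ Q := by
      by_contra h2
      refine hu1 (fun i : X => di S S' i) (fun i => hdi i) h2 ?_
      rw [← hsum, huu, heq, sub_self]
    rw [hQ] at h1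
    have h2 := span_bound R hRb (fun i : X => di S S' i) (fun i => by
      show |di S S' i| ≤ 1
      rcases hdi i with h | h | h <;> rw [h] <;> simp) h1 (fun i : X => a i) (N - 1) hRa
    have h4 : ∑ i : X, di S S' i * a i = ∑ v ∈ X, di S S' v * a v :=
      Finset.sum_coe_sort X fun v => di S S' v * a v
    rw [h4, ha, Fintype.card_coe] at h2
    have h3 : ((X.card * X.card.factorial * (N - 1) : ℕ) : ℤ) < (T : ℤ) := by exact_mod_cast hT
    omega
  · intro hshort
    have h1 := horth (di S S') ⟨hdi, hd0, by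
      rw [ha]
      omega⟩
    rw [huu] at h1
    omega

end Pool.Agent.NHT
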