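import Mathlib
import Pool.Agent.NHT.FOLK
import Pool.Agent.NHT.Near

/-!
# NHT, version 9, module FOLN: followers for a part of the classes which are close to a multiple of the
twist numbers (helper38)
-/

set_option autoImplicit false
set_option linter.unusedSectionVars false

open Module Submodule Pool.Agent.UNI LaurentPolynomial Pool.Agent.SPT Pool.Agent.SPT.Rel
  Pool.Agent.SPT.Lin Pool.Agent.SRH Pool.Agent.EQT Pool.Agent.FHP

namespace Pool.Agent.NHT

open Pool.Agent.Helper16.Knotoid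

/-- the abstract form -/
theorem folN_aux {V : Type} [AddCommGroup V] [Module (ZMod 2) V] [DecidableEq V] (X Y : Finset V)
    (hY : Y ⊆ X) (a : V → ℤ) (N s T : ℕ) (hN : 1 ≤ N + s) (hs : ∑ v ∈ X \ Y, |a v| ≤ (s : ℤ))
    (hT : Y.card * Y.card.factorial * (N + s - 1) < T)
    (H : ∀ x : V → ℂ, (∀ v, x v ≠ 0) → (∀ v, v ∉ Y → x v = 1) →
      (∀ d, Small X a N d → ∏ v ∈ X, x v ^ d v = 1) → PP Y ⊥ x = 0) :
    ∃ u : V → ℤ, Follows Y a u (N + s - 1) T ∧
      (∀ v ∈ Y, (T : ℤ) ≤ |a v| → 0 < a v * u v) ∧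
      (∃ l : ℤ, 1 ≤ l ∧ ∀ v ∈ Y, |u v - l * a v| ≤ l * T) ∧ ¬ NZu Y u := by
  classical
  obtain ⟨u, hu, hF, hsg, hl⟩ := exists_follows_near Y a (N + s) T hN hT
  refine ⟨u, hF, hsg, hl, ?_⟩
  rintro ⟨z, hz, hz1⟩
  have hz0 : z ≠ 0 := by
    intro h0
    rw [h0, norm_zero] at hz
    exact zero_ne_one hz
  apply hz1
  obtain ⟨x, hx⟩ : ∃ x : V → ℂ, x = fun v => if v ∈ Y then z ^ u v else 1 := ⟨_, rfl⟩
  have hxY : ∀ v ∈ Y, x v = z ^ u v := by
    intro v hv
    rw [hx]
    exact if_pos hv
  have hxn : ∀ v, v ∉ Y → x v = 1 := by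
    intro v hv
    rw [hx]
    exact if_neg hv
  have hPP : PP Y ⊥ (fun v => z ^ u v) = PP Y ⊥ x := by
    unfold PP
    refine Finset.sum_congr rfl fun W hW => ?_
    have h1 : ∏ v ∈ W, (z ^ u v - 1) = ∏ v ∈ W, (x v - 1) := by
      refine Finset.prod_congr rfl fun v hv => ?_
      rw [hxY v (Finset.mem_powerset.1 hW hv)]
    rw [h1]
  rw [hPP]
  refine H x (fun v => ?_) hxn ?_
  · by_cases hv : v ∈ Y
    · rw [hxY v hv]
      exact zpow_ne_zero _ hz0
    · rw [hxn v hv]
      exact one_ne_zero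
  · intro d hd
    obtain ⟨d', hd'⟩ : ∃ d' : V → ℤ, d' = fun v => if v ∈ Y then d v else 0 := ⟨_, rfl⟩
    have hdY : ∀ v ∈ Y, d' v = d v := by
      intro v hv
      rw [hd']
      exact if_pos hv
    have hdn : ∀ v, v ∉ Y → d' v = 0 := by
      intro v hv
      rw [hd']
      exact if_neg hv
    have hsplit : ∑ v ∈ X, d v * a v = ∑ v ∈ Y, d' v * a v + ∑ v ∈ X \ Y, d v * a v := by
      rw [← Finset.sum_sdiff hY, add_comm]
      refine congrArg₂ (· + ·) (Finset.sum_congr rfl fun v hv => ?_) rfl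
      rw [hdY v hv]
    have hrest : |∑ v ∈ X \ Y, d v * a v| ≤ (s : ℤ) := by
      refine (Finset.abs_sum_le_sum_abs _ _).trans (le_trans (Finset.sum_le_sum fun v _ => ?_) hs)
      rw [abs_mul]
      rcases hd.1 v with h | h | h <;> rw [h] <;> simp
    have hsmall : Small Y a (N + s) d' := by
      refine ⟨fun v => ?_, hdn, ?_⟩
      · by_cases hv : v ∈ Y
        · rw [hdY v hv]
          exact hd.1 v
        · rw [hdn v hv]
          exact Or.inr (Or.inl rfl)
      · have h1 := hd.2.2
        rw [hsplit] at h1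
        push_cast
        rw [abs_lt] at h1 ⊢
        rw [abs_le] at hrest
        constructor <;> omega
    have h1 := hu d' hsmall
    have h2 : ∏ v ∈ X, x v ^ d v = ∏ v ∈ Y, z ^ (u v * d' v) := by
      rw [← Finset.prod_sdiff hY]
      have h3 : ∏ v ∈ X \ Y, x v ^ d v = 1 := by
        refine Finset.prod_eq_one fun v hv => ?_
        rw [hxn v (Finset.mem_sdiff.1 hv).2, _root_.one_zpow]
      rw [h3, one_mul]
      refine Finset.prod_congr rfl fun v hv => ?_
      rw [hxY v hv, hdY v hv, _root_.zpow_mul]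
    have h3 : ∀ s : Finset V, ∏ v ∈ s, z ^ (u v * d' v) = z ^ (∑ v ∈ s, u v * d' v) := by
      intro s
      induction s using Finset.induction_on with
      | empty => rw [Finset.prod_empty, Finset.sum_empty, _root_.zpow_zero]
      | insert a s ha ih => rw [Finset.prod_insert ha, Finset.sum_insert ha, zpow_add₀ hz0, ih]
    rw [h2, h3, h1, _root_.zpow_zero]

variable {n : ℕ}

/-- **Followers for `J`, knotoid diagrams** -/
theorem knotoidFOLN (D : GaussDiagram n) (B : ℕ)
    (hB : D.normalizedBracket.coeff.support.card ≤ B) (S : Finset (Fin n))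
    (hS : Transversal D.Interlaced S) (J : Finset (Fin n)) (hJ : J ⊆ S) (hne : J.Nonempty)
    (hdet : cutDetO D J ≠ 0) (T : ℕ)
    (hT : T = (J.card + 1).factorial * (2 * (B + 2) * (S.card + 1) +
      ∑ j ∈ S \ J, (cutTwist D.Interlaced D.sign j).natAbs)) :
    ∃ u : (Fin n → ZMod 2) → ℤ,
      Follows (J.image (row (Graph_R D.Interlaced D.sign)))
        (twist (Graph_R D.Interlaced D.sign) (cutState D.Interlaced D.sign)) u
        (2 * (B + 2) * (S.card + 1) +
          ∑ j ∈ S \ J, (cutTwist D.Interlaced D.sign j).natAbs - 1) T ∧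
      (∀ v ∈ J.image (row (Graph_R D.Interlaced D.sign)),
        (T : ℤ) ≤ |twist (Graph_R D.Interlaced D.sign) (cutState D.Interlaced D.sign) v| →
        0 < twist (Graph_R D.Interlaced D.sign) (cutState D.Interlaced D.sign) v * u v) ∧
      (∃ l : ℤ, 1 ≤ l ∧ ∀ v ∈ J.image (row (Graph_R D.Interlaced D.sign)),
        |u v - l * twist (Graph_R D.Interlaced D.sign) (cutState D.Interlaced D.sign) v| ≤ l * T) ∧
      ¬ NZu (J.image (row (Graph_R D.Interlaced D.sign))) u := by
  classical
  have hi := Graph_irrefl D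
  have hs := Graph_int_symm D
  have hinj := Graph_inj (e := D.sign) hi hs hS
  have h0 : 0 < 2 * (B + 2) * (S.card + 1) := by positivity
  refine folN_aux (S.image (row (Graph_R D.Interlaced D.sign)))
    (J.image (row (Graph_R D.Interlaced D.sign))) (Finset.image_subset_image hJ)
    (twist (Graph_R D.Interlaced D.sign) (cutState D.Interlaced D.sign))
    (2 * (B + 2) * (S.card + 1)) (∑ j ∈ S \ J, (cutTwist D.Interlaced D.sign j).natAbs) _ ?_ ?_ ?_ ?_
  · omega
  · have h1 : S.image (row (Graph_R D.Interlaced D.sign)) \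
        J.image (row (Graph_R D.Interlaced D.sign)) ⊆
        (S \ J).image (row (Graph_R D.Interlaced D.sign)) := by
      intro v hv
      obtain ⟨hv1, hv2⟩ := Finset.mem_sdiff.1 hv
      obtain ⟨i, hi', rfl⟩ := Finset.mem_image.1 hv1
      refine Finset.mem_image_of_mem _ (Finset.mem_sdiff.2 ⟨hi', fun h => ?_⟩)
      exact hv2 (Finset.mem_image_of_mem _ h)
    refine (Finset.sum_le_sum_of_subset_of_nonneg h1 fun _ _ _ => abs_nonneg _).trans ?_
    rw [Finset.sum_image fun i hi' j hj h =>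
      hinj (Finset.mem_sdiff.1 hi').1 (Finset.mem_sdiff.1 hj).1 h]
    push_cast
    refine Finset.sum_le_sum fun i _ => ?_
    rw [twist_row hi hs i]
  · rw [hT]
    exact folK_le _ _ _ Finset.card_image_le (by omega)
  · intro x hx0 hx1 hx
    rcases knotoidHVJ D B _ hB S hS le_rfl J hJ hne x hx0 hx1 hx with h | h
    · exact h
    · exact absurd h hdet

/-- **Followers for `J`, knot diagrams** -/
theorem knotFOLN (g : GaussJones.Code n) (e : Fin n → Bool) (B : ℕ)
    (hB : (GaussJones.fPoly g e).coeff.support.card ≤ B) (S : Finset (Fin n))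
    (hS : Transversal (GaussJones.Interlaced g) S) (J : Finset (Fin n)) (hJ : J ⊆ S)
    (hne : J.Nonempty) (hdet : cutDet g e J ≠ 0) (T : ℕ)
    (hT : T = (J.card + 1).factorial * (2 * (B + 2) * (S.card + 1) +
      ∑ j ∈ S \ J, (cutTwist (GaussJones.Interlaced g) e j).natAbs)) :
    ∃ u : (Fin n → ZMod 2) → ℤ,
      Follows (J.image (row (Graph_R (GaussJones.Interlaced g) e)))
        (twist (Graph_R (GaussJones.Interlaced g) e) (cutState (GaussJones.Interlaced g) e)) u
        (2 * (B + 2) * (S.card + 1) +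
          ∑ j ∈ S \ J, (cutTwist (GaussJones.Interlaced g) e j).natAbs - 1) T ∧
      (∀ v ∈ J.image (row (Graph_R (GaussJones.Interlaced g) e)),
        (T : ℤ) ≤
          |twist (Graph_R (GaussJones.Interlaced g) e) (cutState (GaussJones.Interlaced g) e) v| →
        0 < twist (Graph_R (GaussJones.Interlaced g) e) (cutState (GaussJones.Interlaced g) e) v *
          u v) ∧
      (∃ l : ℤ, 1 ≤ l ∧ ∀ v ∈ J.image (row (Graph_R (GaussJones.Interlaced g) e)),
        |u v - l * twist (Graph_R (GaussJones.Interlaced g) e)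
          (cutState (GaussJones.Interlaced g) e) v| ≤ l * T) ∧
      ¬ NZu (J.image (row (Graph_R (GaussJones.Interlaced g) e))) u := by
  classical
  have hn : 0 < n := by
    obtain ⟨i, -⟩ := hne
    exact i.pos
  have h1 := interlaced_fun g e
  rw [f_closed hn] at hB
  rw [cutDet_eq hn] at hdet
  rw [← h1] at hS hT ⊢
  exact knotoidFOLN (cutOpen g e) B hB S hS J hJ hne hdet T hT

end Pool.Agent.NHT
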