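import Pool.Agent.NHT.St3

/-!
# NHT, version 3: the dictionary for a set `J` of classes (helper32)

The rows of the classes in `J` which are not in `C` span the rows of `J` if and only if the classes in
`C` contain no cycle when the classes outside of `J` are contracted.
-/

set_option autoImplicit false
set_option linter.unusedSectionVars false

open Submodule Module LaurentPolynomial

namespace Pool.Agent.NHT

open Pool.Agent.SPT Pool.Agent.EQT Pool.Agent.FHP Pool.Agent.TRA Pool.Agent.TRP Pool.Agent.SPT.Rel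
open Pool.Agent.Helper16.Knotoid

variable {n : ℕ}

/-- The rows of `Y` span the rows of `W` if and only if a vector in the range of the matrix which
vanishes on `Y` vanishes on `W`. -/
theorem Dict3_span (M : Matrix (Fin n) (Fin n) (ZMod 2)) (Y W : Set (Fin n)) :
    (∀ i ∈ W, M i ∈ span (ZMod 2) (M '' Y)) ↔
    ∀ y, (∀ i ∈ Y, M.mulVec y i = 0) → ∀ i ∈ W, M.mulVec y i = 0 := by
  classical
  constructor
  · intro h y hy i hi
    have h1 : span (ZMod 2) (M '' Y) ≤
        LinearMap.ker (Matrix.toLin' (Matrix.of fun (_ : Fin 1) => y)) := by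
      rw [span_le]
      rintro _ ⟨j, hj, rfl⟩
      rw [SetLike.mem_coe, LinearMap.mem_ker, Matrix.toLin'_apply]
      funext k
      have h2 := hy j hj
      show y ⬝ᵥ M j = 0
      rw [dotProduct_comm]
      exact h2
    have h3 := h1 (h i hi)
    rw [LinearMap.mem_ker, Matrix.toLin'_apply] at h3
    have h4 := congrFun h3 0
    change y ⬝ᵥ M i = 0 at h4
    rw [dotProduct_comm] at h4
    exact h4
  · intro h i hiW
    by_contra hi
    obtain ⟨f, hf1, hf2⟩ := Submodule.exists_dual_map_eq_bot_of_notMem hi inferInstance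
    have h1 : ∀ v : Fin n → ZMod 2, f v = v ⬝ᵥ fun c => f (Pi.single c 1) := by
      intro v
      conv_lhs => rw [← Finset.univ_sum_single v, map_sum]
      unfold dotProduct
      refine Finset.sum_congr rfl fun c _ => ?_
      have h2 : (Pi.single c (v c) : Fin n → ZMod 2) = v c • Pi.single c 1 := by
        rw [← Pi.single_smul', smul_eq_mul, mul_one]
      rw [h2, map_smul, smul_eq_mul]
    have h3 := h (fun c => f (Pi.single c 1)) (fun j hj => by
      have h4 : f (M j) = 0 := by
        have h5 : f (M j) ∈ Submodule.map f (span (ZMod 2) (M '' Y)) :=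
          Submodule.mem_map_of_mem (subset_span ⟨j, hj, rfl⟩)
        rw [hf2] at h5
        exact (Submodule.mem_bot _).1 h5
      rw [h1] at h4
      exact h4) i hiW
    apply hf1
    rw [h1]
    exact h3

section

variable {I : Fin n → Fin n → Prop} {e : Fin n → Bool}

/-- **The dictionary** for the classes in `J`. -/
theorem Dict3_dict (D : GaussDiagram n) (hi : ∀ i, ¬ I i i) (hs : ∀ i j, I i j → I j i)
    (hR : D.Cut (cutState I e) = Graph_R I e) {S : Finset (Fin n)} (hS : Transversal I S)
    {J C : Finset (Fin n)} (hJ : J ⊆ S) (hC : C ⊆ J) :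
    (∀ i ∈ (J : Set (Fin n)), D.gmat (cutState I e) i ∈ span (ZMod 2) (D.gmat (cutState I e) ''
      ((J \ C : Finset (Fin n)) : Set (Fin n)))) ↔
    ¬ ∃ Z : Finset (Fin n), (∃ c ∈ Z, ∃ i ∈ C, Twins I c i) ∧
      (∀ c ∈ Z, ∃ i ∈ C ∪ (S \ J), Twins I c i) ∧ D.IsEven (cutState I e) Z := by
  classical
  obtain ⟨σ, hσ⟩ : ∃ σ, σ = cutState I e := ⟨_, rfl⟩
  rw [← hσ] at hR ⊢
  have hrow : ∀ c, row (Graph_R I e) c = D.gmat σ c := fun c => by
    rw [← hR]
    exact row_eq D σ c
  have htw : ∀ i j, Twins I i j → ∀ y, (D.gmat σ).mulVec y i = (D.gmat σ).mulVec y j := by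
    intro i j hij y
    have h1 : D.gmat σ i = D.gmat σ j := by
      rw [← hrow, ← hrow]
      exact (Graph_row hi hs i j).2 hij
    show D.gmat σ i ⬝ᵥ y = D.gmat σ j ⬝ᵥ y
    rw [h1]
  have heven : ∀ Z : Finset (Fin n), D.IsEven σ Z ↔
      ∃ y, (D.gmat σ).mulVec y = fun c => if c ∈ Z then 1 else 0 := by
    intro Z
    rw [Graph_mem]
    have h1 := Graph_even (D.Join σ) (fun c => (D.overPass c).castSucc)
      (fun c => (D.overPass c).succ) Z
    have h2 : D.IsEven σ Z ↔ ∀ q : Quot (D.Join σ),
        Even ((Z.filter fun c => Quot.mk (D.Join σ) (D.overPass c).castSucc = q).card +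
        (Z.filter fun c => Quot.mk (D.Join σ) (D.overPass c).succ = q).card) := by
      unfold GaussDiagram.IsEven
      refine forall_congr' fun q => ?_
      have h3 : ∀ (f : Fin n → Quot (D.Join σ)) (i1 i2 : DecidablePred fun c => f c = q),
          (@Finset.filter _ (fun c => f c = q) i1 Z).card =
            (@Finset.filter _ (fun c => f c = q) i2 Z).card := by
        intro f i1 i2
        have h4 : i1 = i2 := Subsingleton.elim _ _
        rw [h4]
      rw [h3 (fun c => D.end₁ σ c) _ (fun c => Classical.propDecidable _),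
        h3 (fun c => D.end₂ σ c) _ (fun c => Classical.propDecidable _),
        h3 (fun c => Quot.mk (D.Join σ) (D.overPass c).castSucc) _
          (fun c => Classical.propDecidable _),
        h3 (fun c => Quot.mk (D.Join σ) (D.overPass c).succ) _
          (fun c => Classical.propDecidable _)]
      exact Iff.rfl
    rw [h2]
    have h4 : ∀ φ : Fin (2 * n + 1) → ZMod 2,
        ∑ c, (if c ∈ Z then (1 : ZMod 2) else 0) *
          (φ (D.overPass c).castSucc + φ (D.overPass c).succ) =
        ∑ c ∈ Z, (φ (D.overPass c).castSucc + φ (D.overPass c).succ) := by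
      intro φ
      simp only [ite_mul, one_mul, zero_mul]
      rw [← Finset.sum_filter]
      refine Finset.sum_congr ?_ fun _ _ => rfl
      ext c
      simp
    simp only [h4]
    exact h1
  rw [Dict3_span]
  constructor
  · rintro h ⟨Z, ⟨c, hc, i, hiC, hci⟩, hZJ, hZ⟩
    obtain ⟨y, hy⟩ := (heven Z).1 hZ
    have h1 := h y (fun j hj => by
      rw [Finset.mem_coe, Finset.mem_sdiff] at hj
      rw [hy]
      refine if_neg ?_
      intro hjZ
      obtain ⟨k, hk, hjk⟩ := hZJ j hjZ
      rw [Finset.mem_union, Finset.mem_sdiff] at hk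
      have hkS : k ∈ S := by
        rcases hk with hk | hk
        · exact hJ (hC hk)
        · exact hk.1
      have h2 := hS.2.1 j (hJ hj.1) k hkS hjk
      rw [← h2] at hk
      rcases hk with hk | hk
      · exact hj.2 hk
      · exact hk.2 hj.1) i (Finset.mem_coe.2 (hC hiC))
    rw [← htw c i hci y, hy] at h1
    have h3 : (if c ∈ Z then (1 : ZMod 2) else 0) = 0 := h1
    rw [if_pos hc] at h3
    exact one_ne_zero h3
  · intro h y hy i hiJ
    by_contra hne
    obtain ⟨z, hz⟩ : ∃ z, z = (D.gmat σ).mulVec y := ⟨_, rfl⟩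
    have h1 : z = fun c => if c ∈ Finset.univ.filter (fun c => z c ≠ 0) then 1 else 0 := by
      funext c
      by_cases hc : z c = 0
      · rw [if_neg (by simp [hc]), hc]
      · rw [if_pos (by simp [hc])]
        have key : ∀ t : ZMod 2, t ≠ 0 → t = 1 := by decide
        exact key _ hc
    refine h ⟨Finset.univ.filter fun c => z c ≠ 0, ⟨i, ?_, i, ?_, ?_⟩, ?_, ?_⟩
    · rw [Finset.mem_filter, hz]
      exact ⟨Finset.mem_univ _, hne⟩
    · by_contra hiC
      exact hne (hy i (Finset.mem_coe.2 (Finset.mem_sdiff.2 ⟨Finset.mem_coe.1 hiJ, hiC⟩)))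
    · exact (Graph_row (e := e) hi hs i i).1 rfl
    · intro c hc
      have hc0 : z c ≠ 0 := (Finset.mem_filter.1 hc).2
      have h3 : ∃ j, I c j := by
        rw [← Graph_ne (e := e), hrow]
        intro h4
        apply hc0
        rw [hz]
        show D.gmat σ c ⬝ᵥ y = 0
        rw [h4, zero_dotProduct]
      obtain ⟨s, hs1, hs2⟩ := hS.2.2 c h3
      refine ⟨s, ?_, hs2⟩
      rw [Finset.mem_union, Finset.mem_sdiff]
      by_cases hsJ : s ∈ J
      · left
        by_contra hsC
        apply hc0
        rw [hz, htw c s hs2 y]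
        exact hy s (Finset.mem_coe.2 (Finset.mem_sdiff.2 ⟨hsJ, hsC⟩))
      · exact Or.inr ⟨hs1, hsJ⟩
    · exact (heven _).2 ⟨y, by
        rw [← hz]
        exact h1⟩

/-- the rows of `J` form a block -/
theorem Dict3_block (D : GaussDiagram n) (hi : ∀ i, ¬ I i i) (hs : ∀ i j, I i j → I j i)
    (hR : D.Cut (cutState I e) = Graph_R I e) {S : Finset (Fin n)} (hS : Transversal I S)
    {J : Finset (Fin n)} (hJ : J ⊆ S) (Cyc : Finset (Fin n) → Prop)
    (hCyc : ∀ C ⊆ J, Cyc C ↔ ∃ Z : Finset (Fin n), (∃ c ∈ Z, ∃ i ∈ C, Twins I c i) ∧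
      (∀ c ∈ Z, ∃ i ∈ C ∪ (S \ J), Twins I c i) ∧ D.IsEven (cutState I e) Z) :
    Block J Cyc (row (Graph_R I e)) := by
  classical
  have hinj : Set.InjOn (row (Graph_R I e)) (J : Set (Fin n)) :=
    (Graph_inj hi hs hS).mono (Finset.coe_subset.2 hJ)
  refine ⟨hinj, ?_, ?_⟩
  · intro i hiJ
    exact (Graph_ne i).2 (hS.1 i (hJ hiJ))
  · intro C hC
    have hrow : ∀ c, row (Graph_R I e) c = D.gmat (cutState I e) c := fun c => by
      rw [← hR]
      exact row_eq D _ c
    have hrow' : row (Graph_R I e) = D.gmat (cutState I e) := funext hrow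
    rw [hCyc C hC, ← Dict3_dict D hi hs hR hS hJ hC, ← hrow']
    have h1 : ((J.image (row (Graph_R I e)) \ C.image (row (Graph_R I e)) :
        Finset (Fin n → ZMod 2)) : Set (Fin n → ZMod 2)) =
        row (Graph_R I e) '' ((J \ C : Finset (Fin n)) : Set (Fin n)) := by
      ext v
      simp only [Finset.coe_sdiff, Finset.coe_image, Set.mem_sdiff, Set.mem_image, Finset.mem_coe]
      constructor
      · rintro ⟨⟨i, hi1, rfl⟩, h2⟩
        exact ⟨i, ⟨hi1, fun h3 => h2 ⟨i, h3, rfl⟩⟩, rfl⟩
      · rintro ⟨i, ⟨hi1, hi2⟩, rfl⟩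
        refine ⟨⟨i, hi1, rfl⟩, ?_⟩
        rintro ⟨j, hj, hji⟩
        have h3 := hinj (Finset.mem_coe.2 (hC hj)) (Finset.mem_coe.2 hi1) hji
        rw [h3] at hj
        exact hi2 hj
    unfold Co
    rw [h1]
    constructor
    · intro h
      refine le_antisymm (span_mono ?_) (span_le.2 ?_)
      · rintro _ ⟨i, hi1, rfl⟩
        rw [Finset.coe_image]
        exact ⟨i, (Finset.mem_sdiff.1 (Finset.mem_coe.1 hi1)).1, rfl⟩
      · intro v hv
        rw [Finset.coe_image] at hv
        obtain ⟨i, hi1, rfl⟩ := hv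
        exact h i hi1
    · intro h i hi1
      rw [h]
      exact subset_span (by rw [Finset.coe_image]; exact ⟨i, hi1, rfl⟩)

end

/-- **Module D3O** -/
theorem thm_KnotoidBlock : St_KnotoidBlock := by
  intro n D S J hS hJ
  exact Dict3_block D (Graph_irrefl D) (Graph_int_symm D) rfl hS hJ _ fun C _ => Iff.rfl

/-- **Module D3K** -/
theorem thm_KnotBlock : St_KnotBlock := by
  classical
  intro n g e S J hS hJ
  have hi : ∀ i, ¬ GaussJones.Interlaced g i i := by
    intro i h
    rcases h with h | h <;> exact lt_irrefl _ h.1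
  have hs : ∀ i j, GaussJones.Interlaced g i j → GaussJones.Interlaced g j i :=
    fun i j h => h.symm
  have h0 : GaussJones.Cut g e (cutState (GaussJones.Interlaced g) e) =
      (UNI.cutOpen g e).Cut (cutState (GaussJones.Interlaced g) e) := by
    funext i j
    exact propext (UNI.cut_closed g e _ i j)
  have h3 : (fun i => cutState (GaussJones.Interlaced g) e i == e i) =
      cutAll (GaussJones.Interlaced g) := by
    funext i
    unfold cutState cutAll
    by_cases h : ∃ j, Twins (GaussJones.Interlaced g) i j ∧ GaussJones.Interlaced g i j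
    · rw [if_pos h, if_pos h]
      cases e i <;> rfl
    · rw [if_neg h, if_neg h]
      cases e i <;> rfl
  refine Dict3_block (UNI.cutOpen g e) hi hs h0.symm hS hJ _ fun C _ => ?_
  rcases Nat.eq_zero_or_pos n with hn | hn
  · subst hn
    constructor
    · rintro ⟨Z, ⟨c, -⟩, -⟩
      exact c.elim0
    · rintro ⟨Z, ⟨c, -⟩, -⟩
      exact c.elim0
  · unfold HasCycleIn
    rw [← h3]
    refine exists_congr fun Z => and_congr_right fun _ => and_congr_right fun _ => ?_
    exact (Graph_closed hn g e _ Z).symm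

end Pool.Agent.NHT
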