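import Pool.Agent.NHT.St
import Pool.Agent.TRJ.Lead

/-!
# NHT, module Weight: alternative (b) for the classes of one block (helper62, after TRJ/Lead of helper16)
-/

set_option autoImplicit false
set_option linter.unusedSectionVars false

open Submodule Module

namespace Pool.Agent.NHT

open Pool.Agent.SPT Pool.Agent.TRA Pool.Agent.TRP Pool.Agent.SPT.Rel

theorem thm_Weight : St_Weight := by
  classical
  intro ι V _ _ _ _ Q Cyc r hB a u C T hF J w hd hw hc
  by_contra hno
  -- the inverse map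
  obtain ⟨w', hw'⟩ : ∃ w' : V → ℤ, ∀ i ∈ Q, w' (r i) = w i := by
    refine ⟨fun v => if h : ∃ i ∈ Q, r i = v then w h.choose else 0, fun i hi => ?_⟩
    have h : ∃ j ∈ Q, r j = r i := ⟨i, hi, rfl⟩
    show (if h : ∃ j ∈ Q, r j = r i then w h.choose else 0) = w i
    rw [dif_pos h]
    exact congrArg w (hB.inj h.choose_spec.1 hi h.choose_spec.2)
  obtain ⟨J', hJ'⟩ : ∃ J' : Finset V, J' = (Q.filter fun i => i ∈ J).image r := ⟨_, rfl⟩
  have hJX : J' ⊆ Q.image r := by
    rw [hJ']
    exact Finset.image_subset_image (Finset.filter_subset _ _)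
  have hmemJ : ∀ i ∈ Q, (r i ∈ J' ↔ i ∈ J) := by
    intro i hi
    rw [hJ', Finset.mem_image]
    constructor
    · rintro ⟨j, hj, hji⟩
      rw [Finset.mem_filter] at hj
      exact hB.inj hj.1 hi hji ▸ hj.2
    · intro h
      exact ⟨i, Finset.mem_filter.2 ⟨hi, h⟩, rfl⟩
  have htau : 0 < TRJ.tau (Q.image r) J' w' := by
    refine TRJ.tau_pos _ _ _ hJX ?_ (le_antisymm (span_mono fun v hv => hv.1) ?_)
    · intro v hv hvJ
      obtain ⟨i, hi, rfl⟩ := Finset.mem_image.1 hv
      rw [hw' i hi]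
      exact hw i hi fun h => hvJ ((hmemJ i hi).2 h)
    · have h1 := (hB.co _ (Finset.filter_subset _ _)).1 hc
      unfold Co at h1
      rw [← h1]
      refine span_mono fun v hv => ?_
      rw [Finset.mem_coe, Finset.mem_sdiff] at hv
      obtain ⟨hvX, hv2⟩ := hv
      obtain ⟨i, hi, rfl⟩ := Finset.mem_image.1 hvX
      refine ⟨Finset.mem_coe.2 hvX, ?_⟩
      by_cases hiJ : i ∈ J
      · exact Or.inl ((hmemJ i hi).2 hiJ)
      · right
        rw [hw' i hi]
        rcases lt_or_eq_of_le (hw i hi hiJ) with h | h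
        · exact h
        · exact absurd (Finset.mem_image_of_mem r (Finset.mem_filter.2 ⟨hi, hiJ, h.symm⟩)) hv2
  obtain ⟨d, hd1, hd2⟩ := TRJ.follows_lead _ a u C T hF hno J' hJX w' htau.ne'
  obtain ⟨d', hd'⟩ : ∃ d' : ι → ℤ, d' = fun i => if i ∈ Q then d (r i) else 0 := ⟨_, rfl⟩
  have hd'1 : ∀ i ∈ Q, d' i = d (r i) := by
    intro i h
    rw [hd']
    exact if_pos h
  have hsh : Short Q (fun i => a (r i)) T d' := by
    refine ⟨fun i => ?_, fun i h => ?_, ?_⟩
    · by_cases h : i ∈ Q
      · rw [hd'1 i h]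
        exact hd1.1 (r i)
      · rw [hd']
        exact Or.inr (Or.inl (if_neg h))
    · rw [hd']
      exact if_neg h
    · have h1 := hd1.2.2
      rw [Finset.sum_image hB.inj] at h1
      rw [Finset.sum_congr rfl fun i hi => by rw [hd'1 i hi]]
      exact h1
  obtain ⟨h1, h2⟩ := hd d' hsh
  rcases hd2 with h3 | h3
  · apply h3
    rw [Finset.sum_image hB.inj, ← h1]
    refine Finset.sum_congr rfl fun i hi => ?_
    rw [hw' i hi, hd'1 i hi, mul_comm]
  · rw [← Int.not_even_iff_odd] at h3
    apply h3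
    have h4 : ∑ v ∈ J', d v = ∑ i ∈ J, d' i := by
      rw [hJ', Finset.sum_image (hB.inj.mono (Finset.coe_subset.2 (Finset.filter_subset _ _)))]
      have h5 : J.filter (fun i => i ∈ Q) = Q.filter fun i => i ∈ J := by
        ext i
        rw [Finset.mem_filter, Finset.mem_filter]
        exact and_comm
      rw [← Finset.sum_filter_add_sum_filter_not J (fun i => i ∈ Q) d', h5,
        Finset.sum_eq_zero (s := J.filter fun i => ¬ i ∈ Q) fun i hi => by
          rw [hd']
          exact if_neg (Finset.mem_filter.1 hi).2, add_zero]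
      refine Finset.sum_congr rfl fun i hi => ?_
      rw [hd'1 i (Finset.mem_filter.1 hi).1]
    rw [h4]
    exact h2

end Pool.Agent.NHT
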