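import Pool.Agent.NHT.Class
import Pool.Agent.NHT.Weight
import Pool.Agent.NHT.Adequate
import Pool.Agent.SRH.FOL
import Pool.Agent.TRC9.Card
import Pool.Agent.TRD.All
import Pool.Agent.TRG.All

/-!
# NHT, module Final: knots and knotoids (helper38)
-/

set_option autoImplicit false

open Submodule LaurentPolynomial

namespace Pool.Agent.NHT

open Pool.Agent.SPT Pool.Agent.SPT.Rel Pool.Agent.EQT Pool.Agent.FHP Pool.Agent.Helper16.Knotoid
open Pool.Agent.TRA Pool.Agent.TRP

theorem card9 : CardReg 9 := TRC9.cardReg9 TRG.rankReg5 TRD.corank3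

theorem corank3 : CorankReg 3 := CorankReg_of TRD.corank3

/-- **knotoid diagrams** -/
theorem knotoidF {n : ℕ} (D : GaussDiagram n)
    (S : Finset (Fin n)) (hS : Transversal D.Interlaced S) (hne : S.Nonempty) (p : Fin n → ℕ)
    (hp : Splits S (HasCycleO D) p) (B : ℕ)
    (hsm : ∀ q, GoodBlock S (HasCycleO D) (row (D.Cut (cutState D.Interlaced D.sign)))
      (cutTwist D.Interlaced D.sign) p (2 * (B + 2) * (S.card + 2).factorial) q) :
    B < terms D.normalizedBracket := by
  classical
  by_contra hB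
  obtain ⟨i, hi⟩ := hne
  have hrows : (rows (D.Cut (cutState D.Interlaced D.sign))).erase 0 =
      S.image (row (Graph_R D.Interlaced D.sign)) :=
    Graph_image (Graph_irrefl D) (Graph_int_symm D) hS
  obtain ⟨u, -, hF, hu⟩ := SRH.knotoidFOL D (cutState D.Interlaced D.sign) B S.card
    (not_lt.1 hB) (by rw [hrows]; exact Finset.card_image_le)
    (by rw [hrows]; exact Finset.nonempty_iff_ne_empty.1 ⟨_, Finset.mem_image_of_mem _ hi⟩)
  exact hu (class_main (Graph_irrefl D) (Graph_int_symm D) hS (HasCycleO D)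
    (fun J hJ => knotoid_dict D hS hJ) _ _
    (Nat.mul_pos (by omega) (Nat.factorial_pos _)) u hF
    (fun Y hY => TRL.knotoid_reg D _ Y hY) card9 TRG.rankReg5 corank3 thm_Weight thm_Adequate p hp hsm)

/-- **knot diagrams** -/
theorem knotF {n : ℕ} (g : GaussJones.Code n)
    (e : Fin n → Bool) (S : Finset (Fin n)) (hS : Transversal (GaussJones.Interlaced g) S)
    (hne : S.Nonempty) (p : Fin n → ℕ) (hp : Splits S (HasCycle g) p) (B : ℕ)
    (hsm : ∀ q, GoodBlock S (HasCycle g)
      (row (GaussJones.Cut g e (cutState (GaussJones.Interlaced g) e)))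
      (cutTwist (GaussJones.Interlaced g) e) p (2 * (B + 2) * (S.card + 2).factorial) q) :
    B < terms (GaussJones.fPoly g e) := by
  classical
  by_contra hB
  obtain ⟨i, hi⟩ := hne
  have hirr : ∀ i, ¬ GaussJones.Interlaced g i i := by
    intro i h
    rcases h with h | h <;> exact lt_irrefl _ h.1
  have hsy : ∀ i j, GaussJones.Interlaced g i j → GaussJones.Interlaced g j i :=
    fun i j h => h.symm
  have hrows : (rows (GaussJones.Cut g e (cutState (GaussJones.Interlaced g) e))).erase 0 =
      S.image (row (Graph_R (GaussJones.Interlaced g) e)) :=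
    Graph_image hirr hsy hS
  obtain ⟨u, -, hF, hu⟩ := SRH.knotFOL g e (cutState (GaussJones.Interlaced g) e) B S.card
    (not_lt.1 hB) (by rw [hrows]; exact Finset.card_image_le)
    (by rw [hrows]; exact Finset.nonempty_iff_ne_empty.1 ⟨_, Finset.mem_image_of_mem _ hi⟩)
  exact hu (class_main hirr hsy hS (HasCycle g) (fun J hJ => knot_dict g e hS hJ) _ _
    (Nat.mul_pos (by omega) (Nat.factorial_pos _)) u hF
    (fun Y hY => TRL.knot_reg g e _ Y hY) card9 TRG.rankReg5 corank3 thm_Weight thm_Adequate p hp hsm)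

end Pool.Agent.NHT
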