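import Mathlib
import Pool.Agent.NHT.KDet

/-!
# NHT, version 3, module Full: the determinant when all classes are cut (helper38)
-/

set_option autoImplicit false
set_option linter.unusedSectionVars false

open Module Submodule Pool.Agent.UNI LaurentPolynomial Pool.Agent.SPT Pool.Agent.SPT.Rel
  Pool.Agent.SPT.Lin Pool.Agent.SRH Pool.Agent.EQT Pool.Agent.FHP Pool.Agent.TRP Pool.Agent.TRA
  Pool.Agent.Helper16.Knotoid

namespace Pool.Agent.NHT

variable {E : Type} [Fintype E] [DecidableEq E]

/-- if all classes are cut then the determinant is a unit -/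
theorem detJ_full (M : Matrix E E (ZMod 2)) (hM : ∀ i j, M i j = M j i) (σ : E → Bool)
    (J : Finset E) (hJ : (Finset.univ.image M).erase 0 ⊆ J.image M) : detJ M σ J = 1 := by
  classical
  have hJX : J.image M ⊆ Finset.univ.image M :=
    Finset.image_subset_image (Finset.subset_univ J)
  have hspan : span (ZMod 2) ((J.image M : Finset (E → ZMod 2)) : Set (E → ZMod 2)) =
      span (ZMod 2) ((Finset.univ.image M : Finset (E → ZMod 2)) : Set (E → ZMod 2)) := by
    refine le_antisymm (span_mono (Finset.coe_subset.2 hJX)) (span_le.2 fun v hv => ?_)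
    by_cases h0 : v = 0
    · rw [h0]
      exact zero_mem _
    · exact subset_span (hJ (Finset.mem_erase.2 ⟨h0, hv⟩))
  have hex : ex M (J.image M) = 0 := SRH.HV_span M _ hJX hspan
  have h1 := kap_ex M hM J
  rw [hex] at h1
  unfold detJ
  rw [Finset.sum_eq_single J]
  · rw [if_pos, Finset.sdiff_self, Finset.prod_empty]
    intro W' hW'
    have h2 := kap_ex M hM W'
    have h3 := Finset.card_le_card hW'
    omega
  · intro W hW hne
    rw [Finset.mem_filter] at hW
    rw [if_neg]
    intro h
    have h2 := kap_ex M hM W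
    have h3 := Finset.card_lt_card (lt_of_le_of_ne hW.2 (Ne.symm hne))
    have h4 := h J (Finset.Subset.refl J)
    omega
  · intro h
    exact absurd (Finset.mem_filter.2 ⟨Finset.mem_powerset.2 (Finset.subset_univ J), Finset.Subset.refl J⟩) h

variable {n : ℕ}

/-- **knotoid diagrams** -/
theorem cutDetO_full (D : GaussDiagram n) (S : Finset (Fin n)) (hS : Transversal D.Interlaced S) :
    cutDetO D S ≠ 0 := by
  classical
  obtain ⟨σ, hσ⟩ : ∃ σ, σ = cutState D.Interlaced D.sign := ⟨_, rfl⟩
  obtain ⟨u, hu0, hu⟩ := cutDetO_eq D S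
  have hR : Graph_R D.Interlaced D.sign = D.Cut σ := by
    rw [hσ]
    rfl
  have hr : ∀ c, row (Graph_R D.Interlaced D.sign) c = D.gmat σ c := by
    intro c
    rw [hR]
    exact row_eq D σ c
  have hr' : row (Graph_R D.Interlaced D.sign) = fun c => D.gmat σ c := funext hr
  have hrows : S.image (row (Graph_R D.Interlaced D.sign)) =
      (Finset.univ.image (D.gmat σ)).erase 0 := by
    rw [← Graph_image (Graph_irrefl D) (Graph_int_symm D) hS]
    unfold rows
    rw [hr']
  rw [hr'] at hrows
  rw [hu, ← hσ, detJ_full (D.gmat σ) (D.gmat_symm σ) σ S (subset_of_eq hrows.symm), mul_one]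
  exact hu0

/-- **knot diagrams** -/
theorem cutDet_full (hn : 0 < n) (g : GaussJones.Code n) (e : Fin n → Bool) (S : Finset (Fin n))
    (hS : Transversal (GaussJones.Interlaced g) S) : cutDet g e S ≠ 0 := by
  rw [cutDet_eq hn]
  rw [← interlaced_fun g e] at hS
  exact cutDetO_full (cutOpen g e) S hS

end Pool.Agent.NHT
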