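import Pool.Agent.NHT.Glob3
import Pool.Agent.NHT.FOLJ
import Pool.Agent.NHT.Dict3
import Pool.Agent.NHT.Full
import Pool.Agent.NHT.Final
import Pool.Agent.NZX.OneExc
import Pool.Agent.TRJ.Weighted

/-!
# NHT, version 3, module Final3: knots and knotoids (helper38)
-/

set_option autoImplicit false

open Submodule LaurentPolynomial

namespace Pool.Agent.NHT

open Pool.Agent.SPT Pool.Agent.SPT.Rel Pool.Agent.EQT Pool.Agent.FHP Pool.Agent.Helper16.Knotoid
open Pool.Agent.TRA Pool.Agent.TRP

theorem thm_OneExc : St_OneExc := fun _V _ _ _ X h0 u hu b hb => NZX.NZu_oneExc X h0 u hu b hb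

/-- **knotoid diagrams** -/
theorem knotoidF3 {n : ℕ} (D : GaussDiagram n) (S : Finset (Fin n)) (hS : Transversal D.Interlaced S)
    (J : Finset (Fin n)) (hJ : J ⊆ S) (hne : J.Nonempty) (hJS : J = S ∨ cutDetO D J ≠ 0) (B : ℕ)
    (h : Weighted (HasCycleInO D (S \ J)) J
        (Short S (cutTwist D.Interlaced D.sign) (2 * (B + 2) * (S.card + 1))) ∨
      ∃ p : Fin n → ℕ, Splits J (HasCycleInO D (S \ J)) p ∧
        ∀ q, GoodBlock3 J (HasCycleInO D (S \ J)) (row (D.Cut (cutState D.Interlaced D.sign)))
          (cutTwist D.Interlaced D.sign) p ((S.card + 2).factorial *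
            (2 * B + 4 + ∑ j ∈ S \ J, (cutTwist D.Interlaced D.sign j).natAbs)) q) :
    B < terms D.normalizedBracket := by
  classical
  have hdet : cutDetO D J ≠ 0 := by
    rcases hJS with h1 | h1
    · rw [h1]
      exact cutDetO_full D S hS
    · exact h1
  rcases h with h | ⟨p, hp, hq⟩
  · exact knotoidG3 TRJ.thm_Forest TRJ.thm_Box thm_KnotoidBlock D S hS J hJ hne hdet B h
  · by_contra hB
    obtain ⟨u, hF, hsg, hu⟩ := knotoidFOLJ D B (not_lt.1 hB) S hS J hJ hne hdet
    have har : (fun i => twist (Graph_R D.Interlaced D.sign) (cutState D.Interlaced D.sign)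
        (row (Graph_R D.Interlaced D.sign) i)) = cutTwist D.Interlaced D.sign :=
      funext fun i => twist_row (Graph_irrefl D) (Graph_int_symm D) i
    have hrows : J.image (row (Graph_R D.Interlaced D.sign)) ⊆
        rows (D.Cut (cutState D.Interlaced D.sign)) := by
      unfold rows
      exact Finset.image_subset_image (Finset.subset_univ J)
    refine hu (class_main3 card9 TRG.rankReg5 corank3 thm_OneExc TRJ.thm_WeightedBlock J _ _
      (thm_KnotoidBlock n D S J hS hJ)
      (fun Y hY => TRL.knotoid_reg D _ Y (hY.trans hrows)) _ u _ _ ?_ hF hsg p hp fun q => ?_)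
    · exact Nat.mul_pos (Nat.factorial_pos _) (by omega)
    · rw [har]
      exact hq q

/-- **knot diagrams** -/
theorem knotF3 {n : ℕ} (g : GaussJones.Code n) (e : Fin n → Bool) (S : Finset (Fin n))
    (hS : Transversal (GaussJones.Interlaced g) S) (J : Finset (Fin n)) (hJ : J ⊆ S)
    (hne : J.Nonempty) (hJS : J = S ∨ cutDet g e J ≠ 0) (B : ℕ)
    (h : Weighted (HasCycleIn g (S \ J)) J
        (Short S (cutTwist (GaussJones.Interlaced g) e) (2 * (B + 2) * (S.card + 1))) ∨
      ∃ p : Fin n → ℕ, Splits J (HasCycleIn g (S \ J)) p ∧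
        ∀ q, GoodBlock3 J (HasCycleIn g (S \ J))
          (row (GaussJones.Cut g e (cutState (GaussJones.Interlaced g) e)))
          (cutTwist (GaussJones.Interlaced g) e) p ((S.card + 2).factorial *
            (2 * B + 4 + ∑ j ∈ S \ J, (cutTwist (GaussJones.Interlaced g) e j).natAbs)) q) :
    B < terms (GaussJones.fPoly g e) := by
  classical
  have hn : 0 < n := by
    obtain ⟨i, -⟩ := hne
    exact i.pos
  have hdet : cutDet g e J ≠ 0 := by
    rcases hJS with h1 | h1
    · rw [h1]
      exact cutDet_full hn g e S hS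
    · exact h1
  rcases h with h | ⟨p, hp, hq⟩
  · exact knotG3 TRJ.thm_Forest TRJ.thm_Box thm_KnotBlock g e S hS J hJ hne hdet B h
  · by_contra hB
    have hirr : ∀ i, ¬ GaussJones.Interlaced g i i := by
      intro i h
      rcases h with h | h <;> exact lt_irrefl _ h.1
    have hsy : ∀ i j, GaussJones.Interlaced g i j → GaussJones.Interlaced g j i :=
      fun i j h => h.symm
    obtain ⟨u, hF, hsg, hu⟩ := knotFOLJ g e B (not_lt.1 hB) S hS J hJ hne hdet
    have har : (fun i => twist (Graph_R (GaussJones.Interlaced g) e)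
        (cutState (GaussJones.Interlaced g) e) (row (Graph_R (GaussJones.Interlaced g) e) i)) =
        cutTwist (GaussJones.Interlaced g) e := funext fun i => twist_row hirr hsy i
    have hrows : J.image (row (Graph_R (GaussJones.Interlaced g) e)) ⊆
        rows (GaussJones.Cut g e (cutState (GaussJones.Interlaced g) e)) := by
      unfold rows
      exact Finset.image_subset_image (Finset.subset_univ J)
    refine hu (class_main3 card9 TRG.rankReg5 corank3 thm_OneExc TRJ.thm_WeightedBlock J _ _
      (thm_KnotBlock n g e S J hS hJ)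
      (fun Y hY => TRL.knot_reg g e _ Y (hY.trans hrows)) _ u _ _ ?_ hF hsg p hp fun q => ?_)
    · exact Nat.mul_pos (Nat.factorial_pos _) (by omega)
    · rw [har]
      exact hq q

end Pool.Agent.NHT
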