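import Mathlib
import Pool.Agent.NHT.Final3
import Pool.Agent.NHT.Defs4

/-!
# NHT, version 3, module Odd: one long class (helper38)

If one class is long then there is a nonempty set of classes which meets the supports of all short
vectors in an even number of classes.
-/

set_option autoImplicit false
set_option linter.unusedSectionVars false

open Submodule LaurentPolynomial

namespace Pool.Agent.NHT

open Pool.Agent.SPT Pool.Agent.SPT.Rel Pool.Agent.EQT Pool.Agent.FHP Pool.Agent.Helper16.Knotoid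
open Pool.Agent.TRA Pool.Agent.TRP

section

variable {ι : Type} [DecidableEq ι]

/-- the odd part of an integral vector -/
theorem exists_odd_part (X : Finset ι) (u : ι → ℤ) (h0 : ∃ v ∈ X, u v ≠ 0) :
    ∃ g : ℤ, g ≠ 0 ∧ ∃ u' : ι → ℤ, (∀ v ∈ X, u v = g * u' v) ∧ ∃ v ∈ X, Odd (u' v) := by
  classical
  obtain ⟨v₀, hv₀, hu₀⟩ := h0
  obtain ⟨u', hu', hg⟩ := Finset.extract_gcd u ⟨v₀, hv₀⟩
  refine ⟨X.gcd u, fun h => hu₀ ?_, u', hu', ?_⟩
  · rw [hu' v₀ hv₀, h, zero_mul]
  · by_contra hno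
    push Not at hno
    have h1 : (2 : ℤ) ∣ X.gcd u' := by
      refine Finset.dvd_gcd fun v hv => ?_
      have h2 := hno v hv
      rw [Int.not_odd_iff_even] at h2
      exact h2.two_dvd
    rw [hg] at h1
    exact absurd (Int.eq_one_of_dvd_one (by norm_num) h1) (by norm_num)

/-- **The parity set** -/
theorem exists_even (X : Finset ι) (a : ι → ℤ) (N T : ℕ) (hN : 1 ≤ N)
    (hT : X.card * X.card.factorial * (N - 1) < T) (h0 : ∃ v ∈ X, (T : ℤ) ≤ |a v|) :
    ∃ J ⊆ X, J.Nonempty ∧ MeetsEvenly X a N J := by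
  classical
  obtain ⟨u, hu, -, hsg⟩ := SRH.exists_follows_signs X a N T hN hT
  obtain ⟨v₀, hv₀, ha₀⟩ := h0
  have hne : u v₀ ≠ 0 := by
    intro h
    have h1 := hsg v₀ hv₀ ha₀
    rw [h, mul_zero] at h1
    exact lt_irrefl _ h1
  obtain ⟨g, hg, u', hu', v₁, hv₁, hodd⟩ := exists_odd_part X u ⟨v₀, hv₀, hne⟩
  refine ⟨X.filter fun v => Odd (u' v), Finset.filter_subset _ _,
    ⟨v₁, Finset.mem_filter.2 ⟨hv₁, hodd⟩⟩, fun d hd => ?_⟩
  have h1 : ∑ v ∈ X, u' v * d v = 0 := by
    have h2 := hu d hd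
    have h3 : ∑ v ∈ X, u v * d v = g * ∑ v ∈ X, u' v * d v := by
      rw [Finset.mul_sum]
      refine Finset.sum_congr rfl fun v hv => ?_
      rw [hu' v hv, mul_assoc]
    rw [h3] at h2
    exact (mul_eq_zero.1 h2).resolve_left hg
  have h4 : Even (∑ v ∈ X, (u' v * d v - if Odd (u' v) then d v else 0)) := by
    refine Finset.even_sum _ fun v _ => ?_
    split_ifs with h5
    · have h6 : u' v * d v - d v = (u' v - 1) * d v := by ring
      rw [h6]
      exact (h5.sub_odd odd_one).mul_right _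
    · rw [sub_zero]
      exact (Int.not_odd_iff_even.1 h5).mul_right _
  rw [Finset.sum_sub_distrib, h1, zero_sub, even_neg, ← Finset.sum_filter] at h4
  exact h4

/-- the weights `-1` -/
theorem weighted_of_even (Cyc : Finset ι → Prop) (S J : Finset ι) (a : ι → ℤ) (N : ℕ)
    (h : MeetsEvenly S a N J) : Weighted Cyc J (Short S a N) := by
  classical
  refine ⟨fun _ => -1, fun i _ => neg_ne_zero.2 one_ne_zero, fun d hd => ?_, Or.inr fun i _ =>
    ⟨-1, by push_cast; rfl, le_refl _, by norm_num⟩⟩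
  have h1 : ∀ s : Finset ι, ∏ i ∈ s, (-1 : ℂ) ^ d i = (-1 : ℂ) ^ (∑ i ∈ s, d i) := by
    intro s
    induction s using Finset.induction_on with
    | empty => rw [Finset.prod_empty, Finset.sum_empty, _root_.zpow_zero]
    | insert a s ha ih =>
      rw [Finset.prod_insert ha, Finset.sum_insert ha,
        zpow_add₀ (neg_ne_zero.2 (one_ne_zero : (1 : ℂ) ≠ 0)), ih]
  rw [h1]
  exact (h d hd).neg_one_zpow

end

/-- the threshold -/
theorem odd_le (m B : ℕ) :
    m * m.factorial * (2 * (B + 2) * (m + 1) - 1) < (m + 2).factorial * (2 * B + 4) := by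
  have h1 := folJ_le m m B 0 (le_refl m)
  rw [Nat.add_zero, Nat.add_zero] at h1
  exact h1

/-- **knotoid diagrams** -/
theorem knotoidOdd {n : ℕ} (D : GaussDiagram n) (S : Finset (Fin n))
    (hS : Transversal D.Interlaced S) (B : ℕ)
    (hlong : ∃ i ∈ S, (((S.card + 2).factorial * (2 * B + 4) : ℕ) : ℤ) ≤
      |cutTwist D.Interlaced D.sign i|)
    (hdet : ∀ J ⊆ S, J.Nonempty → J ≠ S →
      MeetsEvenly S (cutTwist D.Interlaced D.sign) (2 * (B + 2) * (S.card + 1)) J →
      cutDetO D J ≠ 0) :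
    B < terms D.normalizedBracket := by
  classical
  obtain ⟨J, hJ, hne, hev⟩ := exists_even S (cutTwist D.Interlaced D.sign)
    (2 * (B + 2) * (S.card + 1)) ((S.card + 2).factorial * (2 * B + 4))
    (Nat.succ_le_of_lt (by positivity))
    (odd_le S.card B) hlong
  refine knotoidF3 D S hS J hJ hne ?_ B (Or.inl (weighted_of_even _ S J _ _ hev))
  by_cases h : J = S
  · exact Or.inl h
  · exact Or.inr (hdet J hJ hne h hev)

/-- **knot diagrams** -/
theorem knotOdd {n : ℕ} (g : GaussJones.Code n) (e : Fin n → Bool) (S : Finset (Fin n))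
    (hS : Transversal (GaussJones.Interlaced g) S) (B : ℕ)
    (hlong : ∃ i ∈ S, (((S.card + 2).factorial * (2 * B + 4) : ℕ) : ℤ) ≤
      |cutTwist (GaussJones.Interlaced g) e i|)
    (hdet : ∀ J ⊆ S, J.Nonempty → J ≠ S →
      MeetsEvenly S (cutTwist (GaussJones.Interlaced g) e) (2 * (B + 2) * (S.card + 1)) J →
      cutDet g e J ≠ 0) :
    B < terms (GaussJones.fPoly g e) := by
  classical
  obtain ⟨J, hJ, hne, hev⟩ := exists_even S (cutTwist (GaussJones.Interlaced g) e)
    (2 * (B + 2) * (S.card + 1)) ((S.card + 2).factorial * (2 * B + 4))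
    (Nat.succ_le_of_lt (by positivity))
    (odd_le S.card B) hlong
  refine knotF3 g e S hS J hJ hne ?_ B (Or.inl (weighted_of_even _ S J _ _ hev))
  by_cases h : J = S
  · exact Or.inl h
  · exact Or.inr (hdet J hJ hne h hev)

end Pool.Agent.NHT
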