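import Mathlib
import Pool.Agent.NHT.Full
import Pool.Agent.NHT.Dict3
import Pool.Agent.NHT.Adequate

/-!
# NHT, version 6, module Span: the determinant when the other classes contain no cycle (helper38)
-/

set_option autoImplicit false
set_option linter.unusedSectionVars false

open Module Submodule Pool.Agent.UNI LaurentPolynomial Pool.Agent.SPT Pool.Agent.SPT.Rel
  Pool.Agent.SPT.Lin Pool.Agent.SRH Pool.Agent.EQT Pool.Agent.FHP Pool.Agent.TRP Pool.Agent.TRA
  Pool.Agent.Helper16.Knotoid

namespace Pool.Agent.NHT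

section

variable {E : Type} [Fintype E] [DecidableEq E]

/-- if the rows of `J` span the row space then the determinant is a unit -/
theorem detJ_span (M : Matrix E E (ZMod 2)) (hM : ∀ i j, M i j = M j i) (σ : E → Bool)
    (J : Finset E) (hJ : span (ZMod 2) ((J.image M : Finset (E → ZMod 2)) : Set (E → ZMod 2)) =
      span (ZMod 2) ((Finset.univ.image M : Finset (E → ZMod 2)) : Set (E → ZMod 2))) :
    detJ M σ J = 1 := by
  classical
  have hJX : J.image M ⊆ Finset.univ.image M :=
    Finset.image_subset_image (Finset.subset_univ J)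
  have hexW : ∀ W : Finset E, J ⊆ W → ex M (W.image M) = 0 := by
    intro W hW
    have h1 : W.image M ⊆ Finset.univ.image M := Finset.image_subset_image (Finset.subset_univ W)
    refine SRH.HV_span M _ h1 (le_antisymm (span_mono (Finset.coe_subset.2 h1)) ?_)
    rw [← hJ]
    exact span_mono (Finset.coe_subset.2 (Finset.image_subset_image hW))
  have hkap : ∀ W : Finset E, J ⊆ W → kap M W + M.rank = W.card := by
    intro W hW
    have h1 := kap_ex M hM W
    rw [hexW W hW] at h1
    omega
  have h1 := hkap J (Finset.Subset.refl J)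
  unfold detJ
  rw [Finset.sum_eq_single J]
  · rw [if_pos, Finset.sdiff_self, Finset.prod_empty]
    intro W' hW'
    have h2 := hkap W' hW'
    have h3 := Finset.card_le_card hW'
    omega
  · intro W hW hne
    rw [Finset.mem_filter] at hW
    rw [if_neg]
    intro h
    have h2 := hkap W hW.2
    have h3 := Finset.card_lt_card (lt_of_le_of_ne hW.2 (Ne.symm hne))
    have h4 := h J (Finset.Subset.refl J)
    omega
  · intro h
    exact absurd (Finset.mem_filter.2
      ⟨Finset.mem_powerset.2 (Finset.subset_univ J), Finset.Subset.refl J⟩) h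

end

variable {n : ℕ}

/-- the rows of `J` span -/
theorem cutDetO_rows (D : GaussDiagram n) (S : Finset (Fin n)) (hS : Transversal D.Interlaced S)
    (J : Finset (Fin n))
    (h1 : span (ZMod 2) ((J.image (row (Graph_R D.Interlaced D.sign)) : Finset (Fin n → ZMod 2)) :
      Set (Fin n → ZMod 2)) =
      span (ZMod 2) ((S.image (row (Graph_R D.Interlaced D.sign)) : Finset (Fin n → ZMod 2)) :
        Set (Fin n → ZMod 2))) : cutDetO D J ≠ 0 := by
  classical
  obtain ⟨σ, hσ⟩ : ∃ σ, σ = cutState D.Interlaced D.sign := ⟨_, rfl⟩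
  obtain ⟨u, hu0, hu⟩ := cutDetO_eq D J
  have hR : Graph_R D.Interlaced D.sign = D.Cut σ := by
    rw [hσ]
    rfl
  have hr : ∀ c, row (Graph_R D.Interlaced D.sign) c = D.gmat σ c := by
    intro c
    rw [hR]
    exact row_eq D σ c
  have hr' : row (Graph_R D.Interlaced D.sign) = fun c => D.gmat σ c := funext hr
  have hrows : S.image (row (Graph_R D.Interlaced D.sign)) =
      (Finset.univ.image (D.gmat σ)).erase 0 := by
    rw [← Graph_image (Graph_irrefl D) (Graph_int_symm D) hS]
    unfold rows
    rw [hr']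
  rw [hrows, hr'] at h1
  have h2 : span (ZMod 2) (((Finset.univ.image (D.gmat σ)).erase 0 : Finset (Fin n → ZMod 2)) :
      Set (Fin n → ZMod 2)) = span (ZMod 2) ((Finset.univ.image (D.gmat σ) :
        Finset (Fin n → ZMod 2)) : Set (Fin n → ZMod 2)) := by
    refine le_antisymm (span_mono (Finset.coe_subset.2 (Finset.erase_subset _ _)))
      (span_le.2 fun v hv => ?_)
    by_cases h0 : v = 0
    · rw [h0]
      exact zero_mem _
    · exact subset_span (Finset.mem_coe.2 (Finset.mem_erase.2 ⟨h0, Finset.mem_coe.1 hv⟩))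
  rw [hu, ← hσ, detJ_span (D.gmat σ) (D.gmat_symm σ) σ J (h1.trans h2), mul_one]
  exact hu0

/-- no cycle outside of `J` -/
theorem span_of_block {ι V : Type} [DecidableEq ι] [DecidableEq V] [AddCommGroup V]
    [Module (ZMod 2) V] {S : Finset ι} {Cyc : Finset ι → Prop} {r : ι → V} (hB : Block S Cyc r)
    {J : Finset ι} (hJ : J ⊆ S) (hc : ¬ Cyc (S \ J)) :
    span (ZMod 2) ((J.image r : Finset V) : Set V) =
      span (ZMod 2) ((S.image r : Finset V) : Set V) := by
  have h1 := (hB.co (S \ J) Finset.sdiff_subset).1 hc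
  unfold Co at h1
  rw [hB.image_sdiff Finset.sdiff_subset, Finset.sdiff_sdiff_eq_self hJ] at h1
  exact h1

/-- **knotoid diagrams** -/
theorem cutDetO_span (D : GaussDiagram n) (S : Finset (Fin n)) (hS : Transversal D.Interlaced S)
    (J : Finset (Fin n)) (hJ : J ⊆ S) (hc : ¬ HasCycleInO D ∅ (S \ J)) : cutDetO D J ≠ 0 := by
  classical
  have hB := thm_KnotoidBlock n D S S hS (Finset.Subset.refl S)
  rw [Finset.sdiff_self] at hB
  exact cutDetO_rows D S hS J (span_of_block hB hJ hc)

/-- **knot diagrams** -/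
theorem cutDet_span (hn : 0 < n) (g : GaussJones.Code n) (e : Fin n → Bool) (S : Finset (Fin n))
    (hS : Transversal (GaussJones.Interlaced g) S) (J : Finset (Fin n)) (hJ : J ⊆ S)
    (hc : ¬ HasCycleIn g ∅ (S \ J)) : cutDet g e J ≠ 0 := by
  classical
  have hB := thm_KnotBlock n g e S S hS (Finset.Subset.refl S)
  rw [Finset.sdiff_self] at hB
  have h1 := span_of_block hB hJ hc
  rw [cutDet_eq hn]
  rw [← interlaced_fun g e] at hS h1
  exact cutDetO_rows (cutOpen g e) S hS J h1

end Pool.Agent.NHT
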