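import Mathlib
import Pool.Agent.NHT.Span
import Pool.Agent.NHT.Odd

/-!
# NHT, module OneKind: all twist classes are of the same kind (helper68)

The state which cuts all crossings and the state which cuts no crossing have together `n + 2` closed
curves (components) if and only if the cut matrix is idempotent.  In this case the classes with an odd
twist number span, that is, the classes with an even twist number contain no cycle of the graph of all
classes.
-/

set_option autoImplicit false
set_option linter.unusedSectionVars false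

open Module Submodule Pool.Agent.UNI LaurentPolynomial Pool.Agent.SPT Pool.Agent.SPT.Rel
  Pool.Agent.SPT.Lin Pool.Agent.SRH Pool.Agent.EQT Pool.Agent.FHP Pool.Agent.TRP Pool.Agent.TRA
  Pool.Agent.Helper16.Knotoid
open scoped Matrix

namespace Pool.Agent.NHT

section

variable {E : Type} [Fintype E] [DecidableEq E]

theorem OneKind_ker_univ (M : Matrix E E (ZMod 2)) (x : E → ZMod 2) :
    x ∈ LinearMap.ker (MW M Finset.univ).mulVecLin ↔ M *ᵥ x = 0 := by
  rw [mem_ker_MW, funext_iff]
  refine forall_congr' fun c => ?_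
  rw [if_pos (Finset.mem_univ c), add_zero]
  rfl

theorem OneKind_ker_empty (M : Matrix E E (ZMod 2)) (x : E → ZMod 2) :
    x ∈ LinearMap.ker (MW M ∅).mulVecLin ↔ M *ᵥ x = x := by
  rw [mem_ker_MW, funext_iff]
  refine forall_congr' fun c => ?_
  rw [if_neg (Finset.notMem_empty c)]
  exact CharTwo.add_eq_zero

/-- the matrix is idempotent -/
theorem OneKind_idem (M : Matrix E E (ZMod 2))
    (h : kap M Finset.univ + kap M ∅ = Fintype.card E) (x : E → ZMod 2) :
    M *ᵥ (M *ᵥ x) = M *ᵥ x := by
  classical
  have hinf : LinearMap.ker (MW M Finset.univ).mulVecLin ⊓ LinearMap.ker (MW M ∅).mulVecLin = ⊥ := by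
    rw [eq_bot_iff]
    rintro y ⟨h1, h2⟩
    have h1' := (OneKind_ker_univ M y).1 h1
    have h2' := (OneKind_ker_empty M y).1 h2
    rw [Submodule.mem_bot, ← h2', h1']
  have hsup : LinearMap.ker (MW M Finset.univ).mulVecLin ⊔ LinearMap.ker (MW M ∅).mulVecLin = ⊤ := by
    apply Submodule.eq_top_of_finrank_eq
    have h3 := Submodule.finrank_sup_add_finrank_inf_eq
      (LinearMap.ker (MW M Finset.univ).mulVecLin) (LinearMap.ker (MW M ∅).mulVecLin)
    rw [hinf, finrank_bot, add_zero] at h3
    rw [h3, Module.finrank_fintype_fun_eq_card]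
    exact h
  have hx : x ∈ LinearMap.ker (MW M Finset.univ).mulVecLin ⊔
      LinearMap.ker (MW M ∅).mulVecLin := by
    rw [hsup]
    exact Submodule.mem_top
  obtain ⟨y, hy, z, hz, rfl⟩ := Submodule.mem_sup.1 hx
  have hy' := (OneKind_ker_univ M y).1 hy
  have hz' := (OneKind_ker_empty M z).1 hz
  rw [Matrix.mulVec_add, hy', hz', zero_add, hz']

open Classical in
/-- a vector of the image which vanishes on the odd classes is zero -/
theorem OneKind_zero (M : Matrix E E (ZMod 2)) (hM : ∀ i j, M i j = M j i)
    (hid : ∀ x, M *ᵥ (M *ᵥ x) = M *ᵥ x) (x : E → ZMod 2)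
    (hx : ∀ c, Odd (Finset.univ.filter fun c' => M c' = M c).card → (M *ᵥ x) c = 0) :
    M *ᵥ x = 0 := by
  rw [← hid x]
  funext j
  have h0 : (M *ᵥ (M *ᵥ x)) j = ∑ c, M j c * (M *ᵥ x) c := rfl
  obtain ⟨r, hr⟩ : ∃ r : E → E → ZMod 2, ∀ c, r c = M c := ⟨fun c => M c, fun _ => rfl⟩
  rw [h0, ← Finset.sum_fiberwise_of_maps_to (s := Finset.univ) (t := Finset.univ.image r)
    (g := r) (fun c _ => Finset.mem_image_of_mem r (Finset.mem_univ c))]
  rw [Pi.zero_apply]
  refine Finset.sum_eq_zero fun v hv => ?_
  obtain ⟨c₀, -, rfl⟩ := Finset.mem_image.1 hv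
  have hf : ∀ c ∈ Finset.univ.filter (fun c => r c = r c₀),
      M j c * (M *ᵥ x) c = M j c₀ * (M *ᵥ x) c₀ := by
    intro c hc
    have h1 : M c = M c₀ := by
      rw [← hr, ← hr]
      exact (Finset.mem_filter.1 hc).2
    have h2 : (M *ᵥ x) c = (M *ᵥ x) c₀ := by
      show M c ⬝ᵥ x = M c₀ ⬝ᵥ x
      rw [h1]
    rw [h2, hM j c, hM j c₀, h1]
  rw [Finset.sum_congr rfl hf, Finset.sum_const]
  have hcard : (Finset.univ.filter fun c => r c = r c₀).card =
      (Finset.univ.filter fun c' => M c' = M c₀).card := by
    refine congrArg Finset.card (Finset.filter_congr fun c _ => ?_)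
    rw [hr, hr]
  rw [hcard]
  by_cases hO : Odd (Finset.univ.filter fun c' => M c' = M c₀).card
  · rw [hx c₀ hO, mul_zero, nsmul_zero]
  · obtain ⟨k, hk⟩ := Nat.not_odd_iff_even.1 hO
    rw [hk, add_nsmul, CharTwo.add_self_eq_zero]

/-- the rows of `J` span -/
theorem OneKind_span (M : Matrix E E (ZMod 2)) (J : Finset E)
    (h : ∀ x, (∀ c ∈ J, (M *ᵥ x) c = 0) → M *ᵥ x = 0) (c : E) :
    M c ∈ span (ZMod 2) ((J.image M : Finset (E → ZMod 2)) : Set (E → ZMod 2)) := by
  classical
  by_contra hc
  obtain ⟨f, hf, hA⟩ := Submodule.exists_dual_map_eq_bot_of_notMem hc inferInstance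
  have h1 : ∀ a : E → ZMod 2, a ⬝ᵥ (fun c => f (fun j => if c = j then 1 else 0)) = f a := by
    intro a
    rw [LinearMap.pi_apply_eq_sum_univ f a]
    unfold dotProduct
    exact Finset.sum_congr rfl fun c _ => rfl
  have h2 := h (fun c => f (fun j => if c = j then 1 else 0)) (fun d hd => by
    have h3 : (M *ᵥ fun c => f (fun j => if c = j then 1 else 0)) d = f (M d) := h1 (M d)
    rw [h3]
    have h4 : f (M d) ∈ (span (ZMod 2)
        ((J.image M : Finset (E → ZMod 2)) : Set (E → ZMod 2))).map f :=
      ⟨M d, subset_span (Finset.mem_coe.2 (Finset.mem_image_of_mem M hd)), rfl⟩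
    rw [hA] at h4
    exact h4)
  apply hf
  rw [← h1 (M c)]
  exact congrFun h2 c

end

variable {n : ℕ}

open Classical in
/-- the parity of the twist number -/
theorem OneKind_parity (I : Fin n → Fin n → Prop) (e : Fin n → Bool) (i : Fin n) :
    Odd (cutTwist I e i) ↔ Odd (Finset.univ.filter fun c => Twins I i c).card := by
  have h1 : Even (twistNumber I e i - ((Finset.univ.filter fun c => Twins I i c).card : ℤ)) := by
    have h2 : ((Finset.univ.filter fun c => Twins I i c).card : ℤ) =
        ∑ j with Twins I i j, (1 : ℤ) := by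
      rw [Finset.sum_const, nsmul_eq_mul, mul_one]
    unfold twistNumber
    rw [h2, ← Finset.sum_sub_distrib]
    refine Finset.even_sum _ fun j _ => ?_
    by_cases h3 : e j = true
    · rw [if_pos h3, sub_self]
      exact Even.zero
    · rw [if_neg h3]
      exact ⟨-1, by norm_num⟩
  have h4 : Odd (twistNumber I e i) ↔ Odd (Finset.univ.filter fun c => Twins I i c).card := by
    rw [Int.even_sub'] at h1
    rw [h1, Int.odd_coe_nat]
  rw [← h4]
  unfold cutTwist
  split_ifs
  · exact odd_neg
  · exact Iff.rfl

/-- **the odd classes span** -/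
theorem OneKind_rows (D : GaussDiagram n) (S : Finset (Fin n)) (hS : Transversal D.Interlaced S)
    (h2 : D.comps (cutState D.Interlaced D.sign) +
      D.comps (fun i => !cutState D.Interlaced D.sign i) = n + 2) :
    span (ZMod 2) (((S.filter fun i => Odd (cutTwist D.Interlaced D.sign i)).image
      (row (Graph_R D.Interlaced D.sign)) : Finset (Fin n → ZMod 2)) : Set (Fin n → ZMod 2)) =
      span (ZMod 2) ((S.image (row (Graph_R D.Interlaced D.sign)) : Finset (Fin n → ZMod 2)) :
        Set (Fin n → ZMod 2)) := by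
  classical
  obtain ⟨σ, hσ⟩ : ∃ σ, σ = cutState D.Interlaced D.sign := ⟨_, rfl⟩
  have hR : Graph_R D.Interlaced D.sign = D.Cut σ := by
    rw [hσ]
    rfl
  have hr : ∀ c, row (Graph_R D.Interlaced D.sign) c = D.gmat σ c := by
    intro c
    rw [hR]
    exact row_eq D σ c
  have hr' : row (Graph_R D.Interlaced D.sign) = fun c => D.gmat σ c := funext hr
  have hk : kap (D.gmat σ) Finset.univ + kap (D.gmat σ) ∅ = Fintype.card (Fin n) := by
    have h3 : st σ Finset.univ = cutState D.Interlaced D.sign := by
      funext c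
      unfold st
      rw [if_pos (Finset.mem_univ c), hσ]
    have h4 : st σ ∅ = fun i => !cutState D.Interlaced D.sign i := by
      funext c
      unfold st
      rw [if_neg (Finset.notMem_empty c), hσ]
    have h5 := comps_st D σ Finset.univ
    have h6 := comps_st D σ ∅
    rw [h3] at h5
    rw [h4] at h6
    rw [Fintype.card_fin]
    omega
  have hid := OneKind_idem (D.gmat σ) hk
  have hodd : ∀ c, Odd (Finset.univ.filter fun c' => D.gmat σ c' = D.gmat σ c).card ↔
      Odd (cutTwist D.Interlaced D.sign c) := by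
    intro c
    rw [OneKind_parity]
    have h5 : (Finset.univ.filter fun c' => D.gmat σ c' = D.gmat σ c) =
        Finset.univ.filter fun c' => Twins D.Interlaced c c' := by
      ext c'
      rw [Finset.mem_filter, Finset.mem_filter, ← hr, ← hr, eq_comm,
        Graph_row (Graph_irrefl D) (Graph_int_symm D)]
    rw [h5]
  have hsp := OneKind_span (D.gmat σ) (S.filter fun i => Odd (cutTwist D.Interlaced D.sign i))
    (fun x hx => OneKind_zero (D.gmat σ) (D.gmat_symm σ) hid x fun c hc => by
      by_cases h0 : ∃ j, D.Interlaced c j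
      · obtain ⟨s, hs, hcs⟩ := hS.2.2 c h0
        have h6 : D.gmat σ c = D.gmat σ s := by
          rw [← hr, ← hr]
          exact (Graph_row (Graph_irrefl D) (Graph_int_symm D) c s).2 hcs
        have h7 : Odd (cutTwist D.Interlaced D.sign s) := by
          rw [← hodd, ← h6]
          exact hc
        have h8 := hx s (Finset.mem_filter.2 ⟨hs, h7⟩)
        show D.gmat σ c ⬝ᵥ x = 0
        rw [h6]
        exact h8
      · have h6 : D.gmat σ c = 0 := by
          by_contra h
          rw [← hr] at h
          exact h0 ((Graph_ne c).1 h)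
        show D.gmat σ c ⬝ᵥ x = 0
        rw [h6]
        exact zero_dotProduct x)
  rw [hr']
  refine le_antisymm (span_mono (Finset.coe_subset.2
    (Finset.image_subset_image (Finset.filter_subset _ _)))) (span_le.2 fun v hv => ?_)
  obtain ⟨c, -, rfl⟩ := Finset.mem_image.1 (Finset.mem_coe.1 hv)
  exact hsp c

/-- from the rows to the graph -/
theorem OneKind_block {ι V : Type} [DecidableEq ι] [DecidableEq V] [AddCommGroup V]
    [Module (ZMod 2) V] {S : Finset ι} {Cyc : Finset ι → Prop} {r : ι → V} (hB : Block S Cyc r)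
    (a : ι → ℤ) (N : ℕ) (hne : S.Nonempty)
    (h1 : span (ZMod 2) (((S.filter fun i => Odd (a i)).image r : Finset V) : Set V) =
      span (ZMod 2) ((S.image r : Finset V) : Set V))
    (h2 : ∀ d, Short S a N d → Even (∑ i ∈ S, d i * a i)) :
    ∃ J ⊆ S, J.Nonempty ∧ ¬ Cyc (S \ J) ∧ MeetsEvenly S a N J := by
  classical
  refine ⟨S.filter fun i => Odd (a i), Finset.filter_subset _ _, ?_, ?_, ?_⟩
  · rw [Finset.nonempty_iff_ne_empty]
    intro h
    rw [h, Finset.image_empty, Finset.coe_empty, span_empty] at h1
    obtain ⟨i, hi⟩ := hne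
    have h3 : r i ∈ span (ZMod 2) ((S.image r : Finset V) : Set V) :=
      subset_span (Finset.mem_coe.2 (Finset.mem_image_of_mem r hi))
    rw [← h1, Submodule.mem_bot] at h3
    exact hB.ne i hi h3
  · rw [hB.co (S \ S.filter fun i => Odd (a i)) Finset.sdiff_subset]
    unfold Co
    rw [hB.image_sdiff Finset.sdiff_subset, Finset.sdiff_sdiff_eq_self (Finset.filter_subset _ _)]
    exact h1
  · intro d hd
    have h3 := h2 d hd
    have h4 : Even (∑ i ∈ S, (d i * a i - if Odd (a i) then d i else 0)) := by
      refine Finset.even_sum _ fun i _ => ?_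
      split_ifs with h5
      · have h6 : d i * a i - d i = d i * (a i - 1) := by ring
        rw [h6]
        exact (h5.sub_odd odd_one).mul_left _
      · rw [sub_zero]
        exact (Int.not_odd_iff_even.1 h5).mul_left _
    rw [Finset.sum_sub_distrib, ← Finset.sum_filter] at h4
    have h7 : ∑ i ∈ S.filter (fun i => Odd (a i)), d i = ∑ i ∈ S, d i * a i -
        (∑ i ∈ S, d i * a i - ∑ i ∈ S.filter (fun i => Odd (a i)), d i) := by ring
    rw [h7]
    exact h3.sub h4

/-- **Knotoid diagrams with classes of one kind**: if no short sum of twist numbers is odd, then the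
classes with an odd twist number meet all short vectors evenly, and the others contain no cycle. -/
theorem oneKindO (D : GaussDiagram n) (S : Finset (Fin n)) (hS : Transversal D.Interlaced S)
    (hne : S.Nonempty) (N : ℕ)
    (h2 : D.comps (cutState D.Interlaced D.sign) +
      D.comps (fun i => !cutState D.Interlaced D.sign i) = n + 2)
    (h : ∀ d, Short S (cutTwist D.Interlaced D.sign) N d →
      Even (∑ i ∈ S, d i * cutTwist D.Interlaced D.sign i)) :
    ∃ J ⊆ S, J.Nonempty ∧ ¬ HasCycleInO D ∅ (S \ J) ∧
      MeetsEvenly S (cutTwist D.Interlaced D.sign) N J := by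
  classical
  have hB := thm_KnotoidBlock n D S S hS (Finset.Subset.refl S)
  rw [Finset.sdiff_self] at hB
  exact OneKind_block hB _ N hne (OneKind_rows D S hS h2) h

/-- **Knot diagrams with classes of one kind** -/
theorem oneKindK (g : GaussJones.Code n) (e : Fin n → Bool) (S : Finset (Fin n))
    (hS : Transversal (GaussJones.Interlaced g) S) (hne : S.Nonempty) (N : ℕ)
    (h2 : GaussJones.loops g (cutAll (GaussJones.Interlaced g)) +
      GaussJones.loops g (fun i => !cutAll (GaussJones.Interlaced g) i) = n + 2)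
    (h : ∀ d, Short S (cutTwist (GaussJones.Interlaced g) e) N d →
      Even (∑ i ∈ S, d i * cutTwist (GaussJones.Interlaced g) e i)) :
    ∃ J ⊆ S, J.Nonempty ∧ ¬ HasCycleIn g ∅ (S \ J) ∧
      MeetsEvenly S (cutTwist (GaussJones.Interlaced g) e) N J := by
  classical
  have hn : 0 < n := by
    obtain ⟨i, -⟩ := hne
    exact i.pos
  have hB := thm_KnotBlock n g e S S hS (Finset.Subset.refl S)
  rw [Finset.sdiff_self] at hB
  refine OneKind_block hB _ N hne ?_ h
  have hc : ∀ i, cutAll (GaussJones.Interlaced g) i =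
      (cutState (GaussJones.Interlaced g) e i == e i) := by
    intro i
    unfold cutAll cutState
    by_cases h : ∃ j, Twins (GaussJones.Interlaced g) i j ∧ GaussJones.Interlaced g i j
    · rw [if_pos h, if_pos h]
      cases e i <;> rfl
    · rw [if_neg h, if_neg h]
      cases e i <;> rfl
  have h3 : cutAll (GaussJones.Interlaced g) =
      fun i => cutState (GaussJones.Interlaced g) e i == e i := funext hc
  have h4 : (fun i => !cutAll (GaussJones.Interlaced g) i) =
      fun i => (!cutState (GaussJones.Interlaced g) e i) == e i := by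
    funext i
    rw [hc i]
    cases cutState (GaussJones.Interlaced g) e i <;> cases e i <;> rfl
  rw [h4, h3, loops_closed hn g e, loops_closed hn g e (fun i =>
    !cutState (GaussJones.Interlaced g) e i)] at h2
  have h5 := interlaced_fun g e
  rw [← h5] at hS h2 ⊢
  exact OneKind_rows (cutOpen g e) S hS h2

end Pool.Agent.NHT
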