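import Pool.Agent.NHT.Final7
import Pool.Agent.NHT.OneKind
import Pool.Agent.NHT.FOLN
import Pool.Agent.NHT.Class5
import Pool.Agent.NHT.Defs9
import Pool.Agent.OCY.All
import Pool.Agent.OCY.Block

/-!
# NHT, version 9, module Final9: the final statement (helper38)
-/

set_option autoImplicit false

open Submodule LaurentPolynomial

namespace Pool.Agent.NHT

open Pool.Agent.SPT Pool.Agent.SPT.Rel Pool.Agent.EQT Pool.Agent.FHP Pool.Agent.Helper16.Knotoid
open Pool.Agent.TRA Pool.Agent.TRP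

/-- the statement on nearly odd multiples -/
def St_Near : Prop :=
  ∀ (V : Type) [AddCommGroup V] [Module (ZMod 2) V] [DecidableEq V] (Y : Finset V), (0 : V) ∉ Y →
    ∀ (a u t : V → ℤ) (l : ℤ) (T m : ℕ), 1 ≤ l → 1 ≤ T → (∀ v ∈ Y, |u v - l * a v| ≤ l * T) →
    (∀ v ∈ Y, Odd (t v)) →
    4 * (((Y.card * T : ℕ) : ℤ) + ∑ v ∈ Y, |a v - t v * m|) ≤ (m : ℤ) → NZu Y u

theorem good5 {ι V : Type} [DecidableEq ι] [DecidableEq V] [AddCommGroup V] [Module (ZMod 2) V]
    {J : Finset ι} {Cyc : Finset ι → Prop} {w : ι → V} {a : ι → ℤ} {p : ι → ℕ} {T q : ℕ}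
    (h : GoodBlock5 J Cyc w a p T q) : GoodBlock3 J Cyc w a p T q ∨
      (NearOdd J a p T q ∨ OneCycle J Cyc a p T q) := by
  rcases h with ⟨h1, h2 | h2⟩ | h | h | h | h
  · exact Or.inl (Or.inr (Or.inl ⟨h2, h1⟩))
  · exact Or.inl (Or.inr (Or.inr (Or.inl ⟨h2, h1⟩)))
  · exact Or.inl (Or.inl h)
  · exact Or.inr (Or.inl h)
  · exact Or.inr (Or.inr h)
  · exact Or.inl (Or.inr (Or.inr (Or.inr (Or.inl h))))

/-- nearly odd multiples -/
theorem near_block (hN : St_Near) {ι V : Type} [DecidableEq ι] [DecidableEq V] [AddCommGroup V]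
    [Module (ZMod 2) V] (J Q : Finset ι) (Cyc : Finset ι → Prop) (r : ι → V) (p : ι → ℕ) (q : ℕ)
    (hQ : Q = (J.filter fun i => p i = q)) (hB : Block Q Cyc r) (a u : V → ℤ) (T : ℕ) (hT : 1 ≤ T)
    (l : ℤ) (hl : 1 ≤ l) (hu : ∀ v ∈ J.image r, |u v - l * a v| ≤ l * T)
    (h : NearOdd J (fun i => a (r i)) p T q) : NZu (Q.image r) u := by
  classical
  obtain ⟨m, t, ho, h⟩ := h
  rw [← hQ] at ho h
  obtain ⟨t', ht'⟩ : ∃ t' : V → ℤ, ∀ i ∈ Q, t' (r i) = t i := by
    refine ⟨fun v => if h : ∃ i ∈ Q, r i = v then t h.choose else 0, fun i hi => ?_⟩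
    have h : ∃ j ∈ Q, r j = r i := ⟨i, hi, rfl⟩
    show (if h : ∃ j ∈ Q, r j = r i then t h.choose else 0) = t i
    rw [dif_pos h]
    exact congrArg t (hB.inj h.choose_spec.1 hi h.choose_spec.2)
  have hQJ : Q ⊆ J := by
    rw [hQ]
    exact Finset.filter_subset _ _
  refine hN V (Q.image r) (fun h0 => ?_) a u t' l T m hl hT
    (fun v hv => hu v (Finset.image_subset_image hQJ hv)) (fun v hv => ?_) ?_
  · obtain ⟨i, hi, h1⟩ := Finset.mem_image.1 h0
    exact hB.ne i hi h1
  · obtain ⟨i, hi, rfl⟩ := Finset.mem_image.1 hv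
    rw [ht' i hi]
    exact ho i hi
  · rw [Finset.card_image_of_injOn hB.inj, Finset.sum_image hB.inj]
    refine le_trans (le_of_eq ?_) h
    congr 2
    refine Finset.sum_congr rfl fun i hi => ?_
    rw [ht' i hi]

/-- the blocks -/
theorem blocks9 (hN : St_Near) {ι V : Type} [DecidableEq ι] [DecidableEq V] [AddCommGroup V]
    [Module (ZMod 2) V] [Module.Finite (ZMod 2) V] (J : Finset ι) (Cyc : Finset ι → Prop)
    (r : ι → V) (hB : Block J Cyc r) (hreg : ∀ Y ⊆ J.image r, TRL.Reg Y) (a u : V → ℤ) (C T : ℕ)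
    (hT : 1 ≤ T) (hF : Follows (J.image r) a u C T)
    (hsg : ∀ v ∈ J.image r, (T : ℤ) ≤ |a v| → 0 < a v * u v)
    (hl : ∃ l : ℤ, 1 ≤ l ∧ ∀ v ∈ J.image r, |u v - l * a v| ≤ l * T)
    (h : ∃ p : ι → ℕ, Splits J Cyc p ∧ ∀ q, GoodBlock5 J Cyc r (fun i => a (r i)) p T q) :
    NZu (J.image r) u := by
  obtain ⟨p, hp, hq⟩ := h
  obtain ⟨l, hl1, hl2⟩ := hl
  refine class_main5 card9 TRG.rankReg5 corank3 thm_OneExc TRJ.thm_WeightedBlock J Cyc r hB hreg
    a u C T hT hF hsg p hp _ ?_ fun q => good5 (hq q)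
  rintro q Q hQ hBq hrg hFq - (h1 | h1)
  · exact near_block hN J Q Cyc r p q hQ hBq a u T hT l hl1 hl2 h1
  · exact OCY.onecycle_use OCY.main J Q Cyc r p q hQ hBq hrg a u C T hFq h1

/-- **criterion (4), knotoid diagrams** -/
theorem knotoidBlocks9 (hN : St_Near) {n : ℕ} (D : GaussDiagram n) (S : Finset (Fin n))
    (hS : Transversal D.Interlaced S) (J : Finset (Fin n)) (hJ : J ⊆ S) (hne : J.Nonempty)
    (hdet : cutDetO D J ≠ 0) (B : ℕ)
    (h : ∃ p : Fin n → ℕ, Splits J (HasCycleInO D (S \ J)) p ∧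
        ∀ q, GoodBlock5 J (HasCycleInO D (S \ J)) (row (D.Cut (cutState D.Interlaced D.sign)))
          (cutTwist D.Interlaced D.sign) p ((J.card + 1).factorial *
            (2 * (B + 2) * (S.card + 1) +
              ∑ j ∈ S \ J, (cutTwist D.Interlaced D.sign j).natAbs)) q) :
    B < terms D.normalizedBracket := by
  classical
  by_contra hB
  obtain ⟨u, hF, hsg, hl, hu⟩ := knotoidFOLN D B (not_lt.1 hB) S hS J hJ hne hdet _ rfl
  have har : (fun i => twist (Graph_R D.Interlaced D.sign) (cutState D.Interlaced D.sign)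
      (row (Graph_R D.Interlaced D.sign) i)) = cutTwist D.Interlaced D.sign :=
    funext fun i => twist_row (Graph_irrefl D) (Graph_int_symm D) i
  have hrows : J.image (row (Graph_R D.Interlaced D.sign)) ⊆
      rows (D.Cut (cutState D.Interlaced D.sign)) := by
    unfold rows
    exact Finset.image_subset_image (Finset.subset_univ J)
  refine hu (blocks9 hN J _ _ (thm_KnotoidBlock n D S J hS hJ)
    (fun Y hY => TRL.knotoid_reg D _ Y (hY.trans hrows)) _ u _ _ ?_ hF hsg hl ?_)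
  · exact Nat.mul_pos (Nat.factorial_pos _) (by positivity)
  · rw [har]
    exact h

/-- **criterion (4), knot diagrams** -/
theorem knotBlocks9 (hN : St_Near) {n : ℕ} (g : GaussJones.Code n) (e : Fin n → Bool)
    (S : Finset (Fin n)) (hS : Transversal (GaussJones.Interlaced g) S) (J : Finset (Fin n))
    (hJ : J ⊆ S) (hne : J.Nonempty) (hdet : cutDet g e J ≠ 0) (B : ℕ)
    (h : ∃ p : Fin n → ℕ, Splits J (HasCycleIn g (S \ J)) p ∧
        ∀ q, GoodBlock5 J (HasCycleIn g (S \ J))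
          (row (GaussJones.Cut g e (cutState (GaussJones.Interlaced g) e)))
          (cutTwist (GaussJones.Interlaced g) e) p ((J.card + 1).factorial *
            (2 * (B + 2) * (S.card + 1) +
              ∑ j ∈ S \ J, (cutTwist (GaussJones.Interlaced g) e j).natAbs)) q) :
    B < terms (GaussJones.fPoly g e) := by
  classical
  by_contra hB
  have hirr : ∀ i, ¬ GaussJones.Interlaced g i i := by
    intro i h
    rcases h with h | h <;> exact lt_irrefl _ h.1
  have hsy : ∀ i j, GaussJones.Interlaced g i j → GaussJones.Interlaced g j i :=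
    fun i j h => h.symm
  obtain ⟨u, hF, hsg, hl, hu⟩ := knotFOLN g e B (not_lt.1 hB) S hS J hJ hne hdet _ rfl
  have har : (fun i => twist (Graph_R (GaussJones.Interlaced g) e)
      (cutState (GaussJones.Interlaced g) e) (row (Graph_R (GaussJones.Interlaced g) e) i)) =
      cutTwist (GaussJones.Interlaced g) e := funext fun i => twist_row hirr hsy i
  have hrows : J.image (row (Graph_R (GaussJones.Interlaced g) e)) ⊆
      rows (GaussJones.Cut g e (cutState (GaussJones.Interlaced g) e)) := by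
    unfold rows
    exact Finset.image_subset_image (Finset.subset_univ J)
  refine hu (blocks9 hN J _ _ (thm_KnotBlock n g e S J hS hJ)
    (fun Y hY => TRL.knot_reg g e _ Y (hY.trans hrows)) _ u _ _ ?_ hF hsg hl ?_)
  · exact Nat.mul_pos (Nat.factorial_pos _) (by positivity)
  · rw [har]
    exact h

/-- **knotoid diagrams** -/
theorem knotoidF9 (hN : St_Near) {n : ℕ} (D : GaussDiagram n)
    (S : Finset (Fin n)) (hS : Transversal D.Interlaced S) (B : ℕ)
    (h : (∃ J ⊆ S, J.Nonempty ∧ (¬ HasCycleInO D ∅ (S \ J) ∨ cutDetO D J ≠ 0) ∧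
        Criterion S J (HasCycleInO D (S \ J)) (row (D.Cut (cutState D.Interlaced D.sign)))
          (cutTwist D.Interlaced D.sign) B) ∨
      ((∃ i ∈ S, (((S.card + 1).factorial * (2 * (B + 2) * (S.card + 1)) : ℕ) : ℤ) ≤
          |cutTwist D.Interlaced D.sign i|) ∧
        ∀ J ⊆ S, J.Nonempty →
          MeetsEvenly S (cutTwist D.Interlaced D.sign) (2 * (B + 2) * (S.card + 1)) J →
          ¬ HasCycleInO D ∅ (S \ J) ∨ cutDetO D J ≠ 0) ∨
      S.Nonempty ∧ D.comps (cutState D.Interlaced D.sign) +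
          D.comps (fun i => !cutState D.Interlaced D.sign i) = n + 2 ∧
        ∀ d, Short S (cutTwist D.Interlaced D.sign) (2 * (B + 2) * (S.card + 1)) d →
          Even (∑ i ∈ S, d i * cutTwist D.Interlaced D.sign i)) :
    B < terms D.normalizedBracket ∧ (1 ≤ B → D.normalizedBracket ≠ 1) := by
  classical
  have hdet : ∀ J ⊆ S, (¬ HasCycleInO D ∅ (S \ J) ∨ cutDetO D J ≠ 0) → cutDetO D J ≠ 0 := by
    intro J hJ h1
    rcases h1 with h1 | h1
    · exact cutDetO_span D S hS J hJ h1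
    · exact h1
  have h1 : B < terms D.normalizedBracket := by
    rcases h with ⟨J, hJ, hne, hJS, h | h | h | h | h⟩ | ⟨hl, hd⟩ | ⟨hne, h2, hev⟩
    · exact knotoidSep D S hS J hJ hne (hdet J hJ hJS) B
        (h.separated (thm_KnotoidBlock n D S J hS hJ))
    · exact knotoidF3 D S hS J hJ hne (Or.inr (hdet J hJ hJS)) B
        (Or.inl (weighted_of_even _ S J _ _ h))
    · exact knotoidF3 D S hS J hJ hne (Or.inr (hdet J hJ hJS)) B (Or.inl h)
    · exact knotoidSep D S hS J hJ hne (hdet J hJ hJS) B h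
    · exact knotoidBlocks9 hN D S hS J hJ hne (hdet J hJ hJS) B h
    · exact knotoidOdd7 D S hS B hl fun J hJ hne hev => hdet J hJ (hd J hJ hne hev)
    · obtain ⟨J, hJ, hne, hc, hev⟩ := oneKindO D S hS hne _ h2 hev
      exact knotoidF3 D S hS J hJ hne (Or.inr (hdet J hJ (Or.inl hc))) B
        (Or.inl (weighted_of_even _ S J _ _ hev))
  exact ⟨h1, ne_one_of_terms h1⟩

/-- **knot diagrams** -/
theorem knotF9 (hN : St_Near) {n : ℕ} (g : GaussJones.Code n)
    (e : Fin n → Bool) (S : Finset (Fin n)) (hS : Transversal (GaussJones.Interlaced g) S) (B : ℕ)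
    (h : (∃ J ⊆ S, J.Nonempty ∧ (¬ HasCycleIn g ∅ (S \ J) ∨ cutDet g e J ≠ 0) ∧
        Criterion S J (HasCycleIn g (S \ J))
          (row (GaussJones.Cut g e (cutState (GaussJones.Interlaced g) e)))
          (cutTwist (GaussJones.Interlaced g) e) B) ∨
      ((∃ i ∈ S, (((S.card + 1).factorial * (2 * (B + 2) * (S.card + 1)) : ℕ) : ℤ) ≤
          |cutTwist (GaussJones.Interlaced g) e i|) ∧
        ∀ J ⊆ S, J.Nonempty →
          MeetsEvenly S (cutTwist (GaussJones.Interlaced g) e) (2 * (B + 2) * (S.card + 1)) J →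
          ¬ HasCycleIn g ∅ (S \ J) ∨ cutDet g e J ≠ 0) ∨
      S.Nonempty ∧ GaussJones.loops g (cutAll (GaussJones.Interlaced g)) +
          GaussJones.loops g (fun i => !cutAll (GaussJones.Interlaced g) i) = n + 2 ∧
        ∀ d, Short S (cutTwist (GaussJones.Interlaced g) e) (2 * (B + 2) * (S.card + 1)) d →
          Even (∑ i ∈ S, d i * cutTwist (GaussJones.Interlaced g) e i)) :
    B < terms (GaussJones.fPoly g e) ∧ (1 ≤ B → GaussJones.fPoly g e ≠ 1) := by
  classical
  have hdet : ∀ J ⊆ S, J.Nonempty → (¬ HasCycleIn g ∅ (S \ J) ∨ cutDet g e J ≠ 0) →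
      cutDet g e J ≠ 0 := by
    intro J hJ hne h1
    have hn : 0 < n := by
      obtain ⟨i, -⟩ := hne
      exact i.pos
    rcases h1 with h1 | h1
    · exact cutDet_span hn g e S hS J hJ h1
    · exact h1
  have h1 : B < terms (GaussJones.fPoly g e) := by
    rcases h with ⟨J, hJ, hne, hJS, h | h | h | h | h⟩ | ⟨hl, hd⟩ | ⟨hne, h2, hev⟩
    · exact knotSep g e S hS J hJ hne (hdet J hJ hne hJS) B
        (h.separated (thm_KnotBlock n g e S J hS hJ))
    · exact knotF3 g e S hS J hJ hne (Or.inr (hdet J hJ hne hJS)) B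
        (Or.inl (weighted_of_even _ S J _ _ h))
    · exact knotF3 g e S hS J hJ hne (Or.inr (hdet J hJ hne hJS)) B (Or.inl h)
    · exact knotSep g e S hS J hJ hne (hdet J hJ hne hJS) B h
    · exact knotBlocks9 hN g e S hS J hJ hne (hdet J hJ hne hJS) B h
    · exact knotOdd7 g e S hS B hl fun J hJ hne hev => hdet J hJ hne (hd J hJ hne hev)
    · obtain ⟨J, hJ, hne, hc, hev⟩ := oneKindK g e S hS hne _ h2 hev
      exact knotF3 g e S hS J hJ hne (Or.inr (hdet J hJ hne (Or.inl hc))) B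
        (Or.inl (weighted_of_even _ S J _ _ hev))
  exact ⟨h1, ne_one_of_terms h1⟩

end Pool.Agent.NHT
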