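import Pool.Agent.NHT.SixF
import Pool.Agent.NHT.Final9
import Pool.Agent.NHT.Defs11

/-!
# NHT, module Class10: the blocks, for close cycle sets (helper19)

`J` is a set of classes, `Cyc C` says that the classes in `C` contain a cycle of the graph of `J`, `a i`
is the twist number of the class of `i`, and `p i` is the label of the class of `i` (for instance the
number of its block).
-/

set_option autoImplicit false
set_option linter.unusedSectionVars false

open Submodule Module LaurentPolynomial

namespace Pool.Agent.NHT

open Pool.Agent.SPT Pool.Agent.SPT.Rel Pool.Agent.TRA Pool.Agent.TRP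

variable {ι V : Type} [DecidableEq ι] [DecidableEq V] [AddCommGroup V] [Module (ZMod 2) V]

/-- One of the alternatives (a), (b), (c), (d) for the classes with the label `q`.  Two cycle sets of
these classes are close if their total twist numbers differ by less than `T`.

(a) the classes with a twist number less than `T` in absolute value contain no cycle, and there are at
most `9` classes, or they have cycle rank at most `5`, or contain no forest of more than `3` classes, or
they are series-parallel, or there are no six independent differences of close cycle sets (`FewClose`);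

(b) for some integer `s` the sum of the twist numbers is `s` for an odd number of the unions of disjoint
cycles, and differs from `s` by at least `T` for the others (`OddBlock`);

(c) there is a set `O` of these classes such that close cycle sets meet `O` in sets whose numbers of
classes have the same parity, and the others contain at most one cycle, and this cycle has a class with a
twist number which is at least `T` in absolute value (`OneCycleF`);

(d) there is a function on the sets of these classes which has the same value for close cycle sets, and
whose sum `cycleSum` is not zero (`Separating`). -/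
def GoodBlock10 (J : Finset ι) (Cyc : Finset ι → Prop) (w : ι → V) (a : ι → ℤ) (p : ι → ℕ)
    (T q : ℕ) : Prop :=
  (¬ Cyc (J.filter fun i => p i = q ∧ |a i| < T) ∧
      (SmallPart J Cyc w p 9 5 3 q ∨ FewClose J Cyc a p T q)) ∨
    OddBlock J Cyc a p T q ∨ OneCycleF J Cyc a p T q ∨
    Separating (J.filter fun i => p i = q) (J.filter fun i => p i = q) Cyc Cyc a T

/-- **The blocks** -/
theorem blocks10 [Module.Finite (ZMod 2) V] (J : Finset ι) (Cyc : Finset ι → Prop) (r : ι → V)
    (hB : Block J Cyc r) (hreg : ∀ Y ⊆ J.image r, TRL.Reg Y) (a u : V → ℤ) (C T : ℕ)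
    (hT : 1 ≤ T) (hF : Follows (J.image r) a u C T)
    (hsg : ∀ v ∈ J.image r, (T : ℤ) ≤ |a v| → 0 < a v * u v)
    (h : ∃ p : ι → ℕ, Splits J Cyc p ∧ ∀ q, GoodBlock10 J Cyc r (fun i => a (r i)) p T q) :
    NZu (J.image r) u := by
  classical
  obtain ⟨p, hp, hq⟩ := h
  refine class_main5 card9 TRG.rankReg5 corank3 thm_OneExc TRJ.thm_WeightedBlock J Cyc r hB hreg
    a u C T hT hF hsg p hp (fun q => (¬ Cyc (J.filter fun i => p i = q ∧ |a (r i)| < T) ∧
      FewClose J Cyc (fun i => a (r i)) p T q) ∨ OneCycleF J Cyc (fun i => a (r i)) p T q ∨
      Separating (J.filter fun i => p i = q) (J.filter fun i => p i = q) Cyc Cyc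
        (fun i => a (r i)) T) ?_ ?_
  · rintro q Q hQ hBq hrg hFq - (⟨h1, h2⟩ | h1 | h1)
    · exact few_useF card9 le_rfl J Q Cyc r p q hQ hBq hrg a u C T hFq h2 h1
    · exact onecycle_useF OCY.main J Q Cyc r p q hQ hBq hrg a u C T hFq h1
    · rw [← hQ] at h1
      exact sep_use Q Cyc r hBq a u C T hFq h1
  · intro q
    rcases hq q with ⟨h1, h2 | h2⟩ | h | h | h
    · exact Or.inl (Or.inr (Or.inl ⟨h2, h1⟩))
    · exact Or.inr (Or.inl ⟨h1, h2⟩)
    · exact Or.inl (Or.inl h)
    · exact Or.inr (Or.inr (Or.inl h))
    · exact Or.inr (Or.inr (Or.inr h))

end Pool.Agent.NHT
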