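import Pool.Agent.NHT.Class
import Pool.Agent.NHT.Tree

/-!
# NHT, version 2, module Class2: the class form (helper38)
-/

set_option autoImplicit false
set_option linter.unusedSectionVars false

open Submodule Module LaurentPolynomial

namespace Pool.Agent.NHT

open Pool.Agent.SPT Pool.Agent.SPT.Rel Pool.Agent.EQT Pool.Agent.FHP Pool.Agent.Helper16.Knotoid
open Pool.Agent.TRA Pool.Agent.TRP

/-- **Module E**: one exception -/
def St_OneExc : Prop :=
  ∀ (V : Type) [DecidableEq V] [AddCommGroup V] [Module (ZMod 2) V] (X : Finset V), (0 : V) ∉ X →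
    ∀ (u : V → ℤ), (∀ v ∈ X, u v ≠ 0) → ∀ b : V,
    (∀ v ∈ X, u v < 0 → v ≠ b → v ∉ span (ZMod 2) {x | x ∈ X ∧ 0 < u x}) → NZu X u

theorem nzu_neg {V : Type} [AddCommGroup V] [Module (ZMod 2) V] (X : Finset V) (u : V → ℤ)
    (h : NZu X fun v => -u v) : NZu X u := by
  obtain ⟨z, hz, h1⟩ := h
  refine ⟨z⁻¹, by rw [norm_inv, hz, inv_one], ?_⟩
  have h2 : (fun v => z⁻¹ ^ u v) = fun v => z ^ (-u v) := by
    funext v
    rw [inv_zpow, zpow_neg]
  rw [h2]
  exact h1

variable {ι V : Type} [DecidableEq ι] [DecidableEq V] [AddCommGroup V] [Module (ZMod 2) V]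

/-- **alternative (c)** -/
theorem adequate_block (hE : St_OneExc) (Q : Finset ι) (Cyc : Finset ι → Prop) (r : ι → V)
    (hB : Block Q Cyc r) (a u : V → ℤ) (C T : ℕ) (hF : Follows (Q.image r) a u C T) (hT : 1 ≤ T)
    (hsg : ∀ v ∈ Q.image r, (T : ℤ) ≤ |a v| → 0 < a v * u v) (L : Finset ι) (hL : L ⊆ Q)
    (E : Finset ι) (hEL : E = ∅ ∨ E.card = 1 ∧ L = Q)
    (hbig : ∀ i ∈ L, (T : ℤ) + ∑ j ∈ Q \ L, |a (r j)| ≤ |a (r i)|) (hcyc : ¬ Cyc (Q \ L))
    (hcase : (∀ i ∈ L \ E, a (r i) < 0 → InCycle Cyc (Q \ L.filter fun j => 0 < a (r j)) i) ∨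
      ∀ i ∈ L \ E, 0 < a (r i) → InCycle Cyc (Q \ L.filter fun j => a (r j) < 0) i) :
    NZu (Q.image r) u := by
  classical
  rcases hEL with hE0 | ⟨hE1, hLQ⟩
  · subst hE0
    rw [Finset.sdiff_empty] at hcase
    exact thm_Adequate _ _ Q Cyc r hB a u C T hF hT L hL hbig hcyc hcase
  · subst hLQ
    obtain ⟨b, hb⟩ := Finset.card_eq_one.1 hE1
    subst hb
    have h0 : (0 : V) ∉ L.image r := by
      intro h
      obtain ⟨i, hi, h1⟩ := Finset.mem_image.1 h
      exact hB.ne i hi h1
    have hlong : ∀ i ∈ L, (T : ℤ) ≤ |a (r i)| := by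
      intro i hi
      have h1 := hbig i hi
      have h2 : 0 ≤ ∑ j ∈ L \ L, |a (r j)| := Finset.sum_nonneg fun _ _ => abs_nonneg _
      omega
    have hsg' : ∀ i ∈ L, 0 < a (r i) * u (r i) := fun i hi =>
      hsg _ (Finset.mem_image_of_mem r hi) (hlong i hi)
    have hneg : ∀ i ∈ L, (u (r i) < 0 ↔ a (r i) < 0) := by
      intro i hi
      have h1 := hsg' i hi
      constructor
      · intro h2
        by_contra h3
        have h4 := mul_nonpos_of_nonneg_of_nonpos (not_lt.1 h3) h2.le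
        omega
      · intro h2
        by_contra h3
        have h4 := mul_nonpos_of_nonpos_of_nonneg h2.le (not_lt.1 h3)
        omega
    have hpos : ∀ i ∈ L, (0 < u (r i) ↔ 0 < a (r i)) := by
      intro i hi
      have h1 := hsg' i hi
      constructor
      · intro h2
        by_contra h3
        have h4 := mul_nonpos_of_nonpos_of_nonneg (not_lt.1 h3) h2.le
        omega
      · intro h2
        by_contra h3
        have h4 := mul_nonpos_of_nonneg_of_nonpos h2.le (not_lt.1 h3)
        omega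
    have hne : ∀ v ∈ L.image r, u v ≠ 0 := by
      intro v hv h1
      obtain ⟨i, hi, rfl⟩ := Finset.mem_image.1 hv
      have h2 := hsg' i hi
      rw [h1, mul_zero] at h2
      exact lt_irrefl _ h2
    rcases hcase with hcase | hcase
    · refine hE V _ h0 u hne (r b) ?_
      intro v hv hv0 hvb hvs
      obtain ⟨i, hi, rfl⟩ := Finset.mem_image.1 hv
      have hib : i ∈ L \ {b} := Finset.mem_sdiff.2 ⟨hi, fun h =>
        hvb (congrArg r (Finset.mem_singleton.1 h))⟩
      refine hB.notMem (hcase i hib ((hneg i hi).1 hv0)) (Finset.filter_subset _ _)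
        (span_mono ?_ hvs)
      rintro x ⟨hx, hx0⟩
      obtain ⟨j, hj, rfl⟩ := Finset.mem_image.1 hx
      exact Finset.mem_coe.2 (Finset.mem_image_of_mem r
        (Finset.mem_filter.2 ⟨hj, (hpos j hj).1 hx0⟩))
    · refine nzu_neg _ _ (hE V _ h0 (fun v => -u v) (fun v hv => neg_ne_zero.2 (hne v hv)) (r b) ?_)
      intro v hv hv0 hvb hvs
      obtain ⟨i, hi, rfl⟩ := Finset.mem_image.1 hv
      have hib : i ∈ L \ {b} := Finset.mem_sdiff.2 ⟨hi, fun h =>
        hvb (congrArg r (Finset.mem_singleton.1 h))⟩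
      have hv1 : 0 < u (r i) := by
        have h1 : -u (r i) < 0 := hv0
        omega
      refine hB.notMem (hcase i hib ((hpos i hi).1 hv1)) (Finset.filter_subset _ _)
        (span_mono ?_ hvs)
      rintro x ⟨hx, hx0⟩
      obtain ⟨j, hj, rfl⟩ := Finset.mem_image.1 hx
      have hx1 : u (r j) < 0 := by
        have h1 : 0 < -u (r j) := hx0
        omega
      exact Finset.mem_coe.2 (Finset.mem_image_of_mem r
        (Finset.mem_filter.2 ⟨hj, (hneg j hj).1 hx1⟩))

variable {n : ℕ} {I : Fin n → Fin n → Prop} {e : Fin n → Bool}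

/-- **The blocks** -/
theorem class_gen (hi : ∀ i, ¬ I i i) (hs : ∀ i j, I i j → I j i) {S : Finset (Fin n)}
    (hS : Transversal I S) (Cyc : Finset (Fin n) → Prop)
    (hC : ∀ J ⊆ S, (∀ i, row (Graph_R I e) i ∈ span (ZMod 2)
      (row (Graph_R I e) '' ((S \ J : Finset (Fin n)) : Set (Fin n)))) ↔ ¬ Cyc J)
    (C T : ℕ) (u : (Fin n → ZMod 2) → ℤ)
    (hF : Follows ((rows (Graph_R I e)).erase 0) (twist (Graph_R I e) (cutState I e)) u C T)
    (hsg : ∀ v ∈ (rows (Graph_R I e)).erase 0, (T : ℤ) ≤ |twist (Graph_R I e) (cutState I e) v| →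
      0 < twist (Graph_R I e) (cutState I e) v * u v)
    (hreg : ∀ Y ⊆ rows (Graph_R I e), TRL.Reg Y) (p : Fin n → ℕ) (hp : Splits S Cyc p)
    (hgen : ∀ (q : ℕ) (Q : Finset (Fin n)), Q = (S.filter fun i => p i = q) →
      Block Q Cyc (row (Graph_R I e)) → (∀ Y ⊆ Q.image (row (Graph_R I e)), TRL.Reg Y) →
      Follows (Q.image (row (Graph_R I e))) (twist (Graph_R I e) (cutState I e)) u C T →
      (∀ v ∈ Q.image (row (Graph_R I e)), (T : ℤ) ≤ |twist (Graph_R I e) (cutState I e) v| →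
        0 < twist (Graph_R I e) (cutState I e) v * u v) →
      NZu (Q.image (row (Graph_R I e))) u) :
    NZu ((rows (Graph_R I e)).erase 0) u := by
  classical
  obtain ⟨X, hX⟩ : ∃ X, X = (rows (Graph_R I e)).erase 0 := ⟨_, rfl⟩
  have hXS : X = S.image (row (Graph_R I e)) := by
    rw [hX, Graph_image hi hs hS]
  have hinj := Graph_inj (e := e) hi hs hS
  obtain ⟨a, ha⟩ : ∃ a, a = twist (Graph_R I e) (cutState I e) := ⟨_, rfl⟩
  have har : ∀ i, a (row (Graph_R I e) i) = cutTwist I e i := by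
    intro i
    rw [ha]
    exact twist_row hi hs i
  rw [← hX, ← ha] at hF hsg
  rw [← hX]
  -- full rank
  have hfull : ∀ J ⊆ S, ¬ Cyc J ↔ span (ZMod 2) (((S \ J).image (row (Graph_R I e)) :
      Finset (Fin n → ZMod 2)) : Set (Fin n → ZMod 2)) = span (ZMod 2) (X : Set _) := by
    intro J hJ
    rw [← hC J hJ, Finset.coe_image]
    constructor
    · intro h
      refine le_antisymm (span_mono ?_) (span_le.2 ?_)
      · rw [hXS, Finset.coe_image]
        exact Set.image_mono (Finset.coe_subset.2 Finset.sdiff_subset)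
      · intro v hv
        rw [Finset.mem_coe, hXS, Finset.mem_image] at hv
        obtain ⟨i, -, rfl⟩ := hv
        exact h i
    · intro h i
      rw [h]
      by_cases h0 : row (Graph_R I e) i = 0
      · rw [h0]
        exact Submodule.zero_mem _
      · refine subset_span (Finset.mem_coe.2 ?_)
        rw [hX, Finset.mem_erase]
        refine ⟨h0, ?_⟩
        unfold rows
        exact Finset.mem_image_of_mem _ (Finset.mem_univ i)
  have himage : ∀ J ⊆ S, (S \ J).image (row (Graph_R I e)) = X \ J.image (row (Graph_R I e)) := by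
    intro J hJ
    ext v
    rw [Finset.mem_image, Finset.mem_sdiff, Finset.mem_image, hXS, Finset.mem_image]
    constructor
    · rintro ⟨i, hiT, rfl⟩
      rw [Finset.mem_sdiff] at hiT
      refine ⟨⟨i, hiT.1, rfl⟩, ?_⟩
      rintro ⟨j, hj, hji⟩
      exact hiT.2 (hinj (hJ hj) hiT.1 hji ▸ hj)
    · rintro ⟨⟨i, hiS, rfl⟩, h⟩
      exact ⟨i, Finset.mem_sdiff.2 ⟨hiS, fun h2 => h ⟨i, h2, rfl⟩⟩, rfl⟩
  have hco : ∀ J ⊆ S, ¬ Cyc J ↔ Co X (J.image (row (Graph_R I e))) := by
    intro J hJ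
    rw [hfull J hJ, himage J hJ]
    rfl
  -- subsets of `X` are images
  have hpre : ∀ J ⊆ X, (S.filter fun i => row (Graph_R I e) i ∈ J).image
      (row (Graph_R I e)) = J := by
    intro J hJX
    ext v
    rw [Finset.mem_image]
    constructor
    · rintro ⟨i, hiT, rfl⟩
      exact (Finset.mem_filter.1 hiT).2
    · intro hv
      have h2 := hJX hv
      rw [hXS, Finset.mem_image] at h2
      obtain ⟨i, hiS, rfl⟩ := h2
      exact ⟨i, Finset.mem_filter.2 ⟨hiS, hv⟩, rfl⟩
  -- the labels of the rows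
  obtain ⟨P, hP⟩ : ∃ P : (Fin n → ZMod 2) → ℕ, ∀ i ∈ S, P (row (Graph_R I e) i) = p i := by
    refine ⟨fun v => if h : ∃ i ∈ S, row (Graph_R I e) i = v then p h.choose else 0,
      fun i hiS => ?_⟩
    have h : ∃ j ∈ S, row (Graph_R I e) j = row (Graph_R I e) i := ⟨i, hiS, rfl⟩
    show (if h : ∃ j ∈ S, row (Graph_R I e) j = row (Graph_R I e) i then p h.choose else 0) = p i
    rw [dif_pos h]
    exact congrArg p (hinj h.choose_spec.1 hiS h.choose_spec.2)
  have hfil : ∀ J ⊆ S, ∀ q, (J.image (row (Graph_R I e))).filter (fun v => P v = q) =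
      (J.filter fun i => p i = q).image (row (Graph_R I e)) := by
    intro J hJ q
    ext v
    rw [Finset.mem_filter, Finset.mem_image, Finset.mem_image]
    constructor
    · rintro ⟨⟨i, hiJ, rfl⟩, h⟩
      rw [hP i (hJ hiJ)] at h
      exact ⟨i, Finset.mem_filter.2 ⟨hiJ, h⟩, rfl⟩
    · rintro ⟨i, hiJ, rfl⟩
      rw [Finset.mem_filter] at hiJ
      refine ⟨⟨i, hiJ.1, rfl⟩, ?_⟩
      rw [hP i (hJ hiJ.1)]
      exact hiJ.2
  have h0X : (0 : Fin n → ZMod 2) ∉ X := by
    rw [hX]
    exact Finset.notMem_erase _ _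
  have hsp : ∀ J ⊆ X, (∀ q, Co X (J.filter fun v => P v = q)) → Co X J := by
    intro J hJ hq
    obtain ⟨T, hT⟩ : ∃ T : Finset (Fin n), T = S.filter fun i => row (Graph_R I e) i ∈ J :=
      ⟨_, rfl⟩
    have hTS : T ⊆ S := by
      rw [hT]
      exact Finset.filter_subset _ _
    have hTJ : T.image (row (Graph_R I e)) = J := by
      rw [hT]
      exact hpre J hJ
    rw [← hTJ, ← hco T hTS]
    intro hc
    obtain ⟨q, hq1⟩ := hp T hTS hc
    have h1 := hq q
    rw [← hTJ, hfil T hTS q, ← hco _ ((Finset.filter_subset _ _).trans hTS)] at h1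
    exact h1 hq1
  refine nzu_parts X P hsp u fun q => ?_
  obtain ⟨Q, hQ⟩ : ∃ Q : Finset (Fin n), Q = S.filter fun i => p i = q := ⟨_, rfl⟩
  have hQS : Q ⊆ S := by
    rw [hQ]
    exact Finset.filter_subset _ _
  have hXq : X.filter (fun v => P v = q) = Q.image (row (Graph_R I e)) := by
    rw [hXS, hQ]
    exact hfil S (Finset.Subset.refl S) q
  have hPX : Q.image (row (Graph_R I e)) ⊆ X := by
    rw [← hXq]
    exact Finset.filter_subset _ _
  have hdq := parts_disjoint X P hsp q
  rw [hXq] at hdq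
  rw [hXq]
  have hrg : ∀ Y ⊆ Q.image (row (Graph_R I e)), TRL.Reg Y :=
    fun Y hY => hreg Y (hY.trans (hPX.trans (by
      rw [hX]
      exact Finset.erase_subset _ _)))
  have hFq := follows_mono hF hPX
  -- the block
  have hB : Block Q Cyc (row (Graph_R I e)) := by
    refine ⟨hinj.mono (Finset.coe_subset.2 hQS), fun i hiQ h0 => ?_, fun J hJ => ?_⟩
    · apply h0X
      rw [← h0]
      exact hPX (Finset.mem_image_of_mem _ hiQ)
    · rw [hco J (hJ.trans hQS)]
      constructor
      · intro h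
        refine le_antisymm (span_mono (Finset.coe_subset.2 Finset.sdiff_subset)) ?_
        exact span_part hPX h hdq
      · intro h
        refine le_antisymm (span_mono (Finset.coe_subset.2 Finset.sdiff_subset))
          (span_le.2 fun v hv => ?_)
        by_cases hvQ : v ∈ Q.image (row (Graph_R I e))
        · have h1 : v ∈ span (ZMod 2) ((Q.image (row (Graph_R I e)) : Finset _) :
              Set (Fin n → ZMod 2)) := subset_span (Finset.mem_coe.2 hvQ)
          unfold Co at h
          rw [← h] at h1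
          exact span_mono (Finset.coe_subset.2 (Finset.sdiff_subset_sdiff hPX
            (Finset.Subset.refl _))) h1
        · refine subset_span (Finset.mem_coe.2 (Finset.mem_sdiff.2 ⟨hv, fun h2 => hvQ ?_⟩))
          exact Finset.image_subset_image hJ h2
  rw [← ha] at hgen
  exact hgen q Q hQ hB hrg hFq fun v hv => hsg v (hPX hv)

/-- **The class form** -/
theorem class_main2 (hi : ∀ i, ¬ I i i) (hs : ∀ i j, I i j → I j i) {S : Finset (Fin n)}
    (hS : Transversal I S) (Cyc : Finset (Fin n) → Prop)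
    (hC : ∀ J ⊆ S, (∀ i, row (Graph_R I e) i ∈ span (ZMod 2)
      (row (Graph_R I e) '' ((S \ J : Finset (Fin n)) : Set (Fin n)))) ↔ ¬ Cyc J)
    (C T : ℕ) (hT : 1 ≤ T) (u : (Fin n → ZMod 2) → ℤ)
    (hF : Follows ((rows (Graph_R I e)).erase 0) (twist (Graph_R I e) (cutState I e)) u C T)
    (hsg : ∀ v ∈ (rows (Graph_R I e)).erase 0, (T : ℤ) ≤ |twist (Graph_R I e) (cutState I e) v| →
      0 < twist (Graph_R I e) (cutState I e) v * u v)
    (hreg : ∀ Y ⊆ rows (Graph_R I e), TRL.Reg Y) (hK : CardReg 9) (hR : RankReg 5)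
    (hD : CorankReg 3) (hE : St_OneExc) (p : Fin n → ℕ) (hp : Splits S Cyc p)
    (hsm : ∀ q, GoodBlock2 S Cyc (row (Graph_R I e)) (cutTwist I e) p T q) :
    NZu ((rows (Graph_R I e)).erase 0) u := by
  classical
  refine class_gen hi hs hS Cyc hC C T u hF hsg hreg p hp ?_
  intro q Q hQ hB hrg hFq hsgq
  obtain ⟨a, ha⟩ : ∃ a, a = twist (Graph_R I e) (cutState I e) := ⟨_, rfl⟩
  have har : ∀ i, a (row (Graph_R I e) i) = cutTwist I e i := by
    intro i
    rw [ha]
    exact twist_row hi hs i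
  rw [← ha] at hFq hsgq
  have hae : (fun i => a (row (Graph_R I e) i)) = cutTwist I e := funext har
  rcases hsm q with ⟨hsm, hc⟩ | ⟨J, w, hd, hw⟩ | ⟨L, hL, E, h0, h1, h2, h3⟩
  · refine small_block hK hR hD Q Cyc _ hB hrg a u C T hFq ?_ ?_
    · unfold SmallPart at hsm
      rw [← hQ] at hsm
      rcases hsm with h | ⟨F, T, hF1, hF2, hF3, hF4⟩ | h | h
      · exact Or.inl h
      · refine Or.inr (Or.inl ⟨F, T, hF1, hF2, hF3, fun i hi => ?_⟩)
        rw [hQ, Finset.mem_filter] at hi
        exact hF4 i hi.1 hi.2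
      · exact Or.inr (Or.inr (Or.inl h))
      · exact Or.inr (Or.inr (Or.inr h))
    · have h4 : (Q.filter fun i => |a (row (Graph_R I e) i)| < T) =
          S.filter fun i => p i = q ∧ |cutTwist I e i| < T := by
        rw [hQ, Finset.filter_filter]
        refine Finset.filter_congr fun i _ => ?_
        rw [har]
      rw [h4]
      exact hc
  · rw [← hQ] at hd hw
    refine tree_block Q Cyc _ hB a u C T hFq J w ?_ hw
    rw [hae]
    exact hd
  · rw [← hQ] at hL h0 h1 h2 h3
    refine adequate_block hE Q Cyc _ hB a u C T hFq hT hsgq L hL E h0 (fun i hi => ?_) h2 ?_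
    · simp only [har]
      exact h1 i hi
    · simp only [har]
      exact h3

end Pool.Agent.NHT
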