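import Pool.Agent.TRA.Reg
import Pool.Agent.TRP.Sum
import Pool.Agent.NHT.St

/-!
# NHT, module Small: small blocks (helper38)
-/

set_option autoImplicit false
set_option linter.unusedSectionVars false

open Submodule Module

namespace Pool.Agent.NHT

open Pool.Agent.SPT Pool.Agent.SPT.Rel Pool.Agent.TRA Pool.Agent.TRP

/-- few independent relations -/
private theorem Small_corank {V : Type} [AddCommGroup V] [Module (ZMod 2) V] [DecidableEq V]
    [Module.Finite (ZMod 2) V] {D : ℕ} (hD : CorankReg D) {X P : Finset V}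
    (h0 : (0 : V) ∉ X) (hP : P ⊆ X)
    (h : ∀ F ⊆ P, Co X F → F.card ≤ D) (Y : Finset V) (hY : Y ⊆ P) (hr : TRL.Reg Y) :
    NonV Y := by
  obtain ⟨J, hJP, hJ, hJm⟩ := exists_max X P
  refine hD V Y hr (fun h1 => h0 (hP (hY h1))) ?_
  have h1 := finrank_of_max hP hJP hJ hJm (Y \ J)
    (Finset.sdiff_subset_sdiff hY (Finset.Subset.refl J))
  have h2 := Submodule.finrank_mono (span_mono (R := ZMod 2) (Finset.coe_subset.2
    (Finset.sdiff_subset (s := Y) (t := J))))
  have h3 := h J hJP hJ
  have h4 := Finset.card_le_card_sdiff_add_card (s := Y) (t := J)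
  omega

/-- **alternative (a)** -/
theorem small_block {ι V : Type} [DecidableEq ι] [DecidableEq V] [AddCommGroup V]
    [Module (ZMod 2) V] [Module.Finite (ZMod 2) V] {K R D : ℕ} (hK : CardReg K) (hR : RankReg R)
    (hD : CorankReg D) (Q : Finset ι) (Cyc : Finset ι → Prop) (r : ι → V) (hB : Block Q Cyc r)
    (hrg : ∀ Y ⊆ Q.image r, TRL.Reg Y) (a u : V → ℤ) (C T : ℕ)
    (hF : Follows (Q.image r) a u C T)
    (hsm : Q.card ≤ K ∨
      (∃ F T : Finset ι, F ⊆ Q ∧ ¬ Cyc F ∧ T.card ≤ R ∧ ∀ i ∈ Q, i ∈ F ∨ i ∈ T) ∨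
      (∀ F ⊆ Q, ¬ Cyc F → F.card ≤ D) ∨ SeriesParallel (Q.image r) ⊥)
    (hc : ¬ Cyc (Q.filter fun i => |a (r i)| < T)) : NZu (Q.image r) u := by
  classical
  have h0 : (0 : V) ∉ Q.image r := by
    intro h
    obtain ⟨i, hi, h1⟩ := Finset.mem_image.1 h
    exact hB.ne i hi h1
  have hNV : ∀ Y ⊆ Q.image r, span (ZMod 2) (Y : Set V) =
      span (ZMod 2) ((Q.image r : Finset V) : Set V) → NonV Y := by
    rcases hsm with h | ⟨F, T, hF1, hF2, hF3, hF4⟩ | h | h
    · intro Y hY _
      exact hK _ Y (hrg Y hY) ((Finset.card_le_card (Finset.erase_subset _ _)).trans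
        ((Finset.card_le_card hY).trans (Finset.card_image_le.trans h)))
    · intro Y hY _
      refine hR _ Y (hrg Y hY) ?_
      have h1 : span (ZMod 2) (Y : Set V) ≤
          span (ZMod 2) ((T.image r : Finset V) : Set V) := by
        refine (span_mono (Finset.coe_subset.2 hY)).trans ?_
        have h2 := (hB.co F hF1).1 hF2
        unfold Co at h2
        rw [← h2]
        refine span_mono (Finset.coe_subset.2 ?_)
        intro v hv
        rw [Finset.mem_sdiff, Finset.mem_image] at hv
        obtain ⟨⟨i, hi1, rfl⟩, hv2⟩ := hv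
        refine Finset.mem_image_of_mem _ ?_
        rcases hF4 i hi1 with h | h
        · exact absurd (Finset.mem_image_of_mem _ h) hv2
        · exact h
      exact (Submodule.finrank_mono h1).trans ((finrank_span_finset_le_card _).trans
        (Finset.card_image_le.trans hF3))
    · intro Y hY _
      refine Small_corank hD h0 (Finset.Subset.refl _) (fun F hF hc => ?_) Y hY (hrg Y hY)
      obtain ⟨T, hT⟩ : ∃ T : Finset ι, T = Q.filter fun i => r i ∈ F := ⟨_, rfl⟩
      have hTQ : T ⊆ Q := by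
        rw [hT]
        exact Finset.filter_subset _ _
      have hTF : T.image r = F := by
        ext v
        rw [Finset.mem_image]
        constructor
        · rintro ⟨i, hiT, rfl⟩
          rw [hT, Finset.mem_filter] at hiT
          exact hiT.2
        · intro hv
          obtain ⟨i, hi1, rfl⟩ := Finset.mem_image.1 (hF hv)
          exact ⟨i, by rw [hT, Finset.mem_filter]; exact ⟨hi1, hv⟩, rfl⟩
      have hTc : T.card = F.card := by
        rw [← hTF, Finset.card_image_of_injOn (hB.inj.mono (Finset.coe_subset.2 hTQ))]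
      rw [← hTc]
      refine h T hTQ ?_
      rw [hB.co T hTQ, hTF]
      exact hc
    · intro Y hY hs
      exact thm_SPNonV _ _ Y h hs Y (Finset.Subset.refl Y) hY
  refine nzu_long _ a u C T hF hNV (le_antisymm (span_mono fun v hv => hv.1) ?_)
  have h2 := (hB.co _ (Finset.filter_subset _ _)).1 hc
  unfold Co at h2
  rw [← h2]
  refine span_mono fun v hv => ?_
  rw [Finset.mem_coe, Finset.mem_sdiff, Finset.mem_image] at hv
  obtain ⟨⟨i, hi1, rfl⟩, hv2⟩ := hv
  refine ⟨Finset.mem_image_of_mem _ hi1, ?_⟩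
  by_contra hlt
  exact hv2 (Finset.mem_image_of_mem _ (Finset.mem_filter.2 ⟨hi1, not_le.1 hlt⟩))

end Pool.Agent.NHT
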