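import Pool.Agent.NHT.St
import Pool.Agent.NHT.Small
import Pool.Agent.NHT.Defs3

/-!
# NHT, version 3: the modules (captain: helper38)
-/

set_option autoImplicit false

open Submodule LaurentPolynomial

namespace Pool.Agent.NHT

open Pool.Agent.SPT Pool.Agent.EQT Pool.Agent.FHP Pool.Agent.TRA Pool.Agent.TRP Pool.Agent.SPT.Rel
open Pool.Agent.Helper16.Knotoid

/-- **Module D3K**: the dictionary for knot diagrams -/
def St_KnotBlock : Prop :=
  ∀ (n : ℕ) (g : GaussJones.Code n) (e : Fin n → Bool) (S J : Finset (Fin n)),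
    Transversal (GaussJones.Interlaced g) S → J ⊆ S →
    Block J (HasCycleIn g (S \ J)) (row (Graph_R (GaussJones.Interlaced g) e))

/-- **Module D3O**: the dictionary for knotoid diagrams -/
def St_KnotoidBlock : Prop :=
  ∀ (n : ℕ) (D : GaussDiagram n) (S J : Finset (Fin n)),
    Transversal D.Interlaced S → J ⊆ S →
    Block J (HasCycleInO D (S \ J)) (row (Graph_R D.Interlaced D.sign))

/-- **Module X1**: the polynomial of the spanning sets is the sum over the sets without cycles -/
def St_Forest : Prop :=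
  ∀ (ι V : Type) [DecidableEq ι] [DecidableEq V] [AddCommGroup V] [Module (ZMod 2) V]
    (Q : Finset ι) (Cyc : Finset ι → Prop) (r : ι → V), Block Q Cyc r →
    ∀ (x : ι → ℂ) (x' : V → ℂ), (∀ i ∈ Q, x' (r i) = x i) →
      PP (Q.image r) ⊥ x' = forestSum Cyc Q x

/-- **Module X2**: weights in `[-1, 1)` on different non-zero vectors -/
def St_Box : Prop :=
  ∀ (V : Type) [DecidableEq V] [AddCommGroup V] [Module (ZMod 2) V] (X : Finset V), (0 : V) ∉ X →
    ∀ (x : V → ℝ) (y : V → ℂ), (∀ v ∈ X, -1 ≤ x v ∧ x v < 1) → (∀ v ∈ X, y v = (x v : ℂ)) →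
      PP X ⊥ y ≠ 0

/-- **Module X3**: alternative (b) for one block -/
def St_WeightedBlock : Prop :=
  ∀ (ι V : Type) [DecidableEq ι] [DecidableEq V] [AddCommGroup V] [Module (ZMod 2) V]
    (Q : Finset ι) (Cyc : Finset ι → Prop) (r : ι → V), Block Q Cyc r →
    ∀ (a u : V → ℤ) (C T : ℕ), Follows (Q.image r) a u C T →
      Weighted Cyc Q (Short Q (fun i => a (r i)) T) → NZu (Q.image r) u

end Pool.Agent.NHT
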