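import Pool.Agent.NHT.Class2
import Pool.Agent.NHT.St3
import Pool.Agent.TRX.Block
import Pool.Agent.PMT.Use

/-!
# NHT, version 3, module Class3: the blocks of a set of classes (helper38)
-/

set_option autoImplicit false
set_option linter.unusedSectionVars false

open Submodule Module LaurentPolynomial

namespace Pool.Agent.NHT

open Pool.Agent.SPT Pool.Agent.SPT.Rel Pool.Agent.TRA Pool.Agent.TRP

variable {ι V : Type} [DecidableEq ι] [DecidableEq V] [AddCommGroup V] [Module (ZMod 2) V]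

/-- **The blocks** -/
theorem block_split (J : Finset ι) (Cyc : Finset ι → Prop) (r : ι → V) (hB : Block J Cyc r)
    (p : ι → ℕ) (hp : Splits J Cyc p) (u : V → ℤ)
    (hgen : ∀ (q : ℕ) (Q : Finset ι), Q = (J.filter fun i => p i = q) → Block Q Cyc r →
      NZu (Q.image r) u) : NZu (J.image r) u := by
  classical
  obtain ⟨X, hX⟩ : ∃ X, X = J.image r := ⟨_, rfl⟩
  have hinj := hB.inj
  have hco : ∀ C ⊆ J, ¬ Cyc C ↔ Co X (C.image r) := by
    intro C hC
    rw [hX]
    exact hB.co C hC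
  -- subsets of `X` are images
  have hpre : ∀ C ⊆ X, (J.filter fun i => r i ∈ C).image r = C := by
    intro C hCX
    ext v
    rw [Finset.mem_image]
    constructor
    · rintro ⟨i, hiT, rfl⟩
      exact (Finset.mem_filter.1 hiT).2
    · intro hv
      have h2 := hCX hv
      rw [hX, Finset.mem_image] at h2
      obtain ⟨i, hiS, rfl⟩ := h2
      exact ⟨i, Finset.mem_filter.2 ⟨hiS, hv⟩, rfl⟩
  -- the labels of the rows
  obtain ⟨P, hP⟩ : ∃ P : V → ℕ, ∀ i ∈ J, P (r i) = p i := by
    refine ⟨fun v => if h : ∃ i ∈ J, r i = v then p h.choose else 0, fun i hiS => ?_⟩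
    have h : ∃ j ∈ J, r j = r i := ⟨i, hiS, rfl⟩
    show (if h : ∃ j ∈ J, r j = r i then p h.choose else 0) = p i
    rw [dif_pos h]
    exact congrArg p (hinj h.choose_spec.1 hiS h.choose_spec.2)
  have hfil : ∀ C ⊆ J, ∀ q, (C.image r).filter (fun v => P v = q) =
      (C.filter fun i => p i = q).image r := by
    intro C hC q
    ext v
    rw [Finset.mem_filter, Finset.mem_image, Finset.mem_image]
    constructor
    · rintro ⟨⟨i, hiJ, rfl⟩, h⟩
      rw [hP i (hC hiJ)] at h
      exact ⟨i, Finset.mem_filter.2 ⟨hiJ, h⟩, rfl⟩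
    · rintro ⟨i, hiJ, rfl⟩
      rw [Finset.mem_filter] at hiJ
      refine ⟨⟨i, hiJ.1, rfl⟩, ?_⟩
      rw [hP i (hC hiJ.1)]
      exact hiJ.2
  have hsp : ∀ C ⊆ X, (∀ q, Co X (C.filter fun v => P v = q)) → Co X C := by
    intro C hC hq
    obtain ⟨T, hT⟩ : ∃ T : Finset ι, T = J.filter fun i => r i ∈ C := ⟨_, rfl⟩
    have hTS : T ⊆ J := by
      rw [hT]
      exact Finset.filter_subset _ _
    have hTJ : T.image r = C := by
      rw [hT]
      exact hpre C hC
    rw [← hTJ, ← hco T hTS]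
    intro hc
    obtain ⟨q, hq1⟩ := hp T hTS hc
    have h1 := hq q
    rw [← hTJ, hfil T hTS q, ← hco _ ((Finset.filter_subset _ _).trans hTS)] at h1
    exact h1 hq1
  rw [← hX]
  refine nzu_parts X P hsp u fun q => ?_
  obtain ⟨Q, hQ⟩ : ∃ Q : Finset ι, Q = J.filter fun i => p i = q := ⟨_, rfl⟩
  have hQS : Q ⊆ J := by
    rw [hQ]
    exact Finset.filter_subset _ _
  have hXq : X.filter (fun v => P v = q) = Q.image r := by
    rw [hX, hQ]
    exact hfil J (Finset.Subset.refl J) q
  have hPX : Q.image r ⊆ X := by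
    rw [← hXq]
    exact Finset.filter_subset _ _
  have hdq := parts_disjoint X P hsp q
  rw [hXq] at hdq
  rw [hXq]
  refine hgen q Q hQ ⟨hinj.mono (Finset.coe_subset.2 hQS), fun i hiQ => hB.ne i (hQS hiQ),
    fun C hC => ?_⟩
  rw [hco C (hC.trans hQS)]
  constructor
  · intro h
    refine le_antisymm (span_mono (Finset.coe_subset.2 Finset.sdiff_subset)) ?_
    exact span_part hPX h hdq
  · intro h
    refine le_antisymm (span_mono (Finset.coe_subset.2 Finset.sdiff_subset))
      (span_le.2 fun v hv => ?_)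
    by_cases hvQ : v ∈ Q.image r
    · have h1 : v ∈ span (ZMod 2) ((Q.image r : Finset _) : Set V) :=
        subset_span (Finset.mem_coe.2 hvQ)
      unfold Co at h
      rw [← h] at h1
      exact span_mono (Finset.coe_subset.2 (Finset.sdiff_subset_sdiff hPX
        (Finset.Subset.refl _))) h1
    · refine subset_span (Finset.mem_coe.2 (Finset.mem_sdiff.2 ⟨hv, fun h2 => hvQ ?_⟩))
      exact Finset.image_subset_image hC h2

/-- **The class form** -/
theorem class_main3 [Module.Finite (ZMod 2) V] (hK : CardReg 9) (hR : RankReg 5)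
    (hD : CorankReg 3) (hE : St_OneExc) (hX : St_WeightedBlock)
    (J : Finset ι) (Cyc : Finset ι → Prop) (r : ι → V)
    (hB : Block J Cyc r) (hreg : ∀ Y ⊆ J.image r, TRL.Reg Y) (a u : V → ℤ) (C T : ℕ) (hT : 1 ≤ T)
    (hF : Follows (J.image r) a u C T)
    (hsg : ∀ v ∈ J.image r, (T : ℤ) ≤ |a v| → 0 < a v * u v) (p : ι → ℕ) (hp : Splits J Cyc p)
    (hsm : ∀ q, GoodBlock3 J Cyc r (fun i => a (r i)) p T q) : NZu (J.image r) u := by
  classical
  refine block_split J Cyc r hB p hp u ?_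
  intro q Q hQ hBq
  have hQJ : Q ⊆ J := by
    rw [hQ]
    exact Finset.filter_subset _ _
  have hPX : Q.image r ⊆ J.image r := Finset.image_subset_image hQJ
  have hFq := follows_mono hF hPX
  have hrg : ∀ Y ⊆ Q.image r, TRL.Reg Y := fun Y hY => hreg Y (hY.trans hPX)
  have hsgq : ∀ v ∈ Q.image r, (T : ℤ) ≤ |a v| → 0 < a v * u v := fun v hv => hsg v (hPX hv)
  have hfe : (Q.filter fun i => |a (r i)| < T) = J.filter fun i => p i = q ∧ |a (r i)| < T := by
    rw [hQ, Finset.filter_filter]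
  rcases hsm q with ho | ⟨hsm, hc⟩ | ⟨hd, hc⟩ | hw | ⟨L, hL, E, h0, h1, h2, h3⟩
  · exact PMT.odd_use J Q Cyc r p q hQ hBq a u C T hFq ho
  · refine small_block hK hR hD Q Cyc _ hBq hrg a u C T hFq ?_ ?_
    · unfold SmallPart at hsm
      rw [← hQ] at hsm
      rcases hsm with h | ⟨F, T, hF1, hF2, hF3, hF4⟩ | h | h
      · exact Or.inl h
      · refine Or.inr (Or.inl ⟨F, T, hF1, hF2, hF3, fun i hi => ?_⟩)
        rw [hQ, Finset.mem_filter] at hi
        exact hF4 i hi.1 hi.2
      · exact Or.inr (Or.inr (Or.inl h))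
      · exact Or.inr (Or.inr (Or.inr h))
    · rw [hfe]
      exact hc
  · refine TRX.six_block (m := 5) hK (by norm_num) Q Cyc r hBq hrg a u C T hFq ?_ ?_
    · rw [hQ]
      exact hd
    · intro h
      apply hc
      refine Eq.mp (congrArg Cyc ?_) h
      ext i
      simp only [hQ, Finset.mem_filter, and_assoc]
  · rw [← hQ] at hw
    exact hX ι V Q Cyc r hBq a u C T hFq hw
  · rw [← hQ] at hL h0 h1 h2 h3
    exact adequate_block hE Q Cyc _ hBq a u C T hFq hT hsgq L hL E h0 h1 h2 h3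

end Pool.Agent.NHT
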