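import Mathlib
import Pool.Agent.NHT.KDet

/-!
# NHT, version 5, module HVP: functions on the subsets of `J` (helper38)

The identity of `HVJ` for all functions on the subsets of `J` which are constant on the clusters.
-/

set_option autoImplicit false
set_option linter.unusedSectionVars false

open Module Submodule Pool.Agent.UNI LaurentPolynomial Pool.Agent.SPT Pool.Agent.SPT.Rel
  Pool.Agent.SPT.Lin Pool.Agent.SRH

namespace Pool.Agent.NHT

/-! ### the expansion -/

section

variable {R : Type} [CommRing R] {κ : Type} [DecidableEq κ]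

/-- the difference operator -/
def DD (y : κ → R) (Ψ : Finset κ → R) (A : Finset κ) : R :=
  ∑ K ∈ A.powerset, (-1) ^ (A \ K).card * Ψ K * ∏ k ∈ K, y k

/-- the sum over the subsets of `X` is a double sum over the subsets of `J` and of `X \ J` -/
theorem sum_split' {A : Type} [AddCommMonoid A] (X J : Finset κ) (hJ : J ⊆ X)
    (f : Finset κ → A) : ∑ W ∈ X.powerset, f W =
      ∑ A ∈ J.powerset, ∑ B ∈ (X \ J).powerset, f (A ∪ B) := by
  rw [← Finset.sum_product']
  symm
  refine Finset.sum_nbij' (fun p => p.1 ∪ p.2) (fun W => (W ∩ J, W \ J)) ?_ ?_ ?_ ?_ ?_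
  · rintro ⟨A, B⟩ h
    rw [Finset.mem_product, Finset.mem_powerset, Finset.mem_powerset] at h
    rw [Finset.mem_powerset]
    exact Finset.union_subset (h.1.trans hJ) (h.2.trans Finset.sdiff_subset)
  · intro W h
    rw [Finset.mem_powerset] at h
    rw [Finset.mem_product, Finset.mem_powerset, Finset.mem_powerset]
    exact ⟨Finset.inter_subset_right, Finset.sdiff_subset_sdiff h (Finset.Subset.refl J)⟩
  · rintro ⟨A, B⟩ h
    rw [Finset.mem_product, Finset.mem_powerset, Finset.mem_powerset] at h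
    have hA : A ⊆ J := h.1
    have hB : B ⊆ X \ J := h.2
    refine Prod.ext ?_ ?_
    · ext v
      rw [Finset.mem_inter, Finset.mem_union]
      constructor
      · rintro ⟨h1 | h1, h2⟩
        · exact h1
        · exact absurd h2 (Finset.mem_sdiff.1 (hB h1)).2
      · intro h1
        exact ⟨Or.inl h1, hA h1⟩
    · ext v
      rw [Finset.mem_sdiff, Finset.mem_union]
      constructor
      · rintro ⟨h1 | h1, h2⟩
        · exact absurd (hA h1) h2
        · exact h1
      · intro h1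
        exact ⟨Or.inr h1, (Finset.mem_sdiff.1 (hB h1)).2⟩
  · intro W _
    ext v
    rw [Finset.mem_union, Finset.mem_inter, Finset.mem_sdiff]
    tauto
  · intro p _
    rfl

theorem prod_sub_one (y : κ → R) (U : Finset κ) :
    ∏ k ∈ U, (y k - 1) = ∑ F ∈ U.powerset, (-1) ^ (U \ F).card * ∏ k ∈ F, y k := by
  have h2 : ∀ k, y k - 1 = y k + (-1) := fun k => sub_eq_add_neg _ _
  rw [Finset.prod_congr rfl fun k _ => h2 k, Finset.prod_add]
  refine Finset.sum_congr rfl fun F _ => ?_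
  rw [Finset.prod_const, mul_comm]

theorem inner_split (J A B : Finset κ) (hA : A ⊆ J) (hB : Disjoint B J) (y : κ → R)
    (Ψ : Finset κ → R) :
    ∑ F ∈ (A ∪ B).powerset, (-1) ^ ((A ∪ B) \ F).card * Ψ (F ∩ J) * ∏ k ∈ F, y k =
      DD y Ψ A * ∏ k ∈ B, (y k - 1) := by
  classical
  have hAB : Disjoint A B := (hB.symm).mono_left hA
  have hBA : (A ∪ B) \ A = B := by
    rw [Finset.union_sdiff_left]
    exact Finset.sdiff_eq_self_of_disjoint hAB.symm
  rw [sum_split' (A ∪ B) A Finset.subset_union_left, hBA]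
  unfold DD
  rw [Finset.sum_mul]
  refine Finset.sum_congr rfl fun K hK => ?_
  rw [prod_sub_one, Finset.mul_sum]
  refine Finset.sum_congr rfl fun L hL => ?_
  rw [Finset.mem_powerset] at hK hL
  have h1 : (K ∪ L) ∩ J = K := by
    ext v
    rw [Finset.mem_inter, Finset.mem_union]
    constructor
    · rintro ⟨h | h, hJ⟩
      · exact h
      · exact absurd hJ (Finset.disjoint_left.1 hB (hL h))
    · intro h
      exact ⟨Or.inl h, hA (hK h)⟩
  have h2 : (A ∪ B) \ (K ∪ L) = (A \ K) ∪ (B \ L) := by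
    ext v
    rw [Finset.mem_sdiff, Finset.mem_union, Finset.mem_union, Finset.mem_union, Finset.mem_sdiff,
      Finset.mem_sdiff]
    constructor
    · rintro ⟨h | h, h3⟩
      · exact Or.inl ⟨h, fun h4 => h3 (Or.inl h4)⟩
      · exact Or.inr ⟨h, fun h4 => h3 (Or.inr h4)⟩
    · rintro (⟨h, h3⟩ | ⟨h, h3⟩)
      · refine ⟨Or.inl h, ?_⟩
        rintro (h4 | h4)
        · exact h3 h4
        · exact Finset.disjoint_left.1 hAB h (hL h4)
      · refine ⟨Or.inr h, ?_⟩
        rintro (h4 | h4)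
        · exact Finset.disjoint_left.1 hAB (hK h4) h
        · exact h3 h4
  have h3 : ((A \ K) ∪ (B \ L)).card = (A \ K).card + (B \ L).card :=
    Finset.card_union_of_disjoint (hAB.mono Finset.sdiff_subset Finset.sdiff_subset)
  rw [h1, h2, h3, Finset.prod_union (hAB.mono hK hL), pow_add]
  ring

theorem expand_psi (X J : Finset κ) (hJ : J ⊆ X) (y : κ → R) (Ψ : Finset κ → R)
    (φ : Finset κ → R) :
    ∑ F ∈ X.powerset, Ψ (F ∩ J) * ((∏ k ∈ F, y k) * Lin.KK X φ F) =
      ∑ A ∈ J.powerset, ∑ B ∈ (X \ J).powerset,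
        DD y Ψ A * (∏ k ∈ B, (y k - 1)) * φ (A ∪ B) := by
  classical
  have h1 : ∀ F ∈ X.powerset, Ψ (F ∩ J) * ((∏ k ∈ F, y k) * Lin.KK X φ F) =
      ∑ U ∈ X.powerset.filter (fun U => F ⊆ U),
        ((-1) ^ (U \ F).card * Ψ (F ∩ J) * ∏ k ∈ F, y k) * φ U := by
    intro F _
    unfold Lin.KK
    rw [Finset.mul_sum, Finset.mul_sum]
    refine Finset.sum_congr rfl fun U _ => ?_
    ring
  have h2 : ∑ F ∈ X.powerset, ∑ U ∈ X.powerset.filter (fun U => F ⊆ U),
      ((-1) ^ (U \ F).card * Ψ (F ∩ J) * ∏ k ∈ F, y k) * φ U =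
      ∑ U ∈ X.powerset, ∑ F ∈ U.powerset,
        ((-1) ^ (U \ F).card * Ψ (F ∩ J) * ∏ k ∈ F, y k) * φ U := by
    refine Finset.sum_comm' fun F U => ?_
    constructor
    · intro h
      have h3 := Finset.mem_filter.1 h.2
      exact ⟨Finset.mem_powerset.2 h3.2, h3.1⟩
    · intro h
      have h3 := Finset.mem_powerset.1 h.1
      have h4 := Finset.mem_powerset.1 h.2
      exact ⟨Finset.mem_powerset.2 (h3.trans h4), Finset.mem_filter.2 ⟨h.2, h3⟩⟩
  rw [Finset.sum_congr rfl h1, h2, sum_split' X J hJ]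
  refine Finset.sum_congr rfl fun A hA => Finset.sum_congr rfl fun B hB => ?_
  rw [Finset.mem_powerset] at hA hB
  have hBJ : Disjoint B J := Finset.disjoint_left.2 fun v hv => (Finset.mem_sdiff.1 (hB hv)).2
  rw [← inner_split J A B hA hBJ y Ψ, Finset.sum_mul]

end

open Classical in
/-- the sum over the spanning sets of the differences of `ψ` -/
noncomputable def PS {V : Type} [DecidableEq V] [AddCommGroup V] [Module (ZMod 2) V]
    (J : Finset V) (ψ : Finset V → ℂ) : ℂ :=
  ∑ A ∈ J.powerset, if Spans ⊥ J A then ∑ K ∈ A.powerset, (-1) ^ (A \ K).card * ψ K else 0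

section

variable {E : Type} [Fintype E] [DecidableEq E]

open Classical in
/-- the polynomial with the weights of the classes -/
noncomputable def PPs (M : Matrix E E (ZMod 2)) (σ : E → Bool) (J : Finset (E → ZMod 2))
    (ψ : Finset (E → ZMod 2) → ℂ) : ℂ[T;T⁻¹] :=
  ∑ A ∈ J.powerset, if Spans ⊥ J A then
    DD (fun v => pw M (fun c => qu ℂ (σ c)) Finset.univ v) (fun K => C (ψ K)) A else 0

theorem evA_PPs (M : Matrix E E (ZMod 2)) (σ : E → Bool) (J : Finset (E → ZMod 2))
    (ψ : Finset (E → ZMod 2) → ℂ) : evA (PPs M σ J ψ) = PS J ψ := by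
  classical
  unfold PPs PS
  rw [map_sum]
  refine Finset.sum_congr rfl fun A _ => ?_
  split_ifs
  · unfold DD
    rw [map_sum]
    refine Finset.sum_congr rfl fun K _ => ?_
    rw [map_mul, map_mul, map_pow, map_neg, map_one, evA_C, map_prod,
      Finset.prod_eq_one fun v _ => evA_pw M σ _ v, mul_one]
  · exact map_zero _

/-- **The first step** -/
theorem split_psi (M : Matrix E E (ZMod 2)) (hM : ∀ i j, M i j = M j i) (σ : E → Bool)
    (J : Finset (E → ZMod 2)) (hJ : J ⊆ Finset.univ.image M) (ψ : Finset (E → ZMod 2) → ℂ) :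
    dl ℂ ^ (M.rank - finrank (ZMod 2) (span (ZMod 2) (J : Set (E → ZMod 2))) + 1) ∣
      ∑ F ∈ (Finset.univ.image M).powerset, C (ψ (F ∩ J)) *
        Lin.GG M (fun c => qu ℂ (σ c)) Finset.univ (ph ℂ M) F - PPs M σ J ψ * HJ M σ J := by
  classical
  obtain ⟨X, hX⟩ : ∃ X, X = Finset.univ.image M := ⟨_, rfl⟩
  obtain ⟨y, hy⟩ : ∃ y : (E → ZMod 2) → ℂ[T;T⁻¹], y = fun v =>
    pw M (fun c => qu ℂ (σ c)) Finset.univ v := ⟨_, rfl⟩
  obtain ⟨ρ, hρ⟩ : ∃ ρ, ρ = finrank (ZMod 2) (span (ZMod 2) (J : Set (E → ZMod 2))) := ⟨_, rfl⟩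
  rw [← hρ]
  have h1 : ∑ F ∈ X.powerset, C (ψ (F ∩ J)) *
      Lin.GG M (fun c => qu ℂ (σ c)) Finset.univ (ph ℂ M) F =
      ∑ A ∈ J.powerset, ∑ B ∈ (X \ J).powerset,
        DD y (fun K => C (ψ K)) A * (∏ k ∈ B, (y k - 1)) * ph ℂ M (A ∪ B) := by
    rw [← expand_psi X J (by rw [hX]; exact hJ) y (fun K => C (ψ K)) (ph ℂ M)]
    refine Finset.sum_congr rfl fun F _ => ?_
    unfold Lin.GG
    rw [← hX, hy]
  rw [← hX, h1]
  unfold PPs HJ
  rw [Finset.sum_mul, ← hX, ← hy, ← Finset.sum_sub_distrib]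
  refine Finset.dvd_sum fun A hA => ?_
  rw [Finset.mul_sum, ← Finset.sum_sub_distrib]
  refine Finset.dvd_sum fun B hB => ?_
  rw [Finset.mem_powerset] at hA hB
  have hBX : B ⊆ X := hB.trans Finset.sdiff_subset
  have hAX : A ⊆ X := hA.trans (by rw [hX]; exact hJ)
  have h3 : ∏ v ∈ B, (pw M (fun c => qu ℂ (σ c)) Finset.univ v - 1) = ∏ v ∈ B, (y v - 1) :=
    Finset.prod_congr rfl fun v _ => by rw [hy]
  rw [h3]
  by_cases hs : Spans ⊥ J A
  · rw [if_pos hs]
    have h5 : ph ℂ M (A ∪ B) = ph ℂ M (J ∪ B) := by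
      unfold ph
      congr 1
      refine ex_congr M _ _ ?_ ?_ ?_
      · rw [← hX]
        exact Finset.union_subset hAX hBX
      · rw [← hX]
        exact Finset.union_subset (by rw [hX]; exact hJ) hBX
      · unfold Spans at hs
        rw [bot_sup_eq, bot_sup_eq] at hs
        rw [Finset.coe_union, Finset.coe_union, span_union, span_union, hs]
    rw [h5, mul_assoc, sub_self]
    exact dvd_zero _
  · rw [if_neg hs, zero_mul, sub_zero, mul_assoc]
    refine Dvd.dvd.mul_left ?_ _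
    have h5 : dl ℂ ^ B.card ∣ ∏ v ∈ B, (y v - 1) := by
      rw [← Finset.prod_const]
      refine Finset.prod_dvd_prod_of_dvd _ _ fun v _ => ?_
      rw [hy]
      exact dl_dvd_pw M σ _ v
    unfold ph
    refine dvd_trans ?_ (mul_dvd_mul h5 (dvd_refl _))
    rw [← pow_add]
    refine pow_dvd_pow _ ?_
    have h6 := ex_ge M hM (A ∪ B) (by rw [← hX]; exact Finset.union_subset hAX hBX)
    have h7 : finrank (ZMod 2) (span (ZMod 2) ((A ∪ B : Finset (E → ZMod 2)) :
        Set (E → ZMod 2))) ≤ finrank (ZMod 2) (span (ZMod 2) (A : Set (E → ZMod 2))) + B.card := by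
      rw [Finset.coe_union, span_union]
      refine (Submodule.finrank_add_le_finrank_add_finrank _ _).trans ?_
      have h8 : finrank (ZMod 2) (span (ZMod 2) (B : Set (E → ZMod 2))) ≤ B.card :=
        finrank_span_finset_le_card B
      omega
    have h8 : finrank (ZMod 2) (span (ZMod 2) (A : Set (E → ZMod 2))) < ρ := by
      rw [hρ]
      refine Submodule.finrank_lt_finrank_of_lt (lt_of_le_of_ne
        (span_mono (Finset.coe_subset.2 hA)) fun h => hs ?_)
      unfold Spans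
      rw [bot_sup_eq, bot_sup_eq]
      exact h
    have h9 := rank_ge M J hJ
    rw [← hρ] at h9
    omega

/-- **The second step**: the values at the root of unity -/
theorem core_det (M : Matrix E E (ZMod 2)) (hM : ∀ i j, M i j = M j i) (σ : E → Bool)
    (J : Finset E) (hinj : Set.InjOn M (J : Set E)) (hJ0 : ∀ c ∈ J, M c ≠ 0) (hne : J.Nonempty)
    (P t s : ℂ[T;T⁻¹])
    (hs : dl ℂ ^ M.rank * t - P * HJ M σ (J.image M) =
      dl ℂ ^ (M.rank - finrank (ZMod 2) (span (ZMod 2) ((J.image M : Finset (E → ZMod 2)) :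
        Set (E → ZMod 2))) + 1) * s) : evA P * detJ M σ J = 0 := by
  classical
  obtain ⟨X, hX⟩ : ∃ X, X = Finset.univ.image M := ⟨_, rfl⟩
  have hJX : J.image M ⊆ Finset.univ.image M := Finset.image_subset_image (Finset.subset_univ J)
  obtain ⟨ρ, hρ⟩ : ∃ ρ, ρ = finrank (ZMod 2) (span (ZMod 2) ((J.image M : Finset (E → ZMod 2)) :
    Set (E → ZMod 2))) := ⟨_, rfl⟩
  have hρr : ρ ≤ M.rank := by
    rw [hρ]
    exact rank_ge M _ hJX
  have hρJ : ρ ≤ J.card := by
    rw [hρ]
    exact (finrank_span_finset_le_card _).trans Finset.card_image_le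
  have hρ1 : 1 ≤ ρ := by
    rw [hρ, Nat.one_le_iff_ne_zero]
    intro h
    rw [Submodule.finrank_eq_zero, span_eq_bot] at h
    obtain ⟨c, hc⟩ := hne
    exact hJ0 c hc (h _ (Finset.mem_coe.2 (Finset.mem_image_of_mem M hc)))
  rw [← hρ] at hs
  -- the sum over the states
  obtain ⟨Γ, hΓ⟩ : ∃ Γ : ℂ[T;T⁻¹], Γ = ∑ W ∈ (Finset.univ : Finset E).powerset.filter
      (fun W => J ⊆ W), (∏ c ∈ J, qu ℂ (σ c)) * (∏ c ∈ W \ J, al ℂ (σ c) ^ 2) *
        dl ℂ ^ (kap M W - (J.card - ρ)) := ⟨_, rfl⟩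
  have hge : ∀ W, J ⊆ W → J.card - ρ ≤ kap M W := by
    intro W hW
    have h1 := kap_ge M hM J W hW
    rw [← hρ] at h1
    omega
  have hgg : gg ℂ M σ J = dl ℂ ^ (J.card - ρ) * Γ := by
    rw [hΓ, Finset.mul_sum]
    unfold gg
    refine Finset.sum_congr rfl fun W hW => ?_
    have h1 := hge W (Finset.mem_filter.1 hW).2
    have h2 : kap M W = (J.card - ρ) + (kap M W - (J.card - ρ)) := by omega
    conv_lhs => rw [h2, pow_add]
    ring
  have h1 := HJ_eq M hM σ J hinj
  rw [hgg] at h1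
  obtain ⟨Q, hQ⟩ : ∃ Q, Q = ∏ v ∈ J.image M, pw M (fun c => qu ℂ (σ c)) Finset.univ v :=
    ⟨_, rfl⟩
  rw [← hQ] at h1
  have hdl := dl_ne0
  have h2 : Q * HJ M σ (J.image M) = dl ℂ ^ (M.rank - ρ) * Γ := by
    have h3 : dl ℂ ^ J.card * (Q * HJ M σ (J.image M)) =
        dl ℂ ^ J.card * (dl ℂ ^ (M.rank - ρ) * Γ) := by
      rw [h1, ← mul_assoc, ← mul_assoc, ← pow_add, ← pow_add]
      congr 2
      omega
    exact mul_left_cancel₀ (pow_ne_zero _ hdl) h3
  have h3 : P * Γ = dl ℂ * (Q * (dl ℂ ^ (ρ - 1) * t) - Q * s) := by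
    have h4 : dl ℂ ^ (M.rank - ρ) * (P * Γ) =
        dl ℂ ^ (M.rank - ρ) * (dl ℂ * (Q * (dl ℂ ^ (ρ - 1) * t) - Q * s)) := by
      have h5 : dl ℂ ^ M.rank = dl ℂ ^ (M.rank - ρ) * (dl ℂ * dl ℂ ^ (ρ - 1)) := by
        rw [← pow_succ', ← pow_add]
        congr 1
        omega
      rw [h5, pow_succ] at hs
      linear_combination P * (-h2) + (-Q) * hs
    exact mul_left_cancel₀ (pow_ne_zero _ hdl) h4
  have h4 := congrArg evA h3
  rw [map_mul, map_mul, evA_dl, zero_mul] at h4
  rw [← h4]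
  congr 1
  rw [hΓ, map_sum]
  unfold detJ
  refine Finset.sum_congr rfl fun W hW => ?_
  have hJW := (Finset.mem_filter.1 hW).2
  have h5 : (∀ W', J ⊆ W' → kap M W ≤ kap M W') ↔ kap M W = J.card - ρ := by
    constructor
    · intro h
      obtain ⟨W', hW', h6⟩ := kap_min M hM J
      rw [← hρ] at h6
      have h7 := h W' hW'
      have h8 := hge W hJW
      omega
    · intro h W' hW'
      rw [h]
      exact hge W' hW'
  rw [map_mul, map_mul, map_prod, map_prod, map_pow, evA_dl,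
    Finset.prod_eq_one fun c _ => evA_qu _, one_mul]
  by_cases h6 : kap M W = J.card - ρ
  · rw [if_pos (h5.2 h6), h6, Nat.sub_self, pow_zero, mul_one]
    refine Finset.prod_congr rfl fun c _ => ?_
    rw [map_pow]
  · rw [if_neg fun h => h6 (h5.1 h)]
    have h7 := hge W hJW
    rw [zero_pow (by omega), mul_zero]

/-- `d` is the difference of the indicator functions of `K` and `K'` on `J` -/
def IsDiff {ι : Type} [DecidableEq ι] (J : Finset ι) (d : ι → ℤ) (K K' : Finset ι) : Prop :=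
  ∀ i ∈ J, d i = (if i ∈ K then 1 else 0) - (if i ∈ K' then 1 else 0)

/-- **The identity for functions which are constant on the clusters** -/
theorem HVP (M : Matrix E E (ZMod 2)) (hM : ∀ i j, M i j = M j i) (σ : E → Bool) (B N : ℕ)
    (hB : (SS ℂ M σ).coeff.support.card ≤ B) (hN : 2 * (B + 2) * (M.rank + 1) ≤ N)
    (J : Finset E) (hinj : Set.InjOn M (J : Set E)) (hJ0 : ∀ c ∈ J, M c ≠ 0) (hne : J.Nonempty)
    (ψ : Finset (E → ZMod 2) → ℂ)
    (hψ : ∀ d, Small ((Finset.univ.image M).erase 0) (tw M σ) N d →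
      ∀ K ⊆ J.image M, ∀ K' ⊆ J.image M, IsDiff (J.image M) d K K' → ψ K = ψ K') :
    PS (J.image M) ψ * detJ M σ J = 0 := by
  classical
  obtain ⟨X, hX⟩ : ∃ X, X = Finset.univ.image M := ⟨_, rfl⟩
  -- the clusters
  have hcl : ∀ F ∈ II M, ∀ F' ∈ II M,
      |∑ v ∈ F, tw M σ v - ∑ v ∈ F', tw M σ v| < 2 * ((B : ℤ) + 2) * (M.rank + 1) →
      ψ (F ∩ J.image M) = ψ (F' ∩ J.image M) := by
    intro F hF F' hF' h
    unfold II at hF hF'
    rw [Finset.mem_filter, Finset.mem_powerset, ← hX] at hF hF'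
    have hd0 : ∀ v, v ∉ X.erase 0 → di F F' v = 0 := by
      intro v hv
      rw [Finset.mem_erase, not_and_or, not_not] at hv
      unfold di
      rcases hv with rfl | hv
      · by_cases h0 : (0 : E → ZMod 2) ∈ X
        · rw [if_pos (hF.2.resolve_right (not_not.2 h0)),
            if_pos (hF'.2.resolve_right (not_not.2 h0)), sub_self]
        · rw [if_neg fun h1 => h0 (hF.1 h1), if_neg fun h1 => h0 (hF'.1 h1), sub_self]
      · rw [if_neg fun h1 => hv (hF.1 h1), if_neg fun h1 => hv (hF'.1 h1), sub_self]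
    have hsub : X.erase 0 ⊆ X := Finset.erase_subset _ _
    have hS : Small (X.erase 0) (tw M σ) N (di F F') := by
      refine ⟨fun v => ?_, hd0, ?_⟩
      · unfold di
        by_cases h1 : v ∈ F <;> by_cases h2 : v ∈ F' <;> simp [h1, h2]
      · have h1 := sum_di X F F' hF.1 hF'.1 (tw M σ)
        simp only [Int.cast_id] at h1
        have h2 : ∑ v ∈ X.erase 0, di F F' v * tw M σ v = ∑ v ∈ X, tw M σ v * di F F' v := by
          rw [← Finset.sum_subset hsub fun v _ hv => by rw [hd0 v hv, mul_zero]]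
          exact Finset.sum_congr rfl fun v _ => mul_comm _ _
        rw [h2, h1]
        refine h.trans_le ?_
        have h3 : ((2 * (B + 2) * (M.rank + 1) : ℕ) : ℤ) ≤ N := by exact_mod_cast hN
        push_cast at h3
        exact h3
    refine hψ (di F F') (by rw [← hX]; exact hS) _ Finset.inter_subset_right _
      Finset.inter_subset_right fun v hv => ?_
    unfold di
    congr 1
    · by_cases h1 : v ∈ F
      · rw [if_pos h1, if_pos (Finset.mem_inter.2 ⟨h1, hv⟩)]
      · rw [if_neg h1, if_neg fun h2 => h1 (Finset.mem_inter.1 h2).1]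
    · by_cases h1 : v ∈ F'
      · rw [if_pos h1, if_pos (Finset.mem_inter.2 ⟨h1, hv⟩)]
      · rw [if_neg h1, if_neg fun h2 => h1 (Finset.mem_inter.1 h2).1]
  obtain ⟨t, ht⟩ := HV_cluster ℂ M hM σ B hB (fun F => ψ (F ∩ J.image M)) hcl
  have hJX : J.image M ⊆ Finset.univ.image M := Finset.image_subset_image (Finset.subset_univ J)
  obtain ⟨s, hs⟩ := split_psi M hM σ (J.image M) hJX ψ
  rw [ht] at hs
  rw [← evA_PPs M σ]
  exact core_det M hM σ J hinj hJ0 hne _ t s hs

end

end Pool.Agent.NHT
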