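import Mathlib
import Pool.Agent.NHT.HVP
import Pool.Agent.FHP.Graph

/-!
# NHT, module Iso: the value at `A = 1` of the part which belongs to a set of classes (helper11)

`crk N` is the corank of a symmetric matrix over the field with two elements.  The sum of
`(-2) ^ crk` over all choices of some diagonal entries is, up to the sign, `(-2) ^ crk` of the matrix
without these rows and columns.
-/

set_option autoImplicit false
set_option linter.unusedSectionVars false

open Module Submodule Pool.Agent.UNI LaurentPolynomial Pool.Agent.SPT Pool.Agent.SPT.Rel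
  Pool.Agent.SPT.Lin Pool.Agent.SRH

namespace Pool.Agent.NHT

/-! ### the corank -/

section

variable {n : ℕ}

/-- the corank -/
noncomputable def crk (N : Matrix (Fin n) (Fin n) (ZMod 2)) : ℕ := finrank (ZMod 2) (LinearMap.ker N.mulVecLin)

/-- the rows and columns of the elements of `R` are replaced by those of the identity matrix -/
def remM (N : Matrix (Fin n) (Fin n) (ZMod 2)) (R : Finset (Fin n)) : Matrix (Fin n) (Fin n) (ZMod 2) :=
  Matrix.of fun i j => if i ∈ R ∨ j ∈ R then (if i = j then 1 else 0) else N i j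

theorem remM_apply (N : Matrix (Fin n) (Fin n) (ZMod 2)) (R : Finset (Fin n)) (i j : Fin n) :
    remM N R i j = if i ∈ R ∨ j ∈ R then (if i = j then 1 else 0) else N i j := rfl

/-- ones on the diagonal at the elements of `T` -/
def dg (T : Finset (Fin n)) : Matrix (Fin n) (Fin n) (ZMod 2) := Matrix.diagonal fun c => if c ∈ T then 1 else 0

/-- a functional cuts the dimension by at most one -/
theorem finrank_inf_ker {V : Type} [AddCommGroup V] [Module (ZMod 2) V] [Module.Finite (ZMod 2) V]
    (L : Submodule (ZMod 2) V) (φ : V →ₗ[ZMod 2] ZMod 2) :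
    ((∀ x ∈ L, φ x = 0) → finrank (ZMod 2) (L ⊓ LinearMap.ker φ : Submodule (ZMod 2) V) =
        finrank (ZMod 2) L) ∧
      ((∃ x ∈ L, φ x ≠ 0) → finrank (ZMod 2) (L ⊓ LinearMap.ker φ : Submodule (ZMod 2) V) + 1 =
        finrank (ZMod 2) L) := by
  constructor
  · intro h
    have h1 : L ⊓ LinearMap.ker φ = L := inf_eq_left.2 fun x hx => LinearMap.mem_ker.2 (h x hx)
    rw [h1]
  · rintro ⟨x, hx, hne⟩
    have h1 : φ.domRestrict L ≠ 0 := by
      intro h
      have h2 := LinearMap.congr_fun h (⟨x, hx⟩ : L)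
      exact hne h2
    have h2 := Module.Dual.finrank_ker_add_one_of_ne_zero h1
    have h3 : (LinearMap.ker (φ.domRestrict L)).map L.subtype = L ⊓ LinearMap.ker φ := by
      ext y
      rw [Submodule.mem_map, Submodule.mem_inf]
      constructor
      · rintro ⟨z, hz, rfl⟩
        exact ⟨z.2, hz⟩
      · rintro ⟨h4, h5⟩
        exact ⟨⟨y, h4⟩, h5, rfl⟩
    rw [← h3, Submodule.finrank_map_subtype_eq]
    exact h2

/-- the vectors which satisfy all equations but that of `c` -/
def allBut (N : Matrix (Fin n) (Fin n) (ZMod 2)) (c : Fin n) : Submodule (ZMod 2) (Fin n → ZMod 2) where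
  carrier := {x | ∀ i, i ≠ c → N.mulVec x i = 0}
  add_mem' := fun {a b} ha hb i hi => by
    rw [Matrix.mulVec_add, Pi.add_apply, ha i hi, hb i hi, add_zero]
  zero_mem' := fun i _ => by rw [Matrix.mulVec_zero, Pi.zero_apply]
  smul_mem' := fun r a ha i hi => by rw [Matrix.mulVec_smul, Pi.smul_apply, ha i hi, smul_zero]

theorem dot_comm' (N : Matrix (Fin n) (Fin n) (ZMod 2)) (hN : ∀ i j, N i j = N j i) (x y : Fin n → ZMod 2) :
    x ⬝ᵥ N.mulVec y = y ⬝ᵥ N.mulVec x := by
  have hT : N.transpose = N := by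
    ext i j
    exact hN j i
  rw [Matrix.dotProduct_mulVec, ← Matrix.mulVec_transpose, hT, dotProduct_comm]

/-- **The three coranks** -/
theorem crk_three (N : Matrix (Fin n) (Fin n) (ZMod 2)) (hN : ∀ i j, N i j = N j i) (c : Fin n) :
    (-2 : ℤ) ^ crk N + (-2) ^ crk (N + dg {c}) + (-2) ^ crk (remM N {c}) = 0 := by
  classical
  obtain ⟨α, hα⟩ : ∃ α : (Fin n → ZMod 2) →ₗ[ZMod 2] ZMod 2, ∀ x, α x = x c :=
    ⟨LinearMap.proj c, fun _ => rfl⟩
  obtain ⟨β, hβ⟩ : ∃ β : (Fin n → ZMod 2) →ₗ[ZMod 2] ZMod 2, ∀ x, β x = N.mulVec x c :=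
    ⟨(LinearMap.proj c).comp N.mulVecLin, fun _ => rfl⟩
  have hdot : ∀ x ∈ allBut N c, ∀ y, y ⬝ᵥ N.mulVec x = y c * N.mulVec x c := by
    intro x hx y
    unfold dotProduct
    rw [Finset.sum_eq_single c]
    · intro i _ hi
      rw [hx i hi, mul_zero]
    · intro h
      exact absurd (Finset.mem_univ c) h
  have hcross : ∀ x ∈ allBut N c, ∀ y ∈ allBut N c, α x * β y = α y * β x := by
    intro x hx y hy
    rw [hα, hβ, hα, hβ, ← hdot y hy x, ← hdot x hx y, dot_comm' N hN]
  have hnot : ¬ ((∀ x ∈ allBut N c, α x = 0) ∧ ∀ x ∈ allBut N c, β x = 0) := by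
    rintro ⟨h1, h2⟩
    obtain ⟨y, hy⟩ := FHP.Graph_range N hN (Pi.single c 1) (by
      intro x hx
      have h3 : x ∈ allBut N c := by
        intro i _
        rw [hx]
        rfl
      have h4 := h1 x h3
      rw [hα] at h4
      rw [single_one_dotProduct, h4])
    have h3 : y ∈ allBut N c := by
      intro i hi
      rw [hy, Pi.single_eq_of_ne hi]
    have h4 := h2 y h3
    rw [hβ, hy, Pi.single_eq_same] at h4
    exact one_ne_zero h4
  -- the three kernels
  have hk1 : LinearMap.ker N.mulVecLin = allBut N c ⊓ LinearMap.ker β := by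
    ext x
    rw [LinearMap.mem_ker, Matrix.mulVecLin_apply, Submodule.mem_inf, LinearMap.mem_ker, hβ]
    constructor
    · intro h
      exact ⟨fun i _ => by rw [h]; rfl, by rw [h]; rfl⟩
    · rintro ⟨h1, h2⟩
      funext i
      by_cases hi : i = c
      · rw [hi]
        exact h2
      · exact h1 i hi
  have hk2 : LinearMap.ker (N + dg {c}).mulVecLin = allBut N c ⊓ LinearMap.ker (α + β) := by
    ext x
    rw [LinearMap.mem_ker, Matrix.mulVecLin_apply, Submodule.mem_inf, LinearMap.mem_ker,
      LinearMap.add_apply, hα, hβ]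
    have h0 : ∀ i, ((N + dg {c}).mulVec x) i = N.mulVec x i + (if i = c then x i else 0) := by
      intro i
      unfold dg
      rw [Matrix.add_mulVec, Pi.add_apply, Matrix.mulVec_diagonal]
      simp only [Finset.mem_singleton, ite_mul, one_mul, zero_mul]
    constructor
    · intro h
      refine ⟨fun i hi => ?_, ?_⟩
      · have h1 := h0 i
        rw [h, if_neg hi, add_zero] at h1
        exact h1.symm
      · have h1 := h0 c
        rw [h, if_pos rfl] at h1
        rw [add_comm]
        exact h1.symm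
    · rintro ⟨h1, h2⟩
      funext i
      rw [h0]
      by_cases hi : i = c
      · rw [if_pos hi, hi, add_comm]
        exact h2
      · rw [if_neg hi, h1 i hi, add_zero]
        rfl
  have hk3 : LinearMap.ker (remM N {c}).mulVecLin = allBut N c ⊓ LinearMap.ker α := by
    ext x
    rw [LinearMap.mem_ker, Matrix.mulVecLin_apply, Submodule.mem_inf, LinearMap.mem_ker, hα]
    have h0 : (remM N {c}).mulVec x c = x c := by
      show ∑ j, remM N {c} c j * x j = x c
      rw [Finset.sum_eq_single c]
      · rw [remM_apply, if_pos (Or.inl (Finset.mem_singleton_self c)), if_pos rfl, one_mul]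
      · intro i _ hi
        rw [remM_apply, if_pos (Or.inl (Finset.mem_singleton_self c)), if_neg (Ne.symm hi),
          zero_mul]
      · intro h
        exact absurd (Finset.mem_univ c) h
    have h00 : x c = 0 → ∀ i, i ≠ c → (remM N {c}).mulVec x i = N.mulVec x i := by
      intro hx i hi
      show ∑ j, remM N {c} i j * x j = ∑ j, N i j * x j
      refine Finset.sum_congr rfl fun j _ => ?_
      by_cases hj : j = c
      · rw [hj, hx, mul_zero, mul_zero]
      · rw [remM_apply, if_neg]
        rw [Finset.mem_singleton, Finset.mem_singleton]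
        exact not_or.2 ⟨hi, hj⟩
    constructor
    · intro h
      have h1 : x c = 0 := by
        rw [← h0, h]
        rfl
      refine ⟨fun i hi => ?_, h1⟩
      rw [← h00 h1 i hi, h]
      rfl
    · rintro ⟨h1, h2⟩
      funext i
      by_cases hi : i = c
      · rw [hi, h0, h2]
        rfl
      · rw [h00 h2 i hi, h1 i hi]
        rfl
  unfold crk
  rw [hk1, hk2, hk3]
  have hA := finrank_inf_ker (allBut N c) α
  have hB := finrank_inf_ker (allBut N c) β
  have hAB := finrank_inf_ker (allBut N c) (α + β)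
  obtain ⟨l, hl⟩ : ∃ l, l = finrank (ZMod 2) (allBut N c) := ⟨_, rfl⟩
  rw [← hl] at hA hB hAB
  have hpow : ∀ m : ℕ, (-2 : ℤ) ^ m + (-2) ^ m + (-2) ^ (m + 1) = 0 := by
    intro m
    rw [pow_succ]
    ring
  have hz : ∀ a : ZMod 2, a = 0 ∨ a = 1 := by decide
  by_cases h1 : ∀ x ∈ allBut N c, α x = 0
  · have h2 : ∃ x ∈ allBut N c, β x ≠ 0 := by
      by_contra h
      push Not at h
      exact hnot ⟨h1, h⟩
    have h3 : ∃ x ∈ allBut N c, (α + β) x ≠ 0 := by
      obtain ⟨x, hx, hne⟩ := h2
      refine ⟨x, hx, ?_⟩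
      rw [LinearMap.add_apply, h1 x hx, zero_add]
      exact hne
    have e1 := hA.1 h1
    have e2 := hB.2 h2
    have e3 := hAB.2 h3
    rw [e1, ← e2]
    have e4 : finrank (ZMod 2) (allBut N c ⊓ LinearMap.ker (α + β) : Submodule (ZMod 2) _) =
        finrank (ZMod 2) (allBut N c ⊓ LinearMap.ker β : Submodule (ZMod 2) _) := by omega
    rw [e4]
    exact hpow _
  · push Not at h1
    obtain ⟨x₀, hx₀, hne₀⟩ := h1
    have hx₁ : α x₀ = 1 := (hz _).resolve_left hne₀
    have hall : ∀ y ∈ allBut N c, β y = α y * β x₀ := by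
      intro y hy
      have h2 := hcross x₀ hx₀ y hy
      rw [hx₁, one_mul] at h2
      exact h2
    have e1 := hA.2 ⟨x₀, hx₀, hne₀⟩
    rcases hz (β x₀) with h2 | h2
    · have h3 : ∀ y ∈ allBut N c, β y = 0 := by
        intro y hy
        rw [hall y hy, h2, mul_zero]
      have h4 : ∃ x ∈ allBut N c, (α + β) x ≠ 0 := by
        refine ⟨x₀, hx₀, ?_⟩
        rw [LinearMap.add_apply, h2, add_zero]
        exact hne₀
      have e2 := hB.1 h3
      have e3 := hAB.2 h4
      rw [e2, ← e1]
      have e4 : finrank (ZMod 2) (allBut N c ⊓ LinearMap.ker (α + β) : Submodule (ZMod 2) _) =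
          finrank (ZMod 2) (allBut N c ⊓ LinearMap.ker α : Submodule (ZMod 2) _) := by omega
      rw [e4]
      have := hpow (finrank (ZMod 2) (allBut N c ⊓ LinearMap.ker α : Submodule (ZMod 2) _))
      linarith
    · have h3 : ∀ y ∈ allBut N c, (α + β) y = 0 := by
        intro y hy
        rw [LinearMap.add_apply, hall y hy, h2, mul_one, CharTwo.add_self_eq_zero]
      have e2 := hB.2 ⟨x₀, hx₀, by rw [h2]; exact one_ne_zero⟩
      have e3 := hAB.1 h3
      rw [e3, ← e1]
      have e4 : finrank (ZMod 2) (allBut N c ⊓ LinearMap.ker β : Submodule (ZMod 2) _) =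
          finrank (ZMod 2) (allBut N c ⊓ LinearMap.ker α : Submodule (ZMod 2) _) := by omega
      rw [e4]
      have := hpow (finrank (ZMod 2) (allBut N c ⊓ LinearMap.ker α : Submodule (ZMod 2) _))
      linarith


theorem remM_symm (N : Matrix (Fin n) (Fin n) (ZMod 2)) (hN : ∀ i j, N i j = N j i)
    (R T : Finset (Fin n)) (i j : Fin n) : (remM N R + dg T) i j = (remM N R + dg T) j i := by
  rw [Matrix.add_apply, Matrix.add_apply, remM_apply, remM_apply]
  congr 1
  · by_cases h : i ∈ R ∨ j ∈ R
    · rw [if_pos h, if_pos h.symm]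
      by_cases h2 : i = j
      · rw [if_pos h2, if_pos h2.symm]
      · rw [if_neg h2, if_neg (Ne.symm h2)]
    · rw [if_neg h, if_neg fun h2 => h h2.symm, hN]
  · unfold dg
    rw [Matrix.diagonal_apply, Matrix.diagonal_apply]
    by_cases h2 : i = j
    · rw [h2]
    · rw [if_neg h2, if_neg (Ne.symm h2)]

theorem dg_insert (T : Finset (Fin n)) (c : Fin n) (hc : c ∉ T) :
    dg T + dg {c} = dg (insert c T) := by
  unfold dg
  rw [Matrix.diagonal_add]
  congr 1
  funext i
  by_cases h : i = c
  · subst h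
    rw [if_neg hc, if_pos (Finset.mem_singleton_self i), if_pos (Finset.mem_insert_self i T),
      zero_add]
  · rw [if_neg (fun h2 => h (Finset.mem_singleton.1 h2)), add_zero]
    refine if_congr ?_ rfl rfl
    rw [Finset.mem_insert]
    exact ⟨Or.inr, fun h2 => h2.resolve_left h⟩

theorem remM_insert (N : Matrix (Fin n) (Fin n) (ZMod 2)) (R T : Finset (Fin n)) (c : Fin n)
    (hc : c ∉ T) : remM (remM N R + dg T) {c} = remM N (insert c R) + dg T := by
  ext i j
  rw [remM_apply, Matrix.add_apply, Matrix.add_apply, remM_apply, remM_apply]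
  have h0 : ∀ i j, dg T i j = if i = j then (if i ∈ T then 1 else 0) else 0 := by
    intro i j
    unfold dg
    rw [Matrix.diagonal_apply]
  rw [h0]
  simp only [Finset.mem_singleton, Finset.mem_insert]
  by_cases hij : i = j
  · subst hij
    by_cases hi : i = c
    · subst hi
      simp [hc]
    · simp [hi]
  · by_cases hi : i = c
    · subst hi
      simp [hij]
    · by_cases hj : j = c
      · subst hj
        simp [hij]
      · simp [hi, hj, hij]

/-- **The sum over the diagonal entries in `Fr`** -/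
theorem crk_sum (N : Matrix (Fin n) (Fin n) (ZMod 2)) (hN : ∀ i j, N i j = N j i)
    (Fr : Finset (Fin n)) : ∀ R : Finset (Fin n),
    ∑ T ∈ Fr.powerset, (-2 : ℤ) ^ crk (remM N R + dg T) =
      (-1) ^ Fr.card * (-2) ^ crk (remM N (R ∪ Fr)) := by
  classical
  induction Fr using Finset.induction_on with
  | empty =>
    intro R
    have h0 : (dg (∅ : Finset (Fin n))) = 0 := by
      ext i j
      unfold dg
      rw [Matrix.diagonal_apply]
      simp
    rw [Finset.powerset_empty, Finset.sum_singleton, h0, add_zero, Finset.union_empty,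
      Finset.card_empty, pow_zero, one_mul]
  | insert c Fr hc ih =>
    intro R
    rw [Finset.sum_powerset_insert hc, ← Finset.sum_add_distrib]
    have h1 : ∀ T ∈ Fr.powerset, (-2 : ℤ) ^ crk (remM N R + dg T) +
        (-2) ^ crk (remM N R + dg (insert c T)) =
        -(-2) ^ crk (remM N (insert c R) + dg T) := by
      intro T hT
      have hcT : c ∉ T := fun h => hc (Finset.mem_powerset.1 hT h)
      have h2 := crk_three (remM N R + dg T) (remM_symm N hN R T) c
      rw [add_assoc (remM N R), dg_insert T c hcT, remM_insert N R T c hcT] at h2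
      linarith
    rw [Finset.sum_congr rfl h1, Finset.sum_neg_distrib, ih, Finset.card_insert_of_notMem hc,
      pow_succ, Finset.insert_union, Finset.union_insert]
    ring

/-! ### the value at one -/

/-- the value at one -/
noncomputable def evZ : ℤ[T;T⁻¹] →+* ℤ := LaurentPolynomial.eval₂ (RingHom.id ℤ) 1

theorem evZ_T (m : ℤ) : evZ (T m) = 1 := by
  unfold evZ
  rw [eval₂_T, _root_.one_zpow, Units.val_one]

theorem evZ_dl : evZ (dl ℤ) = -2 := by
  unfold dl
  rw [map_sub, map_neg, evZ_T, evZ_T]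
  norm_num

theorem evZ_al (b : Bool) : evZ (al ℤ b) = 1 := by
  unfold al
  cases b
  · simp only [Bool.false_eq_true, if_false]
    exact evZ_T _
  · simp only [if_true]
    exact evZ_T _

theorem evZ_qu (b : Bool) : evZ (qu ℤ b) = -1 := by
  unfold qu
  cases b
  · simp only [Bool.false_eq_true, if_false]
    rw [map_neg, evZ_T]
  · simp only [if_true]
    rw [map_neg, evZ_T]

theorem dlZ_ne : dl ℤ ≠ 0 := by
  intro h
  have h1 := congrArg evZ h
  rw [evZ_dl, map_zero] at h1
  norm_num at h1

theorem kap_crk (M : Matrix (Fin n) (Fin n) (ZMod 2)) (W : Finset (Fin n)) :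
    kap M W = crk (remM M ∅ + dg (Finset.univ \ W)) := by
  unfold kap crk
  have h0 : remM M ∅ = M := by
    ext i j
    rw [remM_apply, if_neg]
    simp
  have h2 : (fun c => if c ∈ W then (0 : ZMod 2) else 1) =
      fun c => if c ∈ Finset.univ \ W then 1 else 0 := by
    funext c
    by_cases h : c ∈ W
    · rw [if_pos h, if_neg]
      exact fun h2 => (Finset.mem_sdiff.1 h2).2 h
    · rw [if_neg h, if_pos]
      exact Finset.mem_sdiff.2 ⟨Finset.mem_univ c, h⟩
  rw [h0]
  unfold MW dg
  rw [h2]

/-- **The value at one of the part of the states which cut `J`** -/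
theorem evZ_gg (M : Matrix (Fin n) (Fin n) (ZMod 2)) (hM : ∀ i j, M i j = M j i)
    (σ : Fin n → Bool) (J : Finset (Fin n)) :
    evZ (gg ℤ M σ J) = (-1) ^ J.card * ((-1) ^ (Finset.univ \ J).card *
      (-2) ^ crk (remM M (Finset.univ \ J))) := by
  classical
  have h2 := crk_sum M hM (Finset.univ \ J) ∅
  rw [Finset.empty_union] at h2
  rw [← h2, Finset.mul_sum]
  unfold gg
  rw [map_sum]
  refine Finset.sum_nbij' (fun W => Finset.univ \ W) (fun W => Finset.univ \ W) ?_ ?_ ?_ ?_ ?_
  · intro W hW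
    rw [Finset.mem_powerset]
    exact Finset.sdiff_subset_sdiff (Finset.Subset.refl _) (Finset.mem_filter.1 hW).2
  · intro W hW
    rw [Finset.mem_filter, Finset.mem_powerset]
    refine ⟨Finset.subset_univ _, fun c hc => Finset.mem_sdiff.2 ⟨Finset.mem_univ c, fun h => ?_⟩⟩
    exact (Finset.mem_sdiff.1 (Finset.mem_powerset.1 hW h)).2 hc
  · intro W _
    exact Finset.sdiff_sdiff_eq_self (Finset.subset_univ W)
  · intro W _
    exact Finset.sdiff_sdiff_eq_self (Finset.subset_univ W)
  · intro W _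
    rw [map_mul, map_mul, map_prod, map_prod, map_pow, evZ_dl, kap_crk]
    rw [Finset.prod_congr rfl fun c _ => evZ_qu (σ c), Finset.prod_const]
    have h1 : ∏ c ∈ W \ J, evZ (al ℤ (σ c) ^ 2) = 1 := by
      refine Finset.prod_eq_one fun c _ => ?_
      rw [map_pow, evZ_al, one_pow]
    rw [h1, mul_one]

/-! ### the isolated part -/

/-- If no short vector is non-negative and not zero on `J` then the part of the states which cut `J` is
divisible by the power of `-A ^ 2 - A ^ (-2)` with the exponent `|J|`. -/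
theorem gg_dvd (M : Matrix (Fin n) (Fin n) (ZMod 2)) (hM : ∀ i j, M i j = M j i)
    (σ : Fin n → Bool) (B N : ℕ) (hB : (SS ℤ M σ).coeff.support.card ≤ B)
    (hN : 2 * (B + 2) * (M.rank + 1) ≤ N) (J : Finset (Fin n))
    (hinj : Set.InjOn M (J : Set (Fin n)))
    (hpos : ∀ d, Small ((Finset.univ.image M).erase 0) (tw M σ) N d →
      (∀ v ∈ J.image M, 0 ≤ d v) → ∀ v ∈ J.image M, d v = 0) :
    ∃ t, gg ℤ M σ J = dl ℤ ^ J.card * t := by
  classical
  obtain ⟨X, hX⟩ : ∃ X, X = Finset.univ.image M := ⟨_, rfl⟩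
  have hJX : J.image M ⊆ Finset.univ.image M := Finset.image_subset_image (Finset.subset_univ J)
  -- one direction
  have hone : ∀ F ∈ II M, ∀ F' ∈ II M,
      |∑ v ∈ F, tw M σ v - ∑ v ∈ F', tw M σ v| < 2 * ((B : ℤ) + 2) * (M.rank + 1) →
      J.image M ⊆ F → J.image M ⊆ F' := by
    intro F hF F' hF' h hJF
    unfold II at hF hF'
    rw [Finset.mem_filter, Finset.mem_powerset, ← hX] at hF hF'
    have hd0 : ∀ v, v ∉ X.erase 0 → di F F' v = 0 := by
      intro v hv
      rw [Finset.mem_erase, not_and_or, not_not] at hv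
      unfold di
      rcases hv with rfl | hv
      · by_cases h0 : (0 : Fin n → ZMod 2) ∈ X
        · rw [if_pos (hF.2.resolve_right (not_not.2 h0)),
            if_pos (hF'.2.resolve_right (not_not.2 h0)), sub_self]
        · rw [if_neg fun h1 => h0 (hF.1 h1), if_neg fun h1 => h0 (hF'.1 h1), sub_self]
      · rw [if_neg fun h1 => hv (hF.1 h1), if_neg fun h1 => hv (hF'.1 h1), sub_self]
    have hsub : X.erase 0 ⊆ X := Finset.erase_subset _ _
    have hS : Small (X.erase 0) (tw M σ) N (di F F') := by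
      refine ⟨fun v => ?_, hd0, ?_⟩
      · unfold di
        by_cases h1 : v ∈ F <;> by_cases h2 : v ∈ F' <;> simp [h1, h2]
      · have h1 := sum_di X F F' hF.1 hF'.1 (tw M σ)
        simp only [Int.cast_id] at h1
        have h2 : ∑ v ∈ X.erase 0, di F F' v * tw M σ v = ∑ v ∈ X, tw M σ v * di F F' v := by
          rw [← Finset.sum_subset hsub fun v _ hv => by rw [hd0 v hv, mul_zero]]
          exact Finset.sum_congr rfl fun v _ => mul_comm _ _
        rw [h2, h1]
        refine h.trans_le ?_
        have h3 : ((2 * (B + 2) * (M.rank + 1) : ℕ) : ℤ) ≤ N := by exact_mod_cast hN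
        push_cast at h3
        exact h3
    rw [hX] at hS
    have h4 : ∀ v ∈ J.image M, 0 ≤ di F F' v := by
      intro v hv
      unfold di
      rw [if_pos (hJF hv)]
      split_ifs <;> norm_num
    intro v hv
    have h5 := hpos _ hS h4 v hv
    unfold di at h5
    rw [if_pos (hJF hv)] at h5
    by_contra h6
    rw [if_neg h6] at h5
    norm_num at h5
  have hcl : ∀ F ∈ II M, ∀ F' ∈ II M,
      |∑ v ∈ F, tw M σ v - ∑ v ∈ F', tw M σ v| < 2 * ((B : ℤ) + 2) * (M.rank + 1) →
      (fun F => if J.image M ⊆ F then (1 : ℤ) else 0) F =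
        (fun F => if J.image M ⊆ F then (1 : ℤ) else 0) F' := by
    intro F hF F' hF' h
    have h1 := hone F hF F' hF' h
    have h2 := hone F' hF' F hF (by rw [abs_sub_comm]; exact h)
    show (if J.image M ⊆ F then (1 : ℤ) else 0) = if J.image M ⊆ F' then 1 else 0
    exact if_congr ⟨h1, h2⟩ rfl rfl
  obtain ⟨t, ht⟩ := HV_cluster ℤ M hM σ B hB (fun F => if J.image M ⊆ F then 1 else 0) hcl
  have h1 : ∑ F ∈ (Finset.univ.image M).powerset,
      C (if J.image M ⊆ F then (1 : ℤ) else 0) *
        Lin.GG M (fun c => qu ℤ (σ c)) Finset.univ (ph ℤ M) F =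
      ∑ F ∈ (Finset.univ.image M).powerset.filter (fun F => J.image M ⊆ F),
        Lin.GG M (fun c => qu ℤ (σ c)) Finset.univ (ph ℤ M) F := by
    rw [Finset.sum_filter]
    refine Finset.sum_congr rfl fun F _ => ?_
    by_cases h : J.image M ⊆ F
    · rw [if_pos h, if_pos h, map_one, one_mul]
    · rw [if_neg h, if_neg h, map_zero, zero_mul]
  rw [h1, Lin.sum_HH M Finset.univ (ph ℤ M) J (Finset.subset_univ J) hinj] at ht
  refine ⟨t, ?_⟩
  have h2 := HH_eq (K := ℤ) M hM σ J
  rw [ht] at h2
  have h3 : dl ℤ ^ M.rank * gg ℤ M σ J = dl ℤ ^ M.rank * (dl ℤ ^ J.card * t) := by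
    rw [← h2]
    ring
  exact mul_left_cancel₀ (pow_ne_zero _ dlZ_ne) h3

/-- **The cut matrix is zero on `J`** -/
theorem iso_of_dvd (M : Matrix (Fin n) (Fin n) (ZMod 2)) (hM : ∀ i j, M i j = M j i)
    (σ : Fin n → Bool) (J : Finset (Fin n)) (t : ℤ[T;T⁻¹])
    (ht : gg ℤ M σ J = dl ℤ ^ J.card * t) : ∀ c ∈ J, ∀ c' ∈ J, M c c' = 0 := by
  classical
  have h1 := congrArg evZ ht
  rw [evZ_gg M hM, map_mul, map_pow, evZ_dl] at h1
  have h2 := congrArg Int.natAbs h1
  rw [Int.natAbs_mul, Int.natAbs_mul, Int.natAbs_mul, Int.natAbs_pow, Int.natAbs_pow,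
    Int.natAbs_pow, Int.natAbs_pow] at h2
  have h3 : (-1 : ℤ).natAbs = 1 := rfl
  have h4 : (-2 : ℤ).natAbs = 2 := rfl
  rw [h3, h4, one_pow, one_pow, one_mul, one_mul] at h2
  have h5 : J.card ≤ crk (remM M (Finset.univ \ J)) :=
    (Nat.pow_dvd_pow_iff_le_right (by norm_num)).1 ⟨_, h2⟩
  -- vectors in the kernel are supported in `J`
  have hsup : ∀ x ∈ LinearMap.ker (remM M (Finset.univ \ J)).mulVecLin, ∀ c, c ∉ J → x c = 0 := by
    intro x hx c hc
    rw [LinearMap.mem_ker, Matrix.mulVecLin_apply] at hx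
    have h6 : ((remM M (Finset.univ \ J)).mulVec x) c = x c := by
      show ∑ j, remM M (Finset.univ \ J) c j * x j = x c
      have hcR : c ∈ Finset.univ \ J := Finset.mem_sdiff.2 ⟨Finset.mem_univ c, hc⟩
      rw [Finset.sum_eq_single c]
      · rw [remM_apply, if_pos (Or.inl hcR), if_pos rfl, one_mul]
      · intro i _ hi
        rw [remM_apply, if_pos (Or.inl hcR), if_neg (Ne.symm hi), zero_mul]
      · intro h
        exact absurd (Finset.mem_univ c) h
    rw [← h6, hx]
    rfl
  obtain ⟨ρ, hρ⟩ : ∃ ρ : LinearMap.ker (remM M (Finset.univ \ J)).mulVecLin →ₗ[ZMod 2]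
      (↥J → ZMod 2), ∀ x c, ρ x c = x.1 c.1 :=
    ⟨{ toFun := fun x c => x.1 c.1
       map_add' := fun x y => rfl
       map_smul' := fun r x => rfl }, fun _ _ => rfl⟩
  have hρi : Function.Injective ρ := by
    intro x y hxy
    apply Subtype.ext
    funext c
    by_cases hc : c ∈ J
    · have h6 := congrFun hxy ⟨c, hc⟩
      rw [hρ, hρ] at h6
      exact h6
    · rw [hsup x.1 x.2 c hc, hsup y.1 y.2 c hc]
  have hle := LinearMap.finrank_le_finrank_of_injective hρi
  have hJc : finrank (ZMod 2) (↥J → ZMod 2) = J.card := by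
    rw [Module.finrank_fintype_fun_eq_card, Fintype.card_coe]
  have heq : finrank (ZMod 2) (LinearMap.ker (remM M (Finset.univ \ J)).mulVecLin) =
      finrank (ZMod 2) (↥J → ZMod 2) := by
    refine le_antisymm hle ?_
    rw [hJc]
    exact h5
  have hsurj := (LinearMap.injective_iff_surjective_of_finrank_eq_finrank heq).1 hρi
  intro c hc c' hc'
  obtain ⟨x, hx⟩ := hsurj (Pi.single ⟨c', hc'⟩ 1)
  have hx1 : x.1 = Pi.single c' 1 := by
    funext i
    by_cases hi : i ∈ J
    · have h6 := congrFun hx ⟨i, hi⟩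
      rw [hρ] at h6
      rw [h6]
      by_cases h7 : i = c'
      · subst h7
        rw [Pi.single_eq_same, Pi.single_eq_same]
      · rw [Pi.single_eq_of_ne h7, Pi.single_eq_of_ne fun h8 => h7 (congrArg Subtype.val h8)]
    · rw [hsup x.1 x.2 i hi, Pi.single_eq_of_ne]
      rintro rfl
      exact hi hc'
  have h8 := x.2
  rw [LinearMap.mem_ker, Matrix.mulVecLin_apply, hx1, Matrix.mulVec_single_one] at h8
  have h9 := congrFun h8 c
  change remM M (Finset.univ \ J) c c' = 0 at h9
  rw [remM_apply, if_neg] at h9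
  · exact h9
  · rw [Finset.mem_sdiff, Finset.mem_sdiff]
    rintro (h10 | h10)
    · exact h10.2 hc
    · exact h10.2 hc'

end

end Pool.Agent.NHT
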