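import Pool.Agent.NHT.Defs4

/-!
# NHT, version 10: close cycle sets (captain: helper38)

`S` contains one crossing of every twist class, `a i` is the signed twist number of the class of `i`
(`cutTwist`), `J` is a set of classes, `CycS C` says that the classes in `C` contain a cycle of the graph
of all classes, and `Cyc C` says this for the graph of `J`.
-/

set_option autoImplicit false

namespace Pool.Agent.NHT

variable {ι : Type} [DecidableEq ι]

/-- `L` is a cycle set: each class of `L` lies in a cycle of classes of `L`.  In other words, `L` is a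
union of cycles (possibly of none). -/
def CycleSet (Cyc : Finset ι → Prop) (L : Finset ι) : Prop :=
  ∀ i ∈ L, InCycle Cyc L i

/-- `L` and `L'` are close: they are cycle sets of classes in `S`, and their total twist numbers differ
by less than `N`. -/
def Close (S : Finset ι) (CycS : Finset ι → Prop) (a : ι → ℤ) (N : ℕ) (L L' : Finset ι) : Prop :=
  L ⊆ S ∧ L' ⊆ S ∧ CycleSet CycS L ∧ CycleSet CycS L' ∧ |∑ i ∈ L, a i - ∑ i ∈ L', a i| < N

/-- There is a cycle set `L₀` of the graph of `J` such that every cycle set which is close to a cycle set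
`L` with `L ∩ J = L₀` meets `J` in `L₀`, too.  For `J = S` this says that `L₀` is not close to any other
cycle set. -/
def Isolated (S J : Finset ι) (CycS Cyc : Finset ι → Prop) (a : ι → ℤ) (N : ℕ) : Prop :=
  ∃ L₀ ⊆ J, CycleSet Cyc L₀ ∧ ∀ L L', Close S CycS a N L L' → L ∩ J = L₀ → L' ∩ J = L₀

/-- Close cycle sets meet `J` in sets whose numbers of classes have the same parity. -/
def EvenOn (S J : Finset ι) (CycS : Finset ι → Prop) (a : ι → ℤ) (N : ℕ) : Prop :=
  ∀ L L', Close S CycS a N L L' → Even ((L ∩ J).card + (L' ∩ J).card)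

open Classical in
/-- The sum of `(-1) ^ (|L| + |F|) * ψ L` over the subsets `L` of `J` and the subsets `F` of `L` without
cycles.  Only cycle sets `L` contribute, `ψ L` with the sign `(-1) ^ r` and a positive factor, where `r`
is the cycle rank of `L`. -/
noncomputable def cycleSum (Cyc : Finset ι → Prop) (J : Finset ι) (ψ : Finset ι → ℂ) : ℂ :=
  ∑ L ∈ J.powerset, ∑ F ∈ L.powerset.filter (fun F => ¬ Cyc F), (-1) ^ (L.card + F.card) * ψ L

/-- There is a function `ψ` on the subsets of `J` which has the same value for `L ∩ J` and `L' ∩ J` if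
`L` and `L'` are close, and whose sum `cycleSum` is not zero. -/
def Separating (S J : Finset ι) (CycS Cyc : Finset ι → Prop) (a : ι → ℤ) (N : ℕ) : Prop :=
  ∃ ψ : Finset ι → ℂ, (∀ L L', Close S CycS a N L L' → ψ (L ∩ J) = ψ (L' ∩ J)) ∧
    cycleSum Cyc J ψ ≠ 0

/-- There are complex numbers `x i`, different from zero for `i ∈ J`, such that the product of the `x i`
over `L ∩ J` and over `L' ∩ J` is the same if `L` and `L'` are close, and either their sum over the sets
without cycles (`forestSum`) is not zero, or they are real numbers with `-1 ≤ x i < 1`. -/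
def WeightedOn (S J : Finset ι) (CycS Cyc : Finset ι → Prop) (a : ι → ℤ) (N : ℕ) : Prop :=
  ∃ x : ι → ℂ, (∀ i ∈ J, x i ≠ 0) ∧
    (∀ L L', Close S CycS a N L L' → ∏ i ∈ L ∩ J, x i = ∏ i ∈ L' ∩ J, x i) ∧
    (forestSum Cyc J x ≠ 0 ∨ ∀ i ∈ J, ∃ y : ℝ, x i = y ∧ -1 ≤ y ∧ y < 1)

end Pool.Agent.NHT
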