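import Mathlib
import Pool.Agent.NHT.HVP
import Pool.Agent.NHT.Ex

/-!
# NHT, module Flat: only the flats give terms (helper68)

The coefficient of the state sum which belongs to a set `F` of rows is zero if `F` is not a flat, that
is, if some row which is not in `F` lies in the span of `F`.  So the cluster lemma needs only functions
which are constant on the clusters of flats.
-/

set_option autoImplicit false
set_option linter.unusedSectionVars false

open Module Submodule Pool.Agent.UNI LaurentPolynomial Pool.Agent.SPT Pool.Agent.SPT.Rel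
  Pool.Agent.SPT.Lin Pool.Agent.SRH

namespace Pool.Agent.NHT

/-- `F` is a flat of `X` -/
def IsFlat {V : Type} [AddCommGroup V] [Module (ZMod 2) V] (X F : Finset V) : Prop :=
  ∀ v ∈ X, v ∈ span (ZMod 2) (F : Set V) → v ∈ F

section

variable {E : Type} [Fintype E] [DecidableEq E]

/-- **sets which are not flats give no terms** -/
theorem KK_flat (K : Type) [CommRing K] (M : Matrix E E (ZMod 2)) (F : Finset (E → ZMod 2))
    (hFX : ¬ IsFlat (Finset.univ.image M) F) :
    Lin.KK (Finset.univ.image M) (ph K M) F = 0 := by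
  classical
  unfold IsFlat at hFX
  push Not at hFX
  obtain ⟨v, hvX, hvF, hF⟩ := hFX
  obtain ⟨Y, hY, hXY⟩ : ∃ Y : Finset (E → ZMod 2), v ∉ Y ∧ Finset.univ.image M = insert v Y :=
    ⟨(Finset.univ.image M).erase v, Finset.notMem_erase _ _, (Finset.insert_erase hvX).symm⟩
  have hYX : Y ⊆ Finset.univ.image M := by
    rw [hXY]
    exact Finset.subset_insert _ _
  unfold Lin.KK
  rw [Finset.sum_filter]
  rw [show (Finset.univ.image M).powerset = (insert v Y).powerset from congrArg _ hXY,
    Finset.sum_powerset_insert hY, ← Finset.sum_add_distrib]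
  refine Finset.sum_eq_zero fun U hU => ?_
  rw [Finset.mem_powerset] at hU
  have hU0 : v ∉ U := fun h => hY (hU h)
  have h1 : F ⊆ insert v U ↔ F ⊆ U := by
    constructor
    · intro h w hw
      rcases Finset.mem_insert.1 (h hw) with rfl | h2
      · exact absurd hw hF
      · exact h2
    · exact fun h => h.trans (Finset.subset_insert _ _)
  by_cases h2 : F ⊆ U
  · rw [if_pos h2, if_pos (h1.2 h2)]
    have h3 : (insert v U \ F).card = (U \ F).card + 1 := by
      rw [Finset.insert_sdiff_of_notMem _ hF, Finset.card_insert_of_notMem]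
      exact fun h => hU0 (Finset.mem_sdiff.1 h).1
    have h4 : ex M (insert v U) = ex M U := by
      refine ex_congr M _ _ (Finset.insert_subset hvX (hU.trans hYX)) (hU.trans hYX) ?_
      rw [Finset.coe_insert]
      refine Submodule.span_insert_eq_span ?_
      exact span_mono (Finset.coe_subset.2 h2) hvF
    unfold ph
    rw [h3, h4, pow_succ]
    ring
  · rw [if_neg h2, if_neg fun h => h2 (h1.1 h), add_zero]

open Classical in
/-- the flats of the rows -/
noncomputable def FL (M : Matrix E E (ZMod 2)) : Finset (Finset (E → ZMod 2)) :=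
  (Finset.univ.image M).powerset.filter (fun F => IsFlat (Finset.univ.image M) F)

/-- **The cluster lemma for flats** -/
theorem HV_clusterF (K : Type) [CommRing K] (M : Matrix E E (ZMod 2))
    (hM : ∀ i j, M i j = M j i)
    (σ : E → Bool) (B : ℕ) (hB : (SS K M σ).coeff.support.card ≤ B)
    (ψ : Finset (E → ZMod 2) → K)
    (hψ : ∀ F ∈ FL M, ∀ F' ∈ FL M,
      |∑ v ∈ F, tw M σ v - ∑ v ∈ F', tw M σ v| < 2 * ((B : ℤ) + 2) * (M.rank + 1) → ψ F = ψ F') :
    ∃ t, ∑ F ∈ (Finset.univ.image M).powerset, C (ψ F) *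
      Lin.GG M (fun c => qu K (σ c)) Finset.univ (ph K M) F = dl K ^ M.rank * t := by
  classical
  obtain ⟨m, hm⟩ := PF_eq (K := K) σ
  obtain ⟨G, hG⟩ : ∃ G : Finset (E → ZMod 2) → K[T;T⁻¹], ∀ F, G F =
      Lin.GG M (fun c => qu K (σ c)) Finset.univ (ph K M) F := ⟨_, fun _ => rfl⟩
  have h0 : ∀ F ∈ (Finset.univ.image M).powerset, F ∉ FL M → G F = 0 := by
    intro F hF hFI
    unfold FL at hFI
    rw [Finset.mem_filter, not_and] at hFI
    rw [hG]
    unfold Lin.GG
    rw [KK_flat K M F (hFI hF), mul_zero]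
  have hsub : FL M ⊆ (Finset.univ.image M).powerset := Finset.filter_subset _ _
  have hsum : ∀ χ : Finset (E → ZMod 2) → K, ∑ F ∈ (Finset.univ.image M).powerset,
      C (χ F) * G F = ∑ F ∈ FL M, C (χ F) * G F := by
    intro χ
    symm
    refine Finset.sum_subset hsub fun F hF hFI => ?_
    rw [h0 F hF hFI, mul_zero]
  have hSS := SS_eq (K := K) M hM σ
  have hsum1 : ∑ F ∈ (Finset.univ.image M).powerset, G F = ∑ F ∈ FL M, G F := by
    symm
    exact Finset.sum_subset hsub h0
  have hD : dl K ^ M.rank * SS K M σ = ∑ F ∈ FL M, T m * G F := by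
    rw [hSS, hm, ← Finset.mul_sum, ← hsum1]
    rw [Finset.sum_congr rfl fun F _ => hG F]
  obtain ⟨t, ht⟩ := cluster (dl K ^ M.rank) (4 * (M.rank : ℤ)) (by positivity)
    ((Sup_dl M.rank).mono fun n hn => by constructor <;> omega) B (fun F => T m * G F)
    (fun F => m + 4 * ∑ v ∈ F, tw M σ v) ψ ((B + 1) * (2 * (4 * (M.rank : ℤ)) + 1) +
      2 * (4 * (M.rank : ℤ))) le_rfl (FL M).card (FL M) le_rfl (by
      intro F _
      have h1 := Sup_GG (K := K) M σ F
      rw [← hG] at h1
      refine Sup.mul (Sup.T m) h1 fun a b ha hb => ?_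
      unfold tw
      constructor <;> omega) _ hB hD (by
      intro F hF F' hF' habs
      refine hψ F hF F' hF' ?_
      obtain ⟨x, hx⟩ : ∃ x : ℤ, x = ∑ v ∈ F, tw M σ v - ∑ v ∈ F', tw M σ v := ⟨_, rfl⟩
      have h1 : m + 4 * ∑ v ∈ F, tw M σ v - (m + 4 * ∑ v ∈ F', tw M σ v) = 4 * x := by
        rw [hx]
        ring
      rw [h1, abs_mul] at habs
      rw [← hx]
      have h2 : |(4 : ℤ)| = 4 := by norm_num
      rw [h2] at habs
      have h3 : 2 * ((B : ℤ) + 2) * (M.rank + 1) =
          2 * ((B : ℤ) * M.rank) + 2 * B + 4 * M.rank + 4 := by ring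
      have h4 : ((B : ℤ) + 1) * (2 * (4 * (M.rank : ℤ)) + 1) =
          8 * ((B : ℤ) * M.rank) + 8 * M.rank + B + 1 := by ring
      rw [h4] at habs
      rw [h3]
      have h5 : 0 ≤ (B : ℤ) * M.rank := by positivity
      omega)
  refine ⟨T (-m) * t, ?_⟩
  have h6 : ∑ F ∈ FL M, C (ψ F) * (T m * G F) = T m * ∑ F ∈ FL M, C (ψ F) * G F := by
    rw [Finset.mul_sum]
    refine Finset.sum_congr rfl fun F _ => ?_
    ring
  rw [h6, ← hsum] at ht
  have h7 : T (-m) * (T m * ∑ F ∈ (Finset.univ.image M).powerset, C (ψ F) * G F) =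
      T (-m) * (dl K ^ M.rank * t) := by rw [ht]
  rw [← mul_assoc, ← T_add, neg_add_cancel, T_zero, one_mul] at h7
  rw [Finset.sum_congr rfl fun F _ => by rw [← hG F], h7]
  ring

/-- **The identity for functions which are constant on the clusters of flats** -/
theorem HVPF (M : Matrix E E (ZMod 2)) (hM : ∀ i j, M i j = M j i) (σ : E → Bool) (B N : ℕ)
    (hB : (SS ℂ M σ).coeff.support.card ≤ B) (hN : 2 * (B + 2) * (M.rank + 1) ≤ N)
    (J : Finset E) (hinj : Set.InjOn M (J : Set E)) (hJ0 : ∀ c ∈ J, M c ≠ 0) (hne : J.Nonempty)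
    (ψ : Finset (E → ZMod 2) → ℂ)
    (hψ : ∀ d, Small ((Finset.univ.image M).erase 0) (tw M σ) N d →
      ∀ K ⊆ J.image M, ∀ K' ⊆ J.image M, IsFlat (J.image M) K → IsFlat (J.image M) K' →
        IsDiff (J.image M) d K K' → ψ K = ψ K') :
    PS (J.image M) ψ * detJ M σ J = 0 := by
  classical
  obtain ⟨X, hX⟩ : ∃ X, X = Finset.univ.image M := ⟨_, rfl⟩
  have hJX : J.image M ⊆ Finset.univ.image M := Finset.image_subset_image (Finset.subset_univ J)
  have hfl : ∀ F, IsFlat X F → IsFlat (J.image M) (F ∩ J.image M) := by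
    intro F hF v hv hs
    refine Finset.mem_inter.2 ⟨hF v (by rw [hX]; exact hJX hv) ?_, hv⟩
    exact span_mono (Finset.coe_subset.2 Finset.inter_subset_left) hs
  -- the clusters
  have hcl : ∀ F ∈ FL M, ∀ F' ∈ FL M,
      |∑ v ∈ F, tw M σ v - ∑ v ∈ F', tw M σ v| < 2 * ((B : ℤ) + 2) * (M.rank + 1) →
      ψ (F ∩ J.image M) = ψ (F' ∩ J.image M) := by
    intro F hF F' hF' h
    unfold FL at hF hF'
    rw [Finset.mem_filter, Finset.mem_powerset, ← hX] at hF hF'
    have hd0 : ∀ v, v ∉ X.erase 0 → di F F' v = 0 := by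
      intro v hv
      rw [Finset.mem_erase, not_and_or, not_not] at hv
      unfold di
      rcases hv with rfl | hv
      · by_cases h0 : (0 : E → ZMod 2) ∈ X
        · rw [if_pos (hF.2 0 h0 (zero_mem _)), if_pos (hF'.2 0 h0 (zero_mem _)), sub_self]
        · rw [if_neg fun h1 => h0 (hF.1 h1), if_neg fun h1 => h0 (hF'.1 h1), sub_self]
      · rw [if_neg fun h1 => hv (hF.1 h1), if_neg fun h1 => hv (hF'.1 h1), sub_self]
    have hsub : X.erase 0 ⊆ X := Finset.erase_subset _ _
    have hS : Small (X.erase 0) (tw M σ) N (di F F') := by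
      refine ⟨fun v => ?_, hd0, ?_⟩
      · unfold di
        by_cases h1 : v ∈ F <;> by_cases h2 : v ∈ F' <;> simp [h1, h2]
      · have h1 := sum_di X F F' hF.1 hF'.1 (tw M σ)
        simp only [Int.cast_id] at h1
        have h2 : ∑ v ∈ X.erase 0, di F F' v * tw M σ v = ∑ v ∈ X, tw M σ v * di F F' v := by
          rw [← Finset.sum_subset hsub fun v _ hv => by rw [hd0 v hv, mul_zero]]
          exact Finset.sum_congr rfl fun v _ => mul_comm _ _
        rw [h2, h1]
        refine h.trans_le ?_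
        have h3 : ((2 * (B + 2) * (M.rank + 1) : ℕ) : ℤ) ≤ N := by exact_mod_cast hN
        push_cast at h3
        exact h3
    refine hψ (di F F') (by rw [← hX]; exact hS) _ Finset.inter_subset_right _
      Finset.inter_subset_right (hfl F hF.2) (hfl F' hF'.2) fun v hv => ?_
    unfold di
    congr 1
    · by_cases h1 : v ∈ F
      · rw [if_pos h1, if_pos (Finset.mem_inter.2 ⟨h1, hv⟩)]
      · rw [if_neg h1, if_neg fun h2 => h1 (Finset.mem_inter.1 h2).1]
    · by_cases h1 : v ∈ F'
      · rw [if_pos h1, if_pos (Finset.mem_inter.2 ⟨h1, hv⟩)]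
      · rw [if_neg h1, if_neg fun h2 => h1 (Finset.mem_inter.1 h2).1]
  obtain ⟨t, ht⟩ := HV_clusterF ℂ M hM σ B hB (fun F => ψ (F ∩ J.image M)) hcl
  obtain ⟨s, hs⟩ := split_psi M hM σ (J.image M) hJX ψ
  rw [ht] at hs
  rw [← evA_PPs M σ]
  exact core_det M hM σ J hinj hJ0 hne _ t s hs

end

end Pool.Agent.NHT
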