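import Pool.Agent.EQT.Stmt

/-!
# NHT: interlaced classes (helper11)
-/

set_option autoImplicit false

namespace Pool.Agent.NHT

open Pool.Agent.EQT

/-- Two classes of `J` are interlaced, or the crossings of a class of `J` are interlaced with each other:
the cut matrix of `J` is not zero. -/
def Linked {n : ℕ} (I : Fin n → Fin n → Prop) (J : Finset (Fin n)) : Prop :=
  ∃ i ∈ J, ∃ j ∈ J, I i j ∨ (i = j ∧ ∃ k, Twins I i k ∧ I i k)

end Pool.Agent.NHT
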