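import Pool.Agent.NHT.Odd

/-!
# NHT, version 4, module Final4: the final statement (helper38)
-/

set_option autoImplicit false

open Submodule LaurentPolynomial

namespace Pool.Agent.NHT

open Pool.Agent.SPT Pool.Agent.SPT.Rel Pool.Agent.EQT Pool.Agent.FHP Pool.Agent.Helper16.Knotoid
open Pool.Agent.TRA Pool.Agent.TRP

theorem terms_one : terms 1 = 1 := by
  unfold terms
  have h1 : (1 : ℤ[T;T⁻¹]) = T 0 := T_zero.symm
  rw [h1]
  have h2 : (T 0 : ℤ[T;T⁻¹]).coeff.support = {0} := by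
    ext n
    rw [Finsupp.mem_support_iff, T_apply, Finset.mem_singleton]
    by_cases h : (0 : ℤ) = n
    · rw [if_pos h]
      exact ⟨fun _ => h.symm, fun _ => one_ne_zero⟩
    · rw [if_neg h]
      exact ⟨fun h3 => absurd rfl h3, fun h3 => absurd h3.symm h⟩
  rw [h2, Finset.card_singleton]

theorem ne_one_of_terms {f : ℤ[T;T⁻¹]} {B : ℕ} (h : B < terms f) (hB : 1 ≤ B) : f ≠ 1 := by
  intro hf
  rw [hf, terms_one] at h
  omega

/-- **knotoid diagrams** -/
theorem knotoidF4 {n : ℕ} (D : GaussDiagram n) (S : Finset (Fin n)) (hS : Transversal D.Interlaced S)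
    (B : ℕ)
    (h : ((∃ i ∈ S, (((S.card + 2).factorial * (2 * B + 4) : ℕ) : ℤ) ≤
          |cutTwist D.Interlaced D.sign i|) ∧
        ∀ J ⊆ S, J.Nonempty → J ≠ S →
          MeetsEvenly S (cutTwist D.Interlaced D.sign) (2 * (B + 2) * (S.card + 1)) J →
          cutDetO D J ≠ 0) ∨
      ∃ J ⊆ S, J.Nonempty ∧ (J = S ∨ cutDetO D J ≠ 0) ∧
        (Weighted (HasCycleInO D (S \ J)) J
            (Short S (cutTwist D.Interlaced D.sign) (2 * (B + 2) * (S.card + 1))) ∨
          ∃ p : Fin n → ℕ, Splits J (HasCycleInO D (S \ J)) p ∧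
            ∀ q, GoodBlock4 J (HasCycleInO D (S \ J)) (row (D.Cut (cutState D.Interlaced D.sign)))
              (cutTwist D.Interlaced D.sign) p ((S.card + 2).factorial *
                (2 * B + 4 + ∑ j ∈ S \ J, (cutTwist D.Interlaced D.sign j).natAbs)) q)) :
    B < terms D.normalizedBracket ∧ (1 ≤ B → D.normalizedBracket ≠ 1) := by
  have h1 : B < terms D.normalizedBracket := by
    rcases h with ⟨hl, hd⟩ | ⟨J, hJ, hne, hJS, h | ⟨p, hp, hq⟩⟩
    · exact knotoidOdd D S hS B hl hd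
    · exact knotoidF3 D S hS J hJ hne hJS B (Or.inl h)
    · exact knotoidF3 D S hS J hJ hne hJS B (Or.inr ⟨p, hp, fun q => (hq q).good⟩)
  exact ⟨h1, ne_one_of_terms h1⟩

/-- **knot diagrams** -/
theorem knotF4 {n : ℕ} (g : GaussJones.Code n) (e : Fin n → Bool) (S : Finset (Fin n))
    (hS : Transversal (GaussJones.Interlaced g) S) (B : ℕ)
    (h : ((∃ i ∈ S, (((S.card + 2).factorial * (2 * B + 4) : ℕ) : ℤ) ≤
          |cutTwist (GaussJones.Interlaced g) e i|) ∧
        ∀ J ⊆ S, J.Nonempty → J ≠ S →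
          MeetsEvenly S (cutTwist (GaussJones.Interlaced g) e) (2 * (B + 2) * (S.card + 1)) J →
          cutDet g e J ≠ 0) ∨
      ∃ J ⊆ S, J.Nonempty ∧ (J = S ∨ cutDet g e J ≠ 0) ∧
        (Weighted (HasCycleIn g (S \ J)) J
            (Short S (cutTwist (GaussJones.Interlaced g) e) (2 * (B + 2) * (S.card + 1))) ∨
          ∃ p : Fin n → ℕ, Splits J (HasCycleIn g (S \ J)) p ∧
            ∀ q, GoodBlock4 J (HasCycleIn g (S \ J))
              (row (GaussJones.Cut g e (cutState (GaussJones.Interlaced g) e)))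
              (cutTwist (GaussJones.Interlaced g) e) p ((S.card + 2).factorial *
                (2 * B + 4 + ∑ j ∈ S \ J, (cutTwist (GaussJones.Interlaced g) e j).natAbs)) q)) :
    B < terms (GaussJones.fPoly g e) ∧ (1 ≤ B → GaussJones.fPoly g e ≠ 1) := by
  have h1 : B < terms (GaussJones.fPoly g e) := by
    rcases h with ⟨hl, hd⟩ | ⟨J, hJ, hne, hJS, h | ⟨p, hp, hq⟩⟩
    · exact knotOdd g e S hS B hl hd
    · exact knotF3 g e S hS J hJ hne hJS B (Or.inl h)
    · exact knotF3 g e S hS J hJ hne hJS B (Or.inr ⟨p, hp, fun q => (hq q).good⟩)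
  exact ⟨h1, ne_one_of_terms h1⟩

end Pool.Agent.NHT
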