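import Pool.Agent.NHT.Defs4

/-!
# NHT, version 6: definitions (captain: helper38)

`S` contains one crossing of every twist class, `a i` is the twist number of the class of `i`, `J` is a
set of classes, and `Cyc C` says that the classes in `C` contain a cycle of the graph of `J`.
-/

set_option autoImplicit false

namespace Pool.Agent.NHT

open Pool.Agent.SPT Pool.Agent.EQT Pool.Agent.FHP Pool.Agent.TRA Pool.Agent.TRP

variable {ι : Type} [DecidableEq ι]

/-- `Ω` is closed: if `K` and `K'` are subsets of `J` such that the difference of their indicator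
functions is on `J` equal to a short vector, and `K` is in `Ω`, then `K'` is in `Ω`. -/
def Closed (S J : Finset ι) (a : ι → ℤ) (N : ℕ) (Ω : Finset (Finset ι)) : Prop :=
  ∀ d, Short S a N d → ∀ K ⊆ J, ∀ K' ⊆ J,
    (∀ i ∈ J, d i = (if i ∈ K then 1 else 0) - if i ∈ K' then 1 else 0) → K ∈ Ω → K' ∈ Ω

open Classical in
/-- The sum of the numbers `(-1) ^ (|F| + |K|)` over the pairs of disjoint subsets `F` and `K` of `J`,
where `F` contains no cycle, and `K` is in `Ω`. -/
noncomputable def pairSum (Cyc : Finset ι → Prop) (J : Finset ι) (Ω : Finset (Finset ι)) : ℤ :=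
  ∑ F ∈ J.powerset.filter (fun F => ¬ Cyc F),
    ∑ K ∈ (J \ F).powerset.filter (fun K => K ∈ Ω), (-1) ^ (F.card + K.card)

/-- There is a closed set `Ω` such that the sum over the pairs is not zero. -/
def Separated (S J : Finset ι) (Cyc : Finset ι → Prop) (a : ι → ℤ) (N : ℕ) : Prop :=
  ∃ Ω : Finset (Finset ι), Closed S J a N Ω ∧ pairSum Cyc J Ω ≠ 0

/-- The twist numbers of the classes in `J` are at least `N + ∑ |a j|` in absolute value, with the sum
over the classes which are not in `J`, and each class of `J` with a positive twist number lies in a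
cycle of classes of `J` with positive twist numbers, or this holds with `negative` in place of
`positive`. -/
def LongSigned (S J : Finset ι) (Cyc : Finset ι → Prop) (a : ι → ℤ) (N : ℕ) : Prop :=
  (∀ i ∈ J, (N : ℤ) + ∑ j ∈ S \ J, |a j| ≤ |a i|) ∧
    ((∀ i ∈ J, 0 < a i → InCycle Cyc (J.filter fun j => 0 < a j) i) ∨
      ∀ i ∈ J, a i < 0 → InCycle Cyc (J.filter fun j => a j < 0) i)

end Pool.Agent.NHT
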