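import Mathlib
import Pool.Agent.NHT.HVP
import Pool.Agent.NHT.Defs6
import Pool.Agent.NHT.Adequate
import Pool.Agent.SPT.Rel

/-!
# NHT, version 6, module Sep: closed sets of subsets (helper38)
-/

set_option autoImplicit false
set_option linter.unusedSectionVars false

open Submodule Module

namespace Pool.Agent.NHT

open Pool.Agent.SPT Pool.Agent.SPT.Rel Pool.Agent.SPT.Odd Pool.Agent.TRA Pool.Agent.TRP
open Pool.Agent.EQT Pool.Agent.FHP

variable {ι V : Type} [DecidableEq ι] [DecidableEq V] [AddCommGroup V] [Module (ZMod 2) V]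

open Classical in
/-- the sum over the spanning sets in terms of the classes -/
theorem PS_image (Q : Finset ι) (Cyc : Finset ι → Prop) (r : ι → V) (hB : Block Q Cyc r)
    (ψ : Finset V → ℂ) :
    PS (Q.image r) ψ = ∑ F ∈ Q.powerset.filter (fun F => ¬ Cyc F), ∑ K ∈ (Q \ F).powerset,
      (-1) ^ ((Q \ F) \ K).card * ψ (K.image r) := by
  classical
  have himg : ∀ F ⊆ Q, (Q \ F).image r = Q.image r \ F.image r := by
    intro F hF
    exact (hB.image_sdiff hF).symm
  have hiff : ∀ F ⊆ Q, (Spans ⊥ (Q.image r) ((Q \ F).image r) ↔ ¬ Cyc F) := by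
    intro F hF
    unfold Spans
    rw [bot_sup_eq, bot_sup_eq, hB.co F hF, himg F hF]
    rfl
  unfold PS
  rw [← Finset.sum_filter]
  symm
  refine Finset.sum_nbij (fun F => (Q \ F).image r) ?_ ?_ ?_ ?_
  · intro F hF
    rw [Finset.mem_filter, Finset.mem_powerset] at hF ⊢
    exact ⟨Finset.image_subset_image Finset.sdiff_subset, (hiff F hF.1).2 hF.2⟩
  · intro F hF F' hF' h
    rw [Finset.mem_coe, Finset.mem_filter, Finset.mem_powerset] at hF hF'
    have h1 : Q \ F = Q \ F' :=
      (Finset.image_injOn_powerset_of_injOn hB.inj)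
        (Finset.mem_coe.2 (Finset.mem_powerset.2 Finset.sdiff_subset))
        (Finset.mem_coe.2 (Finset.mem_powerset.2 Finset.sdiff_subset)) h
    rw [← Finset.sdiff_sdiff_eq_self hF.1, ← Finset.sdiff_sdiff_eq_self hF'.1, h1]
  · intro W hW
    rw [Finset.mem_coe, Finset.mem_filter, Finset.mem_powerset] at hW
    obtain ⟨Y, hY, rfl⟩ := Finset.subset_image_iff.1 hW.1
    refine ⟨Q \ Y, ?_, ?_⟩
    · rw [Finset.mem_coe, Finset.mem_filter, Finset.mem_powerset]
      refine ⟨Finset.sdiff_subset, (hiff _ Finset.sdiff_subset).1 ?_⟩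
      rw [Finset.sdiff_sdiff_eq_self hY]
      exact hW.2
    · show (Q \ (Q \ Y)).image r = Y.image r
      rw [Finset.sdiff_sdiff_eq_self hY]
  · intro F hF
    rw [Finset.mem_filter, Finset.mem_powerset] at hF
    have hinj : Set.InjOn r ((Q \ F : Finset ι) : Set ι) :=
      hB.inj.mono (Finset.coe_subset.2 Finset.sdiff_subset)
    refine Finset.sum_nbij (fun K => K.image r) ?_ ?_ ?_ ?_
    · intro K hK
      rw [Finset.mem_powerset] at hK ⊢
      exact Finset.image_subset_image hK
    · exact Finset.image_injOn_powerset_of_injOn hinj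
    · intro W hW
      rw [Finset.mem_coe, Finset.mem_powerset] at hW
      obtain ⟨Y, hY, rfl⟩ := Finset.subset_image_iff.1 hW
      exact ⟨Y, Finset.mem_coe.2 (Finset.mem_powerset.2 hY), rfl⟩
    · intro K hK
      rw [Finset.mem_powerset] at hK
      have h1 : ((Q \ F).image r \ K.image r).card = ((Q \ F) \ K).card := by
        have h2 : (Q \ F).image r \ K.image r = ((Q \ F) \ K).image r := by
          ext v
          rw [Finset.mem_sdiff, Finset.mem_image, Finset.mem_image, Finset.mem_image]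
          constructor
          · rintro ⟨⟨i, hi, rfl⟩, h1⟩
            exact ⟨i, Finset.mem_sdiff.2 ⟨hi, fun h2 => h1 ⟨i, h2, rfl⟩⟩, rfl⟩
          · rintro ⟨i, hi, rfl⟩
            rw [Finset.mem_sdiff] at hi
            refine ⟨⟨i, hi.1, rfl⟩, ?_⟩
            rintro ⟨j, hj, hji⟩
            exact hi.2 (hinj (Finset.mem_coe.2 (hK hj)) (Finset.mem_coe.2 hi.1) hji ▸ hj)
        rw [h2, Finset.card_image_of_injOn (hinj.mono (Finset.coe_subset.2 Finset.sdiff_subset))]
      rw [h1]

/-- the sum over the pairs -/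
theorem PS_pair (Q : Finset ι) (Cyc : Finset ι → Prop) (r : ι → V) (hB : Block Q Cyc r)
    (Ω : Finset (Finset ι)) (ψ : Finset V → ℂ)
    (hψ : ∀ K ⊆ Q, ψ (K.image r) = if K ∈ Ω then 1 else 0) :
    PS (Q.image r) ψ = (-1) ^ Q.card * (pairSum Cyc Q Ω : ℂ) := by
  classical
  rw [PS_image Q Cyc r hB ψ]
  unfold pairSum
  push_cast
  rw [Finset.mul_sum]
  refine Finset.sum_congr rfl fun F hF => ?_
  rw [Finset.mem_filter, Finset.mem_powerset] at hF
  rw [Finset.sum_filter, Finset.mul_sum]
  refine Finset.sum_congr rfl fun K hK => ?_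
  rw [Finset.mem_powerset] at hK
  rw [hψ K (hK.trans Finset.sdiff_subset)]
  have h1 : ((Q \ F) \ K).card + (F.card + K.card) = Q.card := by
    have h2 := Finset.card_sdiff_add_card_eq_card hK
    have h3 := Finset.card_sdiff_add_card_eq_card hF.1
    omega
  by_cases h : K ∈ Ω
  · rw [if_pos h, if_pos h, mul_one, ← h1, pow_add, mul_assoc, ← mul_pow, neg_one_mul, neg_neg,
      one_pow, mul_one]
  · rw [if_neg h, if_neg h, mul_zero, mul_zero]

/-- from the classes to the rows -/
theorem sep_lift (S J : Finset ι) (hJ : J ⊆ S) (r : ι → V) (hinj : Set.InjOn r (S : Set ι))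
    (a : V → ℤ) (N : ℕ) (Ω : Finset (Finset ι))
    (hc : Closed S J (fun i => a (r i)) N Ω) (d : V → ℤ) (hd : Small (S.image r) a N d)
    (K K' : Finset V) (h : IsDiff (J.image r) d K K') :
    (J.filter fun i => r i ∈ K) ∈ Ω → (J.filter fun i => r i ∈ K') ∈ Ω := by
  classical
  obtain ⟨d', hd'⟩ : ∃ d' : ι → ℤ, d' = fun i => if i ∈ S then d (r i) else 0 := ⟨_, rfl⟩
  have hd'1 : ∀ i ∈ S, d' i = d (r i) := by
    intro i h
    rw [hd']
    exact if_pos h
  have hsh : Short S (fun i => a (r i)) N d' := by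
    refine ⟨fun i => ?_, fun i h => ?_, ?_⟩
    · by_cases h : i ∈ S
      · rw [hd'1 i h]
        exact hd.1 (r i)
      · rw [hd']
        exact Or.inr (Or.inl (if_neg h))
    · rw [hd']
      exact if_neg h
    · have h1 := hd.2.2
      rw [Finset.sum_image hinj] at h1
      rw [Finset.sum_congr rfl fun i hi => by rw [hd'1 i hi]]
      exact h1
  refine hc d' hsh _ (Finset.filter_subset _ _) _ (Finset.filter_subset _ _) fun i hi => ?_
  rw [hd'1 i (hJ hi), h (r i) (Finset.mem_image_of_mem r hi)]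
  simp only [Finset.mem_filter, hi, true_and]

/-- a function which is not zero on one set only -/
theorem PS_single (X F : Finset V) (hF : F ⊆ X) (ψ : Finset V → ℂ)
    (hψ : ∀ K ⊆ X, ψ K = if K = F then 1 else 0) :
    PS X ψ = ((RR (X \ F) (span (ZMod 2) (F : Set V)) (span (ZMod 2) (X : Set V))
      (fun _ => 0) : ℝ) : ℂ) := by
  classical
  unfold PS
  have h1 : ∀ A ∈ X.powerset, (if Spans ⊥ X A then ∑ K ∈ A.powerset, (-1) ^ (A \ K).card * ψ K
      else 0) = if F ⊆ A ∧ Spans ⊥ X A then (-1 : ℂ) ^ (A \ F).card else 0 := by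
    intro A hA
    rw [Finset.mem_powerset] at hA
    by_cases hs : Spans ⊥ X A
    · rw [if_pos hs]
      by_cases hFA : F ⊆ A
      · rw [if_pos ⟨hFA, hs⟩, Finset.sum_eq_single F]
        · rw [hψ F hF, if_pos rfl, mul_one]
        · intro K hK hne
          rw [hψ K ((Finset.mem_powerset.1 hK).trans hA), if_neg hne, mul_zero]
        · intro h
          exact absurd (Finset.mem_powerset.2 hFA) h
      · rw [if_neg fun h => hFA h.1]
        refine Finset.sum_eq_zero fun K hK => ?_
        rw [Finset.mem_powerset] at hK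
        rw [hψ K (hK.trans hA), if_neg (fun h : K = F => hFA (h ▸ hK)), mul_zero]
    · rw [if_neg hs, if_neg fun h => hs h.2]
  rw [Finset.sum_congr rfl h1, sum_split' X F hF, Finset.sum_eq_single F]
  · unfold RR
    push_cast
    refine Finset.sum_congr rfl fun B hB => ?_
    rw [Finset.mem_powerset] at hB
    have hd : Disjoint F B := Finset.disjoint_left.2 fun v hv hv' =>
      (Finset.mem_sdiff.1 (hB hv')).2 hv
    have h2 : (F ∪ B) \ F = B := by
      rw [Finset.union_sdiff_left]
      exact Finset.sdiff_eq_self_of_disjoint hd.symm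
    have h3 : Spans ⊥ X (F ∪ B) ↔ span (ZMod 2) (F : Set V) ⊔ span (ZMod 2) (B : Set V) =
        span (ZMod 2) (X : Set V) := by
      unfold Spans
      rw [bot_sup_eq, bot_sup_eq, Finset.coe_union, span_union]
    rw [h2]
    by_cases h4 : span (ZMod 2) (F : Set V) ⊔ span (ZMod 2) (B : Set V) =
        span (ZMod 2) (X : Set V)
    · rw [if_pos ⟨Finset.subset_union_left, h3.2 h4⟩, if_pos h4, Finset.prod_const]
      push_cast
      norm_num
    · rw [if_neg fun h => h4 (h3.1 h.2), if_neg h4]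
      norm_num
  · intro A hA hne
    rw [Finset.mem_powerset] at hA
    refine Finset.sum_eq_zero fun B hB => ?_
    rw [Finset.mem_powerset] at hB
    rw [if_neg]
    rintro ⟨h, -⟩
    refine hne (Finset.Subset.antisymm hA fun v hv => ?_)
    rcases Finset.mem_union.1 (h hv) with h2 | h2
    · exact h2
    · exact absurd hv (Finset.mem_sdiff.1 (hB h2)).2
  · intro h
    exact absurd (Finset.mem_powerset.2 (Finset.Subset.refl F)) h

/-- one set is closed, and the others are in cycles -/
theorem pair_single (Q F : Finset ι) (hF : F ⊆ Q) (Cyc : Finset ι → Prop) (r : ι → V)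
    (hB : Block Q Cyc r) (h : ∀ i ∈ Q, i ∉ F → InCycle Cyc (Q \ F) i) :
    pairSum Cyc Q {F} ≠ 0 := by
  classical
  intro h0
  obtain ⟨ψ, hψ⟩ : ∃ ψ : Finset V → ℂ, ψ = fun K => if K = F.image r then 1 else 0 := ⟨_, rfl⟩
  have h1 := PS_pair Q Cyc r hB {F} ψ fun K hK => by
    rw [hψ]
    show (if K.image r = F.image r then (1 : ℂ) else 0) = _
    by_cases h2 : K = F
    · rw [if_pos (congrArg _ h2), if_pos (Finset.mem_singleton.2 h2)]
    · rw [if_neg, if_neg fun h3 => h2 (Finset.mem_singleton.1 h3)]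
      intro h3
      exact h2 ((Finset.image_injOn_powerset_of_injOn hB.inj)
        (Finset.mem_coe.2 (Finset.mem_powerset.2 hK))
        (Finset.mem_coe.2 (Finset.mem_powerset.2 hF)) h3)
  rw [h0, Int.cast_zero, mul_zero, PS_single (Q.image r) (F.image r)
    (Finset.image_subset_image hF) ψ fun K _ => by rw [hψ]] at h1
  have h2 := pos_RR (Q.image r \ F.image r).card (Q.image r \ F.image r) rfl
    (span (ZMod 2) ((F.image r : Finset V) : Set V))
    (span (ZMod 2) ((Q.image r : Finset V) : Set V)) inferInstance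
    (fun v hv => by
      rw [Finset.mem_sdiff, Finset.mem_image] at hv
      obtain ⟨⟨i, hi, rfl⟩, hv⟩ := hv
      exact hB.notMem (h i hi fun h3 => hv (Finset.mem_image_of_mem r h3)) hF) (by
      rw [← span_union, ← Finset.coe_union,
        Finset.union_sdiff_of_subset (Finset.image_subset_image hF)])
  have h3 := Complex.ofReal_eq_zero.1 h1
  rw [h3, mul_zero] at h2
  exact lt_irrefl _ h2

theorem closed_single (S J F : Finset ι) (hJ : J ⊆ S) (hF : F ⊆ J) (a : ι → ℤ) (N : ℕ)
    (s : ℤ) (hs : s = 1 ∨ s = -1) (h1 : ∀ i ∈ F, s * a i ≤ 0) (h2 : ∀ i ∈ J, i ∉ F → 0 ≤ s * a i)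
    (hbig : ∀ i ∈ J, (N : ℤ) + ∑ j ∈ S \ J, |a j| ≤ |a i|) : Closed S J a N {F} := by
  classical
  intro d hd K hK K' hK' hdiff hKF
  rw [Finset.mem_singleton] at hKF ⊢
  subst hKF
  by_contra hne
  -- the part of the sum over `J`
  have habs : ∀ z : ℤ, |s * z| = |z| := by
    intro z
    rcases hs with rfl | rfl
    · rw [one_mul]
    · rw [neg_one_mul, abs_neg]
  have h3 : ∀ i ∈ J, 0 ≤ -(s * (d i * a i)) := by
    intro i hi
    rw [hdiff i hi]
    by_cases hiK : i ∈ K
    · by_cases hiK' : i ∈ K'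
      · rw [if_pos hiK, if_pos hiK', sub_self, zero_mul, mul_zero, neg_zero]
      · rw [if_pos hiK, if_neg hiK', sub_zero, one_mul]
        have := h1 i hiK
        omega
    · by_cases hiK' : i ∈ K'
      · rw [if_neg hiK, if_pos hiK', zero_sub, neg_one_mul, mul_neg, neg_neg]
        exact h2 i hi hiK
      · rw [if_neg hiK, if_neg hiK', sub_self, zero_mul, mul_zero, neg_zero]
  obtain ⟨i₀, hi₀, hd₀⟩ : ∃ i ∈ J, d i = 1 ∨ d i = -1 := by
    by_contra hno
    push Not at hno
    refine hne (Finset.Subset.antisymm ?_ ?_)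
    · intro i hi
      by_contra hiK
      have h4 := hdiff i (hK' hi)
      rw [if_neg hiK, if_pos hi] at h4
      exact (hno i (hK' hi)).2 h4
    · intro i hi
      by_contra hiK
      have h4 := hdiff i (hK hi)
      rw [if_pos hi, if_neg hiK] at h4
      exact (hno i (hK hi)).1 h4
  have h4 : |a i₀| ≤ ∑ i ∈ J, -(s * (d i * a i)) := by
    have h5 : |a i₀| = -(s * (d i₀ * a i₀)) := by
      have h6 := h3 i₀ hi₀
      rw [← abs_of_nonneg h6, abs_neg, habs, abs_mul]
      rcases hd₀ with h | h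
      · rw [h, abs_one, one_mul]
      · rw [h, abs_neg, abs_one, one_mul]
    rw [h5]
    exact Finset.single_le_sum (f := fun i => -(s * (d i * a i))) (fun i hi => h3 i hi) hi₀
  have h5 : |∑ i ∈ S \ J, d i * a i| ≤ ∑ i ∈ S \ J, |a i| := by
    refine (Finset.abs_sum_le_sum_abs _ _).trans (Finset.sum_le_sum fun i _ => ?_)
    rw [abs_mul]
    have h6 : |d i| ≤ 1 := by
      rcases hd.1 i with h | h | h <;> rw [h] <;> norm_num
    exact mul_le_of_le_one_left (abs_nonneg _) h6
  have h6 := hd.2.2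
  rw [← Finset.sum_sdiff hJ] at h6
  have h7 : ∑ i ∈ J, -(s * (d i * a i)) = |∑ i ∈ J, d i * a i| := by
    rw [Finset.sum_neg_distrib, ← Finset.mul_sum]
    have h8 : 0 ≤ -(s * ∑ i ∈ J, d i * a i) := by
      rw [Finset.mul_sum, ← Finset.sum_neg_distrib]
      exact Finset.sum_nonneg h3
    rw [← abs_of_nonneg h8, abs_neg, habs]
  rw [h7] at h4
  have h8 := hbig i₀ hi₀
  have h9 : |∑ i ∈ J, d i * a i| ≤ |∑ i ∈ S \ J, d i * a i + ∑ i ∈ J, d i * a i| +
      |∑ i ∈ S \ J, d i * a i| := by
    have h10 := abs_sub (∑ i ∈ S \ J, d i * a i + ∑ i ∈ J, d i * a i) (∑ i ∈ S \ J, d i * a i)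
    rw [add_sub_cancel_left] at h10
    exact h10
  omega

/-- **long classes** -/
theorem LongSigned.separated {S J : Finset ι} (hJ : J ⊆ S) {Cyc : Finset ι → Prop} {r : ι → V}
    (hB : Block J Cyc r) {a : ι → ℤ} {N : ℕ} (hN : 1 ≤ N) (h : LongSigned S J Cyc a N) :
    Separated S J Cyc a N := by
  classical
  obtain ⟨hbig, hc⟩ := h
  have hne : ∀ i ∈ J, a i ≠ 0 := by
    intro i hi h0
    have h1 := hbig i hi
    have h2 : 0 ≤ ∑ j ∈ S \ J, |a j| := Finset.sum_nonneg fun _ _ => abs_nonneg _
    rw [h0, abs_zero] at h1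
    omega
  rcases hc with hc | hc
  · refine ⟨{J.filter fun j => a j < 0}, closed_single S J _ hJ (Finset.filter_subset _ _) a N 1
      (Or.inl rfl) ?_ ?_ hbig, pair_single J _ (Finset.filter_subset _ _) Cyc r hB ?_⟩
    · intro i hi
      have := (Finset.mem_filter.1 hi).2
      omega
    · intro i hi hi'
      have h1 : ¬ a i < 0 := fun h2 => hi' (Finset.mem_filter.2 ⟨hi, h2⟩)
      omega
    · intro i hi hi'
      have h1 : ¬ a i < 0 := fun h2 => hi' (Finset.mem_filter.2 ⟨hi, h2⟩)
      have h2 := hne i hi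
      have h3 : J \ (J.filter fun j => a j < 0) = J.filter fun j => 0 < a j := by
        ext j
        rw [Finset.mem_sdiff, Finset.mem_filter, Finset.mem_filter]
        constructor
        · rintro ⟨hj, h4⟩
          have h5 := hne j hj
          have h6 : ¬ a j < 0 := fun h7 => h4 ⟨hj, h7⟩
          exact ⟨hj, by omega⟩
        · rintro ⟨hj, h4⟩
          exact ⟨hj, fun h5 => by omega⟩
      rw [h3]
      exact hc i hi (by omega)
  · refine ⟨{J.filter fun j => 0 < a j}, closed_single S J _ hJ (Finset.filter_subset _ _) a N (-1)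
      (Or.inr rfl) ?_ ?_ hbig, pair_single J _ (Finset.filter_subset _ _) Cyc r hB ?_⟩
    · intro i hi
      have := (Finset.mem_filter.1 hi).2
      omega
    · intro i hi hi'
      have h1 : ¬ 0 < a i := fun h2 => hi' (Finset.mem_filter.2 ⟨hi, h2⟩)
      omega
    · intro i hi hi'
      have h1 : ¬ 0 < a i := fun h2 => hi' (Finset.mem_filter.2 ⟨hi, h2⟩)
      have h2 := hne i hi
      have h3 : J \ (J.filter fun j => 0 < a j) = J.filter fun j => a j < 0 := by
        ext j
        rw [Finset.mem_sdiff, Finset.mem_filter, Finset.mem_filter]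
        constructor
        · rintro ⟨hj, h4⟩
          have h5 := hne j hj
          have h6 : ¬ 0 < a j := fun h7 => h4 ⟨hj, h7⟩
          exact ⟨hj, by omega⟩
        · rintro ⟨hj, h4⟩
          exact ⟨hj, fun h5 => by omega⟩
      rw [h3]
      exact hc i hi (by omega)

end Pool.Agent.NHT
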