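import Mathlib
import Pool.Agent.NHT.Sep
import Pool.Agent.NHT.Dict3
import Pool.Agent.NHT.Class3

/-!
# NHT, version 6, module SepK: closed sets of subsets, knots and knotoids (helper38)
-/

set_option autoImplicit false
set_option linter.unusedSectionVars false

open Module Submodule Pool.Agent.UNI LaurentPolynomial Pool.Agent.SPT Pool.Agent.SPT.Rel
  Pool.Agent.SPT.Lin Pool.Agent.SRH Pool.Agent.EQT Pool.Agent.FHP Pool.Agent.TRA Pool.Agent.TRP

namespace Pool.Agent.NHT

open Pool.Agent.Helper16.Knotoid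

variable {n : ℕ}

/-- **The identity for functions on the subsets of `J`, knotoid diagrams** -/
theorem knotoidHVP (D : GaussDiagram n) (B N : ℕ)
    (hB : D.normalizedBracket.coeff.support.card ≤ B) (S : Finset (Fin n))
    (hS : Transversal D.Interlaced S) (hN : 2 * (B + 2) * (S.card + 1) ≤ N) (J : Finset (Fin n))
    (hJ : J ⊆ S) (hne : J.Nonempty) (ψ : Finset (Fin n → ZMod 2) → ℂ)
    (hψ : ∀ d, Small (S.image (row (Graph_R D.Interlaced D.sign)))
      (twist (Graph_R D.Interlaced D.sign) (cutState D.Interlaced D.sign)) N d →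
      ∀ K ⊆ J.image (row (Graph_R D.Interlaced D.sign)),
      ∀ K' ⊆ J.image (row (Graph_R D.Interlaced D.sign)),
        IsDiff (J.image (row (Graph_R D.Interlaced D.sign))) d K K' → ψ K = ψ K') :
    PS (J.image (row (Graph_R D.Interlaced D.sign))) ψ = 0 ∨ cutDetO D J = 0 := by
  classical
  obtain ⟨σ, hσ⟩ : ∃ σ, σ = cutState D.Interlaced D.sign := ⟨_, rfl⟩
  have hR : Graph_R D.Interlaced D.sign = D.Cut σ := by
    rw [hσ]
    rfl
  have hr : ∀ c, row (Graph_R D.Interlaced D.sign) c = D.gmat σ c := by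
    intro c
    rw [hR]
    exact row_eq D σ c
  have hr' : row (Graph_R D.Interlaced D.sign) = fun c => D.gmat σ c := funext hr
  have hrows : S.image (row (Graph_R D.Interlaced D.sign)) =
      (Finset.univ.image (D.gmat σ)).erase 0 := by
    rw [← Graph_image (Graph_irrefl D) (Graph_int_symm D) hS]
    unfold rows
    rw [hr']
  have htw : ∀ v, twist (Graph_R D.Interlaced D.sign) σ v = tw (D.gmat σ) σ v := by
    intro v
    unfold twist tw SPT.signedCount
    refine Finset.sum_congr ?_ fun _ _ => rfl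
    ext c
    rw [Finset.mem_filter, Finset.mem_filter, hr]
  have htw' : twist (Graph_R D.Interlaced D.sign) σ = tw (D.gmat σ) σ := funext htw
  have hJr : J.image (row (Graph_R D.Interlaced D.sign)) = J.image (D.gmat σ) := by
    rw [hr']
  rw [← hσ, htw', hrows, hJr] at hψ
  have hinj : Set.InjOn (D.gmat σ) (J : Set (Fin n)) := by
    intro i hi j hj h
    exact Graph_inj (e := D.sign) (Graph_irrefl D) (Graph_int_symm D) hS (hJ hi) (hJ hj)
      (by rw [hr, hr]; exact h)
  have hJ0 : ∀ c ∈ J, D.gmat σ c ≠ 0 := by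
    intro c hc
    rw [← hr]
    exact (Graph_ne c).2 (hS.1 c (hJ hc))
  have hrank : (D.gmat σ).rank ≤ S.card := by
    have h1 := SRH.rank_le D σ
    rw [← hR, Graph_image (Graph_irrefl D) (Graph_int_symm D) hS] at h1
    exact h1.trans Finset.card_image_le
  have hN' : 2 * (B + 2) * ((D.gmat σ).rank + 1) ≤ N :=
    (Nat.mul_le_mul_left _ (by omega)).trans hN
  have h1 := HVP (D.gmat σ) (D.gmat_symm σ) σ B N (card_SSC D σ B hB) hN' J hinj hJ0 hne ψ hψ
  rw [hJr]
  rcases mul_eq_zero.1 h1 with h2 | h2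
  · exact Or.inl h2
  · right
    obtain ⟨u, -, hu⟩ := cutDetO_eq D J
    rw [hu, ← hσ, h2, mul_zero]

/-- **The identity for functions on the subsets of `J`, knot diagrams** -/
theorem knotHVP (g : GaussJones.Code n) (e : Fin n → Bool) (B N : ℕ)
    (hB : (GaussJones.fPoly g e).coeff.support.card ≤ B) (S : Finset (Fin n))
    (hS : Transversal (GaussJones.Interlaced g) S) (hN : 2 * (B + 2) * (S.card + 1) ≤ N)
    (J : Finset (Fin n)) (hJ : J ⊆ S) (hne : J.Nonempty) (ψ : Finset (Fin n → ZMod 2) → ℂ)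
    (hψ : ∀ d, Small (S.image (row (Graph_R (GaussJones.Interlaced g) e)))
      (twist (Graph_R (GaussJones.Interlaced g) e) (cutState (GaussJones.Interlaced g) e)) N d →
      ∀ K ⊆ J.image (row (Graph_R (GaussJones.Interlaced g) e)),
      ∀ K' ⊆ J.image (row (Graph_R (GaussJones.Interlaced g) e)),
        IsDiff (J.image (row (Graph_R (GaussJones.Interlaced g) e))) d K K' → ψ K = ψ K') :
    PS (J.image (row (Graph_R (GaussJones.Interlaced g) e))) ψ = 0 ∨ cutDet g e J = 0 := by
  classical
  have hn : 0 < n := by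
    obtain ⟨i, -⟩ := hne
    exact i.pos
  have h1 := interlaced_fun g e
  rw [f_closed hn] at hB
  rw [cutDet_eq hn]
  rw [← h1] at hS hψ ⊢
  exact knotoidHVP (cutOpen g e) B N hB S hS hN J hJ hne ψ hψ

/-- the function which belongs to a closed set -/
theorem sep_fun {ι V : Type} [DecidableEq ι] [DecidableEq V] [AddCommGroup V] [Module (ZMod 2) V]
    (S J : Finset ι) (hJ : J ⊆ S) (Cyc : Finset ι → Prop) (r : ι → V) (hB : Block J Cyc r)
    (hinj : Set.InjOn r (S : Set ι)) (a : V → ℤ) (N : ℕ)
    (h : Separated S J Cyc (fun i => a (r i)) N) :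
    ∃ ψ : Finset V → ℂ, (∀ d, Small (S.image r) a N d → ∀ K ⊆ J.image r, ∀ K' ⊆ J.image r,
      IsDiff (J.image r) d K K' → ψ K = ψ K') ∧ PS (J.image r) ψ ≠ 0 := by
  classical
  obtain ⟨Ω, hc, hne⟩ := h
  refine ⟨fun K => if (J.filter fun i => r i ∈ K) ∈ Ω then 1 else 0, ?_, ?_⟩
  · intro d hd K _ K' _ hdiff
    have h1 := sep_lift S J hJ r hinj a N Ω hc d hd K K' hdiff
    have hd' : Small (S.image r) a N fun v => -d v := by
      refine ⟨fun v => ?_, fun v hv => ?_, ?_⟩
      · show -d v = -1 ∨ -d v = 0 ∨ -d v = 1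
        rcases hd.1 v with h | h | h <;> omega
      · show -d v = 0
        rw [hd.2.1 v hv, neg_zero]
      · have h2 := hd.2.2
        have h3 : ∑ v ∈ S.image r, -d v * a v = -∑ v ∈ S.image r, d v * a v := by
          rw [← Finset.sum_neg_distrib]
          exact Finset.sum_congr rfl fun v _ => neg_mul _ _
        show |∑ v ∈ S.image r, -d v * a v| < _
        rw [h3, abs_neg]
        exact h2
    have hdiff' : IsDiff (J.image r) (fun v => -d v) K' K := by
      intro v hv
      show -d v = _
      rw [hdiff v hv, neg_sub]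
    have h2 := sep_lift S J hJ r hinj a N Ω hc _ hd' K' K hdiff'
    by_cases h3 : (J.filter fun i => r i ∈ K) ∈ Ω
    · show (if _ then (1 : ℂ) else 0) = if _ then 1 else 0
      rw [if_pos h3, if_pos (h1 h3)]
    · show (if _ then (1 : ℂ) else 0) = if _ then 1 else 0
      rw [if_neg h3, if_neg fun h4 => h3 (h2 h4)]
  · rw [PS_pair J Cyc r hB Ω _ fun K hK => ?_]
    · refine mul_ne_zero (pow_ne_zero _ (neg_ne_zero.2 one_ne_zero)) ?_
      exact_mod_cast hne
    · have h1 : (J.filter fun i => r i ∈ K.image r) = K := by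
        ext i
        rw [Finset.mem_filter, Finset.mem_image]
        constructor
        · rintro ⟨hi, j, hj, hji⟩
          exact hB.inj (Finset.mem_coe.2 (hK hj)) (Finset.mem_coe.2 hi) hji ▸ hj
        · intro hi
          exact ⟨hK hi, i, hi, rfl⟩
      show (if (J.filter fun i => r i ∈ K.image r) ∈ Ω then (1 : ℂ) else 0) = _
      rw [h1]

/-- **Alternative (3), knotoid diagrams** -/
theorem knotoidSep (D : GaussDiagram n) (S : Finset (Fin n)) (hS : Transversal D.Interlaced S)
    (J : Finset (Fin n)) (hJ : J ⊆ S) (hne : J.Nonempty) (hdet : cutDetO D J ≠ 0) (B : ℕ)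
    (hw : Separated S J (HasCycleInO D (S \ J)) (cutTwist D.Interlaced D.sign)
      (2 * (B + 2) * (S.card + 1))) :
    B < D.normalizedBracket.coeff.support.card := by
  classical
  by_contra hB
  have har : (fun i => twist (Graph_R D.Interlaced D.sign) (cutState D.Interlaced D.sign)
      (row (Graph_R D.Interlaced D.sign) i)) = cutTwist D.Interlaced D.sign :=
    funext fun i => twist_row (Graph_irrefl D) (Graph_int_symm D) i
  rw [← har] at hw
  obtain ⟨ψ, hψ, h0⟩ := sep_fun S J hJ _ _ (thm_KnotoidBlock n D S J hS hJ)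
    (Graph_inj (e := D.sign) (Graph_irrefl D) (Graph_int_symm D) hS) _ _ hw
  rcases knotoidHVP D B _ (not_lt.1 hB) S hS le_rfl J hJ hne ψ hψ with h | h
  · exact h0 h
  · exact hdet h

/-- **Alternative (3), knot diagrams** -/
theorem knotSep (g : GaussJones.Code n) (e : Fin n → Bool) (S : Finset (Fin n))
    (hS : Transversal (GaussJones.Interlaced g) S) (J : Finset (Fin n)) (hJ : J ⊆ S)
    (hne : J.Nonempty) (hdet : cutDet g e J ≠ 0) (B : ℕ)
    (hw : Separated S J (HasCycleIn g (S \ J)) (cutTwist (GaussJones.Interlaced g) e)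
      (2 * (B + 2) * (S.card + 1))) :
    B < (GaussJones.fPoly g e).coeff.support.card := by
  classical
  by_contra hB
  have hirr : ∀ i, ¬ GaussJones.Interlaced g i i := by
    intro i h
    rcases h with h | h <;> exact lt_irrefl _ h.1
  have hsy : ∀ i j, GaussJones.Interlaced g i j → GaussJones.Interlaced g j i :=
    fun i j h => h.symm
  have har : (fun i => twist (Graph_R (GaussJones.Interlaced g) e)
      (cutState (GaussJones.Interlaced g) e) (row (Graph_R (GaussJones.Interlaced g) e) i)) =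
      cutTwist (GaussJones.Interlaced g) e := funext fun i => twist_row hirr hsy i
  rw [← har] at hw
  obtain ⟨ψ, hψ, h0⟩ := sep_fun S J hJ _ _ (thm_KnotBlock n g e S J hS hJ)
    (Graph_inj (e := e) hirr hsy hS) _ _ hw
  rcases knotHVP g e B _ (not_lt.1 hB) S hS le_rfl J hJ hne ψ hψ with h | h
  · exact h0 h
  · exact hdet h

end Pool.Agent.NHT
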