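import Mathlib
import Pool.Agent.NHT.Iso
import Pool.Agent.NHT.SepK
import Pool.Agent.NHT.Final4
import Pool.Agent.NHT.DefsL

/-!
# NHT, module IsoK: sets of classes with two interlaced classes, knots and knotoids (helper11)
-/

set_option autoImplicit false
set_option linter.unusedSectionVars false

open Module Submodule Pool.Agent.UNI LaurentPolynomial Pool.Agent.SPT Pool.Agent.SPT.Rel
  Pool.Agent.SPT.Lin Pool.Agent.SRH Pool.Agent.EQT Pool.Agent.FHP Pool.Agent.TRA Pool.Agent.TRP

namespace Pool.Agent.NHT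

open Pool.Agent.Helper16.Knotoid

/-- No short vector is non-negative and not zero on `J`. -/
def NoPartialSum0 {ι : Type} (S J : Finset ι) (a : ι → ℤ) (N : ℕ) : Prop :=
  ∀ d, Short S a N d → (∀ i ∈ J, 0 ≤ d i) → ∀ i ∈ J, d i = 0

/-- from the classes to the rows -/
theorem pos_lift {ι V : Type} [DecidableEq ι] [DecidableEq V] [AddCommGroup V] [Module (ZMod 2) V]
    (S J : Finset ι) (hJ : J ⊆ S) (r : ι → V)
    (hinj : Set.InjOn r (S : Set ι)) (a : V → ℤ) (N : ℕ)
    (h : NoPartialSum0 S J (fun i => a (r i)) N) (d : V → ℤ) (hd : Small (S.image r) a N d)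
    (hd0 : ∀ v ∈ J.image r, 0 ≤ d v) : ∀ v ∈ J.image r, d v = 0 := by
  classical
  obtain ⟨d', hd'⟩ : ∃ d' : ι → ℤ, d' = fun i => if i ∈ S then d (r i) else 0 := ⟨_, rfl⟩
  have hd'1 : ∀ i ∈ S, d' i = d (r i) := by
    intro i h
    rw [hd']
    exact if_pos h
  have hsh : Short S (fun i => a (r i)) N d' := by
    refine ⟨fun i => ?_, fun i h => ?_, ?_⟩
    · by_cases h : i ∈ S
      · rw [hd'1 i h]
        exact hd.1 (r i)
      · rw [hd']
        exact Or.inr (Or.inl (if_neg h))
    · rw [hd']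
      exact if_neg h
    · have h1 := hd.2.2
      rw [Finset.sum_image hinj] at h1
      rw [Finset.sum_congr rfl fun i hi => by rw [hd'1 i hi]]
      exact h1
  intro v hv
  obtain ⟨i, hi, rfl⟩ := Finset.mem_image.1 hv
  rw [← hd'1 i (hJ hi)]
  refine h d' hsh (fun j hj => ?_) i hi
  rw [hd'1 j (hJ hj)]
  exact hd0 _ (Finset.mem_image_of_mem r hj)

variable {n : ℕ}

theorem bracket_eqZ (D : GaussDiagram n) (σ : Fin n → Bool) :
    D.bracket = Lin.SS ℤ (D.gmat σ) σ := by
  unfold GaussDiagram.bracket GaussDiagram.stateSign Lin.SS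
  refine Finset.sum_congr rfl fun s _ => ?_
  rw [D.comps_eq, gmat_SM D σ s, Nat.add_sub_cancel_left, T_sum']
  have h1 : ∏ c, T (if s c then (1 : ℤ) else -1) = ∏ c, al ℤ (s c) := by
    refine Finset.prod_congr rfl fun c _ => ?_
    unfold al
    cases s c
    · simp only [Bool.false_eq_true, if_false]
    · simp only [if_true]
  rw [h1]
  rfl

theorem card_SSZ (D : GaussDiagram n) (σ : Fin n → Bool) (B : ℕ)
    (hB : D.normalizedBracket.coeff.support.card ≤ B) :
    (Lin.SS ℤ (D.gmat σ) σ).coeff.support.card ≤ B := by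
  rw [← bracket_eqZ, ← toC_card, toC_bracket D σ]
  exact card_SSC D σ B hB

/-- **Knotoid diagrams** -/
theorem knotoidIsoJ (D : GaussDiagram n) (S : Finset (Fin n)) (hS : Transversal D.Interlaced S)
    (J : Finset (Fin n)) (hJ : J ⊆ S) (B : ℕ)
    (hpos : NoPartialSum0 S J (cutTwist D.Interlaced D.sign) (2 * (B + 2) * (S.card + 1)))
    (hl : Linked D.Interlaced J) : B < terms D.normalizedBracket := by
  classical
  by_contra hB'
  have hB : D.normalizedBracket.coeff.support.card ≤ B := not_lt.1 hB'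
  have har : (fun i => twist (Graph_R D.Interlaced D.sign) (cutState D.Interlaced D.sign)
      (row (Graph_R D.Interlaced D.sign) i)) = cutTwist D.Interlaced D.sign :=
    funext fun i => twist_row (Graph_irrefl D) (Graph_int_symm D) i
  rw [← har] at hpos
  have hpos' := pos_lift S J hJ (row (Graph_R D.Interlaced D.sign))
    (Graph_inj (e := D.sign) (Graph_irrefl D) (Graph_int_symm D) hS) _ _ hpos
  obtain ⟨σ, hσ⟩ : ∃ σ, σ = cutState D.Interlaced D.sign := ⟨_, rfl⟩
  have hR : Graph_R D.Interlaced D.sign = D.Cut σ := by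
    rw [hσ]
    rfl
  have hr : ∀ c, row (Graph_R D.Interlaced D.sign) c = D.gmat σ c := by
    intro c
    rw [hR]
    exact row_eq D σ c
  have hr' : row (Graph_R D.Interlaced D.sign) = fun c => D.gmat σ c := funext hr
  have hrows : S.image (row (Graph_R D.Interlaced D.sign)) =
      (Finset.univ.image (D.gmat σ)).erase 0 := by
    rw [← Graph_image (Graph_irrefl D) (Graph_int_symm D) hS]
    unfold rows
    rw [hr']
  have htw : ∀ v, twist (Graph_R D.Interlaced D.sign) σ v = tw (D.gmat σ) σ v := by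
    intro v
    unfold twist tw SPT.signedCount
    refine Finset.sum_congr ?_ fun _ _ => rfl
    ext c
    rw [Finset.mem_filter, Finset.mem_filter, hr]
  have htw' : twist (Graph_R D.Interlaced D.sign) σ = tw (D.gmat σ) σ := funext htw
  have hJr : J.image (row (Graph_R D.Interlaced D.sign)) = J.image (D.gmat σ) := by
    rw [hr']
  rw [← hσ, htw', hrows, hJr] at hpos'
  have hinj : Set.InjOn (D.gmat σ) (J : Set (Fin n)) := by
    intro i hi j hj h
    exact Graph_inj (e := D.sign) (Graph_irrefl D) (Graph_int_symm D) hS (hJ hi) (hJ hj)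
      (by rw [hr, hr]; exact h)
  have hrank : (D.gmat σ).rank ≤ S.card := by
    have h1 := SRH.rank_le D σ
    rw [← hR, Graph_image (Graph_irrefl D) (Graph_int_symm D) hS] at h1
    exact h1.trans Finset.card_image_le
  have hN' : 2 * (B + 2) * ((D.gmat σ).rank + 1) ≤ 2 * (B + 2) * (S.card + 1) :=
    Nat.mul_le_mul_left _ (by omega)
  obtain ⟨t, ht⟩ := gg_dvd (D.gmat σ) (D.gmat_symm σ) σ B _ (card_SSZ D σ B hB) hN' J hinj hpos'
  have hiso := iso_of_dvd (D.gmat σ) (D.gmat_symm σ) σ J t ht
  obtain ⟨i, hi, j, hj, hij⟩ := hl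
  have h1 := hiso i hi j hj
  rw [← hr, RelL_entry] at h1
  unfold cutEntry at h1
  rw [if_pos hij] at h1
  exact one_ne_zero h1

/-- **Knot diagrams** -/
theorem knotIsoJ (g : GaussJones.Code n) (e : Fin n → Bool) (S : Finset (Fin n))
    (hS : Transversal (GaussJones.Interlaced g) S) (J : Finset (Fin n)) (hJ : J ⊆ S) (B : ℕ)
    (hpos : NoPartialSum0 S J (cutTwist (GaussJones.Interlaced g) e)
      (2 * (B + 2) * (S.card + 1)))
    (hl : Linked (GaussJones.Interlaced g) J) : B < terms (GaussJones.fPoly g e) := by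
  classical
  have hn : 0 < n := by
    obtain ⟨i, -⟩ := hl
    exact i.pos
  rw [f_closed hn]
  rw [← interlaced_fun g e] at hS hpos hl
  exact knotoidIsoJ (cutOpen g e) S hS J hJ B hpos hl

end Pool.Agent.NHT
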