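import Mathlib
import Pool.Agent.NHT.IsoK
import Pool.Agent.NHT.Flat
import Pool.Agent.NHT.Defs10

/-!
# NHT, module IsoF: the isotropy alternative with close cycle sets (helper11)
-/

set_option autoImplicit false
set_option linter.unusedSectionVars false

open Module Submodule Pool.Agent.UNI LaurentPolynomial Pool.Agent.SPT Pool.Agent.SPT.Rel
  Pool.Agent.SPT.Lin Pool.Agent.SRH Pool.Agent.EQT Pool.Agent.FHP Pool.Agent.TRA Pool.Agent.TRP

namespace Pool.Agent.NHT

open Pool.Agent.Helper16.Knotoid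

/-! ### flats and cycles -/

/-- a row outside of a flat lies in a cycle of rows outside of the flat -/
theorem Block.inCycle {ι V : Type} [DecidableEq ι] [DecidableEq V] [AddCommGroup V]
    [Module (ZMod 2) V] {Q : Finset ι} {Cyc : Finset ι → Prop} {r : ι → V} (hB : Block Q Cyc r)
    (F : Finset V) (hF : IsFlat (Q.image r) F) (i : ι) (hi : i ∈ Q) (hiF : r i ∉ F) :
    InCycle Cyc (Q.filter fun j => r j ∉ F) i := by
  classical
  obtain ⟨P, hP⟩ : ∃ P, P = Q.filter fun j => r j ∈ F := ⟨_, rfl⟩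
  have hP0 : r i ∉ span (ZMod 2) ((P.image r : Finset V) : Set V) := by
    intro h
    refine hiF (hF (r i) (Finset.mem_image_of_mem r hi) (span_mono ?_ h))
    refine Finset.coe_subset.2 ?_
    intro v hv
    obtain ⟨j, hj, rfl⟩ := Finset.mem_image.1 hv
    rw [hP] at hj
    exact (Finset.mem_filter.1 hj).2
  obtain ⟨𝒦, h𝒦⟩ : ∃ 𝒦, 𝒦 = Q.powerset.filter fun K => P ⊆ K ∧
      r i ∉ span (ZMod 2) ((K.image r : Finset V) : Set V) := ⟨_, rfl⟩
  have hne : 𝒦.Nonempty := by
    refine ⟨P, ?_⟩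
    rw [h𝒦, Finset.mem_filter, Finset.mem_powerset, hP]
    rw [hP] at hP0
    exact ⟨Finset.filter_subset _ _, Finset.Subset.refl _, hP0⟩
  obtain ⟨K, hK, hmax⟩ := Finset.exists_max_image 𝒦 Finset.card hne
  rw [h𝒦, Finset.mem_filter, Finset.mem_powerset] at hK
  obtain ⟨hKQ, hPK, hKi⟩ := hK
  have hiK : i ∉ K := fun h => hKi (subset_span (Finset.mem_coe.2 (Finset.mem_image_of_mem r h)))
  have hQK : Q \ (Q \ K) = K := Finset.sdiff_sdiff_eq_self hKQ
  refine ⟨Q \ K, ?_, Finset.mem_sdiff.2 ⟨hi, hiK⟩, ?_, ?_⟩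
  · intro j hj
    rw [Finset.mem_sdiff] at hj
    refine Finset.mem_filter.2 ⟨hj.1, fun h => hj.2 (hPK ?_)⟩
    rw [hP]
    exact Finset.mem_filter.2 ⟨hj.1, h⟩
  · by_contra hc
    have h1 := (hB.co (Q \ K) Finset.sdiff_subset).1 hc
    unfold Co at h1
    rw [hB.image_sdiff Finset.sdiff_subset, hQK] at h1
    refine hKi ?_
    rw [h1]
    exact subset_span (Finset.mem_coe.2 (Finset.mem_image_of_mem r hi))
  · have hsub : (Q \ K).erase i ⊆ Q := (Finset.erase_subset _ _).trans Finset.sdiff_subset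
    refine (hB.co _ hsub).2 ?_
    unfold Co
    rw [hB.image_sdiff hsub]
    refine le_antisymm (span_mono (Finset.coe_subset.2 (Finset.image_mono r
      Finset.sdiff_subset))) ?_
    rw [span_le]
    intro v hv
    obtain ⟨j, hj, rfl⟩ := Finset.mem_image.1 (Finset.mem_coe.1 hv)
    have hsub2 : insert (r i) ((K.image r : Finset V) : Set V) ⊆
        (((Q \ (Q \ K).erase i).image r : Finset V) : Set V) := by
      intro w hw
      rcases hw with rfl | hw
      · exact Finset.mem_coe.2 (Finset.mem_image_of_mem r (Finset.mem_sdiff.2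
          ⟨hi, fun h => (Finset.mem_erase.1 h).1 rfl⟩))
      · obtain ⟨l, hl, rfl⟩ := Finset.mem_image.1 (Finset.mem_coe.1 hw)
        exact Finset.mem_coe.2 (Finset.mem_image_of_mem r (Finset.mem_sdiff.2
          ⟨hKQ hl, fun h => (Finset.mem_sdiff.1 (Finset.mem_erase.1 h).2).2 hl⟩))
    refine span_mono hsub2 ?_
    by_cases hjK : j ∈ K
    · exact subset_span (Or.inr (Finset.mem_coe.2 (Finset.mem_image_of_mem r hjK)))
    · have h1 : r i ∈ span (ZMod 2) (((insert j K).image r : Finset V) : Set V) := by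
        by_contra h2
        have h3 := hmax (insert j K) (by
          rw [h𝒦, Finset.mem_filter, Finset.mem_powerset]
          exact ⟨Finset.insert_subset hj hKQ, hPK.trans (Finset.subset_insert _ _), h2⟩)
        rw [Finset.card_insert_of_notMem hjK] at h3
        omega
      rw [Finset.image_insert, Finset.coe_insert] at h1
      exact mem_span_insert_exchange h1 hKi

section

variable {n : ℕ}

/-- **The part of the states which cut `J`, for flats** -/
theorem gg_dvdF (M : Matrix (Fin n) (Fin n) (ZMod 2)) (hM : ∀ i j, M i j = M j i)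
    (σ : Fin n → Bool) (B : ℕ) (hB : (SS ℤ M σ).coeff.support.card ≤ B)
    (J : Finset (Fin n)) (hinj : Set.InjOn M (J : Set (Fin n)))
    (hpos : ∀ F ∈ FL M, ∀ F' ∈ FL M,
      |∑ v ∈ F, tw M σ v - ∑ v ∈ F', tw M σ v| < 2 * ((B : ℤ) + 2) * (M.rank + 1) →
      J.image M ⊆ F → J.image M ⊆ F') :
    ∃ t, gg ℤ M σ J = dl ℤ ^ J.card * t := by
  classical
  have hcl : ∀ F ∈ FL M, ∀ F' ∈ FL M,
      |∑ v ∈ F, tw M σ v - ∑ v ∈ F', tw M σ v| < 2 * ((B : ℤ) + 2) * (M.rank + 1) →
      (fun F => if J.image M ⊆ F then (1 : ℤ) else 0) F =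
        (fun F => if J.image M ⊆ F then (1 : ℤ) else 0) F' := by
    intro F hF F' hF' h
    have h1 := hpos F hF F' hF' h
    have h2 := hpos F' hF' F hF (by rw [abs_sub_comm]; exact h)
    show (if J.image M ⊆ F then (1 : ℤ) else 0) = if J.image M ⊆ F' then 1 else 0
    exact if_congr ⟨h1, h2⟩ rfl rfl
  obtain ⟨t, ht⟩ := HV_clusterF ℤ M hM σ B hB (fun F => if J.image M ⊆ F then 1 else 0) hcl
  have h1 : ∑ F ∈ (Finset.univ.image M).powerset,
      C (if J.image M ⊆ F then (1 : ℤ) else 0) *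
        Lin.GG M (fun c => qu ℤ (σ c)) Finset.univ (ph ℤ M) F =
      ∑ F ∈ (Finset.univ.image M).powerset.filter (fun F => J.image M ⊆ F),
        Lin.GG M (fun c => qu ℤ (σ c)) Finset.univ (ph ℤ M) F := by
    rw [Finset.sum_filter]
    refine Finset.sum_congr rfl fun F _ => ?_
    by_cases h : J.image M ⊆ F
    · rw [if_pos h, if_pos h, map_one, one_mul]
    · rw [if_neg h, if_neg h, map_zero, zero_mul]
  rw [h1, Lin.sum_HH M Finset.univ (ph ℤ M) J (Finset.subset_univ J) hinj] at ht
  refine ⟨t, ?_⟩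
  have h2 := HH_eq (K := ℤ) M hM σ J
  rw [ht] at h2
  have h3 : dl ℤ ^ M.rank * gg ℤ M σ J = dl ℤ ^ M.rank * (dl ℤ ^ J.card * t) := by
    rw [← h2]
    ring
  exact mul_left_cancel₀ (pow_ne_zero _ dlZ_ne) h3

/-- the sum over the rows outside of a flat -/
theorem sum_out {ι V : Type} [DecidableEq V] [AddCommGroup V] (S : Finset ι)
    (r : ι → V) (hinj : Set.InjOn r (S : Set ι)) (X F : Finset V) (hX : S.image r = X.erase 0)
    (hF : F ⊆ X) (h0 : (0 : V) ∈ X → (0 : V) ∈ F) (t : V → ℤ) :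
    ∑ i ∈ S.filter (fun i => r i ∉ F), t (r i) = ∑ v ∈ X, t v - ∑ v ∈ F, t v := by
  classical
  have h1 : (S.filter fun i => r i ∉ F).image r = X \ F := by
    ext v
    rw [Finset.mem_image, Finset.mem_sdiff]
    constructor
    · rintro ⟨i, hi, rfl⟩
      rw [Finset.mem_filter] at hi
      have h2 : r i ∈ X.erase 0 := by
        rw [← hX]
        exact Finset.mem_image_of_mem r hi.1
      exact ⟨(Finset.mem_erase.1 h2).2, hi.2⟩
    · rintro ⟨hv, hvF⟩
      have h2 : v ∈ S.image r := by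
        rw [hX]
        refine Finset.mem_erase.2 ⟨fun h => ?_, hv⟩
        rw [h] at hv hvF
        exact hvF (h0 hv)
      obtain ⟨i, hi, rfl⟩ := Finset.mem_image.1 h2
      exact ⟨i, Finset.mem_filter.2 ⟨hi, hvF⟩, rfl⟩
  have h2 := Finset.sum_image (s := S.filter fun i => r i ∉ F) (g := r) (f := t)
    (hinj.mono (Finset.coe_subset.2 (Finset.filter_subset _ _)))
  rw [← h2, h1]
  have h3 := Finset.sum_sdiff (f := t) hF
  omega

/-- **The cut matrix is zero on `J`** -/
theorem iso_close (D : GaussDiagram n) (S : Finset (Fin n)) (hS : Transversal D.Interlaced S)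
    (J : Finset (Fin n)) (hJ : J ⊆ S) (B : ℕ) (Cyc : Finset (Fin n) → Prop)
    (hblock : Block S Cyc (row (Graph_R D.Interlaced D.sign)))
    (hpos : ∀ L L', Close S Cyc (cutTwist D.Interlaced D.sign)
      (2 * (B + 2) * (S.card + 1)) L L' → L ∩ J = ∅ → L' ∩ J = ∅)
    (hl : Linked D.Interlaced J) : B < terms D.normalizedBracket := by
  classical
  by_contra hB'
  have hB : D.normalizedBracket.coeff.support.card ≤ B := not_lt.1 hB'
  have har : (fun i => twist (Graph_R D.Interlaced D.sign) (cutState D.Interlaced D.sign)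
      (row (Graph_R D.Interlaced D.sign) i)) = cutTwist D.Interlaced D.sign :=
    funext fun i => twist_row (Graph_irrefl D) (Graph_int_symm D) i
  rw [← har] at hpos
  obtain ⟨σ, hσ⟩ : ∃ σ, σ = cutState D.Interlaced D.sign := ⟨_, rfl⟩
  have hR : Graph_R D.Interlaced D.sign = D.Cut σ := by
    rw [hσ]
    rfl
  have hr : ∀ c, row (Graph_R D.Interlaced D.sign) c = D.gmat σ c := by
    intro c
    rw [hR]
    exact row_eq D σ c
  have hr' : row (Graph_R D.Interlaced D.sign) = fun c => D.gmat σ c := funext hr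
  have hrows : S.image (row (Graph_R D.Interlaced D.sign)) =
      (Finset.univ.image (D.gmat σ)).erase 0 := by
    rw [← Graph_image (Graph_irrefl D) (Graph_int_symm D) hS]
    unfold rows
    rw [hr']
  have htw : ∀ v, twist (Graph_R D.Interlaced D.sign) σ v = tw (D.gmat σ) σ v := by
    intro v
    unfold twist tw SPT.signedCount
    refine Finset.sum_congr ?_ fun _ _ => rfl
    ext c
    rw [Finset.mem_filter, Finset.mem_filter, hr]
  have hinjS : Set.InjOn (row (Graph_R D.Interlaced D.sign)) (S : Set (Fin n)) :=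
    Graph_inj (e := D.sign) (Graph_irrefl D) (Graph_int_symm D) hS
  have hinj : Set.InjOn (D.gmat σ) (J : Set (Fin n)) := by
    intro i hi j hj h
    exact hinjS (hJ hi) (hJ hj) (by rw [hr, hr]; exact h)
  have hrank : (D.gmat σ).rank ≤ S.card := by
    have h1 := SRH.rank_le D σ
    rw [← hR, Graph_image (Graph_irrefl D) (Graph_int_symm D) hS] at h1
    exact h1.trans Finset.card_image_le
  have hN' : 2 * (B + 2) * ((D.gmat σ).rank + 1) ≤ 2 * (B + 2) * (S.card + 1) :=
    Nat.mul_le_mul_left _ (by omega)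
  -- the cycle set of a flat
  have hcyc : ∀ F ∈ FL (D.gmat σ), S.filter (fun i => row (Graph_R D.Interlaced D.sign) i ∉ F) ⊆ S ∧
      CycleSet Cyc (S.filter fun i => row (Graph_R D.Interlaced D.sign) i ∉ F) ∧
      (∑ i ∈ S.filter (fun i => row (Graph_R D.Interlaced D.sign) i ∉ F),
        twist (Graph_R D.Interlaced D.sign) (cutState D.Interlaced D.sign)
          (row (Graph_R D.Interlaced D.sign) i) =
        ∑ v ∈ Finset.univ.image (D.gmat σ), tw (D.gmat σ) σ v - ∑ v ∈ F, tw (D.gmat σ) σ v) ∧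
      (S.filter (fun i => row (Graph_R D.Interlaced D.sign) i ∉ F) ∩ J = ∅ ↔
        J.image (D.gmat σ) ⊆ F) := by
    intro F hF
    unfold FL at hF
    rw [Finset.mem_filter, Finset.mem_powerset] at hF
    refine ⟨Finset.filter_subset _ _, ?_, ?_, ?_⟩
    · intro i hi
      rw [Finset.mem_filter] at hi
      refine Block.inCycle hblock F ?_ i hi.1 hi.2
      intro v hv hs
      refine hF.2 v ?_ hs
      rw [hrows] at hv
      exact (Finset.mem_erase.1 hv).2
    · have h1 := sum_out S _ hinjS _ F hrows hF.1 (fun h => hF.2 0 h (zero_mem _))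
        (tw (D.gmat σ) σ)
      rw [← h1]
      refine Finset.sum_congr rfl fun i _ => ?_
      rw [← hσ]
      exact htw _
    · rw [Finset.eq_empty_iff_forall_notMem]
      constructor
      · intro h v hv
        obtain ⟨i, hi, rfl⟩ := Finset.mem_image.1 hv
        by_contra h2
        refine h i (Finset.mem_inter.2 ⟨Finset.mem_filter.2 ⟨hJ hi, ?_⟩, hi⟩)
        rw [hr]
        exact h2
      · intro h i hi
        rw [Finset.mem_inter, Finset.mem_filter, hr] at hi
        exact hi.1.2 (h (Finset.mem_image_of_mem _ hi.2))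
  obtain ⟨t, ht⟩ := gg_dvdF (D.gmat σ) (D.gmat_symm σ) σ B (card_SSZ D σ B hB) J hinj (by
    intro F hF F' hF' h hJF
    obtain ⟨h1, h2, h3, h4⟩ := hcyc F hF
    obtain ⟨h1', h2', h3', h4'⟩ := hcyc F' hF'
    refine h4'.1 (hpos _ _ ⟨h1, h1', h2, h2', ?_⟩ (h4.2 hJF))
    have h6 : ∑ i ∈ S.filter (fun i => row (Graph_R D.Interlaced D.sign) i ∉ F),
        (fun i => twist (Graph_R D.Interlaced D.sign) (cutState D.Interlaced D.sign)
          (row (Graph_R D.Interlaced D.sign) i)) i -
        ∑ i ∈ S.filter (fun i => row (Graph_R D.Interlaced D.sign) i ∉ F'),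
        (fun i => twist (Graph_R D.Interlaced D.sign) (cutState D.Interlaced D.sign)
          (row (Graph_R D.Interlaced D.sign) i)) i =
        -(∑ v ∈ F, tw (D.gmat σ) σ v - ∑ v ∈ F', tw (D.gmat σ) σ v) := by
      show (∑ i ∈ _, twist (Graph_R D.Interlaced D.sign) (cutState D.Interlaced D.sign)
          (row (Graph_R D.Interlaced D.sign) i)) - (∑ i ∈ _, twist (Graph_R D.Interlaced D.sign)
          (cutState D.Interlaced D.sign) (row (Graph_R D.Interlaced D.sign) i)) = _
      rw [h3, h3']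
      ring
    rw [h6, abs_neg]
    refine h.trans_le ?_
    have h7 : ((2 * (B + 2) * ((D.gmat σ).rank + 1) : ℕ) : ℤ) ≤
        ((2 * (B + 2) * (S.card + 1) : ℕ) : ℤ) := by exact_mod_cast hN'
    push_cast at h7 ⊢
    exact h7)
  have hiso := iso_of_dvd (D.gmat σ) (D.gmat_symm σ) σ J t ht
  obtain ⟨i, hi, j, hj, hij⟩ := hl
  have h1 := hiso i hi j hj
  rw [← hr, RelL_entry] at h1
  unfold cutEntry at h1
  rw [if_pos hij] at h1
  exact one_ne_zero h1

/-- **Knotoid diagrams** -/
theorem knotoidIsoF (D : GaussDiagram n) (S : Finset (Fin n)) (hS : Transversal D.Interlaced S)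
    (J : Finset (Fin n)) (hJ : J ⊆ S) (B : ℕ)
    (hpos : ∀ L L', Close S (HasCycleInO D ∅) (cutTwist D.Interlaced D.sign)
      (2 * (B + 2) * (S.card + 1)) L L' → L ∩ J = ∅ → L' ∩ J = ∅)
    (hl : Linked D.Interlaced J) : B < terms D.normalizedBracket := by
  have hblock := thm_KnotoidBlock n D S S hS (Finset.Subset.refl S)
  rw [Finset.sdiff_self] at hblock
  exact iso_close D S hS J hJ B _ hblock hpos hl

/-- **Knot diagrams** -/
theorem knotIsoF (g : GaussJones.Code n) (e : Fin n → Bool) (S : Finset (Fin n))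
    (hS : Transversal (GaussJones.Interlaced g) S) (J : Finset (Fin n)) (hJ : J ⊆ S) (B : ℕ)
    (hpos : ∀ L L', Close S (HasCycleIn g ∅) (cutTwist (GaussJones.Interlaced g) e)
      (2 * (B + 2) * (S.card + 1)) L L' → L ∩ J = ∅ → L' ∩ J = ∅)
    (hl : Linked (GaussJones.Interlaced g) J) : B < terms (GaussJones.fPoly g e) := by
  classical
  have hn : 0 < n := by
    obtain ⟨i, -⟩ := hl
    exact i.pos
  have hblock := thm_KnotBlock n g e S S hS (Finset.Subset.refl S)
  rw [Finset.sdiff_self] at hblock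
  rw [f_closed hn]
  rw [← interlaced_fun g e] at hS hpos hl hblock
  exact iso_close (cutOpen g e) S hS J hJ B _ hblock hpos hl

end

end Pool.Agent.NHT
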