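import Mathlib
import Pool.Agent.NHT.Iso
import Pool.Agent.NHT.IsoF

/-!
# NHT, module Comp: sets of classes which meet close cycle sets evenly (helper39)

Let `J` be a set of classes such that close cycle sets meet `J` in sets whose numbers of classes have the
same parity.  If the polynomial has at most `B` terms then the link which is obtained if one crossing of
every class of `J` is smoothed in the way which is not cut (in other words: if the number of crossings of
every class of `J` is changed by one) is a knot.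
-/

set_option autoImplicit false
set_option linter.unusedSectionVars false

open Module Submodule Pool.Agent.UNI LaurentPolynomial Pool.Agent.SPT Pool.Agent.SPT.Rel
  Pool.Agent.SPT.Lin Pool.Agent.SRH Pool.Agent.EQT Pool.Agent.FHP Pool.Agent.TRA Pool.Agent.TRP

namespace Pool.Agent.NHT

open Pool.Agent.Helper16.Knotoid

/-! ### the value of the sum with signs -/

section

variable {n : ℕ}

/-- the weights with the signs of the crossings in `J` changed -/
noncomputable def quJ (σ : Fin n → Bool) (J : Finset (Fin n)) (c : Fin n) : ℤ[T;T⁻¹] :=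
  if c ∈ J then -qu ℤ (σ c) else qu ℤ (σ c)

theorem pw_quJ (M : Matrix (Fin n) (Fin n) (ZMod 2)) (σ : Fin n → Bool) (J : Finset (Fin n))
    (hinj : Set.InjOn M (J : Set (Fin n))) (k : Fin n → ZMod 2) :
    pw M (quJ σ J) Finset.univ k =
      (if k ∈ J.image M then -1 else 1) * pw M (fun c => qu ℤ (σ c)) Finset.univ k := by
  classical
  unfold pw
  have h1 : ∀ c, quJ σ J c = (if c ∈ J then -1 else 1) * qu ℤ (σ c) := by
    intro c
    unfold quJ
    split_ifs <;> ring
  rw [Finset.prod_congr rfl fun c _ => h1 c, Finset.prod_mul_distrib]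
  congr 1
  by_cases hk : k ∈ J.image M
  · rw [if_pos hk]
    obtain ⟨c₀, hc₀, hk0⟩ := Finset.mem_image.1 hk
    rw [Finset.prod_eq_single c₀]
    · rw [if_pos hc₀]
    · intro c hc hne
      rw [if_neg]
      intro hcJ
      exact hne (hinj hcJ hc₀ ((Finset.mem_filter.1 hc).2.trans hk0.symm))
    · intro h
      exact absurd (Finset.mem_filter.2 ⟨Finset.mem_univ c₀, hk0⟩) h
  · rw [if_neg hk]
    refine Finset.prod_eq_one fun c hc => ?_
    rw [if_neg]
    intro hcJ
    exact hk (Finset.mem_image.2 ⟨c, hcJ, (Finset.mem_filter.1 hc).2⟩)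

theorem GG_quJ (M : Matrix (Fin n) (Fin n) (ZMod 2)) (σ : Fin n → Bool) (J : Finset (Fin n))
    (hinj : Set.InjOn M (J : Set (Fin n))) (F : Finset (Fin n → ZMod 2)) :
    (-1 : ℤ[T;T⁻¹]) ^ (F ∩ J.image M).card *
        Lin.GG M (fun c => qu ℤ (σ c)) Finset.univ (ph ℤ M) F =
      Lin.GG M (quJ σ J) Finset.univ (ph ℤ M) F := by
  classical
  unfold Lin.GG
  rw [Finset.prod_congr rfl fun k _ => pw_quJ M σ J hinj k, Finset.prod_mul_distrib]
  have h1 : ∏ k ∈ F, (if k ∈ J.image M then (-1 : ℤ[T;T⁻¹]) else 1) =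
      (-1) ^ (F ∩ J.image M).card := by
    rw [Finset.prod_ite_mem, Finset.prod_const]
  rw [h1]
  ring

theorem add_dg_symm (M : Matrix (Fin n) (Fin n) (ZMod 2)) (hM : ∀ i j, M i j = M j i)
    (J : Finset (Fin n)) (i j : Fin n) : (M + dg J) i j = (M + dg J) j i := by
  have h1 := remM_symm M hM ∅ J i j
  have h0 : remM M ∅ = M := by
    ext i j
    rw [remM_apply, if_neg]
    simp
  rwa [h0] at h1

/-- **The value at one of the sum with signs** -/
theorem evZ_sign (M : Matrix (Fin n) (Fin n) (ZMod 2)) (hM : ∀ i j, M i j = M j i)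
    (σ : Fin n → Bool) (J : Finset (Fin n)) :
    evZ (∑ F ∈ (Finset.univ.image M).powerset, Lin.GG M (quJ σ J) Finset.univ (ph ℤ M) F) =
      (-2) ^ M.rank * ((-1) ^ (Finset.univ \ J).card *
        (-2) ^ crk (remM (M + dg J) (Finset.univ \ J))) := by
  classical
  rw [← sum_GG, map_sum]
  have h2 := crk_sum (M + dg J) (add_dg_symm M hM J) (Finset.univ \ J) ∅
  rw [Finset.empty_union] at h2
  rw [← h2]
  -- only the sets without crossings of `J` count
  have h3 : ∀ W ∈ (Finset.univ : Finset (Fin n)).powerset,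
      evZ ((∏ c ∈ W, (quJ σ J c - 1)) * ph ℤ M (W.image M)) =
        if W ⊆ Finset.univ \ J then (-2) ^ M.rank * (-2) ^ kap M W else 0 := by
    intro W _
    have h4 : ∀ c, evZ (quJ σ J c - 1) = if c ∈ J then 0 else -2 := by
      intro c
      unfold quJ
      split_ifs
      · rw [map_sub, map_neg, evZ_qu, map_one]
        norm_num
      · rw [map_sub, evZ_qu, map_one]
        norm_num
    rw [map_mul, map_prod, Finset.prod_congr rfl fun c _ => h4 c]
    split_ifs with hW
    · have h5 : ∏ c ∈ W, (if c ∈ J then (0 : ℤ) else -2) = (-2) ^ W.card := by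
        rw [← Finset.prod_const]
        refine Finset.prod_congr rfl fun c hc => ?_
        rw [if_neg (Finset.mem_sdiff.1 (hW hc)).2]
      unfold ph
      rw [h5, map_pow, evZ_dl, ← pow_add, ← pow_add, ← kap_ex M hM W, add_comm]
    · have h5 : ∃ c ∈ W, c ∈ J := by
        by_contra h6
        push Not at h6
        exact hW fun c hc => Finset.mem_sdiff.2 ⟨Finset.mem_univ c, h6 c hc⟩
      obtain ⟨c, hc, hcJ⟩ := h5
      have h6 : ∏ c ∈ W, (if c ∈ J then (0 : ℤ) else -2) = 0 :=
        Finset.prod_eq_zero hc (if_pos hcJ)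
      rw [h6, zero_mul]
  rw [Finset.sum_congr rfl h3, ← Finset.sum_filter, Finset.mul_sum]
  refine Finset.sum_nbij' (fun W => (Finset.univ \ J) \ W) (fun W => (Finset.univ \ J) \ W)
    ?_ ?_ ?_ ?_ ?_
  · intro W _
    rw [Finset.mem_powerset]
    exact Finset.sdiff_subset
  · intro W _
    rw [Finset.mem_filter, Finset.mem_powerset]
    exact ⟨Finset.subset_univ _, Finset.sdiff_subset⟩
  · intro W hW
    exact Finset.sdiff_sdiff_eq_self (Finset.mem_filter.1 hW).2
  · intro W hW
    exact Finset.sdiff_sdiff_eq_self (Finset.mem_powerset.1 hW)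
  · intro W hW
    have hW' := (Finset.mem_filter.1 hW).2
    rw [kap_crk]
    congr 3
    ext i j
    rw [Matrix.add_apply, Matrix.add_apply, remM_apply, remM_apply, if_neg (by simp),
      if_neg (by simp), Matrix.add_apply, add_assoc]
    congr 1
    unfold dg
    rw [Matrix.diagonal_apply, Matrix.diagonal_apply, Matrix.diagonal_apply]
    by_cases hij : i = j
    · rw [if_pos hij, if_pos hij, if_pos hij]
      by_cases h6 : i ∈ J
      · have h7 : i ∉ W := fun h => (Finset.mem_sdiff.1 (hW' h)).2 h6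
        rw [if_pos h6, if_pos (Finset.mem_sdiff.2 ⟨Finset.mem_univ i, h7⟩), if_neg, add_zero]
        exact fun h => (Finset.mem_sdiff.1 (Finset.mem_sdiff.1 h).1).2 h6
      · rw [if_neg h6, zero_add]
        refine if_congr ?_ rfl rfl
        rw [Finset.mem_sdiff, Finset.mem_sdiff, Finset.mem_sdiff]
        constructor
        · exact fun h => ⟨⟨Finset.mem_univ i, h6⟩, h.2⟩
        · exact fun h => ⟨Finset.mem_univ i, h.2⟩
    · rw [if_neg hij, if_neg hij, if_neg hij, add_zero]

/-- vectors in the kernel are supported in `J` -/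
theorem ker_support (N : Matrix (Fin n) (Fin n) (ZMod 2)) (J : Finset (Fin n))
    (x : Fin n → ZMod 2) (hx : (remM N (Finset.univ \ J)).mulVec x = 0) (c : Fin n)
    (hc : c ∉ J) : x c = 0 := by
  have h6 : ((remM N (Finset.univ \ J)).mulVec x) c = x c := by
    show ∑ j, remM N (Finset.univ \ J) c j * x j = x c
    have hcR : c ∈ Finset.univ \ J := Finset.mem_sdiff.2 ⟨Finset.mem_univ c, hc⟩
    rw [Finset.sum_eq_single c]
    · rw [remM_apply, if_pos (Or.inl hcR), if_pos rfl, one_mul]
    · intro i _ hi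
      rw [remM_apply, if_pos (Or.inl hcR), if_neg (Ne.symm hi), zero_mul]
    · intro h
      exact absurd (Finset.mem_univ c) h
  rw [← h6, hx]
  rfl

theorem crk_eq_zero (N : Matrix (Fin n) (Fin n) (ZMod 2)) (J : Finset (Fin n))
    (h : crk (remM N (Finset.univ \ J)) = 0) (x : Fin n → ZMod 2)
    (hx : (remM N (Finset.univ \ J)).mulVec x = 0) : x = 0 := by
  unfold crk at h
  rw [Submodule.finrank_eq_zero] at h
  have h1 : x ∈ LinearMap.ker (remM N (Finset.univ \ J)).mulVecLin := hx
  rw [h, Submodule.mem_bot] at h1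
  exact h1

/-- **The matrix `M + 1` is invertible on `J`** -/
theorem sign_core (M : Matrix (Fin n) (Fin n) (ZMod 2)) (hM : ∀ i j, M i j = M j i)
    (σ : Fin n → Bool) (B : ℕ) (hB : (SS ℤ M σ).coeff.support.card ≤ B)
    (J : Finset (Fin n)) (hinj : Set.InjOn M (J : Set (Fin n)))
    (hev : ∀ F ∈ FL M, ∀ F' ∈ FL M,
      |∑ v ∈ F, tw M σ v - ∑ v ∈ F', tw M σ v| < 2 * ((B : ℤ) + 2) * (M.rank + 1) →
      (Even (F ∩ J.image M).card ↔ Even (F' ∩ J.image M).card)) :
    crk (remM (M + dg J) (Finset.univ \ J)) = 0 := by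
  classical
  obtain ⟨t, ht⟩ := HV_clusterF ℤ M hM σ B hB
    (fun F => if Even (F ∩ J.image M).card then 1 else 0) (by
      intro F hF F' hF' h
      exact if_congr (hev F hF F' hF' h) rfl rfl)
  obtain ⟨m, hm⟩ := PF_eq (K := ℤ) σ
  have hSS := SS_eq (K := ℤ) M hM σ
  rw [hm] at hSS
  -- the sum with signs
  have h1 : ∑ F ∈ (Finset.univ.image M).powerset, Lin.GG M (quJ σ J) Finset.univ (ph ℤ M) F =
      2 * ∑ F ∈ (Finset.univ.image M).powerset,
        C (if Even (F ∩ J.image M).card then (1 : ℤ) else 0) *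
          Lin.GG M (fun c => qu ℤ (σ c)) Finset.univ (ph ℤ M) F -
      ∑ F ∈ (Finset.univ.image M).powerset,
        Lin.GG M (fun c => qu ℤ (σ c)) Finset.univ (ph ℤ M) F := by
    rw [Finset.mul_sum, ← Finset.sum_sub_distrib]
    refine Finset.sum_congr rfl fun F _ => ?_
    rw [← GG_quJ M σ J hinj F]
    split_ifs with h2
    · rw [h2.neg_one_pow, map_one]
      ring
    · rw [(Nat.not_even_iff_odd.1 h2).neg_one_pow, map_zero]
      ring
  have h2 := congrArg evZ h1
  rw [evZ_sign M hM σ J, map_sub, map_mul, ht, map_mul, map_pow, evZ_dl] at h2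
  -- the sum without signs
  have h3 := evZ_sign M hM σ ∅
  have h4 : quJ σ (∅ : Finset (Fin n)) = fun c => qu ℤ (σ c) := by
    funext c
    unfold quJ
    rw [if_neg (Finset.notMem_empty c)]
  have h5 : crk (remM (M + dg ∅) (Finset.univ \ ∅)) = 0 := by
    unfold crk
    rw [Submodule.finrank_eq_zero, eq_bot_iff]
    intro x hx
    rw [Submodule.mem_bot]
    funext c
    exact ker_support (M + dg ∅) ∅ x hx c (Finset.notMem_empty c)
  rw [h4, h5, pow_zero, mul_one] at h3
  rw [h3] at h2
  have h6 : (evZ 2 : ℤ) = 2 := by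
    rw [map_ofNat]
  rw [h6] at h2
  have h7 : ((-2 : ℤ) ^ M.rank) ≠ 0 := pow_ne_zero _ (by norm_num)
  have h8 : (-1 : ℤ) ^ (Finset.univ \ J).card * (-2) ^ crk (remM (M + dg J) (Finset.univ \ J)) =
      2 * evZ t - (-1) ^ (Finset.univ \ (∅ : Finset (Fin n))).card := by
    refine mul_left_cancel₀ h7 ?_
    rw [h2]
    ring
  by_contra h9
  obtain ⟨k, hk⟩ := Nat.exists_eq_succ_of_ne_zero h9
  rw [hk, pow_succ] at h8
  have h10 : ∀ a : ℕ, Odd ((-1 : ℤ) ^ a) := fun a => Odd.pow (by decide)
  have h11 : Odd (2 * evZ t - (-1) ^ (Finset.univ \ (∅ : Finset (Fin n))).card) := by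
    refine Even.sub_odd ⟨evZ t, by ring⟩ (h10 _)
  rw [← h8] at h11
  refine (Int.not_odd_iff_even.2 ?_) h11
  refine ⟨(-1) ^ (Finset.univ \ J).card * (-(-2) ^ k), ?_⟩
  ring

end

end Pool.Agent.NHT
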