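import Pool.Agent.NHT.Defs10
import Pool.Agent.NHT.Defs3

/-!
# NHT: the number of components when one crossing of every class of `J` is removed (helper39)
-/

set_option autoImplicit false

namespace Pool.Agent.NHT

open Pool.Agent.SPT Pool.Agent.EQT Pool.Agent.FHP Pool.Agent.Helper16.Knotoid

variable {n : ℕ}

open GaussJones in
/-- The edges `p` and `q` are joined at a crossing `i`, where every crossing in `J` is smoothed in the way
which does not cut its twist class, and all other crossings are kept: at a crossing which is not in `J`
both strands go straight on; at a crossing in `J` whose cut smoothing does not respect the orientation,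
each arriving edge is joined with the edge leaving the other passage; at a crossing in `J` whose cut
smoothing respects the orientation, the two arriving edges are joined, and so are the two leaving
edges. -/
def JoinedUncut (g : Code n) (J : Finset (Fin n)) (p q : Fin (2 * n)) : Prop :=
  ∃ i : Fin n,
    (i ∉ J ∧ ((p = inEdge g (i, false) ∧ q = outEdge g (i, false)) ∨
      (p = inEdge g (i, true) ∧ q = outEdge g (i, true)))) ∨
    (i ∈ J ∧ cutAll (Interlaced g) i = false ∧
      ((p = inEdge g (i, false) ∧ q = outEdge g (i, true)) ∨
        (p = inEdge g (i, true) ∧ q = outEdge g (i, false)))) ∨
    (i ∈ J ∧ cutAll (Interlaced g) i = true ∧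
      ((p = inEdge g (i, false) ∧ q = inEdge g (i, true)) ∨
        (p = outEdge g (i, false) ∧ q = outEdge g (i, true))))

/-- The number of components of the link which is obtained from the knot diagram with the Gauss code `g`
if every crossing in `J` is smoothed in the way which does not cut its twist class.  If `J` contains one
crossing of each of some twist classes, this is the number of components which the link has if one
crossing of each of these classes is removed (or if one crossing is added to each of them). -/
noncomputable def changeOne (g : GaussJones.Code n) (J : Finset (Fin n)) : ℕ :=
  Nat.card (Quot (JoinedUncut g J))

/-- The same number for the closure of a knotoid diagram by an arc between its two ends. -/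
noncomputable def changeOneO (D : GaussDiagram n) (J : Finset (Fin n)) : ℕ := changeOne D.pos J

open Classical in
/-- Every class `i` in `J` belongs to `Z` if and only if it is linked with an odd number of the classes in
`Z`.  Here two classes are linked if they are interlaced, and a class is linked with itself if it contains
two interlaced crossings. -/
def Balanced (I : Fin n → Fin n → Prop) (J Z : Finset (Fin n)) : Prop :=
  ∀ i ∈ J, (i ∈ Z ↔ Odd (Z.filter fun j => I i j ∨ (i = j ∧ ∃ k, Twins I i k ∧ I i k)).card)

end Pool.Agent.NHT
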