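import Mathlib
import Pool.Agent.NHT.Comp
import Pool.Agent.NHT.DefsC
import Pool.Agent.Helper96.GJ.SumStates

/-!
# NHT, module CompK: adding a crossing to every class of a set, knots and knotoids (helper39)
-/

set_option autoImplicit false
set_option linter.unusedSectionVars false

open Module Submodule Pool.Agent.UNI LaurentPolynomial Pool.Agent.SPT Pool.Agent.SPT.Rel
  Pool.Agent.SPT.Lin Pool.Agent.SRH Pool.Agent.EQT Pool.Agent.FHP Pool.Agent.TRA Pool.Agent.TRP

namespace Pool.Agent.NHT

open Pool.Agent.Helper16.Knotoid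

variable {n : ℕ}

/-! ### the matrix -/

/-- a balanced set is a vector in the kernel -/
theorem bal_ker (M : Matrix (Fin n) (Fin n) (ZMod 2)) (J Z : Finset (Fin n)) (hZ : Z ⊆ J)
    (hb : ∀ i ∈ J, ∑ j ∈ Z, M i j = if i ∈ Z then 1 else 0) :
    (remM (M + dg J) (Finset.univ \ J)).mulVec (fun j => if j ∈ Z then 1 else 0) = 0 := by
  classical
  funext i
  show ∑ j, remM (M + dg J) (Finset.univ \ J) i j * (if j ∈ Z then 1 else 0) = 0
  have h1 : ∀ j, remM (M + dg J) (Finset.univ \ J) i j * (if j ∈ Z then 1 else 0) =
      if j ∈ Z then remM (M + dg J) (Finset.univ \ J) i j else 0 := by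
    intro j
    split_ifs
    · rw [mul_one]
    · rw [mul_zero]
  rw [Finset.sum_congr rfl fun j _ => h1 j, Finset.sum_ite_mem, Finset.univ_inter]
  by_cases hi : i ∈ J
  · have h2 : ∀ j ∈ Z, remM (M + dg J) (Finset.univ \ J) i j =
        M i j + if i = j then 1 else 0 := by
      intro j hj
      rw [remM_apply, if_neg]
      · rw [Matrix.add_apply]
        unfold dg
        rw [Matrix.diagonal_apply, if_pos hi]
      · rw [Finset.mem_sdiff, Finset.mem_sdiff]
        rintro (h | h)
        · exact h.2 hi
        · exact h.2 (hZ hj)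
    rw [Finset.sum_congr rfl h2, Finset.sum_add_distrib, hb i hi, Finset.sum_ite_eq]
    split_ifs
    · decide
    · decide
  · refine Finset.sum_eq_zero fun j hj => ?_
    rw [remM_apply, if_pos (Or.inl (Finset.mem_sdiff.2 ⟨Finset.mem_univ i, hi⟩)), if_neg]
    rintro rfl
    exact hi (hZ hj)

/-- the numbers of elements outside and inside of a set of rows -/
theorem card_out (M : Matrix (Fin n) (Fin n) (ZMod 2)) (J : Finset (Fin n))
    (hinj : Set.InjOn M (J : Set (Fin n))) (F : Finset (Fin n → ZMod 2)) :
    (J.filter fun i => M i ∉ F).card + (F ∩ J.image M).card = J.card := by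
  classical
  have h1 : F ∩ J.image M = (J.filter fun i => M i ∈ F).image M := by
    ext v
    rw [Finset.mem_inter, Finset.mem_image, Finset.mem_image]
    constructor
    · rintro ⟨hv, i, hi, rfl⟩
      exact ⟨i, Finset.mem_filter.2 ⟨hi, hv⟩, rfl⟩
    · rintro ⟨i, hi, rfl⟩
      rw [Finset.mem_filter] at hi
      exact ⟨hi.2, i, hi.1, rfl⟩
  rw [h1, Finset.card_image_of_injOn
    (hinj.mono (Finset.coe_subset.2 (Finset.filter_subset _ _))), add_comm]
  exact Finset.card_filter_add_card_filter_not _

/-! ### diagrams -/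

/-- **The matrix `M + 1` is invertible on `J`** -/
theorem comp_close (D : GaussDiagram n) (S : Finset (Fin n)) (hS : Transversal D.Interlaced S)
    (J : Finset (Fin n)) (hJ : J ⊆ S) (B : ℕ) (Cyc : Finset (Fin n) → Prop)
    (hblock : Block S Cyc (row (Graph_R D.Interlaced D.sign)))
    (hev : EvenOn S J Cyc (cutTwist D.Interlaced D.sign) (2 * (B + 2) * (S.card + 1)))
    (hB : D.normalizedBracket.coeff.support.card ≤ B) :
    crk (remM (D.gmat (cutState D.Interlaced D.sign) + dg J) (Finset.univ \ J)) = 0 := by
  classical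
  have har : (fun i => twist (Graph_R D.Interlaced D.sign) (cutState D.Interlaced D.sign)
      (row (Graph_R D.Interlaced D.sign) i)) = cutTwist D.Interlaced D.sign :=
    funext fun i => twist_row (Graph_irrefl D) (Graph_int_symm D) i
  rw [← har] at hev
  obtain ⟨σ, hσ⟩ : ∃ σ, σ = cutState D.Interlaced D.sign := ⟨_, rfl⟩
  rw [← hσ]
  have hR : Graph_R D.Interlaced D.sign = D.Cut σ := by
    rw [hσ]
    rfl
  have hr : ∀ c, row (Graph_R D.Interlaced D.sign) c = D.gmat σ c := by
    intro c
    rw [hR]
    exact row_eq D σ c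
  have hr' : row (Graph_R D.Interlaced D.sign) = fun c => D.gmat σ c := funext hr
  have hrows : S.image (row (Graph_R D.Interlaced D.sign)) =
      (Finset.univ.image (D.gmat σ)).erase 0 := by
    rw [← Graph_image (Graph_irrefl D) (Graph_int_symm D) hS]
    unfold rows
    rw [hr']
  have htw : ∀ v, twist (Graph_R D.Interlaced D.sign) σ v = tw (D.gmat σ) σ v := by
    intro v
    unfold twist tw SPT.signedCount
    refine Finset.sum_congr ?_ fun _ _ => rfl
    ext c
    rw [Finset.mem_filter, Finset.mem_filter, hr]
  have hinjS : Set.InjOn (row (Graph_R D.Interlaced D.sign)) (S : Set (Fin n)) :=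
    Graph_inj (e := D.sign) (Graph_irrefl D) (Graph_int_symm D) hS
  have hinj : Set.InjOn (D.gmat σ) (J : Set (Fin n)) := by
    intro i hi j hj h
    exact hinjS (hJ hi) (hJ hj) (by rw [hr, hr]; exact h)
  have hrank : (D.gmat σ).rank ≤ S.card := by
    have h1 := SRH.rank_le D σ
    rw [← hR, Graph_image (Graph_irrefl D) (Graph_int_symm D) hS] at h1
    exact h1.trans Finset.card_image_le
  have hN' : 2 * (B + 2) * ((D.gmat σ).rank + 1) ≤ 2 * (B + 2) * (S.card + 1) :=
    Nat.mul_le_mul_left _ (by omega)
  -- the cycle set of a flat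
  have hcyc : ∀ F ∈ FL (D.gmat σ), S.filter (fun i => row (Graph_R D.Interlaced D.sign) i ∉ F) ⊆ S ∧
      CycleSet Cyc (S.filter fun i => row (Graph_R D.Interlaced D.sign) i ∉ F) ∧
      (∑ i ∈ S.filter (fun i => row (Graph_R D.Interlaced D.sign) i ∉ F),
        twist (Graph_R D.Interlaced D.sign) (cutState D.Interlaced D.sign)
          (row (Graph_R D.Interlaced D.sign) i) =
        ∑ v ∈ Finset.univ.image (D.gmat σ), tw (D.gmat σ) σ v - ∑ v ∈ F, tw (D.gmat σ) σ v) ∧
      (S.filter (fun i => row (Graph_R D.Interlaced D.sign) i ∉ F) ∩ J).card +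
        (F ∩ J.image (D.gmat σ)).card = J.card := by
    intro F hF
    unfold FL at hF
    rw [Finset.mem_filter, Finset.mem_powerset] at hF
    refine ⟨Finset.filter_subset _ _, ?_, ?_, ?_⟩
    · intro i hi
      rw [Finset.mem_filter] at hi
      refine Block.inCycle hblock F ?_ i hi.1 hi.2
      intro v hv hs
      refine hF.2 v ?_ hs
      rw [hrows] at hv
      exact (Finset.mem_erase.1 hv).2
    · have h1 := sum_out S _ hinjS _ F hrows hF.1 (fun h => hF.2 0 h (zero_mem _))
        (tw (D.gmat σ) σ)
      rw [← h1]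
      refine Finset.sum_congr rfl fun i _ => ?_
      rw [← hσ]
      exact htw _
    · rw [← card_out (D.gmat σ) J hinj F]
      congr 2
      ext i
      rw [Finset.mem_inter, Finset.mem_filter, Finset.mem_filter, hr]
      constructor
      · exact fun h => ⟨h.2, h.1.2⟩
      · exact fun h => ⟨⟨hJ h.1, h.2⟩, h.1⟩
  refine sign_core (D.gmat σ) (D.gmat_symm σ) σ B (card_SSZ D σ B hB) J hinj ?_
  intro F hF F' hF' h
  obtain ⟨h1, h2, h3, h4⟩ := hcyc F hF
  obtain ⟨h1', h2', h3', h4'⟩ := hcyc F' hF'
  have h6 : ∑ i ∈ S.filter (fun i => row (Graph_R D.Interlaced D.sign) i ∉ F),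
      (fun i => twist (Graph_R D.Interlaced D.sign) (cutState D.Interlaced D.sign)
        (row (Graph_R D.Interlaced D.sign) i)) i -
      ∑ i ∈ S.filter (fun i => row (Graph_R D.Interlaced D.sign) i ∉ F'),
      (fun i => twist (Graph_R D.Interlaced D.sign) (cutState D.Interlaced D.sign)
        (row (Graph_R D.Interlaced D.sign) i)) i =
      -(∑ v ∈ F, tw (D.gmat σ) σ v - ∑ v ∈ F', tw (D.gmat σ) σ v) := by
    show (∑ i ∈ _, twist (Graph_R D.Interlaced D.sign) (cutState D.Interlaced D.sign)
        (row (Graph_R D.Interlaced D.sign) i)) - (∑ i ∈ _, twist (Graph_R D.Interlaced D.sign)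
        (cutState D.Interlaced D.sign) (row (Graph_R D.Interlaced D.sign) i)) = _
    rw [h3, h3']
    ring
  have h8 := hev _ _ ⟨h1, h1', h2, h2', by
    rw [h6, abs_neg]
    refine h.trans_le ?_
    have h7 : ((2 * (B + 2) * ((D.gmat σ).rank + 1) : ℕ) : ℤ) ≤
        ((2 * (B + 2) * (S.card + 1) : ℕ) : ℤ) := by exact_mod_cast hN'
    push_cast at h7 ⊢
    exact h7⟩
  rw [← h4'] at h4
  rw [Nat.even_add] at h8
  have h9 : Even ((S.filter (fun i => row (Graph_R D.Interlaced D.sign) i ∉ F) ∩ J).card +
      (F ∩ J.image (D.gmat σ)).card) ↔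
      Even ((S.filter (fun i => row (Graph_R D.Interlaced D.sign) i ∉ F') ∩ J).card +
      (F' ∩ J.image (D.gmat σ)).card) := by
    rw [h4]
  rw [Nat.even_add, Nat.even_add, h8] at h9
  by_cases h10 : Even (S.filter (fun i => row (Graph_R D.Interlaced D.sign) i ∉ F') ∩ J).card
  · exact ⟨fun h11 => (h9.1 ⟨fun _ => h11, fun _ => h10⟩).1 h10,
      fun h11 => (h9.2 ⟨fun _ => h11, fun _ => h10⟩).1 h10⟩
  · constructor
    · intro h11
      by_contra h12
      exact h10 ((h9.2 ⟨fun h => absurd h h10, fun h => absurd h h12⟩).2 h11)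
    · intro h11
      by_contra h12
      exact h10 ((h9.1 ⟨fun h => absurd h h10, fun h => absurd h h12⟩).2 h11)

/-! ### the components -/

/-- the interlacement matrix -/
def N0 (g : GaussJones.Code n) : Matrix (Fin n) (Fin n) (ZMod 2) :=
  (cutOpen g fun _ => true).gmat fun _ => true

theorem gmat_N0 (g : GaussJones.Code n) (e s : Fin n → Bool) :
    (cutOpen g e).gmat s = N0 g + dg (Finset.univ.filter fun i => s i ≠ e i) := by
  classical
  have hirr : ∀ i, ¬ GaussJones.Interlaced g i i := by
    intro i h
    rcases h with h | h <;> exact lt_irrefl _ h.1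
  ext i j
  unfold N0 dg
  rw [Matrix.add_apply, gmat_ite, gmat_ite, Matrix.diagonal_apply]
  have h1 : (cutOpen g e).Cut s i j ↔ GaussJones.Interlaced g i j ∨ (i = j ∧ s i ≠ e i) :=
    (cut_closed g e s i j).symm
  have h2 : (cutOpen g fun _ => true).Cut (fun _ => true) i j ↔ GaussJones.Interlaced g i j := by
    rw [← cut_closed]
    unfold GaussJones.Cut
    constructor
    · rintro (h | ⟨-, h⟩)
      · exact h
      · exact absurd rfl h
    · exact Or.inl
  by_cases hij : i = j
  · subst hij
    rw [if_pos rfl]
    have h3 : ¬ (cutOpen g fun _ => true).Cut (fun _ => true) i i := fun h => hirr i (h2.1 h)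
    rw [if_neg h3, zero_add]
    refine if_congr ?_ rfl rfl
    rw [h1, Finset.mem_filter]
    constructor
    · rintro (h | h)
      · exact absurd h (hirr i)
      · exact ⟨Finset.mem_univ i, h.2⟩
    · exact fun h => Or.inr ⟨rfl, h.2⟩
  · rw [if_neg hij, add_zero]
    refine if_congr ?_ rfl rfl
    rw [h1, h2]
    constructor
    · rintro (h | h)
      · exact h
      · exact absurd h.1 hij
    · exact Or.inl

theorem N0_symm (g : GaussJones.Code n) (i j : Fin n) : N0 g i j = N0 g j i :=
  (cutOpen g fun _ => true).gmat_symm _ i j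

theorem neg_two_inj {a b : ℕ} (h : (-2 : ℤ) ^ a = (-2) ^ b) : a = b := by
  have h1 := congrArg Int.natAbs h
  rw [Int.natAbs_pow, Int.natAbs_pow] at h1
  exact Nat.pow_right_injective (le_refl 2) h1

/-- **The number of components of a partial state** -/
theorem loops3_crk (hn : 0 < n) (g : GaussJones.Code n) : ∀ (k : ℕ) (σ : Fin n → GaussJones.Sm),
    (Finset.univ.filter fun i => σ i = GaussJones.Sm.tra).card = k →
    GaussJones.loops3 g σ = 1 + crk (remM (N0 g)
      (Finset.univ.filter fun i => σ i = GaussJones.Sm.tra) +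
        dg (Finset.univ.filter fun i => σ i = GaussJones.Sm.dis)) := by
  classical
  intro k
  induction k with
  | zero =>
    intro σ hσ
    rw [Finset.card_eq_zero] at hσ
    have hne : ∀ i, σ i ≠ GaussJones.Sm.tra := by
      intro i hi
      have h1 : i ∈ Finset.univ.filter fun i => σ i = GaussJones.Sm.tra :=
        Finset.mem_filter.2 ⟨Finset.mem_univ i, hi⟩
      rw [hσ] at h1
      exact Finset.notMem_empty i h1
    obtain ⟨s, hs⟩ : ∃ s : Fin n → Bool, s = fun i => decide (σ i = GaussJones.Sm.ori) := ⟨_, rfl⟩
    have h1 : GaussJones.trans ∅ s = σ := by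
      funext i
      unfold GaussJones.trans GaussJones.toSm
      rw [if_neg (Finset.notMem_empty i), hs]
      have h2 := hne i
      cases h3 : σ i
      · simp [h3]
      · simp [h3]
      · exact absurd h3 h2
    have h2 := GaussJones.loops_eq g s
    rw [h1] at h2
    rw [← h2]
    have h3 := loops_closed hn g (fun _ => true) s
    have h4 : (fun i => s i == true) = s := by
      funext i
      cases s i <;> rfl
    rw [h4] at h3
    rw [h3, GaussDiagram.comps_eq, gmat_N0, hσ]
    have h5 : remM (N0 g) ∅ = N0 g := by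
      ext i j
      rw [remM_apply, if_neg]
      simp
    rw [h5]
    unfold crk
    have h6 : (Finset.univ.filter fun i => s i ≠ true) =
        Finset.univ.filter fun i => σ i = GaussJones.Sm.dis := by
      ext i
      rw [Finset.mem_filter, Finset.mem_filter, hs]
      have h2 := hne i
      cases h3 : σ i
      · simp [h3]
      · simp [h3]
      · exact absurd h3 h2
    rw [h6]
  | succ k ih =>
    intro σ hσ
    obtain ⟨c, hc⟩ : (Finset.univ.filter fun i => σ i = GaussJones.Sm.tra).Nonempty := by
      rw [← Finset.card_pos, hσ]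
      omega
    have hct : σ c = GaussJones.Sm.tra := (Finset.mem_filter.1 hc).2
    have h3 := GaussJones.three_term g σ c
    have h4 : Function.update σ c GaussJones.Sm.tra = σ := by
      rw [← hct]
      exact Function.update_eq_self c σ
    rw [h4] at h3
    obtain ⟨R, hR⟩ : ∃ R, R = (Finset.univ.filter fun i => σ i = GaussJones.Sm.tra).erase c :=
      ⟨_, rfl⟩
    obtain ⟨D, hD⟩ : ∃ D, D = Finset.univ.filter fun i => σ i = GaussJones.Sm.dis := ⟨_, rfl⟩
    have hRc : insert c R = Finset.univ.filter fun i => σ i = GaussJones.Sm.tra := by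
      rw [hR]
      exact Finset.insert_erase hc
    have hcD : c ∉ D := by
      rw [hD, Finset.mem_filter, hct]
      exact fun h => by cases h.2
    have hRk : R.card = k := by
      rw [hR, Finset.card_erase_of_mem hc, hσ]
      omega
    have ht : ∀ x : GaussJones.Sm, x ≠ GaussJones.Sm.tra →
        (Finset.univ.filter fun i => Function.update σ c x i = GaussJones.Sm.tra) = R := by
      intro x hx
      ext i
      rw [hR, Finset.mem_filter, Finset.mem_erase, Finset.mem_filter]
      by_cases hic : i = c
      · subst hic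
        rw [Function.update_self]
        exact ⟨fun h => absurd h.2 hx, fun h => absurd rfl h.1⟩
      · rw [Function.update_of_ne hic]
        exact ⟨fun h => ⟨hic, h⟩, fun h => h.2⟩
    have hd1 : (Finset.univ.filter fun i => Function.update σ c GaussJones.Sm.ori i =
        GaussJones.Sm.dis) = D := by
      ext i
      rw [hD, Finset.mem_filter, Finset.mem_filter]
      by_cases hic : i = c
      · subst hic
        rw [Function.update_self, hct]
        exact ⟨fun h => (by cases h.2), fun h => (by cases h.2)⟩
      · rw [Function.update_of_ne hic]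
    have hd2 : (Finset.univ.filter fun i => Function.update σ c GaussJones.Sm.dis i =
        GaussJones.Sm.dis) = insert c D := by
      ext i
      rw [Finset.mem_insert, hD, Finset.mem_filter, Finset.mem_filter]
      by_cases hic : i = c
      · subst hic
        rw [Function.update_self]
        exact ⟨fun _ => Or.inl rfl, fun _ => ⟨Finset.mem_univ i, rfl⟩⟩
      · rw [Function.update_of_ne hic]
        exact ⟨fun h => Or.inr h, fun h => h.resolve_left hic⟩
    have e1 := ih (Function.update σ c GaussJones.Sm.ori) (by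
      rw [ht _ (by intro h; cases h)]
      exact hRk)
    have e2 := ih (Function.update σ c GaussJones.Sm.dis) (by
      rw [ht _ (by intro h; cases h)]
      exact hRk)
    rw [ht _ (by intro h; cases h), hd1] at e1
    rw [ht _ (by intro h; cases h), hd2] at e2
    have h5 := crk_three (remM (N0 g) R + dg D) (remM_symm (N0 g) (N0_symm g) R D) c
    rw [add_assoc (remM (N0 g) R), dg_insert D c hcD, remM_insert (N0 g) R D c hcD] at h5
    rw [e1, e2, pow_add, pow_add] at h3
    rw [← hRc, ← hD]
    refine neg_two_inj ?_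
    rw [pow_add]
    linear_combination h3 - (-2) ^ 1 * h5

/-- the partial state which does not cut the crossings in `J` -/
noncomputable def smJ (g : GaussJones.Code n) (J : Finset (Fin n)) (i : Fin n) : GaussJones.Sm :=
  if i ∈ J then
    (if cutAll (GaussJones.Interlaced g) i = true then GaussJones.Sm.dis else GaussJones.Sm.ori)
    else GaussJones.Sm.tra

theorem changeOne_loops3 (g : GaussJones.Code n) (J : Finset (Fin n)) :
    changeOne g J = GaussJones.loops3 g (smJ g J) := by
  unfold changeOne GaussJones.loops3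
  congr 2
  funext p q
  unfold JoinedUncut GaussJones.Joined3 smJ
  apply propext
  refine exists_congr fun i => ?_
  by_cases h1 : i ∈ J
  · cases h2 : cutAll (GaussJones.Interlaced g) i <;> simp [h1]
  · simp [h1]

theorem changeOne_crk (hn : 0 < n) (g : GaussJones.Code n) (e : Fin n → Bool)
    (J : Finset (Fin n)) : changeOne g J = 1 + crk (remM
      ((cutOpen g e).gmat (cutState (GaussJones.Interlaced g) e) + dg J) (Finset.univ \ J)) := by
  classical
  rw [changeOne_loops3]
  unfold smJ
  rw [loops3_crk hn g _ _ rfl]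
  congr 2
  have hcut : ∀ i, cutState (GaussJones.Interlaced g) e i ≠ e i ↔
      ¬ cutAll (GaussJones.Interlaced g) i = true := by
    intro i
    rw [Graph_cut]
    unfold cutAll
    by_cases h : ∃ j, Twins (GaussJones.Interlaced g) i j ∧ GaussJones.Interlaced g i j
    · rw [if_pos h]
      constructor
      · intro _ h1
        cases h1
      · intro _
        exact h
    · rw [if_neg h]
      exact ⟨fun h' => absurd h' h, fun h' => absurd rfl h'⟩
  have hR : (Finset.univ.filter fun i => (if i ∈ J then
      (if cutAll (GaussJones.Interlaced g) i = true then GaussJones.Sm.dis else GaussJones.Sm.ori)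
      else GaussJones.Sm.tra) = GaussJones.Sm.tra) = Finset.univ \ J := by
    ext i
    rw [Finset.mem_filter, Finset.mem_sdiff]
    constructor
    · rintro ⟨h1, h2⟩
      refine ⟨h1, fun h3 => ?_⟩
      rw [if_pos h3] at h2
      split_ifs at h2
    · rintro ⟨h1, h2⟩
      exact ⟨h1, by rw [if_neg h2]⟩
  have hD : (Finset.univ.filter fun i => (if i ∈ J then
      (if cutAll (GaussJones.Interlaced g) i = true then GaussJones.Sm.dis else GaussJones.Sm.ori)
      else GaussJones.Sm.tra) = GaussJones.Sm.dis) =
      J.filter fun i => cutAll (GaussJones.Interlaced g) i = true := by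
    ext i
    rw [Finset.mem_filter, Finset.mem_filter]
    constructor
    · rintro ⟨-, h2⟩
      by_cases h3 : i ∈ J
      · rw [if_pos h3] at h2
        refine ⟨h3, ?_⟩
        by_contra h4
        rw [if_neg h4] at h2
        cases h2
      · rw [if_neg h3] at h2
        cases h2
    · rintro ⟨h1, h2⟩
      exact ⟨Finset.mem_univ i, by rw [if_pos h1, if_pos h2]⟩
  rw [hR, hD, gmat_N0]
  ext i j
  rw [Matrix.add_apply, remM_apply, remM_apply]
  by_cases hij : i ∈ Finset.univ \ J ∨ j ∈ Finset.univ \ J
  · rw [if_pos hij, if_pos hij]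
    by_cases h1 : i = j
    · subst h1
      unfold dg
      rw [Matrix.diagonal_apply, if_pos rfl, if_pos rfl, if_neg, add_zero]
      intro h2
      rcases hij with h3 | h3 <;>
        exact (Finset.mem_sdiff.1 h3).2 (Finset.mem_filter.1 h2).1
    · unfold dg
      rw [Matrix.diagonal_apply, if_neg h1, if_neg h1, add_zero]
  · rw [if_neg hij, if_neg hij, Matrix.add_apply, Matrix.add_apply, add_assoc]
    congr 1
    rw [Finset.mem_sdiff, Finset.mem_sdiff, not_or] at hij
    have hi : i ∈ J := by
      by_contra h
      exact hij.1 ⟨Finset.mem_univ i, h⟩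
    unfold dg
    rw [Matrix.diagonal_apply, Matrix.diagonal_apply, Matrix.diagonal_apply]
    by_cases h1 : i = j
    · rw [if_pos h1, if_pos h1, if_pos h1, if_pos hi]
      by_cases h2 : cutAll (GaussJones.Interlaced g) i = true
      · have h4 : i ∈ J.filter fun i => cutAll (GaussJones.Interlaced g) i = true :=
          Finset.mem_filter.2 ⟨hi, h2⟩
        rw [if_pos h4, if_neg, zero_add]
        intro h3
        exact (hcut i).1 (Finset.mem_filter.1 h3).2 h2
      · have h4 : i ∉ J.filter fun i => cutAll (GaussJones.Interlaced g) i = true :=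
          fun h3 => h2 (Finset.mem_filter.1 h3).2
        have h5 : i ∈ Finset.univ.filter fun i => cutState (GaussJones.Interlaced g) e i ≠ e i :=
          Finset.mem_filter.2 ⟨Finset.mem_univ i, (hcut i).2 h2⟩
        rw [if_neg h4, if_pos h5]
        decide
    · rw [if_neg h1, if_neg h1, if_neg h1, add_zero]

/-! ### the theorems -/

theorem changeOne_zero (hn : ¬ 0 < n) (g : GaussJones.Code n) (J : Finset (Fin n)) :
    changeOne g J = 0 := by
  unfold changeOne
  have h1 : IsEmpty (Fin (2 * n)) := by
    have h2 : n = 0 := by omega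
    subst h2
    exact Fin.isEmpty
  have h2 : IsEmpty (Quot (JoinedUncut g J)) := by
    constructor
    intro q
    induction q using Quot.ind with
    | mk a => exact h1.false a
  exact Nat.card_of_isEmpty

/-- **Knot diagrams**: if close cycle sets meet `J` in sets of the same parity, and the link which is
obtained when one crossing of every class of `J` is removed has at least two components, then there are
more than `B` terms. -/
theorem knotComp (g : GaussJones.Code n) (e : Fin n → Bool) (S : Finset (Fin n))
    (hS : Transversal (GaussJones.Interlaced g) S) (J : Finset (Fin n)) (hJ : J ⊆ S) (B : ℕ)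
    (hev : EvenOn S J (HasCycleIn g ∅) (cutTwist (GaussJones.Interlaced g) e)
      (2 * (B + 2) * (S.card + 1)))
    (hc : 2 ≤ changeOne g J) : B < terms (GaussJones.fPoly g e) := by
  classical
  have hn : 0 < n := by
    by_contra h
    rw [changeOne_zero h g J] at hc
    omega
  have hblock := thm_KnotBlock n g e S S hS (Finset.Subset.refl S)
  rw [Finset.sdiff_self] at hblock
  rw [changeOne_crk hn g e J] at hc
  rw [f_closed hn]
  rw [← interlaced_fun g e] at hS hev hblock hc
  by_contra hB
  have h1 := comp_close (cutOpen g e) S hS J hJ B _ hblock hev (not_lt.1 hB)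
  have h2 : (cutOpen g e).sign = e := rfl
  rw [h2] at h1
  omega

/-- **Knotoid diagrams**, with the number of components -/
theorem knotoidComp (D : GaussDiagram n) (S : Finset (Fin n)) (hS : Transversal D.Interlaced S)
    (J : Finset (Fin n)) (hJ : J ⊆ S) (B : ℕ)
    (hev : EvenOn S J (HasCycleInO D ∅) (cutTwist D.Interlaced D.sign)
      (2 * (B + 2) * (S.card + 1)))
    (hc : 2 ≤ changeOneO D J) : B < terms D.normalizedBracket := by
  classical
  unfold changeOneO at hc
  have hn : 0 < n := by
    by_contra h
    rw [changeOne_zero h D.pos J] at hc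
    omega
  have hblock := thm_KnotoidBlock n D S S hS (Finset.Subset.refl S)
  rw [Finset.sdiff_self] at hblock
  by_contra hB
  have h1 := comp_close D S hS J hJ B _ hblock hev (not_lt.1 hB)
  rw [changeOne_crk hn D.pos D.sign J, ← interlaced_fun D.pos D.sign] at hc
  have h2 : cutOpen D.pos D.sign = D := rfl
  rw [h2] at hc
  omega

/-- from the parities to the matrix -/
theorem balanced_sum (D : GaussDiagram n) (J Z : Finset (Fin n)) (hb : Balanced D.Interlaced J Z) :
    ∀ i ∈ J, ∑ j ∈ Z, D.gmat (cutState D.Interlaced D.sign) i j = if i ∈ Z then 1 else 0 := by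
  classical
  intro i hi
  have h1 : ∀ j, D.gmat (cutState D.Interlaced D.sign) i j =
      if D.Interlaced i j ∨ (i = j ∧ ∃ k, Twins D.Interlaced i k ∧ D.Interlaced i k) then 1
      else 0 := by
    intro j
    rw [gmat_ite]
    refine if_congr ?_ rfl rfl
    unfold GaussDiagram.Cut
    rw [Graph_cut]
  rw [Finset.sum_congr rfl fun j _ => h1 j, Finset.sum_boole]
  by_cases h2 : i ∈ Z
  · rw [if_pos h2]
    exact (ZMod.natCast_eq_one_iff_odd).2 ((hb i hi).1 h2)
  · rw [if_neg h2]
    exact (ZMod.natCast_eq_zero_iff_even).2 (Nat.not_odd_iff_even.1 fun h3 => h2 ((hb i hi).2 h3))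

/-- **Knotoid diagrams**, with a balanced set -/
theorem knotoidBal (D : GaussDiagram n) (S : Finset (Fin n)) (hS : Transversal D.Interlaced S)
    (J : Finset (Fin n)) (hJ : J ⊆ S) (B : ℕ)
    (hev : EvenOn S J (HasCycleInO D ∅) (cutTwist D.Interlaced D.sign)
      (2 * (B + 2) * (S.card + 1)))
    (Z : Finset (Fin n)) (hZ : Z ⊆ J) (hne : Z.Nonempty) (hb : Balanced D.Interlaced J Z) :
    B < terms D.normalizedBracket := by
  classical
  have hblock := thm_KnotoidBlock n D S S hS (Finset.Subset.refl S)
  rw [Finset.sdiff_self] at hblock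
  by_contra hB
  have h1 := comp_close D S hS J hJ B _ hblock hev (not_lt.1 hB)
  have h2 := crk_eq_zero _ J h1 _ (bal_ker _ J Z hZ (balanced_sum D J Z hb))
  obtain ⟨z, hz⟩ := hne
  have h3 := congrFun h2 z
  beta_reduce at h3
  rw [if_pos hz] at h3
  exact one_ne_zero h3

/-- **Knot diagrams**, with a balanced set -/
theorem knotBal (g : GaussJones.Code n) (e : Fin n → Bool) (S : Finset (Fin n))
    (hS : Transversal (GaussJones.Interlaced g) S) (J : Finset (Fin n)) (hJ : J ⊆ S) (B : ℕ)
    (hev : EvenOn S J (HasCycleIn g ∅) (cutTwist (GaussJones.Interlaced g) e)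
      (2 * (B + 2) * (S.card + 1)))
    (Z : Finset (Fin n)) (hZ : Z ⊆ J) (hne : Z.Nonempty)
    (hb : Balanced (GaussJones.Interlaced g) J Z) : B < terms (GaussJones.fPoly g e) := by
  classical
  have hn : 0 < n := by
    obtain ⟨z, -⟩ := hne
    exact z.pos
  have hblock := thm_KnotBlock n g e S S hS (Finset.Subset.refl S)
  rw [Finset.sdiff_self] at hblock
  rw [f_closed hn]
  rw [← interlaced_fun g e] at hS hev hblock hb
  by_contra hB
  have h1 := comp_close (cutOpen g e) S hS J hJ B _ hblock hev (not_lt.1 hB)
  have h2 := crk_eq_zero _ J h1 _ (bal_ker _ J Z hZ (balanced_sum (cutOpen g e) J Z hb))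
  obtain ⟨z, hz⟩ := hne
  have h3 := congrFun h2 z
  beta_reduce at h3
  rw [if_pos hz] at h3
  exact one_ne_zero h3

end Pool.Agent.NHT
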