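import Pool.Agent.NHT.Defs10
import Pool.Agent.NHT.Defs3

/-!
# NHT: the 2-adic criterion, definitions (helper38, helper39)
-/

set_option autoImplicit false

namespace Pool.Agent.NHT

open Pool.Agent.SPT Pool.Agent.EQT Pool.Agent.FHP Pool.Agent.Helper16.Knotoid

variable {n : ℕ}

open GaussJones in
/-- The edges `p` and `q` are joined at a crossing `i`, where every crossing in `A` is cut, that is,
smoothed as in the state `cutAll`, and all other crossings are kept: at a crossing which is not in `A`
both strands go straight on; at a crossing in `A` whose cut smoothing respects the orientation, each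
arriving edge is joined with the edge leaving the other passage; at the other crossings in `A` the two
arriving edges are joined, and so are the two leaving edges. -/
def JoinedCut (g : Code n) (A : Finset (Fin n)) (p q : Fin (2 * n)) : Prop :=
  ∃ i : Fin n,
    (i ∉ A ∧ ((p = inEdge g (i, false) ∧ q = outEdge g (i, false)) ∨
      (p = inEdge g (i, true) ∧ q = outEdge g (i, true)))) ∨
    (i ∈ A ∧ cutAll (Interlaced g) i = true ∧
      ((p = inEdge g (i, false) ∧ q = outEdge g (i, true)) ∨
        (p = inEdge g (i, true) ∧ q = outEdge g (i, false)))) ∨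
    (i ∈ A ∧ cutAll (Interlaced g) i = false ∧
      ((p = inEdge g (i, false) ∧ q = inEdge g (i, true)) ∨
        (p = outEdge g (i, false) ∧ q = outEdge g (i, true))))

/-- The number of components of the link `D_A` which is obtained from the knot diagram with the Gauss code
`g` if the crossings in `A` are cut. -/
noncomputable def cutComps (g : GaussJones.Code n) (A : Finset (Fin n)) : ℕ :=
  Nat.card (Quot (JoinedCut g A))

/-- The same number for the closure of a knotoid diagram by an arc between its two ends. -/
noncomputable def cutCompsO (D : GaussDiagram n) (A : Finset (Fin n)) : ℕ := cutComps D.pos A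

/-- There is a function `ψ` from the subsets of `J` to the integers which has the same value for `L ∩ J`
and `L' ∩ J` if `L` and `L'` are close cycle sets, such that the sum of
`(-1) ^ |L| * ψ L * 2 ^ |X| * (-2) ^ (c (J \ X) - 1)` over all `X ⊆ L ⊆ J` is not divisible by
`2 ^ |J|`.  In the application `c A` is the number of components of the link `D_A`. -/
def TwoAdic {ι : Type} [DecidableEq ι] (S J : Finset ι) (CycS : Finset ι → Prop)
    (c : Finset ι → ℕ) (a : ι → ℤ) (N : ℕ) : Prop :=
  ∃ ψ : Finset ι → ℤ, (∀ L L', Close S CycS a N L L' → ψ (L ∩ J) = ψ (L' ∩ J)) ∧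
    ¬ (2 : ℤ) ^ J.card ∣ ∑ L ∈ J.powerset, ∑ X ∈ L.powerset,
      (-1) ^ L.card * ψ L * 2 ^ X.card * (-2) ^ (c (J \ X) - 1)

end Pool.Agent.NHT
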