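import Mathlib
import Pool.Agent.NHT.CompK
import Pool.Agent.NHT.DefsW

/-!
# NHT, module CompW: the number of components of the link `D_A` (helper39)

The number of components of the link `D_A` is one more than the corank of the cut matrix of `A`.
-/

set_option autoImplicit false
set_option linter.unusedSectionVars false

open Module Submodule Pool.Agent.UNI LaurentPolynomial Pool.Agent.SPT Pool.Agent.SPT.Rel
  Pool.Agent.SPT.Lin Pool.Agent.SRH Pool.Agent.EQT Pool.Agent.FHP Pool.Agent.TRA Pool.Agent.TRP

namespace Pool.Agent.NHT

open Pool.Agent.Helper16.Knotoid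

variable {n : ℕ}

/-- the partial state which cuts the crossings in `A` -/
noncomputable def smA (g : GaussJones.Code n) (A : Finset (Fin n)) (i : Fin n) : GaussJones.Sm :=
  if i ∈ A then
    (if cutAll (GaussJones.Interlaced g) i = true then GaussJones.Sm.ori else GaussJones.Sm.dis)
    else GaussJones.Sm.tra

theorem cutComps_loops3 (g : GaussJones.Code n) (A : Finset (Fin n)) :
    cutComps g A = GaussJones.loops3 g (smA g A) := by
  unfold cutComps GaussJones.loops3
  congr 2
  funext p q
  unfold JoinedCut GaussJones.Joined3 smA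
  apply propext
  refine exists_congr fun i => ?_
  by_cases h1 : i ∈ A
  · cases h2 : cutAll (GaussJones.Interlaced g) i <;> simp [h1]
  · simp [h1]

/-- **The number of components of `D_A`, knot diagrams** -/
theorem cutComps_crk (hn : 0 < n) (g : GaussJones.Code n) (e : Fin n → Bool)
    (A : Finset (Fin n)) : cutComps g A = 1 + crk (remM
      ((cutOpen g e).gmat (cutState (GaussJones.Interlaced g) e)) (Finset.univ \ A)) := by
  classical
  rw [cutComps_loops3]
  unfold smA
  rw [loops3_crk hn g _ _ rfl]
  congr 2
  have hcut : ∀ i, cutState (GaussJones.Interlaced g) e i ≠ e i ↔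
      ¬ cutAll (GaussJones.Interlaced g) i = true := by
    intro i
    rw [Graph_cut]
    unfold cutAll
    by_cases h : ∃ j, Twins (GaussJones.Interlaced g) i j ∧ GaussJones.Interlaced g i j
    · rw [if_pos h]
      constructor
      · intro _ h1
        cases h1
      · intro _
        exact h
    · rw [if_neg h]
      exact ⟨fun h' => absurd h' h, fun h' => absurd rfl h'⟩
  have hR : (Finset.univ.filter fun i => (if i ∈ A then
      (if cutAll (GaussJones.Interlaced g) i = true then GaussJones.Sm.ori else GaussJones.Sm.dis)
      else GaussJones.Sm.tra) = GaussJones.Sm.tra) = Finset.univ \ A := by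
    ext i
    rw [Finset.mem_filter, Finset.mem_sdiff]
    constructor
    · rintro ⟨h1, h2⟩
      refine ⟨h1, fun h3 => ?_⟩
      rw [if_pos h3] at h2
      split_ifs at h2
    · rintro ⟨h1, h2⟩
      exact ⟨h1, by rw [if_neg h2]⟩
  have hD : (Finset.univ.filter fun i => (if i ∈ A then
      (if cutAll (GaussJones.Interlaced g) i = true then GaussJones.Sm.ori else GaussJones.Sm.dis)
      else GaussJones.Sm.tra) = GaussJones.Sm.dis) =
      A.filter fun i => ¬ cutAll (GaussJones.Interlaced g) i = true := by
    ext i
    rw [Finset.mem_filter, Finset.mem_filter]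
    constructor
    · rintro ⟨-, h2⟩
      by_cases h3 : i ∈ A
      · rw [if_pos h3] at h2
        refine ⟨h3, fun h4 => ?_⟩
        rw [if_pos h4] at h2
        cases h2
      · rw [if_neg h3] at h2
        cases h2
    · rintro ⟨h1, h2⟩
      exact ⟨Finset.mem_univ i, by rw [if_pos h1, if_neg h2]⟩
  rw [hR, hD, gmat_N0]
  ext i j
  rw [Matrix.add_apply, remM_apply, remM_apply]
  by_cases hij : i ∈ Finset.univ \ A ∨ j ∈ Finset.univ \ A
  · rw [if_pos hij, if_pos hij]
    unfold dg
    rw [Matrix.diagonal_apply]
    by_cases h1 : i = j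
    · subst h1
      have h2 : i ∉ A := by
        rcases hij with h3 | h3 <;> exact (Finset.mem_sdiff.1 h3).2
      rw [if_pos rfl, if_pos rfl, if_neg fun h => h2 (Finset.mem_filter.1 h).1, add_zero]
    · rw [if_neg h1, if_neg h1, add_zero]
  · rw [if_neg hij, if_neg hij, Matrix.add_apply]
    congr 1
    rw [Finset.mem_sdiff, Finset.mem_sdiff, not_or] at hij
    have hi : i ∈ A := by
      by_contra h
      exact hij.1 ⟨Finset.mem_univ i, h⟩
    unfold dg
    rw [Matrix.diagonal_apply, Matrix.diagonal_apply]
    by_cases h1 : i = j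
    · rw [if_pos h1, if_pos h1]
      refine if_congr ?_ rfl rfl
      rw [Finset.mem_filter, Finset.mem_filter, hcut]
      exact ⟨fun h => ⟨Finset.mem_univ i, h.2⟩, fun h => ⟨hi, h.2⟩⟩
    · rw [if_neg h1, if_neg h1]

/-- **The number of components of `D_A`, knotoid diagrams** -/
theorem cutCompsO_crk (hn : 0 < n) (D : GaussDiagram n) (A : Finset (Fin n)) :
    cutCompsO D A = 1 + crk (remM (D.gmat (cutState D.Interlaced D.sign)) (Finset.univ \ A)) := by
  unfold cutCompsO
  rw [cutComps_crk hn D.pos D.sign A, ← interlaced_fun D.pos D.sign]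
  rfl

/-- the same for the knotoid diagram obtained by cutting a knot diagram open -/
theorem cutComps_open (g : GaussJones.Code n) (e : Fin n → Bool) (A : Finset (Fin n)) :
    cutCompsO (cutOpen g e) A = cutComps g A := rfl

end Pool.Agent.NHT
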