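import Pool.Agent.NHT.Defs12
import Pool.Agent.NHT.Class10

/-!
# NHT, version 12: the blocks (captain: helper38)

`J` is a set of classes, `Cyc C` says that the classes in `C` contain a cycle of the graph of `J`, `a i`
is the twist number of the class of `i`, and `p i` is the label of the class of `i` (for instance the
number of its block).
-/

set_option autoImplicit false

namespace Pool.Agent.NHT

open Pool.Agent.SPT Pool.Agent.EQT Pool.Agent.FHP Pool.Agent.TRA Pool.Agent.TRP

variable {ι V : Type} [DecidableEq ι] [DecidableEq V] [AddCommGroup V] [Module (ZMod 2) V]

/-- One of the alternatives (a), (b), (c), (d) for the classes with the label `q`.  Two cycle sets of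
these classes are close if their total twist numbers differ by less than `T`.

(a) the classes with a twist number less than `T` in absolute value contain no cycle, and there are at
most `9` classes, or they have cycle rank at most `5`, or contain no forest of more than `3` classes, or
they are series-parallel, or there are no six independent differences of close cycle sets (`FewClose`);

(b) `CloseCriterion` holds for these classes;

(c) for some integer `s` the sum of the twist numbers is `s` for an odd number of the unions of disjoint
cycles, and differs from `s` by at least `T` for the others (`OddBlock`; for instance `s = 0`, if the sum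
is at least `T` in absolute value for each nonempty union of disjoint cycles);

(d) there is a set `O` of these classes such that close cycle sets meet `O` in sets whose numbers of
classes have the same parity, and the others contain at most one cycle, and this cycle has a class with a
twist number which is at least `T` in absolute value (`OneCycleF`). -/
def GoodBlock12 (J : Finset ι) (Cyc : Finset ι → Prop) (w : ι → V) (a : ι → ℤ) (p : ι → ℕ)
    (T q : ℕ) : Prop :=
  (¬ Cyc (J.filter fun i => p i = q ∧ |a i| < T) ∧
      (SmallPart J Cyc w p 9 5 3 q ∨ FewClose J Cyc a p T q)) ∨
    CloseCriterion (J.filter fun i => p i = q) (J.filter fun i => p i = q) Cyc Cyc a T ∨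
    OddBlock J Cyc a p T q ∨ OneCycleF J Cyc a p T q

/-- The classes in `J` are labelled without dividing the cycles of the graph of `J` (for instance by the
blocks), and for each label one of the alternatives of `GoodBlock12` holds, where
`T = (|J| + 1)! (N + ∑ |a j|)`, with the sum over the classes which are not in `J`. -/
def GoodBlocks (S J : Finset ι) (Cyc : Finset ι → Prop) (w : ι → V) (a : ι → ℤ) (N : ℕ) : Prop :=
  ∃ p : ι → ℕ, Splits J Cyc p ∧
    ∀ q, GoodBlock12 J Cyc w a p ((J.card + 1).factorial * (N + ∑ j ∈ S \ J, (a j).natAbs)) q

end Pool.Agent.NHT
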