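import Pool.Agent.NHT.Defs3

/-!
# NHT: sets `J` of classes such that `D_J` is a knot (helper68)
-/

set_option autoImplicit false

namespace Pool.Agent.NHT

open Pool.Agent.SPT Pool.Agent.EQT Pool.Agent.FHP Pool.Agent.TRA Pool.Agent.TRP
open Pool.Agent.Helper16.Knotoid

variable {n : ℕ}

open Classical in
/-- An odd number of the states of `D_J` have one closed curve.  In other words, the determinant of `D_J`
is odd, that is, `D_J` is a diagram of a knot. -/
def OddDet (g : GaussJones.Code n) (J : Finset (Fin n)) : Prop :=
  Odd (Finset.univ.filter fun s : Fin n → Bool => Cuts g J s ∧ GaussJones.loops g s = 1).card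

open Classical in
/-- An odd number of the states of `D_J` have one component.  In other words, the determinant of `D_J`
is odd, that is, `D_J` is a knotoid diagram (without closed components). -/
def OddDetO (D : GaussDiagram n) (J : Finset (Fin n)) : Prop :=
  Odd (Finset.univ.filter fun s : Fin n → Bool => CutsO D J s ∧ D.comps s = 1).card

end Pool.Agent.NHT
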