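import Pool.Agent.NHT.Defs3

/-!
# NHT: smoothing the classes of `J` (helper38, helper11)

`U` is a subset of a set `J` of crossings, one of each of some twist classes.  In the diagram
`D ^ (J, U)` the crossings in `U` are cut, and all other crossings of the classes of `J` are smoothed in
the other way.
-/

set_option autoImplicit false

open LaurentPolynomial

namespace Pool.Agent.NHT

open Pool.Agent.SPT Pool.Agent.EQT Pool.Agent.FHP Pool.Agent.TRA Pool.Agent.TRP
open Pool.Agent.Helper16.Knotoid

variable {n : ℕ}

/-- `c` belongs to the class of a crossing in `J` -/
def InClass (I : Fin n → Fin n → Prop) (J : Finset (Fin n)) (c : Fin n) : Prop :=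
  ∃ i ∈ J, Twins I c i

open Classical in
/-- The Kauffman bracket of the diagram `D ^ (J, U)`.  It is obtained from the diagram by smoothing all
crossings of the classes of `J`: those in `U` (one for each class of `U`) are cut, as in the state
`cutAll`, the others are smoothed in the other way.  The sum is over the states of the diagram with these
smoothings, and the product is over the crossings which are not smoothed. -/
noncomputable def smoothK (g : GaussJones.Code n) (e : Fin n → Bool) (J U : Finset (Fin n)) :
    ℤ[T;T⁻¹] :=
  ∑ s : Fin n → Bool, if ∀ c, InClass (GaussJones.Interlaced g) J c →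
      (s c = cutAll (GaussJones.Interlaced g) c ↔ c ∈ U) then
    (∏ c ∈ Finset.univ.filter (fun c => ¬ InClass (GaussJones.Interlaced g) J c),
      if s c = e c then T 1 else T (-1)) * (-(T 2 + T (-2))) ^ (GaussJones.loops g s - 1)
    else 0

open Classical in
/-- The bracket of the diagram `D ^ (J, U)`.  It is obtained from the diagram by smoothing all crossings
of the classes of `J`: those in `U` (one for each class of `U`) are cut, as in the state `cutState`, the
others are smoothed in the other way.  The sum is over the states of the diagram with these smoothings,
and the exponent of `A` is the sum over the crossings which are not smoothed. -/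
noncomputable def smoothO (D : GaussDiagram n) (J U : Finset (Fin n)) : ℤ[T;T⁻¹] :=
  ∑ s : Fin n → Bool, if ∀ c, InClass D.Interlaced J c →
      (s c = cutState D.Interlaced D.sign c ↔ c ∈ U) then
    T (∑ c ∈ Finset.univ.filter (fun c => ¬ InClass D.Interlaced J c), if s c then 1 else -1) *
      (-T 2 - T (-2)) ^ (D.comps s - 1)
    else 0

end Pool.Agent.NHT
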