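import Pool.Agent.NHT.Defs10
import Pool.Agent.PMT.Defs

/-!
# NHT: integers which respect the close cycle sets, definitions (helper19, helper38)

`S` contains one crossing of every twist class, `a i` is the signed twist number of the class of `i`
(`cutTwist`), `J` is a set of classes, `CycS C` says that the classes in `C` contain a cycle of the graph
of all classes, `Cyc C` says this for the graph of `J`, and `p i` is the label of the class of `i` (for
instance the number of its block).
-/

set_option autoImplicit false

namespace Pool.Agent.NHT

open Pool.Agent.SPT Pool.Agent.TRA Pool.Agent.TRP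

variable {ι V : Type} [DecidableEq ι] [DecidableEq V] [AddCommGroup V] [Module (ZMod 2) V]

/-- The integers `u i` respect the close cycle sets: their sum over `L ∩ J` is the same as their sum over
`L' ∩ J` if `L` and `L'` are close. -/
def Respects (S J : Finset ι) (CycS : Finset ι → Prop) (a : ι → ℤ) (N : ℕ) (u : ι → ℤ) : Prop :=
  ∀ L L', Close S CycS a N L L' → ∑ i ∈ L ∩ J, u i = ∑ i ∈ L' ∩ J, u i

/-- `L` and `L'` are cycle sets of classes in `Q` with the same sum of the integers `u i`. -/
def SameSum (Q : Finset ι) (Cyc : Finset ι → Prop) (u : ι → ℤ) (L L' : Finset ι) : Prop :=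
  L ⊆ Q ∧ L' ⊆ Q ∧ CycleSet Cyc L ∧ CycleSet Cyc L' ∧ ∑ i ∈ L, u i = ∑ i ∈ L', u i

/-- There are no six differences of (the indicator vectors of) cycle sets in `Q` with the same sum of the
integers `u i` which are linearly independent over the integers. -/
def FewU (Q : Finset ι) (Cyc : Finset ι → Prop) (u : ι → ℤ) : Prop :=
  ¬ ∃ L L' : Fin 6 → Finset ι, (∀ j, SameSum Q Cyc u (L j) (L' j)) ∧
    LinearIndependent ℤ fun j i => (if i ∈ L j then (1 : ℤ) else 0) - if i ∈ L' j then 1 else 0

open Classical in
/-- For some integer `s` there is an odd number of unions `Z` of disjoint cycles of classes in `Q` (the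
empty union is one of them) for which the sum of the integers `u i` is `s`. -/
def OddU (Q : Finset ι) (Cyc : Finset ι → Prop) (u : ι → ℤ) : Prop :=
  ∃ s : ℤ, Odd (Q.powerset.filter fun Z => CycleUnion Cyc Z ∧ ∑ i ∈ Z, u i = s).card

/-- There is a set `O` of classes in `Q` such that the cycle sets in `Q` with the same sum of the
integers `u i` meet `O` in sets whose numbers of classes have the same parity, the classes in `Q` which
are not in `O` contain at most one cycle, and this cycle contains a class with `u i ≠ 0`. -/
def OneU (Q : Finset ι) (Cyc : Finset ι → Prop) (u : ι → ℤ) : Prop :=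
  ∃ O ⊆ Q, (∀ L L', SameSum Q Cyc u L L' → Even ((L ∩ O).card + (L' ∩ O).card)) ∧
    (∀ C C', C ⊆ Q \ O → C' ⊆ Q \ O → MinCycle Cyc C → MinCycle Cyc C' → C = C') ∧
    ¬ Cyc ((Q \ O).filter fun i => u i = 0)

/-- There is a function `ψ` on the sets of classes in `Q` which has the same value for cycle sets with
the same sum of the integers `u i`, and whose sum `cycleSum` is not zero. -/
def PsiU (Q : Finset ι) (Cyc : Finset ι → Prop) (u : ι → ℤ) : Prop :=
  ∃ ψ : Finset ι → ℂ, (∀ L L', SameSum Q Cyc u L L' → ψ L = ψ L') ∧ cycleSum Cyc Q ψ ≠ 0

/-- One of the alternatives (a), (b), (c), (d) for the integers `u i` and the classes with the label `q`: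

(a) those with `u i = 0` contain no cycle, and there are at most `9` classes, or they have cycle rank at
most `5`, or contain no forest of more than `3` classes, or they are series-parallel (`SmallPart`), or
there are no six independent differences of cycle sets with the same sum of the `u i` (`FewU`);

(b) for some integer `s` there is an odd number of unions of disjoint cycles with the sum `s` (`OddU`);

(c) there is a set `O` of these classes such that cycle sets with the same sum of the `u i` meet `O` in
sets whose numbers of classes have the same parity, and the others contain at most one cycle, and this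
cycle has a class with `u i ≠ 0` (`OneU`);

(d) there is a function on the sets of these classes which has the same value for cycle sets with the
same sum of the `u i`, and whose sum `cycleSum` is not zero (`PsiU`). -/
def GoodBlockU (J : Finset ι) (Cyc : Finset ι → Prop) (w : ι → V) (u : ι → ℤ) (p : ι → ℕ)
    (q : ℕ) : Prop :=
  (¬ Cyc ((J.filter fun i => p i = q).filter fun i => u i = 0) ∧
      (SmallPart J Cyc w p 9 5 3 q ∨ FewU (J.filter fun i => p i = q) Cyc u)) ∨
    OddU (J.filter fun i => p i = q) Cyc u ∨ OneU (J.filter fun i => p i = q) Cyc u ∨
    PsiU (J.filter fun i => p i = q) Cyc u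

/-- There are integers `u i` which respect the close cycle sets, and a labelling of the classes in `J`
which does not divide the cycles (for instance by the blocks) such that for each label one of the
alternatives of `GoodBlockU` holds. -/
def UCriterion (S J : Finset ι) (CycS Cyc : Finset ι → Prop) (w : ι → V) (a : ι → ℤ) (N : ℕ) :
    Prop :=
  ∃ u : ι → ℤ, Respects S J CycS a N u ∧
    ∃ p : ι → ℕ, Splits J Cyc p ∧ ∀ q, GoodBlockU J Cyc w u p q

/-- The classes in `J` are labelled without dividing the cycles of the graph of `J` (for instance by the
blocks), and for each label the classes with a twist number less than `T` in absolute value contain no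
cycle, and there are at most `9` classes with this label, or they have cycle rank at most `5`, or contain
no forest of more than `3` classes, or they are series-parallel (`SmallPart`).  Here
`T = (|J| + 1)! (N + ∑ |a j|)`, with the sum over the classes which are not in `J`. -/
def LongBlocks (S J : Finset ι) (Cyc : Finset ι → Prop) (w : ι → V) (a : ι → ℤ) (N : ℕ) : Prop :=
  ∃ p : ι → ℕ, Splits J Cyc p ∧ ∀ q, SmallPart J Cyc w p 9 5 3 q ∧
    ¬ Cyc (J.filter fun i => p i = q ∧
      |a i| < (((J.card + 1).factorial * (N + ∑ j ∈ S \ J, (a j).natAbs) : ℕ) : ℤ))

end Pool.Agent.NHT
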