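import Pool.Agent.NHT.Defs12
import Pool.Agent.NHT.DefsU
import Pool.Agent.NHT.DefsS
import Pool.Agent.NHT.DefsL
import Pool.Agent.NHT.DefsD

/-!
# NHT, version 14: the criteria of the final statement (captain: helper38)

`S` contains one crossing of every twist class, `a i` is the signed twist number of the class of `i`
(`cutTwist`), `J` is a set of classes, `CycS C` says that the classes in `C` contain a cycle of the graph
of all classes, and `Cyc C` says this for the graph of `J`.
-/

set_option autoImplicit false

namespace Pool.Agent.NHT

open Pool.Agent.SPT Pool.Agent.EQT Pool.Agent.FHP Pool.Agent.TRA Pool.Agent.TRP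

variable {ι V : Type} [DecidableEq ι] [DecidableEq V] [AddCommGroup V] [Module (ZMod 2) V]

/-- The total twist number of each nonempty cycle set is at least `N` in absolute value. -/
def LongCycles (S : Finset ι) (CycS : Finset ι → Prop) (a : ι → ℤ) (N : ℕ) : Prop :=
  ∀ L ⊆ S, L.Nonempty → CycleSet CycS L → (N : ℤ) ≤ |∑ i ∈ L, a i|

/-- Every cycle set which is close to a cycle set `L` with `L ∩ J = L₀` meets `J` in `L₀`, too. -/
def IsolatedAt (S J : Finset ι) (CycS : Finset ι → Prop) (a : ι → ℤ) (N : ℕ) (L₀ : Finset ι) :
    Prop :=
  ∀ L L', Close S CycS a N L L' → L ∩ J = L₀ → L' ∩ J = L₀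

/-- **The criterion** for a set `J` of classes is `Separating`: there is a function `ψ` on the subsets of
`J` which has the same value for `L ∩ J` and `L' ∩ J` if `L` and `L'` are close, and whose sum over the
cycle sets (`cycleSum`) is not zero.  The other alternatives are cases of it:

* `NearlyEqual`: the twist numbers of the classes in `J` are nearly equal in absolute value;
* `LongSigned`: they are long, and each class with a positive twist number lies in a cycle of such
  classes (or the same with `negative`);
* `SameParity`: there is a closed set `Λ` of subsets of `J` whose cycle sets have cycle ranks of the same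
  parity (for instance: `Λ` has one element);
* `EvenOn`: close cycle sets meet `J` in sets of the same parity;
* `UCriterion` and `LongBlocks`: there are integers which respect the close cycle sets, and conditions
  for the blocks of the graph of `J`;
* `WeightedOn`: weights. -/
def PsiCriterion (S J : Finset ι) (CycS Cyc : Finset ι → Prop) (w : ι → V) (a : ι → ℤ) (N : ℕ) :
    Prop :=
  NearlyEqual S J a N ∨ LongSigned S J Cyc a N ∨ SameParity S J CycS Cyc a N ∨
    EvenOn S J CycS a N ∨ UCriterion S J CycS Cyc w a N ∨ LongBlocks S J Cyc w a N ∨
    WeightedOn S J CycS Cyc a N ∨ Separating S J CycS Cyc a N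

end Pool.Agent.NHT
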