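import Pool.Agent.NHT.Defs

/-!
# NHT, version 2: definitions (captain: helper38)
-/

set_option autoImplicit false

namespace Pool.Agent.NHT

open Pool.Agent.SPT Pool.Agent.EQT Pool.Agent.FHP Pool.Agent.TRA Pool.Agent.TRP

variable {ι V : Type}

/-- `F` is a largest subset of `P` without cycles. -/
def Largest (Cyc : Finset ι → Prop) (P F : Finset ι) : Prop :=
  ¬ Cyc F ∧ ∀ F' ⊆ P, ¬ Cyc F' → F'.card ≤ F.card

open Classical in
/-- The sum over the largest subsets `F` of `P` without cycles of the products of the numbers `w i`, `i`
in `P` and not in `F`. -/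
noncomputable def treeSum [DecidableEq ι] (Cyc : Finset ι → Prop) (P : Finset ι) (w : ι → ℤ) : ℤ :=
  ∑ F ∈ P.powerset.filter (fun F => Largest Cyc P F), ∏ i ∈ P \ F, w i

/-- There are a set `J` of classes and integers `w i` such that `∑ w i * d i = 0` and `∑ i ∈ J, d i` is
even for all short relations `d` between the twist numbers of the classes with the label `q`, and the
sum over the largest sets `F` without cycles of classes outside of `J` of the products of the `w i`, `i`
outside of `J` and `F`, is not zero. -/
def TreeBlock [DecidableEq ι] (S : Finset ι) (Cyc : Finset ι → Prop) (a : ι → ℤ) (p : ι → ℕ)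
    (T q : ℕ) : Prop :=
  ∃ (J : Finset ι) (w : ι → ℤ),
    (∀ d, Short (S.filter fun i => p i = q) a T d →
      ∑ i ∈ S.filter (fun i => p i = q), w i * d i = 0 ∧ Even (∑ i ∈ J, d i)) ∧
    treeSum Cyc ((S.filter fun i => p i = q) \ J) w ≠ 0

/-- Among the classes with the label `q` there is a set `L` of classes with large twist numbers, at least
`T + ∑ |a j|` in absolute value, where the sum is over the classes which are not in `L`; these contain no
cycle; and each class of `L` with a negative twist number lies in a cycle which contains no class of `L`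
with a positive twist number, or the same with the signs exchanged.  The set `E` of exceptions is empty,
or it contains one class and `L` consists of all classes with the label `q`. -/
def AdequateBlock2 [DecidableEq ι] (S : Finset ι) (Cyc : Finset ι → Prop) (a : ι → ℤ) (p : ι → ℕ)
    (T q : ℕ) : Prop :=
  ∃ L ⊆ S.filter fun i => p i = q, ∃ E : Finset ι,
    (E = ∅ ∨ E.card = 1 ∧ L = S.filter fun i => p i = q) ∧
    (∀ i ∈ L, (T : ℤ) + ∑ j ∈ (S.filter fun i => p i = q) \ L, |a j| ≤ |a i|) ∧
    ¬ Cyc ((S.filter fun i => p i = q) \ L) ∧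
    ((∀ i ∈ L \ E, a i < 0 →
        InCycle Cyc ((S.filter fun i => p i = q) \ L.filter fun j => 0 < a j) i) ∨
      ∀ i ∈ L \ E, 0 < a i →
        InCycle Cyc ((S.filter fun i => p i = q) \ L.filter fun j => a j < 0) i)

/-- one of the three alternatives -/
def GoodBlock2 [DecidableEq ι] [DecidableEq V] [AddCommGroup V] [Module (ZMod 2) V]
    (S : Finset ι) (Cyc : Finset ι → Prop) (w : ι → V) (a : ι → ℤ) (p : ι → ℕ) (T q : ℕ) : Prop :=
  SmallBlock S Cyc w a p T q ∨ TreeBlock S Cyc a p T q ∨ AdequateBlock2 S Cyc a p T q

end Pool.Agent.NHT
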