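import Pool.Agent.NHT.Defs4
import Pool.Agent.SRX.Shape

/-!
# NHT, version 5: diagrams of the same shape (captain: helper38)
-/

set_option autoImplicit false

namespace Pool.Agent.NHT

open Pool.Agent.SPT Pool.Agent.EQT Pool.Agent.FHP Pool.Agent.TRA Pool.Agent.TRP
open Pool.Agent.Helper16.Knotoid

variable {n n' : ℕ}

/-- The knot diagrams with the Gauss codes `g` and `g'` have the same shape: `φ` is a bijection of the
twist classes, and for each set `U` of classes the states which cut the crossings of `U` and no other
crossings have equally many closed curves. -/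
def SameShapeK (g : GaussJones.Code n) (S : Finset (Fin n)) (g' : GaussJones.Code n')
    (S' : Finset (Fin n')) (φ : Fin n → Fin n') : Prop :=
  Set.BijOn φ (S : Set (Fin n)) (S' : Set (Fin n')) ∧
    ∀ U ⊆ S, GaussJones.loops g (SRX.cutOn (cutAll (GaussJones.Interlaced g)) U) =
      GaussJones.loops g' (SRX.cutOn (cutAll (GaussJones.Interlaced g')) (U.image φ))

/-- The knotoid diagrams `D` and `D'` have the same shape: `φ` is a bijection of the twist classes, and
for each set `U` of classes the states which cut the crossings of `U` and no other crossings have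
equally many components. -/
def SameShapeO (D : GaussDiagram n) (S : Finset (Fin n)) (D' : GaussDiagram n')
    (S' : Finset (Fin n')) (φ : Fin n → Fin n') : Prop :=
  Set.BijOn φ (S : Set (Fin n)) (S' : Set (Fin n')) ∧
    ∀ U ⊆ S, D.comps (fun c => SRX.cutOn (cutAll D.Interlaced) U c == D.sign c) =
      D'.comps (fun c => SRX.cutOn (cutAll D'.Interlaced) (U.image φ) c == D'.sign c)

end Pool.Agent.NHT
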