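import Pool.Agent.NHT.DefsW

/-!
# NHT: sets of classes with an even number of ends on each component (helper38, helper39)
-/

set_option autoImplicit false

namespace Pool.Agent.NHT

variable {n : ℕ}

open Classical in
/-- Each component of the link `D_J` contains an even number of the ends of the cut crossings in `L`.
The crossing `c` has two ends: the strand through the edge which arrives at its passage `(c, true)`, and
the strand through the edge which leaves this passage. -/
def EvenEnds (g : GaussJones.Code n) (J L : Finset (Fin n)) : Prop :=
  ∀ q : Quot (JoinedCut g J),
    Even ((L.filter fun c => Quot.mk _ (GaussJones.inEdge g (c, true)) = q).card +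
      (L.filter fun c => Quot.mk _ (GaussJones.outEdge g (c, true)) = q).card)

end Pool.Agent.NHT
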