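import Pool.Agent.NHT.Defs11

/-!
# NHT: few relations between the twist numbers (helper68)

`S` contains one crossing of every twist class, `a i` is the twist number of the class of `i`, and
`CycS C` says that the classes in `C` contain a cycle of the graph of all classes.
-/

set_option autoImplicit false

namespace Pool.Agent.NHT

variable {ι : Type} [DecidableEq ι]

/-- There are `m` pairs of close cycle sets `L`, `L'` such that their differences, that is, the vectors
`1_L + 1_L'` modulo `2`, are linearly independent modulo `2`. -/
def IndependentPairs (S : Finset ι) (CycS : Finset ι → Prop) (a : ι → ℤ) (N m : ℕ) : Prop :=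
  ∃ L L' : Fin m → Finset ι, (∀ j, Close S CycS a N (L j) (L' j)) ∧
    LinearIndependent (ZMod 2) fun (j : Fin m) (i : ι) =>
      (if i ∈ L j then (1 : ZMod 2) else 0) + if i ∈ L' j then 1 else 0

/-- The differences of close cycle sets span modulo `2` a space of dimension less than `r / 2`, where
`r` is the cycle rank of the graph of all classes, or of dimension at most `k / 6`, where `k` is the
number of classes. -/
def FewDifferences (S : Finset ι) (CycS : Finset ι → Prop) (a : ι → ℤ) (N : ℕ) : Prop :=
  (∀ m, cycleRank CycS S ≤ 2 * m → ¬ IndependentPairs S CycS a N m) ∨
    ∀ m, S.card < 6 * m → ¬ IndependentPairs S CycS a N m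

end Pool.Agent.NHT
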