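import Pool.Agent.NHT.DefsF

/-!
# NHT: few relations between the twist numbers of a set of classes (helper68)

`S` contains one crossing of every twist class, `a i` is the twist number of the class of `i`,
`CycS C` says that the classes in `C` contain a cycle of the graph of all classes, `J` is a set of
classes, and `c J` is the number of components of the link `D_J`, in which the classes in `J` are cut.
-/

set_option autoImplicit false

namespace Pool.Agent.NHT

variable {ι : Type} [DecidableEq ι]

/-- There are `m` pairs of close cycle sets `L`, `L'` such that the differences of their traces on `J`,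
that is, the vectors `1_(L ∩ J) + 1_(L' ∩ J)` modulo `2`, are linearly independent modulo `2`. -/
def IndependentTraces (S J : Finset ι) (CycS : Finset ι → Prop) (a : ι → ℤ) (N m : ℕ) : Prop :=
  ∃ L L' : Fin m → Finset ι, (∀ j, Close S CycS a N (L j) (L' j)) ∧
    LinearIndependent (ZMod 2) fun (j : Fin m) (i : ι) =>
      (if i ∈ L j ∩ J then (1 : ZMod 2) else 0) + if i ∈ L' j ∩ J then 1 else 0

/-- The differences of the traces on `J` of close cycle sets, that is, the vectors
`1_(L ∩ J) + 1_(L' ∩ J)` modulo `2`, span a space of dimension less than `(|J| + 1 - c J) / 2`, where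
`c J` is the number of components of the link `D_J`. -/
def FewTraces (S J : Finset ι) (CycS : Finset ι → Prop) (c : Finset ι → ℕ) (a : ι → ℤ) (N : ℕ) : Prop :=
  ∀ m, J.card + 1 ≤ c J + 2 * m → ¬ IndependentTraces S J CycS a N m

/-- The differences of close cycle sets span modulo `2` a space of dimension at most `k / 6`, where `k` is
the number of classes. -/
def FewPairs (S : Finset ι) (CycS : Finset ι → Prop) (a : ι → ℤ) (N : ℕ) : Prop :=
  ∀ m, S.card < 6 * m → ¬ IndependentPairs S CycS a N m

end Pool.Agent.NHT
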