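import Mathlib

/-!
# NHT, definition of the even parts of a set of classes (helper11)
-/

set_option autoImplicit false

namespace Pool.Agent.NHT

open Classical in
/-- `Z` is a part of `J` such that every `i` in `J` is related to an even number of elements of `Z`.  If
`R` is the relation of the cut matrix then these sets belong to the partitions of the components of the
link `D_J` into two parts: `Z` contains the classes at whose cut the two strands belong to components in
different parts. -/
def EvenPart {n : ℕ} (R : Fin n → Fin n → Prop) (J Z : Finset (Fin n)) : Prop :=
  Z ⊆ J ∧ ∀ i ∈ J, Even (Z.filter fun j => R i j).card

end Pool.Agent.NHT
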