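import Pool.Agent.NHT.Defs10

/-!
# NHT, the parity criterion (helper19)

`S` contains one crossing of every twist class, `a i` is the twist number of the class of `i`, `J` is a
set of classes, `CycS C` says that the classes in `C` contain a cycle of the graph of all classes, and `R`
is the relation of the cut matrix.
-/

set_option autoImplicit false

namespace Pool.Agent.NHT

variable {n : ℕ}

open Classical in
/-- The number of elements of `Z ∩ L` is even for each set `Z` in the kernel of the symmetric matrix of the
relation `R` on `J` over the field with two elements, that is, for each `Z ⊆ J` such that each element of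
`J` is related to an even number of elements of `Z`.

If `R` is the relation of the cut matrix then the sets `Z` in the kernel are the sets of classes in `J`
which join two complementary sets of components of the link `D_J`.  So `L` is an even subgraph (each
vertex has an even degree) of the graph whose vertices are the components of the link `D_J` and whose
edges are the classes in `J`. -/
def EvenSub (R : Fin n → Fin n → Prop) (J L : Finset (Fin n)) : Prop :=
  ∀ Z ⊆ J, (∀ i ∈ J, Even (Z.filter fun j => R i j).card) → Even (Z ∩ L).card

/-- Two elements of `J` are related, or an element of `J` is related to itself.  If `R` is the relation of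
the cut matrix then this says that the link `D_J` has at most `|J|` components. -/
def SomeRel (R : Fin n → Fin n → Prop) (J : Finset (Fin n)) : Prop :=
  ∃ i ∈ J, ∃ j ∈ J, R i j

open Classical in
/-- the number of the subsets `L` of `J` which are in `Λ` and even -/
noncomputable def evenCount (R : Fin n → Fin n → Prop) (J : Finset (Fin n))
    (Λ : Finset (Finset (Fin n))) : ℕ :=
  (Λ.filter fun L => L ⊆ J ∧ EvenSub R J L).card

/-- Two elements of `J` are related, and there is a set `Λ` of subsets of `J` with an odd number of even
elements which is closed: if `L` and `L'` are close cycle sets of the graph of all classes, and `L ∩ J` is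
in `Λ`, then `L' ∩ J` is in `Λ`.  For instance `Λ` contains only the empty set, or `D_J` is a knot, and
`Λ` has only one element. -/
def ParityCriterion (S J : Finset (Fin n)) (CycS : Finset (Fin n) → Prop)
    (R : Fin n → Fin n → Prop) (a : Fin n → ℤ) (N : ℕ) : Prop :=
  SomeRel R J ∧ ∃ Λ : Finset (Finset (Fin n)),
    (∀ L L', Close S CycS a N L L' → L ∩ J ∈ Λ → L' ∩ J ∈ Λ) ∧ Odd (evenCount R J Λ)

end Pool.Agent.NHT
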