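import Mathlib
import Pool.Agent.TRJ.Weighted

/-!
# NHT, module Disc: a neighbourhood of the real box without zeros (helper46)

The polynomial of the spanning sets is not zero at the point `x` if for some real point `y` with
`-1 ≤ y v < 1` the product of the numbers `1 + |x v - y v| / |1 - x v|` is less than `2`.
-/

set_option autoImplicit false
set_option linter.unusedSectionVars false

open Submodule Module

namespace Pool.Agent.NHT

open Pool.Agent.SPT Pool.Agent.SPT.Odd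

variable {V : Type} [AddCommGroup V] [Module (ZMod 2) V] [DecidableEq V]

open Classical in
/-- the sum over the subsets of `X` which span `V'` together with `K`, in the coordinates
`α = 1 / (1 - x)` -/
noncomputable def FK (X : Finset V) (K V' : Submodule (ZMod 2) V) (α : V → ℂ) : ℂ :=
  ∑ W ∈ X.powerset, if K ⊔ span (ZMod 2) (W : Set V) = V' then
    (-1) ^ W.card * ∏ v ∈ X \ W, α v else 0

theorem FK_congr (X : Finset V) (K V' : Submodule (ZMod 2) V) (α β : V → ℂ)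
    (h : ∀ v ∈ X, α v = β v) : FK X K V' α = FK X K V' β := by
  classical
  unfold FK
  refine Finset.sum_congr rfl fun W _ => ?_
  have h1 : ∏ v ∈ X \ W, α v = ∏ v ∈ X \ W, β v :=
    Finset.prod_congr rfl fun v hv => h v (Finset.mem_sdiff.1 hv).1
  rw [h1]

theorem FK_insert (X : Finset V) (K V' : Submodule (ZMod 2) V) (α : V → ℂ) (e : V)
    (he : e ∉ X) : FK (insert e X) K V' α =
      α e * FK X K V' α - FK X (K ⊔ span (ZMod 2) {e}) V' α := by
  classical
  unfold FK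
  rw [Finset.sum_powerset_insert he, Finset.mul_sum, sub_eq_add_neg, ← Finset.sum_neg_distrib]
  congr 1
  · refine Finset.sum_congr rfl fun W hW => ?_
    have hWX := Finset.mem_powerset.mp hW
    have heW : e ∉ W := fun h => he (hWX h)
    have h1 : insert e X \ W = insert e (X \ W) := Finset.insert_sdiff_of_notMem _ heW
    split_ifs
    · rw [h1, Finset.prod_insert fun h => he (Finset.mem_sdiff.1 h).1]
      ring
    · rw [mul_zero]
  · refine Finset.sum_congr rfl fun W hW => ?_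
    have hWX := Finset.mem_powerset.mp hW
    have heW : e ∉ W := fun h => he (hWX h)
    have h1 : K ⊔ span (ZMod 2) ((insert e W : Finset V) : Set V) =
        K ⊔ span (ZMod 2) {e} ⊔ span (ZMod 2) (W : Set V) := by
      rw [Finset.coe_insert, span_insert, sup_assoc]
    have h2 : insert e X \ insert e W = X \ W := by
      ext v
      simp only [Finset.mem_sdiff, Finset.mem_insert, not_or]
      constructor
      · rintro ⟨h | h, h3, h4⟩
        · exact absurd h h3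
        · exact ⟨h, h4⟩
      · rintro ⟨h, h4⟩
        exact ⟨Or.inr h, fun h5 => he (h5 ▸ h), h4⟩
    rw [h1]
    split_ifs
    · rw [h2, Finset.card_insert_of_notMem heW, pow_succ]
      ring
    · rw [neg_zero]

/-- the polynomial is affine in each coordinate -/
theorem FK_change (X : Finset V) (K V' : Submodule (ZMod 2) V) (α β : V → ℂ) (e : V)
    (he : e ∈ X) (h : ∀ v ∈ X, v ≠ e → α v = β v) :
    FK X K V' α = FK X K V' β + (α e - β e) * FK (X.erase e) K V' β := by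
  classical
  have hX : insert e (X.erase e) = X := Finset.insert_erase he
  have h1 := FK_insert (X.erase e) K V' α e (Finset.notMem_erase e X)
  have h2 := FK_insert (X.erase e) K V' β e (Finset.notMem_erase e X)
  rw [hX] at h1 h2
  have h3 : ∀ K', FK (X.erase e) K' V' α = FK (X.erase e) K' V' β := fun K' =>
    FK_congr _ _ _ _ _ fun v hv => h v (Finset.mem_of_mem_erase hv) (Finset.ne_of_mem_erase hv)
  rw [h3, h3] at h1
  rw [h1, h2]
  ring

/-- the two coordinates -/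
theorem PP_FK (X : Finset V) (x : V → ℂ) (hx : ∀ v ∈ X, x v ≠ 1) :
    PP X ⊥ x = FK X ⊥ (span (ZMod 2) (X : Set V)) (fun v => 1 / (1 - x v)) *
      ∏ v ∈ X, (1 - x v) := by
  classical
  unfold PP FK
  rw [Finset.sum_mul]
  refine Finset.sum_congr rfl fun W hW => ?_
  have hWX := Finset.mem_powerset.mp hW
  have hiff : Spans ⊥ X W ↔ ⊥ ⊔ span (ZMod 2) (W : Set V) = span (ZMod 2) (X : Set V) := by
    unfold Spans
    rw [bot_sup_eq, bot_sup_eq]
  by_cases h : Spans ⊥ X W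
  · rw [if_pos h, if_pos (hiff.1 h)]
    have h1 : ∏ v ∈ X, (1 - x v) = (∏ v ∈ X \ W, (1 - x v)) * ∏ v ∈ W, (1 - x v) :=
      (Finset.prod_sdiff hWX).symm
    have h2 : (∏ v ∈ X \ W, 1 / (1 - x v)) * ∏ v ∈ X \ W, (1 - x v) = 1 := by
      rw [← Finset.prod_mul_distrib]
      refine Finset.prod_eq_one fun v hv => ?_
      have h3 := hx v (Finset.mem_sdiff.1 hv).1
      exact one_div_mul_cancel (sub_ne_zero.2 fun h => h3 h.symm)
    have h3 : ∏ v ∈ W, (x v - 1) = (-1) ^ W.card * ∏ v ∈ W, (1 - x v) := by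
      rw [← Finset.prod_const, ← Finset.prod_mul_distrib]
      exact Finset.prod_congr rfl fun v _ => by ring
    rw [h1, h3]
    calc (-1) ^ W.card * ∏ v ∈ W, (1 - x v)
        = (-1) ^ W.card * ((∏ v ∈ X \ W, 1 / (1 - x v)) * ∏ v ∈ X \ W, (1 - x v)) *
          ∏ v ∈ W, (1 - x v) := by rw [h2, mul_one]
      _ = _ := by ring
  · rw [if_neg h, if_neg fun h' => h (hiff.2 h'), zero_mul]

/-- the value at a real point, with a sign and in the coordinates `1 / (1 - y)` -/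
noncomputable def GG (X : Finset V) (V' : Submodule (ZMod 2) V) (y : V → ℝ) : ℝ :=
  (-1) ^ finrank (ZMod 2) V' * RR X ⊥ V' y / ∏ v ∈ X, (1 - y v)

theorem FK_real (X : Finset V) (K V' : Submodule (ZMod 2) V) (y : V → ℝ)
    (hy : ∀ v ∈ X, y v < 1) :
    FK X K V' (fun v => ((1 / (1 - y v) : ℝ) : ℂ)) =
      ((RR X K V' y / ∏ v ∈ X, (1 - y v) : ℝ) : ℂ) := by
  classical
  have h0 : (∏ v ∈ X, (1 - y v)) ≠ 0 :=
    Finset.prod_ne_zero_iff.2 fun v hv => (sub_pos.2 (hy v hv)).ne'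
  unfold FK RR
  rw [Finset.sum_div, Complex.ofReal_sum]
  refine Finset.sum_congr rfl fun W hW => ?_
  have hWX := Finset.mem_powerset.mp hW
  split_ifs
  · have h1 : ∏ v ∈ X, (1 - y v) = (∏ v ∈ X \ W, (1 - y v)) * ∏ v ∈ W, (1 - y v) :=
      (Finset.prod_sdiff hWX).symm
    have h2 : ∏ v ∈ W, (y v - 1) = (-1) ^ W.card * ∏ v ∈ W, (1 - y v) := by
      rw [← Finset.prod_const, ← Finset.prod_mul_distrib]
      exact Finset.prod_congr rfl fun v _ => by ring
    have h3 : ∏ v ∈ W, (1 - y v) ≠ 0 := by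
      intro h
      rw [h, mul_zero] at h1
      exact h0 h1
    have h4 : ∏ v ∈ X \ W, (1 - y v) ≠ 0 := by
      intro h
      rw [h, zero_mul] at h1
      exact h0 h1
    have h5 : (-1 : ℝ) ^ W.card * ∏ v ∈ X \ W, (1 / (1 - y v)) =
        (∏ v ∈ W, (y v - 1)) / ∏ v ∈ X, (1 - y v) := by
      rw [h1, h2, Finset.prod_div_distrib, Finset.prod_const_one]
      field_simp
    rw [← h5]
    push_cast
    rfl
  · rw [zero_div, Complex.ofReal_zero]

theorem GG_nonneg (X : Finset V) (h0 : (0 : V) ∉ X) (V' : Submodule (ZMod 2) V) (y : V → ℝ)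
    (hy : ∀ v ∈ X, -1 ≤ y v ∧ y v < 1) : 0 ≤ GG X V' y := by
  have h1 := sign_RR X.card X rfl ⊥ V' y inferInstance
    (fun v hv hv' => h0 (((mem_bot _).1 hv') ▸ hv)) fun v hv => abs_le.2 ⟨(hy v hv).1, (hy v hv).2.le⟩
  rw [finrank_bot, zero_add] at h1
  unfold GG
  exact div_nonneg h1 (Finset.prod_nonneg fun v hv => (sub_pos.2 (hy v hv).2).le)

/-- deletion of an element -/
theorem GG_erase (X : Finset V) (h0 : (0 : V) ∉ X) (V' : Submodule (ZMod 2) V) (y : V → ℝ)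
    (hy : ∀ v ∈ X, -1 ≤ y v ∧ y v < 1) (e : V) (he : e ∈ X) :
    1 / (1 - y e) * GG (X.erase e) V' y ≤ GG X V' y := by
  classical
  have hX : insert e (X.erase e) = X := Finset.insert_erase he
  have h1 := RR_insert (X.erase e) ⊥ V' y e (Finset.notMem_erase e X)
  rw [hX, bot_sup_eq] at h1
  have hne : e ≠ 0 := fun h => h0 (h ▸ he)
  have h2 := sign_RR (X.erase e).card (X.erase e) rfl (span (ZMod 2) {e}) V' y inferInstance
    (fun v hv hve => by
      rw [mem_span_singleton] at hve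
      obtain ⟨c, hc⟩ := hve
      rcases zmod2_cases c with rfl | rfl
      · rw [zero_smul] at hc
        exact h0 (hc ▸ Finset.mem_of_mem_erase hv)
      · rw [one_smul] at hc
        exact Finset.ne_of_mem_erase hv hc.symm)
    fun v hv => abs_le.2 ⟨(hy v (Finset.mem_of_mem_erase hv)).1,
      (hy v (Finset.mem_of_mem_erase hv)).2.le⟩
  rw [finrank_span_singleton hne, add_comm, pow_succ] at h2
  have h3 : ∏ v ∈ X, (1 - y v) = (1 - y e) * ∏ v ∈ X.erase e, (1 - y v) :=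
    (Finset.mul_prod_erase X (fun v => 1 - y v) he).symm
  have h4 : 0 < 1 - y e := sub_pos.2 (hy e he).2
  have h5 : 0 < ∏ v ∈ X.erase e, (1 - y v) :=
    Finset.prod_pos fun v hv => sub_pos.2 (hy v (Finset.mem_of_mem_erase hv)).2
  unfold GG
  rw [h1, h3]
  obtain ⟨p, hp⟩ : ∃ p, p = (-1 : ℝ) ^ finrank (ZMod 2) V' := ⟨_, rfl⟩
  obtain ⟨A, hA⟩ : ∃ A, A = RR (X.erase e) ⊥ V' y := ⟨_, rfl⟩
  obtain ⟨B, hB⟩ : ∃ B, B = RR (X.erase e) (span (ZMod 2) {e}) V' y := ⟨_, rfl⟩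
  obtain ⟨Q, hQ⟩ : ∃ Q, Q = ∏ v ∈ X.erase e, (1 - y v) := ⟨_, rfl⟩
  rw [← hp, ← hA, ← hB, ← hQ]
  rw [← hp, ← hB] at h2
  rw [← hQ] at h5
  have h6 : 1 / (1 - y e) * (p * A / Q) = p * A / ((1 - y e) * Q) := by
    field_simp
  rw [h6]
  refine div_le_div_of_nonneg_right ?_ (mul_pos h4 h5).le
  have h7 : p * (A + (y e - 1) * B) = p * A + (1 - y e) * (p * -1 * B) := by ring
  rw [h7]
  have h8 := mul_nonneg h4.le h2
  linarith

/-- **The estimate** -/
theorem FK_bound (Y : Finset V) (h0 : (0 : V) ∉ Y) (V' : Submodule (ZMod 2) V) (y : V → ℝ)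
    (hy : ∀ v ∈ Y, -1 ≤ y v ∧ y v < 1) (α : V → ℂ) (ρ : V → ℝ) (hρ0 : ∀ v ∈ Y, 0 ≤ ρ v)
    (hρ : ∀ v ∈ Y, ‖α v - ((1 / (1 - y v) : ℝ) : ℂ)‖ ≤ ρ v * (1 / (1 - y v)))
    (C : Finset V) (hC : C ⊆ Y) :
    ∀ X ⊆ Y, ‖FK X ⊥ V' (fun v => if v ∈ C then α v else ((1 / (1 - y v) : ℝ) : ℂ)) -
      FK X ⊥ V' (fun v => ((1 / (1 - y v) : ℝ) : ℂ))‖ ≤
        (∏ v ∈ C, (1 + ρ v) - 1) * GG X V' y := by
  classical
  have hreal : ∀ X ⊆ Y, ‖FK X ⊥ V' (fun v => ((1 / (1 - y v) : ℝ) : ℂ))‖ = GG X V' y := by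
    intro X hX
    have h1 := GG_nonneg X (fun h => h0 (hX h)) V' y fun v hv => hy v (hX hv)
    rw [FK_real X ⊥ V' y fun v hv => (hy v (hX hv)).2, Complex.norm_real, Real.norm_eq_abs]
    rw [← abs_of_nonneg h1]
    unfold GG
    rw [mul_div_assoc, abs_mul, abs_pow, abs_neg, abs_one, one_pow, one_mul]
  induction C using Finset.induction_on with
  | empty =>
    intro X _
    simp
  | insert e C he ih =>
    intro X hX
    have ihC := ih fun v hv => hC (Finset.mem_insert_of_mem hv)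
    have heY : e ∈ Y := hC (Finset.mem_insert_self e C)
    have hP : 1 ≤ ∏ v ∈ C, (1 + ρ v) := by
      refine Finset.one_le_prod fun v hv => ?_
      have := hρ0 v (hC (Finset.mem_insert_of_mem hv))
      linarith
    have hG := GG_nonneg X (fun h => h0 (hX h)) V' y fun v hv => hy v (hX hv)
    rw [Finset.prod_insert he]
    by_cases heX : e ∈ X
    · have hX' : X.erase e ⊆ Y := (Finset.erase_subset _ _).trans hX
      have h1 := FK_change X ⊥ V'
        (fun v => if v ∈ insert e C then α v else ((1 / (1 - y v) : ℝ) : ℂ))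
        (fun v => if v ∈ C then α v else ((1 / (1 - y v) : ℝ) : ℂ)) e heX fun v _ hve => by
          by_cases hv : v ∈ C
          · simp [hv]
          · simp [hv, hve]
      simp only [Finset.mem_insert_self, if_true, if_neg he] at h1
      rw [h1]
      obtain ⟨A, hA⟩ : ∃ A, A = FK X ⊥ V'
        (fun v => if v ∈ C then α v else ((1 / (1 - y v) : ℝ) : ℂ)) := ⟨_, rfl⟩
      obtain ⟨B, hB⟩ : ∃ B, B = FK (X.erase e) ⊥ V'
        (fun v => if v ∈ C then α v else ((1 / (1 - y v) : ℝ) : ℂ)) := ⟨_, rfl⟩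
      obtain ⟨A₀, hA₀⟩ : ∃ A₀, A₀ = FK X ⊥ V' (fun v => ((1 / (1 - y v) : ℝ) : ℂ)) := ⟨_, rfl⟩
      obtain ⟨B₀, hB₀⟩ : ∃ B₀, B₀ = FK (X.erase e) ⊥ V'
        (fun v => ((1 / (1 - y v) : ℝ) : ℂ)) := ⟨_, rfl⟩
      have h2 := ihC X hX
      have h3 := ihC (X.erase e) hX'
      have h4 := hreal (X.erase e) hX'
      have h5 := GG_erase X (fun h => h0 (hX h)) V' y (fun v hv => hy v (hX hv)) e heX
      rw [← hA, ← hA₀] at h2
      rw [← hB, ← hB₀] at h3
      rw [← hB₀] at h4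
      rw [← hA, ← hB, ← hA₀]
      have h6 : ‖B‖ ≤ (∏ v ∈ C, (1 + ρ v)) * GG (X.erase e) V' y := by
        have h7 : B = (B - B₀) + B₀ := by ring
        rw [h7]
        refine (norm_add_le _ _).trans ?_
        rw [h4]
        linarith
      have h7 : A + (α e - ((1 / (1 - y e) : ℝ) : ℂ)) * B - A₀ =
          (A - A₀) + (α e - ((1 / (1 - y e) : ℝ) : ℂ)) * B := by ring
      rw [h7]
      refine (norm_add_le _ _).trans ?_
      rw [norm_mul]
      have hρe := hρ e heY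
      have hρe0 := hρ0 e heY
      have hye : 0 < 1 / (1 - y e) := one_div_pos.2 (sub_pos.2 (hy e heY).2)
      have h8 : ‖α e - ((1 / (1 - y e) : ℝ) : ℂ)‖ * ‖B‖ ≤
          (ρ e * (1 / (1 - y e))) * ((∏ v ∈ C, (1 + ρ v)) * GG (X.erase e) V' y) :=
        mul_le_mul hρe h6 (norm_nonneg _) (mul_nonneg hρe0 hye.le)
      have h9 : (ρ e * (1 / (1 - y e))) * ((∏ v ∈ C, (1 + ρ v)) * GG (X.erase e) V' y) ≤
          ρ e * (∏ v ∈ C, (1 + ρ v)) * GG X V' y := by
        have h10 : (ρ e * (1 / (1 - y e))) * ((∏ v ∈ C, (1 + ρ v)) * GG (X.erase e) V' y) =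
            ρ e * (∏ v ∈ C, (1 + ρ v)) * (1 / (1 - y e) * GG (X.erase e) V' y) := by ring
        rw [h10]
        exact mul_le_mul_of_nonneg_left h5 (mul_nonneg hρe0 (by linarith))
      have h11 : ((1 + ρ e) * ∏ v ∈ C, (1 + ρ v)) - 1 =
          (∏ v ∈ C, (1 + ρ v) - 1) + ρ e * ∏ v ∈ C, (1 + ρ v) := by ring
      rw [h11, add_mul]
      linarith
    · have h1 : FK X ⊥ V' (fun v => if v ∈ insert e C then α v else ((1 / (1 - y v) : ℝ) : ℂ)) =
          FK X ⊥ V' (fun v => if v ∈ C then α v else ((1 / (1 - y v) : ℝ) : ℂ)) := by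
        refine FK_congr _ _ _ _ _ fun v hv => ?_
        have hve : v ≠ e := fun h => heX (h ▸ hv)
        by_cases hv' : v ∈ C
        · simp [hv']
        · simp [hv', hve]
      rw [h1]
      refine (ihC X hX).trans (mul_le_mul_of_nonneg_right ?_ hG)
      have h2 : ∏ v ∈ C, (1 + ρ v) ≤ (1 + ρ e) * ∏ v ∈ C, (1 + ρ v) := by
        refine le_mul_of_one_le_left (by linarith) ?_
        have := hρ0 e heY
        linarith
      linarith

/-- **A neighbourhood of the real box** -/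
theorem PP_disc (Y : Finset V) (h0 : (0 : V) ∉ Y) (x : V → ℂ) (y : V → ℝ)
    (hy : ∀ v ∈ Y, -1 ≤ y v ∧ y v < 1) (hx : ∀ v ∈ Y, x v ≠ 1)
    (h : ∏ v ∈ Y, (1 + ‖x v - y v‖ / ‖1 - x v‖) < 2) : PP Y ⊥ x ≠ 0 := by
  classical
  obtain ⟨V', hV'⟩ : ∃ V', V' = span (ZMod 2) (Y : Set V) := ⟨_, rfl⟩
  have hG : 0 < GG Y V' y := by
    have h1 := TRJ.pos_box' Y h0 y hy
    rw [← hV'] at h1
    exact div_pos h1 (Finset.prod_pos fun v hv => sub_pos.2 (hy v hv).2)
  have hb := FK_bound Y h0 V' y hy (fun v => 1 / (1 - x v)) (fun v => ‖x v - y v‖ / ‖1 - x v‖)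
    (fun v _ => div_nonneg (norm_nonneg _) (norm_nonneg _)) (fun v hv => by
      have h1 : 1 - x v ≠ 0 := sub_ne_zero.2 fun h => hx v hv h.symm
      have h2 : (0 : ℝ) < 1 - y v := sub_pos.2 (hy v hv).2
      have h3 : ((1 - y v : ℝ) : ℂ) ≠ 0 := by exact_mod_cast h2.ne'
      have h4 : 1 / (1 - x v) - ((1 / (1 - y v) : ℝ) : ℂ) =
          (x v - y v) / ((1 - x v) * ((1 - y v : ℝ) : ℂ)) := by
        push_cast at h3 ⊢
        field_simp
        ring
      rw [h4, norm_div, norm_mul, Complex.norm_real, Real.norm_eq_abs, abs_of_pos h2]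
      apply le_of_eq
      field_simp) Y (Finset.Subset.refl Y) Y (Finset.Subset.refl Y)
  have hreal : ‖FK Y ⊥ V' (fun v => ((1 / (1 - y v) : ℝ) : ℂ))‖ = GG Y V' y := by
    rw [FK_real Y ⊥ V' y fun v hv => (hy v hv).2, Complex.norm_real, Real.norm_eq_abs]
    rw [← abs_of_nonneg hG.le]
    unfold GG
    rw [mul_div_assoc, abs_mul, abs_pow, abs_neg, abs_one, one_pow, one_mul]
  have heq : FK Y ⊥ V' (fun v => if v ∈ Y then 1 / (1 - x v) else ((1 / (1 - y v) : ℝ) : ℂ)) =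
      FK Y ⊥ V' (fun v => 1 / (1 - x v)) := FK_congr _ _ _ _ _ fun v hv => if_pos hv
  rw [heq] at hb
  rw [PP_FK Y x hx, ← hV']
  refine mul_ne_zero (fun hz => ?_) (Finset.prod_ne_zero_iff.2 fun v hv =>
    sub_ne_zero.2 fun h => hx v hv h.symm)
  rw [hz, zero_sub, norm_neg, hreal] at hb
  have h2 : (∏ v ∈ Y, (1 + ‖x v - y v‖ / ‖1 - x v‖) - 1) * GG Y V' y < 1 * GG Y V' y :=
    mul_lt_mul_of_pos_right (by linarith) hG
  linarith

/-- a product of numbers `1 - u` -/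
theorem one_sub_sum_le_prod (s : Finset V) (u : V → ℝ) (h0 : ∀ v ∈ s, 0 ≤ u v)
    (h1 : ∀ v ∈ s, u v ≤ 1) : 1 - ∑ v ∈ s, u v ≤ ∏ v ∈ s, (1 - u v) := by
  induction s using Finset.induction_on with
  | empty => simp
  | insert e s he ih =>
    have h2 := ih (fun v hv => h0 v (Finset.mem_insert_of_mem hv))
      fun v hv => h1 v (Finset.mem_insert_of_mem hv)
    rw [Finset.sum_insert he, Finset.prod_insert he]
    have h3 := h0 e (Finset.mem_insert_self e s)
    have h4 := h1 e (Finset.mem_insert_self e s)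
    have h5 : 0 ≤ ∑ v ∈ s, u v := Finset.sum_nonneg fun v hv => h0 v (Finset.mem_insert_of_mem hv)
    have h6 := mul_le_mul_of_nonneg_left h2 (sub_nonneg.2 h4)
    have h7 := mul_nonneg h3 h5
    linarith

/-- **A neighbourhood of the real box** -/
theorem PP_sum (Y : Finset V) (h0 : (0 : V) ∉ Y) (x : V → ℂ) (y : V → ℝ)
    (hy : ∀ v ∈ Y, -1 ≤ y v ∧ y v < 1)
    (h : ∑ v ∈ Y, ‖x v - y v‖ / (1 - y v) < 1 / 2) : PP Y ⊥ x ≠ 0 := by
  classical
  obtain ⟨u, hu⟩ : ∃ u : V → ℝ, ∀ v, u v = ‖x v - y v‖ / (1 - y v) := ⟨_, fun _ => rfl⟩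
  have hu0 : ∀ v ∈ Y, 0 ≤ u v := fun v hv => by
    rw [hu]
    exact div_nonneg (norm_nonneg _) (sub_pos.2 (hy v hv).2).le
  have hus : ∑ v ∈ Y, u v < 1 / 2 := by
    simpa only [hu] using h
  have hu1 : ∀ v ∈ Y, u v < 1 / 2 := fun v hv =>
    (Finset.single_le_sum (f := u) hu0 hv).trans_lt hus
  have hkey : ∀ v ∈ Y, (1 - y v) * (1 - u v) ≤ ‖1 - x v‖ := by
    intro v hv
    have h2 : (0 : ℝ) < 1 - y v := sub_pos.2 (hy v hv).2
    have h3 : ‖x v - y v‖ = u v * (1 - y v) := by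
      rw [hu]
      field_simp
    have h4 : ((1 - y v : ℝ) : ℂ) = (1 - x v) + (x v - y v) := by
      push_cast
      ring
    have h5 : 1 - y v ≤ ‖1 - x v‖ + ‖x v - y v‖ := by
      calc 1 - y v = ‖((1 - y v : ℝ) : ℂ)‖ := by
            rw [Complex.norm_real, Real.norm_eq_abs, abs_of_pos h2]
        _ ≤ _ := by
            rw [h4]
            exact norm_add_le _ _
    rw [h3] at h5
    linarith
  have hpos : ∀ v ∈ Y, 0 < (1 - y v) * (1 - u v) := fun v hv =>
    mul_pos (sub_pos.2 (hy v hv).2) (by linarith [hu1 v hv])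
  refine PP_disc Y h0 x y hy (fun v hv h1 => ?_) ?_
  · have h2 := (hpos v hv).trans_le (hkey v hv)
    rw [h1, sub_self, norm_zero] at h2
    exact lt_irrefl _ h2
  · have h1 : ∀ v ∈ Y, 1 + ‖x v - y v‖ / ‖1 - x v‖ ≤ 1 / (1 - u v) := by
      intro v hv
      have h2 : (0 : ℝ) < 1 - y v := sub_pos.2 (hy v hv).2
      have h3 : ‖x v - y v‖ = u v * (1 - y v) := by
        rw [hu]
        field_simp
      have h4 : (0 : ℝ) < 1 - u v := by linarith [hu1 v hv]
      have h5 : ‖x v - y v‖ / ‖1 - x v‖ ≤ u v / (1 - u v) := by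
        rw [div_le_div_iff₀ ((hpos v hv).trans_le (hkey v hv)) h4, h3]
        have h6 := mul_le_mul_of_nonneg_left (hkey v hv) (hu0 v hv)
        linarith
      have h6 : 1 + u v / (1 - u v) = 1 / (1 - u v) := by
        field_simp
        ring
      linarith
    have h2 : ∏ v ∈ Y, (1 + ‖x v - y v‖ / ‖1 - x v‖) ≤ ∏ v ∈ Y, (1 / (1 - u v)) :=
      Finset.prod_le_prod (fun v _ => by positivity) h1
    refine h2.trans_lt ?_
    rw [Finset.prod_div_distrib, Finset.prod_const_one]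
    have h3 := one_sub_sum_le_prod Y u hu0 fun v hv => (hu1 v hv).le.trans (by norm_num)
    have h4 : (1 : ℝ) / 2 < ∏ v ∈ Y, (1 - u v) := by linarith
    rw [div_lt_iff₀ (by linarith)]
    linarith

/-- **Weights near `-1`** -/
theorem PP_neg_one (Y : Finset V) (h0 : (0 : V) ∉ Y) (x : V → ℂ)
    (h : ∑ v ∈ Y, ‖x v + 1‖ < 1) : PP Y ⊥ x ≠ 0 := by
  refine PP_sum Y h0 x (fun _ => -1) (fun v _ => ⟨le_refl _, by norm_num⟩) ?_
  have h1 : ∑ v ∈ Y, ‖x v - ((-1 : ℝ) : ℂ)‖ / (1 - (-1 : ℝ)) = (∑ v ∈ Y, ‖x v + 1‖) / 2 := by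
    rw [Finset.sum_div]
    refine Finset.sum_congr rfl fun v _ => ?_
    have h2 : x v - ((-1 : ℝ) : ℂ) = x v + 1 := by
      push_cast
      ring
    rw [h2]
    norm_num
  rw [h1]
  linarith

end Pool.Agent.NHT
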