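import Mathlib
import Pool.Agent.NHT.Flat
import Pool.Agent.NHT.SepK
import Pool.Agent.NHT.Defs10
import Pool.Agent.NHT.Final3

/-!
# NHT, version 10, module Psi: functions which are constant on close cycle sets (helper38)
-/

set_option autoImplicit false
set_option linter.unusedSectionVars false

open Module Submodule Pool.Agent.UNI LaurentPolynomial Pool.Agent.SPT Pool.Agent.SPT.Rel
  Pool.Agent.SPT.Lin Pool.Agent.SRH Pool.Agent.EQT Pool.Agent.FHP Pool.Agent.TRA Pool.Agent.TRP

namespace Pool.Agent.NHT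

section

variable {ι V : Type} [DecidableEq ι] [DecidableEq V] [AddCommGroup V] [Module (ZMod 2) V]

/-- if the row of `i` is not in the span of the rows of `P`, then `i` lies in a cycle of classes which
are not in `P` -/
theorem Block.inCycleP {Q : Finset ι} {Cyc : Finset ι → Prop} {r : ι → V} (h : Block Q Cyc r)
    {P : Finset ι} (hP : P ⊆ Q) {i : ι} (hi : i ∈ Q)
    (hn : r i ∉ span (ZMod 2) ((P.image r : Finset V) : Set V)) : InCycle Cyc (Q \ P) i := by
  classical
  have hiP : i ∉ P := fun h1 => hn (subset_span (Finset.mem_coe.2 (Finset.mem_image_of_mem r h1)))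
  obtain ⟨C, hC, hmin⟩ := Finset.exists_min_image ((Q \ P).powerset.filter fun C => i ∈ C ∧
    r i ∉ span (ZMod 2) (((Q \ C).image r : Finset V) : Set V)) Finset.card ⟨Q \ P, by
      rw [Finset.mem_filter]
      refine ⟨Finset.mem_powerset.2 (Finset.Subset.refl _), Finset.mem_sdiff.2 ⟨hi, hiP⟩, ?_⟩
      rw [Finset.sdiff_sdiff_eq_self hP]
      exact hn⟩
  rw [Finset.mem_filter, Finset.mem_powerset] at hC
  obtain ⟨hCP, hiC, hCn⟩ := hC
  have hCQ : C ⊆ Q := hCP.trans Finset.sdiff_subset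
  refine ⟨C, hCP, hiC, ?_, ?_⟩
  · by_contra hc
    have h1 := (h.co C hCQ).1 hc
    unfold Co at h1
    rw [h.image_sdiff hCQ] at h1
    refine hCn ?_
    rw [h1]
    exact subset_span (Finset.mem_coe.2 (Finset.mem_image_of_mem r hi))
  · have hE : C.erase i ⊆ Q := (Finset.erase_subset i C).trans hCQ
    rw [h.co _ hE]
    unfold Co
    rw [h.image_sdiff hE]
    refine le_antisymm (span_mono (Finset.coe_subset.2 (Finset.image_subset_image
      Finset.sdiff_subset))) (span_le.2 fun v hv => ?_)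
    obtain ⟨j, hj, rfl⟩ := Finset.mem_image.1 (Finset.mem_coe.1 hv)
    by_cases hjE : j ∈ C.erase i
    · rw [Finset.mem_erase] at hjE
      have h1 : r i ∈ span (ZMod 2) (((Q \ C.erase j).image r : Finset V) : Set V) := by
        by_contra h2
        have h3 := hmin (C.erase j) (by
          rw [Finset.mem_filter, Finset.mem_powerset]
          exact ⟨(Finset.erase_subset j C).trans hCP, Finset.mem_erase.2 ⟨Ne.symm hjE.1, hiC⟩,
            h2⟩)
        have h4 := Finset.card_erase_lt_of_mem hjE.2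
        omega
      have h2 : (((Q \ C.erase j).image r : Finset V) : Set V) ⊆
          insert (r j) (((Q \ C).image r : Finset V) : Set V) := by
        intro v hv
        obtain ⟨l, hl, rfl⟩ := Finset.mem_image.1 (Finset.mem_coe.1 hv)
        rw [Finset.mem_sdiff, Finset.mem_erase, not_and_or, not_not] at hl
        rcases hl with ⟨hlQ, rfl | hl⟩
        · exact Set.mem_insert _ _
        · exact Set.mem_insert_of_mem _ (Finset.mem_coe.2 (Finset.mem_image_of_mem r
            (Finset.mem_sdiff.2 ⟨hlQ, hl⟩)))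
      have h3 := mem_span_insert_exchange (span_mono h2 h1) hCn
      refine span_mono ?_ h3
      intro v hv
      rcases Set.mem_insert_iff.1 hv with rfl | hv
      · exact Finset.mem_coe.2 (Finset.mem_image_of_mem r (Finset.mem_sdiff.2 ⟨hi,
          Finset.notMem_erase i C⟩))
      · obtain ⟨l, hl, rfl⟩ := Finset.mem_image.1 (Finset.mem_coe.1 hv)
        rw [Finset.mem_sdiff] at hl
        exact Finset.mem_coe.2 (Finset.mem_image_of_mem r (Finset.mem_sdiff.2 ⟨hl.1,
          fun h5 => hl.2 (Finset.mem_of_mem_erase h5)⟩))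
    · exact subset_span (Finset.mem_coe.2 (Finset.mem_image_of_mem r
        (Finset.mem_sdiff.2 ⟨hj, hjE⟩)))

/-- the complement of a flat is a cycle set -/
theorem flat_cycleSet {S : Finset ι} {Cyc : Finset ι → Prop} {r : ι → V} (hB : Block S Cyc r)
    (F : Finset V) (hF : ∀ i ∈ S, r i ∈ span (ZMod 2) (F : Set V) → r i ∈ F) :
    CycleSet Cyc (S.filter fun i => r i ∉ F) := by
  classical
  intro i hi
  rw [Finset.mem_filter] at hi
  have h1 : S \ (S.filter fun j => r j ∈ F) = S.filter fun j => r j ∉ F := by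
    ext j
    rw [Finset.mem_sdiff, Finset.mem_filter, Finset.mem_filter]
    constructor
    · rintro ⟨h2, h3⟩
      exact ⟨h2, fun h4 => h3 ⟨h2, h4⟩⟩
    · rintro ⟨h2, h3⟩
      exact ⟨h2, fun h4 => h3 h4.2⟩
  rw [← h1]
  refine hB.inCycleP (Finset.filter_subset _ _) hi.1 fun h2 => hi.2 (hF i hi.1 (span_mono ?_ h2))
  intro v hv
  obtain ⟨j, hj, rfl⟩ := Finset.mem_image.1 (Finset.mem_coe.1 hv)
  exact Finset.mem_coe.2 (Finset.mem_filter.1 hj).2

/-- the sum over the spanning sets as a sum over the cycle sets -/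
theorem PS_cycle (Q : Finset ι) (Cyc : Finset ι → Prop) (r : ι → V) (hB : Block Q Cyc r)
    (ψ : Finset ι → ℂ) :
    PS (Q.image r) (fun K => ψ (Q.filter fun i => r i ∉ K)) = cycleSum Cyc Q ψ := by
  classical
  rw [PS_image Q Cyc r hB]
  have hfil : ∀ K ⊆ Q, (Q.filter fun i => r i ∉ K.image r) = Q \ K := by
    intro K hK
    ext i
    rw [Finset.mem_filter, Finset.mem_sdiff, Finset.mem_image]
    constructor
    · rintro ⟨h1, h2⟩
      exact ⟨h1, fun h3 => h2 ⟨i, h3, rfl⟩⟩
    · rintro ⟨h1, h2⟩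
      refine ⟨h1, ?_⟩
      rintro ⟨j, hj, hji⟩
      exact h2 (hB.inj (Finset.mem_coe.2 (hK hj)) (Finset.mem_coe.2 h1) hji ▸ hj)
  have h1 : cycleSum Cyc Q ψ = ∑ F ∈ Q.powerset.filter (fun F => ¬ Cyc F),
      ∑ L ∈ Q.powerset.filter (fun L => F ⊆ L), (-1) ^ (L.card + F.card) * ψ L := by
    unfold cycleSum
    refine Finset.sum_comm' fun L F => ?_
    rw [Finset.mem_powerset, Finset.mem_filter, Finset.mem_powerset, Finset.mem_filter,
      Finset.mem_powerset, Finset.mem_filter, Finset.mem_powerset]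
    constructor
    · rintro ⟨h1, h2, h3⟩
      exact ⟨⟨h1, h2⟩, h2.trans h1, h3⟩
    · rintro ⟨⟨h1, h2⟩, -, h3⟩
      exact ⟨h1, h2, h3⟩
  rw [h1]
  refine Finset.sum_congr rfl fun F hF => ?_
  rw [Finset.mem_filter, Finset.mem_powerset] at hF
  refine Finset.sum_nbij' (fun K => Q \ K) (fun L => Q \ L) ?_ ?_ ?_ ?_ ?_
  · intro K hK
    rw [Finset.mem_powerset] at hK
    rw [Finset.mem_filter, Finset.mem_powerset]
    refine ⟨Finset.sdiff_subset, fun i hi => Finset.mem_sdiff.2 ⟨hF.1 hi, fun h2 => ?_⟩⟩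
    exact (Finset.mem_sdiff.1 (hK h2)).2 hi
  · intro L hL
    rw [Finset.mem_filter, Finset.mem_powerset] at hL
    rw [Finset.mem_powerset]
    intro i hi
    rw [Finset.mem_sdiff] at hi ⊢
    exact ⟨hi.1, fun h2 => hi.2 (hL.2 h2)⟩
  · intro K hK
    rw [Finset.mem_powerset] at hK
    exact Finset.sdiff_sdiff_eq_self (hK.trans Finset.sdiff_subset)
  · intro L hL
    rw [Finset.mem_filter, Finset.mem_powerset] at hL
    exact Finset.sdiff_sdiff_eq_self hL.1
  · intro K hK
    rw [Finset.mem_powerset] at hK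
    have hKQ : K ⊆ Q := hK.trans Finset.sdiff_subset
    show _ * ψ (Q.filter fun i => r i ∉ K.image r) = _ * ψ (Q \ K)
    rw [hfil K hKQ]
    congr 1
    have h2 := Finset.card_sdiff_add_card_eq_card hK
    have h3 := Finset.card_sdiff_add_card_eq_card hF.1
    have h4 := Finset.card_sdiff_add_card_eq_card hKQ
    have h5 : (Q \ K).card + F.card = ((Q \ F) \ K).card + 2 * F.card := by omega
    rw [h5, pow_add, pow_mul, neg_one_sq, one_pow, mul_one]

/-- **isolated cycle sets** -/
theorem Isolated.separating {S J : Finset ι} {CycS Cyc : Finset ι → Prop} {r : ι → V}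
    (hB : Block J Cyc r) {a : ι → ℤ} {N : ℕ} (h : Isolated S J CycS Cyc a N) :
    Separating S J CycS Cyc a N := by
  classical
  obtain ⟨L₀, hL₀, hc, h⟩ := h
  obtain ⟨ψ, hψ⟩ : ∃ ψ : Finset ι → ℂ, ψ = fun L => if L = L₀ then 1 else 0 := ⟨_, rfl⟩
  refine ⟨ψ, fun L L' hLL => ?_, ?_⟩
  · have hLL' : Close S CycS a N L' L := by
      obtain ⟨h1, h2, h3, h4, h5⟩ := hLL
      exact ⟨h2, h1, h4, h3, by rw [abs_sub_comm]; exact h5⟩
    rw [hψ]
    show (if L ∩ J = L₀ then (1 : ℂ) else 0) = if L' ∩ J = L₀ then 1 else 0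
    by_cases h1 : L ∩ J = L₀
    · rw [if_pos h1, if_pos (h L L' hLL h1)]
    · rw [if_neg h1, if_neg fun h2 => h1 (h L' L hLL' h2)]
  · rw [← PS_cycle J Cyc r hB ψ]
    have h1 := PS_single (J.image r) ((J \ L₀).image r)
      (Finset.image_subset_image Finset.sdiff_subset)
      (fun K => ψ (J.filter fun i => r i ∉ K)) (fun K hK => by
        rw [hψ]
        obtain ⟨Y, hY, rfl⟩ := Finset.subset_image_iff.1 hK
        have hYJ : Y ⊆ J := Finset.coe_subset.1 hY
        have h2 : (J.filter fun i => r i ∉ Y.image r) = J \ Y := by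
          ext i
          rw [Finset.mem_filter, Finset.mem_sdiff, Finset.mem_image]
          constructor
          · rintro ⟨h1, h2⟩
            exact ⟨h1, fun h3 => h2 ⟨i, h3, rfl⟩⟩
          · rintro ⟨h1, h2⟩
            refine ⟨h1, ?_⟩
            rintro ⟨j, hj, hji⟩
            exact h2 (hB.inj (Finset.mem_coe.2 (hYJ hj)) (Finset.mem_coe.2 h1) hji ▸ hj)
        show (if (J.filter fun i => r i ∉ Y.image r) = L₀ then (1 : ℂ) else 0) = _
        rw [h2]
        by_cases h3 : J \ Y = L₀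
        · rw [if_pos h3, if_pos]
          rw [← h3, Finset.sdiff_sdiff_eq_self hYJ]
        · rw [if_neg h3, if_neg]
          intro h4
          apply h3
          have h5 : Y = J \ L₀ :=
            (Finset.image_injOn_powerset_of_injOn hB.inj)
              (Finset.mem_coe.2 (Finset.mem_powerset.2 hYJ))
              (Finset.mem_coe.2 (Finset.mem_powerset.2 Finset.sdiff_subset)) h4
          rw [h5, Finset.sdiff_sdiff_eq_self hL₀])
    rw [h1]
    have h2 := pos_RR (J.image r \ (J \ L₀).image r).card (J.image r \ (J \ L₀).image r) rfl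
      (span (ZMod 2) (((J \ L₀).image r : Finset V) : Set V))
      (span (ZMod 2) ((J.image r : Finset V) : Set V)) inferInstance
      (fun v hv => by
        rw [Finset.mem_sdiff, Finset.mem_image] at hv
        obtain ⟨⟨i, hi, rfl⟩, hv⟩ := hv
        refine hB.notMem ?_ Finset.sdiff_subset
        rw [Finset.sdiff_sdiff_eq_self hL₀]
        refine hc i ?_
        by_contra h3
        exact hv (Finset.mem_image_of_mem r (Finset.mem_sdiff.2 ⟨hi, h3⟩))) (by
        rw [← span_union, ← Finset.coe_union,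
          Finset.union_sdiff_of_subset (Finset.image_subset_image Finset.sdiff_subset)])
    intro h3
    have h4 := Complex.ofReal_eq_zero.1 h3
    rw [h4, mul_zero] at h2
    exact lt_irrefl _ h2

open Classical in
theorem forestSum_eq {κ : Type} [inst : DecidableEq κ] (Cyc : Finset κ → Prop) (P : Finset κ)
    (x : κ → ℂ) : forestSum Cyc P x = ∑ F ∈ P.powerset.filter (fun F => ¬ Cyc F),
      ∏ i ∈ P \ F, (x i - 1) := by
  have h : inst = fun a b => Classical.propDecidable (a = b) := Subsingleton.elim _ _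
  subst h
  rfl

/-- the sum for a product of weights -/
theorem cycleSum_prod (Cyc : Finset ι → Prop) (J : Finset ι) (x : ι → ℂ) :
    cycleSum Cyc J (fun L => ∏ i ∈ J \ L, x i) = forestSum Cyc J x := by
  classical
  rw [forestSum_eq]
  unfold cycleSum
  have h1 : ∑ L ∈ J.powerset, ∑ F ∈ L.powerset.filter (fun F => ¬ Cyc F),
      (-1) ^ (L.card + F.card) * ∏ i ∈ J \ L, x i = ∑ F ∈ J.powerset.filter (fun F => ¬ Cyc F),
      ∑ L ∈ J.powerset.filter (fun L => F ⊆ L),
        (-1) ^ (L.card + F.card) * ∏ i ∈ J \ L, x i := by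
    refine Finset.sum_comm' fun L F => ?_
    rw [Finset.mem_powerset, Finset.mem_filter, Finset.mem_powerset, Finset.mem_filter,
      Finset.mem_powerset, Finset.mem_filter, Finset.mem_powerset]
    constructor
    · rintro ⟨h1, h2, h3⟩
      exact ⟨⟨h1, h2⟩, h2.trans h1, h3⟩
    · rintro ⟨⟨h1, h2⟩, -, h3⟩
      exact ⟨h1, h2, h3⟩
  refine h1.trans (Finset.sum_congr rfl fun F hF => ?_)
  rw [Finset.mem_filter, Finset.mem_powerset] at hF
  rw [prod_sub_one]
  refine Finset.sum_nbij' (fun L => J \ L) (fun K => J \ K) ?_ ?_ ?_ ?_ ?_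
  · intro L hL
    rw [Finset.mem_filter, Finset.mem_powerset] at hL
    rw [Finset.mem_powerset]
    intro i hi
    rw [Finset.mem_sdiff] at hi ⊢
    exact ⟨hi.1, fun h2 => hi.2 (hL.2 h2)⟩
  · intro K hK
    rw [Finset.mem_powerset] at hK
    rw [Finset.mem_filter, Finset.mem_powerset]
    refine ⟨Finset.sdiff_subset, fun i hi => Finset.mem_sdiff.2 ⟨hF.1 hi, fun h2 => ?_⟩⟩
    exact (Finset.mem_sdiff.1 (hK h2)).2 hi
  · intro L hL
    rw [Finset.mem_filter, Finset.mem_powerset] at hL
    exact Finset.sdiff_sdiff_eq_self hL.1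
  · intro K hK
    rw [Finset.mem_powerset] at hK
    exact Finset.sdiff_sdiff_eq_self (hK.trans Finset.sdiff_subset)
  · intro L hL
    rw [Finset.mem_filter, Finset.mem_powerset] at hL
    congr 1
    have h2 : (J \ F) \ (J \ L) = L \ F := by
      ext i
      rw [Finset.mem_sdiff, Finset.mem_sdiff, Finset.mem_sdiff, Finset.mem_sdiff]
      constructor
      · rintro ⟨⟨h3, h4⟩, h5⟩
        exact ⟨by_contra fun h6 => h5 ⟨h3, h6⟩, h4⟩
      · rintro ⟨h3, h4⟩
        exact ⟨⟨hL.1 h3, h4⟩, fun h5 => h5.2 h3⟩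
    have h3 := Finset.card_sdiff_add_card_eq_card hL.2
    have h4 : L.card + F.card = (L \ F).card + 2 * F.card := by omega
    show (-1 : ℂ) ^ (L.card + F.card) = (-1) ^ ((J \ F) \ (J \ L)).card
    rw [h2, h4, pow_add, pow_mul, neg_one_sq, one_pow, mul_one]

/-- **weights** -/
theorem WeightedOn.separating {S J : Finset ι} {CycS Cyc : Finset ι → Prop} {r : ι → V}
    (hB : Block J Cyc r) {a : ι → ℤ} {N : ℕ} (h : WeightedOn S J CycS Cyc a N) :
    Separating S J CycS Cyc a N := by
  classical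
  obtain ⟨x, hx0, hx, hcase⟩ := h
  refine ⟨fun L => ∏ i ∈ J \ L, x i, fun L L' hLL => ?_, ?_⟩
  · have h1 := hx L L' hLL
    have h2 : ∀ L : Finset ι, (∏ i ∈ J \ (L ∩ J), x i) * ∏ i ∈ L ∩ J, x i = ∏ i ∈ J, x i :=
      fun L => Finset.prod_sdiff Finset.inter_subset_right
    have h3 : ∏ i ∈ L ∩ J, x i ≠ 0 :=
      Finset.prod_ne_zero_iff.2 fun i hi => hx0 i (Finset.mem_inter.1 hi).2
    have h4 := (h2 L).trans (h2 L').symm
    rw [← h1] at h4
    exact mul_right_cancel₀ h3 h4
  · rw [cycleSum_prod]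
    rcases hcase with h | h
    · exact h
    · obtain ⟨x', hx'⟩ : ∃ x' : V → ℂ, x' = fun v => if h : ∃ i ∈ J, r i = v then x h.choose
          else 1 := ⟨_, rfl⟩
      have hx'J : ∀ i ∈ J, x' (r i) = x i := by
        intro i hi
        have h : ∃ j ∈ J, r j = r i := ⟨i, hi, rfl⟩
        rw [hx']
        show (if h : ∃ j ∈ J, r j = r i then x h.choose else 1) = x i
        rw [dif_pos h]
        exact congrArg x (hB.inj h.choose_spec.1 hi h.choose_spec.2)
      rw [← TRJ.thm_Forest ι V J Cyc r hB x x' hx'J]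
      have h0 : (0 : V) ∉ J.image r := by
        intro h0
        obtain ⟨i, hi, h1⟩ := Finset.mem_image.1 h0
        exact hB.ne i hi h1
      have hy : ∀ v, ∃ y : ℝ, v ∈ J.image r → x' v = y ∧ -1 ≤ y ∧ y < 1 := by
        intro v
        by_cases hv : v ∈ J.image r
        · obtain ⟨i, hi, rfl⟩ := Finset.mem_image.1 hv
          obtain ⟨y, h1, h2, h3⟩ := h i hi
          exact ⟨y, fun _ => ⟨by rw [hx'J i hi]; exact h1, h2, h3⟩⟩
        · exact ⟨0, fun h => absurd h hv⟩
      choose y hy using hy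
      exact TRJ.thm_Box V (J.image r) h0 y x' (fun v hv => (hy v hv).2) fun v hv => (hy v hv).1

/-- **parity** -/
theorem EvenOn.weighted {S J : Finset ι} {CycS Cyc : Finset ι → Prop} {a : ι → ℤ} {N : ℕ}
    (h : EvenOn S J CycS a N) : WeightedOn S J CycS Cyc a N := by
  refine ⟨fun _ => -1, fun _ _ => neg_ne_zero.2 one_ne_zero, fun L L' hLL => ?_, Or.inr
    fun _ _ => ⟨-1, by push_cast; rfl, le_refl _, by norm_num⟩⟩
  have h1 := h L L' hLL
  rw [Finset.prod_const, Finset.prod_const]
  have h2 : ((-1 : ℂ)) ^ (L ∩ J).card * (-1) ^ (L' ∩ J).card = 1 := by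
    rw [← pow_add]
    exact h1.neg_one_pow
  have h3 : ((-1 : ℂ)) ^ (L' ∩ J).card * (-1) ^ (L' ∩ J).card = 1 := by
    rw [← mul_pow, neg_one_mul, neg_neg, one_pow]
  calc ((-1 : ℂ)) ^ (L ∩ J).card = (-1) ^ (L ∩ J).card * ((-1) ^ (L' ∩ J).card *
      (-1) ^ (L' ∩ J).card) := by rw [h3, mul_one]
    _ = (-1) ^ (L' ∩ J).card := by rw [← mul_assoc, h2, one_mul]

end

section

variable {E : Type} [Fintype E] [DecidableEq E]

/-- **The identity for functions which are constant on the clusters of flats** -/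
theorem HVPL (M : Matrix E E (ZMod 2)) (hM : ∀ i j, M i j = M j i) (σ : E → Bool) (B : ℕ)
    (hB : (SS ℂ M σ).coeff.support.card ≤ B)
    (J : Finset E) (hinj : Set.InjOn M (J : Set E)) (hJ0 : ∀ c ∈ J, M c ≠ 0) (hne : J.Nonempty)
    (ψ : Finset (E → ZMod 2) → ℂ)
    (hψ : ∀ F ∈ FL M, ∀ F' ∈ FL M,
      |∑ v ∈ F, tw M σ v - ∑ v ∈ F', tw M σ v| < 2 * ((B : ℤ) + 2) * (M.rank + 1) →
      ψ (F ∩ J.image M) = ψ (F' ∩ J.image M)) :
    PS (J.image M) ψ * detJ M σ J = 0 := by
  classical
  have hJX : J.image M ⊆ Finset.univ.image M := Finset.image_subset_image (Finset.subset_univ J)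
  obtain ⟨t, ht⟩ := HV_clusterF ℂ M hM σ B hB (fun F => ψ (F ∩ J.image M)) hψ
  obtain ⟨s, hs⟩ := split_psi M hM σ (J.image M) hJX ψ
  rw [ht] at hs
  rw [← evA_PPs M σ]
  exact core_det M hM σ J hinj hJ0 hne _ t s hs

end

open Pool.Agent.Helper16.Knotoid

variable {n : ℕ}

/-- **The criterion with a function on the cycle sets**, rows -/
theorem psi_rows (D : GaussDiagram n) (S : Finset (Fin n)) (hS : Transversal D.Interlaced S)
    (J : Finset (Fin n)) (hJ : J ⊆ S) (hne : J.Nonempty) (hdet : cutDetO D J ≠ 0) (B : ℕ)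
    (CycS Cyc : Finset (Fin n) → Prop)
    (hBS : Block S CycS (row (Graph_R D.Interlaced D.sign)))
    (hBJ : Block J Cyc (row (Graph_R D.Interlaced D.sign)))
    (h : Separating S J CycS Cyc (cutTwist D.Interlaced D.sign) (2 * (B + 2) * (S.card + 1))) :
    B < D.normalizedBracket.coeff.support.card := by
  classical
  by_contra hB'
  have hB : D.normalizedBracket.coeff.support.card ≤ B := not_lt.1 hB'
  obtain ⟨ψ, hψ, h0⟩ := h
  obtain ⟨σ, hσ⟩ : ∃ σ, σ = cutState D.Interlaced D.sign := ⟨_, rfl⟩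
  have hR : Graph_R D.Interlaced D.sign = D.Cut σ := by
    rw [hσ]
    rfl
  have hr : ∀ c, row (Graph_R D.Interlaced D.sign) c = D.gmat σ c := by
    intro c
    rw [hR]
    exact row_eq D σ c
  have hr' : row (Graph_R D.Interlaced D.sign) = fun c => D.gmat σ c := funext hr
  have hrows : S.image (D.gmat σ) = (Finset.univ.image (D.gmat σ)).erase 0 := by
    have h1 := Graph_image (e := D.sign) (Graph_irrefl D) (Graph_int_symm D) hS
    unfold rows at h1
    rw [hr'] at h1
    exact h1.symm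
  have htw : ∀ i, tw (D.gmat σ) σ (D.gmat σ i) = cutTwist D.Interlaced D.sign i := by
    intro i
    have h1 := twist_row (e := D.sign) (Graph_irrefl D) (Graph_int_symm D) i
    rw [← h1, hr i, ← hσ]
    unfold twist tw SPT.signedCount
    refine Finset.sum_congr ?_ fun _ _ => rfl
    ext c
    rw [Finset.mem_filter, Finset.mem_filter, hr]
  rw [hr'] at hBS hBJ
  have hinjS : Set.InjOn (D.gmat σ) (S : Set (Fin n)) := by
    intro i hi j hj h
    exact Graph_inj (e := D.sign) (Graph_irrefl D) (Graph_int_symm D) hS hi hj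
      (by rw [hr, hr]; exact h)
  have hinj : Set.InjOn (D.gmat σ) (J : Set (Fin n)) := hinjS.mono (Finset.coe_subset.2 hJ)
  have hJ0 : ∀ c ∈ J, D.gmat σ c ≠ 0 := by
    intro c hc
    rw [← hr]
    exact (Graph_ne c).2 (hS.1 c (hJ hc))
  have hrank : (D.gmat σ).rank ≤ S.card := by
    have h1 := SRH.rank_le D σ
    rw [← hR, Graph_image (Graph_irrefl D) (Graph_int_symm D) hS] at h1
    exact h1.trans Finset.card_image_le
  -- the complements of the flats
  have hL : ∀ F ∈ FL (D.gmat σ), CycleSet CycS (S.filter fun i => D.gmat σ i ∉ F) ∧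
      ∑ v ∈ F, tw (D.gmat σ) σ v = ∑ v ∈ Finset.univ.image (D.gmat σ), tw (D.gmat σ) σ v -
        ∑ i ∈ S.filter (fun i => D.gmat σ i ∉ F), cutTwist D.Interlaced D.sign i := by
    intro F hF
    unfold FL at hF
    rw [Finset.mem_filter, Finset.mem_powerset] at hF
    refine ⟨flat_cycleSet hBS F fun i hi h1 => hF.2 _ (Finset.mem_image_of_mem _
      (Finset.mem_univ i)) h1, ?_⟩
    have h1 : Finset.univ.image (D.gmat σ) \ F =
        (S.filter fun i => D.gmat σ i ∉ F).image (D.gmat σ) := by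
      ext v
      rw [Finset.mem_sdiff]
      constructor
      · rintro ⟨hv, hvF⟩
        have hv0 : v ≠ 0 := by
          rintro rfl
          exact hvF (hF.2 0 hv (zero_mem _))
        have h2 : v ∈ S.image (D.gmat σ) := by
          rw [hrows]
          exact Finset.mem_erase.2 ⟨hv0, hv⟩
        obtain ⟨i, hi, rfl⟩ := Finset.mem_image.1 h2
        exact Finset.mem_image_of_mem _ (Finset.mem_filter.2 ⟨hi, hvF⟩)
      · intro hv
        obtain ⟨i, hi, rfl⟩ := Finset.mem_image.1 hv
        exact ⟨Finset.mem_image_of_mem _ (Finset.mem_univ i), (Finset.mem_filter.1 hi).2⟩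
    have h2 : ∑ i ∈ S.filter (fun i => D.gmat σ i ∉ F), cutTwist D.Interlaced D.sign i =
        ∑ v ∈ Finset.univ.image (D.gmat σ) \ F, tw (D.gmat σ) σ v := by
      rw [h1, Finset.sum_image (hinjS.mono (Finset.coe_subset.2 (Finset.filter_subset _ _)))]
      exact Finset.sum_congr rfl fun i _ => (htw i).symm
    rw [h2]
    have h3 := Finset.sum_sdiff (f := fun v => tw (D.gmat σ) σ v) hF.1
    rw [← h3]
    ring
  have hJr : ∀ F : Finset (Fin n → ZMod 2),
      (J.filter fun i => D.gmat σ i ∉ F ∩ J.image (D.gmat σ)) =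
        (S.filter fun i => D.gmat σ i ∉ F) ∩ J := by
    intro F
    ext i
    rw [Finset.mem_filter, Finset.mem_inter, Finset.mem_inter, Finset.mem_filter]
    constructor
    · rintro ⟨h1, h2⟩
      exact ⟨⟨hJ h1, fun h3 => h2 ⟨h3, Finset.mem_image_of_mem _ h1⟩⟩, h1⟩
    · rintro ⟨⟨-, h2⟩, h3⟩
      exact ⟨h3, fun h4 => h2 h4.1⟩
  have h1 := HVPL (D.gmat σ) (D.gmat_symm σ) σ B (card_SSC D σ B hB) J hinj hJ0 hne
    (fun K => ψ (J.filter fun i => D.gmat σ i ∉ K)) (fun F hF F' hF' hlt => by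
      show ψ (J.filter fun i => D.gmat σ i ∉ F ∩ J.image (D.gmat σ)) =
        ψ (J.filter fun i => D.gmat σ i ∉ F' ∩ J.image (D.gmat σ))
      rw [hJr F, hJr F']
      refine hψ _ _ ⟨Finset.filter_subset _ _, Finset.filter_subset _ _, (hL F hF).1,
        (hL F' hF').1, ?_⟩
      rw [(hL F hF).2, (hL F' hF').2] at hlt
      have h2 : ∀ x y z : ℤ, |x - y - (x - z)| = |y - z| := by
        intro x y z
        rw [← abs_neg]
        congr 1
        ring
      rw [h2] at hlt
      refine hlt.trans_le ?_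
      have h3 : ((D.gmat σ).rank : ℤ) ≤ S.card := by exact_mod_cast hrank
      push_cast
      have h4 : (0 : ℤ) ≤ 2 * ((B : ℤ) + 2) := by positivity
      nlinarith)
  rw [PS_cycle J Cyc (fun c => D.gmat σ c) hBJ ψ] at h1
  rcases mul_eq_zero.1 h1 with h2 | h2
  · exact h0 h2
  · obtain ⟨u, -, hu⟩ := cutDetO_eq D J
    exact hdet (by rw [hu, ← hσ, h2, mul_zero])

/-- **The criterion with a function on the cycle sets, knotoid diagrams** -/
theorem knotoidPsi (D : GaussDiagram n) (S : Finset (Fin n)) (hS : Transversal D.Interlaced S)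
    (J : Finset (Fin n)) (hJ : J ⊆ S) (hne : J.Nonempty) (hdet : cutDetO D J ≠ 0) (B : ℕ)
    (h : Separating S J (HasCycleInO D ∅) (HasCycleInO D (S \ J))
      (cutTwist D.Interlaced D.sign) (2 * (B + 2) * (S.card + 1))) :
    B < D.normalizedBracket.coeff.support.card := by
  have hBS := thm_KnotoidBlock n D S S hS (Finset.Subset.refl S)
  rw [Finset.sdiff_self] at hBS
  exact psi_rows D S hS J hJ hne hdet B _ _ hBS (thm_KnotoidBlock n D S J hS hJ) h

/-- **The criterion with a function on the cycle sets, knot diagrams** -/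
theorem knotPsi (g : GaussJones.Code n) (e : Fin n → Bool) (S : Finset (Fin n))
    (hS : Transversal (GaussJones.Interlaced g) S) (J : Finset (Fin n)) (hJ : J ⊆ S)
    (hne : J.Nonempty) (hdet : cutDet g e J ≠ 0) (B : ℕ)
    (h : Separating S J (HasCycleIn g ∅) (HasCycleIn g (S \ J))
      (cutTwist (GaussJones.Interlaced g) e) (2 * (B + 2) * (S.card + 1))) :
    B < (GaussJones.fPoly g e).coeff.support.card := by
  classical
  have hn : 0 < n := by
    obtain ⟨i, -⟩ := hne
    exact i.pos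
  have hBS := thm_KnotBlock n g e S S hS (Finset.Subset.refl S)
  rw [Finset.sdiff_self] at hBS
  have hBJ := thm_KnotBlock n g e S J hS hJ
  have h1 := interlaced_fun g e
  rw [f_closed hn]
  rw [cutDet_eq hn] at hdet
  rw [← h1] at hS h hBS hBJ
  exact psi_rows (cutOpen g e) S hS J hJ hne hdet B _ _ hBS hBJ h

end Pool.Agent.NHT
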