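import Mathlib
import Pool.Agent.NHT.IsoF
import Pool.Agent.NHT.DefsV

/-!
# NHT, module TwoAdic: the value at `A = 1` modulo powers of two (helper19)
-/

set_option autoImplicit false
set_option linter.unusedSectionVars false

open Module Submodule Pool.Agent.UNI LaurentPolynomial Pool.Agent.SPT Pool.Agent.SPT.Rel
  Pool.Agent.SPT.Lin Pool.Agent.SRH

namespace Pool.Agent.NHT

/-! ### the number of spanning sets modulo two -/

section

variable {ι V : Type} [DecidableEq ι] [AddCommGroup V] [Module (ZMod 2) V]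

open Classical in
/-- the number of the subsets `A` of `P` such that `U` and the vectors `r i`, `i ∈ A`, span the same space
as `U` and all the vectors `r i`, `i ∈ P`, modulo two -/
noncomputable def cnt (r : ι → V) (P : Finset ι) (U : Submodule (ZMod 2) V) : ZMod 2 :=
  ∑ A ∈ P.powerset, if U ⊔ span (ZMod 2) (r '' (A : Set ι)) = U ⊔ span (ZMod 2) (r '' (P : Set ι))
    then 1 else 0

/-- there is a functional which is zero on `U` and one on the vectors `r i`, `i ∈ P` -/
def HasFun (r : ι → V) (P : Finset ι) (U : Submodule (ZMod 2) V) : Prop :=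
  ∃ φ : V →ₗ[ZMod 2] ZMod 2, (∀ x ∈ U, φ x = 0) ∧ ∀ i ∈ P, φ (r i) = 1

open Classical in
/-- **The parity of the number of spanning sets** -/
theorem cnt_eq (r : ι → V) (P : Finset ι) : ∀ U : Submodule (ZMod 2) V,
    cnt r P U = if HasFun r P U then 1 else 0 := by
  induction P using Finset.induction_on with
  | empty =>
    intro U
    unfold cnt
    rw [Finset.powerset_empty, Finset.sum_singleton, if_pos rfl, if_pos]
    exact ⟨0, fun x _ => rfl, fun i hi => absurd hi (Finset.notMem_empty i)⟩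
  | insert e P he ih =>
    intro U
    have himg : ∀ A : Finset ι, U ⊔ span (ZMod 2) (r '' ((insert e A : Finset ι) : Set ι)) =
        (U ⊔ span (ZMod 2) {r e}) ⊔ span (ZMod 2) (r '' (A : Set ι)) := by
      intro A
      rw [Finset.coe_insert, Set.image_insert_eq, span_insert, sup_assoc]
    have h1 : cnt r (insert e P) U = ∑ A ∈ P.powerset, (if U ⊔ span (ZMod 2) (r '' (A : Set ι)) =
        (U ⊔ span (ZMod 2) {r e}) ⊔ span (ZMod 2) (r '' (P : Set ι)) then (1 : ZMod 2) else 0) +
        cnt r P (U ⊔ span (ZMod 2) {r e}) := by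
      unfold cnt
      rw [Finset.sum_powerset_insert he]
      simp only [himg]
    obtain ⟨W, hW⟩ : ∃ W, W = U ⊔ span (ZMod 2) (r '' (P : Set ι)) := ⟨_, rfl⟩
    have hUW : U ≤ W := by
      rw [hW]
      exact le_sup_left
    have hPW : ∀ i ∈ P, r i ∈ W := by
      intro i hi
      rw [hW]
      exact (le_sup_right : span (ZMod 2) (r '' (P : Set ι)) ≤ _)
        (subset_span ⟨i, Finset.mem_coe.2 hi, rfl⟩)
    have hAW : ∀ A ∈ P.powerset, U ⊔ span (ZMod 2) (r '' (A : Set ι)) ≤ W := by
      intro A hA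
      rw [Finset.mem_powerset] at hA
      rw [hW]
      exact sup_le_sup_left (span_mono (Set.image_mono (Finset.coe_subset.2 hA))) U
    have hvan : ∀ φ : V →ₗ[ZMod 2] ZMod 2, (∀ x ∈ U, φ x = 0) → (∀ i ∈ P, φ (r i) = 0) →
        ∀ x ∈ W, φ x = 0 := by
      intro φ h2 h3
      have h4 : W ≤ LinearMap.ker φ := by
        rw [hW]
        refine sup_le (fun x hx => LinearMap.mem_ker.2 (h2 x hx)) (span_le.2 ?_)
        rintro _ ⟨i, hi, rfl⟩
        exact LinearMap.mem_ker.2 (h3 i (Finset.mem_coe.1 hi))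
      exact fun x hx => LinearMap.mem_ker.1 (h4 hx)
    have hz : ∀ a : ZMod 2, a = 0 ∨ a = 1 := by decide
    have hP1 : HasFun r P (U ⊔ span (ZMod 2) {r e}) ↔ ∃ φ : V →ₗ[ZMod 2] ZMod 2,
        (∀ x ∈ U, φ x = 0) ∧ φ (r e) = 0 ∧ ∀ i ∈ P, φ (r i) = 1 := by
      constructor
      · rintro ⟨φ, h2, h3⟩
        exact ⟨φ, fun x hx => h2 x (le_sup_left (α := Submodule (ZMod 2) V) hx), h2 _
          ((le_sup_right : span (ZMod 2) {r e} ≤ U ⊔ _) (mem_span_singleton_self _)), h3⟩
      · rintro ⟨φ, h2, h3, h4⟩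
        refine ⟨φ, fun x hx => ?_, h4⟩
        have h5 : U ⊔ span (ZMod 2) {r e} ≤ LinearMap.ker φ := by
          refine sup_le (fun x hx => LinearMap.mem_ker.2 (h2 x hx)) (span_le.2 ?_)
          rintro _ rfl
          exact LinearMap.mem_ker.2 h3
        exact LinearMap.mem_ker.1 (h5 hx)
    have hPf : HasFun r (insert e P) U ↔ ∃ φ : V →ₗ[ZMod 2] ZMod 2,
        (∀ x ∈ U, φ x = 0) ∧ φ (r e) = 1 ∧ ∀ i ∈ P, φ (r i) = 1 := by
      constructor
      · rintro ⟨φ, h2, h3⟩
        exact ⟨φ, h2, h3 e (Finset.mem_insert_self e P), fun i hi =>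
          h3 i (Finset.mem_insert_of_mem hi)⟩
      · rintro ⟨φ, h2, h3, h4⟩
        refine ⟨φ, h2, fun i hi => ?_⟩
        rcases Finset.mem_insert.1 hi with rfl | hi
        · exact h3
        · exact h4 i hi
    rw [h1, ih]
    by_cases hre : r e ∈ W
    · have h2 : (U ⊔ span (ZMod 2) {r e}) ⊔ span (ZMod 2) (r '' (P : Set ι)) = W := by
        refine le_antisymm (sup_le (sup_le hUW ((span_singleton_le_iff_mem _ _).2 hre)) ?_) ?_
        · rw [hW]
          exact le_sup_right
        · rw [hW]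
          exact sup_le_sup_right le_sup_left _
      rw [h2]
      have h3 : (∑ A ∈ P.powerset, (if U ⊔ span (ZMod 2) (r '' (A : Set ι)) = W then (1 : ZMod 2)
          else 0)) = cnt r P U := by
        unfold cnt
        rw [← hW]
      rw [h3, ih]
      by_cases hf : HasFun r (insert e P) U
      · rw [if_pos hf]
        obtain ⟨φ, h4, h5, h6⟩ := hPf.1 hf
        rw [if_pos ⟨φ, h4, h6⟩, if_neg, add_zero]
        intro h7
        obtain ⟨χ, h8, h9, h10⟩ := hP1.1 h7
        have h11 := hvan (φ - χ) (fun x hx => by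
          rw [LinearMap.sub_apply, h4 x hx, h8 x hx, sub_self]) (fun i hi => by
          rw [LinearMap.sub_apply, h6 i hi, h10 i hi, sub_self]) _ hre
        rw [LinearMap.sub_apply, h5, h9, sub_zero] at h11
        exact one_ne_zero h11
      · rw [if_neg hf]
        by_cases hg : HasFun r P U
        · obtain ⟨φ, h4, h6⟩ := hg
          have h5 : φ (r e) = 0 := by
            refine (hz _).resolve_right fun h5 => hf (hPf.2 ⟨φ, h4, h5, h6⟩)
          rw [if_pos ⟨φ, h4, h6⟩, if_pos (hP1.2 ⟨φ, h4, h5, h6⟩)]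
          decide
        · rw [if_neg hg, if_neg, add_zero]
          intro h7
          obtain ⟨χ, h8, h9, h10⟩ := hP1.1 h7
          exact hg ⟨χ, h8, h10⟩
    · have h2 : (∑ A ∈ P.powerset, (if U ⊔ span (ZMod 2) (r '' (A : Set ι)) =
          (U ⊔ span (ZMod 2) {r e}) ⊔ span (ZMod 2) (r '' (P : Set ι)) then (1 : ZMod 2)
          else 0)) = 0 := by
        refine Finset.sum_eq_zero fun A hA => ?_
        rw [if_neg]
        intro h3
        refine hre (hAW A hA ?_)
        rw [h3]
        exact (le_sup_left : U ⊔ span (ZMod 2) {r e} ≤ _)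
          ((le_sup_right : span (ZMod 2) {r e} ≤ U ⊔ _) (mem_span_singleton_self _))
      rw [h2, zero_add]
      refine if_congr ?_ rfl rfl
      rw [hP1, hPf]
      obtain ⟨χ, hχ1, hχ2⟩ := Submodule.exists_le_ker_of_notMem hre
      have hχe : χ (r e) = 1 := (hz _).resolve_left hχ1
      have hχU : ∀ x ∈ U, χ x = 0 := fun x hx => LinearMap.mem_ker.1 (hχ2 (hUW hx))
      have hχP : ∀ i ∈ P, χ (r i) = 0 := fun i hi => LinearMap.mem_ker.1 (hχ2 (hPW i hi))
      constructor
      · rintro ⟨φ, h4, h5, h6⟩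
        refine ⟨φ + χ, fun x hx => ?_, ?_, fun i hi => ?_⟩
        · rw [LinearMap.add_apply, h4 x hx, hχU x hx, add_zero]
        · rw [LinearMap.add_apply, h5, hχe, zero_add]
        · rw [LinearMap.add_apply, h6 i hi, hχP i hi, add_zero]
      · rintro ⟨φ, h4, h5, h6⟩
        refine ⟨φ + χ, fun x hx => ?_, ?_, fun i hi => ?_⟩
        · rw [LinearMap.add_apply, h4 x hx, hχU x hx, add_zero]
        · rw [LinearMap.add_apply, h5, hχe]
          decide
        · rw [LinearMap.add_apply, h6 i hi, hχP i hi, add_zero]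

end

/-! ### principal submatrices -/

section

variable {n : ℕ}

/-- the vectors supported on `A` -/
def EA (A : Finset (Fin n)) : Submodule (ZMod 2) (Fin n → ZMod 2) where
  carrier := {x | ∀ i, i ∉ A → x i = 0}
  add_mem' := fun {a b} ha hb i hi => by rw [Pi.add_apply, ha i hi, hb i hi, add_zero]
  zero_mem' := fun _ _ => rfl
  smul_mem' := fun r a ha i hi => by rw [Pi.smul_apply, ha i hi, smul_zero]

theorem mem_EA {A : Finset (Fin n)} {x : Fin n → ZMod 2} : x ∈ EA A ↔ ∀ i, i ∉ A → x i = 0 :=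
  Iff.rfl

theorem EA_mono {A A' : Finset (Fin n)} (h : A ⊆ A') : EA A ≤ EA A' :=
  fun _ hx i hi => hx i fun h1 => hi (h h1)

theorem finrank_EA (A : Finset (Fin n)) : finrank (ZMod 2) (EA A) = A.card := by
  classical
  obtain ⟨e, he⟩ : ∃ e : EA A ≃ₗ[ZMod 2] (↥A → ZMod 2), ∀ x c, e x c = x.1 c.1 := by
    refine ⟨{ toFun := fun x c => x.1 c.1
              map_add' := fun x y => rfl
              map_smul' := fun r x => rfl
              invFun := fun f => ⟨fun i => if h : i ∈ A then f ⟨i, h⟩ else 0, fun i hi => dif_neg hi⟩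
              left_inv := fun x => ?_
              right_inv := fun f => ?_ }, fun _ _ => rfl⟩
    · apply Subtype.ext
      funext i
      by_cases hi : i ∈ A
      · exact dif_pos hi
      · exact (dif_neg hi).trans (x.2 i hi).symm
    · funext c
      exact dif_pos c.2
  rw [e.finrank_eq, Module.finrank_fintype_fun_eq_card, Fintype.card_coe]

theorem EA_span (A : Finset (Fin n)) :
    EA A = span (ZMod 2) ((fun i => (Pi.single i 1 : Fin n → ZMod 2)) '' (A : Set (Fin n))) := by
  classical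
  refine le_antisymm (fun x hx => ?_) (span_le.2 ?_)
  · have h1 : x = ∑ i ∈ A, x i • (Pi.single i 1 : Fin n → ZMod 2) := by
      funext j
      rw [Finset.sum_apply]
      by_cases hj : j ∈ A
      · rw [Finset.sum_eq_single j]
        · rw [Pi.smul_apply, Pi.single_eq_same, smul_eq_mul, mul_one]
        · intro i _ hij
          rw [Pi.smul_apply, Pi.single_eq_of_ne (Ne.symm hij), smul_zero]
        · exact fun h => absurd hj h
      · rw [hx j hj]
        symm
        refine Finset.sum_eq_zero fun i hi => ?_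
        rw [Pi.smul_apply, Pi.single_eq_of_ne, smul_zero]
        rintro rfl
        exact hj hi
    rw [h1]
    exact Submodule.sum_mem _ fun i hi => Submodule.smul_mem _ _
      (subset_span ⟨i, Finset.mem_coe.2 hi, rfl⟩)
  · rintro _ ⟨i, hi, rfl⟩
    intro j hj
    show (Pi.single i 1 : Fin n → ZMod 2) j = 0
    rw [Pi.single_eq_of_ne]
    rintro rfl
    exact hj (Finset.mem_coe.1 hi)

/-- the kernel of the submatrix of the rows and columns in `A` -/
noncomputable def kerS (M : Matrix (Fin n) (Fin n) (ZMod 2)) (A : Finset (Fin n)) :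
    Submodule (ZMod 2) (Fin n → ZMod 2) := LinearMap.ker (remM M (Finset.univ \ A)).mulVecLin

theorem crk_kerS (M : Matrix (Fin n) (Fin n) (ZMod 2)) (A : Finset (Fin n)) :
    crk (remM M (Finset.univ \ A)) = finrank (ZMod 2) (kerS M A) := rfl

theorem mem_kerS {M : Matrix (Fin n) (Fin n) (ZMod 2)} {A : Finset (Fin n)} {x : Fin n → ZMod 2} :
    x ∈ kerS M A ↔ x ∈ EA A ∧ ∀ i ∈ A, M.mulVec x i = 0 := by
  classical
  have hout : ∀ c, c ∉ A → (remM M (Finset.univ \ A)).mulVec x c = x c := by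
    intro c hc
    show ∑ j, remM M (Finset.univ \ A) c j * x j = x c
    have hcR : c ∈ Finset.univ \ A := Finset.mem_sdiff.2 ⟨Finset.mem_univ c, hc⟩
    rw [Finset.sum_eq_single c]
    · rw [remM_apply, if_pos (Or.inl hcR), if_pos rfl, one_mul]
    · intro i _ hi
      rw [remM_apply, if_pos (Or.inl hcR), if_neg (Ne.symm hi), zero_mul]
    · intro h
      exact absurd (Finset.mem_univ c) h
  have hin : x ∈ EA A → ∀ i ∈ A, (remM M (Finset.univ \ A)).mulVec x i = M.mulVec x i := by
    intro hx i hi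
    show ∑ j, remM M (Finset.univ \ A) i j * x j = ∑ j, M i j * x j
    refine Finset.sum_congr rfl fun j _ => ?_
    by_cases hj : j ∈ A
    · rw [remM_apply, if_neg]
      rw [Finset.mem_sdiff, Finset.mem_sdiff]
      rintro (h | h)
      · exact h.2 hi
      · exact h.2 hj
    · rw [hx j hj, mul_zero, mul_zero]
  unfold kerS
  rw [LinearMap.mem_ker, Matrix.mulVecLin_apply]
  constructor
  · intro h
    have h1 : x ∈ EA A := by
      intro c hc
      rw [← hout c hc, h]
      rfl
    exact ⟨h1, fun i hi => by rw [← hin h1 i hi, h]; rfl⟩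
  · rintro ⟨h1, h2⟩
    funext i
    by_cases hi : i ∈ A
    · rw [hin h1 i hi, h2 i hi]
      rfl
    · rw [hout i hi, h1 i hi]
      rfl

/-- **The coranks of the principal submatrices** -/
theorem crk_sub (M : Matrix (Fin n) (Fin n) (ZMod 2)) (hM : ∀ i j, M i j = M j i)
    (J A : Finset (Fin n)) (hA : A ⊆ J) :
    (EA A ⊔ kerS M J = EA J → finrank (ZMod 2) (kerS M A) + J.card =
      A.card + finrank (ZMod 2) (kerS M J)) ∧
    (EA A ⊔ kerS M J ≠ EA J → A.card + finrank (ZMod 2) (kerS M J) <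
      finrank (ZMod 2) (kerS M A) + J.card) := by
  have hKJ : kerS M J ≤ EA J := fun x hx => (mem_kerS.1 hx).1
  have hsup : EA A ⊔ kerS M J ≤ EA J := sup_le (EA_mono hA) hKJ
  have hinf : EA A ⊓ kerS M J ≤ kerS M A := by
    intro x hx
    obtain ⟨h1, h2⟩ := Submodule.mem_inf.1 hx
    exact mem_kerS.2 ⟨h1, fun i hi => (mem_kerS.1 h2).2 i (hA hi)⟩
  have hdim := Submodule.finrank_sup_add_finrank_inf_eq (EA A) (kerS M J)
  rw [finrank_EA] at hdim
  constructor
  · intro heq
    have hle : kerS M A ≤ EA A ⊓ kerS M J := by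
      intro x hx
      obtain ⟨h1, h2⟩ := mem_kerS.1 hx
      refine Submodule.mem_inf.2 ⟨h1, mem_kerS.2 ⟨EA_mono hA h1, fun i hi => ?_⟩⟩
      have h3 : (Pi.single i 1 : Fin n → ZMod 2) ∈ EA A ⊔ kerS M J := by
        rw [heq]
        intro j hj
        rw [Pi.single_eq_of_ne]
        rintro rfl
        exact hj hi
      obtain ⟨y, hy, z, hz, hyz⟩ := Submodule.mem_sup.1 h3
      have h4 : (Pi.single i 1 : Fin n → ZMod 2) ⬝ᵥ M.mulVec x = M.mulVec x i := by
        rw [single_one_dotProduct]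
      rw [← h4, ← hyz, add_dotProduct]
      have h5 : y ⬝ᵥ M.mulVec x = 0 := by
        unfold dotProduct
        refine Finset.sum_eq_zero fun j _ => ?_
        by_cases hj : j ∈ A
        · rw [h2 j hj, mul_zero]
        · rw [hy j hj, zero_mul]
      have h6 : z ⬝ᵥ M.mulVec x = 0 := by
        rw [dot_comm' M hM]
        unfold dotProduct
        refine Finset.sum_eq_zero fun j _ => ?_
        by_cases hj : j ∈ A
        · rw [(mem_kerS.1 hz).2 j (hA hj), mul_zero]
        · rw [h1 j hj, zero_mul]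
      rw [h5, h6, add_zero]
    have h7 : kerS M A = EA A ⊓ kerS M J := le_antisymm hle hinf
    rw [heq, finrank_EA] at hdim
    rw [h7]
    omega
  · intro hne
    have h1 := Submodule.finrank_lt_finrank_of_lt (lt_of_le_of_ne hsup hne)
    rw [finrank_EA] at h1
    have h2 := Submodule.finrank_mono hinf
    omega

/-- the sum over the sets of rows which contain the rows of `A`, at one -/
noncomputable def hZ (M : Matrix (Fin n) (Fin n) (ZMod 2)) (σ : Fin n → Bool)
    (A : Finset (Fin n)) : ℤ :=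
  evZ (Lin.HH M (fun c => qu ℤ (σ c)) Finset.univ (ph ℤ M) A)

theorem hZ_mul (M : Matrix (Fin n) (Fin n) (ZMod 2)) (hM : ∀ i j, M i j = M j i)
    (σ : Fin n → Bool) (A : Finset (Fin n)) : (-2 : ℤ) ^ A.card * hZ M σ A =
      (-1) ^ n * (-2) ^ (M.rank + finrank (ZMod 2) (kerS M A)) := by
  have h1 := congrArg evZ (HH_eq (K := ℤ) M hM σ A)
  rw [map_mul, map_mul, map_pow, map_pow, evZ_dl, evZ_gg M hM, crk_kerS] at h1
  unfold hZ
  rw [h1, pow_add]
  have h2 : A.card + (Finset.univ \ A).card = n := by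
    have h3 := Finset.card_sdiff_add_card_eq_card (Finset.subset_univ A)
    rw [Finset.card_univ, Fintype.card_fin] at h3
    omega
  have h3 : (-1 : ℤ) ^ A.card * (-1) ^ (Finset.univ \ A).card = (-1) ^ n := by
    rw [← pow_add, h2]
  rw [← h3]
  ring

/-- the difference of the ranks of the submatrices of `J` and of `A` -/
noncomputable def rdiff (M : Matrix (Fin n) (Fin n) (ZMod 2)) (J A : Finset (Fin n)) : ℕ :=
  finrank (ZMod 2) (kerS M A) + J.card - (A.card + finrank (ZMod 2) (kerS M J))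

theorem rdiff_zero (M : Matrix (Fin n) (Fin n) (ZMod 2)) (hM : ∀ i j, M i j = M j i)
    (J A : Finset (Fin n)) (hA : A ⊆ J) : rdiff M J A = 0 ↔ EA A ⊔ kerS M J = EA J := by
  obtain ⟨h1, h2⟩ := crk_sub M hM J A hA
  unfold rdiff
  constructor
  · intro h
    by_contra hne
    have h3 := h2 hne
    omega
  · intro h
    have h3 := h1 h
    omega

/-- **The values at one** -/
theorem hZ_eq (M : Matrix (Fin n) (Fin n) (ZMod 2)) (hM : ∀ i j, M i j = M j i)
    (σ : Fin n → Bool) (J : Finset (Fin n)) :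
    ∃ q : ℕ, q + J.card = M.rank + finrank (ZMod 2) (kerS M J) ∧
      ∀ A ⊆ J, hZ M σ A = (-1) ^ n * (-2) ^ (q + rdiff M J A) := by
  have hpow : ∀ m : ℕ, (-2 : ℤ) ^ m ≠ 0 := fun m => pow_ne_zero _ (by norm_num)
  have hle : J.card ≤ M.rank + finrank (ZMod 2) (kerS M J) := by
    have h1 := congrArg Int.natAbs (hZ_mul M hM σ J)
    rw [Int.natAbs_mul, Int.natAbs_mul, Int.natAbs_pow, Int.natAbs_pow, Int.natAbs_pow] at h1
    have h3 : (-1 : ℤ).natAbs = 1 := rfl
    have h4 : (-2 : ℤ).natAbs = 2 := rfl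
    rw [h3, h4, one_pow, one_mul] at h1
    exact (Nat.pow_dvd_pow_iff_le_right (by norm_num)).1 ⟨_, h1.symm⟩
  refine ⟨M.rank + finrank (ZMod 2) (kerS M J) - J.card, by omega, fun A hA => ?_⟩
  obtain ⟨h1, h2⟩ := crk_sub M hM J A hA
  have h3 : A.card + finrank (ZMod 2) (kerS M J) ≤ finrank (ZMod 2) (kerS M A) + J.card := by
    by_cases h : EA A ⊔ kerS M J = EA J
    · exact (h1 h).ge
    · exact (h2 h).le
  have h4 := hZ_mul M hM σ A
  have h5 : M.rank + finrank (ZMod 2) (kerS M A) =
      A.card + (M.rank + finrank (ZMod 2) (kerS M J) - J.card + rdiff M J A) := by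
    unfold rdiff
    omega
  rw [h5, pow_add (-2 : ℤ) A.card] at h4
  refine mul_left_cancel₀ (hpow A.card) ?_
  rw [h4]
  ring

open Classical in
/-- the classes in `J` whose rows are not in `F` -/
noncomputable def outJ (M : Matrix (Fin n) (Fin n) (ZMod 2)) (J : Finset (Fin n))
    (F : Finset (Fin n → ZMod 2)) : Finset (Fin n) := J.filter fun i => M i ∉ F

theorem mem_outJ {M : Matrix (Fin n) (Fin n) (ZMod 2)} {J : Finset (Fin n)}
    {F : Finset (Fin n → ZMod 2)} {i : Fin n} : i ∈ outJ M J F ↔ i ∈ J ∧ M i ∉ F := by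
  simp only [outJ, Finset.mem_filter]

/-- **The part of the states with a given set of classes** -/
theorem part_sum (M : Matrix (Fin n) (Fin n) (ZMod 2)) (σ : Fin n → Bool) (J L : Finset (Fin n))
    (hinj : Set.InjOn M (J : Set (Fin n))) (hL : L ⊆ J) :
    ∑ F ∈ (Finset.univ.image M).powerset, (if outJ M J F = L then
      evZ (Lin.GG M (fun c => qu ℤ (σ c)) Finset.univ (ph ℤ M) F) else 0) =
      ∑ B ∈ L.powerset, (-1) ^ B.card * hZ M σ ((J \ L) ∪ B) := by
  classical
  have hh : ∀ A ⊆ J, hZ M σ A = ∑ F ∈ (Finset.univ.image M).powerset,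
      if ∀ i ∈ A, M i ∈ F then evZ (Lin.GG M (fun c => qu ℤ (σ c)) Finset.univ (ph ℤ M) F)
        else 0 := by
    intro A hA
    unfold hZ
    rw [← Lin.sum_HH M Finset.univ (ph ℤ M) A (Finset.subset_univ A)
      (hinj.mono (Finset.coe_subset.2 hA)), map_sum, Finset.sum_filter]
    refine Finset.sum_congr rfl fun F _ => ?_
    refine if_congr ?_ rfl rfl
    constructor
    · intro h i hi
      exact h (Finset.mem_image_of_mem M hi)
    · intro h v hv
      obtain ⟨i, hi, rfl⟩ := Finset.mem_image.1 hv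
      exact h i hi
  have h1 : ∀ B ∈ L.powerset, (-1 : ℤ) ^ B.card * hZ M σ ((J \ L) ∪ B) =
      ∑ F ∈ (Finset.univ.image M).powerset, (if ∀ i ∈ J \ L, M i ∈ F then
        (∏ i ∈ B, (-(if M i ∈ F then (1 : ℤ) else 0))) *
          evZ (Lin.GG M (fun c => qu ℤ (σ c)) Finset.univ (ph ℤ M) F) else 0) := by
    intro B hB
    rw [Finset.mem_powerset] at hB
    rw [hh _ (Finset.union_subset Finset.sdiff_subset (hB.trans hL)), Finset.mul_sum]
    refine Finset.sum_congr rfl fun F _ => ?_
    have h2 : (∀ i ∈ (J \ L) ∪ B, M i ∈ F) ↔ (∀ i ∈ J \ L, M i ∈ F) ∧ ∀ i ∈ B, M i ∈ F := by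
      constructor
      · intro h
        exact ⟨fun i hi => h i (Finset.mem_union_left _ hi),
          fun i hi => h i (Finset.mem_union_right _ hi)⟩
      · rintro ⟨h3, h4⟩ i hi
        rcases Finset.mem_union.1 hi with hi | hi
        · exact h3 i hi
        · exact h4 i hi
    have h3 : ∏ i ∈ B, (-(if M i ∈ F then (1 : ℤ) else 0)) =
        if ∀ i ∈ B, M i ∈ F then (-1) ^ B.card else 0 := by
      by_cases h4 : ∀ i ∈ B, M i ∈ F
      · rw [if_pos h4, ← Finset.prod_const]
        exact Finset.prod_congr rfl fun i hi => by rw [if_pos (h4 i hi)]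
      · rw [if_neg h4]
        push Not at h4
        obtain ⟨i, hi, h5⟩ := h4
        exact Finset.prod_eq_zero hi (by rw [if_neg h5, neg_zero])
    rw [h3]
    by_cases h4 : ∀ i ∈ J \ L, M i ∈ F
    · by_cases h5 : ∀ i ∈ B, M i ∈ F
      · rw [if_pos (h2.2 ⟨h4, h5⟩), if_pos h4, if_pos h5]
      · rw [if_neg fun h => h5 (h2.1 h).2, if_pos h4, if_neg h5, mul_zero, zero_mul]
    · rw [if_neg fun h => h4 (h2.1 h).1, if_neg h4, mul_zero]
  rw [Finset.sum_congr rfl h1, Finset.sum_comm]
  refine Finset.sum_congr rfl fun F _ => ?_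
  by_cases h4 : ∀ i ∈ J \ L, M i ∈ F
  · simp only [if_pos h4]
    rw [← Finset.sum_mul, ← Finset.prod_one_add]
    have h5 : ∏ i ∈ L, (1 + -(if M i ∈ F then (1 : ℤ) else 0)) =
        if outJ M J F = L then 1 else 0 := by
      by_cases h6 : outJ M J F = L
      · rw [if_pos h6]
        refine Finset.prod_eq_one fun i hi => ?_
        rw [← h6] at hi
        rw [if_neg (mem_outJ.1 hi).2]
        norm_num
      · rw [if_neg h6]
        have h7 : ∃ i ∈ L, M i ∈ F := by
          by_contra hno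
          push Not at hno
          apply h6
          ext i
          rw [mem_outJ]
          constructor
          · rintro ⟨h8, h9⟩
            by_contra h10
            exact h9 (h4 i (Finset.mem_sdiff.2 ⟨h8, h10⟩))
          · intro h8
            exact ⟨hL h8, hno i h8⟩
        obtain ⟨i, hi, h8⟩ := h7
        exact Finset.prod_eq_zero hi (by rw [if_pos h8]; norm_num)
    rw [h5]
    by_cases h6 : outJ M J F = L
    · rw [if_pos h6, if_pos h6, one_mul]
    · rw [if_neg h6, if_neg h6, zero_mul]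
  · simp only [if_neg h4]
    rw [if_neg, Finset.sum_const_zero]
    intro h6
    apply h4
    intro i hi
    rw [Finset.mem_sdiff, ← h6] at hi
    by_contra h7
    exact hi.2 (mem_outJ.2 ⟨hi.1, h7⟩)

/-- the condition of the parity theorem -/
theorem hasFun_iff (M : Matrix (Fin n) (Fin n) (ZMod 2)) (J L : Finset (Fin n)) (hL : L ⊆ J) :
    HasFun (fun i => (Pi.single i 1 : Fin n → ZMod 2)) L (kerS M J ⊔ EA (J \ L)) ↔
      ∀ x ∈ kerS M J, ∑ i ∈ L, x i = 0 := by
  classical
  constructor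
  · rintro ⟨φ, h1, h2⟩ x hx
    have h3 : x = ∑ i ∈ L, x i • (Pi.single i 1 : Fin n → ZMod 2) +
        ∑ i ∈ J \ L, x i • (Pi.single i 1 : Fin n → ZMod 2) := by
      rw [add_comm, Finset.sum_sdiff hL]
      funext j
      rw [Finset.sum_apply]
      by_cases hj : j ∈ J
      · rw [Finset.sum_eq_single j]
        · rw [Pi.smul_apply, Pi.single_eq_same, smul_eq_mul, mul_one]
        · intro i _ hij
          rw [Pi.smul_apply, Pi.single_eq_of_ne (Ne.symm hij), smul_zero]
        · exact fun h => absurd hj h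
      · rw [(mem_kerS.1 hx).1 j hj]
        symm
        refine Finset.sum_eq_zero fun i hi => ?_
        rw [Pi.smul_apply, Pi.single_eq_of_ne, smul_zero]
        rintro rfl
        exact hj hi
    have h4 := h1 x (le_sup_left (α := Submodule (ZMod 2) (Fin n → ZMod 2)) hx)
    rw [h3, map_add, map_sum, map_sum] at h4
    have h5 : ∑ i ∈ J \ L, φ (x i • (Pi.single i 1 : Fin n → ZMod 2)) = 0 := by
      refine Finset.sum_eq_zero fun i hi => ?_
      rw [map_smul, h1, smul_zero]
      refine (le_sup_right : EA (J \ L) ≤ kerS M J ⊔ _) ?_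
      intro j hj
      rw [Pi.single_eq_of_ne]
      rintro rfl
      exact hj hi
    rw [h5, add_zero] at h4
    rw [← h4]
    refine Finset.sum_congr rfl fun i hi => ?_
    rw [map_smul, h2 i hi, smul_eq_mul, mul_one]
  · intro h
    refine ⟨∑ i ∈ L, LinearMap.proj i, ?_, fun i hi => ?_⟩
    · have h1 : kerS M J ⊔ EA (J \ L) ≤
          LinearMap.ker (∑ i ∈ L, (LinearMap.proj i : (Fin n → ZMod 2) →ₗ[ZMod 2] ZMod 2)) := by
        refine sup_le (fun x hx => ?_) (fun x hx => ?_)
        · rw [LinearMap.mem_ker, LinearMap.sum_apply]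
          exact h x hx
        · rw [LinearMap.mem_ker, LinearMap.sum_apply]
          refine Finset.sum_eq_zero fun i hi => ?_
          exact hx i fun h2 => (Finset.mem_sdiff.1 h2).2 hi
      exact fun x hx => LinearMap.mem_ker.1 (h1 hx)
    · rw [LinearMap.sum_apply, Finset.sum_eq_single i]
      · exact Pi.single_eq_same i 1
      · intro j _ hji
        exact Pi.single_eq_of_ne hji 1
      · exact fun h => absurd hi h

open Classical in
/-- **The parity criterion**: if the sum over the sets of rows whose class sets are in `Λ` is divisible by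
`(-2) ^ rank` at one, and the submatrix of `J` is not zero, then the number of the sets in `Λ` which are
orthogonal to the kernel of the submatrix of `J` is even. -/
theorem parity_main (M : Matrix (Fin n) (Fin n) (ZMod 2)) (hM : ∀ i j, M i j = M j i)
    (σ : Fin n → Bool) (J : Finset (Fin n)) (hinj : Set.InjOn M (J : Set (Fin n)))
    (hR : finrank (ZMod 2) (kerS M J) < J.card) (Λ : Finset (Finset (Fin n)))
    (hΛ : ∀ L ∈ Λ, L ⊆ J) (t : ℤ)
    (ht : ∑ F ∈ (Finset.univ.image M).powerset, (if outJ M J F ∈ Λ then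
      evZ (Lin.GG M (fun c => qu ℤ (σ c)) Finset.univ (ph ℤ M) F) else 0) = (-2) ^ M.rank * t) :
    Even (Λ.filter fun L => ∀ x ∈ kerS M J, ∑ i ∈ L, x i = 0).card := by
  obtain ⟨q, hq, hh⟩ := hZ_eq M hM σ J
  have h1 : ∑ L ∈ Λ, ∑ B ∈ L.powerset, (-1 : ℤ) ^ B.card * hZ M σ ((J \ L) ∪ B) =
      (-2) ^ M.rank * t := by
    rw [← ht, ← Finset.sum_congr rfl fun L hL => part_sum M σ J L hinj (hΛ L hL), Finset.sum_comm]
    refine Finset.sum_congr rfl fun F _ => ?_
    rw [Finset.sum_ite_eq]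
  have h2 : ∑ L ∈ Λ, ∑ B ∈ L.powerset, (-1 : ℤ) ^ B.card * hZ M σ ((J \ L) ∪ B) =
      (-1) ^ n * (-2) ^ q *
        ∑ L ∈ Λ, ∑ B ∈ L.powerset, (-1 : ℤ) ^ B.card * (-2) ^ rdiff M J ((J \ L) ∪ B) := by
    rw [Finset.mul_sum]
    refine Finset.sum_congr rfl fun L hL => ?_
    rw [Finset.mul_sum]
    refine Finset.sum_congr rfl fun B hB => ?_
    rw [hh _ (Finset.union_subset Finset.sdiff_subset ((Finset.mem_powerset.1 hB).trans
      (hΛ L hL))), pow_add]
    ring
  obtain ⟨m, hm⟩ : ∃ m, M.rank = q + (m + 1) :=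
    ⟨J.card - finrank (ZMod 2) (kerS M J) - 1, by omega⟩
  have h3 : ∑ L ∈ Λ, ∑ B ∈ L.powerset, (-1 : ℤ) ^ B.card * (-2) ^ rdiff M J ((J \ L) ∪ B) =
      (-1) ^ n * (-2) ^ (m + 1) * t := by
    have h4 : (-1 : ℤ) ^ n * (-2) ^ q ≠ 0 :=
      mul_ne_zero (pow_ne_zero _ (by norm_num)) (pow_ne_zero _ (by norm_num))
    refine mul_left_cancel₀ h4 ?_
    rw [← h2, h1, hm, pow_add]
    have h5 : (-1 : ℤ) ^ n * (-1) ^ n = 1 := by
      rw [← mul_pow]
      norm_num
    linear_combination (-(-2 : ℤ) ^ q * (-2) ^ (m + 1) * t) * h5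
  have h4 := congrArg (fun z : ℤ => (z : ZMod 2)) h3
  simp only [Int.cast_sum, Int.cast_mul, Int.cast_pow, Int.cast_neg, Int.cast_one,
    Int.cast_ofNat] at h4
  have h20 : (-2 : ZMod 2) = 0 := by decide
  have h11 : (-1 : ZMod 2) = 1 := by decide
  rw [h20, h11, zero_pow (Nat.succ_ne_zero m), mul_zero, zero_mul] at h4
  simp only [one_pow, one_mul] at h4
  have h5 : ∀ L ∈ Λ, ∑ B ∈ L.powerset, (0 : ZMod 2) ^ rdiff M J ((J \ L) ∪ B) =
      if ∀ x ∈ kerS M J, ∑ i ∈ L, x i = 0 then 1 else 0 := by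
    intro L hL
    have hLJ := hΛ L hL
    have h6 := cnt_eq (fun i => (Pi.single i 1 : Fin n → ZMod 2)) L (kerS M J ⊔ EA (J \ L))
    have h7 : (if HasFun (fun i => (Pi.single i 1 : Fin n → ZMod 2)) L
        (kerS M J ⊔ EA (J \ L)) then (1 : ZMod 2) else 0) =
        if ∀ x ∈ kerS M J, ∑ i ∈ L, x i = 0 then 1 else 0 :=
      if_congr (hasFun_iff M J L hLJ) rfl rfl
    rw [← h7, ← h6]
    unfold cnt
    refine Finset.sum_congr rfl fun B hB => ?_
    rw [Finset.mem_powerset] at hB
    have hA : (J \ L) ∪ B ⊆ J := Finset.union_subset Finset.sdiff_subset (hB.trans hLJ)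
    have h8 : ∀ C ⊆ L, kerS M J ⊔ EA (J \ L) ⊔ span (ZMod 2)
        ((fun i => (Pi.single i 1 : Fin n → ZMod 2)) '' (C : Set (Fin n))) =
        EA ((J \ L) ∪ C) ⊔ kerS M J := by
      intro C _
      rw [EA_span ((J \ L) ∪ C), Finset.coe_union, Set.image_union, span_union,
        ← EA_span (J \ L), sup_assoc, sup_comm]
    have h9 : EA ((J \ L) ∪ L) ⊔ kerS M J = EA J := by
      rw [Finset.sdiff_union_of_subset hLJ]
      exact sup_eq_left.2 fun x hx => (mem_kerS.1 hx).1
    rw [h8 B hB, h8 L (Finset.Subset.refl L), h9]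
    by_cases h10 : EA ((J \ L) ∪ B) ⊔ kerS M J = EA J
    · rw [if_pos h10, (rdiff_zero M hM J _ hA).2 h10, pow_zero]
    · rw [if_neg h10, zero_pow]
      exact fun h11 => h10 ((rdiff_zero M hM J _ hA).1 h11)
  rw [Finset.sum_congr rfl h5, Finset.sum_boole] at h4
  exact (ZMod.natCast_eq_zero_iff_even).1 h4

end

end Pool.Agent.NHT
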