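import Mathlib
import Pool.Agent.NHT.TwoAdic
import Pool.Agent.NHT.Psi

/-!
# NHT, module TwoAdicK: the parity criterion for diagrams (helper19)
-/

set_option autoImplicit false
set_option linter.unusedSectionVars false

open Module Submodule Pool.Agent.UNI LaurentPolynomial Pool.Agent.SPT Pool.Agent.SPT.Rel
  Pool.Agent.SPT.Lin Pool.Agent.SRH Pool.Agent.EQT Pool.Agent.FHP Pool.Agent.TRA Pool.Agent.TRP

namespace Pool.Agent.NHT

open Pool.Agent.Helper16.Knotoid

variable {n : ℕ}

theorem evZ_C (a : ℤ) : evZ (C a) = a := by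
  unfold evZ
  rw [eval₂_C, RingHom.id_apply]

open Classical in
/-- **The parity criterion for a matrix** -/
theorem twoAdic (M : Matrix (Fin n) (Fin n) (ZMod 2)) (hM : ∀ i j, M i j = M j i)
    (σ : Fin n → Bool) (B : ℕ) (hB : (SS ℤ M σ).coeff.support.card ≤ B)
    (J : Finset (Fin n)) (hinj : Set.InjOn M (J : Set (Fin n)))
    (hR : finrank (ZMod 2) (kerS M J) < J.card) (Λ : Finset (Finset (Fin n)))
    (hΛ : ∀ L ∈ Λ, L ⊆ J)
    (hcl : ∀ F ∈ FL M, ∀ F' ∈ FL M,
      |∑ v ∈ F, tw M σ v - ∑ v ∈ F', tw M σ v| < 2 * ((B : ℤ) + 2) * (M.rank + 1) →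
      outJ M J F ∈ Λ → outJ M J F' ∈ Λ) :
    Even (Λ.filter fun L => ∀ x ∈ kerS M J, ∑ i ∈ L, x i = 0).card := by
  obtain ⟨t, ht⟩ := HV_clusterF ℤ M hM σ B hB (fun F => if outJ M J F ∈ Λ then 1 else 0)
    (by
      intro F hF F' hF' h
      have h1 := hcl F hF F' hF' h
      have h2 := hcl F' hF' F hF (by rw [abs_sub_comm]; exact h)
      show (if outJ M J F ∈ Λ then (1 : ℤ) else 0) = if outJ M J F' ∈ Λ then 1 else 0
      exact if_congr ⟨h1, h2⟩ rfl rfl)
  refine parity_main M hM σ J hinj hR Λ hΛ (evZ t) ?_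
  have h1 := congrArg evZ ht
  rw [map_sum, map_mul, map_pow, evZ_dl] at h1
  rw [← h1]
  refine Finset.sum_congr rfl fun F _ => ?_
  rw [map_mul, evZ_C]
  by_cases h : outJ M J F ∈ Λ
  · rw [if_pos h, if_pos h, one_mul]
  · rw [if_neg h, if_neg h, zero_mul]

/-- the entries of the matrix -/
theorem gmat_entry (D : GaussDiagram n) (σ : Fin n → Bool) (i j : Fin n) :
    (D.Cut σ i j → D.gmat σ i j = 1) ∧ (¬ D.Cut σ i j → D.gmat σ i j = 0) := by
  classical
  rw [← row_eq]
  unfold row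
  exact ⟨fun h => if_pos h, fun h => if_neg h⟩

/-- sums over the rows -/
theorem gmat_mulVec (D : GaussDiagram n) (σ : Fin n → Bool) {J : Finset (Fin n)}
    {x : Fin n → ZMod 2} (hx : x ∈ EA J) (Z : Finset (Fin n))
    (hZ : ∀ c, c ∈ Z ↔ c ∈ J ∧ x c ≠ 0) (i : Fin n) [DecidablePred fun c => D.Cut σ i c] :
    (D.gmat σ).mulVec x i = ((Z.filter fun c => D.Cut σ i c).card : ZMod 2) := by
  classical
  have h1 : (D.gmat σ).mulVec x i = ∑ c, D.gmat σ i c * x c := rfl
  rw [h1, Finset.card_filter, Nat.cast_sum]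
  have hZJ : ∀ c, c ∉ Z → D.gmat σ i c * x c = 0 := by
    intro c hc
    have h2 : x c = 0 := by
      by_contra h3
      refine hc ((hZ c).2 ⟨?_, h3⟩)
      by_contra h4
      exact h3 (hx c h4)
    rw [h2, mul_zero]
  rw [← Finset.sum_subset (Finset.subset_univ Z) fun c _ hc => hZJ c hc]
  refine Finset.sum_congr rfl fun c hc => ?_
  have h4 : x c = 1 := (Lin.z2 (x c)).resolve_left ((hZ c).1 hc).2
  obtain ⟨h5, h6⟩ := gmat_entry D σ i c
  rw [h4, mul_one]
  by_cases h7 : D.Cut σ i c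
  · rw [if_pos h7, h5 h7, Nat.cast_one]
  · rw [if_neg h7, h6 h7, Nat.cast_zero]

/-- **Even sets of classes are orthogonal to the kernel** -/
theorem evenSub_iff (D : GaussDiagram n) (σ : Fin n → Bool) (J L : Finset (Fin n)) (hL : L ⊆ J) :
    EvenSub (D.Cut σ) J L ↔ ∀ x ∈ kerS (D.gmat σ) J, ∑ i ∈ L, x i = 0 := by
  classical
  have hsum : ∀ (x : Fin n → ZMod 2) (Z : Finset (Fin n)), (∀ c, c ∈ Z ↔ c ∈ J ∧ x c ≠ 0) →
      ∑ i ∈ L, x i = ((Z ∩ L).card : ZMod 2) := by
    intro x Z hZ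
    rw [Finset.card_eq_sum_ones, Nat.cast_sum, Nat.cast_one, Finset.inter_comm,
      ← Finset.sum_inter_add_sum_sdiff L Z, ]
    have h1 : ∑ i ∈ L \ Z, x i = 0 := by
      refine Finset.sum_eq_zero fun i hi => ?_
      rw [Finset.mem_sdiff] at hi
      by_contra h3
      exact hi.2 ((hZ i).2 ⟨hL hi.1, h3⟩)
    rw [h1, add_zero]
    refine Finset.sum_congr rfl fun i hi => ?_
    exact (Lin.z2 (x i)).resolve_left ((hZ i).1 (Finset.mem_inter.1 hi).2).2
  constructor
  · intro h x hx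
    obtain ⟨h1, h2⟩ := mem_kerS.1 hx
    obtain ⟨Z, hZ⟩ : ∃ Z : Finset (Fin n), ∀ c, c ∈ Z ↔ c ∈ J ∧ x c ≠ 0 :=
      ⟨J.filter fun c => x c ≠ 0, fun c => Finset.mem_filter⟩
    rw [hsum x Z hZ, ZMod.natCast_eq_zero_iff_even]
    refine h Z (fun c hc => ((hZ c).1 hc).1) fun i hi => ?_
    have h3 := gmat_mulVec D σ h1 Z hZ i
    rw [h2 i hi] at h3
    exact (ZMod.natCast_eq_zero_iff_even).1 h3.symm
  · intro h Z hZJ hev
    obtain ⟨x, hx⟩ : ∃ x : Fin n → ZMod 2, x = fun c => if c ∈ Z then 1 else 0 := ⟨_, rfl⟩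
    have hZ : ∀ c, c ∈ Z ↔ c ∈ J ∧ x c ≠ 0 := by
      intro c
      rw [hx]
      by_cases hc : c ∈ Z
      · simp [hc, hZJ hc]
      · simp [hc]
    have h1 : x ∈ EA J := by
      intro c hc
      rw [hx]
      exact if_neg fun h2 => hc (hZJ h2)
    have h2 : x ∈ kerS (D.gmat σ) J := by
      refine mem_kerS.2 ⟨h1, fun i hi => ?_⟩
      rw [gmat_mulVec D σ h1 Z hZ i, ZMod.natCast_eq_zero_iff_even]
      have h3 := hev i hi
      refine Eq.mp ?_ h3
      congr 2
    have h3 := h x h2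
    rw [hsum x Z hZ, ZMod.natCast_eq_zero_iff_even] at h3
    exact h3

/-- at most `|J|` components -/
theorem someRel_lt (D : GaussDiagram n) (σ : Fin n → Bool) (J : Finset (Fin n))
    (h : SomeRel (D.Cut σ) J) : finrank (ZMod 2) (kerS (D.gmat σ) J) < J.card := by
  have hle : kerS (D.gmat σ) J ≤ EA J := fun x hx => (mem_kerS.1 hx).1
  rw [← finrank_EA J]
  refine Submodule.finrank_lt_finrank_of_lt (lt_of_le_of_ne hle fun heq => ?_)
  obtain ⟨i, hi, j, hj, hij⟩ := h
  have h1 : (Pi.single j 1 : Fin n → ZMod 2) ∈ kerS (D.gmat σ) J := by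
    rw [heq]
    intro c hc
    rw [Pi.single_eq_of_ne]
    rintro rfl
    exact hc hj
  have h2 := (mem_kerS.1 h1).2 i hi
  rw [Matrix.mulVec_single_one] at h2
  have h3 : D.gmat σ i j = 0 := h2
  rw [(gmat_entry D σ i j).1 hij] at h3
  exact one_ne_zero h3

/-- **The parity criterion**, rows -/
theorem parity_rows (D : GaussDiagram n) (S : Finset (Fin n)) (hS : Transversal D.Interlaced S)
    (J : Finset (Fin n)) (hJ : J ⊆ S) (B : ℕ) (CycS : Finset (Fin n) → Prop)
    (hBS : Block S CycS (row (Graph_R D.Interlaced D.sign)))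
    (h : ParityCriterion S J CycS (D.Cut (cutState D.Interlaced D.sign))
      (cutTwist D.Interlaced D.sign) (2 * (B + 2) * (S.card + 1))) :
    B < D.normalizedBracket.coeff.support.card := by
  classical
  by_contra hB'
  obtain ⟨hR, Λ, hcl, hodd⟩ := h
  have hB : D.normalizedBracket.coeff.support.card ≤ B := not_lt.1 hB'
  obtain ⟨σ, hσ⟩ : ∃ σ, σ = cutState D.Interlaced D.sign := ⟨_, rfl⟩
  have hR' : Graph_R D.Interlaced D.sign = D.Cut σ := by
    rw [hσ]
    rfl
  rw [← hσ] at hodd hR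
  obtain ⟨r, hrr⟩ : ∃ r : Fin n → Fin n → ZMod 2, r = row (Graph_R D.Interlaced D.sign) :=
    ⟨_, rfl⟩
  have hr : ∀ c, r c = D.gmat σ c := by
    intro c
    rw [hrr, hR']
    exact row_eq D σ c
  have hrows : S.image r = (Finset.univ.image (D.gmat σ)).erase 0 := by
    have h1 := Graph_image (e := D.sign) (Graph_irrefl D) (Graph_int_symm D) hS
    unfold rows at h1
    rw [← hrr] at h1
    rw [← h1]
    congr 1
    exact Finset.image_congr fun c _ => hr c
  have htw : ∀ i, tw (D.gmat σ) σ (r i) = cutTwist D.Interlaced D.sign i := by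
    intro i
    have h1 := twist_row (e := D.sign) (Graph_irrefl D) (Graph_int_symm D) i
    rw [← h1, ← hrr, ← hσ]
    unfold twist tw SPT.signedCount
    refine Finset.sum_congr ?_ fun _ _ => rfl
    ext c
    simp only [Finset.mem_filter, ← hr, hrr]
  rw [← hrr] at hBS
  have hinjS : Set.InjOn r (S : Set (Fin n)) := by
    rw [hrr]
    exact Graph_inj (e := D.sign) (Graph_irrefl D) (Graph_int_symm D) hS
  have hinj : Set.InjOn (D.gmat σ) (J : Set (Fin n)) := by
    intro i hi j hj h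
    exact hinjS (hJ hi) (hJ hj) (by rw [hr, hr]; exact h)
  have hrank : (D.gmat σ).rank ≤ S.card := by
    have h1 := SRH.rank_le D σ
    rw [← hR', Graph_image (Graph_irrefl D) (Graph_int_symm D) hS] at h1
    exact h1.trans Finset.card_image_le
  -- the complements of the flats
  have hL : ∀ F ∈ FL (D.gmat σ), CycleSet CycS (S.filter fun i => r i ∉ F) ∧
      ∑ v ∈ F, tw (D.gmat σ) σ v = ∑ v ∈ Finset.univ.image (D.gmat σ), tw (D.gmat σ) σ v -
        ∑ i ∈ S.filter (fun i => r i ∉ F), cutTwist D.Interlaced D.sign i := by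
    intro F hF
    unfold FL at hF
    rw [Finset.mem_filter, Finset.mem_powerset] at hF
    refine ⟨flat_cycleSet hBS F fun i hi h1 => hF.2 _ (by
      rw [hr]
      exact Finset.mem_image_of_mem _ (Finset.mem_univ i)) h1, ?_⟩
    have h1 : Finset.univ.image (D.gmat σ) \ F = (S.filter fun i => r i ∉ F).image r := by
      ext v
      rw [Finset.mem_sdiff]
      constructor
      · rintro ⟨hv, hvF⟩
        have hv0 : v ≠ 0 := by
          rintro rfl
          exact hvF (hF.2 0 hv (zero_mem _))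
        have h2 : v ∈ S.image r := by
          rw [hrows]
          exact Finset.mem_erase.2 ⟨hv0, hv⟩
        obtain ⟨i, hi, rfl⟩ := Finset.mem_image.1 h2
        exact Finset.mem_image_of_mem _ (Finset.mem_filter.2 ⟨hi, hvF⟩)
      · intro hv
        obtain ⟨i, hi, rfl⟩ := Finset.mem_image.1 hv
        refine ⟨?_, (Finset.mem_filter.1 hi).2⟩
        rw [hr]
        exact Finset.mem_image_of_mem _ (Finset.mem_univ i)
    have h2 : ∑ i ∈ S.filter (fun i => r i ∉ F), cutTwist D.Interlaced D.sign i =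
        ∑ v ∈ Finset.univ.image (D.gmat σ) \ F, tw (D.gmat σ) σ v := by
      rw [h1, Finset.sum_image (hinjS.mono (Finset.coe_subset.2 (Finset.filter_subset _ _)))]
      exact Finset.sum_congr rfl fun i _ => (htw i).symm
    rw [h2]
    have h3 := Finset.sum_sdiff (f := fun v => tw (D.gmat σ) σ v) hF.1
    rw [← h3]
    ring
  have hJr : ∀ F : Finset (Fin n → ZMod 2),
      outJ (D.gmat σ) J F = (S.filter fun i => r i ∉ F) ∩ J := by
    intro F
    ext i
    rw [mem_outJ, Finset.mem_inter, Finset.mem_filter, ← hr]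
    constructor
    · rintro ⟨h1, h2⟩
      exact ⟨⟨hJ h1, h2⟩, h1⟩
    · rintro ⟨⟨-, h2⟩, h3⟩
      exact ⟨h3, h2⟩
  have hmem : ∀ F, outJ (D.gmat σ) J F ∈ Λ.filter (fun L => L ⊆ J) ↔
      (S.filter fun i => r i ∉ F) ∩ J ∈ Λ := by
    intro F
    rw [Finset.mem_filter, hJr]
    exact ⟨fun h => h.1, fun h => ⟨h, Finset.inter_subset_right⟩⟩
  have h1 := twoAdic (D.gmat σ) (D.gmat_symm σ) σ B (card_SSZ D σ B hB) J hinj
    (someRel_lt D σ J hR) (Λ.filter fun L => L ⊆ J) (fun L hL => (Finset.mem_filter.1 hL).2)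
    (fun F hF F' hF' hlt hin => by
      rw [hmem] at hin ⊢
      refine hcl _ _ ⟨Finset.filter_subset _ _, Finset.filter_subset _ _, (hL F hF).1,
        (hL F' hF').1, ?_⟩ hin
      rw [(hL F hF).2, (hL F' hF').2] at hlt
      have h2 : ∀ x y z : ℤ, |x - y - (x - z)| = |y - z| := by
        intro x y z
        rw [← abs_neg]
        congr 1
        ring
      rw [h2] at hlt
      refine hlt.trans_le ?_
      have h3 : ((D.gmat σ).rank : ℤ) ≤ S.card := by exact_mod_cast hrank
      push_cast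
      have h4 : (0 : ℤ) ≤ 2 * ((B : ℤ) + 2) := by positivity
      nlinarith)
  have h2 : ((Λ.filter fun L => L ⊆ J).filter fun L =>
      ∀ x ∈ kerS (D.gmat σ) J, ∑ i ∈ L, x i = 0) =
      Λ.filter fun L => L ⊆ J ∧ EvenSub (D.Cut σ) J L := by
    rw [Finset.filter_filter]
    refine Finset.filter_congr fun L _ => ?_
    constructor
    · rintro ⟨h3, h4⟩
      exact ⟨h3, (evenSub_iff D σ J L h3).2 h4⟩
    · rintro ⟨h3, h4⟩
      exact ⟨h3, (evenSub_iff D σ J L h3).1 h4⟩
  unfold evenCount at hodd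
  refine (Nat.not_even_iff_odd.2 hodd) (Eq.mp ?_ h1)
  congr 2

/-- **The parity criterion, knotoid diagrams** -/
theorem knotoidParity (D : GaussDiagram n) (S : Finset (Fin n)) (hS : Transversal D.Interlaced S)
    (J : Finset (Fin n)) (hJ : J ⊆ S) (B : ℕ)
    (h : ParityCriterion S J (HasCycleInO D ∅) (D.Cut (cutState D.Interlaced D.sign))
      (cutTwist D.Interlaced D.sign) (2 * (B + 2) * (S.card + 1))) :
    B < terms D.normalizedBracket := by
  have hBS := thm_KnotoidBlock n D S S hS (Finset.Subset.refl S)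
  rw [Finset.sdiff_self] at hBS
  exact parity_rows D S hS J hJ B _ hBS h

/-- **The parity criterion, knot diagrams** -/
theorem knotParity (g : GaussJones.Code n) (e : Fin n → Bool) (S : Finset (Fin n))
    (hS : Transversal (GaussJones.Interlaced g) S) (J : Finset (Fin n)) (hJ : J ⊆ S) (B : ℕ)
    (h : ParityCriterion S J (HasCycleIn g ∅)
      (GaussJones.Cut g e (cutState (GaussJones.Interlaced g) e))
      (cutTwist (GaussJones.Interlaced g) e) (2 * (B + 2) * (S.card + 1))) :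
    B < terms (GaussJones.fPoly g e) := by
  classical
  have hn : 0 < n := by
    obtain ⟨⟨i, -⟩, -⟩ := h
    exact i.pos
  have hBS := thm_KnotBlock n g e S S hS (Finset.Subset.refl S)
  rw [Finset.sdiff_self] at hBS
  have h0 : GaussJones.Cut g e (cutState (GaussJones.Interlaced g) e) =
      (cutOpen g e).Cut (cutState (GaussJones.Interlaced g) e) := by
    funext i j
    exact propext (UNI.cut_closed g e _ i j)
  rw [h0] at h
  rw [f_closed hn]
  rw [← interlaced_fun g e] at hS h hBS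
  exact parity_rows (cutOpen g e) S hS J hJ B _ hBS h

end Pool.Agent.NHT
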