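import Mathlib
import Pool.Agent.NHT.CompW
import Pool.Agent.NHT.Defs14
import Pool.Agent.NHT.DefsE
import Pool.Agent.NHT.TwoAdicK

/-!
# NHT, module Ends: isolated sets with an even number of ends on each component of `D_J` (helper39)

If `D_J` has at most `|J|` components, and a set `L₀` of classes in `J` is isolated and has an even number
of ends on each component of `D_J`, then `f` has more than `B` terms.  For instance `L₀` is the empty set,
or `D_J` is a diagram of a knot.
-/

set_option autoImplicit false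
set_option linter.unusedSectionVars false

open Module Submodule Pool.Agent.UNI LaurentPolynomial Pool.Agent.SPT Pool.Agent.SPT.Rel
  Pool.Agent.SPT.Lin Pool.Agent.SRH Pool.Agent.EQT Pool.Agent.FHP Pool.Agent.TRA Pool.Agent.TRP

namespace Pool.Agent.NHT

open Pool.Agent.Helper16.Knotoid

variable {n : ℕ}

/-- **A vector in the kernel of the cut matrix of `J` is the jump of a function on the components of
`D_J`** -/
theorem kerS_compat (hn2 : 0 < 2 * n) (g : GaussJones.Code n) (e : Fin n → Bool)
    (J : Finset (Fin n)) (x : Fin n → ZMod 2)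
    (hx : x ∈ kerS ((cutOpen g e).gmat (cutState (GaussJones.Interlaced g) e)) J) :
    ∃ φ ∈ compat (JoinedCut g J),
      ∀ c, φ (GaussJones.inEdge g (c, true)) + φ (GaussJones.outEdge g (c, true)) = x c := by
  classical
  obtain ⟨D, hD⟩ : ∃ D, D = cutOpen g e := ⟨_, rfl⟩
  obtain ⟨σ, hσ⟩ : ∃ σ, σ = cutState (GaussJones.Interlaced g) e := ⟨_, rfl⟩
  rw [← hD, ← hσ] at hx
  obtain ⟨hx0, hx1⟩ := mem_kerS.1 hx
  obtain ⟨φ₀, hφ₀⟩ : ∃ φ₀ : Fin (2 * n + 1) → ZMod 2,
      φ₀ = arcParam D.overPass D.underPass (0, x) := ⟨_, rfl⟩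
  have hval : ∀ k : Fin (2 * n + 1), φ₀ k = arcFun D.overPass D.underPass 0 x k := by
    intro k
    rw [hφ₀]
    rfl
  have h0 : φ₀ (Fin.last (2 * n)) = φ₀ 0 := by
    rw [hval, hval]
    have h1 : ∀ f, Helper16.Knotoid.cnt D.overPass D.underPass (2 * n) f = 0 := by
      intro f
      unfold Helper16.Knotoid.cnt
      rw [if_pos (D.overPass f).2, if_pos (D.underPass f).2]
      decide
    show arcFun D.overPass D.underPass 0 x (2 * n) = arcFun D.overPass D.underPass 0 x 0
    rw [arcFun_zero]
    unfold arcFun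
    rw [Finset.sum_eq_zero fun f _ => by rw [h1, mul_zero], add_zero]
  have hpull : pull n hn2 (fun p => φ₀ p.succ) = φ₀ := by
    funext q
    induction q using Fin.cases with
    | zero =>
      show φ₀ ((finRotate (2 * n)).symm ⟨0, hn2⟩).succ = φ₀ 0
      rw [rotate_zero hn2 φ₀, h0]
    | succ p => rfl
  obtain ⟨φ, hφ⟩ : ∃ φ : Fin (2 * n) → ZMod 2, φ = fun p => φ₀ p.succ := ⟨_, rfl⟩
  have hin : ∀ y, φ (GaussJones.inEdge g y) = φ₀ (g y).castSucc := by
    intro y
    rw [hφ]
    unfold GaussJones.inEdge
    have h1 := pull_castSucc hn2 (fun p => φ₀ p.succ) (g y)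
    rw [hpull] at h1
    exact h1.symm
  have hout : ∀ y, φ (GaussJones.outEdge g y) = φ₀ (g y).succ := by
    intro y
    rw [hφ]
    rfl
  have hP : ∀ c, (g (c, true) : Fin (2 * n)) = D.overPass c := by
    intro c
    rw [hD]
    rfl
  have hQ : ∀ c, (g (c, false) : Fin (2 * n)) = D.underPass c := by
    intro c
    rw [hD]
    rfl
  have iP : ∀ c, φ (GaussJones.inEdge g (c, true)) =
      arcFun D.overPass D.underPass 0 x (D.overPass c) := by
    intro c
    rw [hin, hval, hP, Fin.val_castSucc]
  have iQ : ∀ c, φ (GaussJones.inEdge g (c, false)) =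
      arcFun D.overPass D.underPass 0 x (D.underPass c) := by
    intro c
    rw [hin, hval, hQ, Fin.val_castSucc]
  have oP : ∀ c, φ (GaussJones.outEdge g (c, true)) =
      arcFun D.overPass D.underPass 0 x (D.overPass c) + x c := by
    intro c
    rw [hout, hval, hP, Fin.val_succ, arcFun_succ_P D.pass_inj]
  have oQ : ∀ c, φ (GaussJones.outEdge g (c, false)) =
      arcFun D.overPass D.underPass 0 x (D.underPass c) + x c := by
    intro c
    rw [hout, hval, hQ, Fin.val_succ, arcFun_succ_Q D.pass_inj]
  have hcut : ∀ i, (σ i != D.sign i) = true ↔ ¬ cutAll (GaussJones.Interlaced g) i = true := by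
    intro i
    have h1 : (σ i != D.sign i) = true ↔ σ i ≠ e i := by
      rw [hD]
      show (σ i != e i) = true ↔ σ i ≠ e i
      cases σ i <;> cases e i <;> decide
    rw [h1, hσ, Graph_cut]
    unfold cutAll
    by_cases h : ∃ j, Twins (GaussJones.Interlaced g) i j ∧ GaussJones.Interlaced g i j
    · rw [if_pos h]
      constructor
      · intro _ h1
        cases h1
      · intro _
        exact h
    · rw [if_neg h]
      exact ⟨fun h' => absurd h' h, fun h' => absurd rfl h'⟩
  have hM : ∀ i ∈ J, arcFun D.overPass D.underPass 0 x (D.overPass i) =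
      arcFun D.overPass D.underPass 0 x
        (if (σ i != D.sign i) then (D.underPass i : ℕ) else (D.underPass i : ℕ) + 1) := by
    intro i hi
    have h1 := hx1 i hi
    unfold GaussDiagram.gmat at h1
    rw [mulVec_arcMat _ 0 x i, sub_eq_zero] at h1
    exact h1
  refine ⟨φ, ?_, fun c => ?_⟩
  · rintro p q ⟨i, h | h | h⟩
    · obtain ⟨hi, ⟨rfl, rfl⟩ | ⟨rfl, rfl⟩⟩ := h
      · rw [iQ, oQ, hx0 i hi, add_zero]
      · rw [iP, oP, hx0 i hi, add_zero]
    · obtain ⟨hi, hc, h⟩ := h
      have h3 := hM i hi
      rw [if_neg fun h4 => (hcut i).1 h4 hc, arcFun_succ_Q D.pass_inj] at h3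
      rcases h with ⟨rfl, rfl⟩ | ⟨rfl, rfl⟩
      · rw [iQ, oP, h3, add_assoc, CharTwo.add_self_eq_zero, add_zero]
      · rw [iP, oQ, h3]
    · obtain ⟨hi, hc, h⟩ := h
      have h3 := hM i hi
      rw [if_pos ((hcut i).2 (by rw [hc]; decide))] at h3
      rcases h with ⟨rfl, rfl⟩ | ⟨rfl, rfl⟩
      · rw [iQ, iP, h3]
      · rw [oQ, oP, h3]
  · rw [iP, oP, ← add_assoc, CharTwo.add_self_eq_zero, zero_add]

/-- **sets with an even number of ends on each component are even** -/
theorem EvenEnds.evenSub (hn : 0 < n) {g : GaussJones.Code n} (e : Fin n → Bool)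
    {J L : Finset (Fin n)} (hL : L ⊆ J) (h : EvenEnds g J L) :
    EvenSub ((cutOpen g e).Cut (cutState (GaussJones.Interlaced g) e)) J L := by
  classical
  refine (evenSub_iff _ _ J L hL).2 fun x hx => ?_
  obtain ⟨φ, hφ, h1⟩ := kerS_compat (by omega) g e J x hx
  have h2 := (Graph_even (JoinedCut g J) (fun c => GaussJones.inEdge g (c, true))
    (fun c => GaussJones.outEdge g (c, true)) L).1 (fun q => by
      have h3 := h q
      convert h3) φ hφ
  rw [← h2]
  exact Finset.sum_congr rfl fun c _ => (h1 c).symm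

/-- **at most `|J|` components** -/
theorem someRel_of_comps (hn : 0 < n) (g : GaussJones.Code n) (e : Fin n → Bool)
    (J : Finset (Fin n)) (h : cutComps g J ≤ J.card) :
    SomeRel ((cutOpen g e).Cut (cutState (GaussJones.Interlaced g) e)) J := by
  classical
  by_contra hno
  unfold SomeRel at hno
  push Not at hno
  rw [cutComps_crk hn g e J, crk_kerS] at h
  have hle : EA J ≤ kerS ((cutOpen g e).gmat (cutState (GaussJones.Interlaced g) e)) J := by
    intro x hx
    refine mem_kerS.2 ⟨hx, fun i hi => ?_⟩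
    show ∑ j, (cutOpen g e).gmat (cutState (GaussJones.Interlaced g) e) i j * x j = 0
    refine Finset.sum_eq_zero fun j _ => ?_
    by_cases hj : j ∈ J
    · rw [(gmat_entry _ _ i j).2 (hno i hi j hj), zero_mul]
    · rw [hx j hj, mul_zero]
  have h1 := Submodule.finrank_mono hle
  rw [finrank_EA] at h1
  omega

/-- **Isolated sets with an even number of ends on each component, knotoid diagrams** -/
theorem knotoidEnds (D : GaussDiagram n) (S : Finset (Fin n)) (hS : Transversal D.Interlaced S)
    (J : Finset (Fin n)) (hJ : J ⊆ S) (hne : J.Nonempty) (B : ℕ) (hc : cutCompsO D J ≤ J.card)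
    (L₀ : Finset (Fin n)) (hL : L₀ ⊆ J) (hE : EvenEnds D.pos J L₀)
    (h : IsolatedAt S J (HasCycleInO D ∅) (cutTwist D.Interlaced D.sign)
      (2 * (B + 2) * (S.card + 1)) L₀) :
    B < terms D.normalizedBracket := by
  classical
  have hn : 0 < n := by
    obtain ⟨i, -⟩ := hne
    exact i.pos
  have hI : D.Interlaced = GaussJones.Interlaced D.pos := interlaced_fun D.pos D.sign
  refine knotoidParity D S hS J hJ B ⟨?_, {L₀}, ?_, ?_⟩
  · have h1 := someRel_of_comps hn D.pos D.sign J hc
    rw [← hI] at h1
    exact h1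
  · intro L L' hLL hin
    rw [Finset.mem_singleton] at hin ⊢
    exact h L L' hLL hin
  · have h1 := EvenEnds.evenSub hn D.sign hL hE
    rw [← hI] at h1
    unfold evenCount
    rw [Finset.filter_true_of_mem, Finset.card_singleton]
    · exact odd_one
    · intro L hL'
      rw [Finset.mem_singleton] at hL'
      rw [hL']
      exact ⟨hL, h1⟩

/-- **Isolated sets with an even number of ends on each component, knot diagrams** -/
theorem knotEnds (g : GaussJones.Code n) (e : Fin n → Bool) (S : Finset (Fin n))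
    (hS : Transversal (GaussJones.Interlaced g) S) (J : Finset (Fin n)) (hJ : J ⊆ S)
    (hne : J.Nonempty) (B : ℕ) (hc : cutComps g J ≤ J.card)
    (L₀ : Finset (Fin n)) (hL : L₀ ⊆ J) (hE : EvenEnds g J L₀)
    (h : IsolatedAt S J (HasCycleIn g ∅) (cutTwist (GaussJones.Interlaced g) e)
      (2 * (B + 2) * (S.card + 1)) L₀) :
    B < terms (GaussJones.fPoly g e) := by
  classical
  have hn : 0 < n := by
    obtain ⟨i, -⟩ := hne
    exact i.pos
  have h0 : GaussJones.Cut g e (cutState (GaussJones.Interlaced g) e) =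
      (cutOpen g e).Cut (cutState (GaussJones.Interlaced g) e) := by
    funext i j
    exact propext (UNI.cut_closed g e _ i j)
  refine knotParity g e S hS J hJ B ⟨?_, {L₀}, ?_, ?_⟩
  · rw [h0]
    exact someRel_of_comps hn g e J hc
  · intro L L' hLL hin
    rw [Finset.mem_singleton] at hin ⊢
    exact h L L' hLL hin
  · rw [h0]
    unfold evenCount
    rw [Finset.filter_true_of_mem, Finset.card_singleton]
    · exact odd_one
    · intro L hL'
      rw [Finset.mem_singleton] at hL'
      rw [hL']
      exact ⟨hL, EvenEnds.evenSub hn e hL hE⟩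

/-- the empty set has no ends -/
theorem evenEnds_empty (g : GaussJones.Code n) (J : Finset (Fin n)) : EvenEnds g J ∅ := by
  intro q
  rw [Finset.filter_empty, Finset.filter_empty, Finset.card_empty]
  exact ⟨0, rfl⟩

/-- if `D_J` is a diagram of a knot then all sets have an even number of ends on it -/
theorem evenEnds_knot (g : GaussJones.Code n) (J L : Finset (Fin n)) (h : cutComps g J = 1) :
    EvenEnds g J L := by
  classical
  intro q
  have h1 : ∀ q' : Quot (JoinedCut g J), q' = q := by
    unfold cutComps at h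
    obtain ⟨a, ha⟩ := Nat.card_eq_one_iff_unique.1 h
    intro q'
    exact Subsingleton.elim _ _
  rw [Finset.filter_true_of_mem fun c _ => h1 _, Finset.filter_true_of_mem fun c _ => h1 _]
  exact ⟨L.card, rfl⟩

end Pool.Agent.NHT
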