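import Mathlib
import Pool.Agent.NHT.DefsN
import Pool.Agent.NHT.Span
import Pool.Agent.NHT.Odd

/-!
# NHT, module Knot: the matrix of `J` is invertible (helper68)

In this case `D_J` is a knot, its determinant is odd, and each class of `J` is a loop.
-/

set_option autoImplicit false
set_option linter.unusedSectionVars false

open Module Submodule Pool.Agent.UNI LaurentPolynomial Pool.Agent.SPT Pool.Agent.SPT.Rel
  Pool.Agent.SPT.Lin Pool.Agent.SRH Pool.Agent.EQT Pool.Agent.FHP Pool.Agent.TRP Pool.Agent.TRA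
  Pool.Agent.Helper16.Knotoid
open scoped Matrix

namespace Pool.Agent.NHT

section

variable {E : Type} [Fintype E] [DecidableEq E]

/-- the matrix of `J` is invertible -/
def NonDegM (M : Matrix E E (ZMod 2)) (J : Finset E) : Prop :=
  ∀ x : E → ZMod 2, (∀ c, c ∉ J → x c = 0) → (∀ c ∈ J, (M *ᵥ x) c = 0) → x = 0

/-- the rows of `J` are independent -/
theorem NonDegM.li {M : Matrix E E (ZMod 2)} (hM : ∀ i j, M i j = M j i) {J : Finset E}
    (h : NonDegM M J) : LinearIndependent (ZMod 2) (fun c : {c // c ∈ J} => M c) := by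
  classical
  rw [Fintype.linearIndependent_iff]
  intro g hg
  have h1 := h (fun c => if hc : c ∈ J then g ⟨c, hc⟩ else 0) (fun c hc => dif_neg hc) (by
    intro i _
    have h2 : (M *ᵥ fun c => if hc : c ∈ J then g ⟨c, hc⟩ else 0) i =
        ∑ c, M i c * (if hc : c ∈ J then g ⟨c, hc⟩ else 0) := rfl
    rw [h2, ← Finset.sum_subset (Finset.subset_univ J) (fun c _ hc => by
      rw [dif_neg hc, mul_zero]), ← Finset.sum_coe_sort J]
    have h3 := congrFun hg i
    rw [Finset.sum_apply] at h3
    rw [Pi.zero_apply] at h3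
    rw [← h3]
    refine Finset.sum_congr rfl fun c _ => ?_
    rw [dif_pos c.2, Pi.smul_apply, smul_eq_mul, hM i c, mul_comm])
  intro c
  have h2 : (if hc : (c : E) ∈ J then g ⟨c, hc⟩ else 0) = 0 := congrFun h1 c
  rw [dif_pos c.2] at h2
  exact h2

/-- the dimension of the span of the rows of `J` -/
theorem NonDegM.finrank {M : Matrix E E (ZMod 2)} (hM : ∀ i j, M i j = M j i) {J : Finset E}
    (h : NonDegM M J) :
    Module.finrank (ZMod 2) (span (ZMod 2) ((J.image M : Finset (E → ZMod 2)) :
      Set (E → ZMod 2))) = J.card := by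
  classical
  have h1 := finrank_span_eq_card (h.li hM)
  have h2 : Set.range (fun c : {c // c ∈ J} => M c) =
      ((J.image M : Finset (E → ZMod 2)) : Set (E → ZMod 2)) := by
    ext v
    constructor
    · rintro ⟨c, rfl⟩
      exact Finset.mem_coe.2 (Finset.mem_image_of_mem M c.2)
    · intro hv
      obtain ⟨c, hc, rfl⟩ := Finset.mem_image.1 (Finset.mem_coe.1 hv)
      exact ⟨⟨c, hc⟩, rfl⟩
  rw [← h2, h1, Fintype.card_coe]

/-- some state has one component -/
theorem NonDegM.kapW {M : Matrix E E (ZMod 2)} (hM : ∀ i j, M i j = M j i) {J : Finset E}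
    (h : NonDegM M J) : ∃ W, J ⊆ W ∧ kap M W = 0 := by
  obtain ⟨W, hW, h1⟩ := kap_min M hM J
  rw [h.finrank hM] at h1
  exact ⟨W, hW, by omega⟩

/-- **the number of the states with one component is odd** -/
theorem NonDegM.odd {M : Matrix E E (ZMod 2)} {J : Finset E}
    (h : NonDegM M J) : Odd ((Finset.univ : Finset E).powerset.filter fun W =>
      J ⊆ W ∧ kap M W = 0).card := by
  classical
  have h1 : (∑ π : Equiv.Perm E, ∏ i, NJ M J (π i) i) = (Matrix.of (NJ M J)).det := by
    rw [Matrix.det_apply']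
    refine Finset.sum_congr rfl fun π _ => ?_
    rw [sign_z2, one_mul]
    rfl
  have h2 : (Matrix.of (NJ M J)).det ≠ 0 := by
    intro h0
    obtain ⟨x, hx0, hx⟩ := Matrix.exists_mulVec_eq_zero_iff.2 h0
    apply hx0
    have hy : ∀ i, (Matrix.of (NJ M J) *ᵥ x) i =
        (M *ᵥ fun c => if c ∈ J then x c else 0) i + if i ∈ J then 0 else x i := by
      intro i
      have h3 : (Matrix.of (NJ M J) *ᵥ x) i = ∑ j, NJ M J i j * x j := rfl
      have h4 : (M *ᵥ fun c => if c ∈ J then x c else 0) i =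
          ∑ j, M i j * (if j ∈ J then x j else 0) := rfl
      have h5 : (if i ∈ J then 0 else x i) = ∑ j, if i = j then (if j ∈ J then 0 else x j) else 0 := by
        rw [Finset.sum_ite_eq, if_pos (Finset.mem_univ i)]
      rw [h3, h4, h5, ← Finset.sum_add_distrib]
      refine Finset.sum_congr rfl fun j _ => ?_
      unfold NJ
      by_cases hj : j ∈ J
      · rw [if_pos hj, if_pos hj, if_pos hj, ite_self, add_zero]
      · rw [if_neg hj, if_neg hj, if_neg hj, mul_zero, zero_add, ite_mul, one_mul, zero_mul]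
    have h6 := h (fun c => if c ∈ J then x c else 0) (fun c hc => if_neg hc) (by
      intro c hc
      have h7 := hy c
      rw [hx, if_pos hc, add_zero] at h7
      exact h7.symm)
    funext c
    by_cases hc : c ∈ J
    · have h7 := congrFun h6 c
      rw [Pi.zero_apply] at h7
      rw [Pi.zero_apply, ← h7]
      exact (if_pos hc).symm
    · have h7 := hy c
      rw [hx, h6, Matrix.mulVec_zero, if_neg hc, Pi.zero_apply, zero_add] at h7
      exact h7.symm
  rw [← h1, ← sum_det] at h2
  have h3 : ∑ W ∈ (Finset.univ : Finset E).powerset.filter (fun W => J ⊆ W), (MW M W).det =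
      (((Finset.univ : Finset E).powerset.filter fun W => J ⊆ W ∧ kap M W = 0).card : ZMod 2) := by
    rw [← Finset.filter_filter, Finset.card_filter, Nat.cast_sum]
    refine Finset.sum_congr rfl fun W _ => ?_
    rw [← det_MW, zero_pow_eq]
    unfold Lin.kap
    split_ifs <;> simp
  rw [h3] at h2
  rw [← Nat.not_even_iff_odd]
  intro h4
  apply h2
  exact (ZMod.natCast_eq_zero_iff_even).2 h4

/-- numbers `a + b i` with `a + b` congruent to `k` modulo `2` -/
def Knot_P (z : ℂ) (k : ℕ) : Prop :=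
  ∃ a b : ℤ, z = a + b * Complex.I ∧ (Even (a + b) ↔ Even k)

theorem Knot_P.add {z w : ℂ} {k l : ℕ} (hz : Knot_P z k) (hw : Knot_P w l) :
    Knot_P (z + w) (k + l) := by
  obtain ⟨a, b, rfl, h1⟩ := hz
  obtain ⟨c, d, rfl, h2⟩ := hw
  refine ⟨a + c, b + d, by push_cast; ring, ?_⟩
  rw [show a + c + (b + d) = (a + b) + (c + d) by ring, Int.even_add, h1, h2, Nat.even_add]

theorem Knot_P.mul_I {z : ℂ} {k : ℕ} (hz : Knot_P z k) : Knot_P (Complex.I * z) k := by
  obtain ⟨a, b, rfl, h1⟩ := hz
  refine ⟨-b, a, ?_, ?_⟩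
  · push_cast
    linear_combination (b : ℂ) * Complex.I_mul_I
  · rw [← h1, Int.even_add, Int.even_add, _root_.even_neg]
    exact ⟨fun h => h.symm, fun h => h.symm⟩

theorem Knot_P.neg {z : ℂ} {k : ℕ} (hz : Knot_P z k) : Knot_P (-z) k := by
  obtain ⟨a, b, rfl, h1⟩ := hz
  refine ⟨-a, -b, by push_cast; ring, ?_⟩
  rw [← h1, Int.even_add, Int.even_add, _root_.even_neg, _root_.even_neg]

theorem Knot_P.one : Knot_P 1 1 := ⟨1, 0, by push_cast; ring, by decide⟩

theorem Knot_P.zero : Knot_P 0 0 := ⟨0, 0, by push_cast; ring, by decide⟩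

theorem Knot_P.sum {α : Type} (s : Finset α) (f : α → ℂ) (h : ∀ x ∈ s, Knot_P (f x) 1) :
    Knot_P (∑ x ∈ s, f x) s.card := by
  classical
  induction s using Finset.induction_on with
  | empty => exact Knot_P.zero
  | insert x s hx ih =>
    rw [Finset.sum_insert hx, Finset.card_insert_of_notMem hx, add_comm]
    exact (ih fun y hy => h y (Finset.mem_insert_of_mem hy)).add
      (h x (Finset.mem_insert_self x s))

theorem Knot_P.ne {z : ℂ} {k : ℕ} (hz : Knot_P z k) (hk : Odd k) : z ≠ 0 := by
  obtain ⟨a, b, rfl, h1⟩ := hz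
  intro h0
  have h2 := congrArg Complex.re h0
  have h3 := congrArg Complex.im h0
  simp at h2 h3
  rw [h2, h3] at h1
  exact (Nat.not_even_iff_odd.2 hk) (h1.1 (by simp))

theorem zeta_sq : zeta ^ 2 = Complex.I := by
  unfold zeta
  rw [← Complex.exp_nat_mul]
  have h : ((2 : ℕ) : ℂ) * (((Real.pi / 4 : ℝ) : ℂ) * Complex.I) = Real.pi / 2 * Complex.I := by
    push_cast
    ring
  rw [h, Complex.exp_pi_div_two_mul_I]

theorem Knot_P.alMul {z : ℂ} {k : ℕ} (hz : Knot_P z k) (b : Bool) :
    Knot_P (evA (al ℂ b) ^ 2 * z) k := by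
  rw [evA_al]
  cases b
  · have h1 : (if false = true then zeta else zeta⁻¹) ^ 2 = -Complex.I := by
      rw [if_neg Bool.false_ne_true, inv_pow, zeta_sq, Complex.inv_I]
    rw [h1, neg_mul]
    exact hz.mul_I.neg
  · rw [if_pos rfl, zeta_sq]
    exact hz.mul_I

theorem Knot_P.prod {α : Type} (s : Finset α) (σ : α → Bool) :
    Knot_P (∏ x ∈ s, evA (al ℂ (σ x)) ^ 2) 1 := by
  classical
  induction s using Finset.induction_on with
  | empty => exact Knot_P.one
  | insert x s hx ih =>
    rw [Finset.prod_insert hx]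
    exact ih.alMul (σ x)

/-- **the determinant is odd** -/
theorem NonDegM.detJ_ne {M : Matrix E E (ZMod 2)} (hM : ∀ i j, M i j = M j i) {J : Finset E}
    (h : NonDegM M J) (σ : E → Bool) : detJ M σ J ≠ 0 := by
  classical
  obtain ⟨W₀, hW₀, h0⟩ := h.kapW hM
  have h1 : NHT.detJ M σ J = ∑ W ∈ (Finset.univ : Finset E).powerset.filter
      (fun W => J ⊆ W ∧ Lin.kap M W = 0), ∏ c ∈ W \ J, evA (al ℂ (σ c)) ^ 2 := by
    unfold NHT.detJ
    rw [← Finset.filter_filter, Finset.sum_filter (fun W => Lin.kap M W = 0)]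
    refine Finset.sum_congr rfl fun W _ => ?_
    have h2 : (∀ W', J ⊆ W' → Lin.kap M W ≤ Lin.kap M W') ↔ Lin.kap M W = 0 := by
      constructor
      · intro h3
        have h4 := h3 W₀ hW₀
        omega
      · intro h3 W' _
        omega
    by_cases h3 : Lin.kap M W = 0
    · rw [if_pos h3, if_pos (h2.2 h3)]
    · rw [if_neg h3, if_neg fun h4 => h3 (h2.1 h4)]
  rw [h1]
  exact (Knot_P.sum _ _ fun W _ => Knot_P.prod (W \ J) σ).ne h.odd

end

variable {n : ℕ}

/-- from the relation to the matrix -/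
theorem NonDeg.matrix (D : GaussDiagram n) (σ : Fin n → Bool) {J : Finset (Fin n)}
    (h : NonDeg (D.Cut σ) J) : NonDegM (D.gmat σ) J := by
  classical
  intro x hx hxJ
  by_contra hne
  obtain ⟨i, hi, hodd⟩ := h (J.filter fun c => x c ≠ 0) (Finset.filter_subset _ _) (by
    rw [Finset.nonempty_iff_ne_empty]
    intro h0
    apply hne
    funext c
    by_contra hc
    have hcJ : c ∈ J := by
      by_contra h1
      exact hc (hx c h1)
    have h2 : c ∈ J.filter fun c => x c ≠ 0 := Finset.mem_filter.2 ⟨hcJ, hc⟩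
    rw [h0] at h2
    exact Finset.notMem_empty c h2)
  have h1 := hxJ i hi
  have h2 : (D.gmat σ *ᵥ x) i = ∑ c, D.gmat σ i c * x c := rfl
  have h3 : ∑ c, D.gmat σ i c * x c =
      (((J.filter fun c => x c ≠ 0).filter fun c => D.Cut σ i c).card : ZMod 2) := by
    rw [Finset.filter_filter, Finset.card_filter, Nat.cast_sum,
      ← Finset.sum_subset (Finset.subset_univ J) (fun c _ hc => by rw [hx c hc, mul_zero])]
    refine Finset.sum_congr rfl fun c _ => ?_
    rw [← row_eq]
    unfold row
    rcases Lin.z2 (x c) with h4 | h4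
    · rw [h4, mul_zero, if_neg (fun h => h.1 rfl), Nat.cast_zero]
    · rw [h4, mul_one]
      by_cases h5 : D.Cut σ i c
      · rw [if_pos h5, if_pos ⟨one_ne_zero, h5⟩, Nat.cast_one]
      · rw [if_neg h5, if_neg (fun h => h5 h.2), Nat.cast_zero]
  rw [h2, h3] at h1
  exact (Nat.not_even_iff_odd.2 hodd) ((ZMod.natCast_eq_zero_iff_even).1 h1)

/-- a class which is not in the span of the others is a loop -/
theorem loop_of_block {ι V : Type} [DecidableEq ι] [DecidableEq V] [AddCommGroup V]
    [Module (ZMod 2) V] {J : Finset ι} {Cyc : Finset ι → Prop} {r : ι → V} (hB : Block J Cyc r)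
    (hli : LinearIndependent (ZMod 2) (fun c : {c // c ∈ J} => r c)) :
    ∀ i ∈ J, Cyc {i} := by
  classical
  intro i hi
  by_contra hc
  have hs : {i} ⊆ J := Finset.singleton_subset_iff.2 hi
  have h1 := (hB.co {i} hs).1 hc
  unfold Co at h1
  rw [hB.image_sdiff hs] at h1
  have h2 : r i ∈ span (ZMod 2) (((J \ {i}).image r : Finset V) : Set V) := by
    rw [h1]
    exact subset_span (Finset.mem_coe.2 (Finset.mem_image_of_mem r hi))
  have h3 := hli.notMem_span_image (s := {c | (c : ι) ≠ i}) (x := ⟨i, hi⟩) (fun h => h rfl)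
  apply h3
  refine span_mono ?_ h2
  intro v hv
  obtain ⟨j, hj, rfl⟩ := Finset.mem_image.1 (Finset.mem_coe.1 hv)
  rw [Finset.mem_sdiff, Finset.mem_singleton] at hj
  exact ⟨⟨j, hj.1⟩, hj.2, rfl⟩

/-- **Knotoid diagrams**: if the matrix of `J` is invertible then the determinant of `D_J` is not zero
and each class of `J` is a loop. -/
theorem nondeg_O (D : GaussDiagram n) (S : Finset (Fin n)) (hS : Transversal D.Interlaced S)
    (J : Finset (Fin n)) (hJ : J ⊆ S) (h : NonDeg (D.Cut (cutState D.Interlaced D.sign)) J) :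
    cutDetO D J ≠ 0 ∧ ∀ i ∈ J, HasCycleInO D (S \ J) {i} := by
  classical
  have h1 := h.matrix D (cutState D.Interlaced D.sign)
  constructor
  · obtain ⟨u, hu0, hu⟩ := cutDetO_eq D J
    rw [hu]
    exact mul_ne_zero hu0 (h1.detJ_ne (D.gmat_symm _) _)
  · refine loop_of_block (thm_KnotoidBlock n D S J hS hJ) ?_
    have h2 : row (Graph_R D.Interlaced D.sign) =
        fun c => D.gmat (cutState D.Interlaced D.sign) c := by
      funext c
      exact row_eq D (cutState D.Interlaced D.sign) c
    rw [h2]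
    exact h1.li (D.gmat_symm _)

theorem Knot_rel (g : GaussJones.Code n) (e : Fin n → Bool) :
    Graph_R (GaussJones.Interlaced g) e =
      GaussJones.Cut g e (cutState (GaussJones.Interlaced g) e) := by
  funext i j
  unfold Graph_R GaussJones.Cut
  rfl

/-- **Knot diagrams** -/
theorem nondeg_K (g : GaussJones.Code n) (e : Fin n → Bool) (S : Finset (Fin n))
    (hS : Transversal (GaussJones.Interlaced g) S) (J : Finset (Fin n)) (hJ : J ⊆ S)
    (hne : J.Nonempty)
    (h : NonDeg (GaussJones.Cut g e (cutState (GaussJones.Interlaced g) e)) J) :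
    cutDet g e J ≠ 0 ∧ ∀ i ∈ J, HasCycleIn g (S \ J) {i} := by
  classical
  have hn : 0 < n := by
    obtain ⟨i, -⟩ := hne
    exact i.pos
  have h0 : GaussJones.Cut g e (cutState (GaussJones.Interlaced g) e) =
      (cutOpen g e).Cut (cutState (GaussJones.Interlaced g) e) := by
    funext i j
    exact propext (UNI.cut_closed g e _ i j)
  rw [h0] at h
  have h1 := h.matrix (cutOpen g e) (cutState (GaussJones.Interlaced g) e)
  constructor
  · rw [cutDet_eq hn]
    obtain ⟨u, hu0, hu⟩ := cutDetO_eq (cutOpen g e) J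
    rw [hu, interlaced_fun]
    exact mul_ne_zero hu0 (h1.detJ_ne ((cutOpen g e).gmat_symm _) _)
  · refine loop_of_block (thm_KnotBlock n g e S J hS hJ) ?_
    have h2 : row (Graph_R (GaussJones.Interlaced g) e) =
        fun c => (cutOpen g e).gmat (cutState (GaussJones.Interlaced g) e) c := by
      funext c
      rw [← row_eq, ← h0]
      exact congrFun (congrArg row (Knot_rel g e)) c
    rw [h2]
    exact h1.li ((cutOpen g e).gmat_symm _)

end Pool.Agent.NHT
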