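import Pool.Agent.NHT.Defs13
import Pool.Agent.NHT.Psi
import Pool.Agent.NHT.Cases
import Pool.Agent.NHT.IsoF
import Pool.Agent.NHT.Knot

/-!
# NHT, version 12, module Final10: the criteria for one set of classes (helper38)
-/

set_option autoImplicit false
set_option linter.unusedSectionVars false

open Submodule LaurentPolynomial Module

namespace Pool.Agent.NHT

open Pool.Agent.SPT Pool.Agent.SPT.Rel Pool.Agent.EQT Pool.Agent.FHP Pool.Agent.Helper16.Knotoid
open Pool.Agent.TRA Pool.Agent.TRP

/-- the statement of the module Parity -/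
def St_Parity : Prop :=
  ∀ (ι V : Type) [DecidableEq ι] [DecidableEq V] [AddCommGroup V] [Module (ZMod 2) V]
    [Module.Finite (ZMod 2) V] (S J : Finset ι) (CycS Cyc : Finset ι → Prop) (r : ι → V),
    Block J Cyc r → ∀ (a : ι → ℤ) (N : ℕ), SameParity S J CycS Cyc a N →
      Separating S J CycS Cyc a N

section

variable {ι V : Type} [DecidableEq ι] [DecidableEq V] [AddCommGroup V] [Module (ZMod 2) V]

theorem CloseCriterion.separating (hP : St_Parity) [Module.Finite (ZMod 2) V] {S J : Finset ι}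
    {CycS Cyc : Finset ι → Prop} {r : ι → V} (hB : Block J Cyc r) {a : ι → ℤ} {N : ℕ}
    (h : CloseCriterion S J CycS Cyc a N) : Separating S J CycS Cyc a N := by
  rcases h with h | h | h | h
  · exact hP ι V S J CycS Cyc r hB a N h
  · exact (h.weighted (Cyc := Cyc)).separating hB
  · exact h.separating hB
  · exact h

/-- **The blocks** -/
theorem blocks12 (hP : St_Parity) [Module.Finite (ZMod 2) V] (J : Finset ι)
    (Cyc : Finset ι → Prop) (r : ι → V)
    (hB : Block J Cyc r) (hreg : ∀ Y ⊆ J.image r, TRL.Reg Y) (a u : V → ℤ) (C T : ℕ)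
    (hT : 1 ≤ T) (hF : Follows (J.image r) a u C T)
    (hsg : ∀ v ∈ J.image r, (T : ℤ) ≤ |a v| → 0 < a v * u v)
    (h : ∃ p : ι → ℕ, Splits J Cyc p ∧ ∀ q, GoodBlock12 J Cyc r (fun i => a (r i)) p T q) :
    NZu (J.image r) u := by
  classical
  obtain ⟨p, hp, hq⟩ := h
  refine class_main5 card9 TRG.rankReg5 corank3 thm_OneExc TRJ.thm_WeightedBlock J Cyc r hB hreg
    a u C T hT hF hsg p hp (fun q => (¬ Cyc (J.filter fun i => p i = q ∧ |a (r i)| < T) ∧
      FewClose J Cyc (fun i => a (r i)) p T q) ∨ OneCycleF J Cyc (fun i => a (r i)) p T q ∨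
      CloseCriterion (J.filter fun i => p i = q) (J.filter fun i => p i = q) Cyc Cyc
        (fun i => a (r i)) T) ?_ ?_
  · rintro q Q hQ hBq hrg hFq - (⟨h1, h2⟩ | h1 | h1)
    · exact few_useF card9 le_rfl J Q Cyc r p q hQ hBq hrg a u C T hFq h2 h1
    · exact onecycle_useF OCY.main J Q Cyc r p q hQ hBq hrg a u C T hFq h1
    · rw [← hQ] at h1
      exact sep_use Q Cyc r hBq a u C T hFq (h1.separating hP hBq)
  · intro q
    rcases hq q with ⟨h1, h2 | h2⟩ | h | h | h
    · exact Or.inl (Or.inr (Or.inl ⟨h2, h1⟩))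
    · exact Or.inr (Or.inl ⟨h1, h2⟩)
    · exact Or.inr (Or.inr (Or.inr h))
    · exact Or.inl (Or.inl h)
    · exact Or.inr (Or.inr (Or.inl h))

/-- if all classes are loops then all sets are cycle sets -/
theorem loops_cycleSet {J : Finset ι} {Cyc : Finset ι → Prop} {r : ι → V} (hB : Block J Cyc r)
    (hl : ∀ i ∈ J, Cyc {i}) {L : Finset ι} (hL : L ⊆ J) : CycleSet Cyc L := by
  intro i hi
  refine ⟨{i}, Finset.singleton_subset_iff.2 hi, Finset.mem_singleton_self i, hl i (hL hi), ?_⟩
  have h1 : ({i} : Finset ι).erase i = ∅ := Finset.erase_singleton i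
  rw [h1, hB.co ∅ (Finset.empty_subset J)]
  unfold Co
  rw [Finset.image_empty, Finset.sdiff_empty]

/-- **long classes with the cycle condition** -/
theorem LongSigned.isolated {S J : Finset ι} (hJ : J ⊆ S) {CycS Cyc : Finset ι → Prop}
    {a : ι → ℤ} {N : ℕ} (h : LongSigned S J Cyc a N) : Isolated S J CycS Cyc a N := by
  classical
  obtain ⟨hbig, hc | hc⟩ := h
  · refine long_isolated hJ hbig 1 (Or.inl rfl) fun i hi => ?_
    rw [Finset.mem_filter, one_mul] at hi
    have h1 := hc i hi.1 hi.2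
    have h2 : (J.filter fun j => 0 < 1 * a j) = J.filter fun j => 0 < a j :=
      Finset.filter_congr fun j _ => by rw [one_mul]
    rw [h2]
    exact h1
  · refine long_isolated hJ hbig (-1) (Or.inr rfl) fun i hi => ?_
    rw [Finset.mem_filter] at hi
    have h1 := hc i hi.1 (by have := hi.2; omega)
    have h2 : (J.filter fun j => 0 < -1 * a j) = J.filter fun j => a j < 0 :=
      Finset.filter_congr fun j _ => by constructor <;> intro h <;> omega
    rw [h2]
    exact h1

end

/-- **the blocks, knotoid diagrams** -/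
theorem knotoidBlocks12 (hP : St_Parity) {n : ℕ} (D : GaussDiagram n) (S : Finset (Fin n))
    (hS : Transversal D.Interlaced S) (J : Finset (Fin n)) (hJ : J ⊆ S) (hne : J.Nonempty)
    (hdet : cutDetO D J ≠ 0) (B : ℕ)
    (h : GoodBlocks S J (HasCycleInO D (S \ J)) (row (D.Cut (cutState D.Interlaced D.sign)))
      (cutTwist D.Interlaced D.sign) (2 * (B + 2) * (S.card + 1))) :
    B < terms D.normalizedBracket := by
  classical
  by_contra hB
  obtain ⟨u, hF, hsg, hu⟩ := knotoidFOLK D B (not_lt.1 hB) S hS J hJ hne hdet _ rfl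
  have har : (fun i => twist (Graph_R D.Interlaced D.sign) (cutState D.Interlaced D.sign)
      (row (Graph_R D.Interlaced D.sign) i)) = cutTwist D.Interlaced D.sign :=
    funext fun i => twist_row (Graph_irrefl D) (Graph_int_symm D) i
  have hrows : J.image (row (Graph_R D.Interlaced D.sign)) ⊆
      rows (D.Cut (cutState D.Interlaced D.sign)) := by
    unfold rows
    exact Finset.image_subset_image (Finset.subset_univ J)
  refine hu (blocks12 hP J _ _ (thm_KnotoidBlock n D S J hS hJ)
    (fun Y hY => TRL.knotoid_reg D _ Y (hY.trans hrows)) _ u _ _ ?_ hF hsg ?_)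
  · exact Nat.mul_pos (Nat.factorial_pos _) (by positivity)
  · rw [har]
    exact h

/-- **the blocks, knot diagrams** -/
theorem knotBlocks12 (hP : St_Parity) {n : ℕ} (g : GaussJones.Code n) (e : Fin n → Bool)
    (S : Finset (Fin n)) (hS : Transversal (GaussJones.Interlaced g) S) (J : Finset (Fin n))
    (hJ : J ⊆ S) (hne : J.Nonempty) (hdet : cutDet g e J ≠ 0) (B : ℕ)
    (h : GoodBlocks S J (HasCycleIn g (S \ J))
      (row (GaussJones.Cut g e (cutState (GaussJones.Interlaced g) e)))
      (cutTwist (GaussJones.Interlaced g) e) (2 * (B + 2) * (S.card + 1))) :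
    B < terms (GaussJones.fPoly g e) := by
  classical
  by_contra hB
  have hirr : ∀ i, ¬ GaussJones.Interlaced g i i := by
    intro i h
    rcases h with h | h <;> exact lt_irrefl _ h.1
  have hsy : ∀ i j, GaussJones.Interlaced g i j → GaussJones.Interlaced g j i :=
    fun i j h => h.symm
  obtain ⟨u, hF, hsg, hu⟩ := knotFOLK g e B (not_lt.1 hB) S hS J hJ hne hdet _ rfl
  have har : (fun i => twist (Graph_R (GaussJones.Interlaced g) e)
      (cutState (GaussJones.Interlaced g) e) (row (Graph_R (GaussJones.Interlaced g) e) i)) =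
      cutTwist (GaussJones.Interlaced g) e := funext fun i => twist_row hirr hsy i
  have hrows : J.image (row (Graph_R (GaussJones.Interlaced g) e)) ⊆
      rows (GaussJones.Cut g e (cutState (GaussJones.Interlaced g) e)) := by
    unfold rows
    exact Finset.image_subset_image (Finset.subset_univ J)
  refine hu (blocks12 hP J _ _ (thm_KnotBlock n g e S J hS hJ)
    (fun Y hY => TRL.knot_reg g e _ Y (hY.trans hrows)) _ u _ _ ?_ hF hsg ?_)
  · exact Nat.mul_pos (Nat.factorial_pos _) (by positivity)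
  · rw [har]
    exact h

/-- all cycle sets are long -/
def LongCycles {ι : Type} [DecidableEq ι] (S : Finset ι) (CycS : Finset ι → Prop) (a : ι → ℤ)
    (N : ℕ) : Prop :=
  ∀ L ⊆ S, L.Nonempty → CycleSet CycS L → (N : ℤ) ≤ |∑ i ∈ L, a i|

theorem LongCycles.isolated {ι : Type} [DecidableEq ι] {S : Finset ι} {CycS Cyc : Finset ι → Prop}
    {a : ι → ℤ} {N : ℕ} (h : LongCycles S CycS a N) : Isolated S S CycS Cyc a N := by
  refine ⟨∅, Finset.empty_subset S, fun i hi => absurd hi (Finset.notMem_empty i), ?_⟩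
  rintro L L' ⟨hL, hL', -, hc', hlt⟩ h0
  rw [Finset.inter_eq_left.2 hL] at h0
  rw [Finset.inter_eq_left.2 hL']
  by_contra hne
  have h1 := h L' hL' (Finset.nonempty_iff_ne_empty.2 hne) hc'
  rw [h0, Finset.sum_empty, zero_sub, abs_neg] at hlt
  omega

/-- **Criterion (1), knotoid diagrams** -/
theorem knotoidC1 (hP : St_Parity) {n : ℕ} (D : GaussDiagram n) (S : Finset (Fin n))
    (hS : Transversal D.Interlaced S) (B : ℕ) (J : Finset (Fin n)) (hJ : J ⊆ S)
    (hne : J.Nonempty) (hdet : ¬ HasCycleInO D ∅ (S \ J) ∨ cutDetO D J ≠ 0)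
    (h : NearlyEqual S J (cutTwist D.Interlaced D.sign) (2 * (B + 2) * (S.card + 1)) ∨
      LongSigned S J (HasCycleInO D (S \ J)) (cutTwist D.Interlaced D.sign)
        (2 * (B + 2) * (S.card + 1)) ∨
      CloseCriterion S J (HasCycleInO D ∅) (HasCycleInO D (S \ J))
        (cutTwist D.Interlaced D.sign) (2 * (B + 2) * (S.card + 1)) ∨
      GoodBlocks S J (HasCycleInO D (S \ J)) (row (D.Cut (cutState D.Interlaced D.sign)))
        (cutTwist D.Interlaced D.sign) (2 * (B + 2) * (S.card + 1))) :
    B < terms D.normalizedBracket := by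
  classical
  have hd : cutDetO D J ≠ 0 := by
    rcases hdet with h1 | h1
    · exact cutDetO_span D S hS J hJ h1
    · exact h1
  have hBJ := thm_KnotoidBlock n D S J hS hJ
  rcases h with h | h | h | h
  · exact knotoidPsi D S hS J hJ hne hd B
      (((h.evenOn hJ).weighted (Cyc := HasCycleInO D (S \ J))).separating hBJ)
  · exact knotoidPsi D S hS J hJ hne hd B ((h.isolated hJ).separating hBJ)
  · exact knotoidPsi D S hS J hJ hne hd B (h.separating hP hBJ)
  · exact knotoidBlocks12 hP D S hS J hJ hne hd B h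

/-- **Criterion (1), knot diagrams** -/
theorem knotC1 (hP : St_Parity) {n : ℕ} (g : GaussJones.Code n) (e : Fin n → Bool)
    (S : Finset (Fin n)) (hS : Transversal (GaussJones.Interlaced g) S) (B : ℕ)
    (J : Finset (Fin n)) (hJ : J ⊆ S) (hne : J.Nonempty)
    (hdet : ¬ HasCycleIn g ∅ (S \ J) ∨ cutDet g e J ≠ 0)
    (h : NearlyEqual S J (cutTwist (GaussJones.Interlaced g) e) (2 * (B + 2) * (S.card + 1)) ∨
      LongSigned S J (HasCycleIn g (S \ J)) (cutTwist (GaussJones.Interlaced g) e)
        (2 * (B + 2) * (S.card + 1)) ∨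
      CloseCriterion S J (HasCycleIn g ∅) (HasCycleIn g (S \ J))
        (cutTwist (GaussJones.Interlaced g) e) (2 * (B + 2) * (S.card + 1)) ∨
      GoodBlocks S J (HasCycleIn g (S \ J))
        (row (GaussJones.Cut g e (cutState (GaussJones.Interlaced g) e)))
        (cutTwist (GaussJones.Interlaced g) e) (2 * (B + 2) * (S.card + 1))) :
    B < terms (GaussJones.fPoly g e) := by
  classical
  have hn : 0 < n := by
    obtain ⟨i, -⟩ := hne
    exact i.pos
  have hd : cutDet g e J ≠ 0 := by
    rcases hdet with h1 | h1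
    · exact cutDet_span hn g e S hS J hJ h1
    · exact h1
  have hBJ := thm_KnotBlock n g e S J hS hJ
  rcases h with h | h | h | h
  · exact knotPsi g e S hS J hJ hne hd B
      (((h.evenOn hJ).weighted (Cyc := HasCycleIn g (S \ J))).separating hBJ)
  · exact knotPsi g e S hS J hJ hne hd B ((h.isolated hJ).separating hBJ)
  · exact knotPsi g e S hS J hJ hne hd B (h.separating hP hBJ)
  · exact knotBlocks12 hP g e S hS J hJ hne hd B h

/-- **Criterion (2), knotoid diagrams**: `D_J` is a knotoid -/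
theorem knotoidC2 {n : ℕ} (D : GaussDiagram n) (S : Finset (Fin n))
    (hS : Transversal D.Interlaced S) (B : ℕ) (J : Finset (Fin n)) (hJ : J ⊆ S)
    (hne : J.Nonempty) (hnd : NonDeg (D.Cut (cutState D.Interlaced D.sign)) J)
    (h : Long S J (cutTwist D.Interlaced D.sign) (2 * (B + 2) * (S.card + 1)) ∨
      ∃ L₀ ⊆ J, ∀ L L', Close S (HasCycleInO D ∅) (cutTwist D.Interlaced D.sign)
        (2 * (B + 2) * (S.card + 1)) L L' → L ∩ J = L₀ → L' ∩ J = L₀) :
    B < terms D.normalizedBracket := by
  classical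
  obtain ⟨hd, hl⟩ := nondeg_O D S hS J hJ hnd
  have hBJ := thm_KnotoidBlock n D S J hS hJ
  have hI : Isolated S J (HasCycleInO D ∅) (HasCycleInO D (S \ J))
      (cutTwist D.Interlaced D.sign) (2 * (B + 2) * (S.card + 1)) := by
    rcases h with h | ⟨L₀, hL₀, h⟩
    · exact long_isolated hJ h 1 (Or.inl rfl) (loops_cycleSet hBJ hl (Finset.filter_subset _ _))
    · exact ⟨L₀, hL₀, loops_cycleSet hBJ hl hL₀, h⟩
  exact knotoidPsi D S hS J hJ hne hd B (hI.separating hBJ)

/-- **Criterion (2), knot diagrams**: `D_J` is a knot -/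
theorem knotC2 {n : ℕ} (g : GaussJones.Code n) (e : Fin n → Bool) (S : Finset (Fin n))
    (hS : Transversal (GaussJones.Interlaced g) S) (B : ℕ) (J : Finset (Fin n)) (hJ : J ⊆ S)
    (hne : J.Nonempty)
    (hnd : NonDeg (GaussJones.Cut g e (cutState (GaussJones.Interlaced g) e)) J)
    (h : Long S J (cutTwist (GaussJones.Interlaced g) e) (2 * (B + 2) * (S.card + 1)) ∨
      ∃ L₀ ⊆ J, ∀ L L', Close S (HasCycleIn g ∅) (cutTwist (GaussJones.Interlaced g) e)
        (2 * (B + 2) * (S.card + 1)) L L' → L ∩ J = L₀ → L' ∩ J = L₀) :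
    B < terms (GaussJones.fPoly g e) := by
  classical
  obtain ⟨hd, hl⟩ := nondeg_K g e S hS J hJ hne hnd
  have hBJ := thm_KnotBlock n g e S J hS hJ
  have hI : Isolated S J (HasCycleIn g ∅) (HasCycleIn g (S \ J))
      (cutTwist (GaussJones.Interlaced g) e) (2 * (B + 2) * (S.card + 1)) := by
    rcases h with h | ⟨L₀, hL₀, h⟩
    · exact long_isolated hJ h 1 (Or.inl rfl) (loops_cycleSet hBJ hl (Finset.filter_subset _ _))
    · exact ⟨L₀, hL₀, loops_cycleSet hBJ hl hL₀, h⟩
  exact knotPsi g e S hS J hJ hne hd B (hI.separating hBJ)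

end Pool.Agent.NHT
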