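import Mathlib
import Pool.Agent.NHT.Knot

/-!
# NHT, module KnotD: the matrix of `J` is invertible if and only if an odd number of states of `D_J` have
one component (helper68)

The second statement says that the determinant of `D_J` is odd, that is, `D_J` is a knot.
-/

set_option autoImplicit false
set_option linter.unusedSectionVars false

open Module Submodule Pool.Agent.UNI LaurentPolynomial Pool.Agent.SPT Pool.Agent.SPT.Rel
  Pool.Agent.SPT.Lin Pool.Agent.SRH Pool.Agent.EQT Pool.Agent.FHP Pool.Agent.TRP Pool.Agent.TRA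
  Pool.Agent.Helper16.Knotoid
open scoped Matrix

namespace Pool.Agent.NHT

section

variable {E : Type} [Fintype E] [DecidableEq E]

/-- the converse of `NonDegM.odd` -/
theorem nonDegM_of_odd {M : Matrix E E (ZMod 2)} {J : Finset E}
    (h : Odd ((Finset.univ : Finset E).powerset.filter fun W =>
      J ⊆ W ∧ Lin.kap M W = 0).card) : NonDegM M J := by
  classical
  have h3 : ∑ W ∈ (Finset.univ : Finset E).powerset.filter (fun W => J ⊆ W), (MW M W).det =
      (((Finset.univ : Finset E).powerset.filter fun W => J ⊆ W ∧ Lin.kap M W = 0).card :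
        ZMod 2) := by
    rw [← Finset.filter_filter, Finset.card_filter, Nat.cast_sum]
    refine Finset.sum_congr rfl fun W _ => ?_
    rw [← det_MW, zero_pow_eq]
    unfold Lin.kap
    split_ifs <;> simp
  have h1 : (∑ π : Equiv.Perm E, ∏ i, NJ M J (π i) i) = (Matrix.of (NJ M J)).det := by
    rw [Matrix.det_apply']
    refine Finset.sum_congr rfl fun π _ => ?_
    rw [sign_z2, one_mul]
    rfl
  have h2 : (Matrix.of (NJ M J)).det ≠ 0 := by
    rw [← h1, ← sum_det, h3]
    intro h4
    exact (Nat.not_even_iff_odd.2 h) ((ZMod.natCast_eq_zero_iff_even).1 h4)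
  intro x hx hxJ
  by_contra hne
  obtain ⟨z, hz⟩ : ∃ z : E → ZMod 2, z = fun c => if c ∈ J then x c else (M *ᵥ x) c := ⟨_, rfl⟩
  apply h2
  refine Matrix.exists_mulVec_eq_zero_iff.1 ⟨z, fun h0 => hne ?_, ?_⟩
  · funext c
    by_cases hc : c ∈ J
    · have h4 := congrFun h0 c
      rw [hz] at h4
      have h5 : (if c ∈ J then x c else (M *ᵥ x) c) = 0 := h4
      rw [if_pos hc] at h5
      exact h5
    · exact hx c hc
  · funext i
    have h4 : (Matrix.of (NJ M J) *ᵥ z) i = ∑ j, NJ M J i j * z j := rfl
    have h5 : (M *ᵥ x) i = ∑ j, M i j * x j := rfl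
    have h6 : (if i ∈ J then 0 else (M *ᵥ x) i) =
        ∑ j, if i = j then (if j ∈ J then 0 else (M *ᵥ x) j) else 0 := by
      rw [Finset.sum_ite_eq, if_pos (Finset.mem_univ i)]
    have h7 : (Matrix.of (NJ M J) *ᵥ z) i = (M *ᵥ x) i + if i ∈ J then 0 else (M *ᵥ x) i := by
      rw [h6, h4, h5, ← Finset.sum_add_distrib]
      refine Finset.sum_congr rfl fun j _ => ?_
      unfold NJ
      rw [hz]
      show (if j ∈ J then M i j else if i = j then 1 else 0) *
        (if j ∈ J then x j else (M *ᵥ x) j) = _
      by_cases hj : j ∈ J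
      · rw [if_pos hj, if_pos hj, if_pos hj, ite_self, add_zero]
      · rw [if_neg hj, if_neg hj, if_neg hj, hx j hj, mul_zero, zero_add, ite_mul, one_mul,
          zero_mul]
    rw [h7]
    by_cases hi : i ∈ J
    · rw [if_pos hi, hxJ i hi, add_zero]
      rfl
    · rw [if_neg hi]
      exact CharTwo.add_self_eq_zero _

end

variable {n : ℕ}

/-- from the matrix to the relation -/
theorem NonDegM.rel (D : GaussDiagram n) (σ : Fin n → Bool) {J : Finset (Fin n)}
    (h : NonDegM (D.gmat σ) J) : NonDeg (D.Cut σ) J := by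
  classical
  intro I hI hne
  by_contra hno
  push Not at hno
  obtain ⟨i₀, hi₀⟩ := hne
  have h1 := h (fun c => if c ∈ I then 1 else 0) (fun c hc => if_neg fun h2 => hc (hI h2)) (by
    intro i hi
    have h2 : (D.gmat σ *ᵥ fun c => if c ∈ I then (1 : ZMod 2) else 0) i =
        ∑ c, D.gmat σ i c * (if c ∈ I then 1 else 0) := rfl
    have h3 : ∑ c, D.gmat σ i c * (if c ∈ I then 1 else 0) =
        ((I.filter fun c => D.Cut σ i c).card : ZMod 2) := by
      rw [Finset.card_filter, Nat.cast_sum, ← Finset.sum_subset (Finset.subset_univ I)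
        (fun c _ hc => by rw [if_neg hc, mul_zero])]
      refine Finset.sum_congr rfl fun c hc => ?_
      rw [if_pos hc, mul_one, ← row_eq]
      unfold row
      by_cases h5 : D.Cut σ i c
      · rw [if_pos h5, if_pos h5, Nat.cast_one]
      · rw [if_neg h5, if_neg h5, Nat.cast_zero]
    rw [h2, h3]
    exact (ZMod.natCast_eq_zero_iff_even).2 (Nat.not_odd_iff_even.1 (hno i hi)))
  have h2 : (if i₀ ∈ I then (1 : ZMod 2) else 0) = 0 := congrFun h1 i₀
  rw [if_pos hi₀] at h2
  exact one_ne_zero h2

open Classical in
/-- **Knotoid diagrams**: the matrix of `J` is invertible if and only if an odd number of states which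
cut `J` have one component. -/
theorem nondeg_iff_O (D : GaussDiagram n) (J : Finset (Fin n)) :
    NonDeg (D.Cut (cutState D.Interlaced D.sign)) J ↔
      Odd (Finset.univ.filter fun s : Fin n → Bool => CutsO D J s ∧ D.comps s = 1).card := by
  obtain ⟨σ, hσ⟩ : ∃ σ, σ = cutState D.Interlaced D.sign := ⟨_, rfl⟩
  have hcard : (Finset.univ.filter fun s : Fin n → Bool => CutsO D J s ∧ D.comps s = 1).card =
      ((Finset.univ : Finset (Fin n)).powerset.filter fun W =>
        J ⊆ W ∧ Lin.kap (D.gmat σ) W = 0).card := by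
    have hcut : ∀ W : Finset (Fin n), CutsO D J (st σ W) ↔ J ⊆ W := by
      intro W
      unfold CutsO
      rw [← hσ]
      constructor
      · intro h c hc
        exact (st_iff σ W c).1 (h c hc)
      · intro h c hc
        exact (st_iff σ W c).2 (h hc)
    refine Finset.card_nbij' (fun s => Finset.univ.filter fun c => s c = σ c) (fun W => st σ W)
      ?_ ?_ ?_ ?_
    · intro s hs
      rw [Finset.mem_coe, Finset.mem_filter] at hs
      rw [Finset.mem_coe, Finset.mem_filter]
      have h1 := st_filter σ s
      refine ⟨Finset.mem_powerset.2 (Finset.subset_univ _), ?_, ?_⟩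
      · rw [← hcut, h1]
        exact hs.2.1
      · have h2 := comps_st D σ (Finset.univ.filter fun c => s c = σ c)
        rw [h1, hs.2.2] at h2
        show Lin.kap (D.gmat σ) (Finset.univ.filter fun c => s c = σ c) = 0
        omega
    · intro W hW
      rw [Finset.mem_coe, Finset.mem_filter] at hW
      rw [Finset.mem_coe, Finset.mem_filter]
      refine ⟨Finset.mem_univ _, (hcut W).2 hW.2.1, ?_⟩
      rw [comps_st, hW.2.2]
    · intro s _
      exact st_filter σ s
    · intro W _
      ext c
      rw [Finset.mem_filter]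
      exact ⟨fun h => (st_iff σ W c).1 h.2, fun h => ⟨Finset.mem_univ c, (st_iff σ W c).2 h⟩⟩
  rw [hcard, ← hσ]
  exact ⟨fun h => (h.matrix D σ).odd, fun h => (nonDegM_of_odd h).rel D σ⟩

open Classical in
/-- **Knot diagrams** -/
theorem nondeg_iff_K (hn : 0 < n) (g : GaussJones.Code n) (e : Fin n → Bool)
    (J : Finset (Fin n)) :
    NonDeg (GaussJones.Cut g e (cutState (GaussJones.Interlaced g) e)) J ↔
      Odd (Finset.univ.filter fun s : Fin n → Bool =>
        Cuts g J s ∧ GaussJones.loops g s = 1).card := by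
  have h0 : GaussJones.Cut g e (cutState (GaussJones.Interlaced g) e) =
      (cutOpen g e).Cut (cutState (cutOpen g e).Interlaced (cutOpen g e).sign) := by
    have h1 : (cutOpen g e).Interlaced = GaussJones.Interlaced g := interlaced_fun g e
    rw [h1]
    funext i j
    exact propext (UNI.cut_closed g e _ i j)
  rw [h0, nondeg_iff_O]
  have hcuts : ∀ s, Cuts g J (swE e s) ↔ CutsO (cutOpen g e) J s := by
    intro s
    unfold Cuts CutsO
    rw [interlaced_fun]
    refine forall₂_congr fun i _ => ?_
    show (s i == e i) = cutAll (GaussJones.Interlaced g) i ↔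
      s i = cutState (GaussJones.Interlaced g) e i
    unfold cutAll cutState
    by_cases h : ∃ j, Twins (GaussJones.Interlaced g) i j ∧ GaussJones.Interlaced g i j
    · rw [if_pos h, if_pos h]
      cases s i <;> cases e i <;> decide
    · rw [if_neg h, if_neg h]
      cases s i <;> cases e i <;> decide
  have hloops : ∀ s, GaussJones.loops g (swE e s) = (cutOpen g e).comps s :=
    fun s => loops_closed hn g e s
  have hcard : (Finset.univ.filter fun s : Fin n → Bool =>
      CutsO (cutOpen g e) J s ∧ (cutOpen g e).comps s = 1).card =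
      (Finset.univ.filter fun s : Fin n → Bool => Cuts g J s ∧ GaussJones.loops g s = 1).card := by
    refine Finset.card_bij (fun s _ => swE e s) ?_ ?_ ?_
    · intro s hs
      rw [Finset.mem_filter] at hs ⊢
      exact ⟨Finset.mem_univ _, (hcuts s).2 hs.2.1, by rw [hloops]; exact hs.2.2⟩
    · intro s _ s' _ h
      exact (swE e).injective h
    · intro s hs
      obtain ⟨t, rfl⟩ := (swE e).surjective s
      rw [Finset.mem_filter] at hs
      refine ⟨t, Finset.mem_filter.2 ⟨Finset.mem_univ _, (hcuts t).1 hs.2.1, ?_⟩, rfl⟩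
      rw [← hloops]
      exact hs.2.2
  rw [hcard]

end Pool.Agent.NHT
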