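import Pool.Agent.NHT.DefsD
import Pool.Agent.NHT.KnotD

/-!
# NHT, module KnotE: sets `J` of classes such that `D_J` is a knot (helper68)
-/

set_option autoImplicit false

namespace Pool.Agent.NHT

open Pool.Agent.SPT Pool.Agent.EQT Pool.Agent.FHP Pool.Agent.TRA Pool.Agent.TRP Pool.Agent.UNI
open Pool.Agent.Helper16.Knotoid

variable {n : ℕ}

/-- **Knotoid diagrams** -/
theorem oddDet_O (D : GaussDiagram n) (S : Finset (Fin n)) (hS : Transversal D.Interlaced S)
    (J : Finset (Fin n)) (hJ : J ⊆ S) (h : OddDetO D J) :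
    cutDetO D J ≠ 0 ∧ ∀ i ∈ J, HasCycleInO D (S \ J) {i} :=
  nondeg_O D S hS J hJ ((nondeg_iff_O D J).2 h)

/-- **Knot diagrams** -/
theorem oddDet_K (g : GaussJones.Code n) (e : Fin n → Bool) (S : Finset (Fin n))
    (hS : Transversal (GaussJones.Interlaced g) S) (J : Finset (Fin n)) (hJ : J ⊆ S)
    (hne : J.Nonempty) (h : OddDet g J) :
    cutDet g e J ≠ 0 ∧ ∀ i ∈ J, HasCycleIn g (S \ J) {i} := by
  have hn : 0 < n := by
    obtain ⟨i, -⟩ := hne
    exact i.pos
  exact nondeg_K g e S hS J hJ hne ((nondeg_iff_K hn g e J).2 h)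

end Pool.Agent.NHT
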