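import Mathlib
import Pool.Agent.NHT.Psi
import Pool.Agent.NHT.Defs11

/-!
# NHT, version 11, module Parity: cycle sets with cycle ranks of the same parity (helper46)
-/

set_option autoImplicit false
set_option linter.unusedSectionVars false

open Module Submodule

namespace Pool.Agent.NHT

open Pool.Agent.SPT Pool.Agent.SPT.Rel Pool.Agent.SPT.Odd Pool.Agent.TRA Pool.Agent.TRP

variable {ι V : Type} [DecidableEq ι] [DecidableEq V] [AddCommGroup V] [Module (ZMod 2) V]

/-- the value for a set `L` -/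
noncomputable def cycVal (J : Finset ι) (r : ι → V) (L : Finset ι) : ℝ :=
  RR (J.image r \ (J \ L).image r) (span (ZMod 2) (((J \ L).image r : Finset V) : Set V))
    (span (ZMod 2) ((J.image r : Finset V) : Set V)) (fun _ => 0)

/-- the sum for one set -/
theorem cycleSum_single {J : Finset ι} {Cyc : Finset ι → Prop} {r : ι → V} (hB : Block J Cyc r)
    {L₀ : Finset ι} (hL₀ : L₀ ⊆ J) :
    cycleSum Cyc J (fun L => if L = L₀ then 1 else 0) = ((cycVal J r L₀ : ℝ) : ℂ) := by
  classical
  obtain ⟨ψ, hψ⟩ : ∃ ψ : Finset ι → ℂ, ψ = fun L => if L = L₀ then 1 else 0 := ⟨_, rfl⟩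
  rw [← hψ, ← PS_cycle J Cyc r hB ψ]
  exact PS_single (J.image r) ((J \ L₀).image r)
    (Finset.image_subset_image Finset.sdiff_subset)
    (fun K => ψ (J.filter fun i => r i ∉ K)) (fun K hK => by
      rw [hψ]
      obtain ⟨Y, hY, rfl⟩ := Finset.subset_image_iff.1 hK
      have hYJ : Y ⊆ J := Finset.coe_subset.1 hY
      have h2 : (J.filter fun i => r i ∉ Y.image r) = J \ Y := by
        ext i
        rw [Finset.mem_filter, Finset.mem_sdiff, Finset.mem_image]
        constructor
        · rintro ⟨h1, h2⟩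
          exact ⟨h1, fun h3 => h2 ⟨i, h3, rfl⟩⟩
        · rintro ⟨h1, h2⟩
          refine ⟨h1, ?_⟩
          rintro ⟨j, hj, hji⟩
          exact h2 (hB.inj (Finset.mem_coe.2 (hYJ hj)) (Finset.mem_coe.2 h1) hji ▸ hj)
      show (if (J.filter fun i => r i ∉ Y.image r) = L₀ then (1 : ℂ) else 0) = _
      rw [h2]
      by_cases h3 : J \ Y = L₀
      · rw [if_pos h3, if_pos]
        rw [← h3, Finset.sdiff_sdiff_eq_self hYJ]
      · rw [if_neg h3, if_neg]
        intro h4
        apply h3
        have h5 : Y = J \ L₀ :=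
          (Finset.image_injOn_powerset_of_injOn hB.inj)
            (Finset.mem_coe.2 (Finset.mem_powerset.2 hYJ))
            (Finset.mem_coe.2 (Finset.mem_powerset.2 Finset.sdiff_subset)) h4
        rw [h5, Finset.sdiff_sdiff_eq_self hL₀])

/-- the sum is linear -/
theorem cycleSum_cyc {J : Finset ι} {Cyc : Finset ι → Prop} {r : ι → V} (hB : Block J Cyc r)
    (ψ : Finset ι → ℂ) : cycleSum Cyc J ψ = ∑ L ∈ J.powerset, ψ L * ((cycVal J r L : ℝ) : ℂ) := by
  classical
  unfold cycleSum
  refine Finset.sum_congr rfl fun L hL => ?_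
  have h1 := cycleSum_single hB (Finset.mem_powerset.1 hL)
  unfold cycleSum at h1
  rw [Finset.sum_eq_single L] at h1
  · rw [← h1, Finset.mul_sum]
    refine Finset.sum_congr rfl fun F _ => ?_
    show _ = ψ L * ((-1) ^ (L.card + F.card) * if L = L then 1 else 0)
    rw [if_pos rfl, mul_one, mul_comm]
  · intro L' _ hne
    refine Finset.sum_eq_zero fun F _ => ?_
    show (-1 : ℂ) ^ (L'.card + F.card) * (if L' = L then 1 else 0) = 0
    rw [if_neg hne, mul_zero]
  · intro h
    exact absurd hL h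

/-- the value of a cycle set -/
theorem cycVal_pos {J : Finset ι} {Cyc : Finset ι → Prop} {r : ι → V} (hB : Block J Cyc r)
    {L₀ : Finset ι} (hL₀ : L₀ ⊆ J) (hc : CycleSet Cyc L₀) :
    0 < (-1 : ℝ) ^ (finrank (ZMod 2) (span (ZMod 2) (((J \ L₀).image r : Finset V) : Set V)) +
      finrank (ZMod 2) (span (ZMod 2) ((J.image r : Finset V) : Set V))) * cycVal J r L₀ :=
  pos_RR (J.image r \ (J \ L₀).image r).card (J.image r \ (J \ L₀).image r) rfl
    (span (ZMod 2) (((J \ L₀).image r : Finset V) : Set V))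
    (span (ZMod 2) ((J.image r : Finset V) : Set V)) inferInstance
    (fun v hv => by
      rw [Finset.mem_sdiff, Finset.mem_image] at hv
      obtain ⟨⟨i, hi, rfl⟩, hv⟩ := hv
      refine hB.notMem ?_ Finset.sdiff_subset
      rw [Finset.sdiff_sdiff_eq_self hL₀]
      refine hc i ?_
      by_contra h3
      exact hv (Finset.mem_image_of_mem r (Finset.mem_sdiff.2 ⟨hi, h3⟩))) (by
      rw [← span_union, ← Finset.coe_union,
        Finset.union_sdiff_of_subset (Finset.image_subset_image Finset.sdiff_subset)])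

/-- the value is zero for the other sets -/
theorem cycVal_zero {J : Finset ι} {Cyc : Finset ι → Prop} {r : ι → V} (hB : Block J Cyc r)
    {L : Finset ι} (hL : L ⊆ J) (hc : ¬ CycleSet Cyc L) : cycVal J r L = 0 := by
  classical
  unfold CycleSet at hc
  push Not at hc
  obtain ⟨i, hi, hn⟩ := hc
  have hmem : r i ∈ span (ZMod 2) (((J \ L).image r : Finset V) : Set V) := by
    by_contra h
    have h1 := hB.inCycleP Finset.sdiff_subset (hL hi) h
    rw [Finset.sdiff_sdiff_eq_self hL] at h1
    exact hn h1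
  have hiX : r i ∈ J.image r \ (J \ L).image r := by
    rw [Finset.mem_sdiff]
    refine ⟨Finset.mem_image_of_mem r (hL hi), fun h => ?_⟩
    obtain ⟨j, hj, hji⟩ := Finset.mem_image.1 h
    rw [Finset.mem_sdiff] at hj
    exact hj.2 (hB.inj (Finset.mem_coe.2 hj.1) (Finset.mem_coe.2 (hL hi)) hji ▸ hi)
  unfold cycVal
  obtain ⟨Y, hY⟩ : ∃ Y, Y = J.image r \ (J \ L).image r := ⟨_, rfl⟩
  rw [← hY] at hiX ⊢
  rw [← Finset.insert_erase hiX, RR_insert _ _ _ _ _ (Finset.notMem_erase _ _)]
  have h1 : span (ZMod 2) (((J \ L).image r : Finset V) : Set V) ⊔ span (ZMod 2) {r i} =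
      span (ZMod 2) (((J \ L).image r : Finset V) : Set V) :=
    sup_eq_left.2 (span_le.2 fun v hv => by
      rw [Set.mem_singleton_iff.1 hv]
      exact hmem)
  rw [h1]
  ring

/-- independent vectors modulo `U` -/
theorem finrank_add_card (U A : Finset V)
    (h : ∀ t ∈ A, t ∉ span (ZMod 2) ((U ∪ A.erase t : Finset V) : Set V)) :
    finrank (ZMod 2) (span (ZMod 2) ((U ∪ A : Finset V) : Set V)) =
      finrank (ZMod 2) (span (ZMod 2) (U : Set V)) + A.card := by
  classical
  induction A using Finset.induction_on with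
  | empty => rw [Finset.union_empty, Finset.card_empty, Nat.add_zero]
  | insert t A ht ih =>
    have h1 := ih fun s hs hn => h s (Finset.mem_insert_of_mem hs) (span_mono
      (Finset.coe_subset.2 (Finset.union_subset_union_right (Finset.erase_subset_erase s
        (Finset.subset_insert t A)))) hn)
    have h2 := h t (Finset.mem_insert_self t A)
    rw [Finset.erase_insert ht] at h2
    have ht0 : t ≠ 0 := by
      rintro rfl
      exact h2 (zero_mem _)
    have h3 : span (ZMod 2) ((U ∪ insert t A : Finset V) : Set V) =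
        span (ZMod 2) ((U ∪ A : Finset V) : Set V) ⊔ span (ZMod 2) {t} := by
      rw [Finset.union_insert, Finset.coe_insert, span_insert, sup_comm]
    have h4 := Submodule.finrank_sup_add_finrank_inf_eq
      (span (ZMod 2) ((U ∪ A : Finset V) : Set V)) (span (ZMod 2) {t})
    have h5 : span (ZMod 2) ((U ∪ A : Finset V) : Set V) ⊓ span (ZMod 2) {t} = ⊥ := by
      rw [eq_bot_iff]
      intro v hv
      rw [mem_inf, mem_span_singleton] at hv
      obtain ⟨hv1, c, rfl⟩ := hv
      rcases zmod2_cases c with rfl | rfl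
      · rw [zero_smul]
        exact zero_mem _
      · rw [one_smul] at hv1
        exact absurd hv1 h2
    rw [h5, finrank_bot, finrank_span_singleton ht0, h1] at h4
    rw [h3, Finset.card_insert_of_notMem ht]
    omega

/-- the cycle rank -/
theorem rank_cycleRank {J : Finset ι} {Cyc : Finset ι → Prop} {r : ι → V} (hB : Block J Cyc r)
    {L : Finset ι} (hL : L ⊆ J) :
    finrank (ZMod 2) (span (ZMod 2) ((J.image r : Finset V) : Set V)) =
      finrank (ZMod 2) (span (ZMod 2) (((J \ L).image r : Finset V) : Set V)) +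
        cycleRank Cyc L := by
  classical
  obtain ⟨s, hs⟩ : ∃ s : Finset (Finset ι), s = L.powerset.filter fun F => ¬ Cyc F := ⟨_, rfl⟩
  have hempty : ∅ ∈ s := by
    rw [hs, Finset.mem_filter]
    refine ⟨Finset.empty_mem_powerset L, ?_⟩
    rw [hB.co ∅ (Finset.empty_subset J), Finset.image_empty]
    exact Co_empty _
  obtain ⟨F, hF, hsup⟩ := Finset.exists_mem_eq_sup s ⟨∅, hempty⟩ Finset.card
  have hFs := hF
  rw [hs, Finset.mem_filter, Finset.mem_powerset] at hFs
  obtain ⟨hFL, hFc⟩ := hFs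
  have hFJ : F ⊆ J := hFL.trans hL
  have hinj : Set.InjOn r (L : Set ι) := hB.inj.mono (Finset.coe_subset.2 hL)
  have hP : L.image r ⊆ J.image r := Finset.image_subset_image hL
  have hJP : F.image r ⊆ L.image r := Finset.image_subset_image hFL
  have hco := (hB.co F hFJ).1 hFc
  have hmax : ∀ v ∈ L.image r, v ∉ F.image r → ¬ Co (J.image r) (insert v (F.image r)) := by
    intro v hv hvF hc
    obtain ⟨i, hi, rfl⟩ := Finset.mem_image.1 hv
    have hiF : i ∉ F := fun h => hvF (Finset.mem_image_of_mem r h)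
    have h1 : insert i F ⊆ L := Finset.insert_subset hi hFL
    rw [← Finset.image_insert, ← hB.co _ (h1.trans hL)] at hc
    have h2 : insert i F ∈ s := by
      rw [hs, Finset.mem_filter, Finset.mem_powerset]
      exact ⟨h1, hc⟩
    have h3 := Finset.le_sup (f := Finset.card) h2
    rw [hsup, Finset.card_insert_of_notMem hiF] at h3
    omega
  have h1 := finrank_add_card (J.image r \ L.image r) (L.image r \ F.image r) fun t ht hn => by
    refine not_mem_of_max hP hJP hco hmax t ht ((L.image r \ F.image r).erase t)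
      (Finset.erase_subset _ _) (Finset.notMem_erase _ _) ?_
    rw [Finset.coe_union] at hn
    exact hn
  have h2 : (J.image r \ L.image r) ∪ (L.image r \ F.image r) = J.image r \ F.image r := by
    ext v
    simp only [Finset.mem_union, Finset.mem_sdiff]
    constructor
    · rintro (⟨h3, h4⟩ | ⟨h3, h4⟩)
      · exact ⟨h3, fun h5 => h4 (hJP h5)⟩
      · exact ⟨hP h3, h4⟩
    · rintro ⟨h3, h4⟩
      by_cases h5 : v ∈ L.image r
      · exact Or.inr ⟨h5, h4⟩
      · exact Or.inl ⟨h3, h5⟩
  have hco' : span (ZMod 2) ((J.image r \ F.image r : Finset V) : Set V) =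
      span (ZMod 2) ((J.image r : Finset V) : Set V) := hco
  rw [h2, hco', hB.image_sdiff hL] at h1
  rw [h1]
  congr 1
  have h3 : cycleRank Cyc L = L.card - F.card := by
    unfold cycleRank
    have h4 : (L.powerset.filter fun F => ¬ Cyc F).sup Finset.card = F.card := by
      rw [← hsup, hs]
    rw [← h4]
  rw [h3, Finset.card_sdiff_of_subset hJP, Finset.card_image_of_injOn hinj,
    Finset.card_image_of_injOn (hinj.mono (Finset.coe_subset.2 hFL))]

/-- **cycle ranks of the same parity** -/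
theorem SameParity.separating {S J : Finset ι} {CycS Cyc : Finset ι → Prop} {r : ι → V}
    (hB : Block J Cyc r) {a : ι → ℤ} {N : ℕ} (h : SameParity S J CycS Cyc a N) :
    Separating S J CycS Cyc a N := by
  classical
  obtain ⟨Λ, hcl, ⟨L₁, hL₁, hL₁J, hL₁c⟩, hpar⟩ := h
  refine ⟨fun L => if L ∈ Λ then 1 else 0, fun L L' hLL => ?_, ?_⟩
  · have hLL' : Close S CycS a N L' L := by
      obtain ⟨h1, h2, h3, h4, h5⟩ := hLL
      exact ⟨h2, h1, h4, h3, by rw [abs_sub_comm]; exact h5⟩
    show (if L ∩ J ∈ Λ then (1 : ℂ) else 0) = if L' ∩ J ∈ Λ then 1 else 0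
    by_cases h1 : L ∩ J ∈ Λ
    · rw [if_pos h1, if_pos (hcl L L' hLL h1)]
    · rw [if_neg h1, if_neg fun h2 => h1 (hcl L' L hLL' h2)]
  · rw [cycleSum_cyc hB]
    have h1 : ∑ L ∈ J.powerset, (if L ∈ Λ then (1 : ℂ) else 0) * ((cycVal J r L : ℝ) : ℂ) =
        ((∑ L ∈ J.powerset.filter (fun L => L ∈ Λ), cycVal J r L : ℝ) : ℂ) := by
      rw [Finset.sum_filter, Complex.ofReal_sum]
      refine Finset.sum_congr rfl fun L _ => ?_
      split_ifs
      · rw [one_mul]
      · rw [zero_mul, Complex.ofReal_zero]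
    rw [h1]
    intro h0
    have h2 := Complex.ofReal_eq_zero.1 h0
    have hval : ∀ L, L ⊆ J → CycleSet Cyc L → 0 < (-1 : ℝ) ^ cycleRank Cyc L * cycVal J r L := by
      intro L hL hc
      have h3 := cycVal_pos hB hL hc
      rw [rank_cycleRank hB hL, ← add_assoc, pow_add, ← two_mul, pow_mul, neg_one_sq, one_pow,
        one_mul] at h3
      exact h3
    have hpos : ∀ L ∈ J.powerset.filter (fun L => L ∈ Λ),
        0 ≤ (-1 : ℝ) ^ cycleRank Cyc L₁ * cycVal J r L := by
      intro L hL
      rw [Finset.mem_filter, Finset.mem_powerset] at hL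
      by_cases hc : CycleSet Cyc L
      · have h3 := hval L hL.1 hc
        have h4 := hpar L₁ hL₁ L hL.2 hL₁J hL.1 hL₁c hc
        have h5 : (-1 : ℝ) ^ cycleRank Cyc L₁ = (-1) ^ cycleRank Cyc L := by
          have h6 : (-1 : ℝ) ^ (cycleRank Cyc L₁ + cycleRank Cyc L) = 1 := h4.neg_one_pow
          rw [pow_add] at h6
          have h7 : (-1 : ℝ) ^ cycleRank Cyc L * (-1) ^ cycleRank Cyc L = 1 := by
            rw [← mul_pow, neg_one_mul, neg_neg, one_pow]
          calc (-1 : ℝ) ^ cycleRank Cyc L₁ = (-1) ^ cycleRank Cyc L₁ *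
              ((-1) ^ cycleRank Cyc L * (-1) ^ cycleRank Cyc L) := by rw [h7, mul_one]
            _ = (-1) ^ cycleRank Cyc L := by rw [← mul_assoc, h6, one_mul]
        rw [h5]
        exact h3.le
      · rw [cycVal_zero hB hL.1 hc, mul_zero]
    have h3 : 0 < ∑ L ∈ J.powerset.filter (fun L => L ∈ Λ),
        (-1 : ℝ) ^ cycleRank Cyc L₁ * cycVal J r L := by
      refine Finset.sum_pos' hpos ⟨L₁, ?_, hval L₁ hL₁J hL₁c⟩
      rw [Finset.mem_filter, Finset.mem_powerset]
      exact ⟨hL₁J, hL₁⟩
    rw [← Finset.mul_sum, h2, mul_zero] at h3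
    exact lt_irrefl _ h3

end Pool.Agent.NHT
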