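import Mathlib
import Pool.Agent.NHT.Flat

/-!
# NHT, module Smooth: the parts of the state sum which belong to the sets of classes in `J` (helper68)

The parts of `f` at the clusters have disjoint supports, so their products with monomials have together
at most as many terms as `f`.
-/

set_option autoImplicit false
set_option linter.unusedSectionVars false

open Module Submodule Pool.Agent.UNI LaurentPolynomial Pool.Agent.SPT Pool.Agent.SPT.Rel
  Pool.Agent.SPT.Lin Pool.Agent.SRH

namespace Pool.Agent.NHT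

/-! ### clusters with disjoint supports -/

section

variable {K : Type} [CommRing K]

theorem cutL_and (p q : ℤ → Prop) (f : K[T;T⁻¹]) :
    cutL p (cutL q f) = cutL (fun n => p n ∧ q n) f := by
  classical
  apply LaurentPolynomial.ext
  intro n
  rw [cutL_coeff, cutL_coeff, cutL_coeff]
  by_cases h1 : p n <;> by_cases h2 : q n <;> simp [h1, h2]

theorem cutL_or (p q : ℤ → Prop) (h : ∀ n, p n → q n → False) (f : K[T;T⁻¹]) :
    cutL (fun n => p n ∨ q n) f = cutL p f + cutL q f := by
  classical
  apply LaurentPolynomial.ext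
  intro n
  rw [AddMonoidAlgebra.coeff_add, Finsupp.add_apply, cutL_coeff, cutL_coeff, cutL_coeff]
  by_cases h1 : p n
  · have h2 : ¬ q n := fun h2 => h n h1 h2
    simp [h1, h2]
  · by_cases h2 : q n <;> simp [h1, h2]

theorem cutL_congr {p q : ℤ → Prop} (h : ∀ n, p n ↔ q n) (f : K[T;T⁻¹]) :
    cutL p f = cutL q f := by
  have h1 : p = q := funext fun n => propext (h n)
  rw [h1]

theorem cutL_true (f : K[T;T⁻¹]) : cutL (fun _ => True) f = f := by
  classical
  apply LaurentPolynomial.ext
  intro n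
  rw [cutL_coeff, if_pos trivial]

theorem cutL_false (f : K[T;T⁻¹]) : cutL (fun _ => False) f = 0 := by
  classical
  apply LaurentPolynomial.ext
  intro n
  rw [cutL_coeff, if_neg not_false, AddMonoidAlgebra.coeff_zero, Finsupp.zero_apply]

/-- **Splitting** -/
theorem splitP (D f S₁ S₂ : K[T;T⁻¹]) (s a b : ℤ) (B : ℕ) (hB : f.coeff.support.card ≤ B)
    (hs : 0 ≤ s) (hD : Sup (fun n => -s ≤ n ∧ n ≤ s) D) (h : D * f = S₁ + S₂)
    (h₁ : Sup (fun n => n ≤ a) S₁) (h₂ : Sup (fun n => b ≤ n) S₂)
    (hab : a + (B + 1) * (2 * s + 1) < b) :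
    ∃ p : ℤ → Prop, D * cutL p f = S₁ ∧ D * cutL (fun n => ¬ p n) f = S₂ := by
  classical
  -- the window
  obtain ⟨j, hj, hjw⟩ : ∃ j : ℕ, j ≤ B ∧ ∀ n : ℤ, a + 1 + j * (2 * s + 1) ≤ n →
      n < a + 1 + (j + 1) * (2 * s + 1) → f.coeff n = 0 := by
    by_contra hno
    push Not at hno
    choose! w hw1 hw2 hw3 using hno
    have hinj : ∀ i ∈ Finset.range (B + 1), ∀ j ∈ Finset.range (B + 1), w i = w j → i = j := by
      have key : ∀ i j : ℕ, i ≤ B → j ≤ B → i < j → w i ≠ w j := by
        intro i j hi hj hij he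
        have h1 := hw2 i hi
        have h2 := hw1 j hj
        have h3 : ((i : ℤ) + 1) * (2 * s + 1) ≤ j * (2 * s + 1) := by
          refine mul_le_mul_of_nonneg_right ?_ (by omega)
          exact_mod_cast hij
        rw [he] at h1
        omega
      intro i hi j hj he
      rw [Finset.mem_range] at hi hj
      rcases lt_trichotomy i j with h1 | h1 | h1
      · exact absurd he (key i j (by omega) (by omega) h1)
      · exact h1
      · exact absurd he.symm (key j i (by omega) (by omega) h1)
    have h1 : ((Finset.range (B + 1)).image w).card = B + 1 := by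
      rw [Finset.card_image_of_injOn fun i hi j hj he => hinj i hi j hj he, Finset.card_range]
    have h2 : (Finset.range (B + 1)).image w ⊆ f.coeff.support := by
      intro n hn
      obtain ⟨i, hi, rfl⟩ := Finset.mem_image.1 hn
      rw [Finset.mem_range] at hi
      rw [Finsupp.mem_support_iff]
      exact hw3 i (by omega)
    have h3 := Finset.card_le_card h2
    omega
  obtain ⟨t, ht⟩ : ∃ t : ℤ, t = a + 1 + j * (2 * s + 1) + s := ⟨_, rfl⟩
  have hj1 : (j : ℤ) * (2 * s + 1) + (2 * s + 1) = (j + 1) * (2 * s + 1) := by ring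
  have hj2 : ((j : ℤ) + 1) * (2 * s + 1) ≤ (B + 1) * (2 * s + 1) := by
    refine mul_le_mul_of_nonneg_right ?_ (by omega)
    have : (j : ℤ) ≤ B := by exact_mod_cast hj
    omega
  have hj3 : 0 ≤ (j : ℤ) * (2 * s + 1) := mul_nonneg (by positivity) (by omega)
  have hwin : ∀ n : ℤ, t - s ≤ n → n ≤ t + s → f.coeff n = 0 := by
    intro n hn1 hn2
    exact hjw n (by omega) (by omega)
  obtain ⟨f₁, hf₁⟩ : ∃ f₁, f₁ = cutL (fun n => n < t) f := ⟨_, rfl⟩
  obtain ⟨f₂, hf₂⟩ : ∃ f₂, f₂ = cutL (fun n => ¬ n < t) f := ⟨_, rfl⟩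
  have hf : f₁ + f₂ = f := by
    rw [hf₁, hf₂]
    exact cutL_add _ _
  have hS₁ : Sup (fun n => n < t - s) f₁ := by
    intro n hn
    rw [hf₁, cutL_coeff] at hn
    by_cases hnt : n < t
    · rw [if_pos hnt] at hn
      by_contra h3
      exact hn (hwin n (by omega) (by omega))
    · rw [if_neg hnt] at hn
      exact absurd rfl hn
  have hS₂ : Sup (fun n => t + s < n) f₂ := by
    intro n hn
    rw [hf₂, cutL_coeff] at hn
    by_cases hnt : n < t
    · rw [if_neg (not_not.2 hnt)] at hn
      exact absurd rfl hn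
    · rw [if_pos hnt] at hn
      by_contra h3
      exact hn (hwin n (by omega) (by omega))
  have h3 : Sup (fun n => n < t) (D * f₁) := Sup.mul hD hS₁ fun a b ha hb => by omega
  have h4 : Sup (fun n => t < n) (D * f₂) := Sup.mul hD hS₂ fun a b ha hb => by omega
  have h5 : D * f₁ - S₁ = S₂ - D * f₂ := by
    have h6 : D * f₁ + D * f₂ = S₁ + S₂ := by rw [← mul_add, hf, h]
    linear_combination h6
  have h6 : Sup (fun n => n < t) (D * f₁ - S₁) := h3.sub (h₁.mono fun n hn => by omega)
  have h7 : Sup (fun n => t ≤ n) (D * f₁ - S₁) := by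
    rw [h5]
    exact (h₂.mono fun n hn => by omega).sub (h4.mono fun n hn => by omega)
  have h8 : D * f₁ - S₁ = 0 := Sup.eq_zero h6 h7 fun n h1 h2 => by omega
  refine ⟨fun n => n < t, ?_, ?_⟩
  · rw [← hf₁]
    exact sub_eq_zero.1 h8
  · rw [← hf₂]
    rw [h8] at h5
    exact (sub_eq_zero.1 h5.symm).symm

/-- **Clusters with disjoint supports** -/
theorem clusterP {ι κ : Type} [DecidableEq ι] [DecidableEq κ] (D : K[T;T⁻¹]) (s : ℤ)
    (hs : 0 ≤ s) (hD : Sup (fun n => -s ≤ n ∧ n ≤ s) D) (B : ℕ) (G : ι → K[T;T⁻¹]) (e : ι → ℤ)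
    (ψ : ι → κ) (N : ℤ) (hN : (B + 1) * (2 * s + 1) + 2 * s ≤ N) (k : ℕ) :
    ∀ (I : Finset ι), I.card ≤ k →
      (∀ i ∈ I, Sup (fun n => e i - s ≤ n ∧ n ≤ e i + s) (G i)) →
      ∀ f : K[T;T⁻¹], f.coeff.support.card ≤ B → D * f = ∑ i ∈ I, G i →
      (∀ i ∈ I, ∀ j ∈ I, |e i - e j| ≤ N → ψ i = ψ j) →
      ∃ P : κ → ℤ → Prop, (∀ c c' n, P c n → P c' n → c = c') ∧
        ∀ c, ∑ i ∈ I.filter (fun i => ψ i = c), G i = D * cutL (P c) f := by
  classical
  induction k with
  | zero =>
    intro I hI _ _ _ _ _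
    rw [Nat.le_zero, Finset.card_eq_zero] at hI
    refine ⟨fun _ _ => False, fun _ _ _ h => h.elim, fun c => ?_⟩
    rw [hI, Finset.filter_empty, Finset.sum_empty, cutL_false, mul_zero]
  | succ k ih =>
    intro I hI hG f hf hDf hψ
    have hN0 : 0 ≤ N := by
      have : 0 ≤ ((B : ℤ) + 1) * (2 * s + 1) := by positivity
      omega
    by_cases hne : I = ∅
    · refine ⟨fun _ _ => False, fun _ _ _ h => h.elim, fun c => ?_⟩
      rw [hne, Finset.filter_empty, Finset.sum_empty, cutL_false, mul_zero]
    obtain ⟨i₀, hi₀, hmin⟩ := Finset.exists_min_image I e (Finset.nonempty_iff_ne_empty.2 hne)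
    by_cases hconst : ∀ i ∈ I, ψ i = ψ i₀
    · refine ⟨fun c _ => c = ψ i₀, fun c c' _ h h' => h.trans h'.symm, fun c => ?_⟩
      by_cases hc : c = ψ i₀
      · have h1 : cutL (fun _ => c = ψ i₀) f = f := by
          rw [cutL_congr (q := fun _ => True) (fun _ => ⟨fun _ => trivial, fun _ => hc⟩), cutL_true]
        rw [h1, hDf]
        refine Finset.sum_congr ?_ fun _ _ => rfl
        ext i
        rw [Finset.mem_filter]
        exact ⟨fun h => h.1, fun h => ⟨h, (hconst i h).trans hc.symm⟩⟩
      · have h1 : cutL (fun _ => c = ψ i₀) f = 0 := by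
          rw [cutL_congr (q := fun _ => False) (fun _ => ⟨fun h => hc h, fun h => h.elim⟩),
            cutL_false]
        rw [h1, mul_zero]
        refine Finset.sum_eq_zero fun i hi => ?_
        rw [Finset.mem_filter] at hi
        exact absurd (hi.2.symm.trans (hconst i hi.1)) hc
    · push Not at hconst
      obtain ⟨i₁, hi₁, hne₁⟩ := hconst
      obtain ⟨j₀, hj₀, hjmin⟩ := Finset.exists_min_image (I.filter fun i => ψ i ≠ ψ i₀) e
        ⟨i₁, Finset.mem_filter.2 ⟨hi₁, hne₁⟩⟩
      rw [Finset.mem_filter] at hj₀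
      have hψ₁ : ∀ i ∈ I, e i < e j₀ → ψ i = ψ i₀ := by
        intro i hi hlt
        by_contra h
        have := hjmin i (Finset.mem_filter.2 ⟨hi, h⟩)
        omega
      have hfar : ∀ i ∈ I, e i < e j₀ → e i + N < e j₀ := by
        intro i hi hlt
        by_contra h
        apply hj₀.2
        rw [← hψ₁ i hi hlt]
        refine hψ j₀ hj₀.1 i hi ?_
        rw [abs_le]
        constructor <;> omega
      have hlt₀ : e i₀ < e j₀ := by
        rcases lt_or_eq_of_le (hmin j₀ hj₀.1) with h | h
        · exact h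
        · exfalso
          apply hj₀.2
          refine hψ j₀ hj₀.1 i₀ hi₀ ?_
          rw [h, sub_self, abs_zero]
          exact hN0
      have hsplit : ∀ g : ι → K[T;T⁻¹], ∑ i ∈ I, g i =
          ∑ i ∈ I.filter (fun i => e i < e j₀), g i +
            ∑ i ∈ I.filter (fun i => ¬ e i < e j₀), g i :=
        fun g => (Finset.sum_filter_add_sum_filter_not I _ g).symm
      obtain ⟨p, h1, h2⟩ := splitP D f
        (∑ i ∈ I.filter (fun i => e i < e j₀), G i)
        (∑ i ∈ I.filter (fun i => ¬ e i < e j₀), G i) s (e j₀ - N - 1 + s) (e j₀ - s) B hf hs hD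
        (by rw [hDf, hsplit]) (by
          refine Sup.sum _ _ fun i hi => ?_
          rw [Finset.mem_filter] at hi
          refine (hG i hi.1).mono fun n hn => ?_
          have := hfar i hi.1 hi.2
          omega) (by
          refine Sup.sum _ _ fun i hi => ?_
          rw [Finset.mem_filter] at hi
          refine (hG i hi.1).mono fun n hn => ?_
          omega) (by omega)
      obtain ⟨P, hP, hP'⟩ := ih (I.filter fun i => ¬ e i < e j₀) (by
          have h5 : (I.filter fun i => ¬ e i < e j₀).card < I.card := by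
            refine Finset.card_lt_card ?_
            rw [Finset.filter_ssubset]
            exact ⟨i₀, hi₀, not_not.2 hlt₀⟩
          omega) (fun i hi => hG i (Finset.mem_filter.1 hi).1) (cutL (fun n => ¬ p n) f)
        ((cutL_card _ f).trans hf) h2
        (fun i hi j hj => hψ i (Finset.mem_filter.1 hi).1 j (Finset.mem_filter.1 hj).1)
      refine ⟨fun c n => (c = ψ i₀ ∧ p n) ∨ (P c n ∧ ¬ p n), ?_, fun c => ?_⟩
      · rintro c c' n (⟨h3, h4⟩ | ⟨h3, h4⟩) (⟨h5, h6⟩ | ⟨h5, h6⟩)
        · exact h3.trans h5.symm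
        · exact absurd h4 h6
        · exact absurd h6 h4
        · exact hP c c' n h3 h5
      · rw [cutL_or (fun n => c = ψ i₀ ∧ p n) (fun n => P c n ∧ ¬ p n)
          (fun n h3 h4 => h4.2 h3.2), mul_add, ← cutL_and (P c) (fun n => ¬ p n) f, ← hP' c]
        have h3 : I.filter (fun i => ψ i = c) =
            (I.filter fun i => e i < e j₀).filter (fun i => ψ i = c) ∪
              (I.filter fun i => ¬ e i < e j₀).filter (fun i => ψ i = c) := by
          ext i
          rw [Finset.mem_union, Finset.mem_filter, Finset.mem_filter, Finset.mem_filter,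
            Finset.mem_filter, Finset.mem_filter]
          tauto
        rw [h3, Finset.sum_union (Finset.disjoint_left.2 fun i h4 h5 => by
          rw [Finset.mem_filter, Finset.mem_filter] at h4 h5
          exact h5.1.2 h4.1.2)]
        congr 1
        by_cases hc : c = ψ i₀
        · rw [cutL_congr (q := p) (fun n => ⟨fun h => h.2, fun h => ⟨hc, h⟩⟩), h1]
          refine Finset.sum_congr ?_ fun _ _ => rfl
          ext i
          rw [Finset.mem_filter, Finset.mem_filter]
          exact ⟨fun h => h.1, fun h => ⟨h, (hψ₁ i h.1 h.2).trans hc.symm⟩⟩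
        · rw [cutL_congr (q := fun _ => False) (fun n => ⟨fun h => hc h.1, fun h => h.elim⟩),
            cutL_false, mul_zero]
          refine Finset.sum_eq_zero fun i hi => ?_
          rw [Finset.mem_filter, Finset.mem_filter] at hi
          exact absurd (hi.2.symm.trans (hψ₁ i hi.1.1 hi.1.2)) hc

/-! ### the number of terms -/

theorem coeff_T_mul (f : K[T;T⁻¹]) (m n : ℤ) : (T m * f).coeff n = f.coeff (n - m) := by
  have h2 := AddMonoidAlgebra.coeff_mul (T m : K[T;T⁻¹]) f n
  rw [h2]
  unfold LaurentPolynomial.T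
  rw [AddMonoidAlgebra.coeff_single, Finsupp.sum_single_index]
  · have h3 : ∀ j, (m + j = n) ↔ (j = n - m) := fun j => by omega
    simp only [h3, one_mul]
    rw [Finsupp.sum_ite_eq']
    split_ifs with h
    · rfl
    · rw [Finsupp.mem_support_iff, not_not] at h
      exact h.symm
  · simp

theorem card_T_mul (f : K[T;T⁻¹]) (m : ℤ) :
    (T m * f).coeff.support.card ≤ f.coeff.support.card := by
  classical
  have h1 : (T m * f).coeff.support ⊆ f.coeff.support.image fun n => m + n := by
    intro n hn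
    rw [Finsupp.mem_support_iff, coeff_T_mul] at hn
    exact Finset.mem_image.2 ⟨n - m, Finsupp.mem_support_iff.2 hn, by ring⟩
  exact (Finset.card_le_card h1).trans Finset.card_image_le

theorem card_neg (f : K[T;T⁻¹]) : (-f).coeff.support.card = f.coeff.support.card := by
  rw [AddMonoidAlgebra.coeff_neg, Finsupp.support_neg]

theorem card_sum {ι : Type} (I : Finset ι) (G : ι → K[T;T⁻¹]) :
    (∑ i ∈ I, G i).coeff.support.card ≤ ∑ i ∈ I, (G i).coeff.support.card := by
  classical
  induction I using Finset.induction_on with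
  | empty =>
    rw [Finset.sum_empty, Finset.sum_empty, AddMonoidAlgebra.coeff_zero, Finsupp.support_zero,
      Finset.card_empty]
  | insert a I ha ih =>
    rw [Finset.sum_insert ha, Finset.sum_insert ha, AddMonoidAlgebra.coeff_add]
    exact (Finset.card_le_card Finsupp.support_add).trans
      ((Finset.card_union_le _ _).trans (Nat.add_le_add_left ih _))

/-- a monomial with the coefficient `1` or `-1` -/
def IsMono (f : K[T;T⁻¹]) : Prop := ∃ m : ℤ, f = T m ∨ f = -T m

theorem IsMono.one : IsMono (1 : K[T;T⁻¹]) := ⟨0, Or.inl T_zero.symm⟩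

theorem IsMono.mul {f g : K[T;T⁻¹]} (hf : IsMono f) (hg : IsMono g) : IsMono (f * g) := by
  obtain ⟨m, hm⟩ := hf
  obtain ⟨l, hl⟩ := hg
  refine ⟨m + l, ?_⟩
  rw [T_add]
  rcases hm with rfl | rfl <;> rcases hl with rfl | rfl
  · exact Or.inl rfl
  · exact Or.inr (mul_neg _ _)
  · exact Or.inr (neg_mul _ _)
  · exact Or.inl (neg_mul_neg _ _)

theorem IsMono.prod {ι : Type} (I : Finset ι) (G : ι → K[T;T⁻¹]) (h : ∀ i ∈ I, IsMono (G i)) :
    IsMono (∏ i ∈ I, G i) := by
  classical
  induction I using Finset.induction_on with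
  | empty =>
    rw [Finset.prod_empty]
    exact IsMono.one
  | insert a I ha ih =>
    rw [Finset.prod_insert ha]
    exact (h a (Finset.mem_insert_self a I)).mul (ih fun i hi => h i (Finset.mem_insert_of_mem hi))

theorem IsMono.card {f : K[T;T⁻¹]} (hf : IsMono f) (g : K[T;T⁻¹]) :
    (f * g).coeff.support.card ≤ g.coeff.support.card := by
  obtain ⟨m, rfl | rfl⟩ := hf
  · exact card_T_mul g m
  · rw [neg_mul, card_neg]
    exact card_T_mul g m

theorem IsMono.qu (b : Bool) : IsMono (qu K b) := by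
  unfold Lin.qu
  cases b
  · exact ⟨-4, Or.inr (by simp only [Bool.false_eq_true, if_false])⟩
  · exact ⟨4, Or.inr (by simp only [if_true])⟩

theorem qu_mul_not (b : Bool) : qu K b * qu K (!b) = 1 := by
  unfold qu
  cases b
  · simp only [Bool.false_eq_true, if_false, Bool.not_false, if_true]
    rw [neg_mul_neg, ← T_add]
    norm_num
  · simp only [if_true, Bool.not_true, Bool.false_eq_true, if_false]
    rw [neg_mul_neg, ← T_add]
    norm_num

/-- parts with disjoint supports have together at most as many terms -/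
theorem card_parts {κ : Type} [DecidableEq κ] (P : κ → ℤ → Prop)
    (hP : ∀ c c' n, P c n → P c' n → c = c') (f : K[T;T⁻¹]) (I : Finset κ) :
    ∑ c ∈ I, (cutL (P c) f).coeff.support.card ≤ f.coeff.support.card := by
  classical
  rw [← Finset.card_biUnion]
  · refine Finset.card_le_card fun n hn => ?_
    obtain ⟨c, -, hc⟩ := Finset.mem_biUnion.1 hn
    rw [Finsupp.mem_support_iff, cutL_coeff] at hc
    rw [Finsupp.mem_support_iff]
    intro h
    rw [h, ite_self] at hc
    exact hc rfl
  · intro c _ c' _ hcc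
    refine Finset.disjoint_left.2 fun n h1 h2 => hcc ?_
    rw [Finsupp.mem_support_iff, cutL_coeff] at h1 h2
    by_cases h3 : P c n
    · by_cases h4 : P c' n
      · exact hP c c' n h3 h4
      · rw [if_neg h4] at h2
        exact absurd rfl h2
    · rw [if_neg h3] at h1
      exact absurd rfl h1

end

/-! ### the state sum -/

section

variable {E : Type} [Fintype E] [DecidableEq E]

/-- **The clusters of flats, with disjoint supports** -/
theorem HV_clusterP (K : Type) [CommRing K] (M : Matrix E E (ZMod 2))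
    (hM : ∀ i j, M i j = M j i)
    (σ : E → Bool) (B : ℕ) (hB : (SS K M σ).coeff.support.card ≤ B)
    {κ : Type} [DecidableEq κ] (ψ : Finset (E → ZMod 2) → κ)
    (hψ : ∀ F ∈ FL M, ∀ F' ∈ FL M,
      |∑ v ∈ F, tw M σ v - ∑ v ∈ F', tw M σ v| < 2 * ((B : ℤ) + 2) * (M.rank + 1) → ψ F = ψ F') :
    ∃ (m : ℤ) (P : κ → ℤ → Prop), (∀ c c' n, P c n → P c' n → c = c') ∧
      ∀ c, ∑ F ∈ (FL M).filter (fun F => ψ F = c),
        Lin.GG M (fun c => qu K (σ c)) Finset.univ (ph K M) F =
          dl K ^ M.rank * (T m * cutL (P c) (SS K M σ)) := by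
  classical
  obtain ⟨m, hm⟩ := PF_eq (K := K) σ
  obtain ⟨G, hG⟩ : ∃ G : Finset (E → ZMod 2) → K[T;T⁻¹], ∀ F, G F =
      Lin.GG M (fun c => qu K (σ c)) Finset.univ (ph K M) F := ⟨_, fun _ => rfl⟩
  have h0 : ∀ F ∈ (Finset.univ.image M).powerset, F ∉ FL M → G F = 0 := by
    intro F hF hFI
    unfold FL at hFI
    rw [Finset.mem_filter, not_and] at hFI
    rw [hG]
    unfold Lin.GG
    rw [KK_flat K M F (hFI hF), mul_zero]
  have hsub : FL M ⊆ (Finset.univ.image M).powerset := Finset.filter_subset _ _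
  have hSS := SS_eq (K := K) M hM σ
  have hsum1 : ∑ F ∈ (Finset.univ.image M).powerset, G F = ∑ F ∈ FL M, G F := by
    symm
    exact Finset.sum_subset hsub h0
  have hD : dl K ^ M.rank * SS K M σ = ∑ F ∈ FL M, T m * G F := by
    rw [hSS, hm, ← Finset.mul_sum, ← hsum1]
    rw [Finset.sum_congr rfl fun F _ => hG F]
  obtain ⟨P, hP, ht⟩ := clusterP (dl K ^ M.rank) (4 * (M.rank : ℤ)) (by positivity)
    ((Sup_dl M.rank).mono fun n hn => by constructor <;> omega) B (fun F => T m * G F)
    (fun F => m + 4 * ∑ v ∈ F, tw M σ v) ψ ((B + 1) * (2 * (4 * (M.rank : ℤ)) + 1) +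
      2 * (4 * (M.rank : ℤ))) le_rfl (FL M).card (FL M) le_rfl (by
      intro F _
      have h1 := Sup_GG (K := K) M σ F
      rw [← hG] at h1
      refine Sup.mul (Sup.T m) h1 fun a b ha hb => ?_
      unfold tw
      constructor <;> omega) _ hB hD (by
      intro F hF F' hF' habs
      refine hψ F hF F' hF' ?_
      obtain ⟨x, hx⟩ : ∃ x : ℤ, x = ∑ v ∈ F, tw M σ v - ∑ v ∈ F', tw M σ v := ⟨_, rfl⟩
      have h1 : m + 4 * ∑ v ∈ F, tw M σ v - (m + 4 * ∑ v ∈ F', tw M σ v) = 4 * x := by
        rw [hx]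
        ring
      rw [h1, abs_mul] at habs
      rw [← hx]
      have h2 : |(4 : ℤ)| = 4 := by norm_num
      rw [h2] at habs
      have h3 : 2 * ((B : ℤ) + 2) * (M.rank + 1) =
          2 * ((B : ℤ) * M.rank) + 2 * B + 4 * M.rank + 4 := by ring
      have h4 : ((B : ℤ) + 1) * (2 * (4 * (M.rank : ℤ)) + 1) =
          8 * ((B : ℤ) * M.rank) + 8 * M.rank + B + 1 := by ring
      rw [h4] at habs
      rw [h3]
      have h5 : 0 ≤ (B : ℤ) * M.rank := by positivity
      omega)
  refine ⟨-m, P, hP, fun c => ?_⟩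
  have h6 := ht c
  have h7 : ∑ F ∈ (FL M).filter (fun F => ψ F = c), T m * G F =
      T m * ∑ F ∈ (FL M).filter (fun F => ψ F = c), G F := by
    rw [Finset.mul_sum]
  rw [h7] at h6
  have h8 : T (-m) * (T m * ∑ F ∈ (FL M).filter (fun F => ψ F = c), G F) =
      T (-m) * (dl K ^ M.rank * cutL (P c) (SS K M σ)) := by rw [h6]
  rw [← mul_assoc, ← T_add, neg_add_cancel, T_zero, one_mul] at h8
  rw [Finset.sum_congr rfl fun F _ => by rw [← hG F], h8]
  ring

/-- **The parts which belong to the sets which contain `U`** -/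
theorem smooth_ab (K : Type) [CommRing K] (M : Matrix E E (ZMod 2)) (hM : ∀ i j, M i j = M j i)
    (σ : E → Bool) (B : ℕ) (hB : (SS K M σ).coeff.support.card ≤ B)
    (J' U' : Finset (E → ZMod 2)) (hJ : J' ⊆ Finset.univ.image M) (hU : U' ⊆ J')
    (hc : ∀ F ∈ FL M, ∀ F' ∈ FL M,
      |∑ v ∈ F, tw M σ v - ∑ v ∈ F', tw M σ v| < 2 * ((B : ℤ) + 2) * (M.rank + 1) →
      U' ⊆ F → F ∩ J' = F' ∩ J') :
    ∃ t, t.coeff.support.card ≤ B ∧
      ∑ B' ∈ (Finset.univ.image M \ J').powerset,
        (∏ v ∈ B', (pw M (fun c => qu K (σ c)) Finset.univ v - 1)) * ph K M (U' ∪ B') =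
      dl K ^ M.rank * t := by
  classical
  obtain ⟨X, hX⟩ : ∃ X, X = Finset.univ.image M := ⟨_, rfl⟩
  obtain ⟨y, hy⟩ : ∃ y : (E → ZMod 2) → K[T;T⁻¹], ∀ v, y v =
    pw M (fun c => qu K (σ c)) Finset.univ v := ⟨_, fun _ => rfl⟩
  obtain ⟨z, hz⟩ : ∃ z : (E → ZMod 2) → K[T;T⁻¹], ∀ v, z v =
    pw M (fun c => qu K (!σ c)) Finset.univ v := ⟨_, fun _ => rfl⟩
  have hyz : ∀ v, z v * y v = 1 := by
    intro v
    rw [hy, hz]
    unfold pw
    rw [← Finset.prod_mul_distrib]
    refine Finset.prod_eq_one fun c _ => ?_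
    rw [mul_comm]
    exact qu_mul_not (σ c)
  have hzm : ∀ v, IsMono (z v) := by
    intro v
    rw [hz]
    unfold pw
    exact IsMono.prod _ _ fun c _ => IsMono.qu _
  obtain ⟨Ψ, hΨ⟩ : ∃ Ψ : Finset (E → ZMod 2) → K[T;T⁻¹], ∀ A, Ψ A =
    if U' ⊆ A then ∏ v ∈ A \ U', z v else 0 := ⟨_, fun _ => rfl⟩
  -- the difference operator
  have hDD : ∀ A ⊆ J', DD y Ψ A = if A = U' then ∏ v ∈ U', y v else 0 := by
    intro A hA
    have h1 : DD y Ψ A = ∑ L ∈ A.powerset, if U' ⊆ L then
        (-1) ^ (A \ L).card * ∏ v ∈ U', y v else 0 := by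
      unfold DD
      refine Finset.sum_congr rfl fun L _ => ?_
      rw [hΨ]
      by_cases h2 : U' ⊆ L
      · rw [if_pos h2, if_pos h2, ← Finset.prod_sdiff h2, mul_assoc, ← mul_assoc (∏ v ∈ L \ U', z v),
          ← Finset.prod_mul_distrib, Finset.prod_congr rfl fun v _ => hyz v, Finset.prod_const_one,
          one_mul]
      · rw [if_neg h2, if_neg h2, mul_zero, zero_mul]
    rw [h1]
    by_cases h2 : A = U'
    · rw [if_pos h2, h2, Finset.sum_eq_single U']
      · rw [if_pos (Finset.Subset.refl _), Finset.sdiff_self, Finset.card_empty, pow_zero, one_mul]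
      · intro L hL hne
        rw [if_neg]
        intro h3
        exact hne (Finset.Subset.antisymm (Finset.mem_powerset.1 hL) h3)
      · intro h3
        exact absurd (Finset.mem_powerset_self U') h3
    · rw [if_neg h2]
      by_cases h3 : U' ⊆ A
      · obtain ⟨v, hv⟩ : (A \ U').Nonempty := by
          rw [Finset.sdiff_nonempty]
          exact fun h4 => h2 (Finset.Subset.antisymm h4 h3)
        rw [Finset.mem_sdiff] at hv
        rw [← Finset.insert_erase hv.1, Finset.sum_powerset_insert (Finset.notMem_erase v A),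
          ← Finset.sum_add_distrib]
        refine Finset.sum_eq_zero fun L hL => ?_
        rw [Finset.mem_powerset] at hL
        have hvL : v ∉ L := fun h4 => Finset.notMem_erase v A (hL h4)
        have h4 : U' ⊆ insert v L ↔ U' ⊆ L := by
          constructor
          · intro h5 w hw
            rcases Finset.mem_insert.1 (h5 hw) with rfl | h6
            · exact absurd hw hv.2
            · exact h6
          · exact fun h5 => h5.trans (Finset.subset_insert _ _)
        rw [Finset.insert_erase hv.1]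
        by_cases h5 : U' ⊆ L
        · rw [if_pos h5, if_pos (h4.2 h5)]
          have h6 : (A \ L).card = (A \ insert v L).card + 1 := by
            rw [← Finset.card_insert_of_notMem (a := v) (s := A \ insert v L)
              (fun h7 => (Finset.mem_sdiff.1 h7).2 (Finset.mem_insert_self v L))]
            congr 1
            ext w
            rw [Finset.mem_insert, Finset.mem_sdiff, Finset.mem_sdiff, Finset.mem_insert]
            constructor
            · rintro ⟨h7, h8⟩
              by_cases h9 : w = v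
              · exact Or.inl h9
              · exact Or.inr ⟨h7, fun h10 => h10.elim h9 h8⟩
            · rintro (rfl | ⟨h7, h8⟩)
              · exact ⟨hv.1, hvL⟩
              · exact ⟨h7, fun h9 => h8 (Or.inr h9)⟩
          rw [h6, pow_succ]
          ring
        · rw [if_neg h5, if_neg fun h6 => h5 (h4.1 h6), add_zero]
      · refine Finset.sum_eq_zero fun L hL => ?_
        rw [if_neg]
        intro h4
        exact h3 (h4.trans (Finset.mem_powerset.1 hL))
  -- the expansion
  have hexp : ∑ F ∈ X.powerset, Ψ (F ∩ J') *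
      Lin.GG M (fun c => qu K (σ c)) Finset.univ (ph K M) F =
      (∏ v ∈ U', y v) * ∑ B' ∈ (X \ J').powerset, (∏ v ∈ B', (y v - 1)) * ph K M (U' ∪ B') := by
    have h1 := expand_psi X J' (by rw [hX]; exact hJ) y Ψ (ph K M)
    have h2 : ∑ F ∈ X.powerset, Ψ (F ∩ J') *
        Lin.GG M (fun c => qu K (σ c)) Finset.univ (ph K M) F =
        ∑ F ∈ X.powerset, Ψ (F ∩ J') * ((∏ k ∈ F, y k) * Lin.KK X (ph K M) F) := by
      refine Finset.sum_congr rfl fun F _ => ?_
      unfold Lin.GG
      rw [← hX, Finset.prod_congr rfl fun v _ => (hy v).symm]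
    rw [h2, h1, Finset.sum_eq_single U', Finset.mul_sum]
    · refine Finset.sum_congr rfl fun B' _ => ?_
      rw [hDD U' hU, if_pos rfl]
      ring
    · intro A hA hne
      refine Finset.sum_eq_zero fun B' _ => ?_
      rw [hDD A (Finset.mem_powerset.1 hA), if_neg hne, zero_mul, zero_mul]
    · intro h3
      exact absurd (Finset.mem_powerset.2 hU) h3
  -- the colours
  obtain ⟨m, P, hP, hsum⟩ := HV_clusterP K M hM σ B hB
    (fun F => if U' ⊆ F then some (F ∩ J') else none) (fun F hF F' hF' h => by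
      have h1 := hc F hF F' hF' h
      have h2 := hc F' hF' F hF (by rw [abs_sub_comm]; exact h)
      show (if U' ⊆ F then some (F ∩ J') else none) = if U' ⊆ F' then some (F' ∩ J') else none
      have h3 : U' ⊆ F ↔ U' ⊆ F' := by
        constructor
        · intro h4 v hv
          have h5 : v ∈ F ∩ J' := Finset.mem_inter.2 ⟨h4 hv, hU hv⟩
          rw [h1 h4] at h5
          exact (Finset.mem_inter.1 h5).1
        · intro h4 v hv
          have h5 : v ∈ F' ∩ J' := Finset.mem_inter.2 ⟨h4 hv, hU hv⟩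
          rw [h2 h4] at h5
          exact (Finset.mem_inter.1 h5).1
      by_cases h4 : U' ⊆ F
      · rw [if_pos h4, if_pos (h3.1 h4), h1 h4]
      · rw [if_neg h4, if_neg fun h5 => h4 (h3.2 h5)])
  have hleft : ∑ F ∈ X.powerset, Ψ (F ∩ J') *
      Lin.GG M (fun c => qu K (σ c)) Finset.univ (ph K M) F =
      dl K ^ M.rank * ∑ A ∈ J'.powerset, Ψ A * (T m * cutL (P (some A)) (SS K M σ)) := by
    have hsub : FL M ⊆ X.powerset := by
      rw [hX]
      exact Finset.filter_subset _ _
    rw [← Finset.sum_subset hsub (fun F hF hFI => by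
      unfold FL at hFI
      rw [Finset.mem_filter, not_and, ← hX] at hFI
      unfold Lin.GG
      rw [KK_flat K M F (by rw [← hX]; exact hFI hF), mul_zero, mul_zero])]
    rw [← Finset.sum_fiberwise_of_maps_to (s := FL M) (t := J'.powerset) (g := fun F => F ∩ J')
      (fun F _ => Finset.mem_powerset.2 Finset.inter_subset_right), Finset.mul_sum]
    refine Finset.sum_congr rfl fun A hA => ?_
    by_cases h1 : U' ⊆ A
    · have h2 : (FL M).filter (fun F => F ∩ J' = A) = (FL M).filter (fun F =>
          (if U' ⊆ F then some (F ∩ J') else none) = some A) := by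
        ext F
        rw [Finset.mem_filter, Finset.mem_filter]
        constructor
        · rintro ⟨h3, h4⟩
          have h5 : U' ⊆ F := by
            rw [← h4] at h1
            exact h1.trans Finset.inter_subset_left
          exact ⟨h3, by rw [if_pos h5, h4]⟩
        · rintro ⟨h3, h4⟩
          by_cases h5 : U' ⊆ F
          · rw [if_pos h5] at h4
            exact ⟨h3, Option.some.inj h4⟩
          · rw [if_neg h5] at h4
            exact absurd h4 (by simp)
      rw [h2]
      have h3 := hsum (some A)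
      have h4 : ∑ F ∈ (FL M).filter (fun F =>
          (if U' ⊆ F then some (F ∩ J') else none) = some A), Ψ (F ∩ J') *
          Lin.GG M (fun c => qu K (σ c)) Finset.univ (ph K M) F =
          Ψ A * ∑ F ∈ (FL M).filter (fun F =>
          (if U' ⊆ F then some (F ∩ J') else none) = some A),
          Lin.GG M (fun c => qu K (σ c)) Finset.univ (ph K M) F := by
        rw [Finset.mul_sum]
        refine Finset.sum_congr rfl fun F hF => ?_
        rw [← h2, Finset.mem_filter] at hF
        rw [hF.2]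
      rw [h4, h3]
      ring
    · have h2 : Ψ A = 0 := by rw [hΨ, if_neg h1]
      rw [h2, zero_mul, mul_zero]
      refine Finset.sum_eq_zero fun F hF => ?_
      rw [(Finset.mem_filter.1 hF).2, h2, zero_mul]
  refine ⟨(∏ v ∈ U', z v) * ∑ A ∈ J'.powerset, Ψ A * (T m * cutL (P (some A)) (SS K M σ)),
    ?_, ?_⟩
  · refine ((IsMono.prod U' z fun v _ => hzm v).card _).trans ((card_sum _ _).trans ?_)
    refine le_trans ?_ hB
    have h1 := card_parts (fun A : Finset (E → ZMod 2) => P (some A))
      (fun c c' n h2 h3 => Option.some.inj (hP _ _ n h2 h3)) (SS K M σ) J'.powerset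
    refine le_trans (Finset.sum_le_sum fun A _ => ?_) h1
    rw [hΨ]
    by_cases h2 : U' ⊆ A
    · rw [if_pos h2]
      exact ((IsMono.prod _ z fun v _ => hzm v).card _).trans (card_T_mul _ m)
    · rw [if_neg h2, zero_mul, AddMonoidAlgebra.coeff_zero, Finsupp.support_zero,
        Finset.card_empty]
      exact Nat.zero_le _
  · have h1 : ∑ B' ∈ (Finset.univ.image M \ J').powerset,
        (∏ v ∈ B', (pw M (fun c => qu K (σ c)) Finset.univ v - 1)) * ph K M (U' ∪ B') =
        ∑ B' ∈ (X \ J').powerset, (∏ v ∈ B', (y v - 1)) * ph K M (U' ∪ B') := by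
      rw [← hX]
      refine Finset.sum_congr rfl fun B' _ => ?_
      rw [Finset.prod_congr rfl fun v _ => by rw [← hy v]]
    rw [h1]
    have h2 : (∏ v ∈ U', z v) * ∏ v ∈ U', y v = 1 := by
      rw [← Finset.prod_mul_distrib]
      exact Finset.prod_eq_one fun v _ => hyz v
    have h3 := hexp.symm.trans hleft
    have h4 : (∏ v ∈ U', z v) * ((∏ v ∈ U', y v) *
        ∑ B' ∈ (X \ J').powerset, (∏ v ∈ B', (y v - 1)) * ph K M (U' ∪ B')) =
        (∏ v ∈ U', z v) * (dl K ^ M.rank *
          ∑ A ∈ J'.powerset, Ψ A * (T m * cutL (P (some A)) (SS K M σ))) := by rw [h3]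
    rw [← mul_assoc, h2, one_mul] at h4
    rw [h4]
    ring

end

end Pool.Agent.NHT
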