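import Mathlib
import Pool.Agent.NHT.IsoF
import Mathlib.Algebra.DualNumber

/-!
# NHT, module Lk: the linking numbers (helper11)

If `f` has one term and a set `J` of classes is isolated then the diagram `D_J` has the bracket of a
trivial link.  The derivative at `A = 1` gives: the sum of the signs of the crossings which are
interlaced with a crossing in `J` is zero.
-/

set_option autoImplicit false
set_option linter.unusedSectionVars false

open Module Submodule Pool.Agent.UNI LaurentPolynomial Pool.Agent.SPT Pool.Agent.SPT.Rel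
  Pool.Agent.SPT.Lin Pool.Agent.SRH Pool.Agent.EQT Pool.Agent.FHP Pool.Agent.TRA Pool.Agent.TRP

namespace Pool.Agent.NHT

open Pool.Agent.Helper16.Knotoid

section

variable {n : ℕ}

/-! ### the value and the derivative at one -/

/-- the unit `1 + ε` -/
noncomputable def uD : (DualNumber ℤ)ˣ where
  val := 1 + DualNumber.eps
  inv := 1 - DualNumber.eps
  val_inv := by
    have h : (DualNumber.eps : DualNumber ℤ) * DualNumber.eps = 0 := DualNumber.eps_mul_eps
    linear_combination -h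
  inv_val := by
    have h : (DualNumber.eps : DualNumber ℤ) * DualNumber.eps = 0 := DualNumber.eps_mul_eps
    linear_combination -h

theorem uD_zpow (m : ℤ) : ((uD ^ m : (DualNumber ℤ)ˣ) : DualNumber ℤ) =
    1 + (m : DualNumber ℤ) * DualNumber.eps := by
  have h : (DualNumber.eps : DualNumber ℤ) * DualNumber.eps = 0 := DualNumber.eps_mul_eps
  induction m using Int.induction_on with
  | zero => simp
  | succ i ih =>
    rw [zpow_add_one, Units.val_mul, ih]
    show (1 + ((i : ℤ) : DualNumber ℤ) * DualNumber.eps) * (1 + DualNumber.eps) = _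
    push_cast
    linear_combination (i : DualNumber ℤ) * h
  | pred i ih =>
    rw [zpow_sub_one, Units.val_mul, ih]
    show (1 + ((-(i : ℤ) : ℤ) : DualNumber ℤ) * DualNumber.eps) * (1 - DualNumber.eps) = _
    push_cast
    linear_combination (i : DualNumber ℤ) * h

/-- the value and the derivative at one -/
noncomputable def evD : ℤ[T;T⁻¹] →+* DualNumber ℤ :=
  LaurentPolynomial.eval₂ (Int.castRingHom (DualNumber ℤ)) uD

theorem evD_T (m : ℤ) : evD (T m) = 1 + (m : DualNumber ℤ) * DualNumber.eps := by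
  unfold evD
  rw [eval₂_T, uD_zpow]

theorem evD_dl : evD (dl ℤ) = ((-2 : ℤ) : DualNumber ℤ) := by
  unfold dl
  rw [map_sub, map_neg, evD_T, evD_T]
  push_cast
  ring

/-- the sign of a smoothing -/
def sg (b : Bool) : ℤ := if b then 1 else -1

theorem al_sg (b : Bool) : al ℤ b ^ 2 = T (2 * sg b) := by
  unfold al sg
  cases b
  · simp only [Bool.false_eq_true, if_false]
    rw [T_pow]
    norm_num
  · simp only [if_true]
    rw [T_pow]
    norm_num

theorem qu_sg (b : Bool) : qu ℤ b = -T (4 * sg b) := by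
  unfold qu sg
  cases b
  · simp only [Bool.false_eq_true, if_false]
    norm_num
  · simp only [if_true]
    norm_num

open Classical in
/-- the sum over the states which cut `K` -/
noncomputable def Hs (M : Matrix (Fin n) (Fin n) (ZMod 2)) (K : Finset (Fin n)) : ℤ :=
  ∑ W ∈ (Finset.univ : Finset (Fin n)).powerset.filter (fun W => K ⊆ W), (-2) ^ kap M W

/-- the exponent of the corank -/
noncomputable def hh (M : Matrix (Fin n) (Fin n) (ZMod 2)) (K : Finset (Fin n)) : ℕ :=
  crk (remM M (Finset.univ \ K))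

theorem Hs_eq (M : Matrix (Fin n) (Fin n) (ZMod 2)) (hM : ∀ i j, M i j = M j i)
    (K : Finset (Fin n)) : Hs M K = (-1) ^ (Finset.univ \ K).card * (-2) ^ hh M K := by
  classical
  have h2 := crk_sum M hM (Finset.univ \ K) ∅
  rw [Finset.empty_union] at h2
  unfold hh Hs
  rw [← h2]
  refine Finset.sum_nbij' (fun W => Finset.univ \ W) (fun W => Finset.univ \ W) ?_ ?_ ?_ ?_ ?_
  · intro W hW
    rw [Finset.mem_powerset]
    exact Finset.sdiff_subset_sdiff (Finset.Subset.refl _) (Finset.mem_filter.1 hW).2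
  · intro W hW
    rw [Finset.mem_filter, Finset.mem_powerset]
    refine ⟨Finset.subset_univ _, fun c hc => Finset.mem_sdiff.2 ⟨Finset.mem_univ c, fun h => ?_⟩⟩
    exact (Finset.mem_sdiff.1 (Finset.mem_powerset.1 hW h)).2 hc
  · intro W _
    exact Finset.sdiff_sdiff_eq_self (Finset.subset_univ W)
  · intro W _
    exact Finset.sdiff_sdiff_eq_self (Finset.subset_univ W)
  · intro W _
    rw [kap_crk]

/-- the value and the derivative at one of the part of the states which cut `J` -/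
theorem evD_gg (M : Matrix (Fin n) (Fin n) (ZMod 2)) (σ : Fin n → Bool) (J : Finset (Fin n)) :
    evD (gg ℤ M σ J) = (((-1) ^ J.card * Hs M J : ℤ) : DualNumber ℤ) +
      (((-1) ^ J.card * (4 * (∑ c ∈ J, sg (σ c)) * Hs M J +
        2 * ∑ c ∈ Finset.univ \ J, sg (σ c) * Hs M (insert c J)) : ℤ) : DualNumber ℤ) *
        DualNumber.eps := by
  classical
  have h1 : ∀ W, evD ((∏ c ∈ J, qu ℤ (σ c)) * (∏ c ∈ W \ J, al ℤ (σ c) ^ 2) * dl ℤ ^ kap M W) =
      (((-1) ^ J.card * (-2) ^ kap M W : ℤ) : DualNumber ℤ) +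
      (((-1) ^ J.card * ((4 * ∑ c ∈ J, sg (σ c)) * (-2) ^ kap M W +
        2 * ∑ c ∈ W \ J, sg (σ c) * (-2) ^ kap M W) : ℤ) : DualNumber ℤ) * DualNumber.eps := by
    intro W
    have e1 : ∏ c ∈ J, qu ℤ (σ c) = (-1) ^ J.card * T (4 * ∑ c ∈ J, sg (σ c)) := by
      rw [Finset.prod_congr rfl fun c _ => qu_sg (σ c), Finset.prod_neg, ← T_sum',
        Finset.mul_sum]
    have e2 : ∏ c ∈ W \ J, al ℤ (σ c) ^ 2 = T (2 * ∑ c ∈ W \ J, sg (σ c)) := by
      rw [Finset.prod_congr rfl fun c _ => al_sg (σ c), ← T_sum', Finset.mul_sum]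
    rw [e1, e2, map_mul, map_mul, map_mul, map_pow, map_pow, map_neg, map_one, evD_dl, evD_T,
      evD_T, ← Finset.sum_mul]
    have h : (DualNumber.eps : DualNumber ℤ) * DualNumber.eps = 0 := DualNumber.eps_mul_eps
    push_cast
    linear_combination ((-1) ^ J.card * (4 * ∑ c ∈ J, ((sg (σ c) : ℤ) : DualNumber ℤ)) *
      (2 * ∑ c ∈ W \ J, ((sg (σ c) : ℤ) : DualNumber ℤ)) * (-2) ^ kap M W) * h
  unfold gg
  rw [map_sum, Finset.sum_congr rfl fun W _ => h1 W, Finset.sum_add_distrib, ← Finset.sum_mul,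
    ← Int.cast_sum, ← Int.cast_sum, ← Finset.mul_sum, ← Finset.mul_sum, Finset.sum_add_distrib,
    ← Finset.mul_sum, ← Finset.mul_sum]
  have h2 : ∑ W ∈ (Finset.univ : Finset (Fin n)).powerset.filter (fun W => J ⊆ W),
      ∑ c ∈ W \ J, sg (σ c) * (-2) ^ kap M W =
      ∑ c ∈ Finset.univ \ J, sg (σ c) * Hs M (insert c J) := by
    unfold Hs
    rw [Finset.sum_congr rfl fun c (_ : c ∈ Finset.univ \ J) => Finset.mul_sum _ _ _]
    refine Finset.sum_comm' fun W c => ?_
    rw [Finset.mem_filter, Finset.mem_filter, Finset.mem_powerset, Finset.mem_sdiff,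
      Finset.mem_sdiff, Finset.insert_subset_iff]
    constructor
    · rintro ⟨⟨h3, h4⟩, h5, h6⟩
      exact ⟨⟨h3, h5, h4⟩, Finset.mem_univ c, h6⟩
    · rintro ⟨⟨h3, h5, h4⟩, -, h6⟩
      exact ⟨⟨h3, h4⟩, h5, h6⟩
  rw [h2]
  rfl

/-! ### the coranks for one more class -/

/-- entries of the restricted matrix -/
theorem rest_mulVec (M : Matrix (Fin n) (Fin n) (ZMod 2)) (K : Finset (Fin n)) (x : Fin n → ZMod 2)
    (i : Fin n) (hi : i ∈ K) :
    (remM M (Finset.univ \ K)).mulVec x i = ∑ j ∈ K, M i j * x j := by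
  classical
  show ∑ j, remM M (Finset.univ \ K) i j * x j = _
  rw [← Finset.sum_subset (Finset.subset_univ K)]
  · refine Finset.sum_congr rfl fun j hj => ?_
    rw [remM_apply, if_neg]
    rintro (h | h)
    · exact (Finset.mem_sdiff.1 h).2 hi
    · exact (Finset.mem_sdiff.1 h).2 hj
  · intro j _ hj
    have hjR : j ∈ Finset.univ \ K := Finset.mem_sdiff.2 ⟨Finset.mem_univ j, hj⟩
    rw [remM_apply, if_pos (Or.inr hjR), if_neg, zero_mul]
    rintro rfl
    exact hj hi

theorem rest_mulVec' (M : Matrix (Fin n) (Fin n) (ZMod 2)) (K : Finset (Fin n)) (x : Fin n → ZMod 2)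
    (i : Fin n) (hi : i ∉ K) : (remM M (Finset.univ \ K)).mulVec x i = x i := by
  classical
  show ∑ j, remM M (Finset.univ \ K) i j * x j = _
  have hiR : i ∈ Finset.univ \ K := Finset.mem_sdiff.2 ⟨Finset.mem_univ i, hi⟩
  rw [Finset.sum_eq_single i]
  · rw [remM_apply, if_pos (Or.inl hiR), if_pos rfl, one_mul]
  · intro j _ hj
    rw [remM_apply, if_pos (Or.inl hiR), if_neg (Ne.symm hj), zero_mul]
  · intro h
    exact absurd (Finset.mem_univ i) h

theorem dg_mulVec (c : Fin n) (x : Fin n → ZMod 2) (i : Fin n) :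
    (dg {c}).mulVec x i = if i = c then x c else 0 := by
  classical
  unfold dg
  rw [Matrix.mulVec_diagonal]
  by_cases h : i = c
  · rw [if_pos (Finset.mem_singleton.2 h), if_pos h, one_mul, h]
  · rw [if_neg fun h2 => h (Finset.mem_singleton.1 h2), if_neg h, zero_mul]

/-- the kernel of `N` and of `N + dg {c}` have the same vectors with entry zero at `c` -/
theorem ker_dg (N : Matrix (Fin n) (Fin n) (ZMod 2)) (c : Fin n) (x : Fin n → ZMod 2)
    (hx : x c = 0) : N.mulVec x = 0 ↔ (N + dg {c}).mulVec x = 0 := by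
  classical
  have h1 : (dg {c}).mulVec x = 0 := by
    funext i
    rw [dg_mulVec, hx]
    split_ifs <;> rfl
  rw [Matrix.add_mulVec, h1, add_zero]

theorem hh_pow_inj {a b : ℕ} (h : (-2 : ℤ) ^ a = (-2) ^ b) : a = b := by
  have h2 := congrArg Int.natAbs h
  rw [Int.natAbs_pow, Int.natAbs_pow] at h2
  exact Nat.pow_right_injective (le_refl 2) h2

/-- **one more class** -/
theorem hh_insert (M : Matrix (Fin n) (Fin n) (ZMod 2)) (hM : ∀ i j, M i j = M j i)
    (J : Finset (Fin n)) (hJ : ∀ c ∈ J, ∀ c' ∈ J, M c c' = 0) (hk : hh M J = J.card) (c : Fin n)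
    (hc : c ∉ J) :
    ((∃ j ∈ J, M c j = 1) → (-2 : ℤ) ^ (hh M (insert c J) + 1) = (-2) ^ J.card) ∧
    ((∀ j ∈ J, M c j = 0) → (-2 : ℤ) ^ (hh M (insert c J) + 1) =
      (if M c c = 0 then 4 else -2) * (-2) ^ J.card) := by
  classical
  obtain ⟨N, hN⟩ : ∃ N, N = remM M (Finset.univ \ insert c J) := ⟨_, rfl⟩
  have hNs : ∀ i j, N i j = N j i := by
    intro i j
    have h1 := remM_symm M hM (Finset.univ \ insert c J) ∅ i j
    have h0 : (dg (∅ : Finset (Fin n))) = 0 := by
      ext i j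
      unfold dg
      rw [Matrix.diagonal_apply]
      simp
    rw [h0, add_zero, ← hN] at h1
    exact h1
  have hrem : remM N {c} = remM M (Finset.univ \ J) := by
    ext i j
    rw [remM_apply, hN, remM_apply, remM_apply]
    by_cases h1 : i ∈ ({c} : Finset (Fin n)) ∨ j ∈ ({c} : Finset (Fin n))
    · have hR : i ∈ Finset.univ \ J ∨ j ∈ Finset.univ \ J := by
        rcases h1 with h1 | h1 <;> rw [Finset.mem_singleton] at h1 <;> subst h1
        · exact Or.inl (Finset.mem_sdiff.2 ⟨Finset.mem_univ _, hc⟩)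
        · exact Or.inr (Finset.mem_sdiff.2 ⟨Finset.mem_univ _, hc⟩)
      rw [if_pos h1, if_pos hR]
    · rw [if_neg h1]
      rw [not_or, Finset.mem_singleton, Finset.mem_singleton] at h1
      refine if_congr ?_ rfl rfl
      simp only [Finset.mem_sdiff, Finset.mem_univ, true_and, Finset.mem_insert, h1.1, h1.2,
        false_or]
  have h3 := crk_three N hNs c
  rw [hrem] at h3
  have hk' : crk (remM M (Finset.univ \ J)) = J.card := hk
  rw [hk'] at h3
  have hhN : hh M (insert c J) = crk N := by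
    unfold hh
    rw [hN]
  rw [hhN]
  -- the entries
  have hrow : ∀ x, ∀ j ∈ J, N.mulVec x j = M j c * x c := by
    intro x j hj
    rw [hN, rest_mulVec M _ x j (Finset.mem_insert_of_mem hj), Finset.sum_insert hc,
      Finset.sum_eq_zero fun j' hj' => by rw [hJ j hj j' hj', zero_mul], add_zero]
  have hrowc : ∀ x, N.mulVec x c = M c c * x c + ∑ j ∈ J, M c j * x j := by
    intro x
    rw [hN, rest_mulVec M _ x c (Finset.mem_insert_self c J), Finset.sum_insert hc]
  constructor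
  · rintro ⟨j, hj, hcj⟩
    have hjc : M j c = 1 := by rw [hM, hcj]
    have hne : j ≠ c := fun h => hc (h ▸ hj)
    have hker : LinearMap.ker N.mulVecLin = LinearMap.ker (N + dg {c}).mulVecLin := by
      ext x
      rw [LinearMap.mem_ker, LinearMap.mem_ker, Matrix.mulVecLin_apply, Matrix.mulVecLin_apply]
      constructor
      · intro h
        have h1 := congrFun h j
        rw [hrow x j hj, hjc, one_mul] at h1
        exact (ker_dg N c x h1).1 h
      · intro h
        have h1 := congrFun h j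
        rw [Matrix.add_mulVec, Pi.add_apply, dg_mulVec, if_neg hne, add_zero, hrow x j hj, hjc,
          one_mul] at h1
        exact (ker_dg N c x h1).2 h
    have h4 : crk N = crk (N + dg {c}) := by
      unfold crk
      rw [hker]
    rw [← h4] at h3
    rw [pow_succ]
    linarith
  · intro hz
    obtain ⟨α, hα⟩ : ∃ α : (Fin n → ZMod 2) →ₗ[ZMod 2] ZMod 2, ∀ x, α x = x c :=
      ⟨LinearMap.proj c, fun _ => rfl⟩
    obtain ⟨e, he⟩ : ∃ e : Fin n → ZMod 2, e = Pi.single c 1 := ⟨_, rfl⟩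
    have hec : e c = 1 := by
      rw [he]
      exact Pi.single_eq_same _ _
    have hei : ∀ i, i ≠ c → e i = 0 := by
      intro i hi
      rw [he]
      exact Pi.single_eq_of_ne hi _
    have hNe : ∀ i, i ≠ c → N.mulVec e i = 0 := by
      intro i hi
      by_cases hiJ : i ∈ J
      · rw [hrow e i hiJ, hM i c, hz i hiJ, zero_mul]
      · rw [hN, rest_mulVec' M _ e i (fun h => (Finset.mem_insert.1 h).elim hi hiJ), hei i hi]
    have hNec : N.mulVec e c = M c c := by
      rw [hrowc, hec, mul_one, Finset.sum_eq_zero fun j hj => by rw [hz j hj, zero_mul], add_zero]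
    -- the vectors with entry zero
    have hcap : LinearMap.ker N.mulVecLin ⊓ LinearMap.ker α =
        LinearMap.ker (N + dg {c}).mulVecLin ⊓ LinearMap.ker α := by
      ext x
      rw [Submodule.mem_inf, Submodule.mem_inf, LinearMap.mem_ker, LinearMap.mem_ker,
        LinearMap.mem_ker, Matrix.mulVecLin_apply, Matrix.mulVecLin_apply, hα]
      exact ⟨fun h => ⟨(ker_dg N c x h.2).1 h.1, h.2⟩, fun h => ⟨(ker_dg N c x h.2).2 h.1, h.2⟩⟩
    have hcrow : ∀ x, N.mulVec x c = M c c * x c := by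
      intro x
      rw [hrowc, Finset.sum_eq_zero fun j hj => by rw [hz j hj, zero_mul], add_zero]
    by_cases hcc : M c c = 0
    · rw [if_pos hcc]
      have h4 := (finrank_inf_ker (LinearMap.ker N.mulVecLin) α).2 ⟨e, by
        rw [LinearMap.mem_ker, Matrix.mulVecLin_apply]
        funext i
        by_cases hi : i = c
        · rw [hi, hNec, hcc]
          rfl
        · exact hNe i hi, by
        rw [hα, hec]
        exact one_ne_zero⟩
      have h5 := (finrank_inf_ker (LinearMap.ker (N + dg {c}).mulVecLin) α).1 (by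
        intro x hx
        rw [LinearMap.mem_ker, Matrix.mulVecLin_apply] at hx
        have h6 := congrFun hx c
        rw [Matrix.add_mulVec, Pi.add_apply, dg_mulVec, if_pos rfl, hcrow, hcc, zero_mul,
          zero_add] at h6
        rw [hα]
        exact h6)
      rw [hcap, h5] at h4
      have h6 : crk N = crk (N + dg {c}) + 1 := h4.symm
      rw [h6, pow_succ] at h3
      rw [h6, pow_succ, pow_succ]
      linarith
    · have hcc1 : M c c = 1 := by
        have h7 : ∀ y : ZMod 2, y ≠ 0 → y = 1 := by decide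
        exact h7 _ hcc
      rw [if_neg hcc]
      have h4 := (finrank_inf_ker (LinearMap.ker (N + dg {c}).mulVecLin) α).2 ⟨e, by
        rw [LinearMap.mem_ker, Matrix.mulVecLin_apply]
        funext i
        rw [Matrix.add_mulVec, Pi.add_apply, dg_mulVec]
        by_cases hi : i = c
        · rw [if_pos hi, hi, hNec, hcc1, hec]
          show (1 : ZMod 2) + 1 = 0
          decide
        · rw [if_neg hi, add_zero]
          exact hNe i hi, by
        rw [hα, hec]
        exact one_ne_zero⟩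
      have h5 := (finrank_inf_ker (LinearMap.ker N.mulVecLin) α).1 (by
        intro x hx
        rw [LinearMap.mem_ker, Matrix.mulVecLin_apply] at hx
        have h6 := congrFun hx c
        rw [hcrow, hcc1, one_mul] at h6
        rw [hα]
        exact h6)
      rw [← hcap, h5] at h4
      have h6 : crk (N + dg {c}) = crk N + 1 := h4.symm
      rw [h6, pow_succ] at h3
      rw [pow_succ]
      linarith

theorem D_inj {a b a' b' k : ℤ} (h : (a : DualNumber ℤ) + (b : DualNumber ℤ) * DualNumber.eps =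
    (k : DualNumber ℤ) * ((a' : DualNumber ℤ) + (b' : DualNumber ℤ) * DualNumber.eps)) :
    a = k * a' ∧ b = k * b' := by
  have h0 : (a : DualNumber ℤ) + (b : DualNumber ℤ) * DualNumber.eps =
      ((k * a' : ℤ) : DualNumber ℤ) + ((k * b' : ℤ) : DualNumber ℤ) * DualNumber.eps := by
    rw [h]
    push_cast
    ring
  have hf := congrArg TrivSqZeroExt.fst h0
  have hs := congrArg TrivSqZeroExt.snd h0
  simp only [TrivSqZeroExt.fst_add, TrivSqZeroExt.fst_mul, TrivSqZeroExt.snd_add,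
    TrivSqZeroExt.snd_mul, DualNumber.fst_eps, DualNumber.snd_eps, TrivSqZeroExt.fst_intCast,
    TrivSqZeroExt.snd_intCast] at hf hs
  simp at hf hs
  exact ⟨hf, hs⟩

open Classical in
/-- **The linking number** -/
theorem lk_zero (M : Matrix (Fin n) (Fin n) (ZMod 2)) (hM : ∀ i j, M i j = M j i)
    (σ : Fin n → Bool) (J : Finset (Fin n)) (hJ : ∀ c ∈ J, ∀ c' ∈ J, M c c' = 0)
    (h : gg ℤ M σ J = dl ℤ ^ J.card * gg ℤ M σ ∅) :
    ∑ c ∈ Finset.univ.filter (fun c => ∃ j ∈ J, M c j = 1),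
      sg (σ c) * (if M c c = 0 then 1 else -1) = 0 := by
  have h1 := congrArg evD h
  rw [evD_gg, map_mul, map_pow, evD_dl, evD_gg, ← Int.cast_pow] at h1
  obtain ⟨h2, h3⟩ := D_inj h1
  rw [Finset.card_empty, pow_zero, one_mul, Finset.sum_empty, mul_zero, zero_mul, zero_add,
    Finset.sdiff_empty] at h3
  rw [Finset.card_empty, pow_zero, one_mul] at h2
  -- the coranks
  have hcard : (Finset.univ \ J).card + J.card = n := by
    rw [Finset.card_sdiff_add_card_eq_card (Finset.subset_univ J), Finset.card_univ,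
      Fintype.card_fin]
  have hsgn : (-1 : ℤ) ^ J.card * (-1) ^ (Finset.univ \ J).card = (-1) ^ n := by
    rw [← pow_add, add_comm, hcard]
  have hne : ∀ k : ℕ, (-1 : ℤ) ^ k * (-1) ^ k = 1 := by
    intro k
    rw [← mul_pow]
    norm_num
  have hh0 : hh M ∅ = 0 := by
    unfold hh crk
    rw [Submodule.finrank_eq_zero, LinearMap.ker_eq_bot']
    intro x hx
    rw [Matrix.mulVecLin_apply] at hx
    funext i
    have h4 := congrFun hx i
    rwa [rest_mulVec' M ∅ x i (Finset.notMem_empty i)] at h4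
  have hH0 : Hs M ∅ = (-1) ^ n := by
    rw [Hs_eq M hM, hh0, pow_zero, mul_one, Finset.sdiff_empty, Finset.card_univ,
      Fintype.card_fin]
  have hk : hh M J = J.card := by
    rw [Hs_eq M hM J, hH0, ← mul_assoc, hsgn, mul_comm] at h2
    have h5 : (-1 : ℤ) ^ n ≠ 0 := pow_ne_zero _ (by norm_num)
    exact hh_pow_inj (mul_right_cancel₀ h5 h2)
  -- one more class
  have hins : ∀ K : Finset (Fin n), ∀ c, c ∉ K →
      (Finset.univ \ insert c K).card + 1 = (Finset.univ \ K).card := by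
    intro K c hc
    have h5 := Finset.card_sdiff_add_card_eq_card (Finset.subset_univ K)
    have h6 := Finset.card_sdiff_add_card_eq_card (Finset.subset_univ (insert c K))
    rw [Finset.card_insert_of_notMem hc] at h6
    omega
  have hHi : ∀ K : Finset (Fin n), ∀ c, c ∉ K → 2 * Hs M (insert c K) =
      (-1) ^ (Finset.univ \ K).card * (-2) ^ (hh M (insert c K) + 1) := by
    intro K c hc
    rw [Hs_eq M hM, ← hins K c hc, pow_succ, pow_succ]
    ring
  obtain ⟨w, hw⟩ : ∃ w : Fin n → ℤ, ∀ c, w c = if M c c = 0 then 4 else -2 := ⟨_, fun _ => rfl⟩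
  have hw0 : ∀ c, (-2 : ℤ) ^ (hh M (insert c ∅) + 1) = w c := by
    intro c
    have h5 := (hh_insert M hM ∅ (fun c hc => absurd hc (Finset.notMem_empty c)) hh0 c
      (Finset.notMem_empty c)).2 fun j hj => absurd hj (Finset.notMem_empty j)
    rw [h5, hw, Finset.card_empty, pow_zero, mul_one]
  have hwJ : ∀ c, c ∉ J → (-2 : ℤ) ^ (hh M (insert c J) + 1) =
      (-2) ^ J.card * if ∃ j ∈ J, M c j = 1 then 1 else w c := by
    intro c hc
    obtain ⟨h5, h6⟩ := hh_insert M hM J hJ hk c hc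
    by_cases h7 : ∃ j ∈ J, M c j = 1
    · rw [if_pos h7, h5 h7, mul_one]
    · rw [if_neg h7, h6, hw, mul_comm]
      intro j hj
      by_contra h8
      have h9 : ∀ y : ZMod 2, y ≠ 0 → y = 1 := by decide
      exact h7 ⟨j, hj, h9 _ h8⟩
  -- the two sides
  have hL : 2 * ∑ c ∈ Finset.univ \ J, sg (σ c) * Hs M (insert c J) =
      (-1) ^ (Finset.univ \ J).card * ((-2) ^ J.card * ∑ c ∈ Finset.univ \ J,
        sg (σ c) * if ∃ j ∈ J, M c j = 1 then 1 else w c) := by
    rw [Finset.mul_sum, Finset.mul_sum, Finset.mul_sum]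
    refine Finset.sum_congr rfl fun c hc => ?_
    have h5 := hHi J c (Finset.mem_sdiff.1 hc).2
    rw [hwJ c (Finset.mem_sdiff.1 hc).2] at h5
    calc 2 * (sg (σ c) * Hs M (insert c J)) = sg (σ c) * (2 * Hs M (insert c J)) := by ring
      _ = _ := by
        rw [h5]
        ring
  have hR : 2 * ∑ c, sg (σ c) * Hs M (insert c ∅) = (-1) ^ n * ∑ c, sg (σ c) * w c := by
    rw [Finset.mul_sum, Finset.mul_sum]
    refine Finset.sum_congr rfl fun c _ => ?_
    have h5 := hHi ∅ c (Finset.notMem_empty c)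
    rw [hw0, Finset.sdiff_empty, Finset.card_univ, Fintype.card_fin] at h5
    calc 2 * (sg (σ c) * Hs M (insert c ∅)) = sg (σ c) * (2 * Hs M (insert c ∅)) := by ring
      _ = _ := by
        rw [h5]
        ring
  rw [hL, hR, Hs_eq M hM J, hk] at h3
  have h5 : (-1 : ℤ) ^ J.card * ((4 * ∑ c ∈ J, sg (σ c)) * ((-1) ^ (Finset.univ \ J).card *
      (-2) ^ J.card) + (-1) ^ (Finset.univ \ J).card * ((-2) ^ J.card *
      ∑ c ∈ Finset.univ \ J, sg (σ c) * if ∃ j ∈ J, M c j = 1 then 1 else w c)) =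
      ((-1) ^ n * (-2) ^ J.card) * (4 * ∑ c ∈ J, sg (σ c) +
        ∑ c ∈ Finset.univ \ J, sg (σ c) * if ∃ j ∈ J, M c j = 1 then 1 else w c) := by
    rw [← hsgn]
    ring
  have h6 : (-2 : ℤ) ^ J.card * ((-1) ^ n * ∑ c, sg (σ c) * w c) =
      ((-1) ^ n * (-2) ^ J.card) * ∑ c, sg (σ c) * w c := by ring
  rw [h5, h6] at h3
  have h7 := mul_left_cancel₀ (mul_ne_zero (pow_ne_zero _ (by norm_num))
    (pow_ne_zero _ (by norm_num))) h3
  rw [← Finset.sum_sdiff (Finset.subset_univ J)] at h7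
  have h8 : ∑ c ∈ J, sg (σ c) * w c = 4 * ∑ c ∈ J, sg (σ c) := by
    rw [Finset.mul_sum]
    refine Finset.sum_congr rfl fun c hc => ?_
    rw [hw, if_pos (hJ c hc c hc), mul_comm]
  rw [h8] at h7
  have h9 : ∑ c ∈ Finset.univ \ J, (sg (σ c) * (if ∃ j ∈ J, M c j = 1 then 1 else w c) -
      sg (σ c) * w c) = 0 := by
    rw [Finset.sum_sub_distrib]
    linarith
  have h10 : ∀ c ∈ Finset.univ \ J, sg (σ c) * (if ∃ j ∈ J, M c j = 1 then 1 else w c) -
      sg (σ c) * w c = -3 * (if ∃ j ∈ J, M c j = 1 then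
        sg (σ c) * (if M c c = 0 then 1 else -1) else 0) := by
    intro c _
    by_cases h11 : ∃ j ∈ J, M c j = 1
    · rw [if_pos h11, if_pos h11, hw]
      by_cases h12 : M c c = 0
      · rw [if_pos h12, if_pos h12]
        ring
      · rw [if_neg h12, if_neg h12]
        ring
    · rw [if_neg h11, if_neg h11]
      ring
  rw [Finset.sum_congr rfl h10, ← Finset.mul_sum] at h9
  have h11 : ∑ c ∈ Finset.univ \ J, (if ∃ j ∈ J, M c j = 1 then
        sg (σ c) * (if M c c = 0 then 1 else -1) else 0) = 0 := by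
    rcases mul_eq_zero.1 h9 with h12 | h12
    · norm_num at h12
    · exact h12
  have h13 : ∑ c, (if ∃ j ∈ J, M c j = 1 then
        sg (σ c) * (if M c c = 0 then 1 else -1) else 0) = 0 := by
    refine (Finset.sum_subset (Finset.subset_univ (Finset.univ \ J)) fun c _ hc => ?_).symm.trans
      h11
    rw [Finset.mem_sdiff, not_and_not_right] at hc
    rw [if_neg]
    rintro ⟨j, hj, hcj⟩
    rw [hJ c (hc (Finset.mem_univ c)) j hj] at hcj
    exact zero_ne_one hcj
  rw [Finset.sum_filter]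
  convert h13

/-! ### one term -/

/-- **The isolated part when there is one term** -/
theorem gg_one (M : Matrix (Fin n) (Fin n) (ZMod 2)) (hM : ∀ i j, M i j = M j i)
    (σ : Fin n → Bool) (hB : (SS ℤ M σ).coeff.support.card ≤ 1)
    (J : Finset (Fin n)) (hinj : Set.InjOn M (J : Set (Fin n)))
    (hpos : ∀ F ∈ FL M, ∀ F' ∈ FL M,
      |∑ v ∈ F, tw M σ v - ∑ v ∈ F', tw M σ v| < 6 * ((M.rank : ℤ) + 1) →
      J.image M ⊆ F → J.image M ⊆ F') :
    gg ℤ M σ J = dl ℤ ^ J.card * gg ℤ M σ ∅ := by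
  classical
  obtain ⟨m, hm⟩ := PF_eq (K := ℤ) σ
  obtain ⟨G, hG⟩ : ∃ G : Finset (Fin n → ZMod 2) → ℤ[T;T⁻¹], ∀ F, G F =
      Lin.GG M (fun c => qu ℤ (σ c)) Finset.univ (ph ℤ M) F := ⟨_, fun _ => rfl⟩
  obtain ⟨P, hP⟩ : ∃ P, P = ∑ F ∈ (Finset.univ.image M).powerset.filter
      (fun F => J.image M ⊆ F), G F := ⟨_, rfl⟩
  obtain ⟨Q, hQ⟩ : ∃ Q, Q = ∑ F ∈ (Finset.univ.image M).powerset.filter
      (fun F => ¬ J.image M ⊆ F), G F := ⟨_, rfl⟩
  have hPQ : P + Q = ∑ F ∈ (Finset.univ.image M).powerset, G F := by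
    rw [hP, hQ]
    exact Finset.sum_filter_add_sum_filter_not _ _ _
  have hPQ' : P + Q = dl ℤ ^ M.rank * gg ℤ M σ ∅ := by
    have h1 := Lin.sum_HH M Finset.univ (ph ℤ M) ∅ (Finset.empty_subset _)
      (by rw [Finset.coe_empty]; exact Set.injOn_empty M) (fun c => qu ℤ (σ c))
    have h2 := HH_eq (K := ℤ) M hM σ ∅
    rw [Finset.card_empty, pow_zero, one_mul] at h2
    rw [← h2, ← h1, hPQ]
    refine Finset.sum_congr ?_ fun F _ => hG F
    rw [Finset.filter_true_of_mem]
    intro F _ v hv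
    obtain ⟨i, hi, -⟩ := Finset.mem_image.1 hv
    exact absurd hi (Finset.notMem_empty i)
  have hPJ : dl ℤ ^ J.card * P = dl ℤ ^ M.rank * gg ℤ M σ J := by
    have h1 := Lin.sum_HH M Finset.univ (ph ℤ M) J (Finset.subset_univ J) hinj
      (fun c => qu ℤ (σ c))
    rw [← HH_eq (K := ℤ) M hM σ J, ← h1, hP]
    congr 1
    exact Finset.sum_congr rfl fun F _ => hG F
  have hdl : dl ℤ ^ M.rank ≠ 0 := pow_ne_zero _ dlZ_ne
  have hG0 : ∀ F ∈ (Finset.univ.image M).powerset, F ∉ FL M → G F = 0 := by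
    intro F hF hFI
    unfold FL at hFI
    rw [Finset.mem_filter, not_and] at hFI
    rw [hG]
    unfold Lin.GG
    rw [KK_flat ℤ M F (hFI hF), mul_zero]
  suffices hQ0 : Q = 0 by
    rw [hQ0, add_zero] at hPQ'
    rw [hPQ'] at hPJ
    refine mul_left_cancel₀ hdl ?_
    rw [← hPJ]
    ring
  by_contra hQ0
  -- the part is not zero
  have hgJ : gg ℤ M σ J ≠ 0 := by
    intro h
    have h1 := evZ_gg M hM σ J
    rw [h, map_zero] at h1
    exact mul_ne_zero (pow_ne_zero _ (by norm_num)) (mul_ne_zero (pow_ne_zero _ (by norm_num))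
      (pow_ne_zero _ (by norm_num))) h1.symm
  have hP0 : P ≠ 0 := by
    intro h
    rw [h, mul_zero] at hPJ
    exact mul_ne_zero hdl hgJ hPJ.symm
  -- the supports
  obtain ⟨k, hk⟩ : ∃ k, Sup (fun x => x = k) (SS ℤ M σ) := by
    obtain ⟨k, hk⟩ := Finset.card_le_one_iff_subset_singleton.1 hB
    exact ⟨k, fun x hx => Finset.mem_singleton.1 (hk (Finsupp.mem_support_iff.2 hx))⟩
  have hSW : Sup (fun x => k - m - 2 * M.rank ≤ x ∧ x ≤ k - m + 2 * M.rank) (P + Q) := by
    have h1 : P + Q = T (-m) * (dl ℤ ^ M.rank * SS ℤ M σ) := by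
      rw [SS_eq M hM σ, hm, ← mul_assoc, ← T_add, neg_add_cancel, T_zero, one_mul, hPQ]
      exact Finset.sum_congr rfl fun F _ => hG F
    rw [h1]
    refine Sup.mul (Sup.T (-m)) (Sup.mul (Sup_dl M.rank) hk (r := fun x =>
      k - 2 * M.rank ≤ x ∧ x ≤ k + 2 * M.rank) fun a b ha hb => ?_) fun a b ha hb => ?_
    · constructor <;> omega
    · constructor <;> omega
  have hSG : ∀ F, Sup (fun x => 4 * (∑ v ∈ F, tw M σ v) - 4 * (M.rank : ℤ) ≤ x ∧
      x ≤ 4 * (∑ v ∈ F, tw M σ v) + 4 * (M.rank : ℤ)) (G F) := by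
    intro F
    have h1 := Sup_GG (K := ℤ) M σ F
    rw [← hG] at h1
    exact h1
  have hSP : Sup (fun x => ∃ F ∈ FL M, J.image M ⊆ F ∧ 4 * (∑ v ∈ F, tw M σ v) -
      4 * (M.rank : ℤ) ≤ x ∧ x ≤ 4 * (∑ v ∈ F, tw M σ v) + 4 * (M.rank : ℤ)) P := by
    rw [hP]
    refine Sup.sum _ _ fun F hF => ?_
    rw [Finset.mem_filter] at hF
    by_cases h : F ∈ FL M
    · exact (hSG F).mono fun x hx => ⟨F, h, hF.2, hx⟩
    · rw [hG0 F hF.1 h]
      exact Sup.zero _
  have hSQ : Sup (fun x => ∃ F ∈ FL M, ¬ J.image M ⊆ F ∧ 4 * (∑ v ∈ F, tw M σ v) -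
      4 * (M.rank : ℤ) ≤ x ∧ x ≤ 4 * (∑ v ∈ F, tw M σ v) + 4 * (M.rank : ℤ)) Q := by
    rw [hQ]
    refine Sup.sum _ _ fun F hF => ?_
    rw [Finset.mem_filter] at hF
    by_cases h : F ∈ FL M
    · exact (hSG F).mono fun x hx => ⟨F, h, hF.2, hx⟩
    · rw [hG0 F hF.1 h]
      exact Sup.zero _
  have hex : ∀ R : ℤ[T;T⁻¹], R ≠ 0 → ∃ x, R.coeff x ≠ 0 := by
    intro R hR
    by_contra h
    push Not at h
    refine hR (LaurentPolynomial.ext fun x => ?_)
    rw [h x, AddMonoidAlgebra.coeff_zero, Finsupp.zero_apply]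
  have hadd : ∀ x, (P + Q).coeff x = P.coeff x + Q.coeff x := by
    intro x
    rw [AddMonoidAlgebra.coeff_add, Finsupp.add_apply]
  have hfar : ∀ F ∈ FL M, J.image M ⊆ F → ∀ F' ∈ FL M, ¬ J.image M ⊆ F' →
      6 * ((M.rank : ℤ) + 1) ≤ |∑ v ∈ F, tw M σ v - ∑ v ∈ F', tw M σ v| := by
    intro F hF h F' hF' h'
    by_contra h1
    exact h' (hpos F hF F' hF' (not_le.1 h1) h)
  obtain ⟨p, hp⟩ := hex P hP0
  obtain ⟨q, hq⟩ := hex Q hQ0
  obtain ⟨F, hF, hJF, hF1, hF2⟩ := hSP p hp
  obtain ⟨F', hF', hJF', hF1', hF2'⟩ := hSQ q hq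
  have hp' : (P + Q).coeff p ≠ 0 := by
    rw [hadd]
    have h1 : Q.coeff p = 0 := by
      by_contra h
      obtain ⟨F₂, hF₂, hJF₂, h3, h4⟩ := hSQ p h
      have h5 := hfar F hF hJF F₂ hF₂ hJF₂
      rw [le_abs] at h5
      rcases h5 with h5 | h5 <;> omega
    rw [h1, add_zero]
    exact hp
  have hq' : (P + Q).coeff q ≠ 0 := by
    rw [hadd]
    have h1 : P.coeff q = 0 := by
      by_contra h
      obtain ⟨F₂, hF₂, hJF₂, h3, h4⟩ := hSP q h
      have h5 := hfar F₂ hF₂ hJF₂ F' hF' hJF'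
      rw [le_abs] at h5
      rcases h5 with h5 | h5 <;> omega
    rw [h1, zero_add]
    exact hq
  have h1 := hSW p hp'
  have h2 := hSW q hq'
  have h5 := hfar F hF hJF F' hF' hJF'
  rw [le_abs] at h5
  rcases h5 with h5 | h5 <;> omega

end

end Pool.Agent.NHT
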