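import Mathlib
import Pool.Agent.NHT.Lk

/-!
# NHT, module LkK: the linking numbers, knots and knotoids (helper11)
-/

set_option autoImplicit false
set_option linter.unusedSectionVars false

open Module Submodule Pool.Agent.UNI LaurentPolynomial Pool.Agent.SPT Pool.Agent.SPT.Rel
  Pool.Agent.SPT.Lin Pool.Agent.SRH Pool.Agent.EQT Pool.Agent.FHP Pool.Agent.TRA Pool.Agent.TRP

namespace Pool.Agent.NHT

open Pool.Agent.Helper16.Knotoid

variable {n : ℕ}

open Classical in
/-- The sum of the signs of the crossings which are interlaced with a crossing in `J`.  If no two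
crossings in `J` are interlaced then this is twice the total linking number of the link which is
obtained from the diagram by smoothing the crossings in `J`. -/
noncomputable def linkSum (I : Fin n → Fin n → Prop) (e : Fin n → Bool) (J : Finset (Fin n)) : ℤ :=
  ∑ c ∈ Finset.univ.filter (fun c => ∃ j ∈ J, I c j), if e c then 1 else -1

/-- the isolated part -/
theorem close_one (D : GaussDiagram n) (S : Finset (Fin n)) (hS : Transversal D.Interlaced S)
    (J : Finset (Fin n)) (hJ : J ⊆ S) (Cyc : Finset (Fin n) → Prop)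
    (hblock : Block S Cyc (row (Graph_R D.Interlaced D.sign)))
    (hpos : ∀ L L', Close S Cyc (cutTwist D.Interlaced D.sign) (6 * (S.card + 1)) L L' →
      L ∩ J = ∅ → L' ∩ J = ∅)
    (h1 : terms D.normalizedBracket ≤ 1) :
    gg ℤ (D.gmat (cutState D.Interlaced D.sign)) (cutState D.Interlaced D.sign) J =
      dl ℤ ^ J.card * gg ℤ (D.gmat (cutState D.Interlaced D.sign))
        (cutState D.Interlaced D.sign) ∅ := by
  classical
  have hB : D.normalizedBracket.coeff.support.card ≤ 1 := h1
  have har : (fun i => twist (Graph_R D.Interlaced D.sign) (cutState D.Interlaced D.sign)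
      (row (Graph_R D.Interlaced D.sign) i)) = cutTwist D.Interlaced D.sign :=
    funext fun i => twist_row (Graph_irrefl D) (Graph_int_symm D) i
  rw [← har] at hpos
  obtain ⟨σ, hσ⟩ : ∃ σ, σ = cutState D.Interlaced D.sign := ⟨_, rfl⟩
  have hR : Graph_R D.Interlaced D.sign = D.Cut σ := by
    rw [hσ]
    rfl
  have hr : ∀ c, row (Graph_R D.Interlaced D.sign) c = D.gmat σ c := by
    intro c
    rw [hR]
    exact row_eq D σ c
  have hr' : row (Graph_R D.Interlaced D.sign) = fun c => D.gmat σ c := funext hr
  have hrows : S.image (row (Graph_R D.Interlaced D.sign)) =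
      (Finset.univ.image (D.gmat σ)).erase 0 := by
    rw [← Graph_image (Graph_irrefl D) (Graph_int_symm D) hS]
    unfold rows
    rw [hr']
  have htw : ∀ v, twist (Graph_R D.Interlaced D.sign) σ v = tw (D.gmat σ) σ v := by
    intro v
    unfold twist tw SPT.signedCount
    refine Finset.sum_congr ?_ fun _ _ => rfl
    ext c
    simp only [Finset.mem_filter, Finset.mem_univ, true_and, hr]
  have hinjS : Set.InjOn (row (Graph_R D.Interlaced D.sign)) (S : Set (Fin n)) :=
    Graph_inj (e := D.sign) (Graph_irrefl D) (Graph_int_symm D) hS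
  have hinj : Set.InjOn (D.gmat σ) (J : Set (Fin n)) := by
    intro i hi j hj h
    exact hinjS (hJ hi) (hJ hj) (by rw [hr, hr]; exact h)
  have hrank : (D.gmat σ).rank ≤ S.card := by
    have h1 := SRH.rank_le D σ
    rw [← hR, Graph_image (Graph_irrefl D) (Graph_int_symm D) hS] at h1
    exact h1.trans Finset.card_image_le
  -- the cycle set of a flat
  have hcyc : ∀ F ∈ FL (D.gmat σ), S.filter (fun i => row (Graph_R D.Interlaced D.sign) i ∉ F) ⊆ S ∧
      CycleSet Cyc (S.filter fun i => row (Graph_R D.Interlaced D.sign) i ∉ F) ∧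
      (∑ i ∈ S.filter (fun i => row (Graph_R D.Interlaced D.sign) i ∉ F),
        twist (Graph_R D.Interlaced D.sign) (cutState D.Interlaced D.sign)
          (row (Graph_R D.Interlaced D.sign) i) =
        ∑ v ∈ Finset.univ.image (D.gmat σ), tw (D.gmat σ) σ v - ∑ v ∈ F, tw (D.gmat σ) σ v) ∧
      (S.filter (fun i => row (Graph_R D.Interlaced D.sign) i ∉ F) ∩ J = ∅ ↔
        J.image (D.gmat σ) ⊆ F) := by
    intro F hF
    unfold FL at hF
    rw [Finset.mem_filter, Finset.mem_powerset] at hF
    refine ⟨Finset.filter_subset _ _, ?_, ?_, ?_⟩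
    · intro i hi
      rw [Finset.mem_filter] at hi
      refine Block.inCycle hblock F ?_ i hi.1 hi.2
      intro v hv hs
      refine hF.2 v ?_ hs
      rw [hrows] at hv
      exact (Finset.mem_erase.1 hv).2
    · have h1 := sum_out S _ hinjS _ F hrows hF.1 (fun h => hF.2 0 h (zero_mem _))
        (tw (D.gmat σ) σ)
      rw [← h1]
      refine Finset.sum_congr rfl fun i _ => ?_
      rw [← hσ]
      exact htw _
    · rw [Finset.eq_empty_iff_forall_notMem]
      constructor
      · intro h v hv
        obtain ⟨i, hi, rfl⟩ := Finset.mem_image.1 hv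
        by_contra h2
        refine h i (Finset.mem_inter.2 ⟨Finset.mem_filter.2 ⟨hJ hi, ?_⟩, hi⟩)
        rw [hr]
        exact h2
      · intro h i hi
        rw [Finset.mem_inter, Finset.mem_filter, hr] at hi
        exact hi.1.2 (h (Finset.mem_image_of_mem _ hi.2))
  rw [← hσ]
  refine gg_one (D.gmat σ) (D.gmat_symm σ) σ (card_SSZ D σ 1 hB) J hinj (by
    intro F hF F' hF' h hJF
    obtain ⟨h1, h2, h3, h4⟩ := hcyc F hF
    obtain ⟨h1', h2', h3', h4'⟩ := hcyc F' hF'
    refine h4'.1 (hpos _ _ ⟨h1, h1', h2, h2', ?_⟩ (h4.2 hJF))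
    have h6 : ∑ i ∈ S.filter (fun i => row (Graph_R D.Interlaced D.sign) i ∉ F),
        (fun i => twist (Graph_R D.Interlaced D.sign) (cutState D.Interlaced D.sign)
          (row (Graph_R D.Interlaced D.sign) i)) i -
        ∑ i ∈ S.filter (fun i => row (Graph_R D.Interlaced D.sign) i ∉ F'),
        (fun i => twist (Graph_R D.Interlaced D.sign) (cutState D.Interlaced D.sign)
          (row (Graph_R D.Interlaced D.sign) i)) i =
        -(∑ v ∈ F, tw (D.gmat σ) σ v - ∑ v ∈ F', tw (D.gmat σ) σ v) := by
      show (∑ i ∈ _, twist (Graph_R D.Interlaced D.sign) (cutState D.Interlaced D.sign)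
          (row (Graph_R D.Interlaced D.sign) i)) - (∑ i ∈ _, twist (Graph_R D.Interlaced D.sign)
          (cutState D.Interlaced D.sign) (row (Graph_R D.Interlaced D.sign) i)) = _
      rw [h3, h3']
      ring
    rw [h6, abs_neg]
    refine h.trans_le ?_
    push_cast
    have h7 : ((D.gmat σ).rank : ℤ) ≤ S.card := by exact_mod_cast hrank
    omega)

/-- the linking number is zero -/
theorem lk_close (D : GaussDiagram n) (S : Finset (Fin n)) (hS : Transversal D.Interlaced S)
    (J : Finset (Fin n)) (hJ : J ⊆ S) (Cyc : Finset (Fin n) → Prop)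
    (hblock : Block S Cyc (row (Graph_R D.Interlaced D.sign)))
    (hpos : ∀ L L', Close S Cyc (cutTwist D.Interlaced D.sign) (6 * (S.card + 1)) L L' →
      L ∩ J = ∅ → L' ∩ J = ∅)
    (h1 : terms D.normalizedBracket ≤ 1) : linkSum D.Interlaced D.sign J = 0 := by
  classical
  have hone := close_one D S hS J hJ Cyc hblock hpos h1
  obtain ⟨σ, hσ⟩ : ∃ σ, σ = cutState D.Interlaced D.sign := ⟨_, rfl⟩
  rw [← hσ] at hone
  have hR : Graph_R D.Interlaced D.sign = D.Cut σ := by
    rw [hσ]
    rfl
  have hr : ∀ c, row (Graph_R D.Interlaced D.sign) c = D.gmat σ c := by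
    intro c
    rw [hR]
    exact row_eq D σ c
  have hiso := iso_of_dvd (D.gmat σ) (D.gmat_symm σ) σ J _ hone
  have hlk := lk_zero (D.gmat σ) (D.gmat_symm σ) σ J hiso hone
  unfold linkSum
  have hent : ∀ c c', D.gmat σ c c' = cutEntry D.Interlaced c c' := by
    intro c c'
    rw [← hr, RelL_entry]
  have hent1 : ∀ c, ∀ j ∈ J, (D.gmat σ c j = 1 ↔ D.Interlaced c j) := by
    intro c j hj
    rw [hent]
    unfold cutEntry
    constructor
    · intro h
      by_contra h2
      by_cases h3 : D.Interlaced c j ∨ (c = j ∧ ∃ k, Twins D.Interlaced c k ∧ D.Interlaced c k)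
      · rcases h3 with h3 | ⟨h3, h4⟩
        · exact h2 h3
        · have h5 := hiso j hj j hj
          rw [hent] at h5
          unfold cutEntry at h5
          rw [h3] at h4
          rw [if_pos (Or.inr ⟨rfl, h4⟩)] at h5
          exact one_ne_zero h5
      · rw [if_neg h3] at h
        exact zero_ne_one h
    · intro h
      rw [if_pos (Or.inl h)]
  have hfil : Finset.univ.filter (fun c => ∃ j ∈ J, D.gmat σ c j = 1) =
      Finset.univ.filter (fun c => ∃ j ∈ J, D.Interlaced c j) := by
    ext c
    rw [Finset.mem_filter, Finset.mem_filter]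
    refine and_congr_right fun _ => exists_congr fun j => ?_
    exact and_congr_right fun hj => hent1 c j hj
  have hsgn : ∀ c, sg (σ c) * (if D.gmat σ c c = 0 then 1 else -1) =
      if D.sign c then (1 : ℤ) else -1 := by
    intro c
    rw [hent, hσ]
    unfold cutEntry cutState sg
    have hirr : ¬ D.Interlaced c c := Graph_irrefl D c
    by_cases h : ∃ k, Twins D.Interlaced c k ∧ D.Interlaced c k
    · have h0 : D.Interlaced c c ∨ (c = c ∧ ∃ k, Twins D.Interlaced c k ∧ D.Interlaced c k) :=
        Or.inr ⟨rfl, h⟩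
      rw [if_pos h, if_pos h0, if_neg one_ne_zero]
      cases D.sign c <;> rfl
    · have h0 : ¬ (D.Interlaced c c ∨ (c = c ∧ ∃ k, Twins D.Interlaced c k ∧
          D.Interlaced c k)) := fun h2 => h2.elim hirr fun h3 => h h3.2
      rw [if_neg h, if_neg h0]
      cases D.sign c <;> rfl
  rw [← hlk, ← Finset.sum_congr rfl fun c _ => hsgn c]
  refine Finset.sum_congr ?_ fun c _ => rfl
  convert hfil.symm

/-- **Knotoid diagrams** -/
theorem knotoidLk (D : GaussDiagram n) (S : Finset (Fin n)) (hS : Transversal D.Interlaced S)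
    (J : Finset (Fin n)) (hJ : J ⊆ S)
    (hpos : ∀ L L', Close S (HasCycleInO D ∅) (cutTwist D.Interlaced D.sign)
      (6 * (S.card + 1)) L L' → L ∩ J = ∅ → L' ∩ J = ∅)
    (hl : linkSum D.Interlaced D.sign J ≠ 0) : 1 < terms D.normalizedBracket := by
  have hblock := thm_KnotoidBlock n D S S hS (Finset.Subset.refl S)
  rw [Finset.sdiff_self] at hblock
  by_contra h
  exact hl (lk_close D S hS J hJ _ hblock hpos (not_lt.1 h))

/-- **Knot diagrams** -/
theorem knotLk (g : GaussJones.Code n) (e : Fin n → Bool) (S : Finset (Fin n))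
    (hS : Transversal (GaussJones.Interlaced g) S) (J : Finset (Fin n)) (hJ : J ⊆ S)
    (hpos : ∀ L L', Close S (HasCycleIn g ∅) (cutTwist (GaussJones.Interlaced g) e)
      (6 * (S.card + 1)) L L' → L ∩ J = ∅ → L' ∩ J = ∅)
    (hl : linkSum (GaussJones.Interlaced g) e J ≠ 0) : 1 < terms (GaussJones.fPoly g e) := by
  classical
  have hn : 0 < n := by
    by_contra h
    refine hl (Finset.sum_eq_zero fun c _ => ?_)
    exact absurd c.pos h
  have hblock := thm_KnotBlock n g e S S hS (Finset.Subset.refl S)
  rw [Finset.sdiff_self] at hblock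
  rw [f_closed hn]
  rw [← interlaced_fun g e] at hS hpos hl hblock
  by_contra h
  exact hl (lk_close (cutOpen g e) S hS J hJ _ hblock hpos (not_lt.1 h))

end Pool.Agent.NHT
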