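import Mathlib
import Pool.Agent.NHT.LkK

/-!
# NHT, module TrivK: the diagram `D_J` has the bracket of a trivial link (helper11)
-/

set_option autoImplicit false
set_option linter.unusedSectionVars false

open Module Submodule Pool.Agent.UNI LaurentPolynomial Pool.Agent.SPT Pool.Agent.SPT.Rel
  Pool.Agent.SPT.Lin Pool.Agent.SRH Pool.Agent.EQT Pool.Agent.FHP Pool.Agent.TRA Pool.Agent.TRP

namespace Pool.Agent.NHT

open Pool.Agent.Helper16.Knotoid

variable {n : ℕ}

open Classical in
/-- The Kauffman bracket of `D_J`: the sum over the states of the diagram which cut the crossings in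
`J`. -/
noncomputable def cutBracket (g : GaussJones.Code n) (e : Fin n → Bool) (J : Finset (Fin n)) :
    ℤ[T;T⁻¹] :=
  ∑ s : Fin n → Bool, if Cuts g J s then
    (∏ i, if s i = e i then T 1 else T (-1)) * (-(T 2 + T (-2))) ^ (GaussJones.loops g s - 1)
    else 0

open Classical in
/-- The bracket of `D_J`: the sum over the states of the diagram which cut the crossings in `J`. -/
noncomputable def cutBracketO (D : GaussDiagram n) (J : Finset (Fin n)) : ℤ[T;T⁻¹] :=
  ∑ s : Fin n → Bool, if CutsO D J s then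
    T (GaussDiagram.stateSign s) * (-T 2 - T (-2)) ^ (D.comps s - 1) else 0

/-- `f` is, up to a factor `A ^ m` and the sign, the bracket `(-A ^ 2 - A ^ (-2)) ^ k` of the trivial
link with `k + 1` components. -/
def IsTrivial (f : ℤ[T;T⁻¹]) (k : ℕ) : Prop :=
  ∃ m : ℤ, f = T m * (-T 2 - T (-2)) ^ k ∨ f = -(T m * (-T 2 - T (-2)) ^ k)

theorem prod_stZ (σ : Fin n → Bool) (W : Finset (Fin n)) :
    ∏ c, al ℤ (st σ W c) = PF ℤ σ * ∏ c ∈ W, al ℤ (σ c) ^ 2 := by
  have h6 : ∀ c, al ℤ (st σ W c) = al ℤ (!σ c) * (if c ∈ W then al ℤ (σ c) ^ 2 else 1) := by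
    intro c
    unfold st
    by_cases hc : c ∈ W
    · rw [if_pos hc, if_pos hc]
      exact al_not (σ c)
    · rw [if_neg hc, if_neg hc, mul_one]
  unfold PF
  rw [Finset.prod_congr rfl fun c _ => h6 c, Finset.prod_mul_distrib,
    Finset.prod_ite_mem, Finset.univ_inter]

theorem T_stateSign (s : Fin n → Bool) :
    (T (GaussDiagram.stateSign s) : ℤ[T;T⁻¹]) = ∏ c, al ℤ (s c) := by
  unfold GaussDiagram.stateSign
  rw [T_sum']
  refine Finset.prod_congr rfl fun c _ => ?_
  unfold al
  cases s c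
  · simp only [Bool.false_eq_true, if_false]
  · simp only [if_true]

/-- the bracket of `D_J` in terms of the cut matrix -/
theorem cutBracketO_eq (D : GaussDiagram n) (J : Finset (Fin n)) :
    ∃ (m : ℤ) (u : ℤ[T;T⁻¹]), (u = 1 ∨ u = -1) ∧ cutBracketO D J = u * T m *
      gg ℤ (D.gmat (cutState D.Interlaced D.sign)) (cutState D.Interlaced D.sign) J := by
  classical
  obtain ⟨σ, hσ⟩ : ∃ σ, σ = cutState D.Interlaced D.sign := ⟨_, rfl⟩
  rw [← hσ]
  obtain ⟨k, hk⟩ := PF_eq (K := ℤ) σ
  have hcut : ∀ W : Finset (Fin n), CutsO D J (st σ W) ↔ J ⊆ W := by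
    intro W
    unfold CutsO
    rw [← hσ]
    constructor
    · intro h c hc
      exact (st_iff σ W c).1 (h c hc)
    · intro h c hc
      exact (st_iff σ W c).2 (h hc)
  have e1 : ∏ c ∈ J, qu ℤ (σ c) = (-1) ^ J.card * T (4 * ∑ c ∈ J, sg (σ c)) := by
    rw [Finset.prod_congr rfl fun c _ => qu_sg (σ c), Finset.prod_neg, ← T_sum',
      Finset.mul_sum]
  have e2 : ∏ c ∈ J, al ℤ (σ c) ^ 2 = T (2 * ∑ c ∈ J, sg (σ c)) := by
    rw [Finset.prod_congr rfl fun c _ => al_sg (σ c), ← T_sum', Finset.mul_sum]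
  have e3 : ((-1) ^ J.card * (-1) ^ J.card : ℤ[T;T⁻¹]) = 1 := by
    rw [← mul_pow]
    norm_num
  refine ⟨k - 2 * ∑ c ∈ J, sg (σ c), (-1) ^ J.card, neg_one_pow_eq_or _ _, ?_⟩
  unfold cutBracketO gg
  rw [Lin.sum_st' σ, Finset.sum_filter, Finset.mul_sum]
  refine Finset.sum_congr rfl fun W _ => ?_
  by_cases hJW : J ⊆ W
  · rw [if_pos hJW, if_pos ((hcut W).2 hJW), T_stateSign, prod_stZ, comps_st,
      Nat.add_sub_cancel, hk, e1, ← Finset.prod_sdiff hJW, e2]
    have h3 : (T (k - 2 * ∑ c ∈ J, sg (σ c)) : ℤ[T;T⁻¹]) * T (4 * ∑ c ∈ J, sg (σ c)) =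
        T k * T (2 * ∑ c ∈ J, sg (σ c)) := by
      rw [← T_add, ← T_add]
      congr 1
      ring
    show T k * ((∏ c ∈ W \ J, al ℤ (σ c) ^ 2) * T (2 * ∑ c ∈ J, sg (σ c))) *
      dl ℤ ^ kap (D.gmat σ) W = _
    linear_combination (-(∏ c ∈ W \ J, al ℤ (σ c) ^ 2) * dl ℤ ^ kap (D.gmat σ) W) * h3 -
      (T (k - 2 * ∑ c ∈ J, sg (σ c)) * T (4 * ∑ c ∈ J, sg (σ c)) *
        (∏ c ∈ W \ J, al ℤ (σ c) ^ 2) * dl ℤ ^ kap (D.gmat σ) W) * e3
  · rw [if_neg hJW, if_neg fun h => hJW ((hcut W).1 h), mul_zero]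

/-- a state sum with one term is a unit -/
theorem one_term (M : Matrix (Fin n) (Fin n) (ZMod 2)) (hM : ∀ i j, M i j = M j i)
    (σ : Fin n → Bool) (hB : (SS ℤ M σ).coeff.support.card ≤ 1) :
    ∃ m : ℤ, gg ℤ M σ ∅ = T m ∨ gg ℤ M σ ∅ = -T m := by
  classical
  obtain ⟨k, hk⟩ := PF_eq (K := ℤ) σ
  obtain ⟨j, hj⟩ := Finset.card_le_one_iff_subset_singleton.1 hB
  have h1 : SS ℤ M σ = C ((SS ℤ M σ).coeff j) * T j := by
    refine LaurentPolynomial.ext fun x => ?_
    rw [← single_eq_C_mul_T, AddMonoidAlgebra.coeff_single, Finsupp.single_apply]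
    by_cases hx : j = x
    · rw [if_pos hx, hx]
    · rw [if_neg hx]
      by_contra h2
      exact hx (Finset.mem_singleton.1 (hj (Finsupp.mem_support_iff.2 h2))).symm
  obtain ⟨a, ha⟩ : ∃ a, a = (SS ℤ M σ).coeff j := ⟨_, rfl⟩
  rw [← ha] at h1
  have hfull : SS ℤ M σ = T k * gg ℤ M σ ∅ := by
    have h2 := SS_eq (K := ℤ) M hM σ
    have h3 := Lin.sum_HH M Finset.univ (ph ℤ M) ∅ (Finset.empty_subset _)
      (by rw [Finset.coe_empty]; exact Set.injOn_empty M) (fun c => qu ℤ (σ c))
    have h4 := HH_eq (K := ℤ) M hM σ ∅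
    rw [Finset.card_empty, pow_zero, one_mul] at h4
    have h5 : (Finset.univ.image M).powerset.filter
        (fun F => (∅ : Finset (Fin n)).image M ⊆ F) = (Finset.univ.image M).powerset := by
      rw [Finset.filter_true_of_mem]
      intro F _ v hv
      obtain ⟨i, hi, -⟩ := Finset.mem_image.1 hv
      exact absurd hi (Finset.notMem_empty i)
    rw [h5, h4] at h3
    rw [h3, hk] at h2
    refine mul_left_cancel₀ (pow_ne_zero M.rank dlZ_ne) ?_
    rw [h2]
    ring
  have hgg : gg ℤ M σ ∅ = C a * T (j - k) := by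
    have h2 : T (-k) * (T k * gg ℤ M σ ∅) = T (-k) * (C a * T j) := by rw [← hfull, h1]
    rw [← mul_assoc, ← T_add, neg_add_cancel, T_zero, one_mul] at h2
    rw [h2, sub_eq_add_neg, T_add]
    ring
  have hev : a = 1 ∨ a = -1 := by
    have h2 := evZ_gg M hM σ ∅
    have h3 : crk (remM M (Finset.univ \ (∅ : Finset (Fin n)))) = 0 := by
      unfold crk
      rw [Submodule.finrank_eq_zero, LinearMap.ker_eq_bot']
      intro x hx
      rw [Matrix.mulVecLin_apply] at hx
      funext i
      have h4 := congrFun hx i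
      rwa [rest_mulVec' M ∅ x i (Finset.notMem_empty i)] at h4
    rw [h3, pow_zero, mul_one, Finset.card_empty, pow_zero, one_mul, hgg, map_mul, evZ_T,
      mul_one] at h2
    have h5 : evZ (C a) = a := by
      unfold evZ
      rw [eval₂_C]
      rfl
    rw [h5] at h2
    rw [h2]
    exact neg_one_pow_eq_or ℤ _
  refine ⟨j - k, ?_⟩
  rw [hgg]
  rcases hev with h | h
  · left
    rw [h, map_one, one_mul]
  · right
    rw [h, map_neg, map_one, neg_one_mul]

/-- the diagram `D_J` has the bracket of a trivial link -/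
theorem trivial_close (D : GaussDiagram n) (S : Finset (Fin n)) (hS : Transversal D.Interlaced S)
    (J : Finset (Fin n)) (hJ : J ⊆ S) (Cyc : Finset (Fin n) → Prop)
    (hblock : Block S Cyc (row (Graph_R D.Interlaced D.sign)))
    (hpos : ∀ L L', Close S Cyc (cutTwist D.Interlaced D.sign) (6 * (S.card + 1)) L L' →
      L ∩ J = ∅ → L' ∩ J = ∅)
    (h1 : terms D.normalizedBracket ≤ 1) : IsTrivial (cutBracketO D J) J.card := by
  have hone := close_one D S hS J hJ Cyc hblock hpos h1
  obtain ⟨m, hm⟩ := one_term (D.gmat (cutState D.Interlaced D.sign)) (D.gmat_symm _)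
    (cutState D.Interlaced D.sign) (card_SSZ D _ 1 h1)
  obtain ⟨k, u, hu, hk⟩ := cutBracketO_eq D J
  rw [hone] at hk
  refine ⟨k + m, ?_⟩
  rw [hk]
  have hd : (-T 2 - T (-2) : ℤ[T;T⁻¹]) = dl ℤ := rfl
  rw [hd, T_add]
  rcases hu with rfl | rfl <;> rcases hm with hm | hm <;> rw [hm]
  · left
    ring
  · right
    ring
  · right
    ring
  · left
    ring

theorem cutBracket_eq (hn : 0 < n) (g : GaussJones.Code n) (e : Fin n → Bool)
    (J : Finset (Fin n)) : cutBracket g e J = cutBracketO (cutOpen g e) J := by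
  classical
  have hcuts : ∀ s, Cuts g J (swE e s) ↔ CutsO (cutOpen g e) J s := by
    intro s
    unfold Cuts CutsO
    rw [interlaced_fun]
    refine forall₂_congr fun i _ => ?_
    show (s i == e i) = cutAll (GaussJones.Interlaced g) i ↔
      s i = cutState (GaussJones.Interlaced g) e i
    unfold cutAll cutState
    by_cases h : ∃ j, Twins (GaussJones.Interlaced g) i j ∧ GaussJones.Interlaced g i j
    · rw [if_pos h, if_pos h]
      cases s i <;> cases e i <;> decide
    · rw [if_neg h, if_neg h]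
      cases s i <;> cases e i <;> decide
  unfold cutBracket cutBracketO
  rw [← (swE e).sum_comp]
  refine Finset.sum_congr rfl fun s _ => ?_
  by_cases h2 : CutsO (cutOpen g e) J s
  · rw [if_pos ((hcuts s).2 h2), if_pos h2, T_stateSign]
    have h3 : GaussJones.loops g (swE e s) = (cutOpen g e).comps s := loops_closed hn g e s
    have h4 : (-(T 2 + T (-2)) : ℤ[T;T⁻¹]) = -T 2 - T (-2) := by ring
    rw [h3, h4]
    congr 1
    refine Finset.prod_congr rfl fun i _ => ?_
    show (if (s i == e i) = e i then _ else _) = _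
    unfold al
    cases s i <;> cases e i <;> rfl
  · rw [if_neg fun h => h2 ((hcuts s).1 h), if_neg h2]

/-- **Knotoid diagrams**: if `f` has one term then `D_J` has the bracket of a trivial link -/
theorem knotoidTriv (D : GaussDiagram n) (S : Finset (Fin n)) (hS : Transversal D.Interlaced S)
    (J : Finset (Fin n)) (hJ : J ⊆ S)
    (hpos : ∀ L L', Close S (HasCycleInO D ∅) (cutTwist D.Interlaced D.sign)
      (6 * (S.card + 1)) L L' → L ∩ J = ∅ → L' ∩ J = ∅)
    (hl : ¬ IsTrivial (cutBracketO D J) J.card) : 1 < terms D.normalizedBracket := by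
  have hblock := thm_KnotoidBlock n D S S hS (Finset.Subset.refl S)
  rw [Finset.sdiff_self] at hblock
  by_contra h
  exact hl (trivial_close D S hS J hJ _ hblock hpos (not_lt.1 h))

/-- **Knot diagrams**: if `f` has one term then `D_J` has the bracket of a trivial link -/
theorem knotTriv (g : GaussJones.Code n) (e : Fin n → Bool) (hn : 0 < n) (S : Finset (Fin n))
    (hS : Transversal (GaussJones.Interlaced g) S) (J : Finset (Fin n)) (hJ : J ⊆ S)
    (hpos : ∀ L L', Close S (HasCycleIn g ∅) (cutTwist (GaussJones.Interlaced g) e)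
      (6 * (S.card + 1)) L L' → L ∩ J = ∅ → L' ∩ J = ∅)
    (hl : ¬ IsTrivial (cutBracket g e J) J.card) : 1 < terms (GaussJones.fPoly g e) := by
  classical
  have hblock := thm_KnotBlock n g e S S hS (Finset.Subset.refl S)
  rw [Finset.sdiff_self] at hblock
  rw [f_closed hn]
  rw [cutBracket_eq hn] at hl
  rw [← interlaced_fun g e] at hS hpos hblock
  by_contra h
  exact hl (trivial_close (cutOpen g e) S hS J hJ _ hblock hpos (not_lt.1 h))

end Pool.Agent.NHT
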