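import Mathlib
import Pool.Agent.NHT.TrivK
import Pool.Agent.NHT.DefsS

/-!
# NHT, module SmoothK: the bracket of `D ^ (J, U)` (helper11)
-/

set_option autoImplicit false
set_option linter.unusedSectionVars false

open Module Submodule Pool.Agent.UNI LaurentPolynomial Pool.Agent.SPT Pool.Agent.SPT.Rel
  Pool.Agent.SPT.Lin Pool.Agent.SRH Pool.Agent.EQT Pool.Agent.FHP Pool.Agent.TRA Pool.Agent.TRP

namespace Pool.Agent.NHT

open Pool.Agent.Helper16.Knotoid

variable {n : ℕ}

/-- the supports of `f` and of the product with a monomial have the same size -/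
theorem cardZ_mul_T (f : ℤ[T;T⁻¹]) (m : ℤ) :
    f.coeff.support.card ≤ (T m * f).coeff.support.card := by
  have h1 : ∀ j, (T m * f).coeff (m + j) = f.coeff j := by
    intro j
    have h2 := AddMonoidAlgebra.coeff_mul (T m : ℤ[T;T⁻¹]) f (m + j)
    rw [h2]
    unfold LaurentPolynomial.T
    rw [AddMonoidAlgebra.coeff_single, Finsupp.sum_single_index]
    · simp only [add_right_inj, one_mul]
      rw [Finsupp.sum_ite_eq']
      split_ifs with h
      · rfl
      · rw [Finsupp.mem_support_iff, not_not] at h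
        exact h.symm
    · simp
  refine Finset.card_le_card_of_injOn (fun j => m + j) ?_ ?_
  · intro j hj
    rw [Finset.mem_coe, Finsupp.mem_support_iff] at hj ⊢
    rw [h1]
    exact hj
  · intro a _ b _ h
    exact add_left_cancel h

theorem cardZ_T_mul (f : ℤ[T;T⁻¹]) (m : ℤ) :
    (T m * f).coeff.support.card ≤ f.coeff.support.card := by
  have h1 := cardZ_mul_T (T m * f) (-m)
  rwa [← mul_assoc, ← T_add, neg_add_cancel, T_zero, one_mul] at h1

open Classical in
/-- the crossings which are not in a class of `J` -/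
noncomputable def outside (M : Matrix (Fin n) (Fin n) (ZMod 2)) (J : Finset (Fin n)) : Finset (Fin n) :=
  Finset.univ.filter fun c => M c ∉ J.image M

/-- the reduced state sum of `D ^ (J, U)` -/
noncomputable def rr (M : Matrix (Fin n) (Fin n) (ZMod 2)) (σ : Fin n → Bool)
    (J U : Finset (Fin n)) : ℤ[T;T⁻¹] :=
  ∑ W ∈ (outside M J).powerset, (∏ c ∈ W, al ℤ (σ c) ^ 2) * dl ℤ ^ kap M (U ∪ W)

/-- **The sum over the classes outside of `J`** -/
theorem rr_eq (M : Matrix (Fin n) (Fin n) (ZMod 2)) (hM : ∀ i j, M i j = M j i)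
    (σ : Fin n → Bool) (J U : Finset (Fin n)) (hU : U ⊆ J) (t : ℤ[T;T⁻¹])
    (ht : ∑ B ∈ (Finset.univ.image M \ J.image M).powerset,
      (∏ v ∈ B, (pw M (fun c => qu ℤ (σ c)) Finset.univ v - 1)) * ph ℤ M (U.image M ∪ B) =
        dl ℤ ^ M.rank * t) : rr M σ J U = dl ℤ ^ U.card * t := by
  classical
  have himg : (outside M J).image M = Finset.univ.image M \ J.image M := by
    ext v
    unfold outside
    constructor
    · intro h
      obtain ⟨c, hc, rfl⟩ := Finset.mem_image.1 h
      exact Finset.mem_sdiff.2 ⟨Finset.mem_image_of_mem M (Finset.mem_univ c),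
        (Finset.mem_filter.1 hc).2⟩
    · intro h
      obtain ⟨h1, h2⟩ := Finset.mem_sdiff.1 h
      obtain ⟨c, -, rfl⟩ := Finset.mem_image.1 h1
      exact Finset.mem_image_of_mem M (Finset.mem_filter.2 ⟨Finset.mem_univ c, h2⟩)
  have hpw : ∀ v ∈ Finset.univ.image M \ J.image M,
      pw M (fun c => qu ℤ (σ c)) (outside M J) v = pw M (fun c => qu ℤ (σ c)) Finset.univ v := by
    intro v hv
    unfold pw
    refine Finset.prod_congr ?_ fun _ _ => rfl
    ext c
    unfold outside
    simp only [Finset.mem_filter, Finset.mem_univ, true_and]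
    constructor
    · exact fun h => h.2
    · intro h
      refine ⟨?_, h⟩
      rw [h]
      exact (Finset.mem_sdiff.1 hv).2
  have hm := merge (R := ℤ[T;T⁻¹]) M (fun c => qu ℤ (σ c)) (outside M J)
    (fun V => ph ℤ M (U.image M ∪ V))
  rw [himg] at hm
  have h1 : ∑ B ∈ (Finset.univ.image M \ J.image M).powerset,
      (∏ v ∈ B, (pw M (fun c => qu ℤ (σ c)) (outside M J) v - 1)) * ph ℤ M (U.image M ∪ B) =
      dl ℤ ^ M.rank * t := by
    rw [← ht]
    refine Finset.sum_congr rfl fun B hB => ?_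
    rw [Finset.prod_congr rfl fun v hv => by rw [hpw v (Finset.mem_powerset.1 hB hv)]]
  rw [h1] at hm
  have hdisj : ∀ W ∈ (outside M J).powerset, Disjoint U W := by
    intro W hW
    rw [Finset.disjoint_left]
    intro c hcU hcW
    have h2 := Finset.mem_powerset.1 hW hcW
    unfold outside at h2
    exact (Finset.mem_filter.1 h2).2 (Finset.mem_image_of_mem M (hU hcU))
  refine mul_left_cancel₀ (pow_ne_zero M.rank dlZ_ne) ?_
  have h3 : dl ℤ ^ M.rank * (dl ℤ ^ U.card * t) = dl ℤ ^ U.card * (dl ℤ ^ M.rank * t) := by ring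
  rw [h3, ← hm]
  unfold rr
  rw [Finset.mul_sum, Finset.mul_sum]
  refine Finset.sum_congr rfl fun W hW => ?_
  have h4 : ∏ c ∈ W, (qu ℤ (σ c) - 1) = (∏ c ∈ W, al ℤ (σ c) ^ 2) * dl ℤ ^ W.card := by
    rw [Finset.prod_congr rfl fun c _ => qu_sub (σ c), Finset.prod_mul_distrib,
      Finset.prod_const]
  rw [h4]
  unfold ph
  have h5 : dl ℤ ^ M.rank * dl ℤ ^ kap M (U ∪ W) =
      dl ℤ ^ U.card * dl ℤ ^ W.card * dl ℤ ^ ex M (U.image M ∪ W.image M) := by
    have h6 : U.image M ∪ W.image M = (U ∪ W).image M := (Finset.image_union _ _).symm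
    rw [← pow_add, ← pow_add, ← pow_add, h6, add_comm M.rank,
      kap_ex M hM (U ∪ W), Finset.card_union_of_disjoint (hdisj W hW)]
  calc dl ℤ ^ M.rank * ((∏ c ∈ W, al ℤ (σ c) ^ 2) * dl ℤ ^ kap M (U ∪ W))
      = (∏ c ∈ W, al ℤ (σ c) ^ 2) * (dl ℤ ^ M.rank * dl ℤ ^ kap M (U ∪ W)) := by ring
    _ = _ := by
      rw [h5]
      ring

theorem al_T (b : Bool) : al ℤ b = T (sg b) := by
  unfold al sg
  cases b
  · simp only [Bool.false_eq_true, if_false]
  · simp only [if_true]

/-- the classes and the rows -/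
theorem inClass_iff (D : GaussDiagram n) (J : Finset (Fin n)) (c : Fin n) :
    InClass D.Interlaced J c ↔ D.gmat (cutState D.Interlaced D.sign) c ∈
      J.image (D.gmat (cutState D.Interlaced D.sign)) := by
  classical
  obtain ⟨σ, hσ⟩ : ∃ σ, σ = cutState D.Interlaced D.sign := ⟨_, rfl⟩
  rw [← hσ]
  have hR : Graph_R D.Interlaced D.sign = D.Cut σ := by
    rw [hσ]
    rfl
  have hr : ∀ c, row (Graph_R D.Interlaced D.sign) c = D.gmat σ c := by
    intro c
    rw [hR]
    exact row_eq D σ c
  have hrow : ∀ i, (D.gmat σ c = D.gmat σ i ↔ Twins D.Interlaced c i) := by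
    intro i
    rw [← hr, ← hr]
    exact Graph_row (Graph_irrefl D) (Graph_int_symm D) c i
  constructor
  · rintro ⟨i, hi, h⟩
    rw [(hrow i).2 h]
    exact Finset.mem_image_of_mem _ hi
  · intro h
    obtain ⟨i, hi, h1⟩ := Finset.mem_image.1 h
    exact ⟨i, hi, (hrow i).1 h1.symm⟩

/-- the bracket of `D ^ (J, U)` in terms of the cut matrix -/
theorem smoothO_eq (D : GaussDiagram n) (J U : Finset (Fin n)) (hU : U ⊆ J) :
    ∃ m : ℤ, smoothO D J U = T m * rr (D.gmat (cutState D.Interlaced D.sign))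
      (cutState D.Interlaced D.sign) J U := by
  classical
  have hcl := inClass_iff D J
  obtain ⟨σ, hσ⟩ : ∃ σ, σ = cutState D.Interlaced D.sign := ⟨_, rfl⟩
  rw [← hσ] at hcl
  obtain ⟨R, hR⟩ : ∃ R, R = outside (D.gmat σ) J := ⟨_, rfl⟩
  have hmem : ∀ c, c ∈ R ↔ ¬ InClass D.Interlaced J c := by
    intro c
    rw [hR, hcl c]
    unfold outside
    exact ⟨fun h => (Finset.mem_filter.1 h).2, fun h =>
      Finset.mem_filter.2 ⟨Finset.mem_univ c, h⟩⟩
  have hUcl : ∀ c ∈ U, InClass D.Interlaced J c := fun c hc =>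
    ⟨c, hU hc, fun k _ _ => Iff.rfl⟩
  have hfil : Finset.univ.filter (fun c => ¬ InClass D.Interlaced J c) = R := by
    ext c
    rw [hmem]
    simp only [Finset.mem_filter, Finset.mem_univ, true_and]
  refine ⟨∑ c ∈ R, sg (!σ c), ?_⟩
  unfold smoothO rr
  rw [← hσ, ← hR, hfil, Lin.sum_st' σ, Finset.mul_sum, ← Finset.sum_filter]
  refine Finset.sum_nbij' (fun W => W ∩ R) (fun W => U ∪ W) ?_ ?_ ?_ ?_ ?_
  · intro W _
    exact Finset.mem_powerset.2 Finset.inter_subset_right
  · intro W hW
    rw [Finset.mem_filter]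
    refine ⟨Finset.mem_powerset.2 (Finset.subset_univ _), fun c hc => ?_⟩
    rw [st_iff, Finset.mem_union, or_iff_left_iff_imp]
    intro h
    exact absurd hc ((hmem c).1 (Finset.mem_powerset.1 hW h))
  · intro W hW
    rw [Finset.mem_filter] at hW
    ext c
    rw [Finset.mem_union, Finset.mem_inter]
    constructor
    · rintro (h | h)
      · exact (st_iff σ W c).1 ((hW.2 c (hUcl c h)).2 h)
      · exact h.1
    · intro h
      by_cases hc : InClass D.Interlaced J c
      · exact Or.inl ((hW.2 c hc).1 ((st_iff σ W c).2 h))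
      · exact Or.inr ⟨h, (hmem c).2 hc⟩
  · intro W hW
    ext c
    rw [Finset.mem_inter, Finset.mem_union]
    constructor
    · rintro ⟨h | h, h2⟩
      · exact absurd (hUcl c h) ((hmem c).1 h2)
      · exact h
    · intro h
      exact ⟨Or.inr h, Finset.mem_powerset.1 hW h⟩
  · intro W hW
    rw [Finset.mem_filter] at hW
    have hWU : U ∪ (W ∩ R) = W := by
      ext c
      rw [Finset.mem_union, Finset.mem_inter]
      constructor
      · rintro (h | h)
        · exact (st_iff σ W c).1 ((hW.2 c (hUcl c h)).2 h)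
        · exact h.1
      · intro h
        by_cases hc : InClass D.Interlaced J c
        · exact Or.inl ((hW.2 c hc).1 ((st_iff σ W c).2 h))
        · exact Or.inr ⟨h, (hmem c).2 hc⟩
    rw [hWU, comps_st, Nat.add_sub_cancel]
    have h1 : (T (∑ c ∈ R, if st σ W c then (1 : ℤ) else -1) : ℤ[T;T⁻¹]) =
        T (∑ c ∈ R, sg (!σ c)) * ∏ c ∈ W ∩ R, al ℤ (σ c) ^ 2 := by
      rw [T_sum', T_sum', Finset.inter_comm, ← Finset.prod_ite_mem R W,
        ← Finset.prod_mul_distrib]
      refine Finset.prod_congr rfl fun c _ => ?_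
      rw [← al_T]
      have h2 : (T (if st σ W c then (1 : ℤ) else -1) : ℤ[T;T⁻¹]) = al ℤ (st σ W c) := by
        rw [al_T]
        rfl
      rw [h2]
      unfold st
      by_cases hc : c ∈ W
      · rw [if_pos hc, if_pos hc]
        exact al_not (σ c)
      · rw [if_neg hc, if_neg hc, mul_one]
    rw [h1]
    show _ * dl ℤ ^ kap (D.gmat σ) W = _
    ring

theorem smoothK_eq (hn : 0 < n) (g : GaussJones.Code n) (e : Fin n → Bool)
    (J U : Finset (Fin n)) : smoothK g e J U = smoothO (cutOpen g e) J U := by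
  classical
  have hI := interlaced_fun g e
  have hcut : ∀ s : Fin n → Bool, ∀ i, ((swE e s) i = cutAll (GaussJones.Interlaced g) i ↔
      s i = cutState (GaussJones.Interlaced g) e i) := by
    intro s i
    show (s i == e i) = cutAll (GaussJones.Interlaced g) i ↔
      s i = cutState (GaussJones.Interlaced g) e i
    unfold cutAll cutState
    by_cases h : ∃ j, Twins (GaussJones.Interlaced g) i j ∧ GaussJones.Interlaced g i j
    · rw [if_pos h, if_pos h]
      cases s i <;> cases e i <;> decide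
    · rw [if_neg h, if_neg h]
      cases s i <;> cases e i <;> decide
  unfold smoothK smoothO
  rw [hI, ← (swE e).sum_comp]
  refine Finset.sum_congr rfl fun s _ => ?_
  have hc : (∀ c, InClass (GaussJones.Interlaced g) J c →
      ((swE e s) c = cutAll (GaussJones.Interlaced g) c ↔ c ∈ U)) ↔
      ∀ c, InClass (GaussJones.Interlaced g) J c →
        (s c = cutState (GaussJones.Interlaced g) (cutOpen g e).sign c ↔ c ∈ U) := by
    refine forall₂_congr fun c _ => ?_
    rw [hcut s c]
    rfl
  by_cases h2 : ∀ c, InClass (GaussJones.Interlaced g) J c →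
        (s c = cutState (GaussJones.Interlaced g) (cutOpen g e).sign c ↔ c ∈ U)
  · rw [if_pos (hc.2 h2), if_pos h2, T_sum']
    have h3 : GaussJones.loops g (swE e s) = (cutOpen g e).comps s := loops_closed hn g e s
    have h4 : (-(T 2 + T (-2)) : ℤ[T;T⁻¹]) = -T 2 - T (-2) := by ring
    rw [h3, h4]
    congr 1
    refine Finset.prod_congr rfl fun i _ => ?_
    show (if (s i == e i) = e i then _ else _) = _
    cases s i <;> cases e i <;> rfl
  · rw [if_neg fun h => h2 (hc.1 h), if_neg h2]

end Pool.Agent.NHT
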