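import Mathlib
import Pool.Agent.NHT.Smooth
import Pool.Agent.NHT.SmoothK

/-!
# NHT, module SmoothF: smoothing the classes of `J` does not increase the number of terms (helper11)
-/

set_option autoImplicit false
set_option linter.unusedSectionVars false

open Module Submodule Pool.Agent.UNI LaurentPolynomial Pool.Agent.SPT Pool.Agent.SPT.Rel
  Pool.Agent.SPT.Lin Pool.Agent.SRH Pool.Agent.EQT Pool.Agent.FHP Pool.Agent.TRA Pool.Agent.TRP

namespace Pool.Agent.NHT

open Pool.Agent.Helper16.Knotoid

variable {n : ℕ}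

/-- **The bracket of `D ^ (J, U)`** -/
theorem smooth_close (D : GaussDiagram n) (S : Finset (Fin n)) (hS : Transversal D.Interlaced S)
    (J : Finset (Fin n)) (hJ : J ⊆ S) (U : Finset (Fin n)) (hU : U ⊆ J)
    (Cyc : Finset (Fin n) → Prop) (hblock : Block S Cyc (row (Graph_R D.Interlaced D.sign)))
    (B : ℕ)
    (hc : ∀ L L', Close S Cyc (cutTwist D.Interlaced D.sign) (2 * (B + 2) * (S.card + 1)) L L' →
      L ∩ U = ∅ → L ∩ J = L' ∩ J)
    (hB : terms D.normalizedBracket ≤ B) :
    ∃ t : ℤ[T;T⁻¹], terms t ≤ terms D.normalizedBracket ∧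
      smoothO D J U = (-T 2 - T (-2)) ^ U.card * t := by
  classical
  have har : (fun i => twist (Graph_R D.Interlaced D.sign) (cutState D.Interlaced D.sign)
      (row (Graph_R D.Interlaced D.sign) i)) = cutTwist D.Interlaced D.sign :=
    funext fun i => twist_row (Graph_irrefl D) (Graph_int_symm D) i
  rw [← har] at hc
  obtain ⟨m, hm⟩ := smoothO_eq D J U hU
  obtain ⟨σ, hσ⟩ : ∃ σ, σ = cutState D.Interlaced D.sign := ⟨_, rfl⟩
  rw [← hσ] at hm
  have hR : Graph_R D.Interlaced D.sign = D.Cut σ := by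
    rw [hσ]
    rfl
  have hr : ∀ c, row (Graph_R D.Interlaced D.sign) c = D.gmat σ c := by
    intro c
    rw [hR]
    exact row_eq D σ c
  have hr' : row (Graph_R D.Interlaced D.sign) = fun c => D.gmat σ c := funext hr
  have hrows : S.image (row (Graph_R D.Interlaced D.sign)) =
      (Finset.univ.image (D.gmat σ)).erase 0 := by
    rw [← Graph_image (Graph_irrefl D) (Graph_int_symm D) hS]
    unfold rows
    rw [hr']
  have htw : ∀ v, twist (Graph_R D.Interlaced D.sign) σ v = tw (D.gmat σ) σ v := by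
    intro v
    unfold twist tw SPT.signedCount
    refine Finset.sum_congr ?_ fun _ _ => rfl
    ext c
    simp only [Finset.mem_filter, Finset.mem_univ, true_and, hr]
  have hinjS : Set.InjOn (row (Graph_R D.Interlaced D.sign)) (S : Set (Fin n)) :=
    Graph_inj (e := D.sign) (Graph_irrefl D) (Graph_int_symm D) hS
  have hrank : (D.gmat σ).rank ≤ S.card := by
    have h1 := SRH.rank_le D σ
    rw [← hR, Graph_image (Graph_irrefl D) (Graph_int_symm D) hS] at h1
    exact h1.trans Finset.card_image_le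
  -- the cycle set of a flat
  have hcyc : ∀ F ∈ FL (D.gmat σ), S.filter (fun i => row (Graph_R D.Interlaced D.sign) i ∉ F) ⊆ S ∧
      CycleSet Cyc (S.filter fun i => row (Graph_R D.Interlaced D.sign) i ∉ F) ∧
      (∑ i ∈ S.filter (fun i => row (Graph_R D.Interlaced D.sign) i ∉ F),
        twist (Graph_R D.Interlaced D.sign) (cutState D.Interlaced D.sign)
          (row (Graph_R D.Interlaced D.sign) i) =
        ∑ v ∈ Finset.univ.image (D.gmat σ), tw (D.gmat σ) σ v - ∑ v ∈ F, tw (D.gmat σ) σ v) := by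
    intro F hF
    unfold FL at hF
    rw [Finset.mem_filter, Finset.mem_powerset] at hF
    refine ⟨Finset.filter_subset _ _, ?_, ?_⟩
    · intro i hi
      rw [Finset.mem_filter] at hi
      refine Block.inCycle hblock F ?_ i hi.1 hi.2
      intro v hv hs
      refine hF.2 v ?_ hs
      rw [hrows] at hv
      exact (Finset.mem_erase.1 hv).2
    · have h1 := sum_out S _ hinjS _ F hrows hF.1 (fun h => hF.2 0 h (zero_mem _))
        (tw (D.gmat σ) σ)
      rw [← h1]
      refine Finset.sum_congr rfl fun i _ => ?_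
      rw [← hσ]
      exact htw _
  obtain ⟨t, ht1, ht2⟩ := smooth_ab ℤ (D.gmat σ) (D.gmat_symm σ) σ
    (terms D.normalizedBracket) (card_SSZ D σ _ le_rfl) (J.image (D.gmat σ))
    (U.image (D.gmat σ)) (Finset.image_subset_image (Finset.subset_univ J))
    (Finset.image_subset_image hU) (by
    intro F hF F' hF' h hUF
    obtain ⟨h1, h2, h3⟩ := hcyc F hF
    obtain ⟨h1', h2', h3'⟩ := hcyc F' hF'
    have hcl := hc _ _ ⟨h1, h1', h2, h2', by
      have h6 : ∑ i ∈ S.filter (fun i => row (Graph_R D.Interlaced D.sign) i ∉ F),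
          (fun i => twist (Graph_R D.Interlaced D.sign) (cutState D.Interlaced D.sign)
            (row (Graph_R D.Interlaced D.sign) i)) i -
          ∑ i ∈ S.filter (fun i => row (Graph_R D.Interlaced D.sign) i ∉ F'),
          (fun i => twist (Graph_R D.Interlaced D.sign) (cutState D.Interlaced D.sign)
            (row (Graph_R D.Interlaced D.sign) i)) i =
          -(∑ v ∈ F, tw (D.gmat σ) σ v - ∑ v ∈ F', tw (D.gmat σ) σ v) := by
        show (∑ i ∈ _, twist (Graph_R D.Interlaced D.sign) (cutState D.Interlaced D.sign)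
            (row (Graph_R D.Interlaced D.sign) i)) - (∑ i ∈ _, twist
            (Graph_R D.Interlaced D.sign)
            (cutState D.Interlaced D.sign) (row (Graph_R D.Interlaced D.sign) i)) = _
        rw [h3, h3']
        ring
      rw [h6, abs_neg]
      refine h.trans_le ?_
      have h7 : 2 * (terms D.normalizedBracket + 2) * ((D.gmat σ).rank + 1) ≤
          2 * (B + 2) * (S.card + 1) :=
        Nat.mul_le_mul (by omega) (by omega)
      have h8 : ((2 * (terms D.normalizedBracket + 2) * ((D.gmat σ).rank + 1) : ℕ) : ℤ) ≤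
          ((2 * (B + 2) * (S.card + 1) : ℕ) : ℤ) := by exact_mod_cast h7
      push_cast at h8 ⊢
      exact h8⟩ (by
      rw [Finset.eq_empty_iff_forall_notMem]
      intro i hi
      rw [Finset.mem_inter, Finset.mem_filter, hr] at hi
      exact hi.1.2 (hUF (Finset.mem_image_of_mem _ hi.2)))
    have hiff : ∀ i ∈ J, (D.gmat σ i ∈ F ↔ D.gmat σ i ∈ F') := by
      intro i hi
      have h4 : i ∈ S.filter (fun i => row (Graph_R D.Interlaced D.sign) i ∉ F) ∩ J ↔
          i ∈ S.filter (fun i => row (Graph_R D.Interlaced D.sign) i ∉ F') ∩ J := by rw [hcl]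
      rw [Finset.mem_inter, Finset.mem_filter, Finset.mem_inter, Finset.mem_filter, hr] at h4
      constructor
      · intro h5
        by_contra h6
        exact (h4.2 ⟨⟨hJ hi, h6⟩, hi⟩).1.2 h5
      · intro h5
        by_contra h6
        exact (h4.1 ⟨⟨hJ hi, h6⟩, hi⟩).1.2 h5
    ext v
    rw [Finset.mem_inter, Finset.mem_inter]
    constructor
    · rintro ⟨h5, h6⟩
      obtain ⟨i, hi, rfl⟩ := Finset.mem_image.1 h6
      exact ⟨(hiff i hi).1 h5, h6⟩
    · rintro ⟨h5, h6⟩
      obtain ⟨i, hi, rfl⟩ := Finset.mem_image.1 h6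
      exact ⟨(hiff i hi).2 h5, h6⟩)
  have hrr := rr_eq (D.gmat σ) (D.gmat_symm σ) σ J U hU t ht2
  refine ⟨T m * t, (cardZ_T_mul t m).trans ht1, ?_⟩
  rw [hm, hrr]
  show T m * ((-T 2 - T (-2)) ^ U.card * t) = _
  ring

/-- **Smoothing does not increase the number of terms, knotoid diagrams** -/
theorem knotoidSmooth (D : GaussDiagram n) (S : Finset (Fin n)) (hS : Transversal D.Interlaced S)
    (J : Finset (Fin n)) (hJ : J ⊆ S) (U : Finset (Fin n)) (hU : U ⊆ J) (B : ℕ)
    (hc : ∀ L L', Close S (HasCycleInO D ∅) (cutTwist D.Interlaced D.sign)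
      (2 * (B + 2) * (S.card + 1)) L L' → L ∩ U = ∅ → L ∩ J = L' ∩ J)
    (hB : terms D.normalizedBracket ≤ B) :
    ∃ t : ℤ[T;T⁻¹], terms t ≤ terms D.normalizedBracket ∧
      smoothO D J U = (-T 2 - T (-2)) ^ U.card * t := by
  have hblock := thm_KnotoidBlock n D S S hS (Finset.Subset.refl S)
  rw [Finset.sdiff_self] at hblock
  exact smooth_close D S hS J hJ U hU _ hblock B hc hB

/-- **Smoothing does not increase the number of terms, knot diagrams** -/
theorem knotSmooth (g : GaussJones.Code n) (e : Fin n → Bool) (hn : 0 < n) (S : Finset (Fin n))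
    (hS : Transversal (GaussJones.Interlaced g) S) (J : Finset (Fin n)) (hJ : J ⊆ S)
    (U : Finset (Fin n)) (hU : U ⊆ J) (B : ℕ)
    (hc : ∀ L L', Close S (HasCycleIn g ∅) (cutTwist (GaussJones.Interlaced g) e)
      (2 * (B + 2) * (S.card + 1)) L L' → L ∩ U = ∅ → L ∩ J = L' ∩ J)
    (hB : terms (GaussJones.fPoly g e) ≤ B) :
    ∃ t : ℤ[T;T⁻¹], terms t ≤ terms (GaussJones.fPoly g e) ∧
      smoothK g e J U = (-T 2 - T (-2)) ^ U.card * t := by
  classical
  have hblock := thm_KnotBlock n g e S S hS (Finset.Subset.refl S)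
  rw [Finset.sdiff_self] at hblock
  rw [f_closed hn] at hB ⊢
  rw [smoothK_eq hn]
  rw [← interlaced_fun g e] at hS hc hblock
  exact smooth_close (cutOpen g e) S hS J hJ U hU _ hblock B hc hB

end Pool.Agent.NHT
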