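import Pool.Agent.NHT.UVec
import Pool.Agent.NHT.Near

/-!
# NHT, module ULong: integer weights for long classes (helper19)
-/

set_option autoImplicit false
set_option linter.unusedSectionVars false

namespace Pool.Agent.NHT

open Pool.Agent.SPT Pool.Agent.SPT.Rel Pool.Agent.SPT.Lin Pool.Agent.SRH Pool.Agent.TRA
open Pool.Agent.TRP

variable {ι V : Type} [DecidableEq ι] [DecidableEq V] [AddCommGroup V] [Module (ZMod 2) V]

/-- **Integers which respect the close cycle sets and follow the twist numbers** -/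
theorem exists_respects (S J : Finset ι) (CycS : Finset ι → Prop) (a : ι → ℤ)
    (N T : ℕ) (hN : 1 ≤ N)
    (hT : T = (J.card + 1).factorial * (N + ∑ j ∈ S \ J, (a j).natAbs)) :
    ∃ u : ι → ℤ, Respects S J CycS a N u ∧ (∀ K ⊆ J, ∀ K' ⊆ J,
      ∑ i ∈ K, u i = ∑ i ∈ K', u i → |∑ i ∈ K, a i - ∑ i ∈ K', a i| < T) ∧
      ∀ i ∈ J, (T : ℤ) ≤ |a i| → u i ≠ 0 := by
  classical
  obtain ⟨s, hs⟩ : ∃ s : ℕ, s = ∑ j ∈ S \ J, (a j).natAbs := ⟨_, rfl⟩
  rw [← hs] at hT
  obtain ⟨u, hu, hF, hsg, -⟩ := exists_follows_near J a (N + s) T (by omega) (by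
    rw [hT]
    exact folK_le _ _ _ le_rfl (by omega))
  refine ⟨u, ?_, ?_, ?_⟩
  · intro L L' hLL
    obtain ⟨hL, hL', -, -, hd⟩ := hLL
    have hJL : L ∩ J ⊆ J := Finset.inter_subset_right
    have hJL' : L' ∩ J ⊆ J := Finset.inter_subset_right
    have h1 := hu (di (L ∩ J) (L' ∩ J)) ⟨fun v => ?_, fun v hv => ?_, ?_⟩
    · have h2 := sum_di J (L ∩ J) (L' ∩ J) hJL hJL' u
      simp only [Int.cast_id] at h2
      rw [h2] at h1
      omega
    · unfold di
      by_cases h1 : v ∈ L ∩ J <;> by_cases h2 : v ∈ L' ∩ J <;> simp [h1, h2]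
    · unfold di
      rw [if_neg fun h => hv (hJL h), if_neg fun h => hv (hJL' h), sub_self]
    · have h2 := sum_di J (L ∩ J) (L' ∩ J) hJL hJL' a
      simp only [Int.cast_id] at h2
      have h3 : ∑ v ∈ J, di (L ∩ J) (L' ∩ J) v * a v =
          ∑ i ∈ L ∩ J, a i - ∑ i ∈ L' ∩ J, a i := by
        rw [← h2]
        exact Finset.sum_congr rfl fun v _ => mul_comm _ _
      rw [h3]
      have h4 : ∀ P ⊆ S, ∑ i ∈ P, a i = ∑ i ∈ P ∩ J, a i + ∑ i ∈ P \ J, a i := by
        intro P _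
        exact (Finset.sum_inter_add_sum_sdiff P J a).symm
      have h5 : |∑ i ∈ L \ J, a i - ∑ i ∈ L' \ J, a i| ≤ (s : ℤ) := by
        have h6 : ∑ i ∈ L \ J, a i - ∑ i ∈ L' \ J, a i =
            ∑ i ∈ S \ J, ((if i ∈ L then a i else 0) - if i ∈ L' then a i else 0) := by
          rw [Finset.sum_sub_distrib, ← Finset.sum_filter, ← Finset.sum_filter]
          congr 1
          · refine Finset.sum_congr ?_ fun _ _ => rfl
            ext i
            simp only [Finset.mem_sdiff, Finset.mem_filter]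
            exact ⟨fun h => ⟨⟨hL h.1, h.2⟩, h.1⟩, fun h => ⟨h.2, h.1.2⟩⟩
          · refine Finset.sum_congr ?_ fun _ _ => rfl
            ext i
            simp only [Finset.mem_sdiff, Finset.mem_filter]
            exact ⟨fun h => ⟨⟨hL' h.1, h.2⟩, h.1⟩, fun h => ⟨h.2, h.1.2⟩⟩
        rw [h6, hs]
        push_cast
        refine (Finset.abs_sum_le_sum_abs _ _).trans (Finset.sum_le_sum fun i _ => ?_)
        by_cases h7 : i ∈ L <;> by_cases h8 : i ∈ L' <;> simp [h7, h8]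
      rw [h4 L hL, h4 L' hL'] at hd
      push_cast
      rw [abs_lt] at hd ⊢
      rw [abs_le] at h5
      constructor <;> omega
  · intro K hK K' hK' he
    by_contra h1
    exact (hF K hK K' hK').1 (not_lt.1 h1) he
  · intro i hi h1 h2
    have h3 := hsg i hi h1
    rw [h2, mul_zero] at h3
    exact lt_irrefl _ h3

/-- **The form with `T` is a special case** -/
theorem long_u (S J : Finset ι) (CycS Cyc : Finset ι → Prop) (w : ι → V)
    (a : ι → ℤ) (N T : ℕ) (hN : 1 ≤ N)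
    (hmono : ∀ P P', P ⊆ P' → P' ⊆ J → Cyc P → Cyc P')
    (hT : T = (J.card + 1).factorial * (N + ∑ j ∈ S \ J, (a j).natAbs))
    (h : ∃ p : ι → ℕ, Splits J Cyc p ∧ ∀ q, GoodBlock10 J Cyc w a p T q) :
    UCriterion S J CycS Cyc w a N := by
  classical
  obtain ⟨u, hu, hF, hne⟩ := exists_respects S J CycS a N T hN hT
  obtain ⟨p, hp, hq⟩ := h
  refine ⟨u, hu, p, hp, fun q => ?_⟩
  obtain ⟨Q, hQ⟩ : ∃ Q : Finset ι, Q = J.filter fun i => p i = q := ⟨_, rfl⟩
  have hQJ : Q ⊆ J := by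
    rw [hQ]
    exact Finset.filter_subset _ _
  have hclose : ∀ L L', SameSum Q Cyc u L L' → Close Q Cyc a T L L' := by
    rintro L L' ⟨h1, h2, h3, h4, h5⟩
    exact ⟨h1, h2, h3, h4, hF L (h1.trans hQJ) L' (h2.trans hQJ) h5⟩
  have h1 := hq q
  unfold GoodBlock10 at h1
  unfold GoodBlockU
  rw [← hQ] at h1 ⊢
  rcases h1 with ⟨h1, h2⟩ | ⟨s, hs, hs'⟩ | ⟨O, hO, hev, hone, hlong⟩ | ⟨ψ, hψ, hψ0⟩
  · refine Or.inl ⟨fun h3 => h1 (hmono _ _ ?_ (Finset.filter_subset _ _) h3), ?_⟩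
    · intro i hi
      rw [Finset.mem_filter, hQ, Finset.mem_filter] at hi
      refine Finset.mem_filter.2 ⟨hi.1.1, hi.1.2, ?_⟩
      by_contra h4
      exact hne i hi.1.1 (not_lt.1 h4) hi.2
    · rcases h2 with h2 | h2
      · exact Or.inl h2
      · refine Or.inr ?_
        rintro ⟨L, L', hL, hli⟩
        refine h2 ⟨L, L', fun j => ?_, hli⟩
        rw [← hQ]
        exact hclose _ _ (hL j)
  · rw [← hQ] at hs hs'
    refine Or.inr (Or.inl ?_)
    obtain ⟨A, hA⟩ : ∃ A, A = Q.powerset.filter fun Z => CycleUnion Cyc Z ∧ ∑ i ∈ Z, a i = s :=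
      ⟨_, rfl⟩
    have hs1 : Odd A.card := by
      rw [hA]
      exact hs
    have h3 : ∃ c ∈ A.image (fun Z => ∑ i ∈ Z, u i),
        Odd (A.filter fun Z => ∑ i ∈ Z, u i = c).card := by
      by_contra hno
      push Not at hno
      rw [Finset.card_eq_sum_card_image (fun Z => ∑ i ∈ Z, u i) A] at hs1
      refine (Nat.not_odd_iff_even.2 (Finset.even_sum _ fun c hc => ?_)) hs1
      exact Nat.not_odd_iff_even.1 (hno c hc)
    obtain ⟨c, hc, hodd⟩ := h3
    obtain ⟨Z₀, hZ₀, hc0⟩ := Finset.mem_image.1 hc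
    rw [hA, Finset.mem_filter, Finset.mem_powerset] at hZ₀
    refine ⟨c, ?_⟩
    have h4 : (A.filter fun Z => ∑ i ∈ Z, u i = c) =
        Q.powerset.filter fun Z => CycleUnion Cyc Z ∧ ∑ i ∈ Z, u i = c := by
      ext Z
      rw [hA, Finset.mem_filter, Finset.mem_filter, Finset.mem_filter, Finset.mem_powerset]
      constructor
      · rintro ⟨⟨h4, h5, -⟩, h6⟩
        exact ⟨h4, h5, h6⟩
      · rintro ⟨h4, h5, h6⟩
        refine ⟨⟨h4, h5, ?_⟩, h6⟩
        by_contra h7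
        have h8 := hs' Z h4 h5 h7
        have h9 := hF Z (h4.trans hQJ) Z₀ (hZ₀.1.trans hQJ) (h6.trans hc0.symm)
        rw [hZ₀.2.2] at h9
        omega
    rw [← h4]
    exact hodd
  · rw [← hQ] at hO hev hone hlong
    refine Or.inr (Or.inr (Or.inl ⟨O, hO, fun L L' hLL => hev L L' (hclose L L' hLL), hone,
      fun h3 => hlong (hmono _ _ ?_ ((Finset.filter_subset _ _).trans
        (Finset.sdiff_subset.trans hQJ)) h3)⟩))
    intro i hi
    rw [Finset.mem_filter] at hi ⊢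
    refine ⟨hi.1, ?_⟩
    by_contra h4
    exact hne i (hQJ (Finset.mem_sdiff.1 hi.1).1) (not_lt.1 h4) hi.2
  · refine Or.inr (Or.inr (Or.inr ⟨ψ, fun L L' hLL => ?_, hψ0⟩))
    have h3 := hψ L L' (hclose L L' hLL)
    rw [Finset.inter_eq_left.2 hLL.1, Finset.inter_eq_left.2 hLL.2.1] at h3
    exact h3

/-- **Long classes in small blocks** -/
theorem LongBlocks.ucriterion {S J : Finset ι} {Cyc : Finset ι → Prop} {r : ι → V}
    (hB : Block J Cyc r) {a : ι → ℤ} {N : ℕ} (hN : 1 ≤ N) (CycS : Finset ι → Prop)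
    (h : LongBlocks S J Cyc r a N) : UCriterion S J CycS Cyc r a N := by
  obtain ⟨p, hp, hq⟩ := h
  refine long_u S J CycS Cyc r a N _ hN (fun P P' hPP hP hc => ?_) rfl
    ⟨p, hp, fun q => Or.inl ⟨(hq q).2, Or.inl (hq q).1⟩⟩
  by_contra hno
  exact OCY.cyc_mono hB hPP hP hno hc

end Pool.Agent.NHT
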