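import Pool.Agent.NHT.Defs14
import Pool.Agent.NHT.ULong
import Pool.Agent.NHT.Parity
import Pool.Agent.NHT.Cases
import Pool.Agent.NHT.IsoF
import Pool.Agent.NHT.KnotE
import Pool.Agent.NHT.SmoothF

/-!
# NHT, version 14, module Final14: the criteria (helper38)
-/

set_option autoImplicit false
set_option linter.unusedSectionVars false

open Submodule LaurentPolynomial Module

namespace Pool.Agent.NHT

open Pool.Agent.SPT Pool.Agent.SPT.Rel Pool.Agent.EQT Pool.Agent.FHP Pool.Agent.Helper16.Knotoid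
open Pool.Agent.TRA Pool.Agent.TRP

section

variable {ι V : Type} [DecidableEq ι] [DecidableEq V] [AddCommGroup V] [Module (ZMod 2) V]

/-- if all classes are loops then all sets are cycle sets -/
theorem loops_cycles {J : Finset ι} {Cyc : Finset ι → Prop} {r : ι → V} (hB : Block J Cyc r)
    (hl : ∀ i ∈ J, Cyc {i}) {L : Finset ι} (hL : L ⊆ J) : CycleSet Cyc L := by
  intro i hi
  refine ⟨{i}, Finset.singleton_subset_iff.2 hi, Finset.mem_singleton_self i, hl i (hL hi), ?_⟩
  have h1 : ({i} : Finset ι).erase i = ∅ := Finset.erase_singleton i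
  rw [h1, hB.co ∅ (Finset.empty_subset J)]
  unfold Co
  rw [Finset.image_empty, Finset.sdiff_empty]

/-- **long classes with the cycle condition** -/
theorem LongSigned.isol {S J : Finset ι} (hJ : J ⊆ S) {CycS Cyc : Finset ι → Prop}
    {a : ι → ℤ} {N : ℕ} (h : LongSigned S J Cyc a N) : Isolated S J CycS Cyc a N := by
  classical
  obtain ⟨hbig, hc | hc⟩ := h
  · refine long_isolated hJ hbig 1 (Or.inl rfl) fun i hi => ?_
    rw [Finset.mem_filter, one_mul] at hi
    have h1 := hc i hi.1 hi.2
    have h2 : (J.filter fun j => 0 < 1 * a j) = J.filter fun j => 0 < a j :=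
      Finset.filter_congr fun j _ => by rw [one_mul]
    rw [h2]
    exact h1
  · refine long_isolated hJ hbig (-1) (Or.inr rfl) fun i hi => ?_
    rw [Finset.mem_filter] at hi
    have h1 := hc i hi.1 (by have := hi.2; omega)
    have h2 : (J.filter fun j => 0 < -1 * a j) = J.filter fun j => a j < 0 :=
      Finset.filter_congr fun j _ => by constructor <;> intro h <;> omega
    rw [h2]
    exact h1

theorem LongCycles.isol {S : Finset ι} {CycS Cyc : Finset ι → Prop}
    {a : ι → ℤ} {N : ℕ} (h : LongCycles S CycS a N) : Isolated S S CycS Cyc a N := by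
  refine ⟨∅, Finset.empty_subset S, fun i hi => absurd hi (Finset.notMem_empty i), ?_⟩
  rintro L L' ⟨hL, hL', -, hc', hlt⟩ h0
  rw [Finset.inter_eq_left.2 hL] at h0
  rw [Finset.inter_eq_left.2 hL']
  by_contra hne
  have h1 := h L' hL' (Finset.nonempty_iff_ne_empty.2 hne) hc'
  rw [h0, Finset.sum_empty, zero_sub, abs_neg] at hlt
  omega

/-- **all cases are cases of `Separating`** -/
theorem PsiCriterion.separating [Module.Finite (ZMod 2) V] {S J : Finset ι}
    (hJ : J ⊆ S) {CycS Cyc : Finset ι → Prop} {r : ι → V} (hB : Block J Cyc r)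
    (hreg : ∀ Y ⊆ J.image r, TRL.Reg Y) {a : ι → ℤ} {N : ℕ} (hN : 1 ≤ N)
    (h : PsiCriterion S J CycS Cyc r a N) : Separating S J CycS Cyc a N := by
  rcases h with h | h | h | h | h | h | h | h
  · exact ((h.evenOn hJ).weighted (Cyc := Cyc)).separating hB
  · exact (h.isol hJ).separating hB
  · exact h.separating hB
  · exact (h.weighted (Cyc := Cyc)).separating hB
  · exact (h.weighted hB hreg).separating hB
  · exact ((h.ucriterion hB hN CycS).weighted hB hreg).separating hB
  · exact h.separating hB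
  · exact h

end

variable {n : ℕ}

/-- **Criterion (1), knotoid diagrams** -/
theorem knotoidPsi14 (D : GaussDiagram n) (S : Finset (Fin n))
    (hS : Transversal D.Interlaced S) (B : ℕ) (J : Finset (Fin n)) (hJ : J ⊆ S)
    (hne : J.Nonempty) (hdet : ¬ HasCycleInO D ∅ (S \ J) ∨ cutDetO D J ≠ 0)
    (h : PsiCriterion S J (HasCycleInO D ∅) (HasCycleInO D (S \ J))
      (row (D.Cut (cutState D.Interlaced D.sign))) (cutTwist D.Interlaced D.sign)
      (2 * (B + 2) * (S.card + 1))) : B < terms D.normalizedBracket := by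
  classical
  have hd : cutDetO D J ≠ 0 := by
    rcases hdet with h1 | h1
    · exact cutDetO_span D S hS J hJ h1
    · exact h1
  have hrows : J.image (row (Graph_R D.Interlaced D.sign)) ⊆
      rows (D.Cut (cutState D.Interlaced D.sign)) := by
    unfold rows
    exact Finset.image_subset_image (Finset.subset_univ J)
  exact knotoidPsi D S hS J hJ hne hd B (h.separating hJ (thm_KnotoidBlock n D S J hS hJ)
    (fun Y hY => TRL.knotoid_reg D _ Y (hY.trans hrows)) (Nat.succ_le_of_lt (by positivity)))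

/-- **Criterion (1), knot diagrams** -/
theorem knotPsi14 (g : GaussJones.Code n) (e : Fin n → Bool)
    (S : Finset (Fin n)) (hS : Transversal (GaussJones.Interlaced g) S) (B : ℕ)
    (J : Finset (Fin n)) (hJ : J ⊆ S) (hne : J.Nonempty)
    (hdet : ¬ HasCycleIn g ∅ (S \ J) ∨ cutDet g e J ≠ 0)
    (h : PsiCriterion S J (HasCycleIn g ∅) (HasCycleIn g (S \ J))
      (row (GaussJones.Cut g e (cutState (GaussJones.Interlaced g) e)))
      (cutTwist (GaussJones.Interlaced g) e) (2 * (B + 2) * (S.card + 1))) :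
    B < terms (GaussJones.fPoly g e) := by
  classical
  have hn : 0 < n := by
    obtain ⟨i, -⟩ := hne
    exact i.pos
  have hd : cutDet g e J ≠ 0 := by
    rcases hdet with h1 | h1
    · exact cutDet_span hn g e S hS J hJ h1
    · exact h1
  have hrows : J.image (row (Graph_R (GaussJones.Interlaced g) e)) ⊆
      rows (GaussJones.Cut g e (cutState (GaussJones.Interlaced g) e)) := by
    unfold rows
    exact Finset.image_subset_image (Finset.subset_univ J)
  exact knotPsi g e S hS J hJ hne hd B (h.separating hJ (thm_KnotBlock n g e S J hS hJ)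
    (fun Y hY => TRL.knot_reg g e _ Y (hY.trans hrows)) (Nat.succ_le_of_lt (by positivity)))

/-- **Criterion (2), knotoid diagrams**: `D_J` is a knotoid -/
theorem knotoidOdd14 (D : GaussDiagram n) (S : Finset (Fin n))
    (hS : Transversal D.Interlaced S) (B : ℕ) (J : Finset (Fin n)) (hJ : J ⊆ S)
    (hne : J.Nonempty) (hnd : OddDetO D J)
    (h : Long S J (cutTwist D.Interlaced D.sign) (2 * (B + 2) * (S.card + 1)) ∨
      ∃ L₀ ⊆ J, IsolatedAt S J (HasCycleInO D ∅) (cutTwist D.Interlaced D.sign)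
        (2 * (B + 2) * (S.card + 1)) L₀) :
    B < terms D.normalizedBracket := by
  classical
  obtain ⟨hd, hl⟩ := oddDet_O D S hS J hJ hnd
  have hBJ := thm_KnotoidBlock n D S J hS hJ
  have hI : Isolated S J (HasCycleInO D ∅) (HasCycleInO D (S \ J))
      (cutTwist D.Interlaced D.sign) (2 * (B + 2) * (S.card + 1)) := by
    rcases h with h | ⟨L₀, hL₀, h⟩
    · exact long_isolated hJ h 1 (Or.inl rfl) (loops_cycles hBJ hl (Finset.filter_subset _ _))
    · exact ⟨L₀, hL₀, loops_cycles hBJ hl hL₀, h⟩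
  exact knotoidPsi D S hS J hJ hne hd B (hI.separating hBJ)

/-- **Criterion (2), knot diagrams**: `D_J` is a knot -/
theorem knotOdd14 (g : GaussJones.Code n) (e : Fin n → Bool) (S : Finset (Fin n))
    (hS : Transversal (GaussJones.Interlaced g) S) (B : ℕ) (J : Finset (Fin n)) (hJ : J ⊆ S)
    (hne : J.Nonempty) (hnd : OddDet g J)
    (h : Long S J (cutTwist (GaussJones.Interlaced g) e) (2 * (B + 2) * (S.card + 1)) ∨
      ∃ L₀ ⊆ J, IsolatedAt S J (HasCycleIn g ∅) (cutTwist (GaussJones.Interlaced g) e)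
        (2 * (B + 2) * (S.card + 1)) L₀) :
    B < terms (GaussJones.fPoly g e) := by
  classical
  obtain ⟨hd, hl⟩ := oddDet_K g e S hS J hJ hne hnd
  have hBJ := thm_KnotBlock n g e S J hS hJ
  have hI : Isolated S J (HasCycleIn g ∅) (HasCycleIn g (S \ J))
      (cutTwist (GaussJones.Interlaced g) e) (2 * (B + 2) * (S.card + 1)) := by
    rcases h with h | ⟨L₀, hL₀, h⟩
    · exact long_isolated hJ h 1 (Or.inl rfl) (loops_cycles hBJ hl (Finset.filter_subset _ _))
    · exact ⟨L₀, hL₀, loops_cycles hBJ hl hL₀, h⟩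
  exact knotPsi g e S hS J hJ hne hd B (hI.separating hBJ)

/-- **Criterion (4), knotoid diagrams**: the smoothings of the classes in `J` -/
theorem knotoidSmooth14 (D : GaussDiagram n) (S : Finset (Fin n))
    (hS : Transversal D.Interlaced S) (B : ℕ) (J : Finset (Fin n)) (hJ : J ⊆ S)
    (U : Finset (Fin n)) (hU : U ⊆ J)
    (hc : ∀ L L', Close S (HasCycleInO D ∅) (cutTwist D.Interlaced D.sign)
      (2 * (B + 2) * (S.card + 1)) L L' → L ∩ U = ∅ → L ∩ J = L' ∩ J)
    (h : Linked D.Interlaced U ∨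
      ¬ ∃ t : ℤ[T;T⁻¹], terms t ≤ B ∧ smoothO D J U = (-T 2 - T (-2)) ^ U.card * t) :
    B < terms D.normalizedBracket := by
  classical
  rcases h with h | h
  · refine knotoidIsoF D S hS U (hU.trans hJ) B (fun L L' hLL h0 => ?_) h
    have h1 := hc L L' hLL h0
    have h2 : L' ∩ U = L ∩ U := by
      rw [← Finset.inter_eq_right.2 hU, ← Finset.inter_assoc, ← Finset.inter_assoc, h1]
    rw [h2, h0]
  · by_contra hB
    obtain ⟨t, ht, he⟩ := knotoidSmooth D S hS J hJ U hU B hc (not_lt.1 hB)
    exact h ⟨t, ht.trans (not_lt.1 hB), he⟩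

/-- **Criterion (4), knot diagrams**: the smoothings of the classes in `J` -/
theorem knotSmooth14 (g : GaussJones.Code n) (e : Fin n → Bool) (hn : 0 < n)
    (S : Finset (Fin n)) (hS : Transversal (GaussJones.Interlaced g) S) (B : ℕ)
    (J : Finset (Fin n)) (hJ : J ⊆ S) (U : Finset (Fin n)) (hU : U ⊆ J)
    (hc : ∀ L L', Close S (HasCycleIn g ∅) (cutTwist (GaussJones.Interlaced g) e)
      (2 * (B + 2) * (S.card + 1)) L L' → L ∩ U = ∅ → L ∩ J = L' ∩ J)
    (h : Linked (GaussJones.Interlaced g) U ∨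
      ¬ ∃ t : ℤ[T;T⁻¹], terms t ≤ B ∧ smoothK g e J U = (-T 2 - T (-2)) ^ U.card * t) :
    B < terms (GaussJones.fPoly g e) := by
  classical
  rcases h with h | h
  · refine knotIsoF g e S hS U (hU.trans hJ) B (fun L L' hLL h0 => ?_) h
    have h1 := hc L L' hLL h0
    have h2 : L' ∩ U = L ∩ U := by
      rw [← Finset.inter_eq_right.2 hU, ← Finset.inter_assoc, ← Finset.inter_assoc, h1]
    rw [h2, h0]
  · by_contra hB
    obtain ⟨t, ht, he⟩ := knotSmooth g e hn S hS J hJ U hU B hc (not_lt.1 hB)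
    exact h ⟨t, ht.trans (not_lt.1 hB), he⟩

end Pool.Agent.NHT
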