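import Pool.Agent.NHT.Final14
import Pool.Agent.NHT.CompK

/-!
# NHT, version 15, module Final15: the final statement (helper38)
-/

set_option autoImplicit false

open Submodule LaurentPolynomial Module

namespace Pool.Agent.NHT

open Pool.Agent.SPT Pool.Agent.SPT.Rel Pool.Agent.EQT Pool.Agent.FHP Pool.Agent.Helper16.Knotoid
open Pool.Agent.TRA Pool.Agent.TRP

variable {n : ℕ}

/-- **knotoid diagrams** -/
theorem knotoidF15 (D : GaussDiagram n) (S : Finset (Fin n)) (hS : Transversal D.Interlaced S)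
    (B : ℕ)
    (h : (S.Nonempty ∧ LongCycles S (HasCycleInO D ∅) (cutTwist D.Interlaced D.sign)
        (2 * (B + 2) * (S.card + 1))) ∨
      ∃ J ⊆ S, J.Nonempty ∧
        (((¬ HasCycleInO D ∅ (S \ J) ∨ cutDetO D J ≠ 0) ∧
            PsiCriterion S J (HasCycleInO D ∅) (HasCycleInO D (S \ J))
              (row (D.Cut (cutState D.Interlaced D.sign))) (cutTwist D.Interlaced D.sign)
              (2 * (B + 2) * (S.card + 1))) ∨
          ((EvenOn S J (HasCycleInO D ∅) (cutTwist D.Interlaced D.sign)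
              (2 * (B + 2) * (S.card + 1)) ∨
            NearlyEqual S J (cutTwist D.Interlaced D.sign) (2 * (B + 2) * (S.card + 1))) ∧
            2 ≤ changeOneO D J) ∨
          (OddDetO D J ∧ (Long S J (cutTwist D.Interlaced D.sign) (2 * (B + 2) * (S.card + 1)) ∨
            ∃ L₀ ⊆ J, IsolatedAt S J (HasCycleInO D ∅) (cutTwist D.Interlaced D.sign)
              (2 * (B + 2) * (S.card + 1)) L₀)) ∨
          ∃ U ⊆ J, (∀ L L', Close S (HasCycleInO D ∅) (cutTwist D.Interlaced D.sign)
              (2 * (B + 2) * (S.card + 1)) L L' → L ∩ U = ∅ → L ∩ J = L' ∩ J) ∧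
            (Linked D.Interlaced U ∨
              ¬ ∃ t : ℤ[T;T⁻¹], terms t ≤ B ∧ smoothO D J U = (-T 2 - T (-2)) ^ U.card * t))) :
    B < terms D.normalizedBracket ∧ (1 ≤ B → D.normalizedBracket ≠ 1) := by
  classical
  have h1 : B < terms D.normalizedBracket := by
    rcases h with ⟨hne, h⟩ | ⟨J, hJ, hne, ⟨hd, h⟩ | ⟨h, hc⟩ | ⟨hd, h⟩ | ⟨U, hU, hc, h⟩⟩
    · have hc : ¬ HasCycleInO D ∅ (S \ S) := by
        rw [Finset.sdiff_self]
        rintro ⟨Z, ⟨c, -, i, hi, -⟩, -⟩
        exact absurd hi (Finset.notMem_empty i)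
      exact knotoidPsi D S hS S (Finset.Subset.refl S) hne (cutDetO_span D S hS S
        (Finset.Subset.refl S) hc) B (h.isol.separating
          (thm_KnotoidBlock n D S S hS (Finset.Subset.refl S)))
    · exact knotoidPsi14 D S hS B J hJ hne hd h
    · refine knotoidComp D S hS J hJ B ?_ hc
      rcases h with h | h
      · exact h
      · exact h.evenOn hJ
    · exact knotoidOdd14 D S hS B J hJ hne hd h
    · exact knotoidSmooth14 D S hS B J hJ U hU hc h
  exact ⟨h1, ne_one_of_terms h1⟩

/-- **knot diagrams** -/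
theorem knotF15 (g : GaussJones.Code n) (e : Fin n → Bool) (S : Finset (Fin n))
    (hS : Transversal (GaussJones.Interlaced g) S) (B : ℕ)
    (h : (S.Nonempty ∧ LongCycles S (HasCycleIn g ∅) (cutTwist (GaussJones.Interlaced g) e)
        (2 * (B + 2) * (S.card + 1))) ∨
      ∃ J ⊆ S, J.Nonempty ∧
        (((¬ HasCycleIn g ∅ (S \ J) ∨ cutDet g e J ≠ 0) ∧
            PsiCriterion S J (HasCycleIn g ∅) (HasCycleIn g (S \ J))
              (row (GaussJones.Cut g e (cutState (GaussJones.Interlaced g) e)))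
              (cutTwist (GaussJones.Interlaced g) e) (2 * (B + 2) * (S.card + 1))) ∨
          ((EvenOn S J (HasCycleIn g ∅) (cutTwist (GaussJones.Interlaced g) e)
              (2 * (B + 2) * (S.card + 1)) ∨
            NearlyEqual S J (cutTwist (GaussJones.Interlaced g) e)
              (2 * (B + 2) * (S.card + 1))) ∧ 2 ≤ changeOne g J) ∨
          (OddDet g J ∧ (Long S J (cutTwist (GaussJones.Interlaced g) e)
              (2 * (B + 2) * (S.card + 1)) ∨
            ∃ L₀ ⊆ J, IsolatedAt S J (HasCycleIn g ∅) (cutTwist (GaussJones.Interlaced g) e)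
              (2 * (B + 2) * (S.card + 1)) L₀)) ∨
          ∃ U ⊆ J, (∀ L L', Close S (HasCycleIn g ∅) (cutTwist (GaussJones.Interlaced g) e)
              (2 * (B + 2) * (S.card + 1)) L L' → L ∩ U = ∅ → L ∩ J = L' ∩ J) ∧
            (Linked (GaussJones.Interlaced g) U ∨
              ¬ ∃ t : ℤ[T;T⁻¹], terms t ≤ B ∧ smoothK g e J U = (-T 2 - T (-2)) ^ U.card * t))) :
    B < terms (GaussJones.fPoly g e) ∧ (1 ≤ B → GaussJones.fPoly g e ≠ 1) := by
  classical
  have h1 : B < terms (GaussJones.fPoly g e) := by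
    rcases h with ⟨hne, h⟩ | ⟨J, hJ, hne, ⟨hd, h⟩ | ⟨h, hc⟩ | ⟨hd, h⟩ | ⟨U, hU, hc, h⟩⟩
    · have hn : 0 < n := by
        obtain ⟨i, -⟩ := hne
        exact i.pos
      have hc : ¬ HasCycleIn g ∅ (S \ S) := by
        rw [Finset.sdiff_self]
        rintro ⟨Z, ⟨c, -, i, hi, -⟩, -⟩
        exact absurd hi (Finset.notMem_empty i)
      exact knotPsi g e S hS S (Finset.Subset.refl S) hne (cutDet_span hn g e S hS S
        (Finset.Subset.refl S) hc) B (h.isol.separating
          (thm_KnotBlock n g e S S hS (Finset.Subset.refl S)))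
    · exact knotPsi14 g e S hS B J hJ hne hd h
    · refine knotComp g e S hS J hJ B ?_ hc
      rcases h with h | h
      · exact h
      · exact h.evenOn hJ
    · exact knotOdd14 g e S hS B J hJ hne hd h
    · have hn : 0 < n := by
        obtain ⟨i, -⟩ := hne
        exact i.pos
      exact knotSmooth14 g e hn S hS B J hJ U hU hc h
  exact ⟨h1, ne_one_of_terms h1⟩

end Pool.Agent.NHT
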