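import Pool.Agent.NHT.DefsW
import Pool.Agent.NHT.Defs14
import Pool.Agent.NHT.Cases

/-!
# NHT, module TwoAdicI: an isolated trace is a case of the 2-adic criterion (helper46)

If `D_J` has one component, and there is an isolated subset `L₀` of `J` (for instance: all twist numbers
in `J` are long), then the criterion `TwoAdic` holds.
-/

set_option autoImplicit false

namespace Pool.Agent.NHT

variable {ι : Type} [DecidableEq ι]

theorem Close.symm' {S : Finset ι} {CycS : Finset ι → Prop} {a : ι → ℤ} {N : ℕ} {L L' : Finset ι}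
    (h : Close S CycS a N L L') : Close S CycS a N L' L := by
  obtain ⟨h1, h2, h3, h4, h5⟩ := h
  refine ⟨h2, h1, h4, h3, ?_⟩
  rw [abs_sub_comm]
  exact h5

/-- the sum for the indicator function of one set is odd if `c J = 1` -/
theorem twoAdic_odd {J : Finset ι} {c : Finset ι → ℕ} (hc : c J = 1) (L₀ : Finset ι)
    (hL₀ : L₀ ⊆ J) : Odd (∑ L ∈ J.powerset, ∑ X ∈ L.powerset,
      (-1 : ℤ) ^ L.card * (if L = L₀ then 1 else 0) * 2 ^ X.card * (-2) ^ (c (J \ X) - 1)) := by
  classical
  have h1 : ∑ L ∈ J.powerset, ∑ X ∈ L.powerset,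
      (-1 : ℤ) ^ L.card * (if L = L₀ then 1 else 0) * 2 ^ X.card * (-2) ^ (c (J \ X) - 1) =
      ∑ X ∈ L₀.powerset, (-1 : ℤ) ^ L₀.card * 2 ^ X.card * (-2) ^ (c (J \ X) - 1) := by
    rw [Finset.sum_eq_single L₀]
    · refine Finset.sum_congr rfl fun X _ => ?_
      rw [if_pos rfl, mul_one]
    · intro L _ hL
      refine Finset.sum_eq_zero fun X _ => ?_
      rw [if_neg hL, mul_zero, zero_mul, zero_mul]
    · intro h
      exact absurd (Finset.mem_powerset.2 hL₀) h
  rw [h1, ← Finset.insert_erase (Finset.empty_mem_powerset L₀),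
    Finset.sum_insert (Finset.notMem_erase _ _)]
  have h2 : Even (∑ X ∈ L₀.powerset.erase ∅,
      (-1 : ℤ) ^ L₀.card * 2 ^ X.card * (-2) ^ (c (J \ X) - 1)) := by
    refine Finset.even_sum _ fun X hX => ?_
    rw [Finset.mem_erase] at hX
    have h3 : X.card ≠ 0 := fun h => hX.1 (Finset.card_eq_zero.1 h)
    have h4 : Even ((2 : ℤ) ^ X.card) := (even_two).pow_of_ne_zero h3
    exact (h4.mul_left _).mul_right _
  have h5 : Odd ((-1 : ℤ) ^ L₀.card * 2 ^ (∅ : Finset ι).card * (-2) ^ (c (J \ ∅) - 1)) := by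
    rw [Finset.card_empty, pow_zero, mul_one, Finset.sdiff_empty, hc, Nat.sub_self, pow_zero,
      mul_one]
    exact (odd_neg_one).pow
  exact h5.add_even h2

/-- **An isolated subset `L₀` of `J`, where `D_J` has one component, is a case of `TwoAdic`.** -/
theorem TwoAdic.of_isolated {S J : Finset ι} {CycS : Finset ι → Prop} {c : Finset ι → ℕ} {a : ι → ℤ}
    {N : ℕ} (hne : J.Nonempty) (hc : c J = 1) {L₀ : Finset ι} (hL₀ : L₀ ⊆ J)
    (h : IsolatedAt S J CycS a N L₀) : TwoAdic S J CycS c a N := by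
  classical
  refine ⟨fun L => if L = L₀ then 1 else 0, fun L L' hLL => ?_, fun hdvd => ?_⟩
  · by_cases h1 : L ∩ J = L₀
    · have h2 := h L L' hLL h1
      simp only [h1, h2]
    · have h2 : L' ∩ J ≠ L₀ := fun h3 => h1 (h L' L hLL.symm' h3)
      simp only [h1, h2, if_false]
  · have h1 := twoAdic_odd (c := c) hc L₀ hL₀
    have h2 : (2 : ℤ) ∣ 2 ^ J.card := dvd_pow_self 2 (Finset.card_pos.2 hne).ne'
    exact (Int.not_even_iff_odd.2 h1) (even_iff_two_dvd.2 (h2.trans hdvd))

/-- **Long twist numbers: the set of the classes in `J` with a positive twist number is isolated.** -/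
theorem Long.isolatedAt {S J : Finset ι} (hJ : J ⊆ S) {CycS : Finset ι → Prop} {a : ι → ℤ} {N : ℕ}
    (h : Long S J a N) : ∃ L₀ ⊆ J, IsolatedAt S J CycS a N L₀ := by
  obtain ⟨L₀, h1, -, h2⟩ := long_isolated (CycS := CycS) (Cyc := fun C : Finset ι => C.Nonempty) hJ h 1
    (Or.inl rfl) (fun i hi => ⟨{i}, Finset.singleton_subset_iff.2 hi, Finset.mem_singleton_self i,
      Finset.singleton_nonempty i, fun h => by
        rw [Finset.erase_singleton] at h
        exact Finset.not_nonempty_empty h⟩)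
  exact ⟨L₀, h1, h2⟩

/-- **Long twist numbers of `J`, where `D_J` has one component, are a case of `TwoAdic`.** -/
theorem TwoAdic.of_long {S J : Finset ι} (hJ : J ⊆ S) {CycS : Finset ι → Prop} {c : Finset ι → ℕ}
    {a : ι → ℤ} {N : ℕ} (hne : J.Nonempty) (hc : c J = 1) (h : Long S J a N) :
    TwoAdic S J CycS c a N := by
  obtain ⟨L₀, h1, h2⟩ := h.isolatedAt (CycS := CycS) hJ
  exact TwoAdic.of_isolated hne hc h1 h2

end Pool.Agent.NHT
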