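import Mathlib
import Pool.Agent.NHT.TwoAdicK

/-!
# NHT, module WTwo: the exact criterion modulo powers of two, rank form (helper19)
-/

set_option autoImplicit false
set_option linter.unusedSectionVars false

open Module Submodule Pool.Agent.UNI LaurentPolynomial Pool.Agent.SPT Pool.Agent.SPT.Rel
  Pool.Agent.SPT.Lin Pool.Agent.SRH Pool.Agent.EQT Pool.Agent.FHP Pool.Agent.TRA Pool.Agent.TRP

namespace Pool.Agent.NHT

open Pool.Agent.Helper16.Knotoid

variable {n : ℕ}

/-- the sum over the pairs `X ⊆ L ⊆ J` -/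
def wSum {ι : Type} [DecidableEq ι] (J : Finset ι) (ψ : Finset ι → ℤ) (κ : Finset ι → ℕ) : ℤ :=
  ∑ L ∈ J.powerset, ∑ X ∈ L.powerset, (-1) ^ L.card * ψ L * 2 ^ X.card * (-2) ^ κ (J \ X)

open Classical in
/-- **The weighted sum over all sets of rows** -/
theorem w_sum (M : Matrix (Fin n) (Fin n) (ZMod 2)) (hM : ∀ i j, M i j = M j i)
    (σ : Fin n → Bool) (J : Finset (Fin n)) (hinj : Set.InjOn M (J : Set (Fin n)))
    (ψ : Finset (Fin n) → ℤ) :
    (-2 : ℤ) ^ J.card * ∑ F ∈ (Finset.univ.image M).powerset, ψ (outJ M J F) *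
      evZ (Lin.GG M (fun c => qu ℤ (σ c)) Finset.univ (ph ℤ M) F) =
      (-1) ^ n * (-2) ^ M.rank * wSum J ψ fun A => finrank (ZMod 2) (kerS M A) := by
  have h1 : ∑ F ∈ (Finset.univ.image M).powerset, ψ (outJ M J F) *
      evZ (Lin.GG M (fun c => qu ℤ (σ c)) Finset.univ (ph ℤ M) F) =
      ∑ L ∈ J.powerset, ψ L * ∑ B ∈ L.powerset, (-1) ^ B.card * hZ M σ ((J \ L) ∪ B) := by
    have h2 : ∀ L ∈ J.powerset, ψ L * ∑ B ∈ L.powerset, (-1) ^ B.card * hZ M σ ((J \ L) ∪ B) =
        ∑ F ∈ (Finset.univ.image M).powerset, (if outJ M J F = L then ψ L *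
          evZ (Lin.GG M (fun c => qu ℤ (σ c)) Finset.univ (ph ℤ M) F) else 0) := by
      intro L hL
      rw [← part_sum M σ J L hinj (Finset.mem_powerset.1 hL), Finset.mul_sum]
      refine Finset.sum_congr rfl fun F _ => ?_
      rw [mul_ite, mul_zero]
    rw [Finset.sum_congr rfl h2, Finset.sum_comm]
    refine Finset.sum_congr rfl fun F _ => ?_
    rw [Finset.sum_ite_eq, if_pos]
    rw [Finset.mem_powerset]
    exact fun i hi => (mem_outJ.1 hi).1
  rw [h1, Finset.mul_sum]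
  unfold wSum
  rw [Finset.mul_sum]
  refine Finset.sum_congr rfl fun L hL => ?_
  rw [Finset.mem_powerset] at hL
  rw [Finset.mul_sum, Finset.mul_sum, Finset.mul_sum]
  refine Finset.sum_nbij' (fun B => L \ B) (fun X => L \ X) ?_ ?_ ?_ ?_ ?_
  · intro B _
    exact Finset.mem_powerset.2 Finset.sdiff_subset
  · intro X _
    exact Finset.mem_powerset.2 Finset.sdiff_subset
  · intro B hB
    exact Finset.sdiff_sdiff_eq_self (Finset.mem_powerset.1 hB)
  · intro X hX
    exact Finset.sdiff_sdiff_eq_self (Finset.mem_powerset.1 hX)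
  · intro B hB
    rw [Finset.mem_powerset] at hB
    have hA : (J \ L) ∪ B = J \ (L \ B) := by
      ext i
      simp only [Finset.mem_union, Finset.mem_sdiff]
      constructor
      · rintro (⟨h2, h3⟩ | h2)
        · exact ⟨h2, fun h4 => h3 h4.1⟩
        · exact ⟨hL (hB h2), fun h4 => h4.2 h2⟩
      · rintro ⟨h2, h3⟩
        by_cases h4 : i ∈ L
        · right
          by_contra h5
          exact h3 ⟨h4, h5⟩
        · exact Or.inl ⟨h2, h4⟩
    have hc1 : (L \ B).card + B.card = L.card := Finset.card_sdiff_add_card_eq_card hB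
    have hc2 : (J \ (L \ B)).card + (L \ B).card = J.card :=
      Finset.card_sdiff_add_card_eq_card (Finset.sdiff_subset.trans hL)
    rw [hA]
    have h2 := hZ_mul M hM σ (J \ (L \ B))
    have h3 : (-2 : ℤ) ^ J.card * hZ M σ (J \ (L \ B)) = (-2) ^ (L \ B).card *
        ((-1) ^ n * (-2) ^ (M.rank + finrank (ZMod 2) (kerS M (J \ (L \ B))))) := by
      rw [← h2, ← hc2, pow_add]
      ring
    have h4 : (-1 : ℤ) ^ B.card * (-2) ^ (L \ B).card = (-1) ^ L.card * 2 ^ (L \ B).card := by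
      have h5 : (-2 : ℤ) ^ (L \ B).card = (-1) ^ (L \ B).card * 2 ^ (L \ B).card := by
        rw [← mul_pow]
        norm_num
      rw [h5, ← hc1, pow_add]
      ring
    calc (-2 : ℤ) ^ J.card * (ψ L * ((-1) ^ B.card * hZ M σ (J \ (L \ B))))
        = ψ L * (-1) ^ B.card * ((-2 : ℤ) ^ J.card * hZ M σ (J \ (L \ B))) := by ring
      _ = ψ L * ((-1) ^ B.card * (-2) ^ (L \ B).card) *
          ((-1) ^ n * (-2) ^ (M.rank + finrank (ZMod 2) (kerS M (J \ (L \ B))))) := by
          rw [h3]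
          ring
      _ = _ := by
          rw [h4, pow_add]
          ring

open Classical in
/-- **The exact criterion for a matrix** -/
theorem w_matrix (M : Matrix (Fin n) (Fin n) (ZMod 2)) (hM : ∀ i j, M i j = M j i)
    (σ : Fin n → Bool) (B : ℕ) (hB : (SS ℤ M σ).coeff.support.card ≤ B)
    (J : Finset (Fin n)) (hinj : Set.InjOn M (J : Set (Fin n))) (ψ : Finset (Fin n) → ℤ)
    (hψ : ∀ F ∈ FL M, ∀ F' ∈ FL M,
      |∑ v ∈ F, tw M σ v - ∑ v ∈ F', tw M σ v| < 2 * ((B : ℤ) + 2) * (M.rank + 1) →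
      ψ (outJ M J F) = ψ (outJ M J F')) :
    (2 : ℤ) ^ J.card ∣ wSum J ψ fun A => finrank (ZMod 2) (kerS M A) := by
  obtain ⟨t, ht⟩ := HV_clusterF ℤ M hM σ B hB (fun F => ψ (outJ M J F)) hψ
  have h1 := congrArg evZ ht
  rw [map_sum, map_mul, map_pow, evZ_dl] at h1
  have h2 := w_sum M hM σ J hinj ψ
  have h3 : ∑ F ∈ (Finset.univ.image M).powerset, ψ (outJ M J F) *
      evZ (Lin.GG M (fun c => qu ℤ (σ c)) Finset.univ (ph ℤ M) F) = (-2) ^ M.rank * evZ t := by
    rw [← h1]
    refine Finset.sum_congr rfl fun F _ => ?_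
    rw [map_mul, evZ_C]
  rw [h3] at h2
  have h4 : (-2 : ℤ) ^ M.rank ≠ 0 := pow_ne_zero _ (by norm_num)
  have h5 : (-1 : ℤ) ^ n * (-1) ^ n = 1 := by
    rw [← mul_pow]
    norm_num
  have h6 : wSum J ψ (fun A => finrank (ZMod 2) (kerS M A)) =
      (-2) ^ J.card * ((-1) ^ n * evZ t) := by
    refine mul_left_cancel₀ h4 ?_
    have h7 : (-1 : ℤ) ^ n * ((-2) ^ J.card * ((-2) ^ M.rank * evZ t)) =
        (-1) ^ n * ((-1) ^ n * (-2) ^ M.rank *
          wSum J ψ fun A => finrank (ZMod 2) (kerS M A)) := by rw [h2]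
    calc (-2 : ℤ) ^ M.rank * wSum J ψ (fun A => finrank (ZMod 2) (kerS M A))
        = ((-1) ^ n * (-1) ^ n) * ((-2) ^ M.rank *
          wSum J ψ fun A => finrank (ZMod 2) (kerS M A)) := by rw [h5, one_mul]
      _ = (-1) ^ n * ((-1) ^ n * (-2) ^ M.rank *
          wSum J ψ fun A => finrank (ZMod 2) (kerS M A)) := by ring
      _ = (-1) ^ n * ((-2) ^ J.card * ((-2) ^ M.rank * evZ t)) := h7.symm
      _ = _ := by ring
  have h7 : (-2 : ℤ) ^ J.card = 2 ^ J.card * (-1) ^ J.card := by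
    rw [← mul_pow]
    norm_num
  rw [h6, h7, mul_assoc]
  exact dvd_mul_right _ _

/-- **The exact criterion**, rows -/
theorem w_rows (D : GaussDiagram n) (S : Finset (Fin n)) (hS : Transversal D.Interlaced S)
    (J : Finset (Fin n)) (hJ : J ⊆ S) (B : ℕ) (CycS : Finset (Fin n) → Prop)
    (hBS : Block S CycS (row (Graph_R D.Interlaced D.sign))) (ψ : Finset (Fin n) → ℤ)
    (hcl : ∀ L L', Close S CycS (cutTwist D.Interlaced D.sign) (2 * (B + 2) * (S.card + 1)) L L' →
      ψ (L ∩ J) = ψ (L' ∩ J))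
    (hB : D.normalizedBracket.coeff.support.card ≤ B) :
    (2 : ℤ) ^ J.card ∣ wSum J ψ fun A =>
      finrank (ZMod 2) (kerS (D.gmat (cutState D.Interlaced D.sign)) A) := by
  classical
  obtain ⟨σ, hσ⟩ : ∃ σ, σ = cutState D.Interlaced D.sign := ⟨_, rfl⟩
  have hR' : Graph_R D.Interlaced D.sign = D.Cut σ := by
    rw [hσ]
    rfl
  rw [← hσ]
  obtain ⟨r, hrr⟩ : ∃ r : Fin n → Fin n → ZMod 2, r = row (Graph_R D.Interlaced D.sign) :=
    ⟨_, rfl⟩
  have hr : ∀ c, r c = D.gmat σ c := by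
    intro c
    rw [hrr, hR']
    exact row_eq D σ c
  have hrows : S.image r = (Finset.univ.image (D.gmat σ)).erase 0 := by
    have h1 := Graph_image (e := D.sign) (Graph_irrefl D) (Graph_int_symm D) hS
    unfold rows at h1
    rw [← hrr] at h1
    rw [← h1]
    congr 1
    exact Finset.image_congr fun c _ => hr c
  have htw : ∀ i, tw (D.gmat σ) σ (r i) = cutTwist D.Interlaced D.sign i := by
    intro i
    have h1 := twist_row (e := D.sign) (Graph_irrefl D) (Graph_int_symm D) i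
    rw [← h1, ← hrr, ← hσ]
    unfold twist tw SPT.signedCount
    refine Finset.sum_congr ?_ fun _ _ => rfl
    ext c
    simp only [Finset.mem_filter, ← hr, hrr]
  rw [← hrr] at hBS
  have hinjS : Set.InjOn r (S : Set (Fin n)) := by
    rw [hrr]
    exact Graph_inj (e := D.sign) (Graph_irrefl D) (Graph_int_symm D) hS
  have hinj : Set.InjOn (D.gmat σ) (J : Set (Fin n)) := by
    intro i hi j hj h
    exact hinjS (hJ hi) (hJ hj) (by rw [hr, hr]; exact h)
  have hrank : (D.gmat σ).rank ≤ S.card := by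
    have h1 := SRH.rank_le D σ
    rw [← hR', Graph_image (Graph_irrefl D) (Graph_int_symm D) hS] at h1
    exact h1.trans Finset.card_image_le
  -- the complements of the flats
  have hL : ∀ F ∈ FL (D.gmat σ), CycleSet CycS (S.filter fun i => r i ∉ F) ∧
      ∑ v ∈ F, tw (D.gmat σ) σ v = ∑ v ∈ Finset.univ.image (D.gmat σ), tw (D.gmat σ) σ v -
        ∑ i ∈ S.filter (fun i => r i ∉ F), cutTwist D.Interlaced D.sign i := by
    intro F hF
    unfold FL at hF
    rw [Finset.mem_filter, Finset.mem_powerset] at hF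
    refine ⟨flat_cycleSet hBS F fun i hi h1 => hF.2 _ (by
      rw [hr]
      exact Finset.mem_image_of_mem _ (Finset.mem_univ i)) h1, ?_⟩
    have h1 : Finset.univ.image (D.gmat σ) \ F = (S.filter fun i => r i ∉ F).image r := by
      ext v
      rw [Finset.mem_sdiff]
      constructor
      · rintro ⟨hv, hvF⟩
        have hv0 : v ≠ 0 := by
          rintro rfl
          exact hvF (hF.2 0 hv (zero_mem _))
        have h2 : v ∈ S.image r := by
          rw [hrows]
          exact Finset.mem_erase.2 ⟨hv0, hv⟩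
        obtain ⟨i, hi, rfl⟩ := Finset.mem_image.1 h2
        exact Finset.mem_image_of_mem _ (Finset.mem_filter.2 ⟨hi, hvF⟩)
      · intro hv
        obtain ⟨i, hi, rfl⟩ := Finset.mem_image.1 hv
        refine ⟨?_, (Finset.mem_filter.1 hi).2⟩
        rw [hr]
        exact Finset.mem_image_of_mem _ (Finset.mem_univ i)
    have h2 : ∑ i ∈ S.filter (fun i => r i ∉ F), cutTwist D.Interlaced D.sign i =
        ∑ v ∈ Finset.univ.image (D.gmat σ) \ F, tw (D.gmat σ) σ v := by
      rw [h1, Finset.sum_image (hinjS.mono (Finset.coe_subset.2 (Finset.filter_subset _ _)))]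
      exact Finset.sum_congr rfl fun i _ => (htw i).symm
    rw [h2]
    have h3 := Finset.sum_sdiff (f := fun v => tw (D.gmat σ) σ v) hF.1
    rw [← h3]
    ring
  have hJr : ∀ F : Finset (Fin n → ZMod 2),
      outJ (D.gmat σ) J F = (S.filter fun i => r i ∉ F) ∩ J := by
    intro F
    ext i
    rw [mem_outJ, Finset.mem_inter, Finset.mem_filter, ← hr]
    constructor
    · rintro ⟨h1, h2⟩
      exact ⟨⟨hJ h1, h2⟩, h1⟩
    · rintro ⟨⟨-, h2⟩, h3⟩
      exact ⟨h3, h2⟩
  refine w_matrix (D.gmat σ) (D.gmat_symm σ) σ B (card_SSZ D σ B hB) J hinj ψ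
    (fun F hF F' hF' hlt => ?_)
  rw [hJr, hJr]
  refine hcl _ _ ⟨Finset.filter_subset _ _, Finset.filter_subset _ _, (hL F hF).1,
    (hL F' hF').1, ?_⟩
  rw [(hL F hF).2, (hL F' hF').2] at hlt
  have h2 : ∀ x y z : ℤ, |x - y - (x - z)| = |y - z| := by
    intro x y z
    rw [← abs_neg]
    congr 1
    ring
  rw [h2] at hlt
  refine hlt.trans_le ?_
  have h3 : ((D.gmat σ).rank : ℤ) ≤ S.card := by exact_mod_cast hrank
  push_cast
  have h4 : (0 : ℤ) ≤ 2 * ((B : ℤ) + 2) := by positivity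
  nlinarith

end Pool.Agent.NHT
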