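import Mathlib
import Pool.Agent.NHT.WTwo
import Pool.Agent.NHT.CompW

/-!
# NHT, module WTwoK: the exact criterion modulo powers of two for diagrams (helper19)
-/

set_option autoImplicit false
set_option linter.unusedSectionVars false

open Module Submodule Pool.Agent.UNI LaurentPolynomial Pool.Agent.SPT Pool.Agent.SPT.Rel
  Pool.Agent.SPT.Lin Pool.Agent.SRH Pool.Agent.EQT Pool.Agent.FHP Pool.Agent.TRA Pool.Agent.TRP

namespace Pool.Agent.NHT

open Pool.Agent.Helper16.Knotoid

variable {n : ℕ}

/-- there is no criterion for the empty set of classes -/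
theorem TwoAdic.nonempty {ι : Type} [DecidableEq ι] {S J : Finset ι} {CycS : Finset ι → Prop}
    {c : Finset ι → ℕ} {a : ι → ℤ} {N : ℕ} (h : TwoAdic S J CycS c a N) : J.Nonempty := by
  rw [Finset.nonempty_iff_ne_empty]
  rintro rfl
  obtain ⟨ψ, -, h1⟩ := h
  apply h1
  rw [Finset.card_empty, pow_zero]
  exact one_dvd _

/-- **The exact criterion**, rows -/
theorem w_conv (D : GaussDiagram n) (S : Finset (Fin n)) (hS : Transversal D.Interlaced S)
    (J : Finset (Fin n)) (hJ : J ⊆ S) (B : ℕ) (CycS : Finset (Fin n) → Prop)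
    (hBS : Block S CycS (row (Graph_R D.Interlaced D.sign)))
    (h : TwoAdic S J CycS (cutCompsO D) (cutTwist D.Interlaced D.sign)
      (2 * (B + 2) * (S.card + 1))) :
    B < D.normalizedBracket.coeff.support.card := by
  by_contra hB
  have hn : 0 < n := by
    obtain ⟨i, -⟩ := h.nonempty
    exact i.pos
  obtain ⟨ψ, hcl, hd⟩ := h
  apply hd
  have h1 := w_rows D S hS J hJ B CycS hBS ψ hcl (not_lt.1 hB)
  have h2 : ∀ A, cutCompsO D A - 1 =
      finrank (ZMod 2) (kerS (D.gmat (cutState D.Interlaced D.sign)) A) := by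
    intro A
    rw [cutCompsO_crk hn D A, crk_kerS, Nat.add_sub_cancel_left]
  unfold wSum at h1
  simp only [h2]
  exact h1

/-- **The exact criterion modulo powers of two, knotoid diagrams** -/
theorem knotoidW (D : GaussDiagram n) (S : Finset (Fin n)) (hS : Transversal D.Interlaced S)
    (J : Finset (Fin n)) (hJ : J ⊆ S) (B : ℕ)
    (h : TwoAdic S J (HasCycleInO D ∅) (cutCompsO D) (cutTwist D.Interlaced D.sign)
      (2 * (B + 2) * (S.card + 1))) :
    B < terms D.normalizedBracket := by
  have hBS := thm_KnotoidBlock n D S S hS (Finset.Subset.refl S)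
  rw [Finset.sdiff_self] at hBS
  exact w_conv D S hS J hJ B _ hBS h

/-- **The exact criterion modulo powers of two, knot diagrams** -/
theorem knotW (g : GaussJones.Code n) (e : Fin n → Bool) (S : Finset (Fin n))
    (hS : Transversal (GaussJones.Interlaced g) S) (J : Finset (Fin n)) (hJ : J ⊆ S) (B : ℕ)
    (h : TwoAdic S J (HasCycleIn g ∅) (cutComps g) (cutTwist (GaussJones.Interlaced g) e)
      (2 * (B + 2) * (S.card + 1))) :
    B < terms (GaussJones.fPoly g e) := by
  have hn : 0 < n := by
    obtain ⟨i, -⟩ := h.nonempty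
    exact i.pos
  have hBS := thm_KnotBlock n g e S S hS (Finset.Subset.refl S)
  rw [Finset.sdiff_self] at hBS
  have h0 : cutComps g = cutCompsO (cutOpen g e) := by
    funext A
    exact (cutComps_open g e A).symm
  rw [h0] at h
  rw [f_closed hn]
  rw [← interlaced_fun g e] at hS h hBS
  exact w_conv (cutOpen g e) S hS J hJ B _ hBS h

end Pool.Agent.NHT
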