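import Pool.Agent.NHT.Final15
import Pool.Agent.NHT.WTwoK
import Pool.Agent.NHT.TwoAdicI

/-!
# NHT, version 16, module Final16: the final statement (helper38)
-/

set_option autoImplicit false

open Submodule LaurentPolynomial Module

namespace Pool.Agent.NHT

open Pool.Agent.SPT Pool.Agent.SPT.Rel Pool.Agent.EQT Pool.Agent.FHP Pool.Agent.Helper16.Knotoid
open Pool.Agent.TRA Pool.Agent.TRP

variable {n : ℕ}

/-- **knotoid diagrams** -/
theorem knotoidF16 (D : GaussDiagram n) (S : Finset (Fin n)) (hS : Transversal D.Interlaced S)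
    (hne : S.Nonempty) (B : ℕ)
    (h : LongCycles S (HasCycleInO D ∅) (cutTwist D.Interlaced D.sign)
        (2 * (B + 2) * (S.card + 1)) ∨
      ∃ J ⊆ S, J.Nonempty ∧
        (((¬ HasCycleInO D ∅ (S \ J) ∨ cutDetO D J ≠ 0) ∧
            (Separating S J (HasCycleInO D ∅) (HasCycleInO D (S \ J))
                (cutTwist D.Interlaced D.sign) (2 * (B + 2) * (S.card + 1)) ∨
              NearlyEqual S J (cutTwist D.Interlaced D.sign) (2 * (B + 2) * (S.card + 1)) ∨
              LongSigned S J (HasCycleInO D (S \ J)) (cutTwist D.Interlaced D.sign)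
                (2 * (B + 2) * (S.card + 1)) ∨
              LongBlocks S J (HasCycleInO D (S \ J))
                (row (D.Cut (cutState D.Interlaced D.sign))) (cutTwist D.Interlaced D.sign)
                (2 * (B + 2) * (S.card + 1)))) ∨
          TwoAdic S J (HasCycleInO D ∅) (cutCompsO D) (cutTwist D.Interlaced D.sign)
            (2 * (B + 2) * (S.card + 1)) ∨
          (cutCompsO D J = 1 ∧
            Long S J (cutTwist D.Interlaced D.sign) (2 * (B + 2) * (S.card + 1))))) :
    B < terms D.normalizedBracket ∧ (1 ≤ B → D.normalizedBracket ≠ 1) := by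
  have h1 : B < terms D.normalizedBracket := by
    rcases h with h | ⟨J, hJ, hJne, ⟨hd, h⟩ | h | ⟨hc, h⟩⟩
    · exact (knotoidF15 D S hS B (Or.inl ⟨hne, h⟩)).1
    · refine (knotoidF15 D S hS B (Or.inr ⟨J, hJ, hJne, Or.inl ⟨hd, ?_⟩⟩)).1
      unfold PsiCriterion
      tauto
    · exact knotoidW D S hS J hJ B h
    · exact knotoidW D S hS J hJ B (TwoAdic.of_long hJ hJne hc h)
  exact ⟨h1, ne_one_of_terms h1⟩

/-- **knot diagrams** -/
theorem knotF16 (g : GaussJones.Code n) (e : Fin n → Bool) (S : Finset (Fin n))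
    (hS : Transversal (GaussJones.Interlaced g) S) (hne : S.Nonempty) (B : ℕ)
    (h : LongCycles S (HasCycleIn g ∅) (cutTwist (GaussJones.Interlaced g) e)
        (2 * (B + 2) * (S.card + 1)) ∨
      ∃ J ⊆ S, J.Nonempty ∧
        (((¬ HasCycleIn g ∅ (S \ J) ∨ cutDet g e J ≠ 0) ∧
            (Separating S J (HasCycleIn g ∅) (HasCycleIn g (S \ J))
                (cutTwist (GaussJones.Interlaced g) e) (2 * (B + 2) * (S.card + 1)) ∨
              NearlyEqual S J (cutTwist (GaussJones.Interlaced g) e)
                (2 * (B + 2) * (S.card + 1)) ∨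
              LongSigned S J (HasCycleIn g (S \ J)) (cutTwist (GaussJones.Interlaced g) e)
                (2 * (B + 2) * (S.card + 1)) ∨
              LongBlocks S J (HasCycleIn g (S \ J))
                (row (GaussJones.Cut g e (cutState (GaussJones.Interlaced g) e)))
                (cutTwist (GaussJones.Interlaced g) e) (2 * (B + 2) * (S.card + 1)))) ∨
          TwoAdic S J (HasCycleIn g ∅) (cutComps g) (cutTwist (GaussJones.Interlaced g) e)
            (2 * (B + 2) * (S.card + 1)) ∨
          (cutComps g J = 1 ∧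
            Long S J (cutTwist (GaussJones.Interlaced g) e) (2 * (B + 2) * (S.card + 1))))) :
    B < terms (GaussJones.fPoly g e) ∧ (1 ≤ B → GaussJones.fPoly g e ≠ 1) := by
  have h1 : B < terms (GaussJones.fPoly g e) := by
    rcases h with h | ⟨J, hJ, hJne, ⟨hd, h⟩ | h | ⟨hc, h⟩⟩
    · exact (knotF15 g e S hS B (Or.inl ⟨hne, h⟩)).1
    · refine (knotF15 g e S hS B (Or.inr ⟨J, hJ, hJne, Or.inl ⟨hd, ?_⟩⟩)).1
      unfold PsiCriterion
      tauto
    · exact knotW g e S hS J hJ B h
    · exact knotW g e S hS J hJ B (TwoAdic.of_long hJ hJne hc h)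
  exact ⟨h1, ne_one_of_terms h1⟩

end Pool.Agent.NHT
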