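import Mathlib
import Pool.Agent.NHT.IsoF
import Pool.Agent.FHP.RelL

/-!
# NHT, module Pair: two sets of classes which meet close cycle sets evenly (helper68)

The weights modulo `2` which have the same sum over close cycle sets form a totally isotropic space for
the cut matrix.
-/

set_option autoImplicit false
set_option linter.unusedSectionVars false

open Module Submodule Pool.Agent.UNI LaurentPolynomial Pool.Agent.SPT Pool.Agent.SPT.Rel
  Pool.Agent.SPT.Lin Pool.Agent.SRH Pool.Agent.EQT Pool.Agent.FHP Pool.Agent.TRA Pool.Agent.TRP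

namespace Pool.Agent.NHT

open Pool.Agent.Helper16.Knotoid

section

variable {E : Type} [Fintype E] [DecidableEq E]

/-- **Isotropy for the weights which are constant on the clusters of flats** -/
theorem iso_mainF (M : Matrix E E (ZMod 2)) (hM : ∀ i j, M i j = M j i) (σ : E → Bool)
    (B : ℕ) (hB : (SS (ZMod 2) M σ).coeff.support.card ≤ B) (ρ : (E → ZMod 2) → E)
    (hρ : ∀ v ∈ Finset.univ.image M, v ≠ 0 → M (ρ v) = v) (x x' : (E → ZMod 2) → ZMod 2)
    (hx0 : x 0 = 0) (hx0' : x' 0 = 0)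
    (hψ : ∀ F ∈ FL M, ∀ F' ∈ FL M,
      |∑ v ∈ F, tw M σ v - ∑ v ∈ F', tw M σ v| < 2 * ((B : ℤ) + 2) * (M.rank + 1) →
      ∑ v ∈ F, x v = ∑ v ∈ F', x v)
    (hψ' : ∀ F ∈ FL M, ∀ F' ∈ FL M,
      |∑ v ∈ F, tw M σ v - ∑ v ∈ F', tw M σ v| < 2 * ((B : ℤ) + 2) * (M.rank + 1) →
      ∑ v ∈ F, x' v = ∑ v ∈ F', x' v) :
    ∑ u ∈ Finset.univ.image M, ∑ v ∈ Finset.univ.image M,
      x u * x' v * M (ρ u) (ρ v) = 0 := by
  classical
  obtain ⟨X, hX⟩ : ∃ X, X = Finset.univ.image M := ⟨_, rfl⟩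
  obtain ⟨G, hG⟩ : ∃ G : Finset (E → ZMod 2) → (ZMod 2)[T;T⁻¹], ∀ F, G F =
      Lin.GG M (fun c => qu (ZMod 2) (σ c)) Finset.univ (ph (ZMod 2) M) F := ⟨_, fun _ => rfl⟩
  have hd := dl_ne
  have hrow : ∀ v ∈ X, v ≠ 0 → M (ρ v) = v := by
    intro v hv h0
    refine hρ v ?_ h0
    rw [← hX]
    exact hv
  -- one class
  have hone : ∀ v ∈ X, v ≠ 0 → dl (ZMod 2) * ∑ F ∈ X.powerset.filter (fun F => v ∈ F), G F =
      dl (ZMod 2) ^ M.rank * gg (ZMod 2) M σ {ρ v} := by
    intro v hv h0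
    have h1 := sum_one M σ (ρ v)
    have h2 := HH_eq (K := ZMod 2) M hM σ {ρ v}
    rw [Finset.card_singleton, pow_one] at h2
    rw [h2] at h1
    have h3 : ∑ F ∈ X.powerset.filter (fun F => v ∈ F), G F =
        ∑ F ∈ (Finset.univ.image M).powerset.filter (fun F => M (ρ v) ∈ F),
          Lin.GG M (fun c => qu (ZMod 2) (σ c)) Finset.univ (ph (ZMod 2) M) F := by
      rw [hrow v hv h0, ← hX]
      exact Finset.sum_congr rfl fun F _ => hG F
    rw [h3]
    have h4 : dl (ZMod 2) * (dl (ZMod 2) *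
        ∑ F ∈ (Finset.univ.image M).powerset.filter (fun F => M (ρ v) ∈ F),
          Lin.GG M (fun c => qu (ZMod 2) (σ c)) Finset.univ (ph (ZMod 2) M) F) =
        dl (ZMod 2) * (dl (ZMod 2) ^ M.rank * gg (ZMod 2) M σ {ρ v}) := by
      rw [← h1]
      ring
    exact mul_left_cancel₀ hd h4
  have htwo : ∀ u ∈ X, u ≠ 0 → ∀ v ∈ X, v ≠ 0 → u ≠ v →
      dl (ZMod 2) ^ 2 * ∑ F ∈ X.powerset.filter (fun F => u ∈ F ∧ v ∈ F), G F =
      dl (ZMod 2) ^ M.rank * gg (ZMod 2) M σ {ρ u, ρ v} := by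
    intro u hu hu0 v hv hv0 huv
    have hne : M (ρ u) ≠ M (ρ v) := by
      rw [hrow u hu hu0, hrow v hv hv0]
      exact huv
    have h1 := sum_two M σ (ρ u) (ρ v) hne
    have h2 := HH_eq (K := ZMod 2) M hM σ {ρ u, ρ v}
    rw [Finset.card_pair fun h => hne (by rw [h])] at h2
    rw [← h2, ← h1]
    have h3 : ∑ F ∈ X.powerset.filter (fun F => u ∈ F ∧ v ∈ F), G F =
        ∑ F ∈ (Finset.univ.image M).powerset.filter (fun F => M (ρ u) ∈ F ∧ M (ρ v) ∈ F),
          Lin.GG M (fun c => qu (ZMod 2) (σ c)) Finset.univ (ph (ZMod 2) M) F := by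
      rw [hrow u hu hu0, hrow v hv hv0, ← hX]
      exact Finset.sum_congr rfl fun F _ => hG F
    rw [h3]
  -- first condition
  have hC1 : ∀ y : (E → ZMod 2) → ZMod 2, y 0 = 0 → (∀ F ∈ FL M, ∀ F' ∈ FL M,
      |∑ v ∈ F, tw M σ v - ∑ v ∈ F', tw M σ v| < 2 * ((B : ℤ) + 2) * (M.rank + 1) →
      ∑ v ∈ F, y v = ∑ v ∈ F', y v) → ∑ v ∈ X, y v * M (ρ v) (ρ v) = 0 := by
    intro y hy0 hy
    obtain ⟨t, ht⟩ := HV_clusterF (ZMod 2) M hM σ B hB (fun F => ∑ v ∈ F, y v) hy
    have h1 : ∑ F ∈ X.powerset, (∑ v ∈ F, C (y v)) * G F = dl (ZMod 2) ^ M.rank * t := by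
      rw [← ht, ← hX]
      refine Finset.sum_congr rfl fun F _ => ?_
      rw [map_sum, hG]
    rw [sum_linear X (fun v => C (y v)) G] at h1
    have h2 : dl (ZMod 2) ^ M.rank * ∑ v ∈ X, C (y v) * gg (ZMod 2) M σ {ρ v} =
        dl (ZMod 2) ^ M.rank * (dl (ZMod 2) * t) := by
      have h3 : dl (ZMod 2) * ∑ v ∈ X, C (y v) * ∑ F ∈ X.powerset.filter (fun F => v ∈ F), G F =
          dl (ZMod 2) ^ M.rank * ∑ v ∈ X, C (y v) * gg (ZMod 2) M σ {ρ v} := by
        rw [Finset.mul_sum, Finset.mul_sum]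
        refine Finset.sum_congr rfl fun v hv => ?_
        by_cases h0 : v = 0
        · rw [h0, hy0, map_zero]
          ring
        · have h4 := hone v hv h0
          calc dl (ZMod 2) * (C (y v) * ∑ F ∈ X.powerset.filter (fun F => v ∈ F), G F)
              = C (y v) * (dl (ZMod 2) * ∑ F ∈ X.powerset.filter (fun F => v ∈ F), G F) := by ring
            _ = _ := by
              rw [h4]
              ring
      rw [← h3, h1]
      ring
    have h3 := mul_left_cancel₀ (pow_ne_zero _ hd) h2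
    have h4 := congrArg ev1 h3
    rw [map_mul, ev1_dl, zero_mul, map_sum] at h4
    rw [← h4]
    refine Finset.sum_congr rfl fun v _ => ?_
    rw [map_mul, ev1_C, ev1_gg, sum_det_one]
  -- second condition
  obtain ⟨t, ht⟩ := HV_clusterF (ZMod 2) M hM σ B hB (fun F => (∑ v ∈ F, x v) * ∑ v ∈ F, x' v)
    (fun F hF F' hF' h => by
      rw [hψ F hF F' hF' h, hψ' F hF F' hF' h])
  have h1 : ∑ F ∈ X.powerset, ((∑ v ∈ F, C (x v)) * (∑ v ∈ F, C (x' v))) * G F =
      dl (ZMod 2) ^ M.rank * t := by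
    rw [← ht, ← hX]
    refine Finset.sum_congr rfl fun F _ => ?_
    rw [map_mul, map_sum, map_sum, hG]
  rw [sum_bilinear X (fun v => C (x v)) (fun v => C (x' v)) G] at h1
  have h2 : dl (ZMod 2) ^ M.rank * ∑ u ∈ X, ∑ v ∈ X, C (x u) * C (x' v) *
      (if u = v then dl (ZMod 2) * gg (ZMod 2) M σ {ρ u} else gg (ZMod 2) M σ {ρ u, ρ v}) =
      dl (ZMod 2) ^ M.rank * (dl (ZMod 2) ^ 2 * t) := by
    have h3 : dl (ZMod 2) ^ 2 * ∑ u ∈ X, ∑ v ∈ X, C (x u) * C (x' v) *
        ∑ F ∈ X.powerset.filter (fun F => u ∈ F ∧ v ∈ F), G F =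
        dl (ZMod 2) ^ M.rank * ∑ u ∈ X, ∑ v ∈ X, C (x u) * C (x' v) *
      (if u = v then dl (ZMod 2) * gg (ZMod 2) M σ {ρ u} else gg (ZMod 2) M σ {ρ u, ρ v}) := by
      rw [Finset.mul_sum, Finset.mul_sum]
      refine Finset.sum_congr rfl fun u hu => ?_
      rw [Finset.mul_sum, Finset.mul_sum]
      refine Finset.sum_congr rfl fun v hv => ?_
      by_cases hu0 : u = 0
      · rw [hu0, hx0, map_zero]
        ring
      by_cases hv0 : v = 0
      · rw [hv0, hx0', map_zero]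
        ring
      by_cases huv : u = v
      · rw [if_pos huv, ← huv]
        have h4 := hone u hu hu0
        have h5 : X.powerset.filter (fun F => u ∈ F ∧ u ∈ F) =
            X.powerset.filter (fun F => u ∈ F) := by
          refine Finset.filter_congr fun F _ => ?_
          exact and_self_iff
        rw [h5]
        calc dl (ZMod 2) ^ 2 * (C (x u) * C (x' u) *
              ∑ F ∈ X.powerset.filter (fun F => u ∈ F), G F)
            = C (x u) * C (x' u) * dl (ZMod 2) *
              (dl (ZMod 2) * ∑ F ∈ X.powerset.filter (fun F => u ∈ F), G F) := by ring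
          _ = _ := by
            rw [h4]
            ring
      · rw [if_neg huv]
        have h4 := htwo u hu hu0 v hv hv0 huv
        calc dl (ZMod 2) ^ 2 * (C (x u) * C (x' v) *
              ∑ F ∈ X.powerset.filter (fun F => u ∈ F ∧ v ∈ F), G F)
            = C (x u) * C (x' v) *
              (dl (ZMod 2) ^ 2 * ∑ F ∈ X.powerset.filter (fun F => u ∈ F ∧ v ∈ F), G F) := by ring
          _ = _ := by
            rw [h4]
            ring
    rw [← h3, h1]
    ring
  have h3 := mul_left_cancel₀ (pow_ne_zero _ hd) h2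
  have h4 := congrArg ev1 h3
  rw [map_mul, map_pow, ev1_dl] at h4
  have h5 : ev1 (∑ u ∈ X, ∑ v ∈ X, C (x u) * C (x' v) *
      (if u = v then dl (ZMod 2) * gg (ZMod 2) M σ {ρ u} else gg (ZMod 2) M σ {ρ u, ρ v})) =
      ∑ u ∈ X, ∑ v ∈ X, x u * x' v * (M (ρ u) (ρ u) * M (ρ v) (ρ v) + M (ρ u) (ρ v)) := by
    rw [map_sum]
    refine Finset.sum_congr rfl fun u hu => ?_
    rw [map_sum]
    refine Finset.sum_congr rfl fun v hv => ?_
    rw [map_mul, map_mul, ev1_C, ev1_C]
    by_cases hu0 : u = 0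
    · rw [hu0, hx0]
      ring
    by_cases hv0 : v = 0
    · rw [hv0, hx0']
      ring
    congr 1
    by_cases huv : u = v
    · rw [if_pos huv, ← huv, map_mul, ev1_dl, zero_mul]
      rcases Lin.z2 (M (ρ u) (ρ u)) with h | h <;> rw [h] <;> decide
    · have hne : ρ u ≠ ρ v := by
        intro h
        apply huv
        rw [← hrow u hu hu0, ← hrow v hv hv0, h]
      rw [if_neg huv, ev1_gg, sum_det_two M _ _ hne, hM (ρ v) (ρ u)]
      rcases Lin.z2 (M (ρ u) (ρ v)) with h | h <;> rw [h] <;> ring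
  rw [h5] at h4
  have h6 : ∑ u ∈ X, ∑ v ∈ X, x u * x' v * (M (ρ u) (ρ u) * M (ρ v) (ρ v) + M (ρ u) (ρ v)) =
      (∑ u ∈ X, x u * M (ρ u) (ρ u)) * (∑ v ∈ X, x' v * M (ρ v) (ρ v)) +
        ∑ u ∈ X, ∑ v ∈ X, x u * x' v * M (ρ u) (ρ v) := by
    rw [Finset.sum_mul_sum, ← Finset.sum_add_distrib]
    refine Finset.sum_congr rfl fun u _ => ?_
    rw [← Finset.sum_add_distrib]
    refine Finset.sum_congr rfl fun v _ => ?_
    ring
  rw [h6, hC1 x hx0 hψ, zero_mul, zero_add] at h4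
  rw [← hX, h4]
  ring

end

section

variable {n : ℕ}

theorem card_red (f : ℤ[T;T⁻¹]) : (red f).coeff.support.card ≤ f.coeff.support.card := by
  rw [RelL_odd]
  unfold oddCount
  exact Finset.card_le_card (Finset.filter_subset _ _)

/-- **The weights which are constant on the clusters of cycle sets are isotropic** -/
theorem pair_close (D : GaussDiagram n) (S : Finset (Fin n)) (hS : Transversal D.Interlaced S)
    (B : ℕ) (Cyc : Finset (Fin n) → Prop)
    (hblock : Block S Cyc (row (Graph_R D.Interlaced D.sign)))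
    (hB : oddCount D.normalizedBracket ≤ B) (x x' : Fin n → ZMod 2)
    (hx : ∀ L L', Close S Cyc (cutTwist D.Interlaced D.sign)
      (2 * (B + 2) * (S.card + 1)) L L' → ∑ i ∈ L, x i = ∑ i ∈ L', x i)
    (hx' : ∀ L L', Close S Cyc (cutTwist D.Interlaced D.sign)
      (2 * (B + 2) * (S.card + 1)) L L' → ∑ i ∈ L, x' i = ∑ i ∈ L', x' i) :
    ∑ i ∈ S, ∑ j ∈ S, x i * x' j * cutEntry D.Interlaced i j = 0 := by
  classical
  rcases S.eq_empty_or_nonempty with hemp | ⟨i0, hi0⟩
  · rw [hemp, Finset.sum_empty]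
  have har : (fun i => twist (Graph_R D.Interlaced D.sign) (cutState D.Interlaced D.sign)
      (row (Graph_R D.Interlaced D.sign) i)) = cutTwist D.Interlaced D.sign :=
    funext fun i => twist_row (Graph_irrefl D) (Graph_int_symm D) i
  rw [← har] at hx hx'
  obtain ⟨σ, hσ⟩ : ∃ σ, σ = cutState D.Interlaced D.sign := ⟨_, rfl⟩
  have hR : Graph_R D.Interlaced D.sign = D.Cut σ := by
    rw [hσ]
    rfl
  have hr : ∀ c, row (Graph_R D.Interlaced D.sign) c = D.gmat σ c := by
    intro c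
    rw [hR]
    exact row_eq D σ c
  have hr' : row (Graph_R D.Interlaced D.sign) = fun c => D.gmat σ c := funext hr
  have hrows : S.image (row (Graph_R D.Interlaced D.sign)) =
      (Finset.univ.image (D.gmat σ)).erase 0 := by
    rw [← Graph_image (Graph_irrefl D) (Graph_int_symm D) hS]
    unfold rows
    rw [hr']
  have htw : ∀ v, twist (Graph_R D.Interlaced D.sign) σ v = tw (D.gmat σ) σ v := by
    intro v
    unfold twist tw SPT.signedCount
    refine Finset.sum_congr ?_ fun _ _ => rfl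
    ext c
    simp only [Finset.mem_filter, hr]
  have hinjS : Set.InjOn (row (Graph_R D.Interlaced D.sign)) (S : Set (Fin n)) :=
    Graph_inj (e := D.sign) (Graph_irrefl D) (Graph_int_symm D) hS
  have hrank : (D.gmat σ).rank ≤ S.card := by
    have h1 := SRH.rank_le D σ
    rw [← hR, Graph_image (Graph_irrefl D) (Graph_int_symm D) hS] at h1
    exact h1.trans Finset.card_image_le
  have hN' : 2 * (B + 2) * ((D.gmat σ).rank + 1) ≤ 2 * (B + 2) * (S.card + 1) :=
    Nat.mul_le_mul_left _ (by omega)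
  -- representatives
  obtain ⟨ρ, hρ⟩ : ∃ ρ : (Fin n → ZMod 2) → Fin n, ∀ i ∈ S, ρ (D.gmat σ i) = i := by
    have h1 : ∀ v, ∃ i, v ∈ S.image (D.gmat σ) → i ∈ S ∧ D.gmat σ i = v := by
      intro v
      by_cases hv : v ∈ S.image (D.gmat σ)
      · obtain ⟨i, h1, h2⟩ := Finset.mem_image.1 hv
        exact ⟨i, fun _ => ⟨h1, h2⟩⟩
      · exact ⟨i0, fun h => absurd h hv⟩
    choose ρ hρ using h1
    refine ⟨ρ, fun i hiS => ?_⟩
    have h2 := hρ (D.gmat σ i) (Finset.mem_image_of_mem _ hiS)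
    refine hinjS h2.1 hiS ?_
    rw [hr, hr]
    exact h2.2
  have hXS : (Finset.univ.image (D.gmat σ)).erase 0 = S.image (D.gmat σ) := by
    rw [← hrows, hr']
  have hinjM : Set.InjOn (D.gmat σ) (S : Set (Fin n)) := by
    intro i hi j hj h
    exact hinjS hi hj (by rw [hr, hr]; exact h)
  obtain ⟨y, hy⟩ : ∃ y : (Fin n → ZMod 2) → (Fin n → ZMod 2) → ZMod 2,
      ∀ z v, y z v = if v = 0 then 0 else z (ρ v) := ⟨fun z v => if v = 0 then 0 else z (ρ v),
        fun _ _ => rfl⟩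
  have hzero : ∀ i ∈ S, D.gmat σ i ≠ 0 := by
    intro i hi h
    have h1 : D.gmat σ i ∈ (Finset.univ.image (D.gmat σ)).erase 0 := by
      rw [hXS]
      exact Finset.mem_image_of_mem _ hi
    exact (Finset.mem_erase.1 h1).1 h
  -- the sum over a flat
  have hsumF : ∀ (z : Fin n → ZMod 2), ∀ F ∈ FL (D.gmat σ),
      ∑ i ∈ S.filter (fun i => row (Graph_R D.Interlaced D.sign) i ∉ F), z i =
        ∑ v ∈ Finset.univ.image (D.gmat σ), y z v - ∑ v ∈ F, y z v := by
    intro z F hF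
    unfold FL at hF
    rw [Finset.mem_filter, Finset.mem_powerset] at hF
    have h1 : (S.filter fun i => row (Graph_R D.Interlaced D.sign) i ∉ F).image (D.gmat σ) =
        Finset.univ.image (D.gmat σ) \ F := by
      refine Finset.Subset.antisymm (fun v hv => ?_) fun v hv => ?_
      · obtain ⟨i, hi, rfl⟩ := Finset.mem_image.1 hv
        rw [Finset.mem_filter, hr] at hi
        exact Finset.mem_sdiff.2 ⟨Finset.mem_image_of_mem _ (Finset.mem_univ i), hi.2⟩
      · obtain ⟨hv, hvF⟩ := Finset.mem_sdiff.1 hv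
        have h2 : v ∈ S.image (D.gmat σ) := by
          rw [← hXS]
          refine Finset.mem_erase.2 ⟨fun h => ?_, hv⟩
          rw [h] at hv hvF
          exact hvF (hF.2 0 hv (zero_mem _))
        obtain ⟨i, hi, rfl⟩ := Finset.mem_image.1 h2
        exact Finset.mem_image.2 ⟨i, Finset.mem_filter.2 ⟨hi, by rw [hr]; exact hvF⟩, rfl⟩
    have h2 := Finset.sum_image (s := S.filter fun i => row (Graph_R D.Interlaced D.sign) i ∉ F)
      (g := D.gmat σ) (f := y z)
      (hinjM.mono (Finset.coe_subset.2 (Finset.filter_subset _ _)))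
    have h3 := Finset.sum_sdiff (f := y z) hF.1
    rw [← h1, h2] at h3
    rw [← h3, add_sub_cancel_right]
    refine Finset.sum_congr rfl fun i hi => ?_
    have hiS := (Finset.mem_filter.1 hi).1
    rw [hy, if_neg (hzero i hiS), hρ i hiS]
  -- the cycle set of a flat
  have hcyc : ∀ F ∈ FL (D.gmat σ), S.filter (fun i => row (Graph_R D.Interlaced D.sign) i ∉ F) ⊆ S ∧
      CycleSet Cyc (S.filter fun i => row (Graph_R D.Interlaced D.sign) i ∉ F) ∧
      (∑ i ∈ S.filter (fun i => row (Graph_R D.Interlaced D.sign) i ∉ F),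
        twist (Graph_R D.Interlaced D.sign) (cutState D.Interlaced D.sign)
          (row (Graph_R D.Interlaced D.sign) i) =
        ∑ v ∈ Finset.univ.image (D.gmat σ), tw (D.gmat σ) σ v - ∑ v ∈ F, tw (D.gmat σ) σ v) := by
    intro F hF
    unfold FL at hF
    rw [Finset.mem_filter, Finset.mem_powerset] at hF
    refine ⟨Finset.filter_subset _ _, ?_, ?_⟩
    · intro i hi
      rw [Finset.mem_filter] at hi
      refine Block.inCycle hblock F ?_ i hi.1 hi.2
      intro v hv hs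
      refine hF.2 v ?_ hs
      rw [hrows] at hv
      exact (Finset.mem_erase.1 hv).2
    · have h1 := sum_out S _ hinjS _ F hrows hF.1 (fun h => hF.2 0 h (zero_mem _))
        (tw (D.gmat σ) σ)
      rw [← h1]
      refine Finset.sum_congr rfl fun i _ => ?_
      rw [← hσ]
      exact htw _
  have hconst : ∀ z : Fin n → ZMod 2, (∀ L L', Close S Cyc (fun i =>
      twist (Graph_R D.Interlaced D.sign) (cutState D.Interlaced D.sign)
        (row (Graph_R D.Interlaced D.sign) i)) (2 * (B + 2) * (S.card + 1)) L L' →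
        ∑ i ∈ L, z i = ∑ i ∈ L', z i) →
      ∀ F ∈ FL (D.gmat σ), ∀ F' ∈ FL (D.gmat σ),
      |∑ v ∈ F, tw (D.gmat σ) σ v - ∑ v ∈ F', tw (D.gmat σ) σ v| <
        2 * ((B : ℤ) + 2) * ((D.gmat σ).rank + 1) → ∑ v ∈ F, y z v = ∑ v ∈ F', y z v := by
    intro z hz F hF F' hF' h
    obtain ⟨h1, h2, h3⟩ := hcyc F hF
    obtain ⟨h1', h2', h3'⟩ := hcyc F' hF'
    have h4 := hz _ _ ⟨h1, h1', h2, h2', by
      show |(∑ i ∈ _, twist (Graph_R D.Interlaced D.sign) (cutState D.Interlaced D.sign)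
          (row (Graph_R D.Interlaced D.sign) i)) - (∑ i ∈ _, twist (Graph_R D.Interlaced D.sign)
          (cutState D.Interlaced D.sign) (row (Graph_R D.Interlaced D.sign) i))| < _
      rw [h3, h3']
      have h6 : ∑ v ∈ Finset.univ.image (D.gmat σ), tw (D.gmat σ) σ v -
          ∑ v ∈ F, tw (D.gmat σ) σ v - (∑ v ∈ Finset.univ.image (D.gmat σ), tw (D.gmat σ) σ v -
          ∑ v ∈ F', tw (D.gmat σ) σ v) =
          -(∑ v ∈ F, tw (D.gmat σ) σ v - ∑ v ∈ F', tw (D.gmat σ) σ v) := by ring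
      rw [h6, abs_neg]
      refine h.trans_le ?_
      have h7 : ((2 * (B + 2) * ((D.gmat σ).rank + 1) : ℕ) : ℤ) ≤
          ((2 * (B + 2) * (S.card + 1) : ℕ) : ℤ) := by exact_mod_cast hN'
      push_cast at h7 ⊢
      exact h7⟩
    rw [hsumF z F hF, hsumF z F' hF'] at h4
    exact sub_right_injective h4
  have key := iso_mainF (D.gmat σ) (D.gmat_symm σ) σ B
    (card_SS D σ B (by rw [RelL_odd]; exact hB)) ρ (by
      intro v hv h0
      have h1 : v ∈ S.image (D.gmat σ) := by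
        rw [← hXS]
        exact Finset.mem_erase.2 ⟨h0, hv⟩
      obtain ⟨i, hi, rfl⟩ := Finset.mem_image.1 h1
      rw [hρ i hi]) (y x) (y x') (by rw [hy, if_pos rfl]) (by rw [hy, if_pos rfl])
    (hconst x hx) (hconst x' hx')
  have h0 : ∀ z, y z 0 = 0 := fun z => by rw [hy, if_pos rfl]
  rw [← Finset.sum_subset (Finset.erase_subset 0 (Finset.univ.image (D.gmat σ))), hXS,
    Finset.sum_image hinjM] at key
  · rw [← key]
    refine Finset.sum_congr rfl fun i hi => ?_
    rw [← Finset.sum_subset (Finset.erase_subset 0 (Finset.univ.image (D.gmat σ))), hXS,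
      Finset.sum_image hinjM]
    · refine Finset.sum_congr rfl fun j hj => ?_
      rw [hy, hy, if_neg (hzero i hi), if_neg (hzero j hj), hρ i hi, hρ j hj, ← hr, RelL_entry]
    · intro v hvX hv
      have hv0 : v = 0 := by
        by_contra h
        exact hv (Finset.mem_erase.2 ⟨h, hvX⟩)
      rw [hv0, h0, mul_zero, zero_mul]
  · intro v hvX hv
    have hv0 : v = 0 := by
      by_contra h
      exact hv (Finset.mem_erase.2 ⟨h, hvX⟩)
    refine Finset.sum_eq_zero fun u _ => ?_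
    rw [hv0, h0, zero_mul, zero_mul]

end

end Pool.Agent.NHT
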