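import Mathlib
import Pool.Agent.NHT.Pair
import Pool.Agent.NHT.DefsF
import Pool.Agent.NHT.Parity

/-!
# NHT, module PairK: few relations between the twist numbers (helper68)

It is the form of helper32's and helper3's theorem (FHP/RelL) for close cycle sets.
-/

set_option autoImplicit false
set_option linter.unusedSectionVars false

open Module Submodule Pool.Agent.UNI LaurentPolynomial Pool.Agent.SPT Pool.Agent.SPT.Rel
  Pool.Agent.SPT.Lin Pool.Agent.SRH Pool.Agent.EQT Pool.Agent.FHP Pool.Agent.TRA Pool.Agent.TRP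

namespace Pool.Agent.NHT

open Pool.Agent.Helper16.Knotoid

/-- the indicator modulo `2` -/
def ind2 {ι : Type} [DecidableEq ι] (L : Finset ι) (i : ι) : ZMod 2 := if i ∈ L then 1 else 0

section

variable {n : ℕ}

/-- the sum over a set, for a weight which is zero outside of `J` -/
theorem sum_ind2 (J L : Finset (Fin n)) (w : Fin n → ZMod 2) (hw : ∀ i, i ∉ J → w i = 0) :
    ∑ i ∈ L, w i = ∑ i : J, w i.1 * ind2 L i.1 := by
  classical
  have h1 : ∑ i : J, w i.1 * ind2 L i.1 = ∑ i ∈ J, w i * ind2 L i :=
    Finset.sum_coe_sort J fun i => w i * ind2 L i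
  rw [h1]
  have h2 : ∑ i ∈ J, w i * ind2 L i = ∑ i, w i * ind2 L i :=
    Finset.sum_subset (Finset.subset_univ J) fun i _ hi => by rw [hw i hi, zero_mul]
  rw [h2]
  have h3 : ∀ i, w i * ind2 L i = if i ∈ L then w i else 0 := by
    intro i
    unfold ind2
    by_cases h : i ∈ L
    · rw [if_pos h, if_pos h, mul_one]
    · rw [if_neg h, if_neg h, mul_zero]
  rw [Finset.sum_congr rfl fun i _ => h3 i, Finset.sum_ite_mem, Finset.univ_inter]

/-- **Independent pairs of close cycle sets**: their traces on `J` -/
theorem pair_indep (D : GaussDiagram n) (S : Finset (Fin n)) (hS : Transversal D.Interlaced S)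
    (B : ℕ) (Cyc : Finset (Fin n) → Prop)
    (hblock : Block S Cyc (row (Graph_R D.Interlaced D.sign)))
    (hB : oddCount D.normalizedBracket ≤ B) (J : Finset (Fin n)) (hJ : J ⊆ S) (m : ℕ)
    (hm : 2 * m ≤ (Matrix.of fun i j : J => cutEntry D.Interlaced i.1 j.1).rank + 1) :
    ∃ L L' : Fin m → Finset (Fin n),
      (∀ j, Close S Cyc (cutTwist D.Interlaced D.sign) (2 * (B + 2) * (S.card + 1))
        (L j) (L' j)) ∧
      LinearIndependent (ZMod 2) fun (j : Fin m) (i : J) => ind2 (L j) i.1 + ind2 (L' j) i.1 := by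
  classical
  obtain ⟨x, hx, hLI⟩ := LinD_main (Matrix.of fun i j : J => cutEntry D.Interlaced i.1 j.1)
    {x | ∃ L L', Close S Cyc (cutTwist D.Interlaced D.sign) (2 * (B + 2) * (S.card + 1)) L L' ∧
      ∀ i : J, x i = ind2 L i.1 + ind2 L' i.1} (fun w w' hw hw' => by
      have hext : ∀ w : J → ZMod 2, ∃ u : Fin n → ZMod 2, (∀ i : J, u i.1 = w i) ∧
          ∀ i, i ∉ J → u i = 0 := fun w =>
        ⟨fun i => if h : i ∈ J then w ⟨i, h⟩ else 0, fun i => dif_pos i.2,
          fun i hi => dif_neg hi⟩
      obtain ⟨u, hu, hu0⟩ := hext w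
      obtain ⟨u', hu', hu0'⟩ := hext w'
      have key : ∀ (w : J → ZMod 2) (u : Fin n → ZMod 2), (∀ i : J, u i.1 = w i) →
          (∀ i, i ∉ J → u i = 0) →
          (∀ d ∈ {x : J → ZMod 2 | ∃ L L', Close S Cyc (cutTwist D.Interlaced D.sign)
            (2 * (B + 2) * (S.card + 1)) L L' ∧ ∀ i : J, x i = ind2 L i.1 + ind2 L' i.1},
            w ⬝ᵥ d = 0) →
          ∀ L L', Close S Cyc (cutTwist D.Interlaced D.sign) (2 * (B + 2) * (S.card + 1)) L L' →
            ∑ i ∈ L, u i = ∑ i ∈ L', u i := by
        intro w u hu hu0 hw L L' hLL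
        have h1 := hw (fun i => ind2 L i.1 + ind2 L' i.1) ⟨L, L', hLL, fun i => rfl⟩
        unfold dotProduct at h1
        rw [Finset.sum_congr rfl fun i _ => mul_add (w i) _ _, Finset.sum_add_distrib] at h1
        have hsum : ∀ L : Finset (Fin n), ∑ i ∈ L, u i = ∑ i : J, w i * ind2 L i.1 := by
          intro L
          rw [sum_ind2 J L u hu0]
          exact Finset.sum_congr rfl fun i _ => by rw [hu i]
        rw [hsum L, hsum L']
        exact CharTwo.add_eq_zero.1 h1
      have h1 := pair_close D S hS B Cyc hblock hB u u' (key w u hu hu0 hw)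
        (key w' u' hu' hu0' hw')
      rw [← h1]
      have h2 : ∀ f : Fin n → ZMod 2, (∀ i, i ∉ J → f i = 0) → ∑ i ∈ S, f i = ∑ i : J, f i.1 := by
        intro f hf
        rw [← Finset.sum_subset hJ fun i _ hi => hf i hi]
        exact (Finset.sum_coe_sort J f).symm
      rw [h2 _ fun i hi => Finset.sum_eq_zero fun j _ => by rw [hu0 i hi, zero_mul, zero_mul]]
      unfold Matrix.mulVec dotProduct
      refine Finset.sum_congr rfl fun i _ => ?_
      rw [h2 _ fun j hj => by rw [hu0' j hj, mul_zero, zero_mul], Finset.mul_sum]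
      refine Finset.sum_congr rfl fun j _ => ?_
      rw [hu, hu']
      show w i * (cutEntry D.Interlaced i.1 j.1 * w' j) = _
      ring) m hm
  choose L L' hL hx using hx
  refine ⟨L, L', hL, ?_⟩
  have h2 : (fun (j : Fin m) (i : J) => ind2 (L j) i.1 + ind2 (L' j) i.1) = x := by
    funext j i
    exact (hx j i).symm
  rw [h2]
  exact hLI

/-- the rank of the cut matrix as the cycle rank of the graph of all classes -/
theorem cycleRank_span {V : Type} [DecidableEq V] [AddCommGroup V] [Module (ZMod 2) V]
    {ι : Type} [DecidableEq ι] {S : Finset ι} {Cyc : Finset ι → Prop} {r : ι → V}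
    (hB : Block S Cyc r) : cycleRank Cyc S =
      finrank (ZMod 2) (span (ZMod 2) ((S.image r : Finset V) : Set V)) := by
  have h1 := rank_cycleRank hB (Finset.Subset.refl S)
  rw [Finset.sdiff_self, Finset.image_empty, Finset.coe_empty, span_empty, finrank_bot,
    Nat.zero_add] at h1
  exact h1.symm

/-- **Many independent pairs of close cycle sets** -/
theorem pair_many (D : GaussDiagram n) (S : Finset (Fin n)) (hS : Transversal D.Interlaced S)
    (hne : S.Nonempty) (B : ℕ) (Cyc : Finset (Fin n) → Prop)
    (hblock : Block S Cyc (row (Graph_R D.Interlaced D.sign)))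
    (hB : oddCount D.normalizedBracket ≤ B) (m : ℕ)
    (hm : 2 * m ≤ cycleRank Cyc S + 1 ∨ 6 * m ≤ S.card + 6) :
    IndependentPairs S Cyc (cutTwist D.Interlaced D.sign) (2 * (B + 2) * (S.card + 1)) m := by
  classical
  have hi := Graph_irrefl D
  have hs := Graph_int_symm D
  have hspan : span (ZMod 2) (rows (Graph_R D.Interlaced D.sign) : Set (Fin n → ZMod 2)) =
      span (ZMod 2) ((S.image (row (Graph_R D.Interlaced D.sign)) : Finset _) :
        Set (Fin n → ZMod 2)) := by
    rw [← Graph_image hi hs hS]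
    exact (span_erase_zero _).symm
  have hcr := cycleRank_span hblock
  have hr := LinM_rank (e := D.sign) hi hs hS
  have hA : (Matrix.of fun (i j : S) => row (Graph_R D.Interlaced D.sign) i.1 j.1) =
      Matrix.of fun i j : S => cutEntry D.Interlaced i.1 j.1 := by
    ext i j
    exact RelL_entry i.1 j.1
  rw [hA, hspan, ← hcr] at hr
  have hm' : 2 * m ≤ cycleRank Cyc S + 1 := by
    rcases hm with hm | hm
    · exact hm
    · rcases Nat.lt_or_ge S.card 2 with h4 | h4
      · have h5 : 0 < S.card := hne.card_pos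
        have h6 : 1 ≤ cycleRank Cyc S := by
          rw [hcr, Submodule.one_le_finrank_iff]
          obtain ⟨i, hiS⟩ := hne
          intro h0
          have h7 : row (Graph_R D.Interlaced D.sign) i ∈
              span (ZMod 2) ((S.image (row (Graph_R D.Interlaced D.sign)) : Finset _) :
                Set (Fin n → ZMod 2)) :=
            subset_span (Finset.mem_coe.2 (Finset.mem_image_of_mem _ hiS))
          rw [h0, Submodule.mem_bot] at h7
          exact (Graph_ne (e := D.sign) i).2 (hS.1 i hiS) h7
        omega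
      · have h5 := LinK_knotoid D hS h4
        rw [hspan, ← hcr] at h5
        omega
  obtain ⟨L, L', hL, hLI⟩ := pair_indep D S hS B Cyc hblock hB S (Finset.Subset.refl S) m
    (by omega)
  refine ⟨L, L', hL, ?_⟩
  obtain ⟨ρ, hρ⟩ : ∃ ρ : (Fin n → ZMod 2) →ₗ[ZMod 2] (S → ZMod 2), ∀ v i, ρ v i = v i.1 :=
    ⟨LinearMap.funLeft (ZMod 2) (ZMod 2) fun i : S => i.1, fun v i => rfl⟩
  refine LinearIndependent.of_comp ρ ?_
  have h2 : ⇑ρ ∘ (fun (j : Fin m) (i : Fin n) => (if i ∈ L j then (1 : ZMod 2) else 0) +
      if i ∈ L' j then 1 else 0) = fun (j : Fin m) (i : S) => ind2 (L j) i.1 + ind2 (L' j) i.1 := by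
    funext j i
    rw [Function.comp_apply, hρ]
    rfl
  rw [h2]
  exact hLI

theorem odd_le_terms (f : ℤ[T;T⁻¹]) (B : ℕ) (h : ¬ B < terms f) : oddCount f ≤ B := by
  refine le_trans ?_ (not_lt.1 h)
  unfold oddCount terms
  exact Finset.card_le_card (Finset.filter_subset _ _)

/-- few relations -/
theorem FewDifferences.cases {ι : Type} [DecidableEq ι] {S : Finset ι} {CycS : Finset ι → Prop}
    {a : ι → ℤ} {N : ℕ} (h : FewDifferences S CycS a N)
    (hall : ∀ m, (2 * m ≤ cycleRank CycS S + 1 ∨ 6 * m ≤ S.card + 6) →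
      IndependentPairs S CycS a N m) : False := by
  rcases h with h | h
  · exact h ((cycleRank CycS S + 1) / 2) (by omega) (hall _ (Or.inl (by omega)))
  · exact h (S.card / 6 + 1) (by omega) (hall _ (Or.inr (by omega)))

/-- **Knotoid diagrams** with few relations between the twist numbers: the odd coefficients -/
theorem knotoidFewOdd (D : GaussDiagram n) (S : Finset (Fin n))
    (hS : Transversal D.Interlaced S) (hne : S.Nonempty) (B : ℕ)
    (h : FewDifferences S (HasCycleInO D ∅) (cutTwist D.Interlaced D.sign)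
      (2 * (B + 2) * (S.card + 1))) : B < oddCount D.normalizedBracket := by
  by_contra hB
  have hblock := thm_KnotoidBlock n D S S hS (Finset.Subset.refl S)
  rw [Finset.sdiff_self] at hblock
  exact h.cases fun m hm => pair_many D S hS hne B _ hblock (not_lt.1 hB) m hm

/-- **Knot diagrams** with few relations between the twist numbers: the odd coefficients -/
theorem knotFewOdd (g : GaussJones.Code n) (e : Fin n → Bool) (S : Finset (Fin n))
    (hS : Transversal (GaussJones.Interlaced g) S) (hne : S.Nonempty) (B : ℕ)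
    (h : FewDifferences S (HasCycleIn g ∅) (cutTwist (GaussJones.Interlaced g) e)
      (2 * (B + 2) * (S.card + 1))) : B < oddCount (GaussJones.fPoly g e) := by
  classical
  have hn : 0 < n := by
    obtain ⟨i, -⟩ := hne
    exact i.pos
  by_contra hB
  have hblock := thm_KnotBlock n g e S S hS (Finset.Subset.refl S)
  rw [Finset.sdiff_self] at hblock
  rw [f_closed hn] at hB
  rw [← interlaced_fun g e] at hS h hblock
  exact h.cases fun m hm => pair_many (cutOpen g e) S hS hne B _ hblock (not_lt.1 hB) m hm

/-- **Knotoid diagrams** with few relations between the twist numbers -/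
theorem knotoidFew (D : GaussDiagram n) (S : Finset (Fin n))
    (hS : Transversal D.Interlaced S) (hne : S.Nonempty) (B : ℕ)
    (h : FewDifferences S (HasCycleInO D ∅) (cutTwist D.Interlaced D.sign)
      (2 * (B + 2) * (S.card + 1))) : B < terms D.normalizedBracket := by
  by_contra hB
  exact absurd (odd_le_terms _ _ hB) (not_le.2 (knotoidFewOdd D S hS hne B h))

/-- **Knot diagrams** with few relations between the twist numbers -/
theorem knotFew (g : GaussJones.Code n) (e : Fin n → Bool) (S : Finset (Fin n))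
    (hS : Transversal (GaussJones.Interlaced g) S) (hne : S.Nonempty) (B : ℕ)
    (h : FewDifferences S (HasCycleIn g ∅) (cutTwist (GaussJones.Interlaced g) e)
      (2 * (B + 2) * (S.card + 1))) : B < terms (GaussJones.fPoly g e) := by
  by_contra hB
  exact absurd (odd_le_terms _ _ hB) (not_le.2 (knotFewOdd g e S hS hne B h))

end

end Pool.Agent.NHT
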