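import Mathlib
import Pool.Agent.NHT.PairK
import Pool.Agent.NHT.DefsG
import Pool.Agent.NHT.CompW

/-!
# NHT, module PairJ: few relations between the twist numbers of a set of classes (helper68)
-/

set_option autoImplicit false
set_option linter.unusedSectionVars false

open Module Submodule Pool.Agent.UNI LaurentPolynomial Pool.Agent.SPT Pool.Agent.SPT.Rel
  Pool.Agent.SPT.Lin Pool.Agent.SRH Pool.Agent.EQT Pool.Agent.FHP Pool.Agent.TRA Pool.Agent.TRP

namespace Pool.Agent.NHT

open Pool.Agent.Helper16.Knotoid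

section

variable {n : ℕ}

/-- the corank of the submatrix of `J` -/
theorem card_le_rank_crk (N : Matrix (Fin n) (Fin n) (ZMod 2)) (J : Finset (Fin n)) :
    J.card ≤ (Matrix.of fun i j : J => N i.1 j.1).rank + crk (remM N (Finset.univ \ J)) := by
  classical
  obtain ⟨A, hA⟩ : ∃ A : Matrix J J (ZMod 2), A = Matrix.of fun i j : J => N i.1 j.1 := ⟨_, rfl⟩
  rw [← hA]
  obtain ⟨f, hf⟩ : ∃ f : (J → ZMod 2) →ₗ[ZMod 2] (Fin n → ZMod 2), ∀ x, (∀ i : J, f x i.1 = x i) ∧
      ∀ i, i ∉ J → f x i = 0 := by
    refine ⟨{ toFun := fun x i => if h : i ∈ J then x ⟨i, h⟩ else 0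
              map_add' := fun x y => ?_
              map_smul' := fun a x => ?_ }, fun x => ⟨fun i => dif_pos i.2, fun i hi => dif_neg hi⟩⟩
    · funext i
      show (if h : i ∈ J then (x + y) ⟨i, h⟩ else 0) =
        (if h : i ∈ J then x ⟨i, h⟩ else 0) + if h : i ∈ J then y ⟨i, h⟩ else 0
      by_cases h : i ∈ J
      · rw [dif_pos h, dif_pos h, dif_pos h, Pi.add_apply]
      · rw [dif_neg h, dif_neg h, dif_neg h, add_zero]
    · funext i
      show (if h : i ∈ J then (a • x) ⟨i, h⟩ else 0) = a * if h : i ∈ J then x ⟨i, h⟩ else 0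
      by_cases h : i ∈ J
      · rw [dif_pos h, dif_pos h]
        rfl
      · rw [dif_neg h, dif_neg h, mul_zero]
  have hinj : Function.Injective f := by
    intro x y hxy
    funext i
    rw [← (hf x).1 i, ← (hf y).1 i, hxy]
  have h1 : (LinearMap.ker A.mulVecLin).map f ≤
      LinearMap.ker (remM N (Finset.univ \ J)).mulVecLin := by
    rintro y ⟨x, hx, rfl⟩
    have hx' : A.mulVec x = 0 := LinearMap.mem_ker.1 hx
    rw [LinearMap.mem_ker, Matrix.mulVecLin_apply]
    funext i
    show ∑ j, remM N (Finset.univ \ J) i j * f x j = 0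
    by_cases hi : i ∈ J
    · have h2 := congrFun hx' ⟨i, hi⟩
      have h3 : ∑ j : J, A ⟨i, hi⟩ j * x j = 0 := h2
      rw [← Finset.sum_subset (Finset.subset_univ J) fun j _ hj => by
        rw [(hf x).2 j hj, mul_zero], ← h3, ← Finset.sum_coe_sort J fun j =>
          remM N (Finset.univ \ J) i j * f x j]
      refine Finset.sum_congr rfl fun j _ => ?_
      rw [(hf x).1 j, remM_apply, if_neg, hA]
      · rfl
      · rintro (h | h)
        · exact (Finset.mem_sdiff.1 h).2 hi
        · exact (Finset.mem_sdiff.1 h).2 j.2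
    · refine Finset.sum_eq_zero fun j _ => ?_
      rw [remM_apply, if_pos (Or.inl (Finset.mem_sdiff.2 ⟨Finset.mem_univ i, hi⟩))]
      by_cases hij : i = j
      · rw [← hij, (hf x).2 i hi, mul_zero]
      · rw [if_neg hij, zero_mul]
  have h2 := Submodule.finrank_mono h1
  rw [← (Submodule.equivMapOfInjective f hinj (LinearMap.ker A.mulVecLin)).finrank_eq] at h2
  have h3 := LinearMap.finrank_range_add_finrank_ker A.mulVecLin
  rw [finrank_fintype_fun_eq_card, Fintype.card_coe] at h3
  have h4 : A.rank = finrank (ZMod 2) (LinearMap.range A.mulVecLin) := rfl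
  unfold crk
  omega

/-- **Independent pairs on `J`** -/
theorem pair_on (D : GaussDiagram n) (hn : 0 < n) (S : Finset (Fin n))
    (hS : Transversal D.Interlaced S) (B : ℕ) (Cyc : Finset (Fin n) → Prop)
    (hblock : Block S Cyc (row (Graph_R D.Interlaced D.sign)))
    (hB : oddCount D.normalizedBracket ≤ B) (J : Finset (Fin n)) (hJ : J ⊆ S) (m : ℕ)
    (hm : 2 * m + cutCompsO D J ≤ J.card + 2) :
    IndependentTraces S J Cyc (cutTwist D.Interlaced D.sign) (2 * (B + 2) * (S.card + 1)) m := by
  classical
  have h1 := cutCompsO_crk hn D J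
  have h2 := card_le_rank_crk (D.gmat (cutState D.Interlaced D.sign)) J
  have hA : (Matrix.of fun (i j : J) => D.gmat (cutState D.Interlaced D.sign) i.1 j.1) =
      Matrix.of fun i j : J => cutEntry D.Interlaced i.1 j.1 := by
    ext i j
    show D.gmat (cutState D.Interlaced D.sign) i.1 j.1 = cutEntry D.Interlaced i.1 j.1
    rw [← RelL_entry (e := D.sign)]
    have h3 : Graph_R D.Interlaced D.sign = D.Cut (cutState D.Interlaced D.sign) := rfl
    rw [h3]
    exact (congrFun (row_eq D (cutState D.Interlaced D.sign) i.1) j.1).symm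
  rw [hA] at h2
  obtain ⟨L, L', hL, hLI⟩ := pair_indep D S hS B Cyc hblock hB J hJ m (by omega)
  refine ⟨L, L', hL, ?_⟩
  obtain ⟨ρ, hρ⟩ : ∃ ρ : (Fin n → ZMod 2) →ₗ[ZMod 2] (J → ZMod 2), ∀ v i, ρ v i = v i.1 :=
    ⟨LinearMap.funLeft (ZMod 2) (ZMod 2) fun i : J => i.1, fun v i => rfl⟩
  refine LinearIndependent.of_comp ρ ?_
  have h5 : ⇑ρ ∘ (fun (j : Fin m) (i : Fin n) => (if i ∈ L j ∩ J then (1 : ZMod 2) else 0) +
      if i ∈ L' j ∩ J then 1 else 0) = fun (j : Fin m) (i : J) => ind2 (L j) i.1 + ind2 (L' j) i.1 := by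
    funext j i
    rw [Function.comp_apply, hρ]
    unfold ind2
    have h6 : ∀ L : Finset (Fin n), i.1 ∈ L ∩ J ↔ i.1 ∈ L := fun L => by
      rw [Finset.mem_inter]
      exact and_iff_left i.2
    simp only [h6]
  rw [h5]
  exact hLI

/-- **Knotoid diagrams** with few relations between the twist numbers of the classes in `J` -/
theorem knotoidTraces (D : GaussDiagram n) (S : Finset (Fin n))
    (hS : Transversal D.Interlaced S) (J : Finset (Fin n)) (hJ : J ⊆ S) (hne : J.Nonempty) (B : ℕ)
    (h : FewTraces S J (HasCycleInO D ∅) (cutCompsO D) (cutTwist D.Interlaced D.sign)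
      (2 * (B + 2) * (S.card + 1))) : B < terms D.normalizedBracket := by
  by_contra hB
  have hn : 0 < n := by
    obtain ⟨i, -⟩ := hne
    exact i.pos
  have hblock := thm_KnotoidBlock n D S S hS (Finset.Subset.refl S)
  rw [Finset.sdiff_self] at hblock
  have hc : cutCompsO D J < J.card + 1 := by
    by_contra h1
    exact h 0 (by omega) ⟨fun j => j.elim0, fun j => j.elim0, fun j => j.elim0,
      linearIndependent_empty_type⟩
  exact h ((J.card + 2 - cutCompsO D J) / 2) (by omega)
    (pair_on D hn S hS B _ hblock (odd_le_terms _ _ hB) J hJ _ (by omega))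

/-- **Knot diagrams** with few relations between the twist numbers of the classes in `J` -/
theorem knotTraces (g : GaussJones.Code n) (e : Fin n → Bool) (S : Finset (Fin n))
    (hS : Transversal (GaussJones.Interlaced g) S) (J : Finset (Fin n)) (hJ : J ⊆ S)
    (hne : J.Nonempty) (B : ℕ)
    (h : FewTraces S J (HasCycleIn g ∅) (cutComps g) (cutTwist (GaussJones.Interlaced g) e)
      (2 * (B + 2) * (S.card + 1))) : B < terms (GaussJones.fPoly g e) := by
  classical
  by_contra hB
  have hn : 0 < n := by
    obtain ⟨i, -⟩ := hne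
    exact i.pos
  have hblock := thm_KnotBlock n g e S S hS (Finset.Subset.refl S)
  rw [Finset.sdiff_self] at hblock
  have hc : cutComps g J < J.card + 1 := by
    by_contra h1
    exact h 0 (by omega) ⟨fun j => j.elim0, fun j => j.elim0, fun j => j.elim0,
      linearIndependent_empty_type⟩
  rw [f_closed hn] at hB
  rw [← interlaced_fun g e] at hS h hblock
  rw [← cutComps_open g e J] at hc
  refine h ((J.card + 2 - cutCompsO (cutOpen g e) J) / 2) ?_
    (pair_on (cutOpen g e) hn S hS B _ hblock (odd_le_terms _ _ hB) J hJ _ (by omega))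
  rw [← cutComps_open g e J]
  omega

/-- **Knotoid diagrams** with at most `k / 6` independent differences of close cycle sets -/
theorem knotoidPairs (D : GaussDiagram n) (S : Finset (Fin n))
    (hS : Transversal D.Interlaced S) (hne : S.Nonempty) (B : ℕ)
    (h : FewPairs S (HasCycleInO D ∅) (cutTwist D.Interlaced D.sign)
      (2 * (B + 2) * (S.card + 1))) : B < terms D.normalizedBracket :=
  knotoidFew D S hS hne B (Or.inr h)

/-- **Knot diagrams** with at most `k / 6` independent differences of close cycle sets -/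
theorem knotPairs (g : GaussJones.Code n) (e : Fin n → Bool) (S : Finset (Fin n))
    (hS : Transversal (GaussJones.Interlaced g) S) (hne : S.Nonempty) (B : ℕ)
    (h : FewPairs S (HasCycleIn g ∅) (cutTwist (GaussJones.Interlaced g) e)
      (2 * (B + 2) * (S.card + 1))) : B < terms (GaussJones.fPoly g e) :=
  knotFew g e S hS hne B (Or.inr h)

end

end Pool.Agent.NHT
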