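import Pool.Agent.NHT.Final16
import Pool.Agent.NHT.PairJ

/-!
# NHT, version 17, module Final17: the final statement with few traces (helper38)
-/

set_option autoImplicit false

open Submodule LaurentPolynomial Module

namespace Pool.Agent.NHT

open Pool.Agent.SPT Pool.Agent.SPT.Rel Pool.Agent.EQT Pool.Agent.FHP Pool.Agent.Helper16.Knotoid
open Pool.Agent.TRA Pool.Agent.TRP

variable {n : ℕ}

/-- **knotoid diagrams** -/
theorem knotoidF17 (D : GaussDiagram n) (S : Finset (Fin n)) (hS : Transversal D.Interlaced S)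
    (hne : S.Nonempty) (B : ℕ)
    (h : LongCycles S (HasCycleInO D ∅) (cutTwist D.Interlaced D.sign)
        (2 * (B + 2) * (S.card + 1)) ∨
      FewPairs S (HasCycleInO D ∅) (cutTwist D.Interlaced D.sign)
        (2 * (B + 2) * (S.card + 1)) ∨
      ∃ J ⊆ S, J.Nonempty ∧
        (FewTraces S J (HasCycleInO D ∅) (cutCompsO D) (cutTwist D.Interlaced D.sign)
            (2 * (B + 2) * (S.card + 1)) ∨
          ((¬ HasCycleInO D ∅ (S \ J) ∨ cutDetO D J ≠ 0) ∧
            (Separating S J (HasCycleInO D ∅) (HasCycleInO D (S \ J))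
                (cutTwist D.Interlaced D.sign) (2 * (B + 2) * (S.card + 1)) ∨
              NearlyEqual S J (cutTwist D.Interlaced D.sign) (2 * (B + 2) * (S.card + 1)) ∨
              LongSigned S J (HasCycleInO D (S \ J)) (cutTwist D.Interlaced D.sign)
                (2 * (B + 2) * (S.card + 1)) ∨
              LongBlocks S J (HasCycleInO D (S \ J))
                (row (D.Cut (cutState D.Interlaced D.sign))) (cutTwist D.Interlaced D.sign)
                (2 * (B + 2) * (S.card + 1)))) ∨
          TwoAdic S J (HasCycleInO D ∅) (cutCompsO D) (cutTwist D.Interlaced D.sign)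
            (2 * (B + 2) * (S.card + 1)) ∨
          (cutCompsO D J = 1 ∧
            Long S J (cutTwist D.Interlaced D.sign) (2 * (B + 2) * (S.card + 1))))) :
    B < terms D.normalizedBracket ∧ (1 ≤ B → D.normalizedBracket ≠ 1) := by
  rcases h with h | h | ⟨J, hJ, hJne, h | h⟩
  · exact knotoidF16 D S hS hne B (Or.inl h)
  · exact ⟨knotoidPairs D S hS hne B h, ne_one_of_terms (knotoidPairs D S hS hne B h)⟩
  · exact ⟨knotoidTraces D S hS J hJ hJne B h,
      ne_one_of_terms (knotoidTraces D S hS J hJ hJne B h)⟩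
  · exact knotoidF16 D S hS hne B (Or.inr ⟨J, hJ, hJne, h⟩)

/-- **knot diagrams** -/
theorem knotF17 (g : GaussJones.Code n) (e : Fin n → Bool) (S : Finset (Fin n))
    (hS : Transversal (GaussJones.Interlaced g) S) (hne : S.Nonempty) (B : ℕ)
    (h : LongCycles S (HasCycleIn g ∅) (cutTwist (GaussJones.Interlaced g) e)
        (2 * (B + 2) * (S.card + 1)) ∨
      FewPairs S (HasCycleIn g ∅) (cutTwist (GaussJones.Interlaced g) e)
        (2 * (B + 2) * (S.card + 1)) ∨
      ∃ J ⊆ S, J.Nonempty ∧
        (FewTraces S J (HasCycleIn g ∅) (cutComps g) (cutTwist (GaussJones.Interlaced g) e)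
            (2 * (B + 2) * (S.card + 1)) ∨
          ((¬ HasCycleIn g ∅ (S \ J) ∨ cutDet g e J ≠ 0) ∧
            (Separating S J (HasCycleIn g ∅) (HasCycleIn g (S \ J))
                (cutTwist (GaussJones.Interlaced g) e) (2 * (B + 2) * (S.card + 1)) ∨
              NearlyEqual S J (cutTwist (GaussJones.Interlaced g) e)
                (2 * (B + 2) * (S.card + 1)) ∨
              LongSigned S J (HasCycleIn g (S \ J)) (cutTwist (GaussJones.Interlaced g) e)
                (2 * (B + 2) * (S.card + 1)) ∨
              LongBlocks S J (HasCycleIn g (S \ J))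
                (row (GaussJones.Cut g e (cutState (GaussJones.Interlaced g) e)))
                (cutTwist (GaussJones.Interlaced g) e) (2 * (B + 2) * (S.card + 1)))) ∨
          TwoAdic S J (HasCycleIn g ∅) (cutComps g) (cutTwist (GaussJones.Interlaced g) e)
            (2 * (B + 2) * (S.card + 1)) ∨
          (cutComps g J = 1 ∧
            Long S J (cutTwist (GaussJones.Interlaced g) e) (2 * (B + 2) * (S.card + 1))))) :
    B < terms (GaussJones.fPoly g e) ∧ (1 ≤ B → GaussJones.fPoly g e ≠ 1) := by
  rcases h with h | h | ⟨J, hJ, hJne, h | h⟩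
  · exact knotF16 g e S hS hne B (Or.inl h)
  · exact ⟨knotPairs g e S hS hne B h, ne_one_of_terms (knotPairs g e S hS hne B h)⟩
  · exact ⟨knotTraces g e S hS J hJ hJne B h,
      ne_one_of_terms (knotTraces g e S hS J hJ hJne B h)⟩
  · exact knotF16 g e S hS hne B (Or.inr ⟨J, hJ, hJne, h⟩)

end Pool.Agent.NHT
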