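import Pool.Agent.NHT.TextB
import Pool.Agent.NHT.Ends

/-!
# NHT, version 19, module Final19: the final statement for knots (helper38)
-/

set_option autoImplicit false

open LaurentPolynomial

namespace Pool.Agent.NHT

open Pool.Agent.SPT Pool.Agent.EQT Pool.Agent.FHP Pool.Agent.TRA Pool.Agent.TRP

variable {n : ℕ}

/-- **knot diagrams** -/
theorem knotF19 (g : GaussJones.Code n) (e : Fin n → Bool) (S : Finset (Fin n))
    (hS : Text.Transversal (GaussJones.Interlaced g) S) (hne : S.Nonempty) (B : ℕ)
    (h : Text.LongCycles S (Text.HasCycle g ∅) (Text.twist (GaussJones.Interlaced g) e)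
        (2 * (B + 2) * (S.card + 1)) ∨
      (∀ m, S.card < 6 * m → ¬ Text.Independent S S (Text.HasCycle g ∅)
        (Text.twist (GaussJones.Interlaced g) e) (2 * (B + 2) * (S.card + 1)) m) ∨
      ∃ J ⊆ S, J.Nonempty ∧
        ((∀ m, J.card + 1 ≤ Text.cutComps g J + 2 * m → ¬ Text.Independent S J (Text.HasCycle g ∅)
            (Text.twist (GaussJones.Interlaced g) e) (2 * (B + 2) * (S.card + 1)) m) ∨
          (Text.cutComps g J ≤ J.card ∧
            ((∃ L₀ ⊆ J, Text.EvenEnds g J L₀ ∧ Text.Isolated S J (Text.HasCycle g ∅)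
              (Text.twist (GaussJones.Interlaced g) e) (2 * (B + 2) * (S.card + 1)) L₀) ∨
            ∀ i ∈ J, Text.rest S J (Text.twist (GaussJones.Interlaced g) e)
              (2 * (B + 2) * (S.card + 1)) ≤ Text.twist (GaussJones.Interlaced g) e i)) ∨
          (Text.cutComps g J = 1 ∧
            ∀ i ∈ J, Text.rest S J (Text.twist (GaussJones.Interlaced g) e)
              (2 * (B + 2) * (S.card + 1)) ≤ |Text.twist (GaussJones.Interlaced g) e i|) ∨
          ((¬ Text.HasCycle g ∅ (S \ J) ∨ Text.cutDet g e J ≠ 0) ∧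
            ((∃ L₀ ⊆ J, Text.CycleSet (Text.HasCycle g (S \ J)) L₀ ∧
                Text.Isolated S J (Text.HasCycle g ∅)
                  (Text.twist (GaussJones.Interlaced g) e) (2 * (B + 2) * (S.card + 1)) L₀) ∨
              (∀ i ∈ J, Text.rest S J (Text.twist (GaussJones.Interlaced g) e)
                (2 * (B + 2) * (S.card + 1)) ≤ Text.twist (GaussJones.Interlaced g) e i) ∨
              Text.NearlyEqual J (Text.twist (GaussJones.Interlaced g) e)
                (Text.rest S J (Text.twist (GaussJones.Interlaced g) e)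
                  (2 * (B + 2) * (S.card + 1))) ∨
              (¬ Text.HasCycle g (S \ J) (J.filter fun i =>
                  |Text.twist (GaussJones.Interlaced g) e i| < (J.card + 1).factorial *
                    Text.rest S J (Text.twist (GaussJones.Interlaced g) e)
                      (2 * (B + 2) * (S.card + 1))) ∧
                Text.SmallBlocks J (Text.HasCycle g (S \ J))
                  (Text.cutRow (GaussJones.Interlaced g))))))) :
    B < Text.terms (GaussJones.fPoly g e) ∧ (1 ≤ B → GaussJones.fPoly g e ≠ 1) := by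
  have h1 : B < terms (GaussJones.fPoly g e) := by
    rcases h with h | h | ⟨J, hJ, hJne, h | ⟨hc, h | h⟩ | ⟨hc, h⟩ | ⟨hd, h⟩⟩
    · exact (knotF17 g e S hS hne B (Or.inl h)).1
    · exact (knotF17 g e S hS hne B (Or.inr (Or.inl fun m hm hI => h m hm (text_pairs hI)))).1
    · exact knotTraces g e S hS J hJ hJne B h
    · obtain ⟨L₀, hL, hE, hI⟩ := h
      exact knotEnds g e S hS J hJ hJne B hc L₀ hL hE hI
    · exact knotW g e S hS J hJ B (TwoAdic.of_same hJ hJne hc (Or.inl h))
    · exact knotW g e S hS J hJ B (TwoAdic.of_long hJ hJne hc h)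
    · rw [text_det] at hd
      refine (knotF17 g e S hS hne B (Or.inr (Or.inr ⟨J, hJ, hJne, Or.inr (Or.inl ⟨hd, ?_⟩)⟩))).1
      rcases h with ⟨L₀, hL, hcyc, hI⟩ | h | h | ⟨h, h'⟩
      · left
        exact Isolated.separating (thm_KnotBlock n g e S J hS hJ) ⟨L₀, hL, hcyc, hI⟩
      · exact Or.inr (Or.inr (Or.inl (text_sign h)))
      · exact Or.inr (Or.inl h)
      · refine Or.inr (Or.inr (Or.inr ?_))
        rw [text_row g e] at h'
        exact text_blocks (cycle_mono g (S \ J)) h h'
  exact ⟨h1, ne_one_of_terms h1⟩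

end Pool.Agent.NHT
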