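import Pool.Agent.NHT.TextC
import Pool.Agent.NHT.Ends

/-!
# NHT, version 20, module Final20O: the final statement for knotoids (helper38)
-/

set_option autoImplicit false

open LaurentPolynomial

namespace Pool.Agent.NHT

open Pool.Agent.SPT Pool.Agent.EQT Pool.Agent.FHP Pool.Agent.TRA Pool.Agent.TRP
open Pool.Agent.Helper16.Knotoid

variable {n : ℕ}

/-- **knotoid diagrams** -/
theorem knotoidF20 (D : GaussDiagram n) (S : Finset (Fin n))
    (hS : Text.Transversal D.Interlaced S) (hne : S.Nonempty) (B : ℕ)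
    (h : Text.LongCycles S (Text.HasCycleO D ∅) (Text.twist D.Interlaced D.sign)
        (2 * (B + 2) * (S.card + 1)) ∨
      ∃ J ⊆ S, J.Nonempty ∧
        ((Text.cutCompsO D J ≤ J.card ∧
            ∃ L₀ ⊆ J, Text.EvenEnds D.pos J L₀ ∧ Text.Isolated S J (Text.HasCycleO D ∅)
              (Text.twist D.Interlaced D.sign) (2 * (B + 2) * (S.card + 1)) L₀) ∨
          (Text.cutCompsO D J = 1 ∧
            ∀ i ∈ J, Text.rest S J (Text.twist D.Interlaced D.sign)
              (2 * (B + 2) * (S.card + 1)) ≤ |Text.twist D.Interlaced D.sign i|) ∨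
          ((¬ Text.HasCycleO D ∅ (S \ J) ∨ Text.cutDetO D J ≠ 0) ∧
            ((∃ L₀ ⊆ J, Text.CycleSet (Text.HasCycleO D (S \ J)) L₀ ∧
                Text.Isolated S J (Text.HasCycleO D ∅)
                  (Text.twist D.Interlaced D.sign) (2 * (B + 2) * (S.card + 1)) L₀) ∨
              Text.NearlyEqual J (Text.twist D.Interlaced D.sign)
                (Text.rest S J (Text.twist D.Interlaced D.sign)
                  (2 * (B + 2) * (S.card + 1))) ∨
              (¬ Text.HasCycleO D (S \ J) (J.filter fun i =>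
                  |Text.twist D.Interlaced D.sign i| < (J.card + 1).factorial *
                    Text.rest S J (Text.twist D.Interlaced D.sign)
                      (2 * (B + 2) * (S.card + 1))) ∧
                Text.SmallBlocks J (Text.HasCycleO D (S \ J))
                  (Text.cutRow D.Interlaced)))))) :
    B < Text.terms D.normalizedBracket ∧ (1 ≤ B → D.normalizedBracket ≠ 1) := by
  have h1 : B < terms D.normalizedBracket := by
    rcases h with h | ⟨J, hJ, hJne, ⟨hc, h⟩ | ⟨hc, h⟩ | ⟨hd, h⟩⟩
    · exact (knotoidF17 D S hS hne B (Or.inl h)).1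
    · obtain ⟨L₀, hL, hE, hI⟩ := h
      exact knotoidEnds D S hS J hJ hJne B hc L₀ hL hE hI
    · exact knotoidW D S hS J hJ B (TwoAdic.of_long hJ hJne hc h)
    · rw [text_detO] at hd
      refine (knotoidF17 D S hS hne B
        (Or.inr (Or.inr ⟨J, hJ, hJne, Or.inr (Or.inl ⟨hd, ?_⟩)⟩))).1
      rcases h with ⟨L₀, hL, hcyc, hI⟩ | h | ⟨h, h'⟩
      · left
        exact Isolated.separating (thm_KnotoidBlock n D S J hS hJ) ⟨L₀, hL, hcyc, hI⟩
      · exact Or.inr (Or.inl h)
      · refine Or.inr (Or.inr (Or.inr ?_))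
        rw [text_rowO D] at h'
        exact text_blocks (cycle_monoO D (S \ J)) h h'
  exact ⟨h1, ne_one_of_terms h1⟩

end Pool.Agent.NHT
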