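import Pool.Agent.NHT.Text
import Pool.Agent.Helper96.GJ.Defs

/-!
# NHT: cuts of knot diagrams, the definitions of the final statement (helper38, helper39)

`g` is the Gauss code and `e` the list of signs of a diagram `D` of a classical or virtual knot.  A state
`s` of `D` has `s i = true` if and only if its smoothing at the crossing `i` respects the orientation.
-/

set_option autoImplicit false

open LaurentPolynomial

namespace Pool.Agent.NHT.Text

open Pool.Agent.GaussJones

variable {n : ℕ}

/-- the number of terms of a Laurent polynomial -/
noncomputable def terms (f : ℤ[T;T⁻¹]) : ℕ := f.coeff.support.card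

open Classical in
/-- The smoothing which cuts the twist region of a crossing: it respects the orientation if and only if
the crossing is not interlaced with a crossing of its class. -/
noncomputable def cut (g : Code n) : Fin n → Bool := fun i =>
  if ∃ j, Twins (Interlaced g) i j ∧ Interlaced g i j then false else true

open Classical in
/-- The graph whose vertices are the closed curves of the state `cut` and whose edges are the crossings:
the classes in `C` and in `R` contain a cycle which has an edge in `C`.  In other words, the classes in
`C` contain a cycle when the classes in `R` are contracted. -/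
def HasCycle (g : Code n) (R C : Finset (Fin n)) : Prop :=
  ∃ Z : Finset (Fin n), (∃ c ∈ Z, ∃ i ∈ C, Twins (Interlaced g) c i) ∧
    (∀ c ∈ Z, ∃ i ∈ C ∪ R, Twins (Interlaced g) c i) ∧
    ∀ q : Quot (Joined g (cut g)),
      Even ((Z.filter fun c => Quot.mk _ (inEdge g (c, true)) = q).card +
        (Z.filter fun c => Quot.mk _ (outEdge g (c, true)) = q).card)

/-- The edges `p` and `q` are joined at a crossing of the diagram `D_J`, in which the crossings in `J` are
cut. -/
def JoinedCut (g : Code n) (J : Finset (Fin n)) (p q : Fin (2 * n)) : Prop :=
  ∃ i : Fin n,
    (i ∉ J ∧ ((p = inEdge g (i, false) ∧ q = outEdge g (i, false)) ∨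
      (p = inEdge g (i, true) ∧ q = outEdge g (i, true)))) ∨
    (i ∈ J ∧ cut g i = true ∧
      ((p = inEdge g (i, false) ∧ q = outEdge g (i, true)) ∨
        (p = inEdge g (i, true) ∧ q = outEdge g (i, false)))) ∨
    (i ∈ J ∧ cut g i = false ∧
      ((p = inEdge g (i, false) ∧ q = inEdge g (i, true)) ∨
        (p = outEdge g (i, false) ∧ q = outEdge g (i, true))))

/-- the number of components of the link `D_J` -/
noncomputable def cutComps (g : Code n) (J : Finset (Fin n)) : ℕ :=
  Nat.card (Quot (JoinedCut g J))

open Classical in
/-- Each component of the link `D_J` contains an even number of ends of the cut crossings in `L`: the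
crossing `c` has one end on the component through the edge which arrives at its passage `(c, true)`, and
one on the component through the edge which leaves this passage. -/
def EvenEnds (g : Code n) (J L : Finset (Fin n)) : Prop :=
  ∀ q : Quot (JoinedCut g J),
    Even ((L.filter fun c => Quot.mk _ (inEdge g (c, true)) = q).card +
      (L.filter fun c => Quot.mk _ (outEdge g (c, true)) = q).card)

open Classical in
/-- The determinant of `D_J`: the sum of `exp (π i / 4) ^ (α - β)` over the states of `D_J` with the least
number of closed curves, where `α` and `β` are the numbers of the smoothings of type `A` and `B`. -/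
noncomputable def cutDet (g : Code n) (e : Fin n → Bool) (J : Finset (Fin n)) : ℂ :=
  ∑ s : Fin n → Bool, if (∀ i ∈ J, s i = cut g i) ∧
      ∀ s' : Fin n → Bool, (∀ i ∈ J, s' i = cut g i) → loops g s ≤ loops g s' then
    ∏ i, (if s i = e i then Complex.exp ((Real.pi / 4 : ℝ) * Complex.I)
      else (Complex.exp ((Real.pi / 4 : ℝ) * Complex.I))⁻¹) else 0

end Pool.Agent.NHT.Text
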