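import Pool.Agent.NHT.Text

/-!
# NHT: definitions of the earlier forms of the final statement (helper38)

These definitions are used in the modules Final18, Final19 and Final20, not in the final statement.
-/

set_option autoImplicit false

namespace Pool.Agent.NHT.Text

variable {ι V : Type} [DecidableEq ι]

/-- The total twist number of each nonempty union of cycles is at least `N` in absolute value. -/
def LongCycles (S : Finset ι) (CycS : Finset ι → Prop) (a : ι → ℤ) (N : ℕ) : Prop :=
  ∀ L ⊆ S, L.Nonempty → CycleSet CycS L → (N : ℤ) ≤ |∑ i ∈ L, a i|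

/-- the number `N + ∑ |a j|`, with the sum over the classes which are not in `J` -/
def rest (S J : Finset ι) (a : ι → ℤ) (N : ℕ) : ℤ := N + ∑ j ∈ S \ J, |a j|

/-- The absolute values of the twist numbers of the classes in `J` lie between `m` and `m + m / |J|`,
where `m` is at least `2 s`. -/
def NearlyEqual (J : Finset ι) (a : ι → ℤ) (s : ℤ) : Prop :=
  ∃ m : ℤ, 2 * s ≤ m ∧ ∀ i ∈ J, m ≤ |a i| ∧ J.card * (|a i| - m) ≤ m

/-- There are `m` pairs of close `L`, `L'` for which the vectors `1_(L ∩ J) + 1_(L' ∩ J)` are linearly
independent modulo `2`. -/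
def Independent (S J : Finset ι) (CycS : Finset ι → Prop) (a : ι → ℤ) (N m : ℕ) : Prop :=
  ∃ L L' : Fin m → Finset ι, (∀ j, Close S CycS a N (L j) (L' j)) ∧
    LinearIndependent (ZMod 2) fun (j : Fin m) (i : ι) =>
      (if i ∈ L j ∩ J then (1 : ZMod 2) else 0) + if i ∈ L' j ∩ J then 1 else 0

/-- The classes in `J` have labels `p i` which do not divide the cycles (for instance the numbers of the
blocks), and for each label there are at most `9` classes, or all classes but at most `5` contain no cycle,
or sets of these classes without a cycle have at most `3` elements, or they are series-parallel (here `w i`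
is the row of the class `i` in the cut matrix). -/
def SmallBlocks [AddCommGroup V] [Module (ZMod 2) V] [DecidableEq V] (J : Finset ι)
    (Cyc : Finset ι → Prop) (w : ι → V) : Prop :=
  ∃ p : ι → ℕ, (∀ C ⊆ J, Cyc C → ∃ q, Cyc (C.filter fun i => p i = q)) ∧ ∀ q,
    (J.filter fun i => p i = q).card ≤ 9 ∨
    (∃ F T : Finset ι, F ⊆ (J.filter fun i => p i = q) ∧ ¬ Cyc F ∧ T.card ≤ 5 ∧
      ∀ i ∈ J, p i = q → i ∈ F ∨ i ∈ T) ∨
    (∀ F ⊆ J.filter fun i => p i = q, ¬ Cyc F → F.card ≤ 3) ∨
    SeriesParallel ((J.filter fun i => p i = q).image w) ⊥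

end Pool.Agent.NHT.Text
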