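import Mathlib
import Pool.Agent.NHT.TwoAdicI
import Pool.Agent.NHT.WTwoK

/-!
# NHT, module TwoAdicL: long classes with twist numbers of the same sign (helper19)

If the twist numbers in `J` are long and have the same sign, and `D_J` has at most `|J|` components, then
the criterion `TwoAdic` holds.
-/

set_option autoImplicit false

namespace Pool.Agent.NHT

open Pool.Agent.SPT Pool.Agent.EQT Pool.Agent.FHP Pool.Agent.TRA Pool.Agent.TRP

section

variable {ι : Type} [DecidableEq ι]

/-- The twist numbers of the classes in `J` are at least `N + ∑ |a j|`, or they are all at most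
`-(N + ∑ |a j|)`, with the sum over the classes which are not in `J`. -/
def LongSame (S J : Finset ι) (a : ι → ℤ) (N : ℕ) : Prop :=
  (∀ i ∈ J, (N : ℤ) + ∑ j ∈ S \ J, |a j| ≤ a i) ∨ ∀ i ∈ J, (N : ℤ) + ∑ j ∈ S \ J, |a j| ≤ -a i

/-- **long classes**: the set of the classes of `J` with a twist number of the sign `s` is isolated -/
theorem Long.isolatedAt_sign {S J : Finset ι} (hJ : J ⊆ S) {CycS : Finset ι → Prop} {a : ι → ℤ}
    {N : ℕ} (h : Long S J a N) (s : ℤ) (hs : s = 1 ∨ s = -1) :
    IsolatedAt S J CycS a N (J.filter fun i => 0 < s * a i) := by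
  classical
  rintro L L' ⟨hL, hL', -, -, hlt⟩ hLJ
  by_contra hne
  have h1 := cases_split hJ hL hL' a
  have hiL : ∀ i ∈ J, (i ∈ L ↔ 0 < s * a i) := by
    intro i hi
    have h2 : i ∈ L ∩ J ↔ i ∈ J.filter fun i => 0 < s * a i := by rw [hLJ]
    rw [Finset.mem_inter, Finset.mem_filter] at h2
    exact ⟨fun h3 => (h2.1 ⟨h3, hi⟩).2, fun h3 => (h2.2 ⟨hi, h3⟩).1⟩
  have h3 : ∀ i ∈ J, 0 ≤ s * (((if i ∈ L then 1 else 0) - (if i ∈ L' then 1 else 0)) * a i) := by
    intro i hi
    by_cases h4 : i ∈ L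
    · have h5 := (hiL i hi).1 h4
      by_cases h6 : i ∈ L'
      · rw [if_pos h4, if_pos h6, sub_self, zero_mul, mul_zero]
      · rw [if_pos h4, if_neg h6, sub_zero, one_mul]
        exact h5.le
    · have h5 : ¬ 0 < s * a i := fun h => h4 ((hiL i hi).2 h)
      by_cases h6 : i ∈ L'
      · rw [if_neg h4, if_pos h6, zero_sub, neg_one_mul, mul_neg]
        omega
      · rw [if_neg h4, if_neg h6, sub_self, zero_mul, mul_zero]
  obtain ⟨i₀, hi₀, hd⟩ : ∃ i ∈ J, ¬ (i ∈ L ↔ i ∈ L') := by
    by_contra hno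
    push Not at hno
    refine hne ?_
    rw [← hLJ]
    ext i
    rw [Finset.mem_inter, Finset.mem_inter]
    exact ⟨fun h => ⟨(hno i h.2).2 h.1, h.2⟩, fun h => ⟨(hno i h.2).1 h.1, h.2⟩⟩
  have habs : ∀ z : ℤ, |s * z| = |z| := by
    intro z
    rcases hs with rfl | rfl
    · rw [one_mul]
    · rw [neg_one_mul, abs_neg]
  have h4 : |a i₀| ≤ |∑ i ∈ J, ((if i ∈ L then 1 else 0) - (if i ∈ L' then 1 else 0)) * a i| := by
    have h5 : |a i₀| = s * (((if i₀ ∈ L then 1 else 0) - (if i₀ ∈ L' then 1 else 0)) * a i₀) := by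
      rw [← abs_of_nonneg (h3 i₀ hi₀), habs, abs_mul]
      by_cases h6 : i₀ ∈ L
      · by_cases h7 : i₀ ∈ L'
        · exact absurd ⟨fun _ => h7, fun _ => h6⟩ hd
        · rw [if_pos h6, if_neg h7, sub_zero, abs_one, one_mul]
      · by_cases h7 : i₀ ∈ L'
        · rw [if_neg h6, if_pos h7, zero_sub, abs_neg, abs_one, one_mul]
        · exact absurd ⟨fun h => absurd h h6, fun h => absurd h h7⟩ hd
    rw [h5, ← habs, Finset.mul_sum, abs_of_nonneg (Finset.sum_nonneg h3)]
    exact Finset.single_le_sum (f := fun i => s * (((if i ∈ L then 1 else 0) -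
      (if i ∈ L' then 1 else 0)) * a i)) h3 hi₀
  have h5 := h i₀ hi₀
  omega

/-- **long classes of the same sign**: the empty set is isolated -/
theorem LongSame.isolatedAt {S J : Finset ι} (hJ : J ⊆ S) {CycS : Finset ι → Prop} {a : ι → ℤ}
    {N : ℕ} (h : LongSame S J a N) : IsolatedAt S J CycS a N ∅ := by
  have h0 : (0 : ℤ) ≤ (N : ℤ) + ∑ j ∈ S \ J, |a j| :=
    add_nonneg (Nat.cast_nonneg _) (Finset.sum_nonneg fun j _ => abs_nonneg _)
  rcases h with h | h
  · have h1 : Long S J a N := fun i hi => (h i hi).trans (le_abs_self _)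
    have h2 := h1.isolatedAt_sign hJ (CycS := CycS) (-1) (Or.inr rfl)
    have h3 : (J.filter fun i => 0 < (-1 : ℤ) * a i) = ∅ := by
      rw [Finset.filter_eq_empty_iff]
      intro i hi h4
      have h5 := h i hi
      omega
    rwa [h3] at h2
  · have h1 : Long S J a N := fun i hi => (h i hi).trans (neg_le_abs _)
    have h2 := h1.isolatedAt_sign hJ (CycS := CycS) 1 (Or.inl rfl)
    have h3 : (J.filter fun i => 0 < (1 : ℤ) * a i) = ∅ := by
      rw [Finset.filter_eq_empty_iff]
      intro i hi h4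
      have h5 := h i hi
      omega
    rwa [h3] at h2

/-- **The empty set is isolated, and there are at most `|J|` components** -/
theorem TwoAdic.of_empty {S J : Finset ι} {CycS : Finset ι → Prop} {c : Finset ι → ℕ} {a : ι → ℤ}
    {N : ℕ} (hne : J.Nonempty) (hc : c J ≤ J.card) (h : IsolatedAt S J CycS a N ∅) :
    TwoAdic S J CycS c a N := by
  classical
  refine ⟨fun L => if L = ∅ then 1 else 0, fun L L' hLL => ?_, fun hdvd => ?_⟩
  · by_cases h1 : L ∩ J = ∅
    · have h2 := h L L' hLL h1
      simp only [h1, h2]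
    · have h2 : L' ∩ J ≠ ∅ := fun h3 => h1 (h L' L hLL.symm' h3)
      simp only [h1, h2, if_false]
  · have h1 : ∑ L ∈ J.powerset, ∑ X ∈ L.powerset,
        (-1 : ℤ) ^ L.card * (if L = ∅ then 1 else 0) * 2 ^ X.card * (-2) ^ (c (J \ X) - 1) =
        (-2) ^ (c J - 1) := by
      rw [Finset.sum_eq_single ∅]
      · rw [Finset.powerset_empty, Finset.sum_singleton, Finset.card_empty, if_pos rfl,
          Finset.sdiff_empty]
        ring
      · intro L _ hL
        refine Finset.sum_eq_zero fun X _ => ?_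
        rw [if_neg hL, mul_zero, zero_mul, zero_mul]
      · intro h
        exact absurd (Finset.empty_mem_powerset J) h
    rw [h1] at hdvd
    have h2 := Int.natAbs_dvd_natAbs.2 hdvd
    rw [Int.natAbs_pow, Int.natAbs_pow] at h2
    have h3 : J.card ≤ c J - 1 := (Nat.pow_dvd_pow_iff_le_right (by norm_num : 1 < 2)).1 h2
    have h4 := Finset.card_pos.2 hne
    omega

/-- **Long twist numbers of the same sign, where `D_J` has at most `|J|` components** -/
theorem TwoAdic.of_same {S J : Finset ι} (hJ : J ⊆ S) {CycS : Finset ι → Prop} {c : Finset ι → ℕ}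
    {a : ι → ℤ} {N : ℕ} (hne : J.Nonempty) (hc : c J ≤ J.card) (h : LongSame S J a N) :
    TwoAdic S J CycS c a N :=
  TwoAdic.of_empty hne hc (h.isolatedAt hJ)

end

section

variable {n : ℕ}

/-- **Long twist numbers**: the parity criterion holds if the set of the classes with twist numbers of
the sign `s` is even. -/
theorem ParityCriterion.of_long {S J : Finset (Fin n)} (hJ : J ⊆ S)
    {CycS : Finset (Fin n) → Prop} {R : Fin n → Fin n → Prop} {a : Fin n → ℤ} {N : ℕ}
    (h : Long S J a N) (hR : SomeRel R J) (s : ℤ) (hs : s = 1 ∨ s = -1)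
    (hE : EvenSub R J (J.filter fun i => 0 < s * a i)) : ParityCriterion S J CycS R a N := by
  classical
  refine ⟨hR, {J.filter fun i => 0 < s * a i}, fun L L' hLL h1 => ?_, ?_⟩
  · rw [Finset.mem_singleton] at h1 ⊢
    exact h.isolatedAt_sign hJ s hs L L' hLL h1
  · unfold evenCount
    rw [Finset.filter_true_of_mem, Finset.card_singleton]
    · exact odd_one
    · intro L hL
      rw [Finset.mem_singleton] at hL
      subst hL
      exact ⟨Finset.filter_subset _ _, hE⟩

end

end Pool.Agent.NHT
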