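import Pool.Agent.NHT.Final17
import Pool.Agent.NHT.TwoAdicL
import Pool.Agent.NHT.TextK
import Pool.Agent.NHT.TextX

/-!
# NHT: the definitions of the final statement agree with the ones used in the proofs (helper38)
-/

set_option autoImplicit false

open LaurentPolynomial

namespace Pool.Agent.NHT

open Pool.Agent.SPT Pool.Agent.EQT Pool.Agent.FHP Pool.Agent.TRA Pool.Agent.TRP

section

variable {ι V : Type} [DecidableEq ι]

theorem text_close (S : Finset ι) (CycS : Finset ι → Prop) (a : ι → ℤ) (N : ℕ) :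
    Text.Close S CycS a N = Close S CycS a N := rfl

theorem text_isolated (S J : Finset ι) (CycS : Finset ι → Prop) (a : ι → ℤ) (N : ℕ) :
    Text.Isolated S J CycS a N = IsolatedAt S J CycS a N := rfl

theorem text_independent (S J : Finset ι) (CycS : Finset ι → Prop) (a : ι → ℤ) (N m : ℕ) :
    Text.Independent S J CycS a N m = IndependentTraces S J CycS a N m := rfl

theorem text_pairs {S : Finset ι} {CycS : Finset ι → Prop} {a : ι → ℤ} {N m : ℕ}
    (h : IndependentPairs S CycS a N m) : Text.Independent S S CycS a N m := by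
  obtain ⟨L, L', h1, h2⟩ := h
  refine ⟨L, L', h1, ?_⟩
  have h3 : (fun (j : Fin m) (i : ι) =>
      (if i ∈ L j ∩ S then (1 : ZMod 2) else 0) + if i ∈ L' j ∩ S then 1 else 0) =
      fun (j : Fin m) (i : ι) =>
        (if i ∈ L j then (1 : ZMod 2) else 0) + if i ∈ L' j then 1 else 0 := by
    funext j i
    rw [Finset.inter_eq_left.2 (h1 j).1, Finset.inter_eq_left.2 (h1 j).2.1]
  rw [h3]
  exact h2

theorem text_natAbs (S J : Finset ι) (a : ι → ℤ) (N : ℕ) :
    (((J.card + 1).factorial * (N + ∑ j ∈ S \ J, (a j).natAbs) : ℕ) : ℤ) =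
      (J.card + 1).factorial * Text.rest S J a N := by
  unfold Text.rest
  push_cast
  congr 2

theorem text_seriesParallel {V : Type} [AddCommGroup V] [Module (ZMod 2) V] [DecidableEq V]
    {X : Finset V} {K : Submodule (ZMod 2) V} (h : Text.SeriesParallel X K) :
    SPT.SeriesParallel X K := by
  induction h with
  | empty K => exact .empty K
  | loop X K v h1 _ ih => exact .loop X K v h1 ih
  | coloop X K v h1 _ ih => exact .coloop X K v h1 ih
  | parallel X K v w h1 h2 _ ih => exact .parallel X K v w h1 h2 ih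
  | series X K v w h1 h2 h3 _ ih => exact .series X K v w h1 h2 h3 ih

theorem text_blocks [AddCommGroup V] [Module (ZMod 2) V] [DecidableEq V] {S J : Finset ι}
    {Cyc : Finset ι → Prop} {w : ι → V} {a : ι → ℤ} {N : ℕ}
    (hmono : ∀ C C', C ⊆ C' → Cyc C → Cyc C')
    (h1 : ¬ Cyc (J.filter fun i => |a i| < (J.card + 1).factorial * Text.rest S J a N))
    (h : Text.SmallBlocks J Cyc w) : LongBlocks S J Cyc w a N := by
  obtain ⟨p, h2, h3⟩ := h
  refine ⟨p, h2, fun q => ⟨(h3 q).imp id (Or.imp id (Or.imp id text_seriesParallel)),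
    fun h4 => h1 (hmono _ _ ?_ h4)⟩⟩
  intro i hi
  rw [Finset.mem_filter] at hi ⊢
  rw [text_natAbs] at hi
  exact ⟨hi.1, hi.2.2⟩

theorem text_sign {S J : Finset ι} {Cyc : Finset ι → Prop} {a : ι → ℤ} {N : ℕ}
    (h : ∀ i ∈ J, Text.rest S J a N ≤ a i) : LongSigned S J Cyc a N := by
  have h0 : 0 ≤ Text.rest S J a N :=
    add_nonneg (Nat.cast_nonneg _) (Finset.sum_nonneg fun j _ => abs_nonneg _)
  refine ⟨fun i hi => (h i hi).trans (le_abs_self _), Or.inr fun i hi h1 => ?_⟩
  exact absurd (h0.trans (h i hi)) (not_le.2 h1)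

end

variable {n : ℕ}

theorem text_cut (g : GaussJones.Code n) : Text.cut g = cutAll (GaussJones.Interlaced g) := rfl

theorem text_cycle (g : GaussJones.Code n) : Text.HasCycle g = HasCycleIn g := rfl

theorem text_comps (g : GaussJones.Code n) : Text.cutComps g = cutComps g := rfl

theorem text_twist (I : Fin n → Fin n → Prop) (e : Fin n → Bool) : Text.twist I e = cutTwist I e :=
  rfl

theorem text_det (g : GaussJones.Code n) (e : Fin n → Bool) (J : Finset (Fin n)) :
    Text.cutDet g e J = cutDet g e J := by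
  classical
  unfold Text.cutDet cutDet
  refine Finset.sum_congr rfl fun s _ => ?_
  have h0 : ((∀ i ∈ J, s i = Text.cut g i) ∧ ∀ s' : Fin n → Bool,
      (∀ i ∈ J, s' i = Text.cut g i) → GaussJones.loops g s ≤ GaussJones.loops g s') ↔
      (Cuts g J s ∧ ∀ s' : Fin n → Bool, Cuts g J s' → GaussJones.loops g s ≤
        GaussJones.loops g s') := Iff.rfl
  by_cases h : Cuts g J s ∧ ∀ s' : Fin n → Bool, Cuts g J s' → GaussJones.loops g s ≤
      GaussJones.loops g s'
  · rw [if_pos h, if_pos (h0.2 h)]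
    rfl
  · rw [if_neg h, if_neg fun h1 => h (h0.1 h1)]

theorem text_row (g : GaussJones.Code n) (e : Fin n → Bool) :
    Text.cutRow (GaussJones.Interlaced g) =
      row (GaussJones.Cut g e (cutState (GaussJones.Interlaced g) e)) := by
  classical
  funext i j
  have h1 : (GaussJones.Interlaced g i j ∨ (i = j ∧ ∃ k, Text.Twins (GaussJones.Interlaced g) i k ∧
      GaussJones.Interlaced g i k)) ↔
      GaussJones.Cut g e (cutState (GaussJones.Interlaced g) e) i j :=
    or_congr Iff.rfl (and_congr Iff.rfl (Graph_cut _ e i).symm)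
  unfold Text.cutRow row
  by_cases h : GaussJones.Cut g e (cutState (GaussJones.Interlaced g) e) i j
  · rw [if_pos h, if_pos (h1.2 h)]
  · rw [if_neg h, if_neg fun h2 => h (h1.1 h2)]

theorem cycle_mono (g : GaussJones.Code n) (R C C' : Finset (Fin n)) (h : C ⊆ C')
    (hC : HasCycleIn g R C) : HasCycleIn g R C' := by
  obtain ⟨Z, ⟨c, hc, i, hi, hci⟩, h2, h3⟩ := hC
  refine ⟨Z, ⟨c, hc, i, h hi, hci⟩, fun c hc => ?_, h3⟩
  obtain ⟨i, hi, hci⟩ := h2 c hc
  exact ⟨i, Finset.union_subset_union_left h hi, hci⟩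

end Pool.Agent.NHT
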