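import Pool.Agent.NHT.OBC
import Pool.Agent.NHT.TextB

/-!
# NHT, version 23, module OBU: long classes in good blocks (helper38; the proof is in OBC)
-/

set_option autoImplicit false

namespace Pool.Agent.NHT

open Pool.Agent.SPT Pool.Agent.TRA Pool.Agent.TRP

variable {ι V : Type} [DecidableEq ι] [DecidableEq V] [AddCommGroup V] [Module (ZMod 2) V]

/-- **Long classes in good blocks** -/
theorem text_goodBlocks {S J : Finset ι} {Cyc : Finset ι → Prop} {r : ι → V}
    (hB : Block J Cyc r) {a : ι → ℤ} {N : ℕ} (hN : 1 ≤ N) (CycS : Finset ι → Prop)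
    (h1 : ¬ Cyc (J.filter fun i => |a i| < (J.card + 1).factorial * Text.rest S J a N))
    (h : Text.GoodBlocks J Cyc r a ((J.card + 1).factorial * Text.rest S J a N)) :
    UCriterion S J CycS Cyc r a N := by
  rw [← text_natAbs S J a N] at h1 h
  obtain ⟨p, hp, hq⟩ := h
  refine ob_ucriterion hB hN CycS rfl h1 ⟨p, hp, fun q => ?_⟩
  rcases hq q with h2 | h2 | h2 | h2 | h2
  · exact Or.inl (Or.inl h2)
  · exact Or.inl (Or.inr (Or.inl h2))
  · exact Or.inl (Or.inr (Or.inr (Or.inr (text_seriesParallel h2))))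
  · exact Or.inr (Or.inl h2)
  · exact Or.inr (Or.inr h2)

end Pool.Agent.NHT
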