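import Pool.Agent.NHT.Final20
import Pool.Agent.NHT.OBU

/-!
# NHT, version 23, module Final23: the final statement for knots (helper38)
-/

set_option autoImplicit false

open LaurentPolynomial

namespace Pool.Agent.NHT

open Pool.Agent.SPT Pool.Agent.EQT Pool.Agent.FHP Pool.Agent.TRA Pool.Agent.TRP

variable {n : ℕ}

/-- **knot diagrams** -/
theorem knotF23 (g : GaussJones.Code n) (e : Fin n → Bool) (S : Finset (Fin n))
    (hS : Text.Transversal (GaussJones.Interlaced g) S) (hne : S.Nonempty) (B : ℕ)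
    (h : Text.LongCycles S (Text.HasCycle g ∅) (Text.twist (GaussJones.Interlaced g) e)
        (2 * (B + 2) * (S.card + 1)) ∨
      ∃ J ⊆ S, J.Nonempty ∧
        ((Text.cutComps g J ≤ J.card ∧
            ∃ L₀ ⊆ J, Text.EvenEnds g J L₀ ∧ Text.Isolated S J (Text.HasCycle g ∅)
              (Text.twist (GaussJones.Interlaced g) e) (2 * (B + 2) * (S.card + 1)) L₀) ∨
          (Text.cutComps g J = 1 ∧
            ∀ i ∈ J, Text.rest S J (Text.twist (GaussJones.Interlaced g) e)
              (2 * (B + 2) * (S.card + 1)) ≤ |Text.twist (GaussJones.Interlaced g) e i|) ∨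
          ((¬ Text.HasCycle g ∅ (S \ J) ∨ Text.cutDet g e J ≠ 0) ∧
            ((∃ L₀ ⊆ J, Text.CycleSet (Text.HasCycle g (S \ J)) L₀ ∧
                Text.Isolated S J (Text.HasCycle g ∅)
                  (Text.twist (GaussJones.Interlaced g) e) (2 * (B + 2) * (S.card + 1)) L₀) ∨
              Text.NearlyEqual J (Text.twist (GaussJones.Interlaced g) e)
                (Text.rest S J (Text.twist (GaussJones.Interlaced g) e)
                  (2 * (B + 2) * (S.card + 1))) ∨
              (¬ Text.HasCycle g (S \ J) (J.filter fun i =>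
                  |Text.twist (GaussJones.Interlaced g) e i| < (J.card + 1).factorial *
                    Text.rest S J (Text.twist (GaussJones.Interlaced g) e)
                      (2 * (B + 2) * (S.card + 1))) ∧
                Text.GoodBlocks J (Text.HasCycle g (S \ J))
                  (Text.cutRow (GaussJones.Interlaced g)) (Text.twist (GaussJones.Interlaced g) e)
                  ((J.card + 1).factorial * Text.rest S J (Text.twist (GaussJones.Interlaced g) e)
                      (2 * (B + 2) * (S.card + 1)))))))) :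
    B < Text.terms (GaussJones.fPoly g e) ∧ (1 ≤ B → GaussJones.fPoly g e ≠ 1) := by
  rcases h with h | ⟨J, hJ, hJne, ⟨hc, h⟩ | ⟨hc, h⟩ | ⟨hd, h⟩⟩
  · exact knotF20 g e S hS hne B (Or.inl h)
  · exact knotF20 g e S hS hne B (Or.inr (Or.inr ⟨J, hJ, hJne, Or.inr (Or.inl ⟨hc, h⟩)⟩))
  · exact knotF20 g e S hS hne B (Or.inr (Or.inr ⟨J, hJ, hJne, Or.inr (Or.inr (Or.inl ⟨hc, h⟩))⟩))
  · rcases h with h | h | ⟨h, h'⟩
    · exact knotF20 g e S hS hne B (Or.inr (Or.inr ⟨J, hJ, hJne,
        Or.inr (Or.inr (Or.inr ⟨hd, Or.inl h⟩))⟩))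
    · exact knotF20 g e S hS hne B (Or.inr (Or.inr ⟨J, hJ, hJne,
        Or.inr (Or.inr (Or.inr ⟨hd, Or.inr (Or.inl h)⟩))⟩))
    · rw [text_det] at hd
      rw [text_row g e] at h'
      exact knotF15 g e S hS B (Or.inr ⟨J, hJ, hJne, Or.inl ⟨hd, Or.inr (Or.inr (Or.inr (Or.inr
        (Or.inl (text_goodBlocks (thm_KnotBlock n g e S J hS hJ) (Nat.succ_le_of_lt (by positivity))
          (HasCycleIn g ∅) h h')))))⟩⟩)

end Pool.Agent.NHT
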