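import Pool.Agent.NHT.Final4
import Pool.Agent.NHT.Defs5
import Pool.Agent.SRX.Knot

/-!
# NHT, version 5, module Final5: the final statement (helper38)
-/

set_option autoImplicit false

open Submodule LaurentPolynomial

namespace Pool.Agent.NHT

open Pool.Agent.SPT Pool.Agent.SPT.Rel Pool.Agent.EQT Pool.Agent.FHP Pool.Agent.Helper16.Knotoid
open Pool.Agent.TRA Pool.Agent.TRP

variable {n n' : ℕ}

theorem twistBy_cutAll {I : Fin n → Fin n → Prop} {e : Fin n → Bool} (hi : ∀ i, ¬ I i i)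
    (hs : ∀ i j, I i j → I j i) (i : Fin n) : SRX.twistBy I e (cutAll I) i = cutTwist I e i := by
  classical
  rw [← twist_row hi hs i]
  unfold SRX.twistBy twist
  refine Finset.sum_congr ?_ fun c _ => ?_
  · ext c
    rw [Finset.mem_filter, Finset.mem_filter, eq_comm, Graph_row hi hs]
  · unfold cutAll cutState
    by_cases h : ∃ j, Twins I c j ∧ I c j
    · rw [if_pos h, if_pos h]
      cases e c <;> simp
    · rw [if_neg h, if_neg h]
      cases e c <;> simp

theorem cuts_cutAll (I : Fin n → Fin n → Prop) : SRX.Cuts I (cutAll I) := fun _ => Or.inl rfl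

/-- **knotoid diagrams** -/
theorem knotoidF5 (D : GaussDiagram n) (S : Finset (Fin n)) (hS : Transversal D.Interlaced S)
    (B : ℕ) (hB : terms D.normalizedBracket ≤ B) :
    (∀ (n' : ℕ) (D' : GaussDiagram n') (S' : Finset (Fin n')) (φ : Fin n → Fin n'),
      Transversal D'.Interlaced S' → SameShapeO D S D' S' φ →
      (∀ d, Short S (cutTwist D.Interlaced D.sign) (2 * (B + 2) * (S.card + 1)) d →
        ∑ i ∈ S, d i * (cutTwist D'.Interlaced D'.sign (φ i) -
          cutTwist D.Interlaced D.sign i) = 0) →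
      terms D'.normalizedBracket ≤ B) ∧
    (∀ J ⊆ S, J.Nonempty →
      MeetsEvenly S (cutTwist D.Interlaced D.sign) (2 * (B + 2) * (S.card + 1)) J →
      J ≠ S ∧ cutDetO D J = 0) ∧
    ((∃ i ∈ S, (((S.card + 2).factorial * (2 * B + 4) : ℕ) : ℤ) ≤
        |cutTwist D.Interlaced D.sign i|) →
      ∃ J ⊆ S, J.Nonempty ∧
        MeetsEvenly S (cutTwist D.Interlaced D.sign) (2 * (B + 2) * (S.card + 1)) J) ∧
    ∀ J ⊆ S, J.Nonempty → (J = S ∨ cutDetO D J ≠ 0) →
      (∀ x : Fin n → ℂ, (∀ i ∈ J, x i ≠ 0) →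
        (∀ d, Short S (cutTwist D.Interlaced D.sign) (2 * (B + 2) * (S.card + 1)) d →
          ∏ i ∈ J, x i ^ d i = 1) →
        forestSum (HasCycleInO D (S \ J)) J x = 0 ∧
          ¬ ∀ i ∈ J, ∃ y : ℝ, x i = y ∧ -1 ≤ y ∧ y < 1) ∧
      ∀ p : Fin n → ℕ, Splits J (HasCycleInO D (S \ J)) p →
        ∃ q, ¬ GoodBlock4 J (HasCycleInO D (S \ J)) (row (D.Cut (cutState D.Interlaced D.sign)))
          (cutTwist D.Interlaced D.sign) p ((S.card + 2).factorial *
            (2 * B + 4 + ∑ j ∈ S \ J, (cutTwist D.Interlaced D.sign j).natAbs)) q := by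
  classical
  have hno : ∀ J ⊆ S, J.Nonempty → (J = S ∨ cutDetO D J ≠ 0) →
      ¬ (Weighted (HasCycleInO D (S \ J)) J
          (Short S (cutTwist D.Interlaced D.sign) (2 * (B + 2) * (S.card + 1))) ∨
        ∃ p : Fin n → ℕ, Splits J (HasCycleInO D (S \ J)) p ∧
          ∀ q, GoodBlock4 J (HasCycleInO D (S \ J)) (row (D.Cut (cutState D.Interlaced D.sign)))
            (cutTwist D.Interlaced D.sign) p ((S.card + 2).factorial *
              (2 * B + 4 + ∑ j ∈ S \ J, (cutTwist D.Interlaced D.sign j).natAbs)) q) := by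
    intro J hJ hne hJS h
    exact absurd (knotoidF4 D S hS B (Or.inr ⟨J, hJ, hne, hJS, h⟩)).1 (not_lt.2 hB)
  refine ⟨?_, ?_, ?_, ?_⟩
  · intro n' D' S' φ hS' hsh hd
    refine SRX.knotoid_rigid D (cutAll D.Interlaced) (cuts_cutAll _) S hS D'
      (cutAll D'.Interlaced) (cuts_cutAll _) S' hS' φ hsh.1 hsh.2 B hB fun d hd' => ?_
    have h1 : SRX.twistBy D.Interlaced D.sign (cutAll D.Interlaced) =
        cutTwist D.Interlaced D.sign :=
      funext fun i => twistBy_cutAll (Graph_irrefl D) (Graph_int_symm D) i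
    have h2 : SRX.twistBy D'.Interlaced D'.sign (cutAll D'.Interlaced) =
        cutTwist D'.Interlaced D'.sign :=
      funext fun i => twistBy_cutAll (Graph_irrefl D') (Graph_int_symm D') i
    rw [h1] at hd'
    rw [h1, h2]
    exact hd d hd'
  · intro J hJ hne hev
    by_contra hcon
    refine hno J hJ hne ?_ (Or.inl (weighted_of_even _ S J _ _ hev))
    by_cases h : J = S
    · exact Or.inl h
    · exact Or.inr fun h0 => hcon ⟨h, h0⟩
  · intro hl
    exact exists_even S (cutTwist D.Interlaced D.sign) (2 * (B + 2) * (S.card + 1))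
      ((S.card + 2).factorial * (2 * B + 4)) (Nat.succ_le_of_lt (by positivity))
      (odd_le S.card B) hl
  · intro J hJ hne hJS
    refine ⟨fun x hx0 hx => ⟨?_, fun hr => ?_⟩, fun p hp => ?_⟩
    · by_contra hf
      exact hno J hJ hne hJS (Or.inl ⟨x, hx0, hx, Or.inl hf⟩)
    · exact hno J hJ hne hJS (Or.inl ⟨x, hx0, hx, Or.inr hr⟩)
    · by_contra hq
      push Not at hq
      exact hno J hJ hne hJS (Or.inr ⟨p, hp, hq⟩)

/-- **knot diagrams** -/
theorem knotF5 (g : GaussJones.Code n) (e : Fin n → Bool) (S : Finset (Fin n))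
    (hS : Transversal (GaussJones.Interlaced g) S) (hne : S.Nonempty)
    (B : ℕ) (hB : terms (GaussJones.fPoly g e) ≤ B) :
    (∀ (n' : ℕ) (g' : GaussJones.Code n') (e' : Fin n' → Bool) (S' : Finset (Fin n'))
      (φ : Fin n → Fin n'),
      Transversal (GaussJones.Interlaced g') S' → SameShapeK g S g' S' φ →
      (∀ d, Short S (cutTwist (GaussJones.Interlaced g) e) (2 * (B + 2) * (S.card + 1)) d →
        ∑ i ∈ S, d i * (cutTwist (GaussJones.Interlaced g') e' (φ i) -
          cutTwist (GaussJones.Interlaced g) e i) = 0) →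
      terms (GaussJones.fPoly g' e') ≤ B) ∧
    (∀ J ⊆ S, J.Nonempty →
      MeetsEvenly S (cutTwist (GaussJones.Interlaced g) e) (2 * (B + 2) * (S.card + 1)) J →
      J ≠ S ∧ cutDet g e J = 0) ∧
    ((∃ i ∈ S, (((S.card + 2).factorial * (2 * B + 4) : ℕ) : ℤ) ≤
        |cutTwist (GaussJones.Interlaced g) e i|) →
      ∃ J ⊆ S, J.Nonempty ∧
        MeetsEvenly S (cutTwist (GaussJones.Interlaced g) e) (2 * (B + 2) * (S.card + 1)) J) ∧
    ∀ J ⊆ S, J.Nonempty → (J = S ∨ cutDet g e J ≠ 0) →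
      (∀ x : Fin n → ℂ, (∀ i ∈ J, x i ≠ 0) →
        (∀ d, Short S (cutTwist (GaussJones.Interlaced g) e) (2 * (B + 2) * (S.card + 1)) d →
          ∏ i ∈ J, x i ^ d i = 1) →
        forestSum (HasCycleIn g (S \ J)) J x = 0 ∧
          ¬ ∀ i ∈ J, ∃ y : ℝ, x i = y ∧ -1 ≤ y ∧ y < 1) ∧
      ∀ p : Fin n → ℕ, Splits J (HasCycleIn g (S \ J)) p →
        ∃ q, ¬ GoodBlock4 J (HasCycleIn g (S \ J))
          (row (GaussJones.Cut g e (cutState (GaussJones.Interlaced g) e)))
          (cutTwist (GaussJones.Interlaced g) e) p ((S.card + 2).factorial *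
            (2 * B + 4 + ∑ j ∈ S \ J, (cutTwist (GaussJones.Interlaced g) e j).natAbs)) q := by
  classical
  have hirr : ∀ (m : ℕ) (g : GaussJones.Code m) (i : Fin m), ¬ GaussJones.Interlaced g i i := by
    intro m g i h
    rcases h with h | h <;> exact lt_irrefl _ h.1
  have hsy : ∀ (m : ℕ) (g : GaussJones.Code m) (i j : Fin m), GaussJones.Interlaced g i j →
      GaussJones.Interlaced g j i := fun m g i j h => h.symm
  have hno : ∀ J ⊆ S, J.Nonempty → (J = S ∨ cutDet g e J ≠ 0) →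
      ¬ (Weighted (HasCycleIn g (S \ J)) J
          (Short S (cutTwist (GaussJones.Interlaced g) e) (2 * (B + 2) * (S.card + 1))) ∨
        ∃ p : Fin n → ℕ, Splits J (HasCycleIn g (S \ J)) p ∧
          ∀ q, GoodBlock4 J (HasCycleIn g (S \ J))
            (row (GaussJones.Cut g e (cutState (GaussJones.Interlaced g) e)))
            (cutTwist (GaussJones.Interlaced g) e) p ((S.card + 2).factorial *
              (2 * B + 4 + ∑ j ∈ S \ J, (cutTwist (GaussJones.Interlaced g) e j).natAbs)) q) := by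
    intro J hJ hne hJS h
    exact absurd (knotF4 g e S hS B (Or.inr ⟨J, hJ, hne, hJS, h⟩)).1 (not_lt.2 hB)
  refine ⟨?_, ?_, ?_, ?_⟩
  · intro n' g' e' S' φ hS' hsh hd
    refine SRX.knot_rigid g e (cutAll (GaussJones.Interlaced g)) (cuts_cutAll _) S hS hne g' e'
      (cutAll (GaussJones.Interlaced g')) (cuts_cutAll _) S' hS' φ hsh.1 hsh.2 B hB
      fun d hd' => ?_
    have h1 : SRX.twistBy (GaussJones.Interlaced g) e (cutAll (GaussJones.Interlaced g)) =
        cutTwist (GaussJones.Interlaced g) e := funext fun i => twistBy_cutAll (hirr n g) (hsy n g) i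
    have h2 : SRX.twistBy (GaussJones.Interlaced g') e' (cutAll (GaussJones.Interlaced g')) =
        cutTwist (GaussJones.Interlaced g') e' :=
      funext fun i => twistBy_cutAll (hirr n' g') (hsy n' g') i
    rw [h1] at hd'
    rw [h1, h2]
    exact hd d hd'
  · intro J hJ hneJ hev
    by_contra hcon
    refine hno J hJ hneJ ?_ (Or.inl (weighted_of_even _ S J _ _ hev))
    by_cases h : J = S
    · exact Or.inl h
    · exact Or.inr fun h0 => hcon ⟨h, h0⟩
  · intro hl
    exact exists_even S (cutTwist (GaussJones.Interlaced g) e) (2 * (B + 2) * (S.card + 1))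
      ((S.card + 2).factorial * (2 * B + 4)) (Nat.succ_le_of_lt (by positivity))
      (odd_le S.card B) hl
  · intro J hJ hneJ hJS
    refine ⟨fun x hx0 hx => ⟨?_, fun hr => ?_⟩, fun p hp => ?_⟩
    · by_contra hf
      exact hno J hJ hneJ hJS (Or.inl ⟨x, hx0, hx, Or.inl hf⟩)
    · exact hno J hJ hneJ hJS (Or.inl ⟨x, hx0, hx, Or.inr hr⟩)
    · by_contra hq
      push Not at hq
      exact hno J hJ hneJ hJS (Or.inr ⟨p, hp, hq⟩)

end Pool.Agent.NHT
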