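import Pool.Agent.NHT.Final4
import Pool.Agent.NHT.Span
import Pool.Agent.NHT.SepK

/-!
# NHT, version 6, module Final6: the final statement (helper38)
-/

set_option autoImplicit false

open Submodule LaurentPolynomial

namespace Pool.Agent.NHT

open Pool.Agent.SPT Pool.Agent.SPT.Rel Pool.Agent.EQT Pool.Agent.FHP Pool.Agent.Helper16.Knotoid
open Pool.Agent.TRA Pool.Agent.TRP

/-- **knotoid diagrams** -/
theorem knotoidF6 {n : ℕ} (D : GaussDiagram n) (S : Finset (Fin n)) (hS : Transversal D.Interlaced S)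
    (B : ℕ)
    (h : ((∃ i ∈ S, (((S.card + 2).factorial * (2 * B + 4) : ℕ) : ℤ) ≤
          |cutTwist D.Interlaced D.sign i|) ∧
        ∀ J ⊆ S, J.Nonempty →
          MeetsEvenly S (cutTwist D.Interlaced D.sign) (2 * (B + 2) * (S.card + 1)) J →
          ¬ HasCycleInO D ∅ (S \ J) ∨ cutDetO D J ≠ 0) ∨
      ∃ J ⊆ S, J.Nonempty ∧ (¬ HasCycleInO D ∅ (S \ J) ∨ cutDetO D J ≠ 0) ∧
        (MeetsEvenly S (cutTwist D.Interlaced D.sign) (2 * (B + 2) * (S.card + 1)) J ∨
          LongSigned S J (HasCycleInO D (S \ J)) (cutTwist D.Interlaced D.sign)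
            (2 * (B + 2) * (S.card + 1)) ∨
          Weighted (HasCycleInO D (S \ J)) J
            (Short S (cutTwist D.Interlaced D.sign) (2 * (B + 2) * (S.card + 1))) ∨
          Separated S J (HasCycleInO D (S \ J)) (cutTwist D.Interlaced D.sign)
            (2 * (B + 2) * (S.card + 1)) ∨
          ∃ p : Fin n → ℕ, Splits J (HasCycleInO D (S \ J)) p ∧
            ∀ q, GoodBlock4 J (HasCycleInO D (S \ J)) (row (D.Cut (cutState D.Interlaced D.sign)))
              (cutTwist D.Interlaced D.sign) p ((S.card + 2).factorial *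
                (2 * B + 4 + ∑ j ∈ S \ J, (cutTwist D.Interlaced D.sign j).natAbs)) q)) :
    B < terms D.normalizedBracket ∧ (1 ≤ B → D.normalizedBracket ≠ 1) := by
  classical
  have hdet : ∀ J ⊆ S, (¬ HasCycleInO D ∅ (S \ J) ∨ cutDetO D J ≠ 0) → cutDetO D J ≠ 0 := by
    intro J hJ h1
    rcases h1 with h1 | h1
    · exact cutDetO_span D S hS J hJ h1
    · exact h1
  have h1 : B < terms D.normalizedBracket := by
    rcases h with ⟨hl, hd⟩ | ⟨J, hJ, hne, hJS, h | h | h | h | ⟨p, hp, hq⟩⟩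
    · exact knotoidOdd D S hS B hl fun J hJ hne _ hev => hdet J hJ (hd J hJ hne hev)
    · exact knotoidF3 D S hS J hJ hne (Or.inr (hdet J hJ hJS)) B
        (Or.inl (weighted_of_even _ S J _ _ h))
    · exact knotoidSep D S hS J hJ hne (hdet J hJ hJS) B
        (h.separated hJ (thm_KnotoidBlock n D S J hS hJ) (Nat.succ_le_of_lt (by positivity)))
    · exact knotoidF3 D S hS J hJ hne (Or.inr (hdet J hJ hJS)) B (Or.inl h)
    · exact knotoidSep D S hS J hJ hne (hdet J hJ hJS) B h
    · exact knotoidF3 D S hS J hJ hne (Or.inr (hdet J hJ hJS)) B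
        (Or.inr ⟨p, hp, fun q => (hq q).good⟩)
  exact ⟨h1, ne_one_of_terms h1⟩

/-- **knot diagrams** -/
theorem knotF6 {n : ℕ} (g : GaussJones.Code n) (e : Fin n → Bool) (S : Finset (Fin n))
    (hS : Transversal (GaussJones.Interlaced g) S) (B : ℕ)
    (h : ((∃ i ∈ S, (((S.card + 2).factorial * (2 * B + 4) : ℕ) : ℤ) ≤
          |cutTwist (GaussJones.Interlaced g) e i|) ∧
        ∀ J ⊆ S, J.Nonempty →
          MeetsEvenly S (cutTwist (GaussJones.Interlaced g) e) (2 * (B + 2) * (S.card + 1)) J →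
          ¬ HasCycleIn g ∅ (S \ J) ∨ cutDet g e J ≠ 0) ∨
      ∃ J ⊆ S, J.Nonempty ∧ (¬ HasCycleIn g ∅ (S \ J) ∨ cutDet g e J ≠ 0) ∧
        (MeetsEvenly S (cutTwist (GaussJones.Interlaced g) e) (2 * (B + 2) * (S.card + 1)) J ∨
          LongSigned S J (HasCycleIn g (S \ J)) (cutTwist (GaussJones.Interlaced g) e)
            (2 * (B + 2) * (S.card + 1)) ∨
          Weighted (HasCycleIn g (S \ J)) J
            (Short S (cutTwist (GaussJones.Interlaced g) e) (2 * (B + 2) * (S.card + 1))) ∨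
          Separated S J (HasCycleIn g (S \ J)) (cutTwist (GaussJones.Interlaced g) e)
            (2 * (B + 2) * (S.card + 1)) ∨
          ∃ p : Fin n → ℕ, Splits J (HasCycleIn g (S \ J)) p ∧
            ∀ q, GoodBlock4 J (HasCycleIn g (S \ J))
              (row (GaussJones.Cut g e (cutState (GaussJones.Interlaced g) e)))
              (cutTwist (GaussJones.Interlaced g) e) p ((S.card + 2).factorial *
                (2 * B + 4 + ∑ j ∈ S \ J, (cutTwist (GaussJones.Interlaced g) e j).natAbs)) q)) :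
    B < terms (GaussJones.fPoly g e) ∧ (1 ≤ B → GaussJones.fPoly g e ≠ 1) := by
  classical
  have hdet : ∀ J ⊆ S, J.Nonempty → (¬ HasCycleIn g ∅ (S \ J) ∨ cutDet g e J ≠ 0) →
      cutDet g e J ≠ 0 := by
    intro J hJ hne h1
    have hn : 0 < n := by
      obtain ⟨i, -⟩ := hne
      exact i.pos
    rcases h1 with h1 | h1
    · exact cutDet_span hn g e S hS J hJ h1
    · exact h1
  have h1 : B < terms (GaussJones.fPoly g e) := by
    rcases h with ⟨hl, hd⟩ | ⟨J, hJ, hne, hJS, h | h | h | h | ⟨p, hp, hq⟩⟩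
    · exact knotOdd g e S hS B hl fun J hJ hne _ hev => hdet J hJ hne (hd J hJ hne hev)
    · exact knotF3 g e S hS J hJ hne (Or.inr (hdet J hJ hne hJS)) B
        (Or.inl (weighted_of_even _ S J _ _ h))
    · exact knotSep g e S hS J hJ hne (hdet J hJ hne hJS) B
        (h.separated hJ (thm_KnotBlock n g e S J hS hJ) (Nat.succ_le_of_lt (by positivity)))
    · exact knotF3 g e S hS J hJ hne (Or.inr (hdet J hJ hne hJS)) B (Or.inl h)
    · exact knotSep g e S hS J hJ hne (hdet J hJ hne hJS) B h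
    · exact knotF3 g e S hS J hJ hne (Or.inr (hdet J hJ hne hJS)) B
        (Or.inr ⟨p, hp, fun q => (hq q).good⟩)
  exact ⟨h1, ne_one_of_terms h1⟩

end Pool.Agent.NHT
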