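import Pool.Agent.NHT.Final6
import Pool.Agent.NHT.FOLK

/-!
# NHT, version 7, module Final7: the final statement (helper38)
-/

set_option autoImplicit false

open Submodule LaurentPolynomial

namespace Pool.Agent.NHT

open Pool.Agent.SPT Pool.Agent.SPT.Rel Pool.Agent.EQT Pool.Agent.FHP Pool.Agent.Helper16.Knotoid
open Pool.Agent.TRA Pool.Agent.TRP

/-- **alternative (4), knotoid diagrams** -/
theorem knotoidBlocks {n : ℕ} (D : GaussDiagram n) (S : Finset (Fin n))
    (hS : Transversal D.Interlaced S) (J : Finset (Fin n)) (hJ : J ⊆ S) (hne : J.Nonempty)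
    (hdet : cutDetO D J ≠ 0) (B : ℕ)
    (h : ∃ p : Fin n → ℕ, Splits J (HasCycleInO D (S \ J)) p ∧
        ∀ q, GoodBlock4 J (HasCycleInO D (S \ J)) (row (D.Cut (cutState D.Interlaced D.sign)))
          (cutTwist D.Interlaced D.sign) p ((J.card + 1).factorial *
            (2 * (B + 2) * (S.card + 1) +
              ∑ j ∈ S \ J, (cutTwist D.Interlaced D.sign j).natAbs)) q) :
    B < terms D.normalizedBracket := by
  classical
  obtain ⟨p, hp, hq⟩ := h
  by_contra hB
  obtain ⟨u, hF, hsg, hu⟩ := knotoidFOLK D B (not_lt.1 hB) S hS J hJ hne hdet _ rfl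
  have har : (fun i => twist (Graph_R D.Interlaced D.sign) (cutState D.Interlaced D.sign)
      (row (Graph_R D.Interlaced D.sign) i)) = cutTwist D.Interlaced D.sign :=
    funext fun i => twist_row (Graph_irrefl D) (Graph_int_symm D) i
  have hrows : J.image (row (Graph_R D.Interlaced D.sign)) ⊆
      rows (D.Cut (cutState D.Interlaced D.sign)) := by
    unfold rows
    exact Finset.image_subset_image (Finset.subset_univ J)
  refine hu (class_main3 card9 TRG.rankReg5 corank3 thm_OneExc TRJ.thm_WeightedBlock J _ _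
    (thm_KnotoidBlock n D S J hS hJ)
    (fun Y hY => TRL.knotoid_reg D _ Y (hY.trans hrows)) _ u _ _ ?_ hF hsg p hp fun q => ?_)
  · exact Nat.mul_pos (Nat.factorial_pos _) (by positivity)
  · rw [har]
    exact (hq q).good

/-- **alternative (4), knot diagrams** -/
theorem knotBlocks {n : ℕ} (g : GaussJones.Code n) (e : Fin n → Bool) (S : Finset (Fin n))
    (hS : Transversal (GaussJones.Interlaced g) S) (J : Finset (Fin n)) (hJ : J ⊆ S)
    (hne : J.Nonempty) (hdet : cutDet g e J ≠ 0) (B : ℕ)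
    (h : ∃ p : Fin n → ℕ, Splits J (HasCycleIn g (S \ J)) p ∧
        ∀ q, GoodBlock4 J (HasCycleIn g (S \ J))
          (row (GaussJones.Cut g e (cutState (GaussJones.Interlaced g) e)))
          (cutTwist (GaussJones.Interlaced g) e) p ((J.card + 1).factorial *
            (2 * (B + 2) * (S.card + 1) +
              ∑ j ∈ S \ J, (cutTwist (GaussJones.Interlaced g) e j).natAbs)) q) :
    B < terms (GaussJones.fPoly g e) := by
  classical
  obtain ⟨p, hp, hq⟩ := h
  by_contra hB
  have hirr : ∀ i, ¬ GaussJones.Interlaced g i i := by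
    intro i h
    rcases h with h | h <;> exact lt_irrefl _ h.1
  have hsy : ∀ i j, GaussJones.Interlaced g i j → GaussJones.Interlaced g j i :=
    fun i j h => h.symm
  obtain ⟨u, hF, hsg, hu⟩ := knotFOLK g e B (not_lt.1 hB) S hS J hJ hne hdet _ rfl
  have har : (fun i => twist (Graph_R (GaussJones.Interlaced g) e)
      (cutState (GaussJones.Interlaced g) e) (row (Graph_R (GaussJones.Interlaced g) e) i)) =
      cutTwist (GaussJones.Interlaced g) e := funext fun i => twist_row hirr hsy i
  have hrows : J.image (row (Graph_R (GaussJones.Interlaced g) e)) ⊆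
      rows (GaussJones.Cut g e (cutState (GaussJones.Interlaced g) e)) := by
    unfold rows
    exact Finset.image_subset_image (Finset.subset_univ J)
  refine hu (class_main3 card9 TRG.rankReg5 corank3 thm_OneExc TRJ.thm_WeightedBlock J _ _
    (thm_KnotBlock n g e S J hS hJ)
    (fun Y hY => TRL.knot_reg g e _ Y (hY.trans hrows)) _ u _ _ ?_ hF hsg p hp fun q => ?_)
  · exact Nat.mul_pos (Nat.factorial_pos _) (by positivity)
  · rw [har]
    exact (hq q).good

/-- **alternative (0), knotoid diagrams** -/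
theorem knotoidOdd7 {n : ℕ} (D : GaussDiagram n) (S : Finset (Fin n))
    (hS : Transversal D.Interlaced S) (B : ℕ)
    (hlong : ∃ i ∈ S, (((S.card + 1).factorial * (2 * (B + 2) * (S.card + 1)) : ℕ) : ℤ) ≤
      |cutTwist D.Interlaced D.sign i|)
    (hdet : ∀ J ⊆ S, J.Nonempty →
      MeetsEvenly S (cutTwist D.Interlaced D.sign) (2 * (B + 2) * (S.card + 1)) J →
      cutDetO D J ≠ 0) :
    B < terms D.normalizedBracket := by
  classical
  obtain ⟨J, hJ, hne, hev⟩ := exists_even S (cutTwist D.Interlaced D.sign)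
    (2 * (B + 2) * (S.card + 1)) ((S.card + 1).factorial * (2 * (B + 2) * (S.card + 1)))
    (Nat.succ_le_of_lt (by positivity))
    (folK_le _ _ _ le_rfl (Nat.succ_le_of_lt (by positivity))) hlong
  exact knotoidF3 D S hS J hJ hne (Or.inr (hdet J hJ hne hev)) B
    (Or.inl (weighted_of_even _ S J _ _ hev))

/-- **alternative (0), knot diagrams** -/
theorem knotOdd7 {n : ℕ} (g : GaussJones.Code n) (e : Fin n → Bool) (S : Finset (Fin n))
    (hS : Transversal (GaussJones.Interlaced g) S) (B : ℕ)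
    (hlong : ∃ i ∈ S, (((S.card + 1).factorial * (2 * (B + 2) * (S.card + 1)) : ℕ) : ℤ) ≤
      |cutTwist (GaussJones.Interlaced g) e i|)
    (hdet : ∀ J ⊆ S, J.Nonempty →
      MeetsEvenly S (cutTwist (GaussJones.Interlaced g) e) (2 * (B + 2) * (S.card + 1)) J →
      cutDet g e J ≠ 0) :
    B < terms (GaussJones.fPoly g e) := by
  classical
  obtain ⟨J, hJ, hne, hev⟩ := exists_even S (cutTwist (GaussJones.Interlaced g) e)
    (2 * (B + 2) * (S.card + 1)) ((S.card + 1).factorial * (2 * (B + 2) * (S.card + 1)))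
    (Nat.succ_le_of_lt (by positivity))
    (folK_le _ _ _ le_rfl (Nat.succ_le_of_lt (by positivity))) hlong
  exact knotF3 g e S hS J hJ hne (Or.inr (hdet J hJ hne hev)) B
    (Or.inl (weighted_of_even _ S J _ _ hev))

/-- **knotoid diagrams** -/
theorem knotoidF7 {n : ℕ} (D : GaussDiagram n) (S : Finset (Fin n)) (hS : Transversal D.Interlaced S)
    (B : ℕ)
    (h : ((∃ i ∈ S, (((S.card + 1).factorial * (2 * (B + 2) * (S.card + 1)) : ℕ) : ℤ) ≤
          |cutTwist D.Interlaced D.sign i|) ∧
        ∀ J ⊆ S, J.Nonempty →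
          MeetsEvenly S (cutTwist D.Interlaced D.sign) (2 * (B + 2) * (S.card + 1)) J →
          ¬ HasCycleInO D ∅ (S \ J) ∨ cutDetO D J ≠ 0) ∨
      ∃ J ⊆ S, J.Nonempty ∧ (¬ HasCycleInO D ∅ (S \ J) ∨ cutDetO D J ≠ 0) ∧
        (MeetsEvenly S (cutTwist D.Interlaced D.sign) (2 * (B + 2) * (S.card + 1)) J ∨
          LongSigned S J (HasCycleInO D (S \ J)) (cutTwist D.Interlaced D.sign)
            (2 * (B + 2) * (S.card + 1)) ∨
          Weighted (HasCycleInO D (S \ J)) J
            (Short S (cutTwist D.Interlaced D.sign) (2 * (B + 2) * (S.card + 1))) ∨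
          Separated S J (HasCycleInO D (S \ J)) (cutTwist D.Interlaced D.sign)
            (2 * (B + 2) * (S.card + 1)) ∨
          ∃ p : Fin n → ℕ, Splits J (HasCycleInO D (S \ J)) p ∧
            ∀ q, GoodBlock4 J (HasCycleInO D (S \ J)) (row (D.Cut (cutState D.Interlaced D.sign)))
              (cutTwist D.Interlaced D.sign) p ((J.card + 1).factorial *
                (2 * (B + 2) * (S.card + 1) +
                  ∑ j ∈ S \ J, (cutTwist D.Interlaced D.sign j).natAbs)) q)) :
    B < terms D.normalizedBracket ∧ (1 ≤ B → D.normalizedBracket ≠ 1) := by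
  classical
  have hdet : ∀ J ⊆ S, (¬ HasCycleInO D ∅ (S \ J) ∨ cutDetO D J ≠ 0) → cutDetO D J ≠ 0 := by
    intro J hJ h1
    rcases h1 with h1 | h1
    · exact cutDetO_span D S hS J hJ h1
    · exact h1
  have h1 : B < terms D.normalizedBracket := by
    rcases h with ⟨hl, hd⟩ | ⟨J, hJ, hne, hJS, h | h | h | h | ⟨p, hp, hq⟩⟩
    · exact knotoidOdd7 D S hS B hl fun J hJ hne hev => hdet J hJ (hd J hJ hne hev)
    · exact knotoidF3 D S hS J hJ hne (Or.inr (hdet J hJ hJS)) B
        (Or.inl (weighted_of_even _ S J _ _ h))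
    · exact knotoidSep D S hS J hJ hne (hdet J hJ hJS) B
        (h.separated hJ (thm_KnotoidBlock n D S J hS hJ) (Nat.succ_le_of_lt (by positivity)))
    · exact knotoidF3 D S hS J hJ hne (Or.inr (hdet J hJ hJS)) B (Or.inl h)
    · exact knotoidSep D S hS J hJ hne (hdet J hJ hJS) B h
    · exact knotoidBlocks D S hS J hJ hne (hdet J hJ hJS) B ⟨p, hp, hq⟩
  exact ⟨h1, ne_one_of_terms h1⟩

/-- **knot diagrams** -/
theorem knotF7 {n : ℕ} (g : GaussJones.Code n) (e : Fin n → Bool) (S : Finset (Fin n))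
    (hS : Transversal (GaussJones.Interlaced g) S) (B : ℕ)
    (h : ((∃ i ∈ S, (((S.card + 1).factorial * (2 * (B + 2) * (S.card + 1)) : ℕ) : ℤ) ≤
          |cutTwist (GaussJones.Interlaced g) e i|) ∧
        ∀ J ⊆ S, J.Nonempty →
          MeetsEvenly S (cutTwist (GaussJones.Interlaced g) e) (2 * (B + 2) * (S.card + 1)) J →
          ¬ HasCycleIn g ∅ (S \ J) ∨ cutDet g e J ≠ 0) ∨
      ∃ J ⊆ S, J.Nonempty ∧ (¬ HasCycleIn g ∅ (S \ J) ∨ cutDet g e J ≠ 0) ∧
        (MeetsEvenly S (cutTwist (GaussJones.Interlaced g) e) (2 * (B + 2) * (S.card + 1)) J ∨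
          LongSigned S J (HasCycleIn g (S \ J)) (cutTwist (GaussJones.Interlaced g) e)
            (2 * (B + 2) * (S.card + 1)) ∨
          Weighted (HasCycleIn g (S \ J)) J
            (Short S (cutTwist (GaussJones.Interlaced g) e) (2 * (B + 2) * (S.card + 1))) ∨
          Separated S J (HasCycleIn g (S \ J)) (cutTwist (GaussJones.Interlaced g) e)
            (2 * (B + 2) * (S.card + 1)) ∨
          ∃ p : Fin n → ℕ, Splits J (HasCycleIn g (S \ J)) p ∧
            ∀ q, GoodBlock4 J (HasCycleIn g (S \ J))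
              (row (GaussJones.Cut g e (cutState (GaussJones.Interlaced g) e)))
              (cutTwist (GaussJones.Interlaced g) e) p ((J.card + 1).factorial *
                (2 * (B + 2) * (S.card + 1) +
                  ∑ j ∈ S \ J, (cutTwist (GaussJones.Interlaced g) e j).natAbs)) q)) :
    B < terms (GaussJones.fPoly g e) ∧ (1 ≤ B → GaussJones.fPoly g e ≠ 1) := by
  classical
  have hdet : ∀ J ⊆ S, J.Nonempty → (¬ HasCycleIn g ∅ (S \ J) ∨ cutDet g e J ≠ 0) →
      cutDet g e J ≠ 0 := by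
    intro J hJ hne h1
    have hn : 0 < n := by
      obtain ⟨i, -⟩ := hne
      exact i.pos
    rcases h1 with h1 | h1
    · exact cutDet_span hn g e S hS J hJ h1
    · exact h1
  have h1 : B < terms (GaussJones.fPoly g e) := by
    rcases h with ⟨hl, hd⟩ | ⟨J, hJ, hne, hJS, h | h | h | h | ⟨p, hp, hq⟩⟩
    · exact knotOdd7 g e S hS B hl fun J hJ hne hev => hdet J hJ hne (hd J hJ hne hev)
    · exact knotF3 g e S hS J hJ hne (Or.inr (hdet J hJ hne hJS)) B
        (Or.inl (weighted_of_even _ S J _ _ h))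
    · exact knotSep g e S hS J hJ hne (hdet J hJ hne hJS) B
        (h.separated hJ (thm_KnotBlock n g e S J hS hJ) (Nat.succ_le_of_lt (by positivity)))
    · exact knotF3 g e S hS J hJ hne (Or.inr (hdet J hJ hne hJS)) B (Or.inl h)
    · exact knotSep g e S hS J hJ hne (hdet J hJ hne hJS) B h
    · exact knotBlocks g e S hS J hJ hne (hdet J hJ hne hJS) B ⟨p, hp, hq⟩
  exact ⟨h1, ne_one_of_terms h1⟩

end Pool.Agent.NHT
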