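import Pool.Agent.NHT.Class3
import Pool.Agent.NHT.KDet

/-!
# NHT, version 3, module Glob3: weights for all short relations of the diagram (helper38)
-/

set_option autoImplicit false
set_option linter.unusedSectionVars false

open Submodule Module LaurentPolynomial

namespace Pool.Agent.NHT

open Pool.Agent.SPT Pool.Agent.SPT.Rel Pool.Agent.TRA Pool.Agent.TRP Pool.Agent.EQT Pool.Agent.FHP
open Pool.Agent.Helper16.Knotoid

/-- from the weights of the classes to the weights of the rows -/
theorem weighted_lift (hFo : St_Forest) (hBo : St_Box) {ι V : Type} [DecidableEq ι]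
    [DecidableEq V] [AddCommGroup V] [Module (ZMod 2) V] (S J : Finset ι) (hJ : J ⊆ S)
    (Cyc : Finset ι → Prop) (r : ι → V) (hB : Block J Cyc r) (hinj : Set.InjOn r (S : Set ι))
    (a : V → ℤ) (N : ℕ) (hw : Weighted Cyc J (Short S (fun i => a (r i)) N)) :
    ∃ x' : V → ℂ, (∀ v, x' v ≠ 0) ∧ (∀ v, v ∉ J.image r → x' v = 1) ∧
      (∀ d, Small (S.image r) a N d → ∏ v ∈ S.image r, x' v ^ d v = 1) ∧
      PP (J.image r) ⊥ x' ≠ 0 := by
  classical
  obtain ⟨x, hx0, hx, hcase⟩ := hw
  obtain ⟨x', hx'⟩ : ∃ x' : V → ℂ, x' = fun v => if h : ∃ i ∈ J, r i = v then x h.choose else 1 :=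
    ⟨_, rfl⟩
  have hx'J : ∀ i ∈ J, x' (r i) = x i := by
    intro i hi
    have h : ∃ j ∈ J, r j = r i := ⟨i, hi, rfl⟩
    rw [hx']
    show (if h : ∃ j ∈ J, r j = r i then x h.choose else 1) = x i
    rw [dif_pos h]
    exact congrArg x (hB.inj h.choose_spec.1 hi h.choose_spec.2)
  have hx'1 : ∀ v, v ∉ J.image r → x' v = 1 := by
    intro v hv
    rw [hx']
    exact dif_neg fun h => hv (by
      obtain ⟨i, hi, rfl⟩ := h
      exact Finset.mem_image_of_mem r hi)
  refine ⟨x', fun v => ?_, hx'1, fun d hd => ?_, ?_⟩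
  · by_cases hv : v ∈ J.image r
    · obtain ⟨i, hi, rfl⟩ := Finset.mem_image.1 hv
      rw [hx'J i hi]
      exact hx0 i hi
    · rw [hx'1 v hv]
      exact one_ne_zero
  · rw [Finset.prod_image hinj]
    obtain ⟨d', hd'⟩ : ∃ d' : ι → ℤ, d' = fun i => if i ∈ S then d (r i) else 0 := ⟨_, rfl⟩
    have hd'1 : ∀ i ∈ S, d' i = d (r i) := by
      intro i h
      rw [hd']
      exact if_pos h
    have hsh : Short S (fun i => a (r i)) N d' := by
      refine ⟨fun i => ?_, fun i h => ?_, ?_⟩
      · by_cases h : i ∈ S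
        · rw [hd'1 i h]
          exact hd.1 (r i)
        · rw [hd']
          exact Or.inr (Or.inl (if_neg h))
      · rw [hd']
        exact if_neg h
      · have h1 := hd.2.2
        rw [Finset.sum_image hinj] at h1
        rw [Finset.sum_congr rfl fun i hi => by rw [hd'1 i hi]]
        exact h1
    have h1 := hx d' hsh
    rw [← h1, ← Finset.prod_subset hJ]
    · refine Finset.prod_congr rfl fun i hi => ?_
      rw [hx'J i hi, hd'1 i (hJ hi)]
    · intro i hiS hi
      rw [hx'1, one_zpow]
      intro h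
      obtain ⟨j, hj, hji⟩ := Finset.mem_image.1 h
      exact hi (hinj (Finset.mem_coe.2 (hJ hj)) (Finset.mem_coe.2 hiS) hji ▸ hj)
  · rcases hcase with h | h
    · rw [hFo ι V J Cyc r hB x x' hx'J]
      exact h
    · have h0 : (0 : V) ∉ J.image r := by
        intro h0
        obtain ⟨i, hi, h1⟩ := Finset.mem_image.1 h0
        exact hB.ne i hi h1
      have hy : ∀ v, ∃ y : ℝ, v ∈ J.image r → x' v = y ∧ -1 ≤ y ∧ y < 1 := by
        intro v
        by_cases hv : v ∈ J.image r
        · obtain ⟨i, hi, rfl⟩ := Finset.mem_image.1 hv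
          obtain ⟨y, h1, h2, h3⟩ := h i hi
          exact ⟨y, fun _ => ⟨by rw [hx'J i hi]; exact h1, h2, h3⟩⟩
        · exact ⟨0, fun h => absurd h hv⟩
      choose y hy using hy
      exact hBo V (J.image r) h0 y x' (fun v hv => (hy v hv).2) fun v hv => (hy v hv).1

/-- **Alternative (1), knotoid diagrams** -/
theorem knotoidG3 (hFo : St_Forest) (hBo : St_Box) (hKB : St_KnotoidBlock) {n : ℕ}
    (D : GaussDiagram n) (S : Finset (Fin n)) (hS : Transversal D.Interlaced S)
    (J : Finset (Fin n)) (hJ : J ⊆ S) (hne : J.Nonempty) (hdet : cutDetO D J ≠ 0) (B : ℕ)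
    (hw : Weighted (HasCycleInO D (S \ J)) J
      (Short S (cutTwist D.Interlaced D.sign) (2 * (B + 2) * (S.card + 1)))) :
    B < terms D.normalizedBracket := by
  classical
  by_contra hB
  have har : (fun i => twist (Graph_R D.Interlaced D.sign) (cutState D.Interlaced D.sign)
      (row (Graph_R D.Interlaced D.sign) i)) = cutTwist D.Interlaced D.sign :=
    funext fun i => twist_row (Graph_irrefl D) (Graph_int_symm D) i
  rw [← har] at hw
  obtain ⟨x, hx0, hx1, hx, hne'⟩ := weighted_lift hFo hBo S J hJ _ _ (hKB n D S J hS hJ)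
    (Graph_inj (e := D.sign) (Graph_irrefl D) (Graph_int_symm D) hS) _ _ hw
  rcases knotoidHVJ D B _ (not_lt.1 hB) S hS le_rfl J hJ hne x hx0 hx1 hx with h | h
  · exact hne' h
  · exact hdet h

/-- **Alternative (1), knot diagrams** -/
theorem knotG3 (hFo : St_Forest) (hBo : St_Box) (hKB : St_KnotBlock) {n : ℕ}
    (g : GaussJones.Code n) (e : Fin n → Bool) (S : Finset (Fin n))
    (hS : Transversal (GaussJones.Interlaced g) S) (J : Finset (Fin n)) (hJ : J ⊆ S)
    (hne : J.Nonempty) (hdet : cutDet g e J ≠ 0) (B : ℕ)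
    (hw : Weighted (HasCycleIn g (S \ J)) J
      (Short S (cutTwist (GaussJones.Interlaced g) e) (2 * (B + 2) * (S.card + 1)))) :
    B < terms (GaussJones.fPoly g e) := by
  classical
  by_contra hB
  have hirr : ∀ i, ¬ GaussJones.Interlaced g i i := by
    intro i h
    rcases h with h | h <;> exact lt_irrefl _ h.1
  have hsy : ∀ i j, GaussJones.Interlaced g i j → GaussJones.Interlaced g j i :=
    fun i j h => h.symm
  have har : (fun i => twist (Graph_R (GaussJones.Interlaced g) e)
      (cutState (GaussJones.Interlaced g) e) (row (Graph_R (GaussJones.Interlaced g) e) i)) =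
      cutTwist (GaussJones.Interlaced g) e := funext fun i => twist_row hirr hsy i
  rw [← har] at hw
  obtain ⟨x, hx0, hx1, hx, hne'⟩ := weighted_lift hFo hBo S J hJ _ _ (hKB n g e S J hS hJ)
    (Graph_inj (e := e) hirr hsy hS) _ _ hw
  rcases knotHVJ g e B _ (not_lt.1 hB) S hS le_rfl J hJ hne x hx0 hx1 hx with h | h
  · exact hne' h
  · exact hdet h

end Pool.Agent.NHT
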