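import Mathlib
import Pool.Agent.NHT.Defs10
import Pool.Agent.NHT.Flat
import Pool.Agent.NHT.Sep
import Pool.Agent.NHT.Glob3

/-!
# NHT, module FlatB: the complement of a flat is a union of cycles (helper68)
-/

set_option autoImplicit false
set_option linter.unusedSectionVars false

open Submodule Module

namespace Pool.Agent.NHT

open Pool.Agent.SPT Pool.Agent.SPT.Rel Pool.Agent.TRA Pool.Agent.TRP Pool.Agent.EQT Pool.Agent.FHP

variable {ι V : Type} [DecidableEq ι] [DecidableEq V] [AddCommGroup V] [Module (ZMod 2) V]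

/-- **the complement of a flat is a union of cycles** -/
theorem Block.cycleSet {Q : Finset ι} {Cyc : Finset ι → Prop} {r : ι → V} (hB : Block Q Cyc r)
    {K : Finset ι} (hK : K ⊆ Q) (hF : IsFlat (Q.image r) (K.image r)) : CycleSet Cyc (Q \ K) := by
  classical
  intro i hi
  rw [Finset.mem_sdiff] at hi
  have hri : r i ∉ span (ZMod 2) ((K.image r : Finset V) : Set V) := by
    intro h
    obtain ⟨j, hj, hji⟩ := Finset.mem_image.1 (hF (r i) (Finset.mem_image_of_mem r hi.1) h)
    exact hi.2 (hB.inj (Finset.mem_coe.2 (hK hj)) (Finset.mem_coe.2 hi.1) hji ▸ hj)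
  obtain ⟨K', hK', hmax⟩ := Finset.exists_max_image
    (Q.powerset.filter fun K' => K ⊆ K' ∧ r i ∉ span (ZMod 2) ((K'.image r : Finset V) : Set V))
    (fun K' => K'.card) ⟨K, Finset.mem_filter.2 ⟨Finset.mem_powerset.2 hK,
      Finset.Subset.refl K, hri⟩⟩
  rw [Finset.mem_filter, Finset.mem_powerset] at hK'
  obtain ⟨hK'Q, hKK', hiK'⟩ := hK'
  have hCi : i ∈ Q \ K' := Finset.mem_sdiff.2
    ⟨hi.1, fun h => hiK' (subset_span (Finset.mem_coe.2 (Finset.mem_image_of_mem r h)))⟩
  refine ⟨Q \ K', Finset.sdiff_subset_sdiff (Finset.Subset.refl Q) hKK', hCi, ?_, ?_⟩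
  · by_contra hno
    have h1 := (hB.co (Q \ K') Finset.sdiff_subset).1 hno
    unfold Co at h1
    rw [hB.image_sdiff Finset.sdiff_subset, Finset.sdiff_sdiff_eq_self hK'Q] at h1
    exact hiK' (h1 ▸ subset_span (Finset.mem_coe.2 (Finset.mem_image_of_mem r hi.1)))
  · have hsub : (Q \ K').erase i ⊆ Q := (Finset.erase_subset _ _).trans Finset.sdiff_subset
    rw [hB.co _ hsub]
    unfold Co
    rw [hB.image_sdiff hsub]
    have h2 : Q \ (Q \ K').erase i = insert i K' := by
      ext j
      rw [Finset.mem_sdiff, Finset.mem_erase, Finset.mem_sdiff, Finset.mem_insert]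
      constructor
      · rintro ⟨hj, h3⟩
        by_cases hji : j = i
        · exact Or.inl hji
        · right
          by_contra hjK
          exact h3 ⟨hji, hj, hjK⟩
      · rintro (rfl | hj)
        · exact ⟨hi.1, fun h3 => h3.1 rfl⟩
        · exact ⟨hK'Q hj, fun h3 => h3.2.2 hj⟩
    rw [h2]
    refine le_antisymm (span_mono (Finset.coe_subset.2 (Finset.image_mono r
      (Finset.insert_subset hi.1 hK'Q)))) (span_le.2 fun v hv => ?_)
    obtain ⟨j, hj, rfl⟩ := Finset.mem_image.1 (Finset.mem_coe.1 hv)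
    by_cases hjK : j ∈ K'
    · exact subset_span (Finset.mem_coe.2 (Finset.mem_image_of_mem r (Finset.mem_insert_of_mem hjK)))
    · have h3 : r i ∈ span (ZMod 2) (((insert j K').image r : Finset V) : Set V) := by
        by_contra hno
        have h4 := hmax (insert j K') (Finset.mem_filter.2 ⟨Finset.mem_powerset.2
          (Finset.insert_subset hj hK'Q), hKK'.trans (Finset.subset_insert _ _), hno⟩)
        rw [Finset.card_insert_of_notMem hjK] at h4
        omega
      rw [Finset.image_insert, Finset.coe_insert] at h3 ⊢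
      exact mem_span_insert_exchange h3 hiK'

/-- the set of the classes of a set of rows -/
theorem FlatS_image {J : Finset ι} {r : ι → V} {K : Finset V} (hK : K ⊆ J.image r) :
    (J.filter fun i => r i ∈ K).image r = K := by
  ext v
  rw [Finset.mem_image]
  constructor
  · rintro ⟨i, hi, rfl⟩
    exact (Finset.mem_filter.1 hi).2
  · intro hv
    obtain ⟨i, hi, rfl⟩ := Finset.mem_image.1 (hK hv)
    exact ⟨i, Finset.mem_filter.2 ⟨hi, hv⟩, rfl⟩

theorem FlatS_cycleSet {J : Finset ι} {Cyc : Finset ι → Prop} {r : ι → V} (hB : Block J Cyc r)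
    {K : Finset V} (hK : K ⊆ J.image r) (hF : IsFlat (J.image r) K) :
    CycleSet Cyc (J \ J.filter fun i => r i ∈ K) := by
  refine hB.cycleSet (Finset.filter_subset _ _) ?_
  rw [FlatS_image hK]
  exact hF

/-- `PS` of a product is `PP` -/
theorem PS_prod (X : Finset V) (x : V → ℂ) : PS X (fun K => ∏ v ∈ K, x v) = PP X ⊥ x := by
  classical
  unfold PS PP
  refine Finset.sum_congr rfl fun A _ => ?_
  by_cases h : Spans ⊥ X A
  · rw [if_pos h, if_pos h, prod_sub_one]
  · rw [if_neg h, if_neg h]

end Pool.Agent.NHT
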