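import Pool.Agent.NHT.Knot
import Pool.Agent.NHT.SepK
import Pool.Agent.NHT.Part

/-!
# NHT, module KnotC: long classes whose matrix is invertible (helper68)

If `D_J` is a knot then each class of `J` is a loop, so every set of classes of `J` is without isthmus and
the determinant of `D_J` is odd.
-/

set_option autoImplicit false

namespace Pool.Agent.NHT

open Pool.Agent.SPT Pool.Agent.EQT Pool.Agent.FHP Pool.Agent.TRA Pool.Agent.TRP Pool.Agent.UNI
  Pool.Agent.Helper16.Knotoid

variable {n : ℕ}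

/-- no short vector has, for some set `L`, entries which are not negative on `J \ L` and not positive on
`L` -/
def NoSignedSum {ι : Type} [DecidableEq ι] (S J : Finset ι) (a : ι → ℤ) (N : ℕ) : Prop :=
  ∃ L ⊆ J, ∀ d, Short S a N d → (∀ i ∈ J \ L, 0 ≤ d i) → (∀ i ∈ L, d i ≤ 0) → ∀ i ∈ J, d i = 0

theorem NoSignedSum.noPartialSum {ι V : Type} [DecidableEq ι] [DecidableEq V] [AddCommGroup V]
    [Module (ZMod 2) V] {S J : Finset ι} {Cyc : Finset ι → Prop} {r : ι → V} (hB : Block J Cyc r)
    (hl : ∀ i ∈ J, Cyc {i}) {a : ι → ℤ} {N : ℕ} (h : NoSignedSum S J a N) :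
    NoPartialSum S J Cyc a N := by
  classical
  obtain ⟨L, hL, hd⟩ := h
  refine ⟨L, hL, fun i hi => ⟨{i}, Finset.singleton_subset_iff.2 hi, Finset.mem_singleton_self i,
    hl i (hL hi), ?_⟩, hd⟩
  have h1 : ({i} : Finset ι).erase i = ∅ := Finset.erase_singleton i
  rw [h1, hB.co ∅ (Finset.empty_subset J)]
  unfold Co
  rw [Finset.image_empty, Finset.sdiff_empty]

/-- a linear condition for the twist numbers of the classes in `J`, with any signs -/
theorem noSignedSum_long {ι : Type} [DecidableEq ι] {S J : Finset ι} (hJ : J ⊆ S) {a : ι → ℤ} {N : ℕ}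
    (hbig : ∀ i ∈ J, (N : ℤ) + ∑ j ∈ S \ J, |a j| ≤ |a i|) : NoSignedSum S J a N := by
  classical
  refine ⟨J.filter fun i => a i < 0, Finset.filter_subset _ _, fun d hd h1 h2 =>
    NoPartialSum.aux hJ hbig hd (Or.inl fun i hi => ?_)⟩
  by_cases h3 : a i < 0
  · exact mul_nonneg_of_nonpos_of_nonpos (h2 i (Finset.mem_filter.2 ⟨hi, h3⟩)) h3.le
  · exact mul_nonneg (h1 i (Finset.mem_sdiff.2 ⟨hi, fun h4 => h3 (Finset.mem_filter.1 h4).2⟩))
      (not_lt.1 h3)

/-- **Knotoid diagrams**: `D_J` is a knotoid with one component -/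
theorem knotoidNonDeg (D : GaussDiagram n) (S : Finset (Fin n)) (hS : Transversal D.Interlaced S)
    (J : Finset (Fin n)) (hJ : J ⊆ S) (hne : J.Nonempty)
    (hn : NonDeg (D.Cut (cutState D.Interlaced D.sign)) J) (B : ℕ)
    (h : NoSignedSum S J (cutTwist D.Interlaced D.sign) (2 * (B + 2) * (S.card + 1))) :
    B < D.normalizedBracket.coeff.support.card := by
  obtain ⟨h1, h2⟩ := nondeg_O D S hS J hJ hn
  exact knotoidSep D S hS J hJ hne h1 B
    ((h.noPartialSum (thm_KnotoidBlock n D S J hS hJ) h2).separated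
      (thm_KnotoidBlock n D S J hS hJ))

/-- **Knot diagrams**: `D_J` is a knot -/
theorem knotNonDeg (g : GaussJones.Code n) (e : Fin n → Bool) (S : Finset (Fin n))
    (hS : Transversal (GaussJones.Interlaced g) S) (J : Finset (Fin n)) (hJ : J ⊆ S)
    (hne : J.Nonempty)
    (hn : NonDeg (GaussJones.Cut g e (cutState (GaussJones.Interlaced g) e)) J) (B : ℕ)
    (h : NoSignedSum S J (cutTwist (GaussJones.Interlaced g) e) (2 * (B + 2) * (S.card + 1))) :
    B < (GaussJones.fPoly g e).coeff.support.card := by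
  obtain ⟨h1, h2⟩ := nondeg_K g e S hS J hJ hne hn
  exact knotSep g e S hS J hJ hne h1 B
    ((h.noPartialSum (thm_KnotBlock n g e S J hS hJ) h2).separated
      (thm_KnotBlock n g e S J hS hJ))

end Pool.Agent.NHT
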