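import Mathlib
import Pool.Agent.SPT.Rel

/-!
# NHT: weight vectors whose negative part is closed up to one element, part 1 (helper17)

`X` is a finite set of vectors over the field with two elements, `cc X S` is the coefficient of the
monomial of `S` in the polynomial of the spanning sets.
-/

set_option autoImplicit false
set_option linter.unusedSectionVars false

open Submodule

namespace Pool.Agent.NHT.OB

open Pool.Agent.SPT Pool.Agent.SPT.Rel Pool.Agent.SPT.Odd

section

variable {V : Type} [AddCommGroup V] [Module (ZMod 2) V] [DecidableEq V]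

/-- cancellation of a vector outside of `S` -/
theorem sup_cancel (A S : Submodule (ZMod 2) V) (hAS : A ≤ S) (v : V) (hv : v ∉ S) :
    A ⊔ span (ZMod 2) {v} = S ⊔ span (ZMod 2) {v} ↔ A = S := by
  constructor
  · intro h
    refine le_antisymm hAS fun s hs => ?_
    have h1 : s ∈ A ⊔ span (ZMod 2) {v} := by
      rw [h]
      exact mem_sup_left hs
    rcases (mem_ss _ _ _).1 h1 with h2 | h2
    · exact h2
    · exfalso
      apply hv
      have h3 : v = s + (s + v) := by rw [← add_assoc, aself, zero_add]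
      rw [h3]
      exact add_mem hs (hAS h2)
  · intro h
    rw [h]

/-- two vectors in series with opposite weights -/
theorem PP_opposite (X : Finset V) (x : V → ℂ) (e f : V) (hef : e ≠ f)
    (he : e ∉ span (ZMod 2) (X : Set V)) (hg : e + f ∈ span (ZMod 2) (X : Set V))
    (hx : x e * x f = 1) :
    PP (insert e (insert f X)) ⊥ x =
      (x e + x f - 2) * (PP X ⊥ x - PP X (span (ZMod 2) {e + f}) x) := by
  have hf : f ∉ span (ZMod 2) (X : Set V) := by
    intro h
    apply he
    have h1 : e = (e + f) + f := by rw [add_assoc, aself, add_zero]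
    rw [h1]
    exact add_mem hg h
  have heX : e ∉ X := fun h => he (subset_span h)
  have hfX : f ∉ X := fun h => hf (subset_span h)
  have he' : e ∉ insert f X := by
    rw [Finset.mem_insert, not_or]
    exact ⟨hef, heX⟩
  obtain ⟨S, hS⟩ : ∃ S, S = span (ZMod 2) (X : Set V) := ⟨_, rfl⟩
  rw [← hS] at he hf hg
  have hfe : S ⊔ span (ZMod 2) {f} = S ⊔ span (ZMod 2) {e} := (ss_par S e f hg).symm
  have hall : (⊥ : Submodule (ZMod 2) V) ⊔ span (ZMod 2) ((insert e (insert f X) : Finset V) : Set V) =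
      S ⊔ span (ZMod 2) {e} := by
    rw [ss_insert', ss_insert', bot_sup_eq, ← hS, hfe, sup_assoc, sup_idem]
  have hW : ∀ W ⊆ X, span (ZMod 2) (W : Set V) ≤ S := by
    intro W hWX
    rw [hS]
    exact span_mono (Finset.coe_subset.2 hWX)
  have k0 : ∀ W ⊆ X, ¬ Spans ⊥ (insert e (insert f X)) W := by
    intro W hWX h
    unfold Spans at h
    rw [hall, bot_sup_eq] at h
    apply he
    have h1 : e ∈ S ⊔ span (ZMod 2) {e} := mem_sup_right (mem_span_singleton_self e)
    rw [← h] at h1
    exact hW W hWX h1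
  have k1 : ∀ W ⊆ X, (Spans ⊥ (insert e (insert f X)) (insert f W) ↔ Spans ⊥ X W) := by
    intro W hWX
    unfold Spans
    rw [hall, ss_insert', bot_sup_eq, bot_sup_eq, ← hS, ← hfe]
    exact sup_cancel _ S (hW W hWX) f hf
  have k2 : ∀ W ⊆ X, (Spans ⊥ (insert e (insert f X)) (insert e W) ↔ Spans ⊥ X W) := by
    intro W hWX
    unfold Spans
    rw [hall, ss_insert', bot_sup_eq, bot_sup_eq, ← hS]
    exact sup_cancel _ S (hW W hWX) e he
  have k3 : ∀ W ⊆ X, (Spans ⊥ (insert e (insert f X)) (insert e (insert f W)) ↔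
      Spans (span (ZMod 2) {e + f}) X W) := by
    intro W hWX
    have h1 : (⊥ : Submodule (ZMod 2) V) ⊔
        span (ZMod 2) ((insert e (insert f W) : Finset V) : Set V) =
        (span (ZMod 2) {e + f} ⊔ span (ZMod 2) (W : Set V)) ⊔ span (ZMod 2) {e} := by
      rw [ss_insert', ss_insert', bot_sup_eq]
      refine le_antisymm (sup_le (sup_le (le_sup_right.trans le_sup_left) ?_) le_sup_right)
        (sup_le (sup_le ?_ (le_sup_left.trans le_sup_left)) le_sup_right)
      · rw [span_singleton_le_iff_mem]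
        have h2 : f = (e + f) + e := by rw [add_comm e f, add_assoc, aself, add_zero]
        have h3 : (e + f) + e ∈ (span (ZMod 2) {e + f} ⊔ span (ZMod 2) (W : Set V)) ⊔
            span (ZMod 2) {e} :=
          add_mem (mem_sup_left (mem_sup_left (mem_span_singleton_self _)))
            (mem_sup_right (mem_span_singleton_self e))
        rw [← h2] at h3
        exact h3
      · rw [span_singleton_le_iff_mem]
        exact add_mem (mem_sup_right (mem_span_singleton_self e))
          (mem_sup_left (mem_sup_right (mem_span_singleton_self f)))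
    have h2 : span (ZMod 2) {e + f} ⊔ span (ZMod 2) (X : Set V) = S := by
      rw [← hS]
      exact sup_eq_right.2 ((span_singleton_le_iff_mem _ _).2 hg)
    unfold Spans
    rw [hall, h1, h2]
    exact sup_cancel _ S (sup_le ((span_singleton_le_iff_mem _ _).2 hg) (hW W hWX)) e he
  rw [PP_eq, PP_eq, PP_eq, SS_insert _ x e he', SS_insert X _ f hfX, SS_insert X _ f hfX,
    SS_zero X x _ k0, SS_congr X x _ _ k1, SS_congr X x _ _ k2, SS_congr X x _ _ k3]
  linear_combination (SS X x (Spans (span (ZMod 2) {e + f}) X)) * hx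

/-- a vector with the weight zero -/
theorem PP_zero (X : Finset V) (x : V → ℂ) (g : V) (hg : g ∈ span (ZMod 2) (X : Set V)) :
    PP (insert g X) ⊥ (Function.update x g 0) = PP X ⊥ x - PP X (span (ZMod 2) {g}) x := by
  have hgen : ∀ Y : Finset V, g ∉ Y → ∀ X' : Finset V, span (ZMod 2) (X' : Set V) =
      span (ZMod 2) ((insert g Y : Finset V) : Set V) →
      SS Y x (fun W => Spans ⊥ X' (insert g W)) =
        SS Y x (Spans (span (ZMod 2) {g}) Y) := by
    intro Y hY X' hX'
    refine SS_congr Y x _ _ fun W hW => ?_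
    unfold Spans
    rw [hX', bot_sup_eq, bot_sup_eq, Finset.coe_insert, Finset.coe_insert, span_insert, span_insert]
  by_cases hgX : g ∈ X
  · obtain ⟨Y, hY, rfl⟩ : ∃ Y, g ∉ Y ∧ X = insert g Y :=
      ⟨X.erase g, Finset.notMem_erase g X, (Finset.insert_erase hgX).symm⟩
    rw [Finset.insert_eq_of_mem (Finset.mem_insert_self g Y), PP_loop Y _ x g hY
      (mem_span_singleton_self g), PP_eq, PP_eq, PP_eq, SS_insert Y _ g hY, SS_insert Y _ g hY,
      SS_update Y x g hY, SS_update Y x g hY, Function.update_self, hgen Y hY _ rfl]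
    ring
  · have h1 : span (ZMod 2) ((insert g X : Finset V) : Set V) = span (ZMod 2) (X : Set V) := by
      rw [Finset.coe_insert, span_insert_eq_span hg]
    rw [PP_eq, PP_eq, PP_eq, SS_insert X _ g hgX, SS_update X x g hgX, SS_update X x g hgX,
      Function.update_self, hgen X hgX _ rfl]
    have h2 : SS X x (Spans ⊥ (insert g X)) = SS X x (Spans ⊥ X) := by
      refine SS_congr X x _ _ fun W hW => ?_
      unfold Spans
      rw [h1]
    rw [h2]
    ring

/-- the sum of two coefficients -/
theorem cc_pair (X H : Finset V) (e f : V) (hH : H ⊆ X) (he : e ∈ X) (hf : f ∈ X)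
    (heH : e ∉ H) (hfH : f ∉ H) (hef : e ≠ f) (h : f + e ∈ span (ZMod 2) (H : Set V)) :
    (cc X H : ℝ) + cc X (insert e (insert f H)) =
      RR (X \ insert e (insert f H)) (span (ZMod 2) (H : Set V)) (span (ZMod 2) (X : Set V))
        (fun _ => 0) := by
  obtain ⟨Y, hY⟩ : ∃ Y, Y = X \ insert e (insert f H) := ⟨_, rfl⟩
  have heY : e ∉ Y := by
    rw [hY, Finset.mem_sdiff]
    exact fun h => h.2 (Finset.mem_insert_self _ _)
  have hfY : f ∉ Y := by
    rw [hY, Finset.mem_sdiff]
    exact fun h => h.2 (Finset.mem_insert_of_mem (Finset.mem_insert_self _ _))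
  have h1 : X \ H = insert e (insert f Y) := by
    ext v
    rw [hY, Finset.mem_sdiff, Finset.mem_insert, Finset.mem_insert, Finset.mem_sdiff,
      Finset.mem_insert, Finset.mem_insert]
    constructor
    · rintro ⟨h2, h3⟩
      by_cases h4 : v = e
      · exact Or.inl h4
      · by_cases h5 : v = f
        · exact Or.inr (Or.inl h5)
        · exact Or.inr (Or.inr ⟨h2, fun h6 => h6.elim h4 fun h7 => h7.elim h5 h3⟩)
    · rintro (rfl | rfl | h2)
      · exact ⟨he, heH⟩
      · exact ⟨hf, hfH⟩
      · exact ⟨h2.1, fun h3 => h2.2 (Or.inr (Or.inr h3))⟩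
  have h2 : insert e (insert f H) ⊆ X :=
    Finset.insert_subset he (Finset.insert_subset hf hH)
  have h3 : span (ZMod 2) ((insert e (insert f H) : Finset V) : Set V) =
      span (ZMod 2) (H : Set V) ⊔ span (ZMod 2) {f} := by
    have h4 : e ∈ span (ZMod 2) ((insert f H : Finset V) : Set V) := by
      have h5 : e = (f + e) + f := by rw [add_comm f e, add_assoc, aself, add_zero]
      rw [h5, Finset.coe_insert, span_insert]
      exact add_mem (mem_sup_right h) (mem_sup_left (mem_span_singleton_self f))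
    rw [Finset.coe_insert, span_insert_eq_span h4, Finset.coe_insert, span_insert, sup_comm]
  have h5 : Function.update (fun _ : V => (0 : ℝ)) f (0 * 0) = fun _ => 0 := by
    funext v
    by_cases hv : v = f
    · rw [hv, Function.update_self, mul_zero]
    · rw [Function.update_of_ne hv]
  rw [cc_RR X H hH, cc_RR X _ h2, h1, ← hY, h3,
    RR_parallel (insert f Y) _ _ _ e f (by
      rw [Finset.mem_insert, not_or]
      exact ⟨hef, heY⟩) (Finset.mem_insert_self f Y) h, h5, RR_insert Y _ _ _ f hfY]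
  ring

end

/-! ### level sums -/

/-- different integers have different exponentials -/
theorem exp_int_inj (a b : ℤ) (h : Complex.exp (a * Complex.I) = Complex.exp (b * Complex.I)) :
    a = b := by
  rw [Complex.exp_eq_exp_iff_exists_int] at h
  obtain ⟨n, hn⟩ := h
  have h2 : (a : ℂ) = b + n * (2 * Real.pi) := by
    have h3 : (a : ℂ) * Complex.I = (b + n * (2 * Real.pi)) * Complex.I := by
      rw [hn]
      ring
    exact mul_right_cancel₀ Complex.I_ne_zero h3
  have h4 : (a : ℝ) = b + n * (2 * Real.pi) := by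
    exact_mod_cast h2
  by_cases hn0 : n = 0
  · rw [hn0] at h4
    simp only [Int.cast_zero, zero_mul, add_zero] at h4
    exact_mod_cast h4
  · exfalso
    refine irrational_pi ⟨((a : ℚ) - b) / (n * 2), ?_⟩
    have hn0' : (n : ℝ) ≠ 0 := by exact_mod_cast hn0
    push_cast
    rw [h4]
    field_simp
    ring

/-- a Laurent polynomial with infinitely many zeros has vanishing level sums -/
theorem level_zero_inf {ι : Type} (P : Finset ι) (c : ι → ℤ) (e : ι → ℤ) (Z : Set ℂ)
    (hZ : Z.Infinite) (hZ0 : ∀ z ∈ Z, z ≠ 0)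
    (h : ∀ z ∈ Z, ∑ S ∈ P, (c S : ℂ) * z ^ e S = 0) (s : ℤ) :
    ∑ S ∈ P with e S = s, c S = 0 := by
  classical
  obtain ⟨M, hM⟩ : ∃ M : ℕ, M = (∑ S ∈ P, |e S| + |s|).toNat := ⟨_, rfl⟩
  have hM' : (M : ℤ) = ∑ S ∈ P, |e S| + |s| := by
    rw [hM, Int.toNat_of_nonneg]
    exact add_nonneg (Finset.sum_nonneg fun S _ => abs_nonneg _) (abs_nonneg _)
  have he : ∀ S ∈ P, 0 ≤ e S + M := by
    intro S hS
    have h1 : |e S| ≤ ∑ S ∈ P, |e S| :=
      Finset.single_le_sum (f := fun S => |e S|) (fun S _ => abs_nonneg _) hS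
    have h2 := neg_abs_le (e S)
    have h3 := abs_nonneg s
    omega
  have hs : 0 ≤ s + M := by
    have h1 : 0 ≤ ∑ S ∈ P, |e S| := Finset.sum_nonneg fun S _ => abs_nonneg _
    have h2 := neg_abs_le s
    omega
  obtain ⟨p, hp⟩ : ∃ p : Polynomial ℂ, p = ∑ S ∈ P, Polynomial.monomial (e S + M).toNat (c S : ℂ) :=
    ⟨_, rfl⟩
  have hp0 : p = 0 := by
    apply Polynomial.eq_zero_of_infinite_isRoot
    refine hZ.mono fun z hz => ?_
    have hz0 : z ≠ 0 := hZ0 z hz
    rw [Set.mem_ofPred_eq, Polynomial.IsRoot.def, hp, Polynomial.eval_finsetSum]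
    have h1 : ∀ S ∈ P, Polynomial.eval z (Polynomial.monomial (e S + M).toNat (c S : ℂ)) =
        z ^ M * ((c S : ℂ) * z ^ e S) := by
      intro S hS
      rw [Polynomial.eval_monomial]
      have h2 : z ^ (e S + M).toNat = z ^ (e S + M : ℤ) := by
        rw [← zpow_natCast, Int.toNat_of_nonneg (he S hS)]
      rw [h2, zpow_add₀ hz0, zpow_natCast]
      ring
    rw [Finset.sum_congr rfl h1, ← Finset.mul_sum, h z hz, mul_zero]
  have h1 : p.coeff (s + M).toNat = ((∑ S ∈ P with e S = s, c S : ℤ) : ℂ) := by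
    rw [hp, Polynomial.finsetSum_coeff, Int.cast_sum, Finset.sum_filter]
    refine Finset.sum_congr rfl fun S hS => ?_
    rw [Polynomial.coeff_monomial]
    have h2 : (e S + M).toNat = (s + M).toNat ↔ e S = s := by
      constructor
      · intro h3
        have h4 : (((e S + M).toNat : ℕ) : ℤ) = (((s + M).toNat : ℕ) : ℤ) := by rw [h3]
        rw [Int.toNat_of_nonneg (he S hS), Int.toNat_of_nonneg hs] at h4
        omega
      · intro h3
        rw [h3]
    by_cases h3 : e S = s
    · rw [if_pos (h2.2 h3), if_pos h3]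
    · rw [if_neg (fun h => h3 (h2.1 h)), if_neg h3]
  rw [hp0, Polynomial.coeff_zero] at h1
  exact_mod_cast h1.symm

/-- the numbers `exp ((n + 1) i)` -/
theorem infinite_exp : (Set.range fun n : ℕ =>
    Complex.exp ((((n : ℤ) + 1 : ℤ) : ℂ) * Complex.I)).Infinite := by
  apply Set.infinite_range_of_injective
  intro a b hab
  have h1 := exp_int_inj _ _ hab
  omega

section

variable {V : Type} [AddCommGroup V] [Module (ZMod 2) V] [DecidableEq V]

/-- the level sums over the subsets which do not contain the vectors of `G` vanish -/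
def LevelsZero (Y G : Finset V) (u : V → ℤ) : Prop :=
  ∀ s : ℤ, ∑ S ∈ (Y \ G).powerset with ∑ v ∈ S, u v = s, cc Y S = 0

theorem levelsZero_of_not (X : Finset V) (u : V → ℤ) (h : ¬ NZu X u) : LevelsZero X ∅ u := by
  intro s
  rw [Finset.sdiff_empty]
  exact level_cc X u h s

/-- **Partner** -/
theorem partnerG (Y G : Finset V) (u : V → ℤ) (h : LevelsZero Y G u) (F : Finset V)
    (hF : Flat Y F) (hG : Disjoint F G) :
    ∃ F', Flat Y F' ∧ Disjoint F' G ∧ su u F' = su u F ∧
      Odd (Module.finrank (ZMod 2) (span (ZMod 2) (F : Set V)) +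
        Module.finrank (ZMod 2) (span (ZMod 2) (F' : Set V))) := by
  classical
  by_contra hno
  push Not at hno
  have h1 := h (su u F)
  obtain ⟨s, hs⟩ : ∃ s : ℤ, s = (-1 : ℤ) ^ (Module.finrank (ZMod 2) (span (ZMod 2) (F : Set V)) +
      Module.finrank (ZMod 2) (span (ZMod 2) (Y : Set V))) := ⟨_, rfl⟩
  have hmem : ∀ S : Finset V, S ∈ (Y \ G).powerset ↔ S ⊆ Y ∧ Disjoint S G := by
    intro S
    rw [Finset.mem_powerset, Finset.subset_sdiff]
  have h2 : 0 < ∑ S ∈ (Y \ G).powerset with ∑ v ∈ S, u v = su u F, s * cc Y S := by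
    refine Finset.sum_pos' (fun S hS => ?_) ⟨F, ?_, ?_⟩
    · rw [Finset.mem_filter, hmem] at hS
      by_cases hfl : Flat Y S
      · have h3 := hno S hfl hS.1.2 hS.2
        rw [Nat.not_odd_iff_even] at h3
        have h4 := cc_flat Y S hfl
        have h5 : s = (-1 : ℤ) ^ (Module.finrank (ZMod 2) (span (ZMod 2) (S : Set V)) +
            Module.finrank (ZMod 2) (span (ZMod 2) (Y : Set V))) := by
          rw [hs, pow_add, pow_add]
          congr 1
          rw [Nat.even_add] at h3
          by_cases h6 : Even (Module.finrank (ZMod 2) (span (ZMod 2) (F : Set V)))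
          · rw [h6.neg_one_pow, (h3.1 h6).neg_one_pow]
          · rw [(Nat.not_even_iff_odd.1 h6).neg_one_pow,
              (Nat.not_even_iff_odd.1 fun h7 => h6 (h3.2 h7)).neg_one_pow]
        rw [h5]
        exact h4.le
      · rw [cc_nonflat Y S hS.1.1 hfl, mul_zero]
    · rw [Finset.mem_filter, hmem]
      exact ⟨⟨hF.1, hG⟩, rfl⟩
    · rw [hs]
      exact cc_flat Y F hF
  rw [← Finset.mul_sum, h1, mul_zero] at h2
  exact lt_irrefl _ h2

/-- the smallest sum -/
theorem sum_min (M F : Finset V) (u : V → ℤ) (hM : ∀ v ∈ M, u v < 0)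
    (hP : ∀ v ∈ F, v ∉ M → 0 < u v) : su u M ≤ su u F ∧ (su u F = su u M → F = M) := by
  have h1 : su u F = su u (F ∩ M) + su u (F \ M) := by
    unfold su
    exact (Finset.sum_inter_add_sum_sdiff F M u).symm
  have h2 : su u M = su u (F ∩ M) + su u (M \ F) := by
    unfold su
    rw [Finset.inter_comm]
    exact (Finset.sum_inter_add_sum_sdiff M F u).symm
  have h3 : 0 ≤ su u (F \ M) := Finset.sum_nonneg fun v hv => by
    rw [Finset.mem_sdiff] at hv
    exact (hP v hv.1 hv.2).le
  have h4 : su u (M \ F) ≤ 0 := Finset.sum_nonpos fun v hv => by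
    rw [Finset.mem_sdiff] at hv
    exact (hM v hv.1).le
  refine ⟨by omega, fun h5 => ?_⟩
  have h6 : su u (F \ M) = 0 := by omega
  have h7 : su u (M \ F) = 0 := by omega
  ext v
  constructor
  · intro hv
    by_contra hvM
    have h8 : 0 < su u (F \ M) := Finset.sum_pos (fun w hw => by
      rw [Finset.mem_sdiff] at hw
      exact hP w hw.1 hw.2) ⟨v, Finset.mem_sdiff.2 ⟨hv, hvM⟩⟩
    omega
  · intro hv
    by_contra hvF
    have h8 : 0 < ∑ w ∈ M \ F, -u w := Finset.sum_pos (fun w hw => by
      rw [Finset.mem_sdiff] at hw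
      have := hM w hw.1
      omega) ⟨v, Finset.mem_sdiff.2 ⟨hv, hvF⟩⟩
    rw [Finset.sum_neg_distrib] at h8
    unfold su at h7
    omega

/-- a vector of the span is a sum of different vectors -/
theorem rep (N : Finset V) (g : V) (h : g ∈ span (ZMod 2) (N : Set V)) :
    ∃ C ⊆ N, ∑ v ∈ C, v = g := by
  obtain ⟨f, hf, hg⟩ := Submodule.mem_span_finset.1 h
  refine ⟨N.filter fun v => f v = 1, Finset.filter_subset _ _, ?_⟩
  rw [← hg, Finset.sum_filter]
  refine Finset.sum_congr rfl fun v hv => ?_
  rcases zmod2_cases (f v) with h1 | h1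
  · rw [h1, zero_smul, if_neg (by decide)]
  · rw [h1, one_smul, if_pos rfl]

/-- the vectors of `N` are independent -/
def Indep (N : Finset V) : Prop := ∀ v ∈ N, v ∉ span (ZMod 2) ((N.erase v : Finset V) : Set V)

theorem Indep.mono {N N' : Finset V} (h : Indep N) (h' : N' ⊆ N) : Indep N' := by
  intro v hv h1
  exact h v (h' hv) (span_mono (Finset.coe_subset.2 (Finset.erase_subset_erase v h')) h1)

theorem Indep.rank {N : Finset V} (h : Indep N) (f : V) (hf : f ∈ N) :
    Module.finrank (ZMod 2) (span (ZMod 2) (N : Set V)) =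
      Module.finrank (ZMod 2) (span (ZMod 2) ((N.erase f : Finset V) : Set V)) + 1 := by
  have h1 : span (ZMod 2) (N : Set V) =
      span (ZMod 2) ((N.erase f : Finset V) : Set V) ⊔ span (ZMod 2) {f} := by
    conv_lhs => rw [← Finset.insert_erase hf, Finset.coe_insert, span_insert, sup_comm]
  rw [← finrank_sup_one _ f (h f hf), h1]

/-- an element of the sum is needed -/
theorem Indep.notMem {N C : Finset V} (h : Indep N) (hC : C ⊆ N) (f : V) (hf : f ∈ C) :
    ∑ v ∈ C, v ∉ span (ZMod 2) ((N.erase f : Finset V) : Set V) := by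
  intro h1
  apply h f (hC hf)
  have h2 : ∑ v ∈ C.erase f, v ∈ span (ZMod 2) ((N.erase f : Finset V) : Set V) :=
    sum_mem fun v hv => subset_span (Finset.coe_subset.2 (Finset.erase_subset_erase f hC) hv)
  have h3 : f = ∑ v ∈ C, v + ∑ v ∈ C.erase f, v := by
    rw [← Finset.add_sum_erase C (fun v => v) hf, add_assoc, aself, add_zero]
  have h4 := add_mem h1 h2
  rwa [← h3] at h4

/-- **Forbidden vector**: the level sums over the sets without `g` do not vanish. -/
theorem forbidden (Y : Finset V) (h0 : (0 : V) ∉ Y) (g : V) (hg : g ∈ Y) (u : V → ℤ)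
    (hu : ∀ v ∈ Y, v ≠ g → u v ≠ 0) (N : Finset V) (hN : ∀ v, v ∈ N ↔ v ∈ Y ∧ v ≠ g ∧ u v < 0)
    (hind : Indep N) (hcl : ∀ v ∈ Y, v ≠ g → v ∈ span (ZMod 2) (N : Set V) → v ∈ N) :
    ¬ LevelsZero Y {g} u := by
  classical
  intro hL
  have hneg : ∀ M ⊆ N, ∀ v ∈ M, u v < 0 := fun M hM v hv => ((hN v).1 (hM hv)).2.2
  have hNY : N ⊆ Y := fun v hv => ((hN v).1 hv).1
  have hpos : ∀ F ⊆ Y, g ∉ F → ∀ v ∈ F, v ∉ N → 0 < u v := by
    intro F hF hgF v hv hvN
    have h1 : v ≠ g := fun h => hgF (h ▸ hv)
    have h2 := hu v (hF hv) h1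
    have h3 : ¬ u v < 0 := fun h => hvN ((hN v).2 ⟨hF hv, h1, h⟩)
    omega
  by_cases hgN : g ∈ span (ZMod 2) (N : Set V)
  · obtain ⟨C, hC, hCg⟩ := rep N g hgN
    have hCne : C.Nonempty := by
      rw [Finset.nonempty_iff_ne_empty]
      rintro rfl
      rw [Finset.sum_empty] at hCg
      exact h0 (hCg ▸ hg)
    obtain ⟨h, hh, hmin⟩ := Finset.exists_min_image C (fun v => -u v) hCne
    have hflat : Flat Y (N.erase h) := by
      refine ⟨(Finset.erase_subset _ _).trans hNY, fun v hv hvs => ?_⟩
      have h1 : v ≠ g := by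
        rintro rfl
        rw [← hCg] at hvs
        exact hind.notMem hC h hh hvs
      have h2 := hcl v hv h1 (span_mono (Finset.coe_subset.2 (Finset.erase_subset _ _)) hvs)
      refine Finset.mem_erase.2 ⟨?_, h2⟩
      rintro rfl
      exact hind v h2 hvs
    have hdisj : Disjoint (N.erase h) {g} := by
      rw [Finset.disjoint_singleton_right]
      exact fun h1 => ((hN g).1 (Finset.mem_of_mem_erase h1)).2.1 rfl
    obtain ⟨F', hF', hd, hsu, hodd⟩ := partnerG Y {g} u hL _ hflat hdisj
    rw [Finset.disjoint_singleton_right] at hd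
    have h1 : ∃ f ∈ C, f ∉ F' := by
      by_contra hno
      push Not at hno
      apply hd
      apply hF'.2 g hg
      rw [← hCg]
      exact sum_mem fun v hv => subset_span (hno v hv)
    obtain ⟨f, hf, hfF⟩ := h1
    obtain ⟨h2, h3⟩ := sum_min (N.erase f) F' u (hneg _ (Finset.erase_subset _ _)) (by
      intro v hv hvM
      refine hpos F' hF'.1 hd v hv fun hvN => hvM (Finset.mem_erase.2 ⟨?_, hvN⟩)
      rintro rfl
      exact hfF hv)
    have h4 := hmin f hf
    have h5 : su u (N.erase f) = su u N - u f := by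
      unfold su
      rw [← Finset.add_sum_erase N u (hC hf)]
      ring
    have h6 : su u (N.erase h) = su u N - u h := by
      unfold su
      rw [← Finset.add_sum_erase N u (hC hh)]
      ring
    have h7 : F' = N.erase f := h3 (by omega)
    rw [h7] at hodd
    have h8 := hind.rank f (hC hf)
    have h9 := hind.rank h (hC hh)
    rw [Nat.odd_iff] at hodd
    omega
  · have hflat : Flat Y N := by
      refine ⟨hNY, fun v hv hvs => hcl v hv ?_ hvs⟩
      rintro rfl
      exact hgN hvs
    have hdisj : Disjoint N {g} := by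
      rw [Finset.disjoint_singleton_right]
      exact fun h1 => ((hN g).1 h1).2.1 rfl
    obtain ⟨F', hF', hd, hsu, hodd⟩ := partnerG Y {g} u hL _ hflat hdisj
    rw [Finset.disjoint_singleton_right] at hd
    obtain ⟨-, h3⟩ := sum_min N F' u (hneg _ (Finset.Subset.refl _)) (hpos F' hF'.1 hd)
    rw [h3 hsu, Nat.odd_iff] at hodd
    omega

end

end Pool.Agent.NHT.OB
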