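import Mathlib
import Pool.Agent.NHT.OBA

/-!
# NHT: weight vectors whose negative part is closed up to one element, part 2 (helper17)
-/

set_option autoImplicit false
set_option linter.unusedSectionVars false

open Submodule

namespace Pool.Agent.NHT.OB

open Pool.Agent.SPT Pool.Agent.SPT.Rel Pool.Agent.SPT.Odd

variable {V : Type} [AddCommGroup V] [Module (ZMod 2) V] [DecidableEq V]

/-- **(A)** the negative part is closed -/
theorem nzu_closed (X : Finset V) (u : V → ℤ) (hu : ∀ v ∈ X, u v ≠ 0)
    (h : ∀ v ∈ X, 0 < u v → v ∉ span (ZMod 2) ((X.filter fun w => u w < 0 : Finset V) : Set V)) :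
    NZu X u := by
  classical
  by_contra hno
  obtain ⟨N, hN⟩ : ∃ N, N = X.filter fun w => u w < 0 := ⟨_, rfl⟩
  rw [← hN] at h
  have hmem : ∀ v, v ∈ N ↔ v ∈ X ∧ u v < 0 := fun v => by rw [hN, Finset.mem_filter]
  have hflat : Flat X N := by
    refine ⟨fun v hv => ((hmem v).1 hv).1, fun v hv hvs => ?_⟩
    by_contra h1
    have h2 : ¬ u v < 0 := fun h3 => h1 ((hmem v).2 ⟨hv, h3⟩)
    have h3 := hu v hv
    exact h v hv (by omega) hvs
  obtain ⟨F', hF', hsu, hodd⟩ := partner X u hno N hflat
  obtain ⟨-, h3⟩ := sum_min N F' u (fun v hv => ((hmem v).1 hv).2) (by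
    intro v hv hvN
    have h2 : ¬ u v < 0 := fun h3 => hvN ((hmem v).2 ⟨hF'.1 hv, h3⟩)
    have h3 := hu v (hF'.1 hv)
    omega)
  rw [h3 hsu, Nat.odd_iff] at hodd
  omega

/-- **(B)** the negative part is independent and its closure has one further element -/
theorem nzu_bridge (X : Finset V) (h0 : (0 : V) ∉ X) (u : V → ℤ) (hu : ∀ v ∈ X, u v ≠ 0)
    (N : Finset V) (hN : ∀ v, v ∈ N ↔ v ∈ X ∧ u v < 0) (hind : Indep N) (e : V) (he : e ∈ X)
    (heu : 0 < u e) (hes : e ∈ span (ZMod 2) (N : Set V))
    (hcl : ∀ v ∈ X, v ∈ span (ZMod 2) (N : Set V) → v ∈ N ∨ v = e) : NZu X u := by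
  classical
  by_contra hno
  have heN : e ∉ N := fun h => by
    have := ((hN e).1 h).2
    omega
  have hNX : N ⊆ X := fun v hv => ((hN v).1 hv).1
  have hneg : ∀ M ⊆ N, ∀ v ∈ M, u v < 0 := fun M hM v hv => ((hN v).1 (hM hv)).2
  have hpos : ∀ F ⊆ X, ∀ v ∈ F, v ∉ N → 0 < u v := by
    intro F hF v hv hvN
    have h2 := hu v (hF hv)
    have h3 : ¬ u v < 0 := fun h => hvN ((hN v).2 ⟨hF hv, h⟩)
    omega
  obtain ⟨C, hC, hCe⟩ := rep N e hes
  have hCne : C.Nonempty := by
    rw [Finset.nonempty_iff_ne_empty]
    rintro rfl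
    rw [Finset.sum_empty] at hCe
    exact h0 (hCe ▸ he)
  obtain ⟨f, hf, hmin⟩ := Finset.exists_min_image C (fun v => -u v) hCne
  have hfN : f ∈ N := hC hf
  have hef : e ≠ f := fun h => heN (h ▸ hfN)
  have hsu1 : ∀ h ∈ N, su u (N.erase h) = su u N - u h := by
    intro h hh
    unfold su
    rw [← Finset.add_sum_erase N u hh]
    ring
  have hsu2 : su u (insert e N) = su u N + u e := by
    unfold su
    rw [Finset.sum_insert heN]
    ring
  have heE : ∀ h ∈ C, e ∉ span (ZMod 2) ((N.erase h : Finset V) : Set V) := by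
    intro h hh
    rw [← hCe]
    exact hind.notMem hC h hh
  have hflat1 : ∀ h ∈ C, Flat X (N.erase h) := by
    intro h hh
    refine ⟨(Finset.erase_subset _ _).trans hNX, fun v hv hvs => ?_⟩
    rcases hcl v hv (span_mono (Finset.coe_subset.2 (Finset.erase_subset _ _)) hvs) with h1 | h1
    · refine Finset.mem_erase.2 ⟨?_, h1⟩
      rintro rfl
      exact hind v h1 hvs
    · rw [h1] at hvs
      exact absurd hvs (heE h hh)
  have hspan : span (ZMod 2) ((insert e N : Finset V) : Set V) = span (ZMod 2) (N : Set V) := by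
    rw [Finset.coe_insert, span_insert_eq_span hes]
  have hflat2 : Flat X (insert e N) := by
    refine ⟨Finset.insert_subset he hNX, fun v hv hvs => ?_⟩
    rw [hspan] at hvs
    rcases hcl v hv hvs with h1 | h1
    · exact Finset.mem_insert_of_mem h1
    · rw [h1]
      exact Finset.mem_insert_self _ _
  -- the sums over the flats
  have hA : ∀ F, Flat X F → N ⊆ F → su u N + u e ≤ su u F ∧
      (su u F = su u N + u e → F = insert e N) := by
    intro F hF hNF
    have h1 : e ∈ F := hF.2 e he (span_mono (Finset.coe_subset.2 hNF) hes)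
    have h2 : su u F = u e + su u (F.erase e) := by
      unfold su
      rw [Finset.add_sum_erase F u h1]
    obtain ⟨h3, h4⟩ := sum_min N (F.erase e) u (hneg N (Finset.Subset.refl _)) (by
      intro v hv hvN
      exact hpos F hF.1 v (Finset.mem_of_mem_erase hv) hvN)
    refine ⟨by omega, fun h5 => ?_⟩
    rw [← h4 (by omega), Finset.insert_erase h1]
  have hB : ∀ F, Flat X F → ∀ h ∈ N, h ∉ F → su u N - u h ≤ su u F ∧
      (su u F = su u N - u h → F = N.erase h) := by
    intro F hF h hh hhF
    obtain ⟨h3, h4⟩ := sum_min (N.erase h) F u (hneg _ (Finset.erase_subset _ _)) (by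
      intro v hv hvM
      refine hpos F hF.1 v hv fun hvN => hvM (Finset.mem_erase.2 ⟨?_, hvN⟩)
      rintro rfl
      exact hhF hv)
    rw [hsu1 h hh] at h3 h4
    exact ⟨h3, h4⟩
  have hCc : ∀ F, Flat X F → C ⊆ F → ∀ h ∈ N, h ∉ F → su u N - u h + u e ≤ su u F := by
    intro F hF hCF h hh hhF
    have h1 : e ∈ F := by
      apply hF.2 e he
      rw [← hCe]
      exact sum_mem fun v hv => subset_span (hCF hv)
    have h2 : su u F = u e + su u (F.erase e) := by
      unfold su
      rw [Finset.add_sum_erase F u h1]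
    obtain ⟨h3, -⟩ := sum_min (N.erase h) (F.erase e) u (hneg _ (Finset.erase_subset _ _)) (by
      intro v hv hvM
      refine hpos F hF.1 v (Finset.mem_of_mem_erase hv) fun hvN =>
        hvM (Finset.mem_erase.2 ⟨?_, hvN⟩)
      rintro rfl
      exact hhF (Finset.mem_of_mem_erase hv))
    rw [hsu1 h hh] at h3
    omega
  have hrk1 : ∀ h ∈ N, Module.finrank (ZMod 2) (span (ZMod 2) (N : Set V)) =
      Module.finrank (ZMod 2) (span (ZMod 2) ((N.erase h : Finset V) : Set V)) + 1 :=
    fun h hh => hind.rank h hh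
  have hcases : ∀ F, Flat X F → N ⊆ F ∨ (∃ h ∈ C, h ∉ F) ∨ (C ⊆ F ∧ ∃ h ∈ N, h ∉ F) := by
    intro F _
    by_cases h1 : C ⊆ F
    · by_cases h2 : N ⊆ F
      · exact Or.inl h2
      · rw [Finset.not_subset] at h2
        exact Or.inr (Or.inr ⟨h1, h2⟩)
    · rw [Finset.not_subset] at h1
      exact Or.inr (Or.inl h1)
  have hfneg : u f < 0 := ((hN f).1 hfN).2
  rcases lt_trichotomy (u e) (-u f) with hlt | heq | hgt
  · -- the level of `insert e N`
    obtain ⟨F', hF', hsu, hodd⟩ := partner X u hno _ hflat2
    rw [hsu2] at hsu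
    rcases hcases F' hF' with h1 | ⟨h, hh, hhF⟩ | ⟨h1, h, hh, hhF⟩
    · rw [(hA F' hF' h1).2 hsu, Nat.odd_iff] at hodd
      omega
    · have h2 := (hB F' hF' h (hC hh) hhF).1
      have h3 := hmin h hh
      omega
    · have h2 := hCc F' hF' h1 h hh hhF
      have h3 := ((hN h).1 hh).2
      omega
  · -- the bad level
    obtain ⟨σ, hσ⟩ : ∃ σ : ℝ, σ = (-1 : ℝ) ^ (Module.finrank (ZMod 2)
        (span (ZMod 2) ((N.erase f : Finset V) : Set V)) +
        Module.finrank (ZMod 2) (span (ZMod 2) (X : Set V))) := ⟨_, rfl⟩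
    have hNf : insert e (insert f (N.erase f)) = insert e N := by rw [Finset.insert_erase hfN]
    have hfe : f + e ∈ span (ZMod 2) ((N.erase f : Finset V) : Set V) := by
      have h1 : f + e = ∑ v ∈ C.erase f, v := by
        rw [← hCe, ← Finset.add_sum_erase C (fun v => v) hf, ← add_assoc, aself, zero_add]
      rw [h1]
      exact sum_mem fun v hv => subset_span (Finset.coe_subset.2 (Finset.erase_subset_erase f hC) hv)
    have hpair := cc_pair X (N.erase f) e f ((Finset.erase_subset _ _).trans hNX) he (hNX hfN)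
      (fun h => heN (Finset.mem_of_mem_erase h)) (Finset.notMem_erase f N) hef hfe
    rw [hNf] at hpair
    obtain ⟨D, hD⟩ : ∃ D : ℝ, D = RR (X \ insert e N)
      (span (ZMod 2) ((N.erase f : Finset V) : Set V)) (span (ZMod 2) (X : Set V)) (fun _ => 0) :=
      ⟨_, rfl⟩
    rw [← hD] at hpair
    have hout : ∀ v ∈ X \ insert e N, v ∉ span (ZMod 2) ((N.erase f : Finset V) : Set V) := by
      intro v hv h1
      rw [Finset.mem_sdiff] at hv
      have h2 := (hflat1 f hf).2 v hv.1 h1
      exact hv.2 (Finset.mem_insert_of_mem (Finset.mem_of_mem_erase h2))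
    have hD0 : 0 ≤ σ * D := by
      rw [hσ, hD]
      exact sign_RR _ _ rfl _ _ _ inferInstance hout fun v _ => by norm_num
    -- the level sum
    have hlev := level_cc X u hno (su u N + u e)
    have hDle : σ * D ≤ 0 := by
      obtain ⟨P, hP⟩ : ∃ P, P = X.powerset.filter fun S => ∑ v ∈ S, u v = su u N + u e := ⟨_, rfl⟩
      rw [← hP] at hlev
      have hm1 : insert e N ∈ P := by
        rw [hP, Finset.mem_filter, Finset.mem_powerset]
        exact ⟨hflat2.1, hsu2⟩
      have hne : N.erase f ≠ insert e N := fun h =>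
        heN (Finset.mem_of_mem_erase (by
          rw [h]
          exact Finset.mem_insert_self _ _))
      have hm2 : N.erase f ∈ P.erase (insert e N) := by
        rw [Finset.mem_erase, hP, Finset.mem_filter, Finset.mem_powerset]
        refine ⟨hne, (hflat1 f hf).1, ?_⟩
        have h1 := hsu1 f hfN
        unfold su at h1 ⊢
        omega
      have h1 : (∑ S ∈ P, (cc X S : ℝ)) = 0 := by
        rw [← Int.cast_sum, hlev, Int.cast_zero]
      rw [← Finset.add_sum_erase P _ hm1, ← Finset.add_sum_erase _ _ hm2, ← add_assoc] at h1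
      have h2 : 0 ≤ σ * ∑ S ∈ (P.erase (insert e N)).erase (N.erase f), (cc X S : ℝ) := by
        rw [Finset.mul_sum]
        refine Finset.sum_nonneg fun S hS => ?_
        have hS1 := Finset.mem_of_mem_erase hS
        have hSne := Finset.ne_of_mem_erase hS1
        have hS2 := Finset.mem_of_mem_erase hS1
        rw [hP, Finset.mem_filter, Finset.mem_powerset] at hS2
        by_cases hfl : Flat X S
        · have hsuS : su u S = su u N + u e := hS2.2
          rcases hcases S hfl with h3 | ⟨h, hh, hhF⟩ | ⟨h3, h, hh, hhF⟩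
          · exact absurd ((hA S hfl h3).2 hsuS) hSne
          · obtain ⟨h4, h5⟩ := hB S hfl h (hC hh) hhF
            have h6 := hmin h hh
            have h7 : S = N.erase h := h5 (by omega)
            have h8 := cc_flat X S hfl
            have h9 : 0 < (-1 : ℝ) ^ (Module.finrank (ZMod 2) (span (ZMod 2) (S : Set V)) +
                Module.finrank (ZMod 2) (span (ZMod 2) (X : Set V))) * cc X S := by
              exact_mod_cast h8
            have h10 : Module.finrank (ZMod 2) (span (ZMod 2) (S : Set V)) =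
                Module.finrank (ZMod 2) (span (ZMod 2) ((N.erase f : Finset V) : Set V)) := by
              have h11 := hrk1 f hfN
              have h12 := hrk1 h (hC hh)
              rw [h7]
              omega
            rw [h10, ← hσ] at h9
            exact h9.le
          · have h4 := hCc S hfl h3 h hh hhF
            have h5 := ((hN h).1 hh).2
            omega
        · rw [cc_nonflat X S hS2.1 hfl, Int.cast_zero, mul_zero]
      have h3 : σ * (D + ∑ S ∈ (P.erase (insert e N)).erase (N.erase f), (cc X S : ℝ)) = 0 := by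
        rw [← hpair, add_comm (cc X (N.erase f) : ℝ), h1, mul_zero]
      rw [mul_add] at h3
      linarith
    have hDz : σ * D = 0 := le_antisymm hDle hD0
    -- `e` and `f` form a cut
    obtain ⟨X₀, hX₀⟩ : ∃ X₀, X₀ = (X.erase e).erase f := ⟨_, rfl⟩
    have hX : X = insert e (insert f X₀) := by
      rw [hX₀, Finset.insert_erase (Finset.mem_erase.2 ⟨hef.symm, hNX hfN⟩), Finset.insert_erase he]
    have hNX₀ : N.erase f ⊆ X₀ := by
      intro v hv
      rw [hX₀, Finset.mem_erase, Finset.mem_erase]
      refine ⟨Finset.ne_of_mem_erase hv, ?_, hNX (Finset.mem_of_mem_erase hv)⟩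
      rintro rfl
      exact heN (Finset.mem_of_mem_erase hv)
    have hgX₀ : e + f ∈ span (ZMod 2) (X₀ : Set V) := by
      rw [add_comm]
      exact span_mono (Finset.coe_subset.2 hNX₀) hfe
    have heX₀ : e ∉ span (ZMod 2) (X₀ : Set V) := by
      intro h1
      have h2 : f ∈ span (ZMod 2) (X₀ : Set V) := by
        have h3 : f = (e + f) + e := by rw [add_comm e f, add_assoc, aself, add_zero]
        have h4 := add_mem hgX₀ h1
        rwa [← h3] at h4
      have h3 : span (ZMod 2) ((N.erase f : Finset V) : Set V) ⊔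
          span (ZMod 2) ((X \ insert e N : Finset V) : Set V) = span (ZMod 2) (X : Set V) := by
        have h4 : X₀ ⊆ N.erase f ∪ (X \ insert e N) := by
          intro v hv
          rw [hX₀, Finset.mem_erase, Finset.mem_erase] at hv
          rw [Finset.mem_union, Finset.mem_erase, Finset.mem_sdiff, Finset.mem_insert]
          by_cases h5 : v ∈ N
          · exact Or.inl ⟨hv.1, h5⟩
          · exact Or.inr ⟨hv.2.2, fun h6 => h6.elim hv.2.1 h5⟩
        rw [← span_union, ← Finset.coe_union]
        refine le_antisymm (span_mono (Finset.coe_subset.2 (Finset.union_subset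
          ((Finset.erase_subset _ _).trans hNX) Finset.sdiff_subset))) ?_
        have h5 : span (ZMod 2) (X : Set V) ≤ span (ZMod 2) (X₀ : Set V) := by
          rw [hX, span_le]
          intro v hv
          rw [Finset.mem_coe, Finset.mem_insert, Finset.mem_insert] at hv
          rcases hv with rfl | rfl | hv
          · exact h1
          · exact h2
          · exact subset_span hv
        exact h5.trans (span_mono (Finset.coe_subset.2 h4))
      have h4 := pos_RR _ (X \ insert e N) rfl
        (span (ZMod 2) ((N.erase f : Finset V) : Set V)) (span (ZMod 2) (X : Set V)) inferInstance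
        hout h3
      rw [← hσ, ← hD, hDz] at h4
      exact lt_irrefl _ h4
    -- the reduction
    obtain ⟨g, hg⟩ : ∃ g, g = e + f := ⟨_, rfl⟩
    have hg0 : g ≠ 0 := by
      intro h1
      rw [hg] at h1
      apply hef
      have h2 : e = (e + f) + f := by rw [add_assoc, aself, add_zero]
      rw [h2, h1, zero_add]
    obtain ⟨Y, hY⟩ : ∃ Y, Y = insert g X₀ := ⟨_, rfl⟩
    have hX₀X : X₀ ⊆ X := by
      rw [hX₀]
      exact (Finset.erase_subset _ _).trans (Finset.erase_subset _ _)
    have hLZ : LevelsZero Y {g} u := by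
      intro s
      refine level_zero_inf _ _ _ _ infinite_exp ?_ ?_ s
      · rintro z ⟨n, rfl⟩
        exact Complex.exp_ne_zero _
      · rintro z ⟨n, rfl⟩
        obtain ⟨z, hz⟩ : ∃ z, z = Complex.exp ((((n : ℤ) + 1 : ℤ) : ℂ) * Complex.I) := ⟨_, rfl⟩
        change ∑ S ∈ (Y \ {g}).powerset, (cc Y S : ℂ) *
          Complex.exp ((((n : ℤ) + 1 : ℤ) : ℂ) * Complex.I) ^ (∑ v ∈ S, u v) = 0
        rw [← hz]
        have hz0 : z ≠ 0 := by
          rw [hz]
          exact Complex.exp_ne_zero _
        have hz1 : ‖z‖ = 1 := by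
          rw [hz, Complex.norm_exp]
          simp
        have hzu : z ^ u e ≠ 1 := by
          intro h1
          rw [hz, ← Complex.exp_int_mul] at h1
          have h2 := exp_int_inj (u e * ((n : ℤ) + 1)) 0 (by
            rw [Int.cast_zero, zero_mul, Complex.exp_zero, ← h1]
            congr 1
            push_cast
            ring)
          have h3 : 0 < u e * ((n : ℤ) + 1) := by positivity
          omega
        have hprod : z ^ u e * z ^ u f = 1 := by
          rw [← zpow_add₀ hz0, heq, neg_add_cancel, zpow_zero]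
        have hnz : z ^ u e + z ^ u f - 2 ≠ 0 := by
          intro h1
          have h2 : (z ^ u e - 1) ^ 2 = 0 := by
            linear_combination (z ^ u e) * h1 - hprod
          exact hzu (sub_eq_zero.1 (pow_eq_zero_iff (two_ne_zero)|>.1 h2))
        have h1 : PP X ⊥ (fun v => z ^ u v) = 0 := by
          unfold NZu at hno
          push Not at hno
          exact hno z hz1
        have h2 := PP_opposite X₀ (fun v => z ^ u v) e f hef heX₀ hgX₀ hprod
        rw [← hX, h1, ← hg, ← PP_zero X₀ (fun v => z ^ u v) g (hg ▸ hgX₀), ← hY] at h2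
        have h3 : PP Y ⊥ (Function.update (fun v => z ^ u v) g 0) = 0 :=
          (mul_eq_zero.1 h2.symm).resolve_left hnz
        rw [PP_cc] at h3
        rw [← h3]
        have h4 : (Y \ {g}).powerset = Y.powerset.filter fun S => g ∉ S := by
          ext S
          rw [Finset.mem_powerset, Finset.mem_filter, Finset.mem_powerset, Finset.subset_sdiff,
            Finset.disjoint_singleton_right]
        rw [h4, Finset.sum_filter]
        refine Finset.sum_congr rfl fun S hS => ?_
        by_cases h5 : g ∈ S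
        · rw [if_neg (not_not.2 h5), Finset.prod_eq_zero h5 (Function.update_self _ _ _), mul_zero]
        · rw [if_pos h5, ← prod_zpow_sum z hz0 u S]
          congr 1
          refine Finset.prod_congr rfl fun v hv => ?_
          rw [Function.update_of_ne]
          rintro rfl
          exact h5 hv
    refine forbidden Y ?_ g ?_ u ?_ ((N.erase f).erase g) ?_ ?_ ?_ hLZ
    · rw [hY, Finset.mem_insert, not_or]
      exact ⟨hg0.symm, fun h => h0 (hX₀X h)⟩
    · rw [hY]
      exact Finset.mem_insert_self _ _
    · intro v hv hvg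
      rw [hY, Finset.mem_insert] at hv
      exact hu v (hX₀X (hv.resolve_left hvg))
    · intro v
      rw [Finset.mem_erase, Finset.mem_erase, hN, hY, Finset.mem_insert, hX₀, Finset.mem_erase,
        Finset.mem_erase]
      constructor
      · rintro ⟨h1, h2, h3, h4⟩
        refine ⟨Or.inr ⟨h2, ?_, h3⟩, h1, h4⟩
        rintro rfl
        omega
      · rintro ⟨h1, h2, h3⟩
        rcases h1 with h1 | h1
        · exact absurd h1 h2
        · exact ⟨h2, h1.1, h1.2.2, h3⟩
    · exact hind.mono ((Finset.erase_subset _ _).trans (Finset.erase_subset _ _))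
    · intro v hv hvg hvs
      rw [hY, Finset.mem_insert] at hv
      have h1 := hv.resolve_left hvg
      rw [hX₀, Finset.mem_erase, Finset.mem_erase] at h1
      have h2 := hcl v h1.2.2 (span_mono (Finset.coe_subset.2
        ((Finset.erase_subset _ _).trans (Finset.erase_subset _ _))) hvs)
      have h3 := h2.resolve_right h1.2.1
      exact Finset.mem_erase.2 ⟨hvg, Finset.mem_erase.2 ⟨h1.1, h3⟩⟩
  · -- the level of `N.erase f`
    obtain ⟨F', hF', hsu, hodd⟩ := partner X u hno _ (hflat1 f hf)
    rw [hsu1 f hfN] at hsu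
    rcases hcases F' hF' with h1 | ⟨h, hh, hhF⟩ | ⟨h1, h, hh, hhF⟩
    · have h2 := (hA F' hF' h1).1
      omega
    · obtain ⟨h2, h3⟩ := hB F' hF' h (hC hh) hhF
      have h4 := hmin h hh
      have h5 := hrk1 f hfN
      have h6 := hrk1 h (hC hh)
      rw [h3 (by omega), Nat.odd_iff] at hodd
      omega
    · have h2 := hCc F' hF' h1 h hh hhF
      have h3 := ((hN h).1 hh).2
      omega

/-- **Theorem OB**: all vectors but at most one are not in the span of the other vectors with negative
weights. -/
theorem nzu_one (X : Finset V) (h0 : (0 : V) ∉ X) (u : V → ℤ) (hu : ∀ v ∈ X, u v ≠ 0)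
    (N : Finset V) (hN : ∀ v, v ∈ N ↔ v ∈ X ∧ u v < 0) (e : V)
    (h : ∀ v ∈ X, v ≠ e → v ∉ span (ZMod 2) ((N.erase v : Finset V) : Set V)) : NZu X u := by
  classical
  have hNf : N = X.filter fun w => u w < 0 := by
    ext v
    rw [hN, Finset.mem_filter]
  have h1 : ∀ v, v ∉ N → N.erase v = N := fun v hv => Finset.erase_eq_of_notMem hv
  by_cases hb : e ∈ X ∧ 0 < u e ∧ e ∈ span (ZMod 2) (N : Set V)
  · obtain ⟨he, heu, hes⟩ := hb
    refine nzu_bridge X h0 u hu N hN (fun v hv => h v ((hN v).1 hv).1 ?_) e he heu hes ?_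
    · rintro rfl
      have := ((hN v).1 hv).2
      omega
    · intro v hv hvs
      by_contra h2
      rw [not_or] at h2
      have h3 := h v hv h2.2
      rw [h1 v h2.1] at h3
      exact h3 hvs
  · refine nzu_closed X u hu fun v hv hvu hvs => ?_
    rw [← hNf] at hvs
    have hvN : v ∉ N := fun h2 => by
      have := ((hN v).1 h2).2
      omega
    by_cases hve : v = e
    · exact hb ⟨hve ▸ hv, hve ▸ hvu, hve ▸ hvs⟩
    · have h3 := h v hv hve
      rw [h1 v hvN] at h3
      exact h3 hvs

/-- vectors with the weight zero do not matter if the others span -/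
theorem nzu_res (X : Finset V) (u : V → ℤ)
    (hs : ∀ v ∈ X, v ∈ span (ZMod 2) ((X.filter fun w => u w ≠ 0 : Finset V) : Set V))
    (h : NZu (X.filter fun w => u w ≠ 0) u) : NZu X u := by
  classical
  obtain ⟨z, hz, hP⟩ := h
  refine ⟨z, hz, ?_⟩
  rw [PP_sub X (X.filter fun w => u w ≠ 0) (Finset.filter_subset _ _)]
  · exact hP
  · refine le_antisymm (span_mono (Finset.coe_subset.2 (Finset.filter_subset _ _))) ?_
    rw [span_le]
    exact fun v hv => hs v hv
  · intro v hv hvY
    have h1 : u v = 0 := by
      by_contra h2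
      exact hvY (Finset.mem_filter.2 ⟨hv, h2⟩)
    simp only [h1, zpow_zero]

/-- the opposite weights -/
theorem nzu_neg (X : Finset V) (u : V → ℤ) (h : NZu X fun v => -u v) : NZu X u := by
  obtain ⟨z, hz, hP⟩ := h
  refine ⟨z⁻¹, by rw [norm_inv, hz, inv_one], ?_⟩
  have h1 : (fun v => z⁻¹ ^ u v) = fun v => z ^ (-u v) := by
    funext v
    rw [inv_zpow', ]
  rw [h1]
  exact hP

/-- **Theorem OB, with weights zero**: the vectors of `X` which are not in `N` have positive weights, the
vectors with a weight different from zero span, and all vectors but at most one are not in the span of the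
other vectors of `N`. -/
theorem nzu_main (X : Finset V) (h0 : (0 : V) ∉ X) (u : V → ℤ)
    (hs : ∀ v ∈ X, v ∈ span (ZMod 2) ((X.filter fun w => u w ≠ 0 : Finset V) : Set V))
    (N : Finset V) (hN : ∀ v ∈ X, v ∉ N → 0 < u v) (e : V)
    (h : ∀ v ∈ X, v ≠ e → v ∉ span (ZMod 2) ((N.erase v : Finset V) : Set V)) : NZu X u := by
  classical
  refine nzu_res X u hs ?_
  obtain ⟨Y, hY⟩ : ∃ Y, Y = X.filter fun w => u w ≠ 0 := ⟨_, rfl⟩
  rw [← hY]
  have hYX : Y ⊆ X := by
    rw [hY]
    exact Finset.filter_subset _ _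
  refine nzu_one Y (fun h1 => h0 (hYX h1)) u (fun v hv => ?_) (Y.filter fun w => u w < 0)
    (fun v => Finset.mem_filter) e fun v hv hve h1 => ?_
  · rw [hY] at hv
    exact (Finset.mem_filter.1 hv).2
  · refine h v (hYX hv) hve (span_mono (Finset.coe_subset.2 ?_) h1)
    refine Finset.erase_subset_erase v fun w hw => ?_
    rw [Finset.mem_filter] at hw
    by_contra h2
    have h3 := hN w (hYX hw.1) h2
    omega

end Pool.Agent.NHT.OB
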