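import Pool.Agent.NHT.OBB
import Pool.Agent.NHT.BlockF
import Pool.Agent.NHT.ULong
import Pool.Agent.NHT.Class3
import Pool.Agent.NHT.Psi

/-!
# NHT: blocks in which all classes but one lie in a cycle of long classes of one sign (helper17)
-/

set_option autoImplicit false
set_option linter.unusedSectionVars false

open Submodule

namespace Pool.Agent.NHT

open Pool.Agent.SPT Pool.Agent.SPT.Rel Pool.Agent.SPT.Lin Pool.Agent.SRH Pool.Agent.TRA
open Pool.Agent.TRP

variable {ι V : Type} [DecidableEq ι] [DecidableEq V] [AddCommGroup V] [Module (ZMod 2) V]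

/-- the classes with one label form a block -/
theorem Block.part {J : Finset ι} {Cyc : Finset ι → Prop} {r : ι → V} (hB : Block J Cyc r)
    {p : ι → ℕ} (hp : Splits J Cyc p) (q : ℕ) : Block (J.filter fun i => p i = q) Cyc r := by
  classical
  obtain ⟨X, hX⟩ : ∃ X, X = J.image r := ⟨_, rfl⟩
  have hinj := hB.inj
  have hco : ∀ C ⊆ J, ¬ Cyc C ↔ Co X (C.image r) := by
    intro C hC
    rw [hX]
    exact hB.co C hC
  have hpre : ∀ C ⊆ X, (J.filter fun i => r i ∈ C).image r = C := by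
    intro C hCX
    ext v
    rw [Finset.mem_image]
    constructor
    · rintro ⟨i, hiT, rfl⟩
      exact (Finset.mem_filter.1 hiT).2
    · intro hv
      have h2 := hCX hv
      rw [hX, Finset.mem_image] at h2
      obtain ⟨i, hiS, rfl⟩ := h2
      exact ⟨i, Finset.mem_filter.2 ⟨hiS, hv⟩, rfl⟩
  obtain ⟨P, hP⟩ : ∃ P : V → ℕ, ∀ i ∈ J, P (r i) = p i := by
    refine ⟨fun v => if h : ∃ i ∈ J, r i = v then p h.choose else 0, fun i hiS => ?_⟩
    have h : ∃ j ∈ J, r j = r i := ⟨i, hiS, rfl⟩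
    show (if h : ∃ j ∈ J, r j = r i then p h.choose else 0) = p i
    rw [dif_pos h]
    exact congrArg p (hinj h.choose_spec.1 hiS h.choose_spec.2)
  have hfil : ∀ C ⊆ J, ∀ q, (C.image r).filter (fun v => P v = q) =
      (C.filter fun i => p i = q).image r := by
    intro C hC q
    ext v
    rw [Finset.mem_filter, Finset.mem_image, Finset.mem_image]
    constructor
    · rintro ⟨⟨i, hiJ, rfl⟩, h⟩
      rw [hP i (hC hiJ)] at h
      exact ⟨i, Finset.mem_filter.2 ⟨hiJ, h⟩, rfl⟩
    · rintro ⟨i, hiJ, rfl⟩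
      rw [Finset.mem_filter] at hiJ
      refine ⟨⟨i, hiJ.1, rfl⟩, ?_⟩
      rw [hP i (hC hiJ.1)]
      exact hiJ.2
  have hsp : ∀ C ⊆ X, (∀ q, Co X (C.filter fun v => P v = q)) → Co X C := by
    intro C hC hq
    obtain ⟨T, hT⟩ : ∃ T : Finset ι, T = J.filter fun i => r i ∈ C := ⟨_, rfl⟩
    have hTS : T ⊆ J := by
      rw [hT]
      exact Finset.filter_subset _ _
    have hTJ : T.image r = C := by
      rw [hT]
      exact hpre C hC
    rw [← hTJ, ← hco T hTS]
    intro hc
    obtain ⟨q, hq1⟩ := hp T hTS hc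
    have h1 := hq q
    rw [← hTJ, hfil T hTS q, ← hco _ ((Finset.filter_subset _ _).trans hTS)] at h1
    exact h1 hq1
  obtain ⟨Q, hQ⟩ : ∃ Q : Finset ι, Q = J.filter fun i => p i = q := ⟨_, rfl⟩
  have hQS : Q ⊆ J := by
    rw [hQ]
    exact Finset.filter_subset _ _
  have hXq : X.filter (fun v => P v = q) = Q.image r := by
    rw [hX, hQ]
    exact hfil J (Finset.Subset.refl J) q
  have hPX : Q.image r ⊆ X := by
    rw [← hXq]
    exact Finset.filter_subset _ _
  have hdq := parts_disjoint X P hsp q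
  rw [hXq] at hdq
  rw [← hQ]
  refine ⟨hinj.mono (Finset.coe_subset.2 hQS), fun i hiQ => hB.ne i (hQS hiQ),
    fun C hC => ?_⟩
  rw [hco C (hC.trans hQS)]
  constructor
  · intro h
    refine le_antisymm (span_mono (Finset.coe_subset.2 Finset.sdiff_subset)) ?_
    exact span_part hPX h hdq
  · intro h
    refine le_antisymm (span_mono (Finset.coe_subset.2 Finset.sdiff_subset))
      (span_le.2 fun v hv => ?_)
    by_cases hvQ : v ∈ Q.image r
    · have h1 : v ∈ span (ZMod 2) ((Q.image r : Finset _) : Set V) :=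
        subset_span (Finset.mem_coe.2 hvQ)
      unfold Co at h
      rw [← h] at h1
      exact span_mono (Finset.coe_subset.2 (Finset.sdiff_subset_sdiff hPX
        (Finset.Subset.refl _))) h1
    · refine subset_span (Finset.mem_coe.2 (Finset.mem_sdiff.2 ⟨hv, fun h2 => hvQ ?_⟩))
      exact Finset.image_subset_image hC h2

/-- **from the polynomial to the sum over the cycle sets** -/
theorem psiU_of_nzu {Q : Finset ι} {Cyc : Finset ι → Prop} {r : ι → V} (hB : Block Q Cyc r)
    (u : ι → ℤ) (u' : V → ℤ) (hu : ∀ i ∈ Q, u' (r i) = u i) (h : NZu (Q.image r) u') :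
    PsiU Q Cyc u := by
  classical
  obtain ⟨z, hz, hP⟩ := h
  have hz0 : z ≠ 0 := by
    intro h0
    rw [h0, norm_zero] at hz
    exact zero_ne_one hz
  refine ⟨fun L => z ^ (-∑ i ∈ L, u i), fun L L' hLL => ?_, ?_⟩
  · show z ^ (-∑ i ∈ L, u i) = z ^ (-∑ i ∈ L', u i)
    rw [hLL.2.2.2.2]
  · rw [cycleSum_eq hB]
    have h1 : ∀ S ∈ (Q.image r).powerset, (cc (Q.image r) S : ℂ) * z ^ (-∑ i ∈ outC Q r S, u i) =
        z ^ (-∑ i ∈ Q, u i) * ((cc (Q.image r) S : ℂ) * ∏ v ∈ S, z ^ u' v) := by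
      intro S hS
      rw [Finset.mem_powerset] at hS
      have h2 := sum_outC hB hS u'
      have h3 : ∑ i ∈ outC Q r S, u' (r i) = ∑ i ∈ outC Q r S, u i :=
        Finset.sum_congr rfl fun i hi => hu i (outC_sub Q r S hi)
      have h4 : ∑ i ∈ Q, u' (r i) = ∑ i ∈ Q, u i := Finset.sum_congr rfl fun i hi => hu i hi
      rw [h3, h4] at h2
      have h5 : ∏ v ∈ S, z ^ u' v = z ^ ∑ v ∈ S, u' v := prod_zpow_u z hz0 u' S
      rw [h5, mul_left_comm, ← zpow_add₀ hz0]
      congr 2
      omega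
    show ∑ S ∈ (Q.image r).powerset, (cc (Q.image r) S : ℂ) * z ^ (-∑ i ∈ outC Q r S, u i) ≠ 0
    rw [Finset.sum_congr rfl h1, ← Finset.mul_sum, ← PP_cc]
    exact mul_ne_zero (zpow_ne_zero _ hz0) hP

/-- a class in a cycle: its row is not in the span of the rows of the classes outside -/
theorem Block.notMem_of_inCycle {Q : Finset ι} {Cyc : Finset ι → Prop} {r : ι → V}
    (hB : Block Q Cyc r) {P : Finset ι} (hP : P ⊆ Q) {i : ι} (hi : InCycle Cyc (insert i P) i)
    (hiQ : i ∈ Q) {N : Finset V} (hN : N ⊆ (Q \ P).image r) :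
    r i ∉ span (ZMod 2) ((N.erase (r i) : Finset V) : Set V) := by
  classical
  obtain ⟨C, hC, hiC, hc1, hc2⟩ := hi
  have hCQ : C ⊆ Q := hC.trans (Finset.insert_subset hiQ hP)
  have hsub : N.erase (r i) ⊆ Q.image r \ C.image r := by
    intro v hv
    rw [Finset.mem_erase] at hv
    obtain ⟨j, hj, rfl⟩ := Finset.mem_image.1 (hN hv.2)
    rw [Finset.mem_sdiff] at hj
    rw [Finset.mem_sdiff]
    refine ⟨Finset.mem_image_of_mem r hj.1, fun h1 => ?_⟩
    obtain ⟨k, hk, hkj⟩ := Finset.mem_image.1 h1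
    have h2 := hB.inj (hCQ hk) hj.1 hkj
    rw [h2] at hk
    rcases Finset.mem_insert.1 (hC hk) with h3 | h3
    · exact hv.1 (by rw [h3])
    · exact hj.2 h3
  intro h1
  have h2 : r i ∈ span (ZMod 2) ((Q.image r \ C.image r : Finset V) : Set V) :=
    span_mono (Finset.coe_subset.2 hsub) h1
  have h3 := (hB.co (C.erase i) ((Finset.erase_subset _ _).trans hCQ)).1 hc2
  apply (hB.co C hCQ).2 ?_ hc1
  unfold Co at h3 ⊢
  rw [← h3]
  refine le_antisymm (span_mono (Finset.coe_subset.2 (Finset.sdiff_subset_sdiff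
    (Finset.Subset.refl _) (Finset.image_subset_image (Finset.erase_subset i C)))))
    (span_le.2 fun v hv => ?_)
  rw [Finset.mem_coe, Finset.mem_sdiff] at hv
  by_cases h4 : v = r i
  · rw [h4]
    exact h2
  · refine subset_span (Finset.mem_coe.2 (Finset.mem_sdiff.2 ⟨hv.1, fun h5 => hv.2 ?_⟩))
    obtain ⟨j, hj, rfl⟩ := Finset.mem_image.1 h5
    refine Finset.mem_image_of_mem r (Finset.mem_erase.2 ⟨?_, hj⟩)
    rintro rfl
    exact h4 rfl

/-- **All classes but one** of the block lie in a cycle whose other classes are in `P`, the integers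
`u i` are positive for `i` in `P`, and the classes with `u i = 0` contain no cycle. -/
theorem psiU_pos {Q : Finset ι} {Cyc : Finset ι → Prop} {r : ι → V} (hB : Block Q Cyc r)
    (u : ι → ℤ) (h0 : ¬ Cyc (Q.filter fun i => u i = 0)) {P : Finset ι} (hP : P ⊆ Q)
    (hpos : ∀ i ∈ P, 0 < u i)
    (h : ∃ e, ∀ i ∈ Q, i ≠ e → InCycle Cyc (insert i P) i) : PsiU Q Cyc u := by
  classical
  obtain ⟨u', hu'⟩ : ∃ u' : V → ℤ, ∀ i ∈ Q, u' (r i) = u i := by
    refine ⟨fun v => if h : ∃ i ∈ Q, r i = v then u h.choose else 0, fun i hi => ?_⟩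
    have h : ∃ j ∈ Q, r j = r i := ⟨i, hi, rfl⟩
    show (if h : ∃ j ∈ Q, r j = r i then u h.choose else 0) = u i
    rw [dif_pos h]
    exact congrArg u (hB.inj h.choose_spec.1 hi h.choose_spec.2)
  refine psiU_of_nzu hB u u' hu' ?_
  obtain ⟨N, hN⟩ : ∃ N : Finset V, N = (Q \ P).image r := ⟨_, rfl⟩
  have hz : (0 : V) ∉ Q.image r := by
    intro h1
    obtain ⟨i, hi, h2⟩ := Finset.mem_image.1 h1
    exact hB.ne i hi h2
  obtain ⟨e, he⟩ := h
  refine OB.nzu_main (Q.image r) hz u' ?_ N ?_ (r e) fun v hv hne => ?_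
  · intro v hv
    have h1 := (hB.co (Q.filter fun i => u i = 0) (Finset.filter_subset _ _)).1 h0
    unfold Co at h1
    have h2 : v ∈ span (ZMod 2) ((Q.image r : Finset V) : Set V) :=
      subset_span (Finset.mem_coe.2 hv)
    rw [← h1] at h2
    refine span_mono (Finset.coe_subset.2 fun w hw => ?_) h2
    rw [Finset.mem_sdiff] at hw
    obtain ⟨j, hj, rfl⟩ := Finset.mem_image.1 hw.1
    refine Finset.mem_filter.2 ⟨hw.1, fun h3 => hw.2 ?_⟩
    rw [hu' j hj] at h3
    exact Finset.mem_image_of_mem r (Finset.mem_filter.2 ⟨hj, h3⟩)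
  · intro v hv hvN
    obtain ⟨j, hj, rfl⟩ := Finset.mem_image.1 hv
    rw [hu' j hj]
    apply hpos
    by_contra h1
    apply hvN
    rw [hN]
    exact Finset.mem_image_of_mem r (Finset.mem_sdiff.2 ⟨hj, h1⟩)
  · obtain ⟨j, hj, rfl⟩ := Finset.mem_image.1 hv
    have hje : j ≠ e := fun h1 => hne (by rw [h1])
    exact hB.notMem_of_inCycle hP (he j hj hje) hj (by rw [hN])

/-- the opposite integers -/
theorem PsiU.neg {Q : Finset ι} {Cyc : Finset ι → Prop} {u : ι → ℤ}
    (h : PsiU Q Cyc fun i => -u i) : PsiU Q Cyc u := by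
  obtain ⟨ψ, h1, h2⟩ := h
  refine ⟨ψ, fun L L' hLL => h1 L L' ⟨hLL.1, hLL.2.1, hLL.2.2.1, hLL.2.2.2.1, ?_⟩, h2⟩
  rw [Finset.sum_neg_distrib, Finset.sum_neg_distrib, hLL.2.2.2.2]

/-- All classes in `X` but at most one lie in a cycle of classes in `X` whose other classes `j` have
`t ≤ a j`. -/
def OneBridge (X : Finset ι) (Cyc : Finset ι → Prop) (a : ι → ℤ) (t : ℤ) : Prop :=
  ∃ e, ∀ i ∈ X, i ≠ e → ∃ C ⊆ X, i ∈ C ∧ Cyc C ∧ ¬ Cyc (C.erase i) ∧ ∀ j ∈ C, j ≠ i → t ≤ a j

/-- the positive part -/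
theorem OneBridge.inCycle {X : Finset ι} {Cyc : Finset ι → Prop} {a : ι → ℤ} {t : ℤ}
    (h : OneBridge X Cyc a t) :
    ∃ e, ∀ i ∈ X, i ≠ e → InCycle Cyc (insert i (X.filter fun j => t ≤ a j)) i := by
  obtain ⟨e, he⟩ := h
  refine ⟨e, fun i hi hie => ?_⟩
  obtain ⟨C, hC, hiC, h1, h2, h3⟩ := he i hi hie
  refine ⟨C, fun j hj => ?_, hiC, h1, h2⟩
  rw [Finset.mem_insert]
  by_cases hji : j = i
  · exact Or.inl hji
  · exact Or.inr (Finset.mem_filter.2 ⟨hC hj, h3 j hj hji⟩)

/-- **One bridge** -/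
theorem OneBridge.psiU {Q : Finset ι} {Cyc : Finset ι → Prop} {r : ι → V} (hB : Block Q Cyc r)
    {u : ι → ℤ} (h0 : ¬ Cyc (Q.filter fun i => u i = 0)) (h : OneBridge Q Cyc u 1) :
    PsiU Q Cyc u := by
  refine psiU_pos hB u h0 (P := Q.filter fun j => (1 : ℤ) ≤ u j) (Finset.filter_subset _ _)
    (fun i hi => ?_) h.inCycle
  have h1 := (Finset.mem_filter.1 hi).2
  omega

/-- **Integers which respect the close cycle sets and have the signs of the long twist numbers** -/
theorem exists_respects_sign (S J : Finset ι) (CycS : Finset ι → Prop) (a : ι → ℤ)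
    (N T : ℕ) (hN : 1 ≤ N)
    (hT : T = (J.card + 1).factorial * (N + ∑ j ∈ S \ J, (a j).natAbs)) :
    ∃ u : ι → ℤ, Respects S J CycS a N u ∧ ∀ i ∈ J, (T : ℤ) ≤ |a i| → 0 < a i * u i := by
  classical
  obtain ⟨s, hs⟩ : ∃ s : ℕ, s = ∑ j ∈ S \ J, (a j).natAbs := ⟨_, rfl⟩
  rw [← hs] at hT
  obtain ⟨u, hu, hF, hsg, -⟩ := exists_follows_near J a (N + s) T (by omega) (by
    rw [hT]
    exact folK_le _ _ _ le_rfl (by omega))
  refine ⟨u, ?_, hsg⟩
  intro L L' hLL
  obtain ⟨hL, hL', -, -, hd⟩ := hLL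
  have hJL : L ∩ J ⊆ J := Finset.inter_subset_right
  have hJL' : L' ∩ J ⊆ J := Finset.inter_subset_right
  have h1 := hu (di (L ∩ J) (L' ∩ J)) ⟨fun v => ?_, fun v hv => ?_, ?_⟩
  · have h2 := sum_di J (L ∩ J) (L' ∩ J) hJL hJL' u
    simp only [Int.cast_id] at h2
    rw [h2] at h1
    omega
  · unfold di
    by_cases h1 : v ∈ L ∩ J <;> by_cases h2 : v ∈ L' ∩ J <;> simp [h1, h2]
  · unfold di
    rw [if_neg fun h => hv (hJL h), if_neg fun h => hv (hJL' h), sub_self]
  · have h2 := sum_di J (L ∩ J) (L' ∩ J) hJL hJL' a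
    simp only [Int.cast_id] at h2
    have h3 : ∑ v ∈ J, di (L ∩ J) (L' ∩ J) v * a v =
        ∑ i ∈ L ∩ J, a i - ∑ i ∈ L' ∩ J, a i := by
      rw [← h2]
      exact Finset.sum_congr rfl fun v _ => mul_comm _ _
    rw [h3]
    have h4 : ∀ P ⊆ S, ∑ i ∈ P, a i = ∑ i ∈ P ∩ J, a i + ∑ i ∈ P \ J, a i := by
      intro P _
      exact (Finset.sum_inter_add_sum_sdiff P J a).symm
    have h5 : |∑ i ∈ L \ J, a i - ∑ i ∈ L' \ J, a i| ≤ (s : ℤ) := by
      have h6 : ∑ i ∈ L \ J, a i - ∑ i ∈ L' \ J, a i =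
          ∑ i ∈ S \ J, ((if i ∈ L then a i else 0) - if i ∈ L' then a i else 0) := by
        rw [Finset.sum_sub_distrib, ← Finset.sum_filter, ← Finset.sum_filter]
        congr 1
        · refine Finset.sum_congr ?_ fun _ _ => rfl
          ext i
          simp only [Finset.mem_sdiff, Finset.mem_filter]
          exact ⟨fun h => ⟨⟨hL h.1, h.2⟩, h.1⟩, fun h => ⟨h.2, h.1.2⟩⟩
        · refine Finset.sum_congr ?_ fun _ _ => rfl
          ext i
          simp only [Finset.mem_sdiff, Finset.mem_filter]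
          exact ⟨fun h => ⟨⟨hL' h.1, h.2⟩, h.1⟩, fun h => ⟨h.2, h.1.2⟩⟩
      rw [h6, hs]
      push_cast
      refine (Finset.abs_sum_le_sum_abs _ _).trans (Finset.sum_le_sum fun i _ => ?_)
      by_cases h7 : i ∈ L <;> by_cases h8 : i ∈ L' <;> simp [h7, h8]
    rw [h4 L hL, h4 L' hL'] at hd
    push_cast
    rw [abs_lt] at hd ⊢
    rw [abs_le] at h5
    constructor <;> omega

/-- **The blocks, with one more alternative** -/
theorem ob_ucriterion {S J : Finset ι} {Cyc : Finset ι → Prop} {r : ι → V}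
    (hB : Block J Cyc r) {a : ι → ℤ} {N T : ℕ} (hN : 1 ≤ N) (CycS : Finset ι → Prop)
    (hT : T = (J.card + 1).factorial * (N + ∑ j ∈ S \ J, (a j).natAbs))
    (hshort : ¬ Cyc (J.filter fun i => |a i| < (T : ℤ)))
    (h : ∃ p : ι → ℕ, Splits J Cyc p ∧ ∀ q, SmallPart J Cyc r p 9 5 3 q ∨
      OneBridge (J.filter fun i => p i = q) Cyc a T ∨
      OneBridge (J.filter fun i => p i = q) Cyc (fun i => -a i) T) :
    UCriterion S J CycS Cyc r a N := by
  classical
  have hmono : ∀ P P', P ⊆ P' → P' ⊆ J → Cyc P → Cyc P' := by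
    intro P P' hPP hP hc
    by_contra hno
    exact OCY.cyc_mono hB hPP hP hno hc
  obtain ⟨u, hu, hsg⟩ := exists_respects_sign S J CycS a N T hN hT
  obtain ⟨p, hp, hq⟩ := h
  refine ⟨u, hu, p, hp, fun q => ?_⟩
  have hT1 : (1 : ℤ) ≤ T := by
    rw [hT]
    have h1 : 0 < (J.card + 1).factorial * (N + ∑ j ∈ S \ J, (a j).natAbs) :=
      Nat.mul_pos (Nat.factorial_pos _) (by omega)
    exact_mod_cast h1
  have hz : ¬ Cyc ((J.filter fun i => p i = q).filter fun i => u i = 0) := by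
    intro h1
    refine hshort (hmono _ _ (fun i hi => ?_) (Finset.filter_subset _ _) h1)
    rw [Finset.mem_filter, Finset.mem_filter] at hi
    refine Finset.mem_filter.2 ⟨hi.1.1, ?_⟩
    by_contra h2
    have h3 := hsg i hi.1.1 (not_lt.1 h2)
    rw [hi.2, mul_zero] at h3
    exact lt_irrefl _ h3
  have hQ := hB.part hp q
  rcases hq q with h1 | h1 | h1
  · exact Or.inl ⟨hz, Or.inl h1⟩
  · refine Or.inr (Or.inr (Or.inr ?_))
    refine OneBridge.psiU hQ hz ?_
    obtain ⟨e, he⟩ := h1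
    refine ⟨e, fun i hi hie => ?_⟩
    obtain ⟨C, hC, hiC, h2, h3, h4⟩ := he i hi hie
    refine ⟨C, hC, hiC, h2, h3, fun j hj hji => ?_⟩
    have h5 := h4 j hj hji
    have h6 := hsg j (Finset.mem_filter.1 (hC hj)).1 (h5.trans (le_abs_self _))
    have h7 := (pos_iff_pos_of_mul_pos h6).1 (by omega)
    omega
  · refine Or.inr (Or.inr (Or.inr (PsiU.neg ?_)))
    refine OneBridge.psiU hQ ?_ ?_
    · intro h2
      apply hz
      have h3 : ((J.filter fun i => p i = q).filter fun i => -u i = 0) =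
          (J.filter fun i => p i = q).filter fun i => u i = 0 :=
        Finset.filter_congr fun i _ => neg_eq_zero
      rw [h3] at h2
      exact h2
    · obtain ⟨e, he⟩ := h1
      refine ⟨e, fun i hi hie => ?_⟩
      obtain ⟨C, hC, hiC, h2, h3, h4⟩ := he i hi hie
      refine ⟨C, hC, hiC, h2, h3, fun j hj hji => ?_⟩
      have h5 : (T : ℤ) ≤ -a j := h4 j hj hji
      have h6 := hsg j (Finset.mem_filter.1 (hC hj)).1 (h5.trans (neg_le_abs _))
      have h7 : a j < 0 := by omega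
      have h8 : u j < 0 := by
        by_contra h9
        have h10 := mul_nonpos_of_nonpos_of_nonneg h7.le (not_lt.1 h9)
        omega
      show 1 ≤ -u j
      omega

/-- a block in which at most two classes have `a j < t` -/
theorem OneBridge.of_two {Q : Finset ι} {Cyc : Finset ι → Prop} {r : ι → V} (hB : Block Q Cyc r)
    (hne : Q.Nonempty) {a : ι → ℤ} {t : ℤ} (h : (Q.filter fun i => a i < t).card ≤ 2) :
    OneBridge Q Cyc a t := by
  classical
  obtain ⟨N, hN⟩ : ∃ N : Finset ι, N = Q.filter fun i => a i < t := ⟨_, rfl⟩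
  rw [← hN] at h
  have hNQ : N ⊆ Q := by
    rw [hN]
    exact Finset.filter_subset _ _
  -- a class whose row is not in the span of the other rows of `N` is good
  have hgood : ∀ i ∈ Q, r i ∉ span (ZMod 2) (((N.erase i).image r : Finset V) : Set V) →
      ∃ C ⊆ Q, i ∈ C ∧ Cyc C ∧ ¬ Cyc (C.erase i) ∧ ∀ j ∈ C, j ≠ i → t ≤ a j := by
    intro i hi h1
    obtain ⟨C, hC, hiC, h2, h3⟩ := hB.inCycleP ((Finset.erase_subset i N).trans hNQ) hi h1
    refine ⟨C, hC.trans Finset.sdiff_subset, hiC, h2, h3, fun j hj hji => ?_⟩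
    have h4 := Finset.mem_sdiff.1 (hC hj)
    by_contra h5
    refine h4.2 (Finset.mem_erase.2 ⟨hji, ?_⟩)
    rw [hN]
    exact Finset.mem_filter.2 ⟨h4.1, not_le.1 h5⟩
  -- small sets
  have hone : ∀ i ∈ Q, ∀ f ∈ Q, f ≠ i → ∀ M : Finset ι, M ⊆ {f} →
      r i ∉ span (ZMod 2) ((M.image r : Finset V) : Set V) := by
    intro i hi f hf hfi M hM h1
    have h2 : r i ∈ span (ZMod 2) {r f} := by
      refine span_mono ?_ h1
      intro v hv
      obtain ⟨j, hj, rfl⟩ := Finset.mem_image.1 (Finset.mem_coe.1 hv)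
      rw [Finset.mem_singleton.1 (hM hj)]
      exact Set.mem_singleton _
    obtain ⟨c, hc⟩ := mem_span_singleton.1 h2
    rcases zm2 c with rfl | rfl
    · rw [zero_smul] at hc
      exact hB.ne i hi hc.symm
    · rw [one_smul] at hc
      exact hfi (hB.inj hf hi hc)
  by_cases hb : ∃ e ∈ Q, r e ∈ span (ZMod 2) (((N.erase e).image r : Finset V) : Set V)
  · obtain ⟨e, he, hes⟩ := hb
    refine ⟨e, fun i hi hie => hgood i hi fun his => ?_⟩
    -- two different bad classes
    have hcard : ∀ k ∈ Q, r k ∈ span (ZMod 2) (((N.erase k).image r : Finset V) : Set V) →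
        k ∉ N ∧ ∃ f g, f ≠ g ∧ N = {f, g} ∧ r k = r f + r g := by
      intro k hk hks
      have hnι : Nonempty ι := ⟨k⟩
      by_cases hkN : k ∈ N
      · exfalso
        have h1 : (N.erase k).card ≤ 1 := by
          rw [Finset.card_erase_of_mem hkN]
          omega
        obtain ⟨f, hf⟩ := Finset.card_le_one_iff_subset_singleton.1 h1
        by_cases hNk : N.erase k = ∅
        · rw [hNk, Finset.image_empty, Finset.coe_empty, span_empty, Submodule.mem_bot] at hks
          exact hB.ne k hk hks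
        · obtain ⟨f', hf'⟩ := Finset.nonempty_iff_ne_empty.2 hNk
          have h2 := Finset.mem_singleton.1 (hf hf')
          rw [Finset.mem_erase] at hf'
          rw [← h2] at hf
          exact hone k hk f' (hNQ hf'.2) hf'.1 _ hf hks
      · refine ⟨hkN, ?_⟩
        rw [Finset.erase_eq_of_notMem hkN] at hks
        have h1 : N.card = 2 := by
          by_contra h2
          have h3 : N.card ≤ 1 := by omega
          obtain ⟨f, hf⟩ := Finset.card_le_one_iff_subset_singleton.1 h3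
          by_cases hNk : N = ∅
          · rw [hNk, Finset.image_empty, Finset.coe_empty, span_empty, Submodule.mem_bot] at hks
            exact hB.ne k hk hks
          · obtain ⟨f', hf'⟩ := Finset.nonempty_iff_ne_empty.2 hNk
            have h4 := Finset.mem_singleton.1 (hf hf')
            rw [← h4] at hf
            exact hone k hk f' (hNQ hf') (fun h5 => hkN (h5 ▸ hf')) _ hf hks
        obtain ⟨f, g, hfg, hNfg⟩ := Finset.card_eq_two.1 h1
        refine ⟨f, g, hfg, hNfg, ?_⟩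
        have hfQ : f ∈ Q := hNQ (by rw [hNfg]; exact Finset.mem_insert_self _ _)
        have hgQ : g ∈ Q := hNQ (by
          rw [hNfg]
          exact Finset.mem_insert_of_mem (Finset.mem_singleton_self _))
        have hkf : k ≠ f := fun h5 => hkN (by rw [h5, hNfg]; exact Finset.mem_insert_self _ _)
        have hkg : k ≠ g := fun h5 => hkN (by
          rw [h5, hNfg]
          exact Finset.mem_insert_of_mem (Finset.mem_singleton_self _))
        rw [hNfg, Finset.image_insert, Finset.image_singleton, Finset.coe_insert,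
          Finset.coe_singleton, span_insert] at hks
        obtain ⟨x, hx, y, hy, hxy⟩ := mem_sup.1 hks
        obtain ⟨c, rfl⟩ := mem_span_singleton.1 hx
        obtain ⟨d, rfl⟩ := mem_span_singleton.1 hy
        rcases zm2 c with rfl | rfl <;> rcases zm2 d with rfl | rfl
        · rw [zero_smul, zero_smul, add_zero] at hxy
          exact absurd hxy.symm (hB.ne k hk)
        · rw [zero_smul, one_smul, zero_add] at hxy
          exact absurd (hB.inj hk hgQ hxy.symm) hkg
        · rw [zero_smul, one_smul, add_zero] at hxy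
          exact absurd (hB.inj hk hfQ hxy.symm) hkf
        · rw [one_smul, one_smul] at hxy
          exact hxy.symm
    obtain ⟨-, f, g, hfg, h1, h2⟩ := hcard e he hes
    obtain ⟨-, f', g', hfg', h1', h2'⟩ := hcard i hi his
    have h3 : r e = ∑ j ∈ N, r j := by rw [h1, Finset.sum_pair hfg, h2]
    have h4 : r i = ∑ j ∈ N, r j := by rw [h1', Finset.sum_pair hfg', h2']
    exact hie (hB.inj hi he (h4.trans h3.symm))
  · push Not at hb
    obtain ⟨e, -⟩ := hne
    exact ⟨e, fun i hi _ => hgood i hi (hb i hi)⟩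

end Pool.Agent.NHT
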