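import Pool.Agent.SPT.Five
import Pool.Agent.TRC9.Card
import Pool.Agent.NHT.BlockF

/-!
# NHT, module SixF: independent relations between closed sets (helper19)

This is the module Six of helper62 (TRX), for the relations which are differences of two closed sets
with the same sum of `u`.
-/

set_option autoImplicit false
set_option linter.unusedSectionVars false

open Submodule

namespace Pool.Agent.NHT

open Pool.Agent.SPT Pool.Agent.SPT.Rel Pool.Agent.TRA Pool.Agent.TRP

variable {V : Type} [AddCommGroup V] [Module (ZMod 2) V] [DecidableEq V]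

/-- the differences of two closed sets with the same sum of `u` -/
def RelF (X : Finset V) (u : V → ℤ) (d : V → ℤ) : Prop :=
  ∃ S S', Flat X S ∧ Flat X S' ∧ su u S = su u S' ∧ d = fun v => ic S v - ic S' v

theorem RelF.isRel {X : Finset V} {u : V → ℤ} {d : V → ℤ} (h : RelF X u d) : IsRel X u d := by
  obtain ⟨S, S', hS, hS', hsu, rfl⟩ := h
  exact rel_of_su X u S S' hS.1 hS'.1 hsu

/-- If `u'` respects the relations of `u` between closed sets and the polynomial vanishes for `u` then
it vanishes for `u'`. -/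
theorem flat_follow (X : Finset V) (u u' : V → ℤ) (h : ¬ NZu X u)
    (hf : ∀ d, RelF X u d → ∑ v ∈ X, d v * u' v = 0) : ¬ NZu X u' := by
  rintro ⟨z, hz, hne⟩
  apply hne
  have hz0 : z ≠ 0 := by
    intro h0
    rw [h0, norm_zero] at hz
    exact zero_ne_one hz
  rw [PP_cc]
  refine psi_flat X u h (fun S => ∏ v ∈ S, z ^ u' v) fun S S' hS hS' hsu => ?_
  show ∏ v ∈ S, z ^ u' v = ∏ v ∈ S', z ^ u' v
  rw [prod_zpow_sum z hz0, prod_zpow_sum z hz0]
  have h1 := hf _ ⟨S, S', hS, hS', hsu, rfl⟩
  simp only [sub_mul] at h1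
  rw [Finset.sum_sub_distrib, ← su_ic X S hS.1 u', ← su_ic X S' hS'.1 u'] at h1
  unfold su at h1
  congr 1
  omega

/-- the coordinate `v` of a rational vector on `X`, zero outside of `X` -/
private noncomputable def six_c (X : Finset V) (v : V) : (X → ℚ) →ₗ[ℚ] ℚ :=
  if h : v ∈ X then LinearMap.proj ⟨v, h⟩ else 0

private theorem six_c_mem (X : Finset V) (v : X) (w : X → ℚ) : six_c X v w = w v := by
  unfold six_c
  rw [dif_pos v.2]
  rfl

private theorem six_c_not (X : Finset V) (v : V) (h : v ∉ X) (w : X → ℚ) :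
    six_c X v w = 0 := by
  unfold six_c
  rw [dif_neg h]
  rfl

/-- the space of the weight vectors which respect the relations -/
private theorem six_space (X : Finset V) (u : V → ℤ) (m : ℕ)
    (hno : ¬ ∃ d : Fin (m + 1) → V → ℤ, (∀ i, RelF X u (d i)) ∧ LinearIndependent ℤ d) :
    ∃ D : Submodule ℚ (X → ℚ),
      (∀ w ∈ D, ∀ d, RelF X u d → ∑ v : X, (d v : ℚ) * w v = 0) ∧
      (fun v : X => (u v : ℚ)) ∈ D ∧ X.card ≤ Module.finrank ℚ D + m := by
  classical
  obtain ⟨b, hbs, hspan, hli⟩ := exists_linearIndependent ℚ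
    {r : X → ℚ | ∃ d, RelF X u d ∧ ∀ v : X, r v = d v}
  have hbf : b.Finite := hli.setFinite
  have : Fintype b := hbf.fintype
  have hcard : Fintype.card b ≤ m := by
    by_contra hlt
    push Not at hlt
    apply hno
    obtain ⟨f⟩ : Nonempty (Fin (m + 1) ↪ b) :=
      Function.Embedding.nonempty_of_card_le (by rw [Fintype.card_fin]; exact hlt)
    choose d hd1 hd2 using fun r : b => hbs r.2
    refine ⟨fun i => d (f i), fun i => hd1 _, ?_⟩
    rw [Fintype.linearIndependent_iff]
    intro g hg i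
    have h1 := (Fintype.linearIndependent_iff.1 (hli.comp f f.injective)) (fun i => (g i : ℚ)) (by
      funext v
      rw [Finset.sum_apply]
      have h2 := congrFun hg v
      rw [Finset.sum_apply] at h2
      simp only [Pi.smul_apply, smul_eq_mul, Pi.zero_apply, Function.comp_apply] at h2 ⊢
      have h3 : ∀ j, ((f j : b) : X → ℚ) v = ((d (f j) v : ℤ) : ℚ) := fun j => hd2 (f j) v
      simp only [h3]
      exact_mod_cast h2)
    exact_mod_cast h1 i
  obtain ⟨L, hL⟩ : ∃ L : (X → ℚ) →ₗ[ℚ] (b → ℚ), ∀ w r, L w r = ∑ v : X, (r : X → ℚ) v * w v := by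
    refine ⟨{ toFun := fun w r => ∑ v : X, (r : X → ℚ) v * w v, map_add' := ?_, map_smul' := ?_ },
      fun _ _ => rfl⟩
    · intro w w'
      funext r
      rw [Pi.add_apply, ← Finset.sum_add_distrib]
      refine Finset.sum_congr rfl fun v _ => ?_
      rw [Pi.add_apply]
      ring
    · intro c w
      funext r
      rw [RingHom.id_apply, Pi.smul_apply, smul_eq_mul, Finset.mul_sum]
      refine Finset.sum_congr rfl fun v _ => ?_
      rw [Pi.smul_apply, smul_eq_mul]
      ring
  refine ⟨LinearMap.ker L, fun w hw d hd => ?_, ?_, ?_⟩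
  · rw [LinearMap.mem_ker] at hw
    have h1 : ∀ r ∈ span ℚ b, ∑ v : X, r v * w v = 0 := by
      intro r hr
      induction hr using Submodule.span_induction with
      | mem r hr =>
        have h2 := congrFun hw ⟨r, hr⟩
        rw [hL] at h2
        exact h2
      | zero => simp
      | add r r' _ _ h2 h3 =>
        simp only [Pi.add_apply, add_mul]
        rw [Finset.sum_add_distrib, h2, h3, add_zero]
      | smul c r _ h2 =>
        simp only [Pi.smul_apply, smul_eq_mul, mul_assoc]
        rw [← Finset.mul_sum, h2, mul_zero]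
    refine h1 (fun v : X => ((d v : ℤ) : ℚ)) ?_
    rw [hspan]
    exact subset_span ⟨d, hd, fun v => rfl⟩
  · rw [LinearMap.mem_ker]
    funext r
    rw [hL]
    obtain ⟨d, hd, hdr⟩ := hbs r.2
    have h1 := hd.isRel.2.2
    rw [← Finset.sum_coe_sort] at h1
    have h2 : ((∑ v : X, d v * u v : ℤ) : ℚ) = 0 := by rw [h1, Int.cast_zero]
    push_cast at h2
    rw [Pi.zero_apply, ← h2]
    exact Finset.sum_congr rfl fun v _ => by rw [hdr v]
  · have h1 := LinearMap.finrank_range_add_finrank_ker L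
    have h2 : Module.finrank ℚ (LinearMap.range L) ≤ m := by
      refine (Submodule.finrank_le _).trans ?_
      rw [Module.finrank_fintype_fun_eq_card]
      exact hcard
    rw [Module.finrank_fintype_fun_eq_card, Fintype.card_coe] at h1
    omega

/-- a multiple of a rational vector is integral -/
private theorem six_int (X : Finset V) (w : X → ℚ) :
    ∃ (M : ℤ) (u' : V → ℤ), 0 < M ∧ ∀ v : X, ((u' v : ℤ) : ℚ) = M * w v := by
  classical
  obtain ⟨M, hM⟩ : ∃ M : ℕ, M = ∏ v : X, (w v).den := ⟨_, rfl⟩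
  have hM0 : M ≠ 0 := by
    rw [hM]
    exact Finset.prod_ne_zero_iff.2 fun v _ => (w v).den_ne_zero
  have hint : ∀ v : X, ∃ m : ℤ, (m : ℚ) = M * w v := by
    intro v
    obtain ⟨d, hd⟩ : (w v).den ∣ M := by
      rw [hM]
      exact Finset.dvd_prod_of_mem _ (Finset.mem_univ v)
    refine ⟨d * (w v).num, ?_⟩
    have h1 := Rat.mul_den_eq_num (w v)
    rw [hd]
    push_cast
    rw [← h1]
    ring
  choose m hm using hint
  refine ⟨M, fun v => if h : v ∈ X then m ⟨v, h⟩ else 0, by exact_mod_cast Nat.pos_of_ne_zero hM0,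
    fun v => ?_⟩
  beta_reduce
  rw [dif_pos v.2]
  exact_mod_cast hm v

/-- **Flat from pairs** -/
private theorem flat_pairs (E A : Finset V) (hAE : A ⊆ E) (h0 : (0 : V) ∉ E) (π : V → V)
    (hπ : ∀ g ∈ A, π g ∉ A) (hinj : ∀ g ∈ A, ∀ h ∈ A, π g = π h → g = h)
    (ψ : V → (V →ₗ[ZMod 2] ZMod 2))
    (hψ : ∀ g ∈ A, ψ g g ≠ 0 ∧ ∀ x ∈ E, x ≠ g → x ≠ π g → ψ g x = 0) : Flat E A := by
  classical
  refine ⟨hAE, fun v hvE hv => ?_⟩
  by_contra hvA
  obtain ⟨f, hf, hfs⟩ := Submodule.mem_span_finset.1 hv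
  have h1 : ∀ g ∈ A, v ≠ π g → f g = 0 := by
    intro g hg hne
    obtain ⟨h2, h3⟩ := hψ g hg
    have h4 : ψ g v = 0 := h3 v hvE (fun h => hvA (h ▸ hg)) hne
    rw [← hfs, map_sum] at h4
    rw [Finset.sum_eq_single_of_mem g hg] at h4
    · rw [map_smul, smul_eq_mul] at h4
      exact (mul_eq_zero.1 h4).resolve_right h2
    · intro b hb hbg
      rw [map_smul, h3 b (hAE hb) hbg (fun h => hπ g hg (h ▸ hb)), smul_zero]
  by_cases h2 : ∃ g ∈ A, v = π g
  · obtain ⟨g, hg, hgv⟩ := h2
    have h3 : v = f g • g := by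
      conv_lhs => rw [← hfs]
      refine Finset.sum_eq_single_of_mem g hg fun b hb hbg => ?_
      rw [h1 b hb (fun h => hbg (hinj b hb g hg (h ▸ hgv))), zero_smul]
    rcases z2 (f g) with h4 | h4
    · rw [h4, zero_smul] at h3
      exact h0 (h3 ▸ hvE)
    · rw [h4, one_smul] at h3
      exact hvA (h3 ▸ hg)
  · push Not at h2
    have h3 : v = 0 := by
      rw [← hfs]
      refine Finset.sum_eq_zero fun b hb => ?_
      rw [h1 b hb (h2 b hb), zero_smul]
    exact h0 (h3 ▸ hvE)

/-- **The top coefficient**: the positive weights form a flat -/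
private theorem top_flat (E : Finset V) (u : V → ℤ) (hu : ∀ v ∈ E, u v ≠ 0)
    (hF : Flat E (E.filter fun v => 0 < u v)) : NZu E u := by
  classical
  obtain ⟨A, hA⟩ : ∃ A, A = E.filter fun v => 0 < u v := ⟨_, rfl⟩
  rw [← hA] at hF
  have hAm : ∀ v, v ∈ A ↔ v ∈ E ∧ 0 < u v := fun v => by rw [hA, Finset.mem_filter]
  apply NZu_of_level E u (∑ v ∈ A, u v)
  rw [Finset.sum_eq_single A]
  · intro h
    have h1 := cc_flat E A hF
    rw [h, mul_zero] at h1
    exact lt_irrefl _ h1
  · intro S hS hne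
    exfalso
    apply hne
    rw [Finset.mem_filter, Finset.mem_powerset] at hS
    obtain ⟨hSE, hsum⟩ := hS
    have e1 := Finset.sum_inter_add_sum_sdiff S A u
    have e2 := Finset.sum_inter_add_sum_sdiff A S u
    rw [Finset.inter_comm A S] at e2
    have p1 : ∀ v ∈ S \ A, u v < 0 := by
      intro v hv
      rw [Finset.mem_sdiff, hAm] at hv
      have h2 := hu v (hSE hv.1)
      by_contra h3
      exact hv.2 ⟨hSE hv.1, by omega⟩
    have p2 : ∀ v ∈ A \ S, 0 < u v := by
      intro v hv
      rw [Finset.mem_sdiff, hAm] at hv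
      exact hv.1.2
    have q1 : ∑ v ∈ S \ A, u v ≤ 0 := Finset.sum_nonpos fun v hv => (p1 v hv).le
    have q2 : 0 ≤ ∑ v ∈ A \ S, u v := Finset.sum_nonneg fun v hv => (p2 v hv).le
    have r1 : ∑ v ∈ S \ A, u v = 0 := by omega
    have r2 : ∑ v ∈ A \ S, u v = 0 := by omega
    have s1 : S \ A = ∅ := by
      by_contra h3
      have h4 := Finset.sum_neg p1 (Finset.nonempty_iff_ne_empty.2 h3)
      omega
    have s2 : A \ S = ∅ := by
      by_contra h3
      have h4 := Finset.sum_pos p2 (Finset.nonempty_iff_ne_empty.2 h3)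
      omega
    exact Finset.Subset.antisymm (Finset.sdiff_eq_empty_iff_subset.1 s1)
      (Finset.sdiff_eq_empty_iff_subset.1 s2)
  · intro h
    exfalso
    apply h
    rw [Finset.mem_filter, Finset.mem_powerset]
    exact ⟨hF.1, rfl⟩

/-- singletons -/
private theorem six_one (v : V) : NonV ({v} : Finset V) := by
  refine thm_Rank3 V {v} ?_
  refine (finrank_span_finset_le_card _).trans ?_
  simp

/-- **Independent relations**: if the polynomial is not zero for all sets with at most `c` elements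
and all weights different from zero, and `2 * m ≤ c + 2`, then there are `m` independent
relations. -/
theorem six_genF (c : ℕ) (X : Finset V) (hc : ∀ F ⊆ X, F.card ≤ c → NonV F)
    (h0 : (0 : V) ∉ X) (u : V → ℤ) (h : ¬ NZu X u)
    (hsupp : span (ZMod 2) ((X.filter fun v => u v ≠ 0 : Finset V) : Set V) =
      span (ZMod 2) (X : Set V)) (m : ℕ) (hm : 2 * m ≤ c + 1) :
    ∃ d : Fin (m + 1) → V → ℤ, (∀ i, RelF X u (d i)) ∧ LinearIndependent ℤ d := by
  classical
  by_contra hno
  obtain ⟨D, hD, huD, hdim⟩ := six_space X u m hno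
  -- the support
  obtain ⟨sp, hsp⟩ : ∃ sp : (X → ℚ) → Finset V, ∀ w, sp w = X.filter fun v => six_c X v w ≠ 0 :=
    ⟨_, fun _ => rfl⟩
  have hspX : ∀ w, sp w ⊆ X := fun w => by
    rw [hsp]
    exact Finset.filter_subset _ _
  have hmem : ∀ w v, v ∈ sp w ↔ six_c X v w ≠ 0 := by
    intro w v
    rw [hsp, Finset.mem_filter]
    refine ⟨fun h => h.2, fun h => ⟨?_, h⟩⟩
    by_contra hv
    exact h (six_c_not X v hv w)
  have hex : ∃ n, ∃ w ∈ D, span (ZMod 2) ((sp w : Finset V) : Set V) = span (ZMod 2) (X : Set V) ∧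
      (sp w).card = n := by
    refine ⟨_, _, huD, ?_, rfl⟩
    have h1 : sp (fun v : X => (u v : ℚ)) = X.filter fun v => u v ≠ 0 := by
      rw [hsp]
      refine Finset.filter_congr fun v hv => ?_
      rw [six_c_mem X ⟨v, hv⟩]
      exact_mod_cast Iff.rfl
    rw [h1, hsupp]
  obtain ⟨w0, hw0D, hw0s, hw0c⟩ := Nat.find_spec hex
  have hmin : ∀ w ∈ D, span (ZMod 2) ((sp w : Finset V) : Set V) = span (ZMod 2) (X : Set V) →
      (sp w0).card ≤ (sp w).card := by
    intro w hw hs
    rw [hw0c]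
    exact Nat.find_min' hex ⟨w, hw, hs, rfl⟩
  obtain ⟨E, hE⟩ : ∃ E, E = sp w0 := ⟨_, rfl⟩
  rw [← hE] at hw0s hmin
  have hEX : E ⊆ X := by
    rw [hE]
    exact hspX w0
  have hEm : ∀ v, v ∈ E ↔ six_c X v w0 ≠ 0 := by
    rw [hE]
    exact hmem w0
  -- the polynomial vanishes on `E`
  have hNE : ¬ NonV E := by
    intro hN
    obtain ⟨M, u', hM, hu'⟩ := six_int X w0
    have h1 : ¬ NZu X u' := by
      refine flat_follow X u u' h fun d hd => ?_
      have h2 := hD w0 hw0D d hd
      rw [← Finset.sum_coe_sort]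
      have h3 : ((∑ v : X, d v * u' v : ℤ) : ℚ) = M * ∑ v : X, (d v : ℚ) * w0 v := by
        push_cast
        rw [Finset.mul_sum]
        refine Finset.sum_congr rfl fun v _ => ?_
        rw [hu' v]
        ring
      rw [h2, mul_zero] at h3
      exact_mod_cast h3
    have hM' : (M : ℚ) ≠ 0 := by exact_mod_cast hM.ne'
    have h2 : ∀ v ∈ E, u' v ≠ 0 := by
      intro v hv h3
      have h4 := hu' ⟨v, hEX hv⟩
      rw [h3, Int.cast_zero] at h4
      have h5 := (hEm v).1 hv
      rw [six_c_mem X ⟨v, hEX hv⟩] at h5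
      exact mul_ne_zero hM' h5 h4.symm
    obtain ⟨z, hz, hzE⟩ := hN u' fun v hv _ => h2 v hv
    apply h1
    refine ⟨z, hz, ?_⟩
    rw [PP_res X E hEX hw0s]
    · exact hzE
    · intro v hv hvE
      have h3 : u' v = 0 := by
        have h4 := hu' ⟨v, hv⟩
        have h5 : six_c X v w0 = 0 := by
          by_contra h6
          exact hvE ((hEm v).2 h6)
        rw [six_c_mem X ⟨v, hv⟩] at h5
        rw [h5, mul_zero] at h4
        exact_mod_cast h4
      rw [h3, zpow_zero]
  -- the minimal set `F`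
  have hex2 : ∃ n, ∃ F ⊆ E, ¬ NonV F ∧
      (∀ c ∈ E, c ∉ F → c ∉ span (ZMod 2) ((E.erase c : Finset V) : Set V)) ∧ F.card = n :=
    ⟨_, E, Finset.Subset.refl E, hNE, fun c hc hcE => absurd hc hcE, rfl⟩
  obtain ⟨F, hFE, hNF, hFc, hFn⟩ := Nat.find_spec hex2
  have hFmin : ∀ F' ⊆ E, ¬ NonV F' →
      (∀ c ∈ E, c ∉ F' → c ∉ span (ZMod 2) ((E.erase c : Finset V) : Set V)) →
      F.card ≤ F'.card := by
    intro F' h1 h2 h3
    rw [hFn]
    exact Nat.find_min' hex2 ⟨F', h1, h2, h3, rfl⟩
  have hF0 : (0 : V) ∉ F := fun h1 => h0 (hEX (hFE h1))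
  have hFcard : c + 1 ≤ F.card := by
    by_contra hlt
    apply hNF
    exact hc F (hFE.trans hEX) (by omega)
  have hnotcoloop : ∀ e ∈ F, e ∈ span (ZMod 2) ((E.erase e : Finset V) : Set V) := by
    intro e he
    by_contra hco
    have h1 : ¬ NonV (F.erase e) := by
      intro hN
      apply hNF
      have h2 : F = {e} ∪ F.erase e := by
        rw [← Finset.insert_eq, Finset.insert_erase he]
      rw [h2]
      refine thm_Sum V {e} (F.erase e) ?_ (six_one e) hN
      rw [Submodule.disjoint_def]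
      intro x hx hx'
      rw [Finset.coe_singleton, mem_span_singleton] at hx
      obtain ⟨a, rfl⟩ := hx
      rcases z2 a with rfl | rfl
      · exact zero_smul _ _
      · exfalso
        apply hco
        rw [one_smul] at hx'
        exact span_mono (Finset.coe_subset.2 (Finset.erase_subset_erase e hFE)) hx'
    have h2 := hFmin (F.erase e) ((Finset.erase_subset e F).trans hFE) h1 fun c hcE hcF => by
      by_cases hce : c = e
      · rw [hce]
        exact hco
      · exact hFc c hcE fun h3 => hcF (Finset.mem_erase.2 ⟨hce, h3⟩)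
    rw [Finset.card_erase_of_mem he] at h2
    have h3 : 0 < F.card := Finset.card_pos.2 ⟨e, he⟩
    omega
  -- the weight vectors supported on `E`
  obtain ⟨K, hK⟩ : ∃ K : Submodule ℚ (X → ℚ), ∀ w, w ∈ K ↔ ∀ v ∉ E, six_c X v w = 0 := by
    refine ⟨⨅ v : {v : V // v ∉ E}, LinearMap.ker (six_c X v), fun w => ?_⟩
    rw [Submodule.mem_iInf]
    constructor
    · intro h1 v hv
      exact h1 ⟨v, hv⟩
    · intro h1 v
      exact h1 v v.2
  have hKdim : E.card ≤ Module.finrank ℚ K := by
    -- functions on `E` extended by zero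
    obtain ⟨T, hT⟩ : ∃ T : (E → ℚ) →ₗ[ℚ] (X → ℚ),
        ∀ f v, T f v = if h : (v : V) ∈ E then f ⟨v, h⟩ else 0 := by
      refine ⟨{ toFun := fun f v => if h : (v : V) ∈ E then f ⟨v, h⟩ else 0,
                map_add' := ?_, map_smul' := ?_ }, fun _ _ => rfl⟩
      · intro f g
        funext v
        rw [Pi.add_apply]
        by_cases hv : (v : V) ∈ E
        · rw [dif_pos hv, dif_pos hv, dif_pos hv, Pi.add_apply]
        · rw [dif_neg hv, dif_neg hv, dif_neg hv, add_zero]
      · intro a f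
        funext v
        rw [RingHom.id_apply, Pi.smul_apply, smul_eq_mul]
        by_cases hv : (v : V) ∈ E
        · rw [dif_pos hv, dif_pos hv, Pi.smul_apply, smul_eq_mul]
        · rw [dif_neg hv, dif_neg hv, mul_zero]
    have hTK : ∀ f, T f ∈ K := by
      intro f
      rw [hK]
      intro v hv
      by_cases hvX : v ∈ X
      · rw [six_c_mem X ⟨v, hvX⟩, hT, dif_neg hv]
      · exact six_c_not X v hvX _
    have hTi : Function.Injective (T.codRestrict K hTK) := by
      intro f g hfg
      funext v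
      have h1 : T f ⟨v, hEX v.2⟩ = T g ⟨v, hEX v.2⟩ :=
        congrFun (congrArg Subtype.val hfg) ⟨v, hEX v.2⟩
      rw [hT, hT, dif_pos v.2, dif_pos v.2] at h1
      exact h1
    have h1 := LinearMap.finrank_le_finrank_of_injective hTi
    rw [Module.finrank_fintype_fun_eq_card, Fintype.card_coe] at h1
    exact h1
  obtain ⟨D', hD'⟩ : ∃ D', D' = D ⊓ K := ⟨_, rfl⟩
  have hD'm : ∀ w, w ∈ D' ↔ w ∈ D ∧ ∀ v ∉ E, six_c X v w = 0 := by
    intro w
    rw [hD', Submodule.mem_inf, hK]
  have hw0D' : w0 ∈ D' := by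
    rw [hD'm]
    refine ⟨hw0D, fun v hv => ?_⟩
    by_contra h1
    exact hv ((hEm v).2 h1)
  have hD'dim : E.card ≤ Module.finrank ℚ D' + m := by
    have h1 := Submodule.finrank_sup_add_finrank_inf_eq D K
    have h2 : Module.finrank ℚ ↥(D ⊔ K) ≤ X.card := by
      refine (Submodule.finrank_le _).trans ?_
      rw [Module.finrank_fintype_fun_eq_card, Fintype.card_coe]
    rw [← hD'] at h1
    omega
  -- partners
  have hpartner : ∀ e ∈ F, ∃ f ∈ E, f ≠ e ∧ ∀ w ∈ D', (six_c X e w = 0 ↔ six_c X f w = 0) := by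
    intro e he
    by_contra hcon
    push Not at hcon
    have h1 : ∀ f : (E.erase e : Finset V), ∃ w ∈ D' ⊓ LinearMap.ker (six_c X e),
        six_c X f w ≠ 0 := by
      intro f
      obtain ⟨hfe, hfE⟩ := Finset.mem_erase.1 f.2
      obtain ⟨w, hw, hiff⟩ := hcon f hfE hfe
      rcases hiff with ⟨h2, h3⟩ | ⟨h2, h3⟩
      · exact ⟨w, Submodule.mem_inf.2 ⟨hw, h2⟩, h3⟩
      · have he0 := (hEm e).1 (hFE he)
        have hf0 := (hEm f).1 hfE
        refine ⟨w - (six_c X e w / six_c X e w0) • w0, Submodule.mem_inf.2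
          ⟨Submodule.sub_mem _ hw (Submodule.smul_mem _ _ hw0D'), ?_⟩, ?_⟩
        · rw [LinearMap.mem_ker, map_sub, map_smul, smul_eq_mul, div_mul_cancel₀ _ he0, sub_self]
        · rw [map_sub, map_smul, h3, zero_sub, neg_ne_zero, smul_eq_mul]
          exact mul_ne_zero (div_ne_zero h2 he0) hf0
    obtain ⟨w, hw, hwf⟩ := Module.Dual.exists_forall_mem_ne_zero_of_forall_exists
      (D' ⊓ LinearMap.ker (six_c X e)) (fun f : (E.erase e : Finset V) => six_c X f) h1
    obtain ⟨hwD', hwe⟩ := Submodule.mem_inf.1 hw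
    rw [LinearMap.mem_ker] at hwe
    have hspw : sp w = E.erase e := by
      ext v
      rw [hmem, Finset.mem_erase]
      constructor
      · intro h2
        refine ⟨?_, ?_⟩
        · rintro rfl
          exact h2 hwe
        · by_contra h3
          exact h2 (((hD'm w).1 hwD').2 v h3)
      · rintro ⟨h2, h3⟩
        exact hwf ⟨v, Finset.mem_erase.2 ⟨h2, h3⟩⟩
    have h2 := hmin w ((hD'm w).1 hwD').1 (by
      rw [hspw, ← hw0s]
      refine le_antisymm (span_mono (Finset.coe_subset.2 (Finset.erase_subset e E))) ?_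
      rw [span_le]
      intro v hv
      by_cases hve : v = e
      · rw [hve]
        exact hnotcoloop e he
      · exact subset_span (Finset.mem_coe.2 (Finset.mem_erase.2 ⟨hve, hv⟩)))
    rw [hspw, Finset.card_erase_of_mem (hFE he)] at h2
    have h3 : 0 < E.card := Finset.card_pos.2 ⟨e, hFE he⟩
    omega
  -- the classes
  obtain ⟨cls, hcls⟩ : ∃ cls : V → Finset V, ∀ e, cls e =
      E.filter fun f => ∀ w ∈ D', (six_c X e w = 0 ↔ six_c X f w = 0) := ⟨_, fun _ => rfl⟩
  have hcls1 : ∀ e f, f ∈ cls e ↔ f ∈ E ∧ ∀ w ∈ D', (six_c X e w = 0 ↔ six_c X f w = 0) := by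
    intro e f
    rw [hcls, Finset.mem_filter]
  have hcls2 : ∀ e f, f ∈ cls e → cls f = cls e := by
    intro e f hf
    ext x
    rw [hcls1, hcls1]
    have h1 := ((hcls1 e f).1 hf).2
    constructor
    · rintro ⟨h2, h3⟩
      exact ⟨h2, fun w hw => (h1 w hw).trans (h3 w hw)⟩
    · rintro ⟨h2, h3⟩
      exact ⟨h2, fun w hw => (h1 w hw).symm.trans (h3 w hw)⟩
  have hcls3 : ∀ e ∈ E, e ∈ cls e := fun e he => (hcls1 e e).2 ⟨he, fun _ _ => Iff.rfl⟩
  obtain ⟨T, hT⟩ : ∃ T : Finset (Finset V), T = E.image cls := ⟨_, rfl⟩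
  have hTm : ∀ v ∈ E, cls v ∈ T := fun v hv => by
    rw [hT]
    exact Finset.mem_image_of_mem _ hv
  have hrep : ∀ t : T, ∃ e ∈ E, cls e = t := by
    intro t
    have h2 : (t : Finset V) ∈ E.image cls := by
      rw [← hT]
      exact t.2
    obtain ⟨e, he, h3⟩ := Finset.mem_image.1 h2
    exact ⟨e, he, h3⟩
  choose rep hrep1 hrep2 using hrep
  obtain ⟨L, hL⟩ : ∃ L : D' →ₗ[ℚ] (T → ℚ), ∀ w t, L w t = six_c X (rep t) w := by
    refine ⟨LinearMap.pi fun t => (six_c X (rep t)).domRestrict D', fun w t => rfl⟩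
  have hrepv : ∀ v (hv : v ∈ E), ∀ w ∈ D',
      (six_c X (rep ⟨cls v, hTm v hv⟩) w = 0 ↔ six_c X v w = 0) := by
    intro v hv w hw
    have h2 : v ∈ cls (rep ⟨cls v, hTm v hv⟩) := by
      rw [hrep2]
      exact hcls3 v hv
    exact ((hcls1 _ _).1 h2).2 w hw
  have hLi : Function.Injective L := by
    rw [← LinearMap.ker_eq_bot, LinearMap.ker_eq_bot']
    intro w hw
    apply Subtype.ext
    funext v
    change (w : X → ℚ) v = 0
    rw [← six_c_mem X v (w : X → ℚ)]
    by_cases hv : (v : V) ∈ E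
    · rw [← hrepv v hv w w.2, ← hL, hw]
      rfl
    · exact ((hD'm w).1 w.2).2 v hv
  have hTdim : Module.finrank ℚ D' ≤ T.card := by
    have h2 := LinearMap.finrank_le_finrank_of_injective hLi
    rw [Module.finrank_fintype_fun_eq_card, Fintype.card_coe] at h2
    exact h2
  have hsum1 : F.card = ∑ t ∈ T, (F.filter fun e => cls e = t).card :=
    Finset.card_eq_sum_card_fiberwise fun e he => by
      rw [hT]
      exact Finset.mem_coe.2 (Finset.mem_image_of_mem _ (hFE he))
  have hsum2 : (E \ F).card = ∑ t ∈ T, ((E \ F).filter fun e => cls e = t).card :=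
    Finset.card_eq_sum_card_fiberwise fun e he => by
      rw [hT]
      exact Finset.mem_coe.2 (Finset.mem_image_of_mem _ (Finset.mem_sdiff.1 he).1)
  have hper : ∀ t ∈ T, 2 ≤ (F.filter fun e => cls e = t).card +
      2 * ((E \ F).filter fun e => cls e = t).card := by
    intro t ht
    rw [hT] at ht
    obtain ⟨e, he, rfl⟩ := Finset.mem_image.1 ht
    have h2 : ∀ x ∈ E, x ∉ F → cls x = cls e →
        0 < ((E \ F).filter fun y => cls y = cls e).card := fun x hx hxF hxe =>
      Finset.card_pos.2 ⟨x, Finset.mem_filter.2 ⟨Finset.mem_sdiff.2 ⟨hx, hxF⟩, hxe⟩⟩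
    by_cases heF : e ∈ F
    · obtain ⟨f, hfE, hfe, hf⟩ := hpartner e heF
      have h3 : cls f = cls e := hcls2 e f ((hcls1 e f).2 ⟨hfE, hf⟩)
      by_cases hfF : f ∈ F
      · have h4 : 1 < (F.filter fun y => cls y = cls e).card := by
          rw [Finset.one_lt_card]
          exact ⟨e, Finset.mem_filter.2 ⟨heF, rfl⟩, f, Finset.mem_filter.2 ⟨hfF, h3⟩, hfe.symm⟩
        omega
      · have h4 := h2 f hfE hfF h3
        omega
    · have h4 := h2 e he heF rfl
      omega
  have hcount0 : ∑ t ∈ T, ((F.filter fun e => cls e = t).card +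
      2 * ((E \ F).filter fun e => cls e = t).card) = F.card + 2 * (E \ F).card := by
    rw [Finset.sum_add_distrib, ← Finset.mul_sum, ← hsum1, ← hsum2]
  have hcount : 2 * T.card ≤ F.card + 2 * (E \ F).card := by
    have h1 : ∑ t ∈ T, 2 = 2 * T.card := by
      rw [Finset.sum_const, smul_eq_mul, mul_comm]
    rw [← hcount0, ← h1]
    exact Finset.sum_le_sum hper
  have hFE' : (E \ F).card + F.card = E.card := by
    rw [Finset.card_sdiff_of_subset hFE]
    have := Finset.card_le_card hFE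
    omega
  -- the tight case
  have hdimT : Module.finrank ℚ D' = T.card := by omega
  have hcountT : F.card + 2 * (E \ F).card = 2 * T.card := by omega
  have hperT : ∀ t ∈ T, 2 = (F.filter fun e => cls e = t).card +
      2 * ((E \ F).filter fun e => cls e = t).card := by
    refine (Finset.sum_eq_sum_iff_of_le hper).1 ?_
    rw [hcount0, hcountT, Finset.sum_const, smul_eq_mul, mul_comm]
  have hLs : Function.Surjective L := by
    rw [← LinearMap.range_eq_top]
    refine Submodule.eq_top_of_finrank_eq ?_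
    rw [LinearMap.finrank_range_of_inj hLi, hdimT, Module.finrank_fintype_fun_eq_card,
      Fintype.card_coe]
  -- the classes with an element of `F` have two elements
  have hpair : ∀ e ∈ F, ∀ f ∈ E, f ≠ e → cls f = cls e →
      f ∈ F ∧ ∀ x ∈ E, cls x = cls e → x = e ∨ x = f := by
    intro e he f hf hfe hc1
    have h1 := hperT _ (hTm e (hFE he))
    have h2 : 0 < (F.filter fun y => cls y = cls e).card :=
      Finset.card_pos.2 ⟨e, Finset.mem_filter.2 ⟨he, rfl⟩⟩
    have h3 : ((E \ F).filter fun y => cls y = cls e).card = 0 := by omega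
    have h4 : (F.filter fun y => cls y = cls e).card = 2 := by omega
    rw [Finset.card_eq_zero, Finset.filter_eq_empty_iff] at h3
    have h5 : ∀ x ∈ E, cls x = cls e → x ∈ F := by
      intro x hx hxc
      by_contra hxF
      exact h3 (Finset.mem_sdiff.2 ⟨hx, hxF⟩) hxc
    refine ⟨h5 f hf hc1, fun x hx hxc => ?_⟩
    by_contra hno1
    push Not at hno1
    have h6 : ({e, f, x} : Finset V) ⊆ F.filter fun y => cls y = cls e := by
      intro y hy
      rw [Finset.mem_insert, Finset.mem_insert, Finset.mem_singleton] at hy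
      rw [Finset.mem_filter]
      rcases hy with rfl | rfl | rfl
      · exact ⟨he, rfl⟩
      · exact ⟨h5 _ hf hc1, hc1⟩
      · exact ⟨h5 _ hx hxc, hxc⟩
    have h7 := Finset.card_le_card h6
    rw [h4, Finset.card_eq_three.2 ⟨e, f, x, hfe.symm, hno1.1.symm, hno1.2.symm, rfl⟩] at h7
    omega
  have hsingle : ∀ e ∈ E, e ∉ F → ∀ x ∈ E, cls x = cls e → x = e := by
    intro e he heF x hx hxc
    have h1 := hperT _ (hTm e he)
    have h2 : 0 < ((E \ F).filter fun y => cls y = cls e).card :=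
      Finset.card_pos.2 ⟨e, Finset.mem_filter.2 ⟨Finset.mem_sdiff.2 ⟨he, heF⟩, rfl⟩⟩
    have h3 : (F.filter fun y => cls y = cls e).card = 0 := by omega
    have h4 : ((E \ F).filter fun y => cls y = cls e).card = 1 := by omega
    rw [Finset.card_eq_zero, Finset.filter_eq_empty_iff] at h3
    obtain ⟨a, ha⟩ := Finset.card_eq_one.1 h4
    have h5 : ∀ y ∈ E, cls y = cls e → y = a := by
      intro y hy hyc
      rw [← Finset.mem_singleton, ← ha, Finset.mem_filter, Finset.mem_sdiff]
      exact ⟨⟨hy, fun hyF => h3 hyF hyc⟩, hyc⟩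
    rw [h5 x hx hxc, h5 e he rfl]
  -- all representatives have the value one
  obtain ⟨w1, hw1⟩ := hLs fun _ => 1
  have hw1r : ∀ t, six_c X (rep t) w1 = 1 := fun t => by rw [← hL, hw1]
  have hw1E : ∀ v ∈ E, six_c X v w1 ≠ 0 := by
    intro v hv h1
    have h2 := (hrepv v hv w1 w1.2).2 h1
    rw [hw1r] at h2
    exact one_ne_zero h2
  obtain ⟨b, hb⟩ : ∃ b : T → ℚ, ∀ t, b t =
      if ∃ x ∈ E, cls x = t ∧ six_c X x w1 < 0 then 1 else -1 := ⟨_, fun _ => rfl⟩
  have hb0 : ∀ t, b t ≠ 0 := by
    intro t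
    rw [hb]
    split_ifs
    · exact one_ne_zero
    · exact neg_ne_zero.2 one_ne_zero
  obtain ⟨w2, hw2⟩ := hLs b
  have hw2E : ∀ v (hv : v ∈ E), six_c X v w2 = b ⟨cls v, hTm v hv⟩ * six_c X v w1 := by
    intro v hv
    have h1 := (hrepv v hv ((w2 - b ⟨cls v, hTm v hv⟩ • w1 : D') : X → ℚ)
      (w2 - b ⟨cls v, hTm v hv⟩ • w1 : D').2).1 (by
        rw [Submodule.coe_sub, Submodule.coe_smul, map_sub, map_smul, hw1r, ← hL, hw2, smul_eq_mul,
          mul_one, sub_self])
    rw [Submodule.coe_sub, Submodule.coe_smul, map_sub, map_smul, smul_eq_mul] at h1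
    linarith
  obtain ⟨M, u', hM, hu'⟩ := six_int X (w2 : X → ℚ)
  have hMq : (0 : ℚ) < M := by exact_mod_cast hM
  have huE : ∀ v (hv : v ∈ E),
      ((u' v : ℤ) : ℚ) = M * (b ⟨cls v, hTm v hv⟩ * six_c X v w1) := by
    intro v hv
    rw [hu' ⟨v, hEX hv⟩, ← hw2E v hv, six_c_mem X ⟨v, hEX hv⟩]
  -- the polynomial vanishes for the new weights
  have hNu : ¬ NZu X u' := by
    refine flat_follow X u u' h fun d hd => ?_
    have h2 := hD w2 ((hD'm w2).1 w2.2).1 d hd
    rw [← Finset.sum_coe_sort]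
    have h3 : ((∑ v : X, d v * u' v : ℤ) : ℚ) = M * ∑ v : X, (d v : ℚ) * (w2 : X → ℚ) v := by
      push_cast
      rw [Finset.mul_sum]
      refine Finset.sum_congr rfl fun v _ => ?_
      rw [hu' v]
      ring
    rw [h2, mul_zero] at h3
    exact_mod_cast h3
  apply hNu
  have hNE' : NZu E u' := by
    refine top_flat E u' (fun v hv h1 => ?_) ?_
    · have h2 := huE v hv
      rw [h1, Int.cast_zero] at h2
      exact mul_ne_zero hMq.ne' (mul_ne_zero (hb0 _) (hw1E v hv)) h2.symm
    · obtain ⟨A, hA⟩ : ∃ A, A = E.filter fun v => 0 < u' v := ⟨_, rfl⟩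
      rw [← hA]
      have hAE : A ⊆ E := by
        rw [hA]
        exact Finset.filter_subset _ _
      have hAm : ∀ v ∈ A, ∃ x ∈ E, cls x = cls v ∧ six_c X x w1 < 0 ∧ 0 < six_c X v w1 := by
        intro v hv
        rw [hA, Finset.mem_filter] at hv
        obtain ⟨hvE, hpos⟩ := hv
        have h1 : (0 : ℚ) < u' v := by exact_mod_cast hpos
        rw [huE v hvE] at h1
        have h2 := pos_of_mul_pos_right h1 hMq.le
        by_cases h3 : ∃ x ∈ E, cls x = cls v ∧ six_c X x w1 < 0
        · obtain ⟨x, hx, hxc, hxn⟩ := h3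
          refine ⟨x, hx, hxc, hxn, ?_⟩
          rw [hb, if_pos ⟨x, hx, hxc, hxn⟩, one_mul] at h2
          exact h2
        · exfalso
          rw [hb, if_neg h3] at h2
          apply h3
          refine ⟨v, hvE, rfl, ?_⟩
          linarith
      have hAn : ∀ x ∈ E, ∀ v ∈ A, cls x = cls v → six_c X x w1 < 0 → x ∉ A := by
        intro x hx v hv hxv hxn hxA
        obtain ⟨_, _, _, _, h5⟩ := hAm x hxA
        linarith
      choose! π hπ1 hπ2 hπ3 hπ4 using hAm
      have hπA : ∀ g ∈ A, π g ∉ A := fun g hg => hAn _ (hπ1 g hg) g hg (hπ2 g hg) (hπ3 g hg)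
      have hπg : ∀ g ∈ A, π g ≠ g := fun g hg h1 => hπA g hg (h1.symm ▸ hg)
      have hgF : ∀ g ∈ A, g ∈ F := by
        intro g hg
        by_contra hgF
        exact hπg g hg (hsingle g (hAE hg) hgF _ (hπ1 g hg) (hπ2 g hg))
      have hψ : ∀ g ∈ A, ∃ ψ : V →ₗ[ZMod 2] ZMod 2, ψ g ≠ 0 ∧
          ∀ x ∈ E, x ≠ g → x ≠ π g → ψ x = 0 := by
        intro g hg
        obtain ⟨hπF, hpg⟩ := hpair g (hgF g hg) (π g) (hπ1 g hg) (hπg g hg) (hπ2 g hg)
        obtain ⟨w3, hw3⟩ := hLs fun t => if (t : Finset V) = cls g then 0 else 1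
        have hsp3 : sp (w3 : X → ℚ) = E.filter fun x => x ≠ g ∧ x ≠ π g := by
          ext x
          rw [hmem, Finset.mem_filter]
          have h1 : ∀ hx : x ∈ E, (six_c X x w3 = 0 ↔ cls x = cls g) := by
            intro hx
            rw [← hrepv x hx w3 w3.2, ← hL, hw3]
            change (if cls x = cls g then (0 : ℚ) else 1) = 0 ↔ _
            split_ifs with h2
            · exact ⟨fun _ => h2, fun _ => rfl⟩
            · exact ⟨fun h3 => absurd h3 one_ne_zero, fun h3 => absurd h3 h2⟩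
          constructor
          · intro h2
            have hx : x ∈ E := by
              by_contra h3
              exact h2 (((hD'm w3).1 w3.2).2 x h3)
            refine ⟨hx, ?_, ?_⟩
            · rintro rfl
              exact h2 ((h1 hx).2 rfl)
            · rintro rfl
              exact h2 ((h1 hx).2 (hπ2 g hg))
          · rintro ⟨hx, h3, h4⟩ h5
            rcases hpg x hx ((h1 hx).1 h5) with h6 | h6
            · exact h3 h6
            · exact h4 h6
        obtain ⟨E', hE'⟩ : ∃ E', E' = E.filter fun x => x ≠ g ∧ x ≠ π g := ⟨_, rfl⟩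
        rw [← hE'] at hsp3
        have hE'm : ∀ x, x ∈ E' ↔ x ∈ E ∧ x ≠ g ∧ x ≠ π g := fun x => by
          rw [hE', Finset.mem_filter]
        have hE'E : E' ⊆ E := fun x hx => ((hE'm x).1 hx).1
        have hns : span (ZMod 2) (E' : Set V) ≠ span (ZMod 2) (X : Set V) := by
          intro h1
          have h2 := hmin w3 ((hD'm w3).1 w3.2).1 (by rw [hsp3, h1])
          rw [hsp3] at h2
          have h3 : E'.card < E.card := by
            refine Finset.card_lt_card ⟨hE'E, fun h4 => ?_⟩
            exact ((hE'm g).1 (h4 (hAE hg))).2.1 rfl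
          omega
        have hgE' : g ∉ span (ZMod 2) (E' : Set V) := by
          intro h1
          apply hns
          rw [← hw0s]
          refine le_antisymm (span_mono (Finset.coe_subset.2 hE'E)) ?_
          have h3 : span (ZMod 2) ((E.erase (π g) : Finset V) : Set V) ≤
              span (ZMod 2) (E' : Set V) := by
            rw [span_le]
            intro x hx
            rw [Finset.mem_coe, Finset.mem_erase] at hx
            by_cases hxg : x = g
            · rw [hxg]
              exact h1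
            · exact subset_span ((hE'm x).2 ⟨hx.2, hxg, hx.1⟩)
          rw [span_le]
          intro x hx
          by_cases hxp : x = π g
          · rw [hxp]
            exact h3 (hnotcoloop _ hπF)
          · exact h3 (subset_span (Finset.mem_coe.2 (Finset.mem_erase.2 ⟨hxp, hx⟩)))
        obtain ⟨ψ, hψ1, hψ2⟩ := Submodule.exists_le_ker_of_notMem hgE'
        refine ⟨ψ, hψ1, fun x hx hxg hxp => ?_⟩
        have h1 := hψ2 (subset_span ((hE'm x).2 ⟨hx, hxg, hxp⟩))
        exact LinearMap.mem_ker.1 h1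
      choose! ψ hψ1 hψ2 using hψ
      refine flat_pairs E A hAE (fun h1 => h0 (hEX h1)) π hπA ?_ ψ fun g hg =>
        ⟨hψ1 g hg, hψ2 g hg⟩
      intro g hg k hk hgk
      have h1 : cls k = cls g := by
        rw [← hπ2 g hg, hgk, hπ2 k hk]
      rcases (hpair g (hgF g hg) (π g) (hπ1 g hg) (hπg g hg) (hπ2 g hg)).2 k (hAE hk) h1 with
        h2 | h2
      · exact h2.symm
      · exact absurd hk (h2 ▸ hπA g hg)
  obtain ⟨z, hz, hzE⟩ := hNE'
  refine ⟨z, hz, ?_⟩
  rw [PP_res X E hEX hw0s]
  · exact hzE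
  · intro v hv hvE
    have h3 : u' v = 0 := by
      have h4 := hu' ⟨v, hv⟩
      have h5 : six_c X v w2 = 0 := ((hD'm w2).1 w2.2).2 v hvE
      rw [six_c_mem X ⟨v, hv⟩] at h5
      rw [h5, mul_zero] at h4
      exact_mod_cast h4
    rw [h3, zpow_zero]

/-- There are no six linearly independent differences of (the indicator vectors of) cycle sets of the
classes with the label `q` whose total twist numbers differ by less than `T`. -/
def FewClose {ι : Type} [DecidableEq ι] (J : Finset ι) (Cyc : Finset ι → Prop) (a : ι → ℤ)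
    (p : ι → ℕ) (T q : ℕ) : Prop :=
  ¬ ∃ L L' : Fin 6 → Finset ι,
    (∀ j, Close (J.filter fun i => p i = q) Cyc a T (L j) (L' j)) ∧
    LinearIndependent ℤ fun j i => (if i ∈ L j then (1 : ℤ) else 0) - if i ∈ L' j then 1 else 0

/-- **A block without `m + 1` independent differences of close cycle sets** -/
theorem six_blockF {ι V : Type} [DecidableEq ι] [DecidableEq V] [AddCommGroup V]
    [Module (ZMod 2) V] {K m : ℕ} (hK : CardReg K) (hm : 2 * m ≤ K + 1) (Q : Finset ι)
    (Cyc : Finset ι → Prop) (r : ι → V) (hB : Block Q Cyc r)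
    (hrg : ∀ Y ⊆ Q.image r, TRL.Reg Y) (a u : V → ℤ) (C T : ℕ)
    (hF : Follows (Q.image r) a u C T)
    (hrel : ¬ ∃ L L' : Fin (m + 1) → Finset ι,
      (∀ j, Close Q Cyc (fun i => a (r i)) T (L j) (L' j)) ∧
      LinearIndependent ℤ fun j i => (if i ∈ L j then (1 : ℤ) else 0) - if i ∈ L' j then 1 else 0)
    (hc : ¬ Cyc (Q.filter fun i => |a (r i)| < T)) : NZu (Q.image r) u := by
  classical
  by_contra h
  have h0 : (0 : V) ∉ Q.image r := by
    intro h
    obtain ⟨i, hi, h1⟩ := Finset.mem_image.1 h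
    exact hB.ne i hi h1
  have hsupp : span (ZMod 2) (((Q.image r).filter fun v => u v ≠ 0 : Finset V) : Set V) =
      span (ZMod 2) ((Q.image r : Finset V) : Set V) := by
    refine le_antisymm (span_mono (Finset.coe_subset.2 (Finset.filter_subset _ _))) ?_
    have h2 := (hB.co _ (Finset.filter_subset _ _)).1 hc
    unfold Co at h2
    rw [← h2]
    refine span_mono fun v hv => ?_
    rw [Finset.mem_coe, Finset.mem_sdiff] at hv
    obtain ⟨hv1, hv2⟩ := hv
    rw [Finset.mem_coe, Finset.mem_filter]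
    refine ⟨hv1, fun hu0 => hv2 ?_⟩
    obtain ⟨i, hi1, rfl⟩ := Finset.mem_image.1 hv1
    refine Finset.mem_image_of_mem _ (Finset.mem_filter.2 ⟨hi1, ?_⟩)
    by_contra hge
    push Not at hge
    refine (hF {r i} (Finset.singleton_subset_iff.2 hv1) ∅ (Finset.empty_subset _)).1 ?_ ?_
    · rw [Finset.sum_singleton, Finset.sum_empty, sub_zero]
      exact hge
    · rw [Finset.sum_singleton, Finset.sum_empty]
      exact hu0
  obtain ⟨d, hd, hLI⟩ := six_genF K (Q.image r) (fun F hF hFc => hK V F (hrg F hF)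
    ((Finset.card_le_card (Finset.erase_subset _ _)).trans hFc)) h0 u h hsupp m hm
  apply hrel
  choose S S' hS hS' hsu hdS using hd
  refine ⟨fun j => outC Q r (S' j), fun j => outC Q r (S j),
    fun j => close_of_su hB hF (hS' j) (hS j) (hsu j).symm, ?_⟩
  have hval : ∀ j i, ((if i ∈ outC Q r (S' j) then (1 : ℤ) else 0) -
      if i ∈ outC Q r (S j) then 1 else 0) = if i ∈ Q then d j (r i) else 0 := by
    intro j i
    have h1 : ∀ W : Finset V, (if i ∈ outC Q r W then (1 : ℤ) else 0) =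
        if i ∈ Q then 1 - ic W (r i) else 0 := by
      intro W
      have h2 : i ∈ outC Q r W ↔ i ∈ Q ∧ r i ∉ W := by
        unfold outC
        exact Finset.mem_filter
      unfold ic
      by_cases hi : i ∈ Q
      · by_cases hw : r i ∈ W
        · rw [if_neg fun h3 => (h2.1 h3).2 hw, if_pos hi, if_pos hw, sub_self]
        · rw [if_pos (h2.2 ⟨hi, hw⟩), if_pos hi, if_neg hw, sub_zero]
      · rw [if_neg fun h3 => hi (h2.1 h3).1, if_neg hi]
    rw [h1, h1, hdS j]
    split_ifs
    · ring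
    · ring
  have hfun : (fun j i => (if i ∈ outC Q r (S' j) then (1 : ℤ) else 0) -
      if i ∈ outC Q r (S j) then 1 else 0) = fun j i => if i ∈ Q then d j (r i) else 0 := by
    funext j i
    exact hval j i
  show LinearIndependent ℤ fun j i => (if i ∈ outC Q r (S' j) then (1 : ℤ) else 0) -
      if i ∈ outC Q r (S j) then 1 else 0
  rw [hfun]
  rw [Fintype.linearIndependent_iff] at hLI ⊢
  intro g hg
  refine hLI g ?_
  funext v
  rw [Finset.sum_apply, Pi.zero_apply]
  by_cases hv : v ∈ Q.image r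
  · obtain ⟨i, hi, rfl⟩ := Finset.mem_image.1 hv
    have h1 := congrFun hg i
    rw [Finset.sum_apply, Pi.zero_apply] at h1
    rw [← h1]
    refine Finset.sum_congr rfl fun j _ => ?_
    rw [Pi.smul_apply, Pi.smul_apply, if_pos hi]
  · refine Finset.sum_eq_zero fun j _ => ?_
    have h1 : d j v = 0 := by
      rw [hdS j]
      show ic (S j) v - ic (S' j) v = 0
      rw [ic_not _ v fun h => hv ((hS j).1 h), ic_not _ v fun h => hv ((hS' j).1 h), sub_zero]
    rw [Pi.smul_apply, h1, smul_zero]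

/-- **The alternative `FewClose`** -/
theorem few_useF {ι V : Type} [DecidableEq ι] [DecidableEq V] [AddCommGroup V]
    [Module (ZMod 2) V] {K : ℕ} (hK : CardReg K) (hK9 : 9 ≤ K) (J Q : Finset ι)
    (Cyc : Finset ι → Prop) (r : ι → V) (p : ι → ℕ) (q : ℕ) (hQ : Q = (J.filter fun i => p i = q))
    (hB : Block Q Cyc r) (hrg : ∀ Y ⊆ Q.image r, TRL.Reg Y) (a u : V → ℤ) (C T : ℕ)
    (hF : Follows (Q.image r) a u C T) (h : FewClose J Cyc (fun i => a (r i)) p T q)
    (hc : ¬ Cyc (J.filter fun i => p i = q ∧ |a (r i)| < T)) : NZu (Q.image r) u := by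
  refine six_blockF (m := 5) hK (by omega) Q Cyc r hB hrg a u C T hF ?_ ?_
  · rw [hQ]
    exact h
  · intro h
    apply hc
    refine Eq.mp (congrArg Cyc ?_) h
    ext i
    simp only [hQ, Finset.mem_filter, and_assoc]

end Pool.Agent.NHT
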