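import Pool.Agent.NHT.Smooth

/-!
# NHT, module SmA: the form of `smooth_ab` for sets of crossings (helper68)
-/

set_option autoImplicit false

open Module Submodule Pool.Agent.UNI LaurentPolynomial Pool.Agent.SPT Pool.Agent.SPT.Rel
  Pool.Agent.SPT.Lin Pool.Agent.SRH

namespace Pool.Agent.NHT

theorem smooth_core {n : ℕ} (M : Matrix (Fin n) (Fin n) (ZMod 2)) (hM : ∀ i j, M i j = M j i)
    (sigma : Fin n → Bool) (B : ℕ) (hB : (Lin.SS ℤ M sigma).coeff.support.card ≤ B)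
    (J U : Finset (Fin n)) (hU : U ⊆ J)
    (hc : ∀ F ∈ FL M, ∀ F' ∈ FL M,
      |∑ v ∈ F, tw M sigma v - ∑ v ∈ F', tw M sigma v| < 2 * ((B : ℤ) + 2) * (M.rank + 1) →
      U.image M ⊆ F → F ∩ J.image M = F' ∩ J.image M) :
    ∃ t : ℤ[T;T⁻¹], t.coeff.support.card ≤ B ∧
      ∑ K ∈ (Finset.univ.image M \ J.image M).powerset,
        (∏ v ∈ K, (Lin.pw M (fun c => qu ℤ (sigma c)) Finset.univ v - 1)) *
          ph ℤ M (U.image M ∪ K) = dl ℤ ^ M.rank * t :=
  smooth_ab ℤ M hM sigma B hB (J.image M) (U.image M)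
    (Finset.image_subset_image (Finset.subset_univ J)) (Finset.image_subset_image hU) hc

end Pool.Agent.NHT
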