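import Mathlib

/-!
# NHT: close cycle sets, the definitions of the final statement (helper38)

The classes are elements of a type.  `S` is the set of all twist classes, `J` is a set of classes, `a i` is
the twist number of the class `i`, `Cyc C` says that the classes in `C` contain a cycle of a graph whose
edges are the classes, and `CycS` is `Cyc` for the graph of all classes.
-/

set_option autoImplicit false

namespace Pool.Agent.NHT.Text

open Submodule

variable {ι V : Type} [DecidableEq ι]

/-- `L` is a union of cycles (possibly of none): each class of `L` lies in a cycle of classes of `L`. -/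
def CycleSet (Cyc : Finset ι → Prop) (L : Finset ι) : Prop :=
  ∀ i ∈ L, ∃ C ⊆ L, i ∈ C ∧ Cyc C ∧ ¬ Cyc (C.erase i)

/-- `L` and `L'` are close: they are unions of cycles, and their total twist numbers differ by less than
`N`. -/
def Close (S : Finset ι) (CycS : Finset ι → Prop) (a : ι → ℤ) (N : ℕ) (L L' : Finset ι) : Prop :=
  L ⊆ S ∧ L' ⊆ S ∧ CycleSet CycS L ∧ CycleSet CycS L' ∧ |∑ i ∈ L, a i - ∑ i ∈ L', a i| < N

/-- `L₀` is isolated: if `L` and `L'` are close, and `L ∩ J = L₀`, then `L' ∩ J = L₀`. -/
def Isolated (S J : Finset ι) (CycS : Finset ι → Prop) (a : ι → ℤ) (N : ℕ) (L₀ : Finset ι) : Prop :=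
  ∀ L L', Close S CycS a N L L' → L ∩ J = L₀ → L' ∩ J = L₀

/-- The matroid of the vectors in the finite set `X`, after contraction of the subspace `K`, is
series-parallel: it is reduced to the empty matroid by the following steps.

* `loop`: remove a vector of `K`;
* `coloop`: contract a vector which is not in the span of `K` and the other vectors;
* `parallel`: remove a vector `v` which is equal to another vector `w` modulo `K`;
* `series`: contract a vector `v` such that some other vector `w` forms a two-element cut with `v`
  (`v` is not in the span of `K` and of the vectors other than `v` and `w`, but `v + w` is). -/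
inductive SeriesParallel {V : Type} [AddCommGroup V] [Module (ZMod 2) V] [DecidableEq V] :
    Finset V → Submodule (ZMod 2) V → Prop
  | empty (K : Submodule (ZMod 2) V) : SeriesParallel ∅ K
  | loop (X : Finset V) (K : Submodule (ZMod 2) V) (v : V) : v ∈ K → SeriesParallel X K →
      SeriesParallel (insert v X) K
  | coloop (X : Finset V) (K : Submodule (ZMod 2) V) (v : V) :
      v ∉ K ⊔ span (ZMod 2) (X : Set V) →
      SeriesParallel X (K ⊔ span (ZMod 2) {v}) → SeriesParallel (insert v X) K
  | parallel (X : Finset V) (K : Submodule (ZMod 2) V) (v w : V) : w ∈ X → v + w ∈ K →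
      SeriesParallel X K → SeriesParallel (insert v X) K
  | series (X : Finset V) (K : Submodule (ZMod 2) V) (v w : V) : v ≠ w →
      v ∉ K ⊔ span (ZMod 2) (X : Set V) → v + w ∈ K ⊔ span (ZMod 2) (X : Set V) →
      SeriesParallel (insert w X) (K ⊔ span (ZMod 2) {v}) →
      SeriesParallel (insert v (insert w X)) K

/-- All classes in `X`, with at most one exception `e`, lie in a cycle whose other classes `j` all have
`t ≤ a j`.  If `X` is a block with more than one class, this means that the classes in `X` with `t ≤ a j`
connect the vertices of the block and have at most one bridge. -/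
def OneBridge (X : Finset ι) (Cyc : Finset ι → Prop) (a : ι → ℤ) (t : ℤ) : Prop :=
  ∃ e, ∀ i ∈ X, i ≠ e → ∃ C ⊆ X, i ∈ C ∧ Cyc C ∧ ¬ Cyc (C.erase i) ∧ ∀ j ∈ C, j ≠ i → t ≤ a j

/-- The classes in `J` have labels `p i` which do not divide the cycles (for instance the numbers of the
blocks), and for each label there are at most `9` classes, or all classes but at most `5` contain no cycle,
or they are series-parallel (here `w i` is the row of the class `i` in the cut matrix), or the classes with
`t ≤ a i` or those with `t ≤ - a i` connect them with at most one bridge. -/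
def GoodBlocks [AddCommGroup V] [Module (ZMod 2) V] [DecidableEq V] (J : Finset ι)
    (Cyc : Finset ι → Prop) (w : ι → V) (a : ι → ℤ) (t : ℤ) : Prop :=
  ∃ p : ι → ℕ, (∀ C ⊆ J, Cyc C → ∃ q, Cyc (C.filter fun i => p i = q)) ∧ ∀ q,
    (J.filter fun i => p i = q).card ≤ 9 ∨
    (∃ F T : Finset ι, F ⊆ (J.filter fun i => p i = q) ∧ ¬ Cyc F ∧ T.card ≤ 5 ∧
      ∀ i ∈ J, p i = q → i ∈ F ∨ i ∈ T) ∨
    SeriesParallel ((J.filter fun i => p i = q).image w) ⊥ ∨
    OneBridge (J.filter fun i => p i = q) Cyc a t ∨
    OneBridge (J.filter fun i => p i = q) Cyc (-a) t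

/-! ### twist classes

`I i j` says that the crossings `i` and `j` are interlaced, and `e i` is the sign of the crossing `i`. -/

variable {n : ℕ}

/-- `i` and `j` are in the same twist class: they are interlaced with the same other crossings. -/
def Twins (I : Fin n → Fin n → Prop) (i j : Fin n) : Prop :=
  ∀ k, k ≠ i → k ≠ j → (I i k ↔ I j k)

/-- `S` contains exactly one crossing of every twist class of crossings which are interlaced with some
crossing. -/
def Transversal (I : Fin n → Fin n → Prop) (S : Finset (Fin n)) : Prop :=
  (∀ i ∈ S, ∃ j, I i j) ∧ (∀ i ∈ S, ∀ j ∈ S, Twins I i j → i = j) ∧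
    ∀ i, (∃ j, I i j) → ∃ s ∈ S, Twins I i s

open Classical in
/-- The twist number of the class of `i`: the sum of the signs of its crossings, times `-1` if `i` is
interlaced with a crossing of its class. -/
noncomputable def twist (I : Fin n → Fin n → Prop) (e : Fin n → Bool) (i : Fin n) : ℤ :=
  if ∃ j, Twins I i j ∧ I i j then -∑ j with Twins I i j, (if e j then 1 else -1)
  else ∑ j with Twins I i j, (if e j then 1 else -1)

open Classical in
/-- The row of `i` in the cut matrix: the entry of `j` is `1` if `i` and `j` are interlaced, or `j = i` and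
`i` is interlaced with a crossing of its class. -/
noncomputable def cutRow (I : Fin n → Fin n → Prop) (i : Fin n) : Fin n → ZMod 2 := fun j =>
  if I i j ∨ (i = j ∧ ∃ k, Twins I i k ∧ I i k) then 1 else 0

end Pool.Agent.NHT.Text
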