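import Pool.Agent.NHT.TextK
import Pool.Agent.Helper16.Knotoid.Defs
import Pool.Agent.UNI.KDefs

/-!
# NHT: cuts of knotoid diagrams, the definitions of the final statement (helper38)

`D` is the Gauss diagram of a knotoid diagram.  A state `s` of `D` has the smoothing of type `A` at the
crossing `c` if and only if `s c = true`.
-/

set_option autoImplicit false

open LaurentPolynomial

namespace Pool.Agent.NHT.Text

open Pool.Agent.Helper16.Knotoid

variable {n : ℕ}

open Classical in
/-- The smoothing which cuts the twist region of a crossing: it respects the orientation if and only if
the crossing is not interlaced with a crossing of its class. -/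
noncomputable def cutO (D : GaussDiagram n) : Fin n → Bool := fun i =>
  if ∃ j, Twins D.Interlaced i j ∧ D.Interlaced i j then !D.sign i else D.sign i

open Classical in
/-- The graph whose vertices are the components of the state `cutO` and whose edges are the crossings: the
classes in `C` and in `R` contain a cycle which has an edge in `C`.  In other words, the classes in `C`
contain a cycle when the classes in `R` are contracted. -/
def HasCycleO (D : GaussDiagram n) (R C : Finset (Fin n)) : Prop :=
  ∃ Z : Finset (Fin n), (∃ c ∈ Z, ∃ i ∈ C, Twins D.Interlaced c i) ∧
    (∀ c ∈ Z, ∃ i ∈ C ∪ R, Twins D.Interlaced c i) ∧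
    ∀ q : Quot (D.Join (cutO D)),
      Even ((Z.filter fun c => Quot.mk _ (D.overPass c).castSucc = q).card +
        (Z.filter fun c => Quot.mk _ (D.overPass c).succ = q).card)

/-- The number of components of the diagram `D_J`, in which the crossings in `J` are cut (the interval is
closed by an arc). -/
noncomputable def cutCompsO (D : GaussDiagram n) (J : Finset (Fin n)) : ℕ := cutComps D.pos J

open Classical in
/-- The determinant of `D_J`: the sum of `exp (π i / 4) ^ (α - β)` over the states of `D_J` with the least
number of components, where `α` and `β` are the numbers of the smoothings of type `A` and `B`. -/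
noncomputable def cutDetO (D : GaussDiagram n) (J : Finset (Fin n)) : ℂ :=
  ∑ s : Fin n → Bool, if (∀ i ∈ J, s i = cutO D i) ∧
      ∀ s' : Fin n → Bool, (∀ i ∈ J, s' i = cutO D i) → D.comps s ≤ D.comps s' then
    Complex.exp ((Real.pi / 4 : ℝ) * Complex.I) ^ GaussDiagram.stateSign s else 0

end Pool.Agent.NHT.Text
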