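import Pool.Agent.NHT.TextB
import Pool.Agent.NHT.TextO

/-!
# NHT, version 18, module TextC: the final statement for knotoids (helper38)
-/

set_option autoImplicit false

open LaurentPolynomial

namespace Pool.Agent.NHT

open Pool.Agent.SPT Pool.Agent.EQT Pool.Agent.FHP Pool.Agent.TRA Pool.Agent.TRP
open Pool.Agent.Helper16.Knotoid

variable {n : ℕ}

theorem text_cutO (D : GaussDiagram n) : Text.cutO D = cutState D.Interlaced D.sign := rfl

theorem text_cycleO (D : GaussDiagram n) : Text.HasCycleO D = HasCycleInO D := rfl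

theorem text_compsO (D : GaussDiagram n) : Text.cutCompsO D = cutCompsO D := rfl

theorem text_detO (D : GaussDiagram n) (J : Finset (Fin n)) :
    Text.cutDetO D J = cutDetO D J := by
  classical
  unfold Text.cutDetO cutDetO
  refine Finset.sum_congr rfl fun s _ => ?_
  have h0 : ((∀ i ∈ J, s i = Text.cutO D i) ∧ ∀ s' : Fin n → Bool,
      (∀ i ∈ J, s' i = Text.cutO D i) → D.comps s ≤ D.comps s') ↔
      (CutsO D J s ∧ ∀ s' : Fin n → Bool, CutsO D J s' → D.comps s ≤ D.comps s') := Iff.rfl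
  by_cases h : CutsO D J s ∧ ∀ s' : Fin n → Bool, CutsO D J s' → D.comps s ≤ D.comps s'
  · rw [if_pos h, if_pos (h0.2 h)]
    rfl
  · rw [if_neg h, if_neg fun h1 => h (h0.1 h1)]

theorem text_rowO (D : GaussDiagram n) :
    Text.cutRow D.Interlaced = row (D.Cut (cutState D.Interlaced D.sign)) := by
  classical
  funext i j
  have h1 : (D.Interlaced i j ∨ (i = j ∧ ∃ k, Text.Twins D.Interlaced i k ∧
      D.Interlaced i k)) ↔ D.Cut (cutState D.Interlaced D.sign) i j :=
    or_congr Iff.rfl (and_congr Iff.rfl (Graph_cut _ D.sign i).symm)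
  unfold Text.cutRow row
  by_cases h : D.Cut (cutState D.Interlaced D.sign) i j
  · rw [if_pos h, if_pos (h1.2 h)]
  · rw [if_neg h, if_neg fun h2 => h (h1.1 h2)]

theorem cycle_monoO (D : GaussDiagram n) (R C C' : Finset (Fin n)) (h : C ⊆ C')
    (hC : HasCycleInO D R C) : HasCycleInO D R C' := by
  obtain ⟨Z, ⟨c, hc, i, hi, hci⟩, h2, h3⟩ := hC
  refine ⟨Z, ⟨c, hc, i, h hi, hci⟩, fun c hc => ?_, h3⟩
  obtain ⟨i, hi, hci⟩ := h2 c hc
  exact ⟨i, Finset.union_subset_union_left h hi, hci⟩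

end Pool.Agent.NHT
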