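import Mathlib
import Pool.Agent.NHT.SmoothF
import Pool.Agent.NHT.DefsN

/-!
# NHT, module Two: the value at `A = 1` of the part which belongs to one trace (helper11)
-/

set_option autoImplicit false
set_option linter.unusedSectionVars false

open Module Submodule Pool.Agent.UNI LaurentPolynomial Pool.Agent.SPT Pool.Agent.SPT.Rel
  Pool.Agent.SPT.Lin Pool.Agent.SRH Pool.Agent.EQT Pool.Agent.FHP Pool.Agent.TRA Pool.Agent.TRP

namespace Pool.Agent.NHT

open Pool.Agent.Helper16.Knotoid

section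

variable {n : ℕ}

/-- if the corank of the matrix of `J` is at least `|J|` then the matrix is zero -/
theorem iso_of_card (M : Matrix (Fin n) (Fin n) (ZMod 2)) (J : Finset (Fin n))
    (h5 : J.card ≤ crk (remM M (Finset.univ \ J))) : ∀ c ∈ J, ∀ c' ∈ J, M c c' = 0 := by
  classical
  -- vectors in the kernel are supported in `J`
  have hsup : ∀ x ∈ LinearMap.ker (remM M (Finset.univ \ J)).mulVecLin, ∀ c, c ∉ J → x c = 0 := by
    intro x hx c hc
    rw [LinearMap.mem_ker, Matrix.mulVecLin_apply] at hx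
    have h6 : ((remM M (Finset.univ \ J)).mulVec x) c = x c := by
      show ∑ j, remM M (Finset.univ \ J) c j * x j = x c
      have hcR : c ∈ Finset.univ \ J := Finset.mem_sdiff.2 ⟨Finset.mem_univ c, hc⟩
      rw [Finset.sum_eq_single c]
      · rw [remM_apply, if_pos (Or.inl hcR), if_pos rfl, one_mul]
      · intro i _ hi
        rw [remM_apply, if_pos (Or.inl hcR), if_neg (Ne.symm hi), zero_mul]
      · intro h
        exact absurd (Finset.mem_univ c) h
    rw [← h6, hx]
    rfl
  obtain ⟨ρ, hρ⟩ : ∃ ρ : LinearMap.ker (remM M (Finset.univ \ J)).mulVecLin →ₗ[ZMod 2]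
      (↥J → ZMod 2), ∀ x c, ρ x c = x.1 c.1 :=
    ⟨{ toFun := fun x c => x.1 c.1
       map_add' := fun x y => rfl
       map_smul' := fun r x => rfl }, fun _ _ => rfl⟩
  have hρi : Function.Injective ρ := by
    intro x y hxy
    apply Subtype.ext
    funext c
    by_cases hc : c ∈ J
    · have h6 := congrFun hxy ⟨c, hc⟩
      rw [hρ, hρ] at h6
      exact h6
    · rw [hsup x.1 x.2 c hc, hsup y.1 y.2 c hc]
  have hle := LinearMap.finrank_le_finrank_of_injective hρi
  have hJc : finrank (ZMod 2) (↥J → ZMod 2) = J.card := by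
    rw [Module.finrank_fintype_fun_eq_card, Fintype.card_coe]
  have heq : finrank (ZMod 2) (LinearMap.ker (remM M (Finset.univ \ J)).mulVecLin) =
      finrank (ZMod 2) (↥J → ZMod 2) := by
    refine le_antisymm hle ?_
    rw [hJc]
    exact h5
  have hsurj := (LinearMap.injective_iff_surjective_of_finrank_eq_finrank heq).1 hρi
  intro c hc c' hc'
  obtain ⟨x, hx⟩ := hsurj (Pi.single ⟨c', hc'⟩ 1)
  have hx1 : x.1 = Pi.single c' 1 := by
    funext i
    by_cases hi : i ∈ J
    · have h6 := congrFun hx ⟨i, hi⟩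
      rw [hρ] at h6
      rw [h6]
      by_cases h7 : i = c'
      · subst h7
        rw [Pi.single_eq_same, Pi.single_eq_same]
      · rw [Pi.single_eq_of_ne h7, Pi.single_eq_of_ne fun h8 => h7 (congrArg Subtype.val h8)]
    · rw [hsup x.1 x.2 i hi, Pi.single_eq_of_ne]
      rintro rfl
      exact hi hc'
  have h8 := x.2
  rw [LinearMap.mem_ker, Matrix.mulVecLin_apply, hx1, Matrix.mulVec_single_one] at h8
  have h9 := congrFun h8 c
  change remM M (Finset.univ \ J) c c' = 0 at h9
  rw [remM_apply, if_neg] at h9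
  · exact h9
  · rw [Finset.mem_sdiff, Finset.mem_sdiff]
    rintro (h10 | h10)
    · exact h10.2 hc
    · exact h10.2 hc'

/-! ### the sum over the classes outside of `J` -/

theorem mem_outside (M : Matrix (Fin n) (Fin n) (ZMod 2)) (J : Finset (Fin n)) (c : Fin n) :
    c ∈ outside M J ↔ M c ∉ J.image M := by
  unfold outside
  simp only [Finset.mem_filter, Finset.mem_univ, true_and]

/-- the sum over the classes outside of `J` -/
noncomputable def HT (M : Matrix (Fin n) (Fin n) (ZMod 2)) (σ : Fin n → Bool)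
    (J U : Finset (Fin n)) : ℤ[T;T⁻¹] :=
  ∑ B ∈ (Finset.univ.image M \ J.image M).powerset,
    (∏ v ∈ B, (pw M (fun c => qu ℤ (σ c)) Finset.univ v - 1)) * ph ℤ M (U.image M ∪ B)

theorem rr_gen (M : Matrix (Fin n) (Fin n) (ZMod 2)) (hM : ∀ i j, M i j = M j i)
    (σ : Fin n → Bool) (J U : Finset (Fin n)) (hU : U ⊆ J) :
    dl ℤ ^ U.card * HT M σ J U = dl ℤ ^ M.rank * rr M σ J U := by
  classical
  obtain ⟨t', ht'⟩ : ∃ t', t' = HT M σ J U := ⟨_, rfl⟩
  have himg : (outside M J).image M = Finset.univ.image M \ J.image M := by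
    ext v
    constructor
    · intro h
      obtain ⟨c, hc, rfl⟩ := Finset.mem_image.1 h
      exact Finset.mem_sdiff.2 ⟨Finset.mem_image_of_mem M (Finset.mem_univ c),
        (mem_outside M J c).1 hc⟩
    · intro h
      obtain ⟨h1, h2⟩ := Finset.mem_sdiff.1 h
      obtain ⟨c, -, rfl⟩ := Finset.mem_image.1 h1
      exact Finset.mem_image_of_mem M ((mem_outside M J c).2 h2)
  have hpw : ∀ v ∈ Finset.univ.image M \ J.image M,
      pw M (fun c => qu ℤ (σ c)) (outside M J) v = pw M (fun c => qu ℤ (σ c)) Finset.univ v := by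
    intro v hv
    unfold pw
    refine Finset.prod_congr ?_ fun _ _ => rfl
    ext c
    simp only [Finset.mem_filter, Finset.mem_univ, true_and, mem_outside]
    constructor
    · exact fun h => h.2
    · intro h
      refine ⟨?_, h⟩
      rw [h]
      exact (Finset.mem_sdiff.1 hv).2
  have hm := merge (R := ℤ[T;T⁻¹]) M (fun c => qu ℤ (σ c)) (outside M J)
    (fun V => ph ℤ M (U.image M ∪ V))
  rw [himg] at hm
  have h1 : ∑ B ∈ (Finset.univ.image M \ J.image M).powerset,
      (∏ v ∈ B, (pw M (fun c => qu ℤ (σ c)) (outside M J) v - 1)) * ph ℤ M (U.image M ∪ B) =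
      HT M σ J U := by
    unfold HT
    refine Finset.sum_congr rfl fun B hB => ?_
    rw [Finset.prod_congr rfl fun v hv => by rw [hpw v (Finset.mem_powerset.1 hB hv)]]
  rw [h1] at hm
  have hdisj : ∀ W ∈ (outside M J).powerset, Disjoint U W := by
    intro W hW
    rw [Finset.disjoint_left]
    intro c hcU hcW
    have h2 := Finset.mem_powerset.1 hW hcW
    exact (mem_outside M J c).1 h2 (Finset.mem_image_of_mem M (hU hcU))
  rw [← hm]
  unfold rr
  rw [Finset.mul_sum, Finset.mul_sum]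
  refine Finset.sum_congr rfl fun W hW => ?_
  have h4 : ∏ c ∈ W, (qu ℤ (σ c) - 1) = (∏ c ∈ W, al ℤ (σ c) ^ 2) * dl ℤ ^ W.card := by
    rw [Finset.prod_congr rfl fun c _ => qu_sub (σ c), Finset.prod_mul_distrib,
      Finset.prod_const]
  rw [h4]
  unfold ph
  have h5 : dl ℤ ^ M.rank * dl ℤ ^ kap M (U ∪ W) =
      dl ℤ ^ U.card * dl ℤ ^ W.card * dl ℤ ^ ex M (U.image M ∪ W.image M) := by
    have h6 : U.image M ∪ W.image M = (U ∪ W).image M := (Finset.image_union _ _).symm
    rw [← pow_add, ← pow_add, ← pow_add, h6, add_comm M.rank,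
      kap_ex M hM (U ∪ W), Finset.card_union_of_disjoint (hdisj W hW)]
  calc dl ℤ ^ U.card * ((∏ c ∈ W, al ℤ (σ c) ^ 2) * dl ℤ ^ W.card *
        dl ℤ ^ ex M (U.image M ∪ W.image M))
      = (∏ c ∈ W, al ℤ (σ c) ^ 2) * (dl ℤ ^ U.card * dl ℤ ^ W.card *
        dl ℤ ^ ex M (U.image M ∪ W.image M)) := by ring
    _ = _ := by
      rw [← h5]
      ring

/-! ### the matrices -/

theorem dg_union (X Y : Finset (Fin n)) (h : Disjoint X Y) : dg (X ∪ Y) = dg X + dg Y := by
  classical
  unfold dg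
  rw [Matrix.diagonal_add]
  congr 1
  funext c
  by_cases hX : c ∈ X
  · have hY : c ∉ Y := Finset.disjoint_left.1 h hX
    rw [if_pos (Finset.mem_union_left _ hX), if_pos hX, if_neg hY, add_zero]
  · by_cases hY : c ∈ Y
    · rw [if_pos (Finset.mem_union_right _ hY), if_neg hX, if_pos hY, zero_add]
    · rw [if_neg (fun h2 => (Finset.mem_union.1 h2).elim hX hY), if_neg hX, if_neg hY, add_zero]

theorem remM_dg (N : Matrix (Fin n) (Fin n) (ZMod 2)) (R X : Finset (Fin n)) (h : Disjoint X R) :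
    remM (N + dg X) R = remM N R + dg X := by
  classical
  ext i j
  rw [Matrix.add_apply, remM_apply, remM_apply, Matrix.add_apply]
  by_cases h1 : i ∈ R ∨ j ∈ R
  · rw [if_pos h1, if_pos h1]
    have h2 : dg X i j = 0 := by
      unfold dg
      rw [Matrix.diagonal_apply]
      by_cases hij : i = j
      · subst hij
        have h3 : i ∈ R := h1.elim id id
        rw [if_pos rfl, if_neg fun h4 => Finset.disjoint_left.1 h h4 h3]
      · rw [if_neg hij]
    rw [h2, add_zero]
  · rw [if_neg h1, if_neg h1]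

/-- the matrix of `D ^ (J, A)` -/
noncomputable def NN (M : Matrix (Fin n) (Fin n) (ZMod 2)) (J A : Finset (Fin n)) :
    Matrix (Fin n) (Fin n) (ZMod 2) :=
  remM (M + dg ((Finset.univ \ outside M J) \ A)) (outside M J)

/-- the value of the bracket of `D ^ (J, A)` at one -/
theorem evZ_rr (M : Matrix (Fin n) (Fin n) (ZMod 2)) (hM : ∀ i j, M i j = M j i)
    (σ : Fin n → Bool) (J A : Finset (Fin n)) (hA : A ⊆ J) :
    evZ (rr M σ J A) = (-1) ^ (outside M J).card * (-2) ^ crk (NN M J A) := by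
  classical
  obtain ⟨R, hR⟩ : ∃ R, R = outside M J := ⟨_, rfl⟩
  have hdisj : Disjoint ((Finset.univ \ R) \ A) R := by
    rw [Finset.disjoint_left]
    intro c hc hcR
    exact (Finset.mem_sdiff.1 (Finset.mem_sdiff.1 hc).1).2 hcR
  have hAR : ∀ c ∈ A, c ∉ R := by
    intro c hc hcR
    rw [hR] at hcR
    exact (mem_outside M J c).1 hcR (Finset.mem_image_of_mem M (hA hc))
  have hN : ∀ i j, (M + dg ((Finset.univ \ R) \ A)) i j =
      (M + dg ((Finset.univ \ R) \ A)) j i := by
    intro i j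
    rw [Matrix.add_apply, Matrix.add_apply, hM]
    congr 1
    unfold dg
    rw [Matrix.diagonal_apply, Matrix.diagonal_apply]
    by_cases h : i = j
    · rw [h]
    · rw [if_neg h, if_neg (Ne.symm h)]
  have h2 := crk_sum (M + dg ((Finset.univ \ R) \ A)) hN R ∅
  rw [Finset.empty_union] at h2
  unfold NN
  rw [← hR, ← h2]
  unfold rr
  rw [map_sum, ← hR]
  refine Finset.sum_nbij' (fun W => R \ W) (fun W => R \ W) ?_ ?_ ?_ ?_ ?_
  · intro W _
    exact Finset.mem_powerset.2 Finset.sdiff_subset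
  · intro W _
    exact Finset.mem_powerset.2 Finset.sdiff_subset
  · intro W hW
    exact Finset.sdiff_sdiff_eq_self (Finset.mem_powerset.1 hW)
  · intro W hW
    exact Finset.sdiff_sdiff_eq_self (Finset.mem_powerset.1 hW)
  · intro W hW
    rw [Finset.mem_powerset] at hW
    rw [map_mul, map_prod, map_pow, evZ_dl]
    have h1 : ∏ c ∈ W, evZ (al ℤ (σ c) ^ 2) = 1 := by
      refine Finset.prod_eq_one fun c _ => ?_
      rw [map_pow, evZ_al, one_pow]
    rw [h1, one_mul, kap_crk]
    have h3 : (Finset.univ \ (A ∪ W)) = ((Finset.univ \ R) \ A) ∪ (R \ W) := by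
      ext c
      simp only [Finset.mem_sdiff, Finset.mem_univ, true_and, Finset.mem_union, not_or]
      constructor
      · rintro ⟨h4, h5⟩
        by_cases h6 : c ∈ R
        · exact Or.inr ⟨h6, h5⟩
        · exact Or.inl ⟨h6, h4⟩
      · rintro (⟨h4, h5⟩ | ⟨h4, h5⟩)
        · exact ⟨h5, fun h6 => h4 (hW h6)⟩
        · exact ⟨fun h6 => hAR c h6 h4, h5⟩
    have h4 : ∀ N : Matrix (Fin n) (Fin n) (ZMod 2), remM N ∅ = N := by
      intro N
      ext i j
      rw [remM_apply, if_neg]
      simp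
    rw [h3, h4, h4, dg_union _ _ (hdisj.mono_right Finset.sdiff_subset), add_assoc]

/-! ### coranks -/

theorem crk_dg_one (N : Matrix (Fin n) (Fin n) (ZMod 2)) (c : Fin n) :
    crk N ≤ crk (N + dg {c}) + 1 := by
  classical
  obtain ⟨α, hα⟩ : ∃ α : (Fin n → ZMod 2) →ₗ[ZMod 2] ZMod 2, ∀ x, α x = x c :=
    ⟨LinearMap.proj c, fun _ => rfl⟩
  have h1 : LinearMap.ker N.mulVecLin ⊓ LinearMap.ker α ≤ LinearMap.ker (N + dg {c}).mulVecLin := by
    intro x hx
    rw [Submodule.mem_inf, LinearMap.mem_ker, LinearMap.mem_ker, Matrix.mulVecLin_apply, hα] at hx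
    rw [LinearMap.mem_ker, Matrix.mulVecLin_apply]
    exact (ker_dg N c x hx.2).1 hx.1
  have h2 := Submodule.finrank_mono h1
  have h3 := finrank_inf_ker (LinearMap.ker N.mulVecLin) α
  unfold crk
  by_cases h4 : ∀ x ∈ LinearMap.ker N.mulVecLin, α x = 0
  · have h5 := h3.1 h4
    omega
  · push Not at h4
    have h5 := h3.2 h4
    omega

theorem crk_dg_loop (N : Matrix (Fin n) (Fin n) (ZMod 2)) (c : Fin n)
    (h : ∀ x, N.mulVec x = 0 → x c = 0) : crk N ≤ crk (N + dg {c}) := by
  classical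
  refine Submodule.finrank_mono fun x hx => ?_
  rw [LinearMap.mem_ker, Matrix.mulVecLin_apply] at hx ⊢
  exact (ker_dg N c x (h x hx)).1 hx

theorem crk_dg_le (L : Finset (Fin n)) : ∀ N : Matrix (Fin n) (Fin n) (ZMod 2),
    crk N ≤ crk (N + dg L) + L.card := by
  classical
  induction L using Finset.induction_on with
  | empty =>
    intro N
    have h0 : (dg (∅ : Finset (Fin n))) = 0 := by
      ext i j
      unfold dg
      rw [Matrix.diagonal_apply]
      simp
    rw [h0, add_zero, Finset.card_empty]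
    omega
  | insert c L hc ih =>
    intro N
    have h1 := crk_dg_one N c
    have h2 := ih (N + dg {c})
    rw [add_assoc, add_comm (dg {c}), dg_insert L c hc] at h2
    rw [Finset.card_insert_of_notMem hc]
    omega

/-- **The first switch does not lower the corank** -/
theorem crk_dg_lt (N : Matrix (Fin n) (Fin n) (ZMod 2)) (L : Finset (Fin n)) (hne : L.Nonempty)
    (h : ∀ x, N.mulVec x = 0 → ∀ c ∈ L, x c = 0) : crk N + 1 ≤ crk (N + dg L) + L.card := by
  classical
  obtain ⟨c, hc⟩ := hne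
  have h1 := crk_dg_loop N c fun x hx => h x hx c hc
  have h2 := crk_dg_le (L.erase c) (N + dg {c})
  rw [add_assoc, add_comm (dg {c}), dg_insert (L.erase c) c (Finset.notMem_erase c L),
    Finset.insert_erase hc] at h2
  have h3 := Finset.card_erase_add_one hc
  omega

/-- the kernel of the matrix of `D_J` -/
theorem ker_NN (M : Matrix (Fin n) (Fin n) (ZMod 2)) (J : Finset (Fin n)) (x : Fin n → ZMod 2)
    (hx : (NN M J J).mulVec x = 0) :
    (∀ c, c ∉ J → x c = 0) ∧ ∀ i ∈ J, ∑ j ∈ J, M i j * x j = 0 := by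
  classical
  obtain ⟨K, hK⟩ : ∃ K, K = Finset.univ \ outside M J := ⟨_, rfl⟩
  have hR : outside M J = Finset.univ \ K := by
    rw [hK, Finset.sdiff_sdiff_eq_self (Finset.subset_univ _)]
  have hJK : J ⊆ K := by
    intro c hc
    rw [hK]
    exact Finset.mem_sdiff.2 ⟨Finset.mem_univ c, fun h =>
      (mem_outside M J c).1 h (Finset.mem_image_of_mem M hc)⟩
  have hNN : NN M J J = remM (M + dg (K \ J)) (Finset.univ \ K) := by
    unfold NN
    rw [← hK, hR]
  rw [hNN] at hx
  have hout : ∀ c, c ∉ K → x c = 0 := by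
    intro c hc
    have h1 := congrFun hx c
    rwa [rest_mulVec' _ K x c hc] at h1
  have hrow : ∀ i ∈ K, ∑ j ∈ K, M i j * x j + (if i ∈ J then 0 else x i) = 0 := by
    intro i hi
    have h1 := congrFun hx i
    rw [rest_mulVec _ K x i hi] at h1
    have h2 : ∑ j ∈ K, (M + dg (K \ J)) i j * x j = ∑ j ∈ K, M i j * x j +
        (if i ∈ J then 0 else x i) := by
      have h3 : ∀ j ∈ K, (M + dg (K \ J)) i j * x j = M i j * x j +
          (if i = j then (if i ∈ J then 0 else x i) else 0) := by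
        intro j _
        rw [Matrix.add_apply, add_mul]
        congr 1
        unfold dg
        rw [Matrix.diagonal_apply]
        by_cases hij : i = j
        · subst hij
          rw [if_pos rfl, if_pos rfl]
          by_cases hiJ : i ∈ J
          · rw [if_pos hiJ, if_neg fun h => (Finset.mem_sdiff.1 h).2 hiJ, zero_mul]
          · rw [if_neg hiJ, if_pos (Finset.mem_sdiff.2 ⟨hi, hiJ⟩), one_mul]
        · rw [if_neg hij, if_neg hij, zero_mul]
      rw [Finset.sum_congr rfl h3, Finset.sum_add_distrib, Finset.sum_ite_eq, if_pos hi]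
    rw [h2] at h1
    exact h1
  have hJ0 : ∀ i ∈ J, ∑ j ∈ K, M i j * x j = 0 := by
    intro i hi
    have h1 := hrow i (hJK hi)
    rwa [if_pos hi, add_zero] at h1
  have hsup : ∀ c, c ∉ J → x c = 0 := by
    intro c hc
    by_cases hcK : c ∈ K
    · have h1 := hrow c hcK
      rw [if_neg hc] at h1
      have h2 : M c ∈ J.image M := by
        by_contra h3
        have h4 := (mem_outside M J c).2 h3
        rw [hK] at hcK
        exact (Finset.mem_sdiff.1 hcK).2 h4
      obtain ⟨i, hi, hic⟩ := Finset.mem_image.1 h2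
      have h3 : ∑ j ∈ K, M c j * x j = 0 := by
        rw [← hic]
        exact hJ0 i hi
      rwa [h3, zero_add] at h1
    · exact hout c hcK
  refine ⟨hsup, fun i hi => ?_⟩
  rw [← hJ0 i hi]
  exact Finset.sum_subset hJK fun c _ hc => by rw [hsup c hc, mul_zero]

/-- the corank of the matrix of `D_J` -/
theorem crk_NN (M : Matrix (Fin n) (Fin n) (ZMod 2)) (J : Finset (Fin n))
    (h : ∃ i ∈ J, ∃ j ∈ J, M i j ≠ 0) : crk (NN M J J) < J.card := by
  classical
  by_contra h1
  have h2 : crk (NN M J J) ≤ crk (remM M (Finset.univ \ J)) := by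
    refine Submodule.finrank_mono fun x hx => ?_
    rw [LinearMap.mem_ker, Matrix.mulVecLin_apply] at hx ⊢
    obtain ⟨h3, h4⟩ := ker_NN M J x hx
    funext c
    by_cases hc : c ∈ J
    · rw [rest_mulVec M J x c hc]
      exact h4 c hc
    · rw [rest_mulVec' M J x c hc]
      exact h3 c hc
  obtain ⟨i, hi, j, hj, hij⟩ := h
  exact hij (iso_of_card M J ((not_lt.1 h1).trans h2) i hi j hj)

/-! ### the identity for one trace -/

theorem img_inj (M : Matrix (Fin n) (Fin n) (ZMod 2)) (J : Finset (Fin n))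
    (hinj : Set.InjOn M (J : Set (Fin n))) (A A' : Finset (Fin n)) (hA : A ⊆ J) (hA' : A' ⊆ J) :
    A.image M ⊆ A'.image M ↔ A ⊆ A' := by
  classical
  constructor
  · intro h c hc
    obtain ⟨c', hc', h1⟩ := Finset.mem_image.1 (h (Finset.mem_image_of_mem M hc))
    have h2 := hinj (Finset.mem_coe.2 (hA' hc')) (Finset.mem_coe.2 (hA hc)) h1
    exact h2 ▸ hc'
  · exact fun h => Finset.image_subset_image h

/-- **The identity for one trace** -/
theorem trace_identity (M : Matrix (Fin n) (Fin n) (ZMod 2)) (hM : ∀ i j, M i j = M j i)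
    (σ : Fin n → Bool) (B : ℕ) (hB : (SS ℤ M σ).coeff.support.card ≤ B)
    (J : Finset (Fin n)) (hinj : Set.InjOn M (J : Set (Fin n))) (K : Finset (Fin n)) (hK : K ⊆ J)
    (hpos : ∀ F ∈ FL M, ∀ F' ∈ FL M,
      |∑ v ∈ F, tw M σ v - ∑ v ∈ F', tw M σ v| < 2 * ((B : ℤ) + 2) * (M.rank + 1) →
      F ∩ J.image M = K.image M → F' ∩ J.image M = K.image M) :
    ∃ t, dl ℤ ^ J.card * t = ∑ A ∈ J.powerset.filter (fun A => K ⊆ A),
      (-1) ^ (A \ K).card * (∏ v ∈ K.image M, pw M (fun c => qu ℤ (σ c)) Finset.univ v) *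
        (dl ℤ ^ (J.card - A.card) * rr M σ J A) := by
  classical
  obtain ⟨y, hy⟩ : ∃ y : (Fin n → ZMod 2) → ℤ[T;T⁻¹], ∀ v, y v =
    pw M (fun c => qu ℤ (σ c)) Finset.univ v := ⟨_, fun _ => rfl⟩
  have hy' : y = pw M (fun c => qu ℤ (σ c)) Finset.univ := funext hy
  have hJX : J.image M ⊆ Finset.univ.image M := Finset.image_subset_image (Finset.subset_univ J)
  have hcl : ∀ F ∈ FL M, ∀ F' ∈ FL M,
      |∑ v ∈ F, tw M σ v - ∑ v ∈ F', tw M σ v| < 2 * ((B : ℤ) + 2) * (M.rank + 1) →
      (fun F => if F ∩ J.image M = K.image M then (1 : ℤ) else 0) F =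
        (fun F => if F ∩ J.image M = K.image M then (1 : ℤ) else 0) F' := by
    intro F hF F' hF' h
    have h1 := hpos F hF F' hF' h
    have h2 := hpos F' hF' F hF (by rw [abs_sub_comm]; exact h)
    show (if F ∩ J.image M = K.image M then (1 : ℤ) else 0) =
      if F' ∩ J.image M = K.image M then 1 else 0
    exact if_congr ⟨h1, h2⟩ rfl rfl
  obtain ⟨t, ht⟩ := HV_clusterF ℤ M hM σ B hB
    (fun F => if F ∩ J.image M = K.image M then 1 else 0) hcl
  obtain ⟨Ψ, hΨ⟩ : ∃ Ψ : Finset (Fin n → ZMod 2) → ℤ[T;T⁻¹], ∀ A, Ψ A =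
    if A = K.image M then 1 else 0 := ⟨_, fun _ => rfl⟩
  have h1 := expand_psi (Finset.univ.image M) (J.image M) hJX y Ψ (ph ℤ M)
  have h2 : ∑ F ∈ (Finset.univ.image M).powerset, C (if F ∩ J.image M = K.image M then (1 : ℤ)
      else 0) * Lin.GG M (fun c => qu ℤ (σ c)) Finset.univ (ph ℤ M) F =
      ∑ F ∈ (Finset.univ.image M).powerset, Ψ (F ∩ J.image M) *
        ((∏ k ∈ F, y k) * Lin.KK (Finset.univ.image M) (ph ℤ M) F) := by
    refine Finset.sum_congr rfl fun F _ => ?_
    rw [hΨ, hy']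
    unfold Lin.GG
    by_cases h : F ∩ J.image M = K.image M
    · rw [if_pos h, if_pos h, map_one]
    · rw [if_neg h, if_neg h, map_zero]
  rw [h2, h1] at ht
  have hDD : ∀ A, DD y Ψ A = if K.image M ⊆ A then (-1) ^ (A \ K.image M).card *
      ∏ v ∈ K.image M, y v else 0 := by
    intro A
    unfold DD
    by_cases h : K.image M ⊆ A
    · rw [if_pos h, Finset.sum_eq_single (K.image M)]
      · rw [hΨ, if_pos rfl, mul_one]
      · intro L _ hL
        rw [hΨ, if_neg hL, mul_zero, zero_mul]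
      · intro h3
        exact absurd (Finset.mem_powerset.2 h) h3
    · rw [if_neg h]
      refine Finset.sum_eq_zero fun L hL => ?_
      rw [hΨ, if_neg, mul_zero, zero_mul]
      rintro rfl
      exact h (Finset.mem_powerset.1 hL)
  have h3 : ∑ A ∈ (J.image M).powerset, ∑ B ∈ (Finset.univ.image M \ J.image M).powerset,
      DD y Ψ A * (∏ k ∈ B, (y k - 1)) * ph ℤ M (A ∪ B) =
      ∑ A ∈ J.powerset, DD y Ψ (A.image M) * HT M σ J A := by
    refine Finset.sum_nbij' (fun A' => J.filter fun c => M c ∈ A') (fun A => A.image M)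
      ?_ ?_ ?_ ?_ ?_
    · intro A' _
      exact Finset.mem_powerset.2 (Finset.filter_subset _ _)
    · intro A hA
      exact Finset.mem_powerset.2 (Finset.image_subset_image (Finset.mem_powerset.1 hA))
    · intro A' hA'
      ext v
      constructor
      · intro h
        obtain ⟨c, hc, rfl⟩ := Finset.mem_image.1 h
        exact (Finset.mem_filter.1 hc).2
      · intro h
        obtain ⟨c, hc, rfl⟩ := Finset.mem_image.1 (Finset.mem_powerset.1 hA' h)
        exact Finset.mem_image_of_mem M (Finset.mem_filter.2 ⟨hc, h⟩)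
    · intro A hA
      rw [Finset.mem_powerset] at hA
      ext c
      rw [Finset.mem_filter]
      constructor
      · rintro ⟨hc, h⟩
        obtain ⟨c', hc', h5⟩ := Finset.mem_image.1 h
        have h6 := hinj (Finset.mem_coe.2 (hA hc')) (Finset.mem_coe.2 hc) h5
        exact h6 ▸ hc'
      · exact fun h => ⟨hA h, Finset.mem_image_of_mem M h⟩
    · intro A' hA'
      have h4 : (J.filter fun c => M c ∈ A').image M = A' := by
        ext v
        constructor
        · intro h
          obtain ⟨c, hc, rfl⟩ := Finset.mem_image.1 h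
          exact (Finset.mem_filter.1 hc).2
        · intro h
          obtain ⟨c, hc, rfl⟩ := Finset.mem_image.1 (Finset.mem_powerset.1 hA' h)
          exact Finset.mem_image_of_mem M (Finset.mem_filter.2 ⟨hc, h⟩)
      show _ = DD y Ψ ((J.filter fun c => M c ∈ A').image M) *
        HT M σ J (J.filter fun c => M c ∈ A')
      unfold HT
      rw [h4, Finset.mul_sum]
      refine Finset.sum_congr rfl fun B _ => ?_
      rw [hy', mul_assoc]
  rw [h3] at ht
  refine ⟨t, mul_left_cancel₀ (pow_ne_zero M.rank dlZ_ne) ?_⟩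
  have h4 : dl ℤ ^ M.rank * (dl ℤ ^ J.card * t) = dl ℤ ^ J.card * (dl ℤ ^ M.rank * t) := by ring
  rw [h4, ← ht, Finset.mul_sum, Finset.mul_sum, Finset.sum_filter]
  refine Finset.sum_congr rfl fun A hA => ?_
  rw [Finset.mem_powerset] at hA
  rw [hDD]
  by_cases h5 : K ⊆ A
  · have h6 : K.image M ⊆ A.image M := Finset.image_subset_image h5
    rw [if_pos h5, if_pos h6]
    have h7 : (A.image M \ K.image M).card = (A \ K).card := by
      have e1 := Finset.card_sdiff_add_card_eq_card h5
      have e2 := Finset.card_sdiff_add_card_eq_card h6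
      have e3 : (A.image M).card = A.card :=
        Finset.card_image_of_injOn (hinj.mono (Finset.coe_subset.2 hA))
      have e4 : (K.image M).card = K.card :=
        Finset.card_image_of_injOn (hinj.mono (Finset.coe_subset.2 hK))
      omega
    have h8 : dl ℤ ^ J.card = dl ℤ ^ (J.card - A.card) * dl ℤ ^ A.card := by
      rw [← pow_add, Nat.sub_add_cancel (Finset.card_le_card hA)]
    have h9 := rr_gen M hM σ J A hA
    rw [h7, h8, hy']
    calc dl ℤ ^ (J.card - A.card) * dl ℤ ^ A.card * ((-1) ^ (A \ K).card *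
          (∏ v ∈ K.image M, pw M (fun c => qu ℤ (σ c)) Finset.univ v) * HT M σ J A)
        = (-1) ^ (A \ K).card * (∏ v ∈ K.image M, pw M (fun c => qu ℤ (σ c)) Finset.univ v) *
          dl ℤ ^ (J.card - A.card) * (dl ℤ ^ A.card * HT M σ J A) := by ring
      _ = _ := by
        rw [h9]
        ring
  · have h6 : ¬ K.image M ⊆ A.image M := fun h7 => h5 ((img_inj M J hinj K A hK hA).1 h7)
    rw [if_neg h5, if_neg h6, zero_mul, mul_zero]

/-- **The contradiction modulo powers of two** -/
theorem trace_false (M : Matrix (Fin n) (Fin n) (ZMod 2)) (hM : ∀ i j, M i j = M j i)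
    (σ : Fin n → Bool) (J : Finset (Fin n)) (K : Finset (Fin n)) (hK : K ⊆ J)
    (hne : ∃ i ∈ J, ∃ j ∈ J, M i j ≠ 0)
    (hker : ∀ x, (NN M J J).mulVec x = 0 → ∀ c ∈ J \ K, x c = 0) (t : ℤ[T;T⁻¹])
    (ht : dl ℤ ^ J.card * t = ∑ A ∈ J.powerset.filter (fun A => K ⊆ A),
      (-1) ^ (A \ K).card * (∏ v ∈ K.image M, pw M (fun c => qu ℤ (σ c)) Finset.univ v) *
        (dl ℤ ^ (J.card - A.card) * rr M σ J A)) : False := by
  classical
  obtain ⟨κ, hκ⟩ : ∃ κ, κ = crk (NN M J J) := ⟨_, rfl⟩
  have hlt : κ < J.card := by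
    rw [hκ]
    exact crk_NN M J hne
  obtain ⟨y, hy⟩ : ∃ y, y = evZ (∏ v ∈ K.image M, pw M (fun c => qu ℤ (σ c)) Finset.univ v) :=
    ⟨_, rfl⟩
  have hyu : IsUnit y := by
    rw [hy, map_prod]
    refine Finset.prod_induction _ IsUnit (fun a b => IsUnit.mul) isUnit_one fun v _ => ?_
    unfold pw
    rw [map_prod]
    refine Finset.prod_induction _ IsUnit (fun a b => IsUnit.mul) isUnit_one fun c _ => ?_
    rw [evZ_qu]
    exact isUnit_one.neg
  have h1 := congrArg evZ ht
  rw [map_mul, map_pow, evZ_dl, map_sum] at h1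
  have h2 : ∀ A ∈ J.powerset.filter (fun A => K ⊆ A), evZ ((-1) ^ (A \ K).card *
      (∏ v ∈ K.image M, pw M (fun c => qu ℤ (σ c)) Finset.univ v) *
        (dl ℤ ^ (J.card - A.card) * rr M σ J A)) =
      (-1) ^ (A \ K).card * y * (-1) ^ (outside M J).card *
        (-2) ^ (J.card - A.card + crk (NN M J A)) := by
    intro A hA
    rw [Finset.mem_filter, Finset.mem_powerset] at hA
    rw [map_mul, map_mul, map_mul, map_pow, map_pow, map_neg, map_one, evZ_dl, ← hy,
      evZ_rr M hM σ J A hA.1, pow_add]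
    ring
  rw [Finset.sum_congr rfl h2] at h1
  have hJmem : J ∈ J.powerset.filter (fun A => K ⊆ A) :=
    Finset.mem_filter.2 ⟨Finset.mem_powerset_self J, hK⟩
  rw [← Finset.add_sum_erase _ _ hJmem, Nat.sub_self, zero_add, ← hκ] at h1
  have hdvd1 : (2 : ℤ) ^ (κ + 1) ∣ (-2) ^ J.card * evZ t := by
    refine Dvd.dvd.mul_right ?_ _
    have h3 : (-2 : ℤ) ^ J.card = (-1) ^ J.card * 2 ^ J.card := by
      rw [← mul_pow]
      norm_num
    rw [h3]
    exact Dvd.dvd.mul_left (pow_dvd_pow 2 (by omega)) _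
  have hdvd2 : (2 : ℤ) ^ (κ + 1) ∣ ∑ A ∈ (J.powerset.filter (fun A => K ⊆ A)).erase J,
      (-1) ^ (A \ K).card * y * (-1) ^ (outside M J).card *
        (-2) ^ (J.card - A.card + crk (NN M J A)) := by
    refine Finset.dvd_sum fun A hA => ?_
    rw [Finset.mem_erase, Finset.mem_filter, Finset.mem_powerset] at hA
    obtain ⟨hAJ, hA, hKA⟩ := hA
    have hL : (J \ A).Nonempty := by
      rw [Finset.sdiff_nonempty]
      exact fun h => hAJ (Finset.Subset.antisymm hA h)
    have hN : NN M J A = NN M J J + dg (J \ A) := by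
      unfold NN
      have hJo : J ⊆ Finset.univ \ outside M J := by
        intro c hc
        exact Finset.mem_sdiff.2 ⟨Finset.mem_univ c, fun h =>
          (mem_outside M J c).1 h (Finset.mem_image_of_mem M hc)⟩
      have e1 : (Finset.univ \ outside M J) \ A =
          ((Finset.univ \ outside M J) \ J) ∪ (J \ A) := by
        ext c
        simp only [Finset.mem_sdiff, Finset.mem_univ, true_and, Finset.mem_union]
        constructor
        · rintro ⟨h4, h5⟩
          by_cases h6 : c ∈ J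
          · exact Or.inr ⟨h6, h5⟩
          · exact Or.inl ⟨h4, h6⟩
        · rintro (⟨h4, h5⟩ | ⟨h4, h5⟩)
          · exact ⟨h4, fun h6 => h5 (hA h6)⟩
          · exact ⟨(Finset.mem_sdiff.1 (hJo h4)).2, h5⟩
      have e2 : Disjoint ((Finset.univ \ outside M J) \ J) (J \ A) := by
        rw [Finset.disjoint_left]
        intro c hc hc'
        exact (Finset.mem_sdiff.1 hc).2 (Finset.mem_sdiff.1 hc').1
      have e3 : Disjoint (J \ A) (outside M J) := by
        rw [Finset.disjoint_left]
        intro c hc hc'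
        exact (Finset.mem_sdiff.1 (hJo (Finset.mem_sdiff.1 hc).1)).2 hc'
      rw [e1, dg_union _ _ e2, ← add_assoc, remM_dg _ _ _ e3]
    have h4 := crk_dg_lt (NN M J J) (J \ A) hL fun x hx c hc =>
      hker x hx c (Finset.mem_sdiff.2 ⟨(Finset.mem_sdiff.1 hc).1, fun h5 =>
        (Finset.mem_sdiff.1 hc).2 (hKA h5)⟩)
    rw [← hN, ← hκ] at h4
    have h5 := Finset.card_sdiff_add_card_eq_card hA
    refine Dvd.dvd.mul_left ?_ _
    have h6 : (-2 : ℤ) ^ (J.card - A.card + crk (NN M J A)) =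
        (-1) ^ (J.card - A.card + crk (NN M J A)) *
          2 ^ (J.card - A.card + crk (NN M J A)) := by
      rw [← mul_pow]
      norm_num
    rw [h6]
    exact Dvd.dvd.mul_left (pow_dvd_pow 2 (by omega)) _
  have hdvd3 : (2 : ℤ) ^ (κ + 1) ∣ (-1) ^ (J \ K).card * y * (-1) ^ (outside M J).card *
      (-2) ^ κ := by
    have h3 := dvd_sub hdvd1 hdvd2
    rwa [h1, add_sub_cancel_right] at h3
  have h7 := Int.natAbs_dvd_natAbs.2 hdvd3
  rw [Int.natAbs_mul, Int.natAbs_mul, Int.natAbs_mul, Int.natAbs_pow, Int.natAbs_pow,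
    Int.natAbs_pow, Int.natAbs_pow, Int.natAbs_of_isUnit hyu] at h7
  have h8 : (-1 : ℤ).natAbs = 1 := rfl
  have h9 : (-2 : ℤ).natAbs = 2 := rfl
  have h10 : (2 : ℤ).natAbs = 2 := rfl
  rw [h8, h9, h10, one_pow, one_pow, one_mul, one_mul, one_mul] at h7
  have h11 := (Nat.pow_dvd_pow_iff_le_right (by norm_num)).1 h7
  omega

end

end Pool.Agent.NHT
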