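import Mathlib
import Pool.Agent.NHT.Two
import Pool.Agent.NHT.DefsT

/-!
# NHT, module TwoK: one trace, knots and knotoids (helper11)
-/

set_option autoImplicit false
set_option linter.unusedSectionVars false

open Module Submodule Pool.Agent.UNI LaurentPolynomial Pool.Agent.SPT Pool.Agent.SPT.Rel
  Pool.Agent.SPT.Lin Pool.Agent.SRH Pool.Agent.EQT Pool.Agent.FHP Pool.Agent.TRA Pool.Agent.TRP

namespace Pool.Agent.NHT

open Pool.Agent.Helper16.Knotoid

variable {n : ℕ}

theorem two_close (D : GaussDiagram n) (S : Finset (Fin n)) (hS : Transversal D.Interlaced S)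
    (J : Finset (Fin n)) (hJ : J ⊆ S) (L₀ : Finset (Fin n)) (hL₀ : L₀ ⊆ J)
    (Cyc : Finset (Fin n) → Prop) (hblock : Block S Cyc (row (Graph_R D.Interlaced D.sign)))
    (B : ℕ)
    (hl : ∃ i ∈ J, ∃ j ∈ J, D.Cut (cutState D.Interlaced D.sign) i j)
    (he : ∀ Z, EvenPart (D.Cut (cutState D.Interlaced D.sign)) J Z → ∀ i ∈ L₀, i ∉ Z)
    (hc : ∀ L L', Close S Cyc (cutTwist D.Interlaced D.sign) (2 * (B + 2) * (S.card + 1)) L L' →
      L ∩ J = L₀ → L' ∩ J = L₀) : B < terms D.normalizedBracket := by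
  classical
  by_contra hB'
  have hB : D.normalizedBracket.coeff.support.card ≤ B := not_lt.1 hB'
  have har : (fun i => twist (Graph_R D.Interlaced D.sign) (cutState D.Interlaced D.sign)
      (row (Graph_R D.Interlaced D.sign) i)) = cutTwist D.Interlaced D.sign :=
    funext fun i => twist_row (Graph_irrefl D) (Graph_int_symm D) i
  rw [← har] at hc
  obtain ⟨σ, hσ⟩ : ∃ σ, σ = cutState D.Interlaced D.sign := ⟨_, rfl⟩
  have hR : Graph_R D.Interlaced D.sign = D.Cut σ := by
    rw [hσ]
    rfl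
  have hr : ∀ c, row (Graph_R D.Interlaced D.sign) c = D.gmat σ c := by
    intro c
    rw [hR]
    exact row_eq D σ c
  have hr' : row (Graph_R D.Interlaced D.sign) = fun c => D.gmat σ c := funext hr
  have hrows : S.image (row (Graph_R D.Interlaced D.sign)) =
      (Finset.univ.image (D.gmat σ)).erase 0 := by
    rw [← Graph_image (Graph_irrefl D) (Graph_int_symm D) hS]
    unfold rows
    rw [hr']
  have htw : ∀ v, twist (Graph_R D.Interlaced D.sign) σ v = tw (D.gmat σ) σ v := by
    intro v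
    unfold twist tw SPT.signedCount
    refine Finset.sum_congr ?_ fun _ _ => rfl
    ext c
    simp only [Finset.mem_filter, Finset.mem_univ, true_and, hr]
  have hinjS : Set.InjOn (row (Graph_R D.Interlaced D.sign)) (S : Set (Fin n)) :=
    Graph_inj (e := D.sign) (Graph_irrefl D) (Graph_int_symm D) hS
  have hinj : Set.InjOn (D.gmat σ) (J : Set (Fin n)) := by
    intro i hi j hj h
    exact hinjS (hJ hi) (hJ hj) (by rw [hr, hr]; exact h)
  have hrank : (D.gmat σ).rank ≤ S.card := by
    have h1 := SRH.rank_le D σ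
    rw [← hR, Graph_image (Graph_irrefl D) (Graph_int_symm D) hS] at h1
    exact h1.trans Finset.card_image_le
  have hN' : 2 * (B + 2) * ((D.gmat σ).rank + 1) ≤ 2 * (B + 2) * (S.card + 1) :=
    Nat.mul_le_mul_left _ (by omega)
  have hcyc : ∀ F ∈ FL (D.gmat σ), S.filter (fun i => row (Graph_R D.Interlaced D.sign) i ∉ F) ⊆ S ∧
      CycleSet Cyc (S.filter fun i => row (Graph_R D.Interlaced D.sign) i ∉ F) ∧
      (∑ i ∈ S.filter (fun i => row (Graph_R D.Interlaced D.sign) i ∉ F),
        twist (Graph_R D.Interlaced D.sign) (cutState D.Interlaced D.sign)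
          (row (Graph_R D.Interlaced D.sign) i) =
        ∑ v ∈ Finset.univ.image (D.gmat σ), tw (D.gmat σ) σ v - ∑ v ∈ F, tw (D.gmat σ) σ v) ∧
      (F ∩ J.image (D.gmat σ) = (J \ L₀).image (D.gmat σ) ↔
        S.filter (fun i => row (Graph_R D.Interlaced D.sign) i ∉ F) ∩ J = L₀) := by
    intro F hF
    unfold FL at hF
    rw [Finset.mem_filter, Finset.mem_powerset] at hF
    refine ⟨Finset.filter_subset _ _, ?_, ?_, ?_⟩
    · intro i hi
      rw [Finset.mem_filter] at hi
      refine Block.inCycle hblock F ?_ i hi.1 hi.2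
      intro v hv hs
      refine hF.2 v ?_ hs
      rw [hrows] at hv
      exact (Finset.mem_erase.1 hv).2
    · have h1 := sum_out S _ hinjS _ F hrows hF.1 (fun h => hF.2 0 h (zero_mem _))
        (tw (D.gmat σ) σ)
      rw [← h1]
      refine Finset.sum_congr rfl fun i _ => ?_
      rw [← hσ]
      exact htw _
    · constructor
      · intro h
        ext i
        rw [Finset.mem_inter, Finset.mem_filter, hr]
        constructor
        · rintro ⟨⟨h1, h2⟩, h3⟩
          by_contra h4
          have h5 : D.gmat σ i ∈ F ∩ J.image (D.gmat σ) := by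
            rw [h]
            exact Finset.mem_image_of_mem _ (Finset.mem_sdiff.2 ⟨h3, h4⟩)
          exact h2 (Finset.mem_inter.1 h5).1
        · intro h1
          refine ⟨⟨hJ (hL₀ h1), fun h2 => ?_⟩, hL₀ h1⟩
          have h3 : D.gmat σ i ∈ (J \ L₀).image (D.gmat σ) := by
            rw [← h]
            exact Finset.mem_inter.2 ⟨h2, Finset.mem_image_of_mem _ (hL₀ h1)⟩
          obtain ⟨j, hj, hji⟩ := Finset.mem_image.1 h3
          have h4 := hinj (Finset.mem_coe.2 (Finset.mem_sdiff.1 hj).1)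
            (Finset.mem_coe.2 (hL₀ h1)) hji
          exact (Finset.mem_sdiff.1 hj).2 (h4 ▸ h1)
      · intro h
        have h0 : ∀ i ∈ J, (D.gmat σ i ∉ F ↔ i ∈ L₀) := by
          intro i hi
          rw [← h, Finset.mem_inter, Finset.mem_filter, hr]
          exact ⟨fun h1 => ⟨⟨hJ hi, h1⟩, hi⟩, fun h1 => h1.1.2⟩
        ext v
        constructor
        · intro h1
          obtain ⟨h2, h3⟩ := Finset.mem_inter.1 h1
          obtain ⟨i, hi, rfl⟩ := Finset.mem_image.1 h3
          exact Finset.mem_image_of_mem _ (Finset.mem_sdiff.2 ⟨hi, fun h4 =>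
            (h0 i hi).2 h4 h2⟩)
        · intro h1
          obtain ⟨i, hi, rfl⟩ := Finset.mem_image.1 h1
          rw [Finset.mem_sdiff] at hi
          refine Finset.mem_inter.2 ⟨?_, Finset.mem_image_of_mem _ hi.1⟩
          by_contra h4
          exact hi.2 ((h0 i hi.1).1 h4)
  obtain ⟨t, ht⟩ := trace_identity (D.gmat σ) (D.gmat_symm σ) σ B (card_SSZ D σ B hB) J hinj
    (J \ L₀) Finset.sdiff_subset (by
    intro F hF F' hF' h hJF
    obtain ⟨h1, h2, h3, h4⟩ := hcyc F hF
    obtain ⟨h1', h2', h3', h4'⟩ := hcyc F' hF'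
    refine h4'.2 (hc _ _ ⟨h1, h1', h2, h2', ?_⟩ (h4.1 hJF))
    have h6 : ∑ i ∈ S.filter (fun i => row (Graph_R D.Interlaced D.sign) i ∉ F),
        (fun i => twist (Graph_R D.Interlaced D.sign) (cutState D.Interlaced D.sign)
          (row (Graph_R D.Interlaced D.sign) i)) i -
        ∑ i ∈ S.filter (fun i => row (Graph_R D.Interlaced D.sign) i ∉ F'),
        (fun i => twist (Graph_R D.Interlaced D.sign) (cutState D.Interlaced D.sign)
          (row (Graph_R D.Interlaced D.sign) i)) i =
        -(∑ v ∈ F, tw (D.gmat σ) σ v - ∑ v ∈ F', tw (D.gmat σ) σ v) := by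
      show (∑ i ∈ _, twist (Graph_R D.Interlaced D.sign) (cutState D.Interlaced D.sign)
          (row (Graph_R D.Interlaced D.sign) i)) - (∑ i ∈ _, twist (Graph_R D.Interlaced D.sign)
          (cutState D.Interlaced D.sign) (row (Graph_R D.Interlaced D.sign) i)) = _
      rw [h3, h3']
      ring
    rw [h6, abs_neg]
    refine h.trans_le ?_
    have h7 : ((2 * (B + 2) * ((D.gmat σ).rank + 1) : ℕ) : ℤ) ≤
        ((2 * (B + 2) * (S.card + 1) : ℕ) : ℤ) := by exact_mod_cast hN'
    push_cast at h7 ⊢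
    exact h7)
  have hent : ∀ i j, D.gmat σ i j = if D.Cut σ i j then 1 else 0 := by
    intro i j
    rw [← row_eq D σ i]
    rfl
  rw [← hσ] at hl he
  refine trace_false (D.gmat σ) (D.gmat_symm σ) σ J (J \ L₀) Finset.sdiff_subset ?_ ?_ t ht
  · obtain ⟨i, hi, j, hj, hij⟩ := hl
    refine ⟨i, hi, j, hj, ?_⟩
    rw [hent, if_pos hij]
    exact one_ne_zero
  · intro x hx c hc0
    obtain ⟨h1, h2⟩ := ker_NN (D.gmat σ) J x hx
    rw [Finset.mem_sdiff, Finset.mem_sdiff, not_and, not_not] at hc0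
    have hcL : c ∈ L₀ := hc0.2 hc0.1
    by_contra hxc
    have hv : ∀ y : ZMod 2, y ≠ 0 → y = 1 := by decide
    have hx1 : x c = 1 := hv _ hxc
    refine he (J.filter fun j => x j = 1) ⟨Finset.filter_subset _ _, fun i hi => ?_⟩ c hcL
      (Finset.mem_filter.2 ⟨hL₀ hcL, hx1⟩)
    have h3 := h2 i hi
    have h4 : ∑ j ∈ J, D.gmat σ i j * x j =
        ((((J.filter fun j => x j = 1).filter fun j => D.Cut σ i j).card : ℕ) : ZMod 2) := by
      rw [Finset.filter_filter, Finset.card_filter, Nat.cast_sum]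
      refine Finset.sum_congr rfl fun j _ => ?_
      rw [hent]
      by_cases h5 : x j = 1
      · by_cases h6 : D.Cut σ i j
        · rw [if_pos h6, if_pos ⟨h5, h6⟩, h5]
          norm_num
        · rw [if_neg h6, if_neg fun h7 => h6 h7.2]
          norm_num
      · have h6 : x j = 0 := by
          by_contra h7
          exact h5 (hv _ h7)
        have h8 : ¬ (x j = 1 ∧ D.Cut σ i j) := fun h7 => h5 h7.1
        rw [if_neg h8, h6, mul_zero, Nat.cast_zero]
    rw [h4] at h3
    exact (ZMod.natCast_eq_zero_iff_even).1 h3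

/-- **Knotoid diagrams** -/
theorem knotoidTwo (D : GaussDiagram n) (S : Finset (Fin n)) (hS : Transversal D.Interlaced S)
    (J : Finset (Fin n)) (hJ : J ⊆ S) (L₀ : Finset (Fin n)) (hL₀ : L₀ ⊆ J) (B : ℕ)
    (hl : ∃ i ∈ J, ∃ j ∈ J, D.Cut (cutState D.Interlaced D.sign) i j)
    (he : ∀ Z, EvenPart (D.Cut (cutState D.Interlaced D.sign)) J Z → ∀ i ∈ L₀, i ∉ Z)
    (hc : ∀ L L', Close S (HasCycleInO D ∅) (cutTwist D.Interlaced D.sign)
      (2 * (B + 2) * (S.card + 1)) L L' → L ∩ J = L₀ → L' ∩ J = L₀) :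
    B < terms D.normalizedBracket := by
  have hblock := thm_KnotoidBlock n D S S hS (Finset.Subset.refl S)
  rw [Finset.sdiff_self] at hblock
  exact two_close D S hS J hJ L₀ hL₀ _ hblock B hl he hc

/-- **Knot diagrams** -/
theorem knotTwo (g : GaussJones.Code n) (e : Fin n → Bool) (S : Finset (Fin n))
    (hS : Transversal (GaussJones.Interlaced g) S) (J : Finset (Fin n)) (hJ : J ⊆ S)
    (L₀ : Finset (Fin n)) (hL₀ : L₀ ⊆ J) (B : ℕ)
    (hl : ∃ i ∈ J, ∃ j ∈ J, GaussJones.Cut g e (cutState (GaussJones.Interlaced g) e) i j)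
    (he : ∀ Z, EvenPart (GaussJones.Cut g e (cutState (GaussJones.Interlaced g) e)) J Z →
      ∀ i ∈ L₀, i ∉ Z)
    (hc : ∀ L L', Close S (HasCycleIn g ∅) (cutTwist (GaussJones.Interlaced g) e)
      (2 * (B + 2) * (S.card + 1)) L L' → L ∩ J = L₀ → L' ∩ J = L₀) :
    B < terms (GaussJones.fPoly g e) := by
  classical
  have hn : 0 < n := by
    obtain ⟨i, -⟩ := hl
    exact i.pos
  have hI := interlaced_fun g e
  have hcut : (cutOpen g e).Cut (cutState (cutOpen g e).Interlaced (cutOpen g e).sign) =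
      GaussJones.Cut g e (cutState (GaussJones.Interlaced g) e) := by
    funext i j
    refine propext ?_
    show (cutOpen g e).Interlaced i j ∨ (i = j ∧ cutState (cutOpen g e).Interlaced
      (cutOpen g e).sign i ≠ (cutOpen g e).sign i) ↔ _
    rw [hI]
    exact Iff.rfl
  have hblock := thm_KnotBlock n g e S S hS (Finset.Subset.refl S)
  rw [Finset.sdiff_self] at hblock
  rw [f_closed hn]
  rw [← hcut] at hl he
  rw [← hI] at hS hc hblock
  exact two_close (cutOpen g e) S hS J hJ L₀ hL₀ _ hblock B hl he hc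

end Pool.Agent.NHT
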