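import Pool.Agent.NHT.Class10
import Pool.Agent.NHT.DefsU

/-!
# NHT, module UVec: the blocks through exact integer weights (helper19)

`S` contains one crossing of every twist class, `a i` is the twist number of the class of `i`, `J` is a
set of classes, `CycS C` says that the classes in `C` contain a cycle of the graph of all classes,
`Cyc C` says this for the graph of `J`, and `p i` is the label of the class of `i` (for instance the
number of its block).
-/

set_option autoImplicit false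
set_option linter.unusedSectionVars false

open Submodule Module LaurentPolynomial

namespace Pool.Agent.NHT

open Pool.Agent.SPT Pool.Agent.SPT.Rel Pool.Agent.TRA Pool.Agent.TRP

section

variable {ι V : Type} [DecidableEq ι] [DecidableEq V] [AddCommGroup V] [Module (ZMod 2) V]

theorem sameSum_iff (Q : Finset ι) (Cyc : Finset ι → Prop) (u : ι → ℤ) (L L' : Finset ι) :
    Close Q Cyc u 1 L L' ↔ SameSum Q Cyc u L L' := by
  unfold Close SameSum
  have h : |∑ i ∈ L, u i - ∑ i ∈ L', u i| < ((1 : ℕ) : ℤ) ↔ ∑ i ∈ L, u i = ∑ i ∈ L', u i := by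
    rw [Nat.cast_one, Int.abs_lt_one_iff, sub_eq_zero]
  rw [h]

theorem sameSum_congr {Q : Finset ι} {Cyc : Finset ι → Prop} {u u' : ι → ℤ}
    (h : ∀ i ∈ Q, u i = u' i) (L L' : Finset ι) : SameSum Q Cyc u L L' ↔ SameSum Q Cyc u' L L' := by
  have h1 : ∀ L ⊆ Q, ∑ i ∈ L, u i = ∑ i ∈ L, u' i :=
    fun L hL => Finset.sum_congr rfl fun i hi => h i (hL hi)
  constructor
  · rintro ⟨h2, h3, h4, h5, h6⟩
    exact ⟨h2, h3, h4, h5, by rw [← h1 L h2, ← h1 L' h3]; exact h6⟩
  · rintro ⟨h2, h3, h4, h5, h6⟩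
    exact ⟨h2, h3, h4, h5, by rw [h1 L h2, h1 L' h3]; exact h6⟩

/-- only the integers `u i` for the classes in `J` matter -/
theorem GoodBlockU.congr {J : Finset ι} {Cyc : Finset ι → Prop} {w : ι → V} {u u' : ι → ℤ}
    {p : ι → ℕ} {q : ℕ} (hu : ∀ i ∈ J, u i = u' i) (h : GoodBlockU J Cyc w u p q) :
    GoodBlockU J Cyc w u' p q := by
  classical
  obtain ⟨Q, hQ⟩ : ∃ Q : Finset ι, Q = J.filter fun i => p i = q := ⟨_, rfl⟩
  have huQ : ∀ i ∈ Q, u i = u' i := by
    intro i hi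
    rw [hQ] at hi
    exact hu i (Finset.mem_filter.1 hi).1
  have hfil : ∀ P ⊆ Q, (P.filter fun i => u i = 0) = P.filter fun i => u' i = 0 :=
    fun P hP => Finset.filter_congr fun i hi => by rw [huQ i (hP hi)]
  unfold GoodBlockU at h ⊢
  rw [← hQ] at h ⊢
  rcases h with ⟨h1, h2⟩ | ⟨s, hs⟩ | ⟨O, hO, hev, hone, hlong⟩ | ⟨ψ, hψ, hψ0⟩
  · refine Or.inl ⟨?_, ?_⟩
    · rw [← hfil Q (Finset.Subset.refl Q)]
      exact h1
    · rcases h2 with h2 | h2
      · exact Or.inl h2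
      · refine Or.inr ?_
        rintro ⟨L, L', hL, hli⟩
        exact h2 ⟨L, L', fun j => (sameSum_congr huQ _ _).2 (hL j), hli⟩
  · refine Or.inr (Or.inl ⟨s, ?_⟩)
    have h3 : (Q.powerset.filter fun Z => CycleUnion Cyc Z ∧ ∑ i ∈ Z, u i = s) =
        Q.powerset.filter fun Z => CycleUnion Cyc Z ∧ ∑ i ∈ Z, u' i = s := by
      refine Finset.filter_congr fun Z hZ => ?_
      rw [Finset.mem_powerset] at hZ
      rw [Finset.sum_congr rfl fun i hi => huQ i (hZ hi)]
    rw [← h3]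
    exact hs
  · refine Or.inr (Or.inr (Or.inl ⟨O, hO, fun L L' hLL =>
      hev L L' ((sameSum_congr huQ _ _).2 hLL), hone, ?_⟩))
    rw [← hfil (Q \ O) Finset.sdiff_subset]
    exact hlong
  · exact Or.inr (Or.inr (Or.inr ⟨ψ, fun L L' hLL => hψ L L' ((sameSum_congr huQ _ _).2 hLL), hψ0⟩))

/-- the exact form is the form with `T = 1` -/
theorem GoodBlockU.good {J : Finset ι} {Cyc : Finset ι → Prop} {w : ι → V} {u : ι → ℤ} {p : ι → ℕ}
    {q : ℕ} (h : GoodBlockU J Cyc w u p q) : GoodBlock10 J Cyc w u p 1 q := by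
  classical
  obtain ⟨Q, hQ⟩ : ∃ Q : Finset ι, Q = J.filter fun i => p i = q := ⟨_, rfl⟩
  have habs : ∀ i, (|u i| < ((1 : ℕ) : ℤ)) ↔ u i = 0 := by
    intro i
    rw [Nat.cast_one, Int.abs_lt_one_iff]
  unfold GoodBlockU at h
  unfold GoodBlock10
  rw [← hQ] at h ⊢
  rcases h with ⟨h1, h2⟩ | ⟨s, hs⟩ | ⟨O, hO, hev, hone, hlong⟩ | ⟨ψ, hψ, hψ0⟩
  · refine Or.inl ⟨?_, ?_⟩
    · have h3 : (J.filter fun i => p i = q ∧ |u i| < ((1 : ℕ) : ℤ)) =
          Q.filter fun i => u i = 0 := by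
        ext i
        rw [hQ, Finset.mem_filter, Finset.mem_filter, Finset.mem_filter, habs, and_assoc]
      rw [h3]
      exact h1
    · rcases h2 with h2 | h2
      · exact Or.inl h2
      · refine Or.inr ?_
        rintro ⟨L, L', hL, hli⟩
        rw [← hQ] at hL
        exact h2 ⟨L, L', fun j => (sameSum_iff Q Cyc u _ _).1 (hL j), hli⟩
  · refine Or.inr (Or.inl ⟨s, ?_, ?_⟩)
    · rw [← hQ]
      exact hs
    · intro Z _ _ hne
      rw [Nat.cast_one]
      exact Int.one_le_abs (sub_ne_zero.2 hne)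
  · refine Or.inr (Or.inr (Or.inl ⟨O, ?_, ?_, ?_, ?_⟩))
    · rw [← hQ]
      exact hO
    · rw [← hQ]
      exact fun L L' hLL => hev L L' ((sameSum_iff Q Cyc u _ _).1 hLL)
    · rw [← hQ]
      exact hone
    · rw [← hQ]
      have h3 : ((Q \ O).filter fun i => |u i| < ((1 : ℕ) : ℤ)) =
          (Q \ O).filter fun i => u i = 0 := Finset.filter_congr fun i _ => habs i
      rw [h3]
      exact hlong
  · refine Or.inr (Or.inr (Or.inr ⟨ψ, fun L L' hLL => ?_, hψ0⟩))
    rw [Finset.inter_eq_left.2 hLL.1, Finset.inter_eq_left.2 hLL.2.1]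
    exact hψ L L' ((sameSum_iff Q Cyc u _ _).1 hLL)

/-- **The exact form for the blocks** -/
theorem blocksU [Module.Finite (ZMod 2) V] (J : Finset ι) (Cyc : Finset ι → Prop) (r : ι → V)
    (hB : Block J Cyc r) (hreg : ∀ Y ⊆ J.image r, TRL.Reg Y) (u : ι → ℤ)
    (h : ∃ p : ι → ℕ, Splits J Cyc p ∧ ∀ q, GoodBlockU J Cyc r u p q) :
    ∃ z : ℂ, ‖z‖ = 1 ∧ forestSum Cyc J (fun i => z ^ u i) ≠ 0 := by
  classical
  obtain ⟨u', hu'⟩ : ∃ u' : V → ℤ, ∀ i ∈ J, u' (r i) = u i := by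
    refine ⟨fun v => if h : ∃ i ∈ J, r i = v then u h.choose else 0, fun i hi => ?_⟩
    have h : ∃ j ∈ J, r j = r i := ⟨i, hi, rfl⟩
    show (if h : ∃ j ∈ J, r j = r i then u h.choose else 0) = u i
    rw [dif_pos h]
    exact congrArg u (hB.inj h.choose_spec.1 hi h.choose_spec.2)
  have hNZ : NZu (J.image r) u' := by
    refine blocks10 J Cyc r hB hreg u' u' 0 1 le_rfl ?_ ?_ ?_
    · intro S _ S' _
      refine ⟨fun h1 h2 => ?_, fun h1 => ?_⟩
      · rw [h2, sub_self, abs_zero] at h1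
        norm_num at h1
      · rw [Nat.cast_zero] at h1
        have h2 := abs_nonpos_iff.1 h1
        omega
    · intro v _ h1
      rw [Nat.cast_one] at h1
      have h2 : u' v ≠ 0 := by
        intro h3
        rw [h3, abs_zero] at h1
        norm_num at h1
      exact mul_self_pos.2 h2
    · obtain ⟨p, hp, hq⟩ := h
      exact ⟨p, hp, fun q => ((hq q).congr fun i hi => (hu' i hi).symm).good⟩
  obtain ⟨z, hz, hne⟩ := hNZ
  refine ⟨z, hz, ?_⟩
  rw [← TRJ.thm_Forest ι V J Cyc r hB (fun i => z ^ u i) (fun v => z ^ u' v) fun i hi => by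
    rw [hu' i hi]]
  exact hne

/-- sums over products of powers -/
theorem prod_zpow_u (z : ℂ) (hz : z ≠ 0) (u : ι → ℤ) (L : Finset ι) :
    ∏ i ∈ L, z ^ u i = z ^ ∑ i ∈ L, u i := by
  induction L using Finset.induction_on with
  | empty => rw [Finset.prod_empty, Finset.sum_empty, _root_.zpow_zero]
  | insert a s ha ih => rw [Finset.prod_insert ha, Finset.sum_insert ha, zpow_add₀ hz, ih]

/-- **The criterion with integers gives weights** -/
theorem UCriterion.weighted [Module.Finite (ZMod 2) V] {S J : Finset ι}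
    {CycS Cyc : Finset ι → Prop} {r : ι → V} (hB : Block J Cyc r)
    (hreg : ∀ Y ⊆ J.image r, TRL.Reg Y) {a : ι → ℤ} {N : ℕ}
    (h : UCriterion S J CycS Cyc r a N) : WeightedOn S J CycS Cyc a N := by
  obtain ⟨u, hu, h⟩ := h
  obtain ⟨z, hz, hne⟩ := blocksU J Cyc r hB hreg u h
  have hz0 : z ≠ 0 := by
    intro h0
    rw [h0, norm_zero] at hz
    exact zero_ne_one hz
  refine ⟨fun i => z ^ u i, fun i _ => zpow_ne_zero _ hz0, fun L L' hLL => ?_, Or.inl hne⟩
  rw [prod_zpow_u z hz0, prod_zpow_u z hz0, hu L L' hLL]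

end

end Pool.Agent.NHT
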