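import Mathlib
import Pool.Agent.NHT.Disc
import Pool.Agent.SPT.CluG

/-!
# NHT, module Win: twist numbers near odd multiples of one number (helper46)

If the integers `a v` differ by little from odd multiples `t v * m` of a large number `m`, and `u` is
close to a multiple of `a`, then the weights `z ^ u v`, with `z = exp (π i / (l m))`, are near `-1`, and
the polynomial of the spanning sets is not zero there.
-/

set_option autoImplicit false
set_option linter.unusedSectionVars false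

open Submodule Module

namespace Pool.Agent.NHT

open Pool.Agent.SPT

/-- the powers of `-1` -/
theorem exp_pi_int (t : ℤ) :
    Complex.exp (Complex.I * ((Real.pi * t : ℝ) : ℂ)) = if Odd t then -1 else 1 := by
  have h1 : Complex.I * ((Real.pi * t : ℝ) : ℂ) = (t : ℂ) * (Real.pi * Complex.I) := by
    push_cast
    ring
  rw [h1, Complex.exp_int_mul, Complex.exp_pi_mul_I]
  split_ifs with h
  · exact h.neg_one_zpow
  · exact (Int.not_odd_iff_even.1 h).neg_one_zpow

/-- exponentials of numbers close to each other -/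
theorem exp_near (α β : ℝ) :
    ‖Complex.exp (Complex.I * α) - Complex.exp (Complex.I * β)‖ ≤ |α - β| := by
  have h1 : Complex.exp (Complex.I * α) - Complex.exp (Complex.I * β) =
      Complex.exp (Complex.I * β) * (Complex.exp (Complex.I * ((α - β : ℝ) : ℂ)) - 1) := by
    rw [mul_sub, ← Complex.exp_add, mul_one]
    congr 2
    push_cast
    ring
  rw [h1, norm_mul, Complex.norm_exp_I_mul_ofReal, one_mul]
  exact Real.norm_exp_I_mul_ofReal_sub_one_le

/-- the weights `z ^ u v` -/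
theorem near_core {V : Type} (Y : Finset V) (a u t : V → ℤ) (lam T m : ℕ) (hlam : 1 ≤ lam)
    (hm0 : 0 < m)
    (hu : ∀ v ∈ Y, |u v - lam * a v| ≤ lam * T) (z : ℂ)
    (hz : z = Complex.exp (Complex.I * ((Real.pi / (lam * m) : ℝ) : ℂ))) :
    ∀ v ∈ Y, ‖z ^ u v - (if Odd (t v) then -1 else 1)‖ * m ≤ Real.pi *
      ((|a v - t v * m| : ℤ) + T) := by
  intro v hv
  have hlr : (0 : ℝ) < lam := by exact_mod_cast hlam
  have hmr : (0 : ℝ) < m := by exact_mod_cast hm0
  have h1 : z ^ u v = Complex.exp (Complex.I * ((Real.pi * (u v / (lam * m)) : ℝ) : ℂ)) := by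
    rw [hz, ← Complex.exp_int_mul]
    congr 1
    push_cast
    ring
  rw [h1, ← exp_pi_int]
  have e0 := exp_near (Real.pi * (u v / (lam * m))) (Real.pi * t v)
  rw [← mul_sub, abs_mul, abs_of_pos Real.pi_pos] at e0
  refine (mul_le_mul_of_nonneg_right e0 hmr.le).trans ?_
  rw [mul_assoc]
  refine mul_le_mul_of_nonneg_left ?_ Real.pi_pos.le
  have e1 : (u v / (lam * m) - t v : ℝ) * m = (u v - t v * lam * m) / lam := by
    field_simp
  have e2 : |u v - t v * lam * m| ≤ lam * (|a v - t v * m| + T) := by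
    have f1 := hu v hv
    have f3 : u v - t v * lam * m = (u v - lam * a v) + lam * (a v - t v * m) := by ring
    have f4 : |u v - t v * lam * m| ≤ |u v - lam * a v| + lam * |a v - t v * m| := by
      rw [f3]
      refine (abs_add_le _ _).trans (le_of_eq ?_)
      rw [abs_mul, Nat.abs_cast]
    linarith
  have e3 : |(u v - t v * lam * m : ℝ)| ≤ lam * ((|a v - t v * m| : ℤ) + T) := by
    exact_mod_cast e2
  have e4 : |(u v / (lam * m) - t v : ℝ)| * m = |(u v - t v * lam * m : ℝ)| / lam := by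
    rw [← abs_of_pos hlr, ← abs_div, ← abs_of_pos hmr, ← abs_mul, abs_of_pos hlr, abs_of_pos hmr,
      e1]
  rw [e4, div_le_iff₀ hlr]
  linarith

/-- **Twist numbers near odd multiples of `m`** -/
theorem near_use_odd {V : Type} [AddCommGroup V] [Module (ZMod 2) V] [DecidableEq V] (Y : Finset V)
    (h0 : (0 : V) ∉ Y) (a u t : V → ℤ) (lam T m : ℕ)
    (hlam : 1 ≤ lam) (hT : 1 ≤ T) (hu : ∀ v ∈ Y, |u v - lam * a v| ≤ lam * T)
    (ho : ∀ v ∈ Y, Odd (t v))
    (h2 : 4 * (Y.card * T + ∑ v ∈ Y, (a v - t v * m).natAbs) ≤ m) : NZu Y u := by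
  classical
  rcases Y.eq_empty_or_nonempty with hY | hne
  · refine ⟨1, by simp, ?_⟩
    rw [hY]
    unfold PP Spans
    simp
  have hk1 : 1 ≤ Y.card := hne.card_pos
  have hm0 : 0 < m := by
    have e1 : 0 < Y.card * T := Nat.mul_pos hk1 hT
    omega
  have hmr : (0 : ℝ) < m := by exact_mod_cast hm0
  obtain ⟨z, hz⟩ : ∃ z : ℂ, z = Complex.exp (Complex.I * ((Real.pi / (lam * m) : ℝ) : ℂ)) :=
    ⟨_, rfl⟩
  have hz1 : ‖z‖ = 1 := by
    rw [hz]
    exact Complex.norm_exp_I_mul_ofReal _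
  have hnc := near_core Y a u t lam T m hlam hm0 hu z hz
  refine ⟨z, hz1, PP_neg_one Y h0 _ ?_⟩
  have e1 : ∀ v ∈ Y, ‖z ^ u v + 1‖ * m ≤
      Real.pi * (((a v - t v * m).natAbs : ℝ) + T) := by
    intro v hv
    have e2 := hnc v hv
    rw [if_pos (ho v hv), sub_neg_eq_add] at e2
    have e3 : ((a v - t v * m).natAbs : ℝ) = ((|a v - t v * m| : ℤ) : ℝ) := by
      rw [Int.abs_eq_natAbs, Int.cast_natCast]
    rw [e3]
    exact e2
  have e2 := Finset.sum_le_sum e1
  rw [← Finset.sum_mul, ← Finset.mul_sum, Finset.sum_add_distrib, Finset.sum_const,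
    nsmul_eq_mul] at e2
  have e3 : (4 : ℝ) * (∑ v ∈ Y, ((a v - t v * m).natAbs : ℝ) + Y.card * T) ≤ m := by
    have e4 : 4 * (∑ v ∈ Y, (a v - t v * m).natAbs + Y.card * T) ≤ m := by omega
    exact_mod_cast e4
  have e4 : (∑ v ∈ Y, ‖z ^ u v + 1‖) * m < 1 * m := by
    have e5 := mul_le_mul_of_nonneg_left e3 Real.pi_pos.le
    have e6 := mul_lt_mul_of_pos_right Real.pi_lt_four hmr
    linarith
  exact lt_of_mul_lt_mul_right e4 hmr.le

/-- **Twist numbers near odd multiples of `m`**, for integers -/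
theorem near_odd_use {V : Type} [AddCommGroup V] [Module (ZMod 2) V] [DecidableEq V] (Y : Finset V)
    (h0 : (0 : V) ∉ Y) (a u t : V → ℤ) (l : ℤ) (T m : ℕ) (hl : 1 ≤ l) (hT : 1 ≤ T)
    (hu : ∀ v ∈ Y, |u v - l * a v| ≤ l * T) (ho : ∀ v ∈ Y, Odd (t v))
    (h : 4 * (((Y.card * T : ℕ) : ℤ) + ∑ v ∈ Y, |a v - t v * m|) ≤ (m : ℤ)) : NZu Y u := by
  have h1 : ((l.toNat : ℕ) : ℤ) = l := Int.toNat_of_nonneg (by omega)
  refine near_use_odd Y h0 a u t l.toNat T m (by omega) hT ?_ ho ?_
  · intro v hv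
    rw [h1]
    exact hu v hv
  · zify
    push_cast at h
    exact h

end Pool.Agent.NHT
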